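import Pool.Agent.Lib.MP_3467cd_al.M4

open Pointwise

namespace Pool.Agent.Lib.MP_3467cd_al

variable {G : Type} [Group G] {V : Type} [MulAction G V] {X : SimpleGraph V}

theorem act1_dist_le (hc : IsCubulation G X) (g : G) (a b : V) :
    X.dist (g • a) (g • b) ≤ X.dist a b := by
  obtain ⟨w, hw⟩ := hc.median.1.exists_walk_length_eq_dist a b
  have h := SimpleGraph.dist_le (w.map (⟨fun v => g • v, fun h => hc.adj g _ _ h⟩ : X →g X))
  rw [SimpleGraph.Walk.length_map, hw] at h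
  exact h

theorem act1_forall {α : Type} [MulAction G α] (g : G) {p : α → Prop} :
    (∀ x, p x) ↔ ∀ x, p (g • x) := (MulAction.surjective g).forall

theorem act1_exists {α : Type} [MulAction G α] (g : G) {p : α → Prop} :
    (∃ x, p x) ↔ ∃ x, p (g • x) := (MulAction.surjective g).exists

theorem IsCubulation.adj_iff (hc : IsCubulation G X) (g : G) {a b : V} :
    X.Adj (g • a) (g • b) ↔ X.Adj a b := by
  refine ⟨fun h => ?_, hc.adj g a b⟩
  simpa using hc.adj g⁻¹ _ _ h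

theorem IsCubulation.dist_smul (hc : IsCubulation G X) (g : G) (a b : V) :
    X.dist (g • a) (g • b) = X.dist a b := by
  refine le_antisymm (act1_dist_le hc g a b) ?_
  simpa using act1_dist_le hc g⁻¹ (g • a) (g • b)

theorem IsCubulation.btw_smul (hc : IsCubulation G X) (g : G) {x m y : V} :
    Btw X (g • x) (g • m) (g • y) ↔ Btw X x m y := by
  simp only [Btw, hc.dist_smul]

theorem IsCubulation.smul_half (hc : IsCubulation G X) (g : G) (a b : V) :
    g • half X a b = half X (g • a) (g • b) := by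
  ext v
  obtain ⟨v, rfl⟩ := MulAction.surjective g v
  simp only [Set.smul_mem_smul_set_iff, half, Set.mem_ofPred_eq, hc.dist_smul]

theorem IsHalf.smul (hc : IsCubulation G X) {h : Set V} (hh : IsHalf X h) (g : G) :
    IsHalf X (g • h) := by
  obtain ⟨a, b, hab, rfl⟩ := hh
  exact ⟨g • a, g • b, hc.adj g a b hab, hc.smul_half g a b⟩

theorem IsCubulation.smul_inn (hc : IsCubulation G X) (g : G) (h : Set V) :
    g • inn X h = inn X (g • h) := by
  ext v
  obtain ⟨v, rfl⟩ := MulAction.surjective g v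
  rw [Set.smul_mem_smul_set_iff]
  simp only [inn, Set.mem_ofPred_eq]
  rw [act1_exists g (p := fun b => X.Adj (g • v) b ∧ b ∉ g • h)]
  simp only [Set.smul_mem_smul_set_iff, hc.adj_iff]

theorem IsCubulation.smul_car (hc : IsCubulation G X) (g : G) (h : Set V) :
    g • car X h = car X (g • h) := by
  rw [car, car, Set.smul_set_union, hc.smul_inn, hc.smul_inn, Set.smul_set_compl]

theorem cross_smul (g : G) {h k : Set V} : Cross (g • h) (g • k) ↔ Cross h k := by
  simp only [Cross, ← Set.smul_set_compl, ← Set.smul_set_inter, Set.smul_set_nonempty]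

theorem Cvx.smul (hc : IsCubulation G X) {C : Set V} (hC : Cvx X C) (g : G) : Cvx X (g • C) := by
  rintro _ ⟨x, hx, rfl⟩ _ ⟨y, hy, rfl⟩ m hm
  obtain ⟨m, rfl⟩ := MulAction.surjective g m
  exact Set.smul_mem_smul_set (hC x hx y hy m ((hc.btw_smul g).1 hm))

theorem IsGate.smul (hc : IsCubulation G X) {C : Set V} {x p : V} (H : IsGate X C x p) (g : G) :
    IsGate X (g • C) (g • x) (g • p) := by
  refine ⟨Set.smul_mem_smul_set H.1, ?_⟩
  rintro _ ⟨c, hc', rfl⟩
  exact (hc.btw_smul g).2 (H.2 c hc')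

theorem smul_ssubset (g : G) {h k : Set V} (H : h ⊂ k) : g • h ⊂ g • k := by
  exact ⟨Set.smul_set_mono H.1, fun h1 => H.2 (Set.smul_set_subset_smul_set_iff.1 h1)⟩

theorem Nest.smul (hc : IsCubulation G X) {n : ℕ} {k h : Set V} (H : Nest X n k h) (g : G) :
    Nest X n (g • k) (g • h) := by
  obtain ⟨c, h1, rfl, rfl⟩ := H
  exact ⟨fun i => g • c i, ⟨fun i hi => (h1.1 i hi).smul hc g,
    fun i hi => smul_ssubset g (h1.2 i hi)⟩, rfl, rfl⟩

theorem IsCubulation.near_smul (hc : IsCubulation G X) (g : G) {r : ℕ} {h k : Set V} :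
    Near X r (g • h) (g • k) ↔ Near X r h k := by
  simp only [Near, ← hc.smul_car]
  constructor
  · rintro ⟨_, ⟨a, ha, rfl⟩, _, ⟨b, hb, rfl⟩, h1⟩
    exact ⟨a, ha, b, hb, (hc.dist_smul g a b).symm.le.trans h1⟩
  · rintro ⟨a, ha, b, hb, h1⟩
    exact ⟨g • a, Set.smul_mem_smul_set ha, g • b, Set.smul_mem_smul_set hb,
      (hc.dist_smul g a b).le.trans h1⟩

theorem Deep.smul (hc : IsCubulation G X) {h : Set V} (H : Deep X h) (g : G) :
    Deep X (g • h) := by
  intro r
  obtain ⟨z, hz, h1⟩ := H r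
  refine ⟨g • z, Set.smul_mem_smul_set hz, fun y hy => ?_⟩
  obtain ⟨y, rfl⟩ := MulAction.surjective g y
  rw [hc.dist_smul]
  exact h1 y fun e => hy (Set.smul_mem_smul_set e)

theorem Good.smul (hc : IsCubulation G X) {h : Set V} (H : Good X h) (g : G) :
    Good X (g • h) := by
  refine ⟨H.1.smul hc g, H.2.1.smul hc g, ?_⟩
  rw [← Set.smul_set_compl]
  exact H.2.2.smul hc g

theorem Good.compl (hM : IsMedian X) {h : Set V} (H : Good X h) : Good X hᶜ := by
  exact ⟨H.1.compl hM, H.2.2, by rw [compl_compl]; exact H.2.1⟩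

theorem Tight.smul (hc : IsCubulation G X) {h k : Set V} (H : Tight X h k) (g : G) :
    Tight X (g • h) (g • k) := by
  obtain ⟨p, r, h1⟩ := H
  refine ⟨g • p, r, ?_⟩
  rintro _ ⟨y, hy, rfl⟩ q hq
  obtain ⟨q, rfl⟩ := MulAction.surjective g q
  rw [hc.dist_smul]
  refine h1 y hy q ?_
  simpa using hq.smul hc g⁻¹

theorem sameH_smul (g : G) {k k' : Set V} : SameH (g • k) (g • k') ↔ SameH k k' := by
  simp only [SameH, ← Set.smul_set_compl, smul_left_cancel_iff]

theorem rel_smul (g : G) {Z : Set (Set V)} {x y : V} :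
    Rel (g • Z) (g • x) (g • y) ↔ Rel Z x y := by
  unfold Rel
  rw [act1_forall g]
  simp only [Set.smul_mem_smul_set_iff]

theorem smul_comp (g : G) (Z : Set (Set V)) (x : V) : g • comp Z x = comp (g • Z) (g • x) := by
  ext v
  obtain ⟨v, rfl⟩ := MulAction.surjective g v
  rw [Set.smul_mem_smul_set_iff]
  exact (rel_smul g).symm

theorem IsCubulation.outer_smul (hc : IsCubulation G X) (g : G) {Z : Set (Set V)} {x : V}
    {k : Set V} : Outer X (g • Z) (g • x) (g • k) ↔ Outer X Z x k := by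
  unfold Outer
  rw [act1_exists g, ← Set.smul_set_compl, ← hc.smul_inn]
  simp only [Set.smul_mem_smul_set_iff, rel_smul]

theorem IsCubulation.clear_smul (hc : IsCubulation G X) (g : G) {Z : Set (Set V)} {r : ℕ}
    {z : V} : Clear X (g • Z) r (g • z) ↔ Clear X Z r z := by
  unfold Clear
  rw [act1_forall g]
  refine forall_congr' fun k => ?_
  rw [act1_forall g (p := fun b => b ∈ car X (g • k) → r < X.dist (g • z) b), ← hc.smul_car]
  simp only [Set.smul_mem_smul_set_iff, hc.dist_smul]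

theorem HFam.smul (hc : IsCubulation G X) {Z : Set (Set V)} (H : HFam X Z) (g : G) :
    HFam X (g • Z) := by
  constructor
  · rintro _ ⟨k, hk, rfl⟩
    exact (H.1 k hk).smul hc g
  · rintro _ ⟨k, hk, rfl⟩
    exact ⟨kᶜ, H.2 k hk, Set.smul_set_compl⟩

theorem GFam.smul (hc : IsCubulation G X) {j : ℕ} {Z : Set (Set V)} (H : GFam X j Z) (g : G) :
    GFam X j (g • Z) := by
  refine ⟨?_, ?_, ?_⟩
  · rintro _ ⟨k, hk, rfl⟩
    exact (H.1 k hk).smul hc g
  · rintro _ ⟨k, hk, rfl⟩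
    exact ⟨kᶜ, H.2.1 k hk, Set.smul_set_compl⟩
  · rintro _ ⟨k, hk, rfl⟩ _ ⟨k', hk', rfl⟩ h1
    exact (sameH_smul g).2 (H.2.2 k hk k' hk' ((hc.near_smul g).1 h1))

theorem Tri.smul (hc : IsCubulation G X) {m : ℕ} {Z : Set (Set V)} (H : Tri X m Z) (g : G) :
    Tri X m (g • Z) := by
  rintro _ ⟨k1, h1, rfl⟩ _ ⟨k2, h2, rfl⟩ _ ⟨k3, h3, rfl⟩ n1 n2 n3
  simp only [sameH_smul]
  exact H k1 h1 k2 h2 k3 h3 ((hc.near_smul g).1 n1) ((hc.near_smul g).1 n2)
    ((hc.near_smul g).1 n3)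

theorem Match.smul (hc : IsCubulation G X) {j : ℕ} {u' u : Set V} (H : Match X j u' u) (g : G) :
    Match X j (g • u') (g • u) := by
  intro z hz
  obtain ⟨z, rfl⟩ := MulAction.surjective g z
  rw [Set.smul_mem_smul_set_iff, Set.smul_mem_smul_set_iff] at hz
  obtain ⟨⟨b, hb, h1⟩, b', hb', h2⟩ := H z hz
  rw [← hc.smul_car, ← hc.smul_car]
  exact ⟨⟨g • b, Set.smul_mem_smul_set hb, (hc.dist_smul g z b).le.trans h1⟩,
    g • b', Set.smul_mem_smul_set hb', (hc.dist_smul g z b').le.trans h2⟩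

theorem act1_mem_fam {F : Subgroup G} {E : Set (Set V)} {k : Set V} (hk : k ∈ fam F E) {f : G}
    (hf : f ∈ F) : f • k ∈ fam F E := by
  obtain ⟨f', hf', e, he, rfl | rfl⟩ := hk
  · exact ⟨f * f', F.mul_mem hf hf', e, he, Or.inl (mul_smul f f' e).symm⟩
  · exact ⟨f * f', F.mul_mem hf hf', e, he, Or.inr (by rw [mul_smul, Set.smul_set_compl])⟩

theorem smul_fam_of_mem {F : Subgroup G} (E : Set (Set V)) {f : G} (hf : f ∈ F) :
    f • fam F E = fam F E := by
  refine Set.Subset.antisymm ?_ fun k hk => ?_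
  · rintro _ ⟨k, hk, rfl⟩
    exact act1_mem_fam hk hf
  · exact ⟨f⁻¹ • k, act1_mem_fam hk (F.inv_mem hf), smul_inv_smul f k⟩

theorem smul_fam {F : Subgroup G} (hF : F.Normal) (E : Set (Set V)) (g : G) :
    g • fam F E = fam F (g • E) := by
  ext k
  obtain ⟨k, rfl⟩ := MulAction.surjective g k
  rw [Set.smul_mem_smul_set_iff]
  constructor
  · rintro ⟨f, hf, e, he, h1⟩
    refine ⟨g * f * g⁻¹, hF.conj_mem f hf g, g • e, Set.smul_mem_smul_set he, ?_⟩
    rw [mul_smul, inv_smul_smul, mul_smul, ← Set.smul_set_compl]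
    exact h1.imp (congrArg _) (congrArg _)
  · rintro ⟨f, hf, _, ⟨e, he, rfl⟩, h1⟩
    refine ⟨g⁻¹ * f * g, hF.conj_mem' f hf g, e, he, ?_⟩
    rw [mul_smul, mul_smul, ← Set.smul_set_compl, eq_inv_smul_iff, eq_inv_smul_iff]
    exact h1

theorem fam_union (F : Subgroup G) (E E' : Set (Set V)) :
    fam F (E ∪ E') = fam F E ∪ fam F E' := by
  ext k
  constructor
  · rintro ⟨f, hf, e, he | he, h1⟩
    · exact Or.inl ⟨f, hf, e, he, h1⟩
    · exact Or.inr ⟨f, hf, e, he, h1⟩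
  · rintro (⟨f, hf, e, he, h1⟩ | ⟨f, hf, e, he, h1⟩)
    · exact ⟨f, hf, e, Or.inl he, h1⟩
    · exact ⟨f, hf, e, Or.inr he, h1⟩

theorem compl_mem_fam {F : Subgroup G} {E : Set (Set V)} {k : Set V} (hk : k ∈ fam F E) :
    kᶜ ∈ fam F E := by
  obtain ⟨f, hf, e, he, rfl | rfl⟩ := hk
  · exact ⟨f, hf, e, he, Or.inr rfl⟩
  · exact ⟨f, hf, e, he, Or.inl (compl_compl _)⟩

theorem smul_mem_fam {F : Subgroup G} {E : Set (Set V)} {k : Set V} (hk : k ∈ fam F E) {f : G}
    (hf : f ∈ F) : f • k ∈ fam F E := by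
  exact act1_mem_fam hk hf

theorem mem_fam_self (F : Subgroup G) {E : Set (Set V)} {e : Set V} (he : e ∈ E) :
    e ∈ fam F E := by
  exact ⟨1, F.one_mem, e, he, Or.inl (one_smul G e).symm⟩

theorem good_of_mem_fam (hc : IsCubulation G X) {F : Subgroup G} {E : Set (Set V)}
    (hE : ∀ e ∈ E, Good X e) {k : Set V} (hk : k ∈ fam F E) : Good X k := by
  obtain ⟨f, -, e, he, rfl | rfl⟩ := hk
  · exact (hE e he).smul hc f
  · exact ((hE e he).smul hc f).compl hc.median

theorem hfam_fam (hc : IsCubulation G X) (F : Subgroup G) {E : Set (Set V)}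
    (hE : ∀ e ∈ E, IsHalf X e) : HFam X (fam F E) := by
  refine ⟨?_, fun k hk => compl_mem_fam hk⟩
  rintro k ⟨f, -, e, he, rfl | rfl⟩
  · exact (hE e he).smul hc f
  · exact ((hE e he).smul hc f).compl hc.median

end Pool.Agent.Lib.MP_3467cd_al
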