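import Pool.Agent.Lib.MP_3467cd_al.Act1

open Pointwise

namespace Pool.Agent.Lib.MP_3467cd_al

variable {G : Type} [Group G] {V : Type} [MulAction G V] {X : SimpleGraph V}

theorem IsCubulation.ball_finite (hc : IsCubulation G X) (x : V) (r : ℕ) :
    {y | X.dist x y ≤ r}.Finite := by
  have hM := hc.median
  induction r with
  | zero =>
    refine (Set.finite_singleton x).subset fun y hy => ?_
    exact (hM.dist_eq_zero.1 (Nat.le_zero.1 hy)).symm
  | succ r ih =>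
    refine (ih.union (ih.biUnion fun z _ => hc.locFin z)).subset fun y hy => ?_
    by_cases h : y = x
    · left
      simp [h]
    · right
      obtain ⟨y', h1, h2⟩ := hM.exists_step h
      have h3 : X.dist x y ≤ r + 1 := hy
      rw [X.dist_comm (u := y'), X.dist_comm (u := y)] at h2
      exact Set.mem_biUnion (x := y') (show X.dist x y' ≤ r by omega) h1.symm

theorem IsCubulation.proper_dist (hc : IsCubulation G X) (x y : V) (r : ℕ) :
    {g : G | X.dist x (g • y) ≤ r}.Finite := by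
  refine Set.Finite.of_finite_fibers (fun g : G => g • y)
    ((hc.ball_finite x r).subset ?_) ?_
  · rintro _ ⟨g, hg, rfl⟩
    exact hg
  · rintro _ ⟨g0, -, rfl⟩
    refine ((hc.proper y).image (g0 * ·)).subset fun g hg => ⟨g0⁻¹ * g, ?_, by simp⟩
    have h1 : g • y = g0 • y := hg.2
    show (g0⁻¹ * g) • y = y
    rw [mul_smul, h1, inv_smul_smul]

/-- a finite index subgroup has finitely many orbits of vertices -/
theorem IsCubulation.vertex_orbits (hc : IsCubulation G X) {F : Subgroup G}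
    (hF : F.FiniteIndex) : ∃ T : Set V, T.Finite ∧ ∀ v, ∃ f ∈ F, ∃ t ∈ T, v = f • t := by
  obtain ⟨S, hS⟩ := hc.cocompact
  have : Finite (G ⧸ F) := Subgroup.finite_quotient_of_finiteIndex
  refine ⟨Set.image2 (fun (q : G ⧸ F) (s : V) => q.out⁻¹ • s) Set.univ S,
    Set.finite_univ.image2 _ S.finite_toSet, fun v => ?_⟩
  obtain ⟨g, hg⟩ := hS v
  obtain ⟨f, hf⟩ := QuotientGroup.mk_out_eq_mul F g
  refine ⟨f, f.2, _, Set.mem_image2_of_mem (Set.mem_univ (QuotientGroup.mk g)) hg, ?_⟩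
  rw [hf, smul_smul, smul_smul]
  simp

theorem IsCubulation.cobounded (hc : IsCubulation G X) {F : Subgroup G} (hF : F.FiniteIndex)
    (x0 : V) : ∃ R : ℕ, ∀ z, ∃ f ∈ F, X.dist z (f • x0) ≤ R := by
  obtain ⟨T, hT, H⟩ := hc.vertex_orbits hF
  obtain ⟨R, hR⟩ := (hT.image fun t => X.dist t x0).bddAbove
  refine ⟨R, fun z => ?_⟩
  obtain ⟨f, hf, t, ht, rfl⟩ := H z
  exact ⟨f, hf, by rw [hc.dist_smul]; exact hR ⟨t, ht, rfl⟩⟩

theorem IsCubulation.halves_at_finite (hc : IsCubulation G X) (a : V) :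
    {h | IsHalf X h ∧ a ∈ car X h}.Finite := by
  have hM := hc.median
  refine (((hc.locFin a).image fun b => half X a b).union
    ((hc.locFin a).image fun b => (half X a b)ᶜ)).subset ?_
  rintro h ⟨hh, ⟨ha, b, hab, hb⟩ | ⟨ha, b, hab, hb⟩⟩
  · exact Or.inl ⟨b, hab, hh.half_eq hM hab ha hb⟩
  · refine Or.inr ⟨b, hab, ?_⟩
    show (half X a b)ᶜ = h
    rw [(hh.compl hM).half_eq hM hab ha hb, compl_compl]

theorem IsCubulation.half_orbits (hc : IsCubulation G X) {F : Subgroup G}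
    (hF : F.FiniteIndex) : ∃ T : Set (Set V), T.Finite ∧ (∀ t ∈ T, IsHalf X t) ∧
      ∀ h, IsHalf X h → ∃ f ∈ F, ∃ t ∈ T, h = f • t := by
  obtain ⟨T, hT, H⟩ := hc.vertex_orbits hF
  refine ⟨⋃ t ∈ T, {h | IsHalf X h ∧ t ∈ car X h}, hT.biUnion fun t _ => hc.halves_at_finite t,
    fun k hk => ?_, fun h hh => ?_⟩
  · obtain ⟨t, -, ht⟩ := Set.mem_iUnion₂.1 hk
    exact ht.1
  · obtain ⟨a, ha⟩ := hh.inn_nonempty
    obtain ⟨f, hf, t, ht, rfl⟩ := H a
    refine ⟨f, hf, f⁻¹ • h, Set.mem_biUnion ht ⟨hh.smul hc _, ?_⟩, (smul_inv_smul _ _).symm⟩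
    rw [← hc.smul_car, Set.mem_inv_smul_set_iff]
    exact inn_subset_car h ha

/-- the stabiliser of a halfspace acts cocompactly on the inner carrier -/
theorem IsCubulation.inn_orbits (hc : IsCubulation G X) {F : Subgroup G} (hF : F.FiniteIndex)
    {h : Set V} (hh : IsHalf X h) : ∃ T : Set V, T.Finite ∧ T ⊆ inn X h ∧
      ∀ a ∈ inn X h, ∃ s ∈ F, s • h = h ∧ ∃ t ∈ T, a = s • t := by
  obtain ⟨T, hT, H⟩ := hc.vertex_orbits hF
  let P : Set (V × Set V) := {p | p.1 ∈ T ∧ (IsHalf X p.2 ∧ p.1 ∈ car X p.2) ∧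
    ∃ f ∈ F, f • p.2 = h ∧ f • p.1 ∈ inn X h}
  have hP : P.Finite := by
    refine (hT.prod (hT.biUnion fun t _ => hc.halves_at_finite t)).subset fun p hp => ?_
    exact ⟨hp.1, Set.mem_biUnion hp.1 hp.2.1⟩
  have h1 : ∀ p ∈ P, ∃ f ∈ F, f • p.2 = h ∧ f • p.1 ∈ inn X h := fun p hp => hp.2.2
  choose! φ h2 h3 h4 using h1
  refine ⟨(fun p => φ p • p.1) '' P, hP.image _, ?_, fun a ha => ?_⟩
  · rintro _ ⟨p, hp, rfl⟩
    exact h4 p hp
  · obtain ⟨f, hf, t, ht, rfl⟩ := H a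
    have hp : (t, f⁻¹ • h) ∈ P := by
      refine ⟨ht, ⟨hh.smul hc _, ?_⟩, f, hf, smul_inv_smul _ _, ha⟩
      show t ∈ car X (f⁻¹ • h)
      rw [← hc.smul_car, Set.mem_inv_smul_set_iff]
      exact inn_subset_car h ha
    refine ⟨f * (φ (t, f⁻¹ • h))⁻¹, F.mul_mem hf (F.inv_mem (h2 _ hp)), ?_, _, ⟨_, hp, rfl⟩, ?_⟩
    · have h5 : (φ (t, f⁻¹ • h))⁻¹ • h = f⁻¹ • h := inv_smul_eq_iff.2 (h3 _ hp).symm
      rw [mul_smul, h5, smul_inv_smul]
    · show f • t = _ • φ (t, f⁻¹ • h) • t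
      rw [mul_smul, inv_smul_smul]

theorem IsCubulation.pair_orbits (hc : IsCubulation G X) (r : ℕ) :
    ∃ T : Set (Set V × Set V), T.Finite ∧ ∀ h k, IsHalf X h → IsHalf X k → Near X r h k →
      ∃ g : G, (g • h, g • k) ∈ T := by
  obtain ⟨S, hS⟩ := hc.cocompact
  refine ⟨(⋃ s ∈ (S : Set V), {h | IsHalf X h ∧ s ∈ car X h}) ×ˢ
    (⋃ s ∈ (S : Set V), ⋃ b ∈ {y | X.dist s y ≤ r}, {h | IsHalf X h ∧ b ∈ car X h}),
    (S.finite_toSet.biUnion fun s _ => hc.halves_at_finite s).prod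
      (S.finite_toSet.biUnion fun s _ =>
        (hc.ball_finite s r).biUnion fun b _ => hc.halves_at_finite b), ?_⟩
  rintro h k hh hk ⟨a, ha, b, hb, hab⟩
  obtain ⟨g, hg⟩ := hS a
  refine ⟨g, Set.mem_biUnion (x := g • a) hg ⟨hh.smul hc g, ?_⟩,
    Set.mem_biUnion (x := g • a) hg (Set.mem_biUnion (x := g • b) ?_ ⟨hk.smul hc g, ?_⟩)⟩
  · show g • a ∈ car X (g • h)
    rw [← hc.smul_car]
    exact Set.smul_mem_smul_set ha
  · show X.dist (g • a) (g • b) ≤ r
    rwa [hc.dist_smul]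
  · show g • b ∈ car X (g • k)
    rw [← hc.smul_car]
    exact Set.smul_mem_smul_set hb

theorem IsCubulation.exists_dim (hc : IsCubulation G X) : ∃ D, Dim X D := by
  have hM := hc.median
  obtain ⟨S0, hS0⟩ := hc.cocompact
  obtain ⟨D, hD⟩ :=
    (S0.finite_toSet.image fun s => {h | IsHalf X h ∧ s ∈ car X h}.ncard).bddAbove
  refine ⟨D, fun S hS hx => ?_⟩
  obtain ⟨x, hxS⟩ := hM.helly S (fun h => inn X h) (fun h hh => (hS h hh).inn_cvx hM)
    fun h hh k hk => by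
      by_cases hhk : h = k
      · rw [← hhk, Set.inter_self]
        exact (hS h hh).inn_nonempty
      · exact (hx h hh k hk hhk).inn_inter hM (hS h hh) (hS k hk)
  obtain ⟨g, hg⟩ := hS0 x
  refine le_trans ?_ (hD ⟨g • x, hg, rfl⟩)
  rw [← Set.ncard_coe_finset]
  refine Set.ncard_le_ncard_of_injOn (fun h => g • h) (fun h hh => ⟨(hS h hh).smul hc g, ?_⟩)
    (MulAction.injective g).injOn (hc.halves_at_finite _)
  rw [← hc.smul_car]
  exact Set.smul_mem_smul_set (inn_subset_car h (hxS h hh))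

/-- powers of an element skewering `o` push every point deep into `o` -/
theorem IsCubulation.skewer (hc : IsCubulation G X) {o : Set V} (ho : IsHalf X o) {f : G}
    (hf : f • o ⊂ o) (x : V) (r : ℕ) :
    ∃ i : ℕ, f ^ i • x ∈ o ∧ ∀ y, y ∉ o → r ≤ X.dist (f ^ i • x) y := by
  have hM := hc.median
  obtain ⟨i, hi⟩ : ∃ i : ℕ, f ^ i • x ∈ o := by
    by_contra hn
    push Not at hn
    obtain ⟨y, hy⟩ := ho.nonempty
    have h1 : StrictMono fun i : ℕ => (f ^ i)⁻¹ • o := by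
      refine strictMono_nat_of_lt_succ fun i => ?_
      have h2 := smul_ssubset (f ^ (i + 1))⁻¹ hf
      rwa [smul_smul, pow_succ', mul_inv_rev, inv_mul_cancel_right, ← mul_inv_rev,
        ← pow_succ'] at h2
    refine Set.infinite_of_injective_forall_mem h1.injective (fun i => ?_) (hM.sep_finite x y)
    refine ⟨ho.smul hc _, ?_, h1.monotone (Nat.zero_le i) (by simpa using hy)⟩
    rw [Set.mem_inv_smul_set_iff]
    exact hn i
  have hN : Nest X r (f ^ r • o) o := by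
    refine ⟨fun i => f ^ i • o, ⟨fun i _ => ho.smul hc _, fun i _ => ?_⟩, by simp, rfl⟩
    have h2 := smul_ssubset (f ^ i) hf
    rwa [smul_smul, ← pow_succ] at h2
  have h3 : f ^ (r + i) • x ∈ f ^ r • o := by
    rw [pow_add, mul_smul]
    exact Set.smul_mem_smul_set hi
  exact ⟨r + i, hN.subset h3, fun y hy => (Nat.le_succ r).trans (hN.le_dist hM h3 hy)⟩

end Pool.Agent.Lib.MP_3467cd_al
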