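import Pool.Agent.Lib.MP_3467cd_al.M4

open Pointwise

namespace Pool.Agent.Lib.MP_3467cd_al

variable {V : Type} {X : SimpleGraph V}

/-- median graphs are simply connected once squares are filled -/
theorem IsMedian.holonomy (hM : IsMedian X) {Γ : Type} [Group Γ] (T : V → V → Γ)
    (hinv : ∀ x y, X.Adj x y → T x y * T y x = 1)
    (hsq : ∀ a b c e, X.Adj a b → X.Adj a c → X.Adj b e → X.Adj c e → b ≠ c → a ≠ e →
      T a b * T b e = T a c * T c e) :
    ∃ M : V → Γ, ∀ x y, X.Adj x y → M y = M x * T x y := by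
  obtain ⟨x0⟩ := hM.1.nonempty
  have hp : ∀ y, ∃ x, y ≠ x0 → X.Adj y x ∧ X.dist x x0 + 1 = X.dist y x0 := by
    intro y
    by_cases h : y = x0
    · exact ⟨y, fun h' => absurd h h'⟩
    · obtain ⟨x, hx⟩ := hM.exists_step h
      exact ⟨x, fun _ => hx⟩
  choose par hpar using hp
  let N : ℕ → V → Γ := fun n => Nat.rec (fun _ => 1) (fun _ f y => f (par y) * T (par y) y) n
  have hN : ∀ y, y ≠ x0 →
      N (X.dist y x0) y = N (X.dist (par y) x0) (par y) * T (par y) y := by
    intro y hy
    rw [← (hpar y hy).2]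
  have key : ∀ n x y, X.Adj x y → X.dist x x0 + 1 = X.dist y x0 → X.dist x x0 = n →
      N (X.dist y x0) y = N (X.dist x x0) x * T x y := by
    intro n
    induction n using Nat.strong_induction_on with
    | _ n ih =>
      intro x y hxy hd hn
      have hy : y ≠ x0 := by
        rintro rfl
        simp at hd
      obtain ⟨h1, h2⟩ := hpar y hy
      rw [hN y hy]
      by_cases e : x = par y
      · rw [← e]
      obtain ⟨z, ⟨hz1, hz2, hz3⟩, -⟩ := hM.2 x (par y) x0
      unfold Btw at hz1 hz2 hz3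
      have h3 := hM.tri x y (par y)
      rw [dist_of_adj hxy, dist_of_adj h1] at h3
      have h4 : X.dist x (par y) ≠ 0 := fun h => e (hM.dist_eq_zero.1 h)
      rw [X.dist_comm (u := z) (v := par y)] at hz1
      have a1 : X.Adj z x := (SimpleGraph.dist_eq_one_iff_adj.1 (by omega)).symm
      have a2 : X.Adj z (par y) := (SimpleGraph.dist_eq_one_iff_adj.1 (by omega)).symm
      have hzy : z ≠ y := by
        rintro rfl
        omega
      rw [ih _ (by omega) z x a1 (by omega) rfl, ih _ (by omega) z (par y) a2 (by omega) rfl,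
        mul_assoc, mul_assoc, hsq z x (par y) y a1 a2 hxy h1.symm e hzy]
  refine ⟨fun y => N (X.dist y x0) y, fun x y hxy => ?_⟩
  rcases hM.adj_dist hxy x0 with h | h
  · rw [X.dist_comm (u := x0), X.dist_comm (u := x0)] at h
    exact key _ x y hxy h rfl
  · rw [X.dist_comm (u := x0), X.dist_comm (u := x0)] at h
    show N (X.dist y x0) y = N (X.dist x x0) x * T x y
    rw [key _ y x hxy.symm h rfl, mul_assoc, hinv y x hxy.symm, mul_one]

section Lin
variable {C : Type} [Fintype C] {P : C → C → Prop}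

omit [Fintype C] in
theorem b1_coef_comm (hP : ∀ c d, P c d → P d c) (c d : C) : coef P c d = coef P d c := by
  unfold coef
  by_cases h : c = d
  · subst h
    rfl
  · have h1 : P c d ↔ P d c := ⟨hP c d, hP d c⟩
    rw [if_neg h, if_neg (Ne.symm h), h1]

theorem bil_comm (hP : ∀ c d, P c d → P d c) (v w : C → ℤ) : bil P v w = bil P w v := by
  unfold bil
  rw [Finset.sum_comm]
  refine Finset.sum_congr rfl fun a _ => Finset.sum_congr rfl fun b _ => ?_
  rw [b1_coef_comm hP]
  ring

theorem bil_neg_right (v w : C → ℤ) : bil P v (-w) = -bil P v w := by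
  simp only [bil, Pi.neg_apply, mul_neg, Finset.sum_neg_distrib]

theorem bil_add_right (v w w' : C → ℤ) : bil P v (w + w') = bil P v w + bil P v w' := by
  simp only [bil, Pi.add_apply, mul_add, Finset.sum_add_distrib]

theorem bil_smul_right (t : ℤ) (v w : C → ℤ) : bil P v (t • w) = t * bil P v w := by
  simp only [bil, Pi.smul_apply, smul_eq_mul, Finset.mul_sum]
  refine Finset.sum_congr rfl fun a _ => Finset.sum_congr rfl fun b _ => by ring

theorem bil_dvd_left {n : ℤ} {v v' : C → ℤ} (H : ∀ c, n ∣ v c - v' c) (w : C → ℤ) :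
    n ∣ bil P v w - bil P v' w := by
  unfold bil
  rw [← Finset.sum_sub_distrib]
  refine Finset.dvd_sum fun a _ => ?_
  rw [← Finset.sum_sub_distrib]
  refine Finset.dvd_sum fun b _ => ?_
  rw [← sub_mul, ← mul_sub]
  exact ((H a).mul_left _).mul_right _

theorem b1_bil_ee (c : C) (v : C → ℤ) : bil P (ee c) v = ∑ d, coef P c d * v d := by
  unfold bil
  rw [Finset.sum_eq_single c (fun a _ ha => by simp [ee, ha]) (by simp)]
  simp [ee]

theorem b1_bil_sub_right (v w w' : C → ℤ) : bil P v (w - w') = bil P v w - bil P v w' := by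
  rw [sub_eq_add_neg, bil_add_right, bil_neg_right, sub_eq_add_neg]

theorem bil_ee (c : C) (v : C → ℤ) : bil P (ee c) v = v c - 2 * ss P c v := by
  classical
  have h : v c = ∑ d, if d = c then v d else 0 := by simp
  rw [b1_bil_ee, h, ss, Finset.mul_sum, ← Finset.sum_sub_distrib]
  refine Finset.sum_congr rfl fun d _ => ?_
  unfold coef
  by_cases h1 : d = c
  · simp [h1]
  · by_cases h2 : P c d <;> simp [h1, Ne.symm h1, h2]

theorem bil_ee_ee (c d : C) : bil P (ee c) (ee d) = coef P c d := by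
  rw [b1_bil_ee, Finset.sum_eq_single d (fun a _ ha => by simp [ee, ha]) (by simp)]
  simp [ee]

theorem rf_apply (c : C) (v : C → ℤ) : rf P c v = v - (2 * bil P (ee c) v) • ee c := rfl

theorem rf_apply_self (c : C) (v : C → ℤ) : rf P c v c = 4 * ss P c v - v c := by
  rw [rf_apply, bil_ee]
  simp only [Pi.sub_apply, Pi.smul_apply, ee, if_true, smul_eq_mul]
  ring

theorem rf_apply_ne {c d : C} (h : d ≠ c) (v : C → ℤ) : rf P c v d = v d := by
  rw [rf_apply]
  simp [ee, h]

theorem ss_rf_self (c : C) (v : C → ℤ) : ss P c (rf P c v) = ss P c v := by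
  unfold ss
  refine Finset.sum_congr rfl fun d _ => ?_
  split_ifs with h
  · exact rf_apply_ne h.1 v
  · rfl

theorem bil_ee_rf (c : C) (v : C → ℤ) : bil P (ee c) (rf P c v) = -bil P (ee c) v := by
  rw [bil_ee, bil_ee, ss_rf_self, rf_apply_self]
  ring

theorem rf_mul_self (c : C) : rf P c * rf P c = 1 := by
  refine LinearMap.ext fun v => ?_
  rw [Module.End.mul_apply, rf_apply c (rf P c v), bil_ee_rf, rf_apply, Module.End.one_apply,
    mul_neg, neg_smul]
  abel

theorem bil_rf (hP : ∀ c d, P c d → P d c) (c : C) (v w : C → ℤ) :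
    bil P (rf P c v) (rf P c w) = bil P v w := by
  rw [rf_apply c w, b1_bil_sub_right, bil_smul_right, bil_comm hP _ (ee c), bil_ee_rf,
    bil_comm hP _ w, rf_apply, b1_bil_sub_right, bil_smul_right, bil_comm hP w v,
    bil_comm hP w (ee c)]
  ring

theorem rf_ee_self (c : C) : rf P c (ee c) = -ee c := by
  rw [rf_apply, bil_ee_ee, coef, if_pos rfl, mul_one, two_smul]
  abel

theorem rf_ee_perp {c d : C} (hne : c ≠ d) (h : P c d) : rf P c (ee d) = ee d := by
  rw [rf_apply, bil_ee_ee, coef, if_neg hne, if_pos h, mul_zero, zero_smul, sub_zero]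

theorem rf_ee_par {c d : C} (hne : c ≠ d) (h : ¬ P c d) :
    rf P c (ee d) = ee d + (4 : ℤ) • ee c := by
  rw [rf_apply, bil_ee_ee, coef, if_neg hne, if_neg h, sub_eq_add_neg, ← neg_smul]
  norm_num

theorem rf_comm (hP : ∀ c d, P c d → P d c) {c d : C} (hne : c ≠ d) (h : P c d) :
    rf P c * rf P d = rf P d * rf P c := by
  refine LinearMap.ext fun v => ?_
  rw [Module.End.mul_apply, Module.End.mul_apply, rf_apply d v, map_sub, map_smul,
    rf_ee_perp hne h, rf_apply c v, map_sub, map_smul, rf_ee_perp hne.symm (hP _ _ h), rf_apply d v]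
  abel

theorem ss_nonneg (c : C) {v : C → ℤ} (hv : ∀ d, 0 ≤ v d) : 0 ≤ ss P c v := by
  refine Finset.sum_nonneg fun d _ => ?_
  split_ifs
  · exact hv d
  · exact le_rfl

theorem le_ss {c d : C} {v : C → ℤ} (hv : ∀ d, 0 ≤ v d) (hne : d ≠ c) (h : ¬ P c d) :
    v d ≤ ss P c v := by
  unfold ss
  refine le_trans (le_of_eq ?_) (Finset.single_le_sum (fun a _ => ?_) (Finset.mem_univ d))
  · rw [if_pos ⟨hne, h⟩]
  · split_ifs
    · exact hv a
    · exact le_rfl

/-- one reflection step of the positivity induction -/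
theorem rf_step (hP : ∀ c d, P c d → P d c) {v : C → ℤ} (hv : ∀ d, 0 ≤ v d) {c : C}
    (hc : v c ≤ ss P c v) :
    (∀ d, 0 ≤ rf P c v d) ∧ 3 * ss P c v ≤ rf P c v c ∧
      ∀ d, d ≠ c → (v d ≤ ss P d v ∨ ¬ P c d) → rf P c v d ≤ ss P d (rf P c v) := by
  have hs := ss_nonneg (P := P) c hv
  have h3 : 3 * ss P c v ≤ rf P c v c := by
    rw [rf_apply_self]
    linarith
  have hle : ∀ d, v d ≤ rf P c v d := by
    intro d
    by_cases e : d = c
    · subst e
      linarith
    · rw [rf_apply_ne e]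
  have h0 : ∀ d, 0 ≤ rf P c v d := fun d => (hv d).trans (hle d)
  refine ⟨h0, h3, fun d hd h => ?_⟩
  rw [rf_apply_ne hd]
  rcases h with h | h
  · refine h.trans (Finset.sum_le_sum fun a _ => ?_)
    split_ifs
    · exact hle a
    · exact le_rfl
  · have h1 := le_ss hv hd h
    have h2 := le_ss h0 hd.symm fun h' => h (hP _ _ h')
    linarith

end Lin

end Pool.Agent.Lib.MP_3467cd_al
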