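import Pool.Agent.Lib.MP_3467cd_al.B1
import Pool.Agent.Lib.MP_3467cd_al.Act2

open Pointwise

namespace Pool.Agent.Lib.MP_3467cd_al

variable {G : Type} [Group G] {V : Type} [MulAction G V] {X : SimpleGraph V}

theorem Special.mono {F F' : Subgroup G} (H : Special X F) (h : F' ≤ F) : Special X F' := by
  exact ⟨fun f hf => H.twoSided f (h hf), fun f hf => H.noSelfCross f (h hf),
    fun f hf => H.noSelfOsc f (h hf), fun f hf => H.noInterOsc f (h hf)⟩

theorem b2_isHalf_iff (hc : IsCubulation G X) (g : G) (h : Set V) :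
    IsHalf X (g • h) ↔ IsHalf X h :=
  ⟨fun H => by simpa using H.smul hc g⁻¹, fun H => H.smul hc g⟩

/-- orbits of halfspaces, with all other sets in one class -/
def b2_setoid (hc : IsCubulation G X) (F : Subgroup G) : Setoid (Set V) where
  r h k := (¬ IsHalf X h ∧ ¬ IsHalf X k) ∨ ∃ f ∈ F, k = f • h
  iseqv := by
    refine ⟨fun h => Or.inr ⟨1, one_mem _, (one_smul _ _).symm⟩, ?_, ?_⟩
    · rintro h k (H | ⟨f, hf, rfl⟩)
      · exact Or.inl H.symm
      · exact Or.inr ⟨f⁻¹, inv_mem hf, (inv_smul_smul _ _).symm⟩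
    · rintro h k l (H | ⟨f, hf, rfl⟩) (H' | ⟨f', hf', rfl⟩)
      · exact Or.inl ⟨H.1, H'.2⟩
      · exact Or.inl ⟨H.1, by rw [b2_isHalf_iff hc]; exact H.2⟩
      · exact Or.inl ⟨by rw [← b2_isHalf_iff hc f]; exact H'.1, H'.2⟩
      · exact Or.inr ⟨f' * f, mul_mem hf' hf, (mul_smul _ _ _).symm⟩

/-- the action on colours -/
def b2_end (hc : IsCubulation G X) {F : Subgroup G} (hF : F.Normal) :
    G →* Function.End (Quotient (b2_setoid hc F)) where
  toFun g := Quotient.map (fun h => g • h) (by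
    rintro h k (H | ⟨f, hf, rfl⟩)
    · exact Or.inl ⟨by rw [b2_isHalf_iff hc]; exact H.1, by rw [b2_isHalf_iff hc]; exact H.2⟩
    · exact Or.inr ⟨g * f * g⁻¹, hF.conj_mem f hf g, by
        rw [smul_smul, smul_smul, inv_mul_cancel_right]⟩)
  map_one' := by
    funext c
    obtain ⟨h, rfl⟩ := Quotient.exists_rep c
    exact congrArg (Quotient.mk _) (one_smul G h)
  map_mul' g g' := by
    funext c
    obtain ⟨h, rfl⟩ := Quotient.exists_rep c
    exact congrArg (Quotient.mk _) (mul_smul g g' h)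

theorem b2_exact (hc : IsCubulation G X) (F : Subgroup G) {h k : Set V} (hk : IsHalf X k)
    (H : Quotient.mk (b2_setoid hc F) h = Quotient.mk (b2_setoid hc F) k) :
    ∃ f ∈ F, k = f • h :=
  (Quotient.exact H).resolve_left fun H' => H'.2 hk

/-- colours are the orbits of halfspaces under a normal special subgroup of finite index -/
theorem IsCubulation.exists_col (hc : IsCubulation G X) (hsp : VirtuallySpecial G X) :
    ∃ (C : Type) (_ : Fintype C) (P : C → C → Prop) (col : Set V → C) (π : G →* Equiv.Perm C),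
      (∀ c d, P c d → P d c) ∧ (∀ c, ¬ P c c) ∧
      (∀ h k, IsHalf X h → IsHalf X k → Cross h k → P (col h) (col k)) ∧
      (∀ h, IsHalf X h → col h ≠ col hᶜ ∧ ¬ P (col h) (col hᶜ)) ∧
      (∀ h k a, IsHalf X h → IsHalf X k → a ∈ inn X h → a ∈ inn X k → col h = col k → h = k) ∧
      (∀ h k a, IsHalf X h → IsHalf X k → a ∈ inn X h → a ∈ inn X k → ¬ Cross h k →
        ¬ P (col h) (col k)) ∧
      (∀ (g : G) h, IsHalf X h → col (g • h) = π g (col h)) ∧
      ∀ (g : G) c d, P (π g c) (π g d) ↔ P c d := by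
  obtain ⟨F0, hF0, hs0⟩ := hsp
  have hM := hc.median
  have hs : Special X F0.normalCore := hs0.mono F0.normalCore_le
  have hN : F0.normalCore.Normal := inferInstance
  have hfi : F0.normalCore.FiniteIndex := inferInstance
  generalize F0.normalCore = F at hs hN hfi
  obtain ⟨T, hT, -, hT'⟩ := hc.half_orbits hfi
  have hfin : Finite (Quotient (b2_setoid hc F)) := by
    refine Set.finite_univ_iff.1 (((hT.insert ∅).image (Quotient.mk (b2_setoid hc F))).subset ?_)
    intro c _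
    obtain ⟨h, rfl⟩ := Quotient.exists_rep c
    by_cases hh : IsHalf X h
    · obtain ⟨f, hf, t, ht, rfl⟩ := hT' h hh
      exact ⟨t, Set.mem_insert_of_mem _ ht, Quotient.sound (Or.inr ⟨f, hf, rfl⟩)⟩
    · exact ⟨∅, Set.mem_insert _ _,
        Quotient.sound (Or.inl ⟨fun H => Set.not_nonempty_empty H.nonempty, hh⟩)⟩
  let P : Quotient (b2_setoid hc F) → Quotient (b2_setoid hc F) → Prop := fun c d =>
    ∃ h k, IsHalf X h ∧ IsHalf X k ∧ c = Quotient.mk _ h ∧ d = Quotient.mk _ k ∧ Cross h k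
  have hP : ∀ h k, P (Quotient.mk _ h) (Quotient.mk _ k) → ∃ f ∈ F, Cross (f • h) k := by
    rintro h k ⟨h', k', a1, a2, a3, a4, a5⟩
    obtain ⟨f, hf, rfl⟩ := b2_exact hc F a1 a3
    obtain ⟨f', hf', rfl⟩ := b2_exact hc F a2 a4
    refine ⟨f'⁻¹ * f, mul_mem (inv_mem hf') hf, (cross_smul f').1 ?_⟩
    rwa [smul_smul, mul_inv_cancel_left]
  have hirr : ∀ c, ¬ P c c := by
    intro c H
    obtain ⟨h, -, hh, -, rfl, -⟩ := id H
    obtain ⟨f, hf, H'⟩ := hP h h H
    exact hs.noSelfCross f hf h hh H'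
  have hmove : ∀ (g : G) c d, P c d →
      P ((b2_end hc hN).toHomPerm g c) ((b2_end hc hN).toHomPerm g d) := by
    rintro g c d ⟨h, k, a1, a2, rfl, rfl, a5⟩
    exact ⟨g • h, g • k, a1.smul hc g, a2.smul hc g, rfl, rfl, (cross_smul g).2 a5⟩
  refine ⟨Quotient (b2_setoid hc F), Fintype.ofFinite _, P, Quotient.mk _,
    (b2_end hc hN).toHomPerm, ?_, hirr, ?_, ?_, ?_, ?_, fun g h _ => rfl, ?_⟩
  · rintro c d ⟨h, k, a1, a2, a3, a4, a5⟩
    exact ⟨k, h, a2, a1, a4, a3, a5.symm⟩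
  · exact fun h k hh hk H => ⟨h, k, hh, hk, rfl, rfl, H⟩
  · refine fun h hh => ⟨fun H => ?_, fun H => ?_⟩
    · obtain ⟨f, hf, e⟩ := b2_exact hc F (hh.compl hM) H
      exact hs.twoSided f hf h hh e.symm
    · obtain ⟨f, hf, H'⟩ := hP _ _ H
      exact hs.noSelfCross f hf h hh (by simpa using H'.compl_right)
  · rintro h k a hh hk ⟨ha, b, hab, hb⟩ ⟨ha', c, hac, hc'⟩ H
    obtain ⟨f, hf, e⟩ := b2_exact hc F hk H
    have e1 := hh.half_eq hM hab ha hb
    have e2 := hk.half_eq hM hac ha' hc'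
    have e3 := hs.noSelfOsc f hf a b c hab hac (by rw [e1, e2, e])
    rw [← e1, ← e2, e3]
  · rintro h k a hh hk ⟨ha, b, hab, hb⟩ ⟨ha', c, hac, hc'⟩ hn H
    have e1 := hh.half_eq hM hab ha hb
    have e2 := hk.half_eq hM hac ha' hc'
    by_cases e : b = c
    · rw [← e1, ← e2, e] at H
      exact hirr _ H
    · obtain ⟨f, hf, H'⟩ := hP _ _ H
      rw [← e1, ← e2] at hn H'
      exact hs.noInterOsc f hf a b c hab hac e hn H'
  · refine fun g c d => ⟨fun H => ?_, hmove g c d⟩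
    have H' := hmove g⁻¹ _ _ H
    rwa [← Equiv.Perm.mul_apply, ← Equiv.Perm.mul_apply, ← map_mul, inv_mul_cancel, map_one,
      Equiv.Perm.one_apply, Equiv.Perm.one_apply] at H'

theorem IsMedian.exists_transport (hM : IsMedian X) {C : Type} [Fintype C] (P : C → C → Prop)
    (col : Set V → C) (hP : ∀ c d, P c d → P d c) (hirr : ∀ c, ¬ P c c)
    (hx : ∀ h k, IsHalf X h → IsHalf X k → Cross h k → P (col h) (col k)) :
    ∃ M : V → (Module.End ℤ (C → ℤ))ˣ,
      (∀ x y, X.Adj x y → (M y : Module.End ℤ (C → ℤ)) =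
        (M x : Module.End ℤ (C → ℤ)) * (rf P (col (half X x y)) * rf P (col (half X y x)))) ∧
      ∀ x v w, bil P ((M x : Module.End ℤ (C → ℤ)) v) ((M x : Module.End ℤ (C → ℤ)) w) =
        bil P v w := by
  let R : C → (Module.End ℤ (C → ℤ))ˣ := fun c => ⟨rf P c, rf P c, rf_mul_self c, rf_mul_self c⟩
  have hR : ∀ c, R c * R c = 1 := fun c => Units.ext (rf_mul_self c)
  have hcomm : ∀ h k, IsHalf X h → IsHalf X k → Cross h k → Commute (R (col h)) (R (col k)) := by
    intro h k hh hk H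
    have h1 := hx h k hh hk H
    exact Units.ext (rf_comm hP (fun e => hirr _ (e ▸ h1)) h1)
  obtain ⟨M, hM'⟩ := hM.holonomy (fun x y => R (col (half X x y)) * R (col (half X y x)))
    (fun x y _ => by rw [mul_assoc, ← mul_assoc (R (col (half X y x))), hR, one_mul, hR])
    (fun a b c e hab hac hbe hce hbc hae => by
      have e1 := hM.half_square hab hac hbe hce hae hbc
      have e2 := hM.half_square hac hab hce hbe hae hbc.symm
      have hh := isHalf_half hab
      have hk := isHalf_half hac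
      have H := hM.square_cross hab hac hbe hce hbc hae
      rw [← hM.half_compl hab, ← hM.half_compl hac, ← hM.half_compl hbe, ← hM.half_compl hce,
        ← e1, ← e2]
      exact (((hcomm _ _ hh hk H).mul_right (hcomm _ _ hh (hk.compl hM) H.compl_right)).mul_left
        ((hcomm _ _ (hh.compl hM) hk H.compl_left).mul_right
          (hcomm _ _ (hh.compl hM) (hk.compl hM) H.compl_left.compl_right))).eq)
  obtain ⟨x0⟩ := hM.1.nonempty
  have hadj : ∀ x y, X.Adj x y → (((M x0)⁻¹ * M y : (Module.End ℤ (C → ℤ))ˣ) :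
      Module.End ℤ (C → ℤ)) = (((M x0)⁻¹ * M x : (Module.End ℤ (C → ℤ))ˣ) :
      Module.End ℤ (C → ℤ)) * (rf P (col (half X x y)) * rf P (col (half X y x))) := by
    intro x y hxy
    rw [hM' x y hxy, ← mul_assoc]
    rfl
  refine ⟨fun x => (M x0)⁻¹ * M x, hadj, fun x => ?_⟩
  refine hM.adj_induction (x0 := x0) (p := fun x => ∀ v w,
    bil P ((((M x0)⁻¹ * M x : (Module.End ℤ (C → ℤ))ˣ) : Module.End ℤ (C → ℤ)) v)
      ((((M x0)⁻¹ * M x : (Module.End ℤ (C → ℤ))ˣ) : Module.End ℤ (C → ℤ)) w) = bil P v w)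
    (fun v w => by rw [inv_mul_cancel]; rfl) (fun x y hxy ih v w => ?_) x
  rw [hadj x y hxy]
  simp only [Module.End.mul_apply]
  rw [ih, bil_rf hP, bil_rf hP]

theorem IsCubulation.exists_hol (hc : IsCubulation G X) (hsp : VirtuallySpecial G X) :
    ∃ (C : Type) (_ : Fintype C) (H : Hol X C) (π : G →* Equiv.Perm C),
      (∀ (g : G) h, IsHalf X h → H.col (g • h) = π g (H.col h)) ∧
      ∀ (g : G) c d, H.P (π g c) (π g d) ↔ H.P c d := by
  obtain ⟨C, inst, P, col, π, h1, h2, h3, h4, h5, h6, h7, h8⟩ := hc.exists_col hsp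
  obtain ⟨M, m1, m2⟩ := hc.median.exists_transport P col h1 h2 h3
  exact ⟨C, inst, ⟨P, h1, h2, col, M, m1, m2, h3, h4, h5, h6⟩, π, h7, h8⟩

end Pool.Agent.Lib.MP_3467cd_al
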