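import Pool.Agent.Lib.MP_3467cd_al.B1

open Pointwise

namespace Pool.Agent.Lib.MP_3467cd_al

variable {V : Type} {X : SimpleGraph V} {C : Type} [Fintype C]

omit [Fintype C] in
theorem b3_inv_apply (u : (Module.End ℤ (C → ℤ))ˣ) (v : C → ℤ) :
    ((u⁻¹ : (Module.End ℤ (C → ℤ))ˣ) : Module.End ℤ (C → ℤ)) ((u : Module.End ℤ (C → ℤ)) v) = v := by
  rw [← Module.End.mul_apply, Units.inv_mul, Module.End.one_apply]

omit [Fintype C] in
theorem b3_apply_inv (u : (Module.End ℤ (C → ℤ))ˣ) (v : C → ℤ) :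
    (u : Module.End ℤ (C → ℤ)) (((u⁻¹ : (Module.End ℤ (C → ℤ))ˣ) : Module.End ℤ (C → ℤ)) v) = v := by
  rw [← Module.End.mul_apply, Units.mul_inv, Module.End.one_apply]

theorem b3_inn_half {x y : V} (hxy : X.Adj x y) : x ∈ inn X (half X x y) :=
  ⟨left_mem_half hxy, y, hxy, right_not_mem_half x y⟩

theorem b3_perp (H : Hol X C) {h k : Set V} (hh : IsHalf X h) (hk : IsHalf X k) (hc : Cross h k) :
    rf H.P (H.col h) (ee (H.col k)) = ee (H.col k) := by
  have hp := H.cross h k hh hk hc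
  exact rf_ee_perp (fun e => H.pirr _ (e ▸ hp)) hp

omit [Fintype C] in
theorem b3_ee_self (c : C) : ee c c = 1 := by simp [ee]

omit [Fintype C] in
theorem b3_ee_ne {c d : C} (h : d ≠ c) : ee c d = 0 := by simp [ee, h]

omit [Fintype C] in
theorem b3_ee_nonneg (c d : C) : 0 ≤ ee c d := by
  by_cases h : d = c
  · rw [h, b3_ee_self]; exact zero_le_one
  · rw [b3_ee_ne h]

theorem b3_tgt_of_mem {k : Set V} {x : V} (hx : x ∈ k) : tgt k x = kᶜ := by
  ext y
  simp [tgt, hx]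

theorem b3_tgt_of_not_mem {k : Set V} {x : V} (hx : x ∉ k) : tgt k x = k := by
  ext y
  simp [tgt, hx]

theorem Hol.gam_eq (hM : IsMedian X) (H : Hol X C) {k : Set V} (hk : IsHalf X k) {y : V}
    (hy : y ∈ inn X k) : H.gam k = (H.M y : Module.End ℤ (C → ℤ)) (ee (H.col k)) := by
  have hne : (inn X k).Nonempty := ⟨y, hy⟩
  unfold Hol.gam
  rw [dif_pos hne]
  by_contra hcon
  obtain ⟨a, b, hab, ha, hb, h1, h2, -⟩ := hM.exit_edge
    (A := {z | (H.M hne.some : Module.End ℤ (C → ℤ)) (ee (H.col k)) =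
      (H.M z : Module.End ℤ (C → ℤ)) (ee (H.col k))}) (x := hne.some) (y := y) rfl hcon
  have ha' := hk.inn_cvx hM _ hne.some_mem _ hy _ h1
  have hb' := hk.inn_cvx hM _ hne.some_mem _ hy _ h2
  have c1 : Cross (half X a b) k := hk.cross_of_sep_inn hM (isHalf_half hab) ha' hb'
    (left_mem_half hab) (right_not_mem_half a b)
  have c2 : Cross (half X b a) k := hk.cross_of_sep_inn hM (isHalf_half hab.symm) hb' ha'
    (left_mem_half hab.symm) (right_not_mem_half b a)
  refine hb ?_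
  show _ = (H.M b : Module.End ℤ (C → ℤ)) (ee (H.col k))
  rw [H.M_adj a b hab, Module.End.mul_apply, Module.End.mul_apply,
    b3_perp H (isHalf_half hab.symm) hk c2, b3_perp H (isHalf_half hab) hk c1]
  exact ha

theorem Hol.vx_inn (hM : IsMedian X) (H : Hol X C) {k : Set V} (hk : IsHalf X k) {x : V}
    (hx : x ∈ inn X k) : H.vx k x = ee (H.col k) := by
  unfold Hol.vx
  rw [if_pos hx.1, H.gam_eq hM hk hx, b3_inv_apply]

theorem Hol.vx_inn_compl (hM : IsMedian X) (H : Hol X C) {k : Set V} (hk : IsHalf X k) {x : V}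
    (hx : x ∈ inn X kᶜ) : H.vx k x = ee (H.col k) + (4 : ℤ) • ee (H.col kᶜ) := by
  obtain ⟨hx1, y, hxy, hy⟩ := hx
  have hyk : y ∈ k := not_not.1 hy
  have hy' : y ∈ inn X k := ⟨hyk, x, hxy.symm, hx1⟩
  have e1 : half X x y = kᶜ := (hk.compl hM).half_eq hM hxy hx1 hy
  have e2 : half X y x = k := hk.half_eq hM hxy.symm hyk hx1
  obtain ⟨t1, t2⟩ := H.two k hk
  unfold Hol.vx
  rw [if_neg hx1, H.gam_eq hM hk hy', H.M_adj x y hxy, Module.End.mul_apply, b3_inv_apply,
    Module.End.mul_apply, e1, e2, rf_ee_self, map_neg, neg_neg,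
    rf_ee_par t1.symm (fun h => t2 (H.psymm _ _ h))]

theorem Hol.vx_adj (H : Hol X C) {k : Set V} {x y : V} (hxy : X.Adj x y) (hk : x ∈ k ↔ y ∈ k) :
    H.vx k x = rf H.P (H.col (half X x y)) (rf H.P (H.col (half X y x)) (H.vx k y)) := by
  have key : ∀ g, (((H.M x)⁻¹ : (Module.End ℤ (C → ℤ))ˣ) : Module.End ℤ (C → ℤ)) g =
      rf H.P (H.col (half X x y)) (rf H.P (H.col (half X y x))
        ((((H.M y)⁻¹ : (Module.End ℤ (C → ℤ))ˣ) : Module.End ℤ (C → ℤ)) g)) := fun g => by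
    conv_lhs => rw [← b3_apply_inv (H.M y) g, H.M_adj x y hxy, Module.End.mul_apply, b3_inv_apply,
      Module.End.mul_apply]
  unfold Hol.vx
  by_cases hx : x ∈ k
  · rw [if_pos hx, if_pos (hk.1 hx), key]
  · rw [if_neg hx, if_neg (fun h => hx (hk.2 h)), key, map_neg, map_neg]

theorem Hol.B_of_mem (hM : IsMedian X) (H : Hol X C) {h k : Set V} (hh : IsHalf X h) {x : V}
    (hx : x ∈ inn X h) (hk : x ∈ k) : H.B h k = bil H.P (ee (H.col h)) (H.vx k x) := by
  unfold Hol.B Hol.vx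
  rw [if_pos hk, H.gam_eq hM hh hx, ← H.M_bil x (ee (H.col h)), b3_apply_inv]

theorem Hol.B_of_not_mem (hM : IsMedian X) (H : Hol X C) {h k : Set V} (hh : IsHalf X h) {x : V}
    (hx : x ∈ inn X h) (hk : x ∉ k) : H.B h k = -bil H.P (ee (H.col h)) (H.vx k x) := by
  unfold Hol.B Hol.vx
  rw [if_neg hk, bil_neg_right, neg_neg, H.gam_eq hM hh hx, ← H.M_bil x (ee (H.col h)),
    b3_apply_inv]

theorem Hol.B_symm (H : Hol X C) (h k : Set V) : H.B h k = H.B k h := by
  exact bil_comm H.psymm _ _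

theorem Hol.B_self (hM : IsMedian X) (H : Hol X C) {h : Set V} (hh : IsHalf X h) :
    H.B h h = 1 := by
  obtain ⟨x, hx⟩ := hh.inn_nonempty
  rw [H.B_of_mem hM hh hx hx.1, H.vx_inn hM hh hx, bil_ee_ee]
  simp [coef]

/-- the inductive step across an edge `x → y` leading towards the target -/
theorem Hol.pos_step (hM : IsMedian X) (H : Hol X C) {T : Set V} {x y : V} (hxy : X.Adj x y)
    (hT : T ⊆ half X y x) (hne : T.Nonempty) {v : C → ℤ} (hv : ∀ c, 0 ≤ v c)
    (hI : ∀ c, (∀ h, IsHalf X h → y ∈ inn X h → Disjoint h T → c ≠ H.col h) →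
      v c ≤ ss H.P c v) :
    (∀ c, 0 ≤ rf H.P (H.col (half X x y)) (rf H.P (H.col (half X y x)) v) c) ∧
    (∀ c, (∀ h, IsHalf X h → x ∈ inn X h → Disjoint h T → c ≠ H.col h) →
      rf H.P (H.col (half X x y)) (rf H.P (H.col (half X y x)) v) c ≤
        ss H.P c (rf H.P (H.col (half X x y)) (rf H.P (H.col (half X y x)) v))) ∧
    9 * ss H.P (H.col (half X y x)) v ≤
      rf H.P (H.col (half X x y)) (rf H.P (H.col (half X y x)) v) (H.col (half X x y)) ∧
    bil H.P (ee (H.col (half X x y)))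
      (rf H.P (H.col (half X x y)) (rf H.P (H.col (half X y x)) v)) ≥ 0 := by
  have hh0 := isHalf_half hxy
  have hh1 := isHalf_half hxy.symm
  have hx0 := b3_inn_half hxy
  have hy1 := b3_inn_half hxy.symm
  have ec := hM.half_compl hxy
  obtain ⟨t1, t2⟩ := H.two _ hh0
  rw [ec] at t1 t2
  have t3 : ¬ H.P (H.col (half X y x)) (H.col (half X x y)) := fun h => t2 (H.psymm _ _ h)
  have a1 : v (H.col (half X y x)) ≤ ss H.P (H.col (half X y x)) v := by
    refine hI _ fun h hh hy hd e => ?_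
    have := H.uniq _ _ y hh1 hh hy1 hy e
    obtain ⟨z, hz⟩ := hne
    exact Set.disjoint_left.1 hd (this ▸ hT hz) hz
  obtain ⟨w1, w2, w3⟩ := rf_step H.psymm hv a1
  have a2 := w3 _ t1 (Or.inr t3)
  obtain ⟨u1, u2, u3⟩ := rf_step H.psymm w1 a2
  have a3 := le_ss w1 t1.symm t2
  have a4 := ss_nonneg (P := H.P) (H.col (half X x y)) w1
  refine ⟨u1, fun c hc => ?_, by linarith, ?_⟩
  · have c0 : c ≠ H.col (half X x y) := hc _ hh0 hx0 (by
      rw [Set.disjoint_left]
      intro z hz hz'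
      have := hT hz'
      rw [← ec] at this
      exact this hz)
    refine u3 c c0 ?_
    by_cases c1 : c = H.col (half X y x)
    · exact Or.inr (c1 ▸ t2)
    · refine Or.inl (w3 c c1 ?_)
      by_cases hc' : ∀ h, IsHalf X h → y ∈ inn X h → Disjoint h T → c ≠ H.col h
      · exact Or.inl (hI c hc')
      · push Not at hc'
        obtain ⟨h, hh, hy, hd, rfl⟩ := hc'
        refine Or.inr (H.osc _ _ y hh1 hh hy1 hy fun hcr => ?_)
        exact hc h hh (hcr.symm.inn_step hM hh hh1 hy hxy.symm hy1.1 (right_not_mem_half y x))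
          hd rfl
  · rw [bil_ee_rf, bil_ee]
    linarith

/-- positivity of roots -/
theorem Hol.pos (hM : IsMedian X) (H : Hol X C) {k : Set V} (hk : IsHalf X k) (x : V) :
    (∀ c, 0 ≤ H.vx k x c) ∧
    ∀ c, (∀ h, IsHalf X h → x ∈ inn X h → Disjoint h (tgt k x) → c ≠ H.col h) →
      H.vx k x c ≤ ss H.P c (H.vx k x) := by
  have hT : ∀ x, IsHalf X (tgt k x) := fun x => by
    by_cases hx : x ∈ k
    · rw [b3_tgt_of_mem hx]; exact hk.compl hM
    · rw [b3_tgt_of_not_mem hx]; exact hk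
  obtain ⟨q, hq⟩ := (hT x).nonempty
  obtain ⟨n, hn⟩ : ∃ n, X.dist x q = n := ⟨_, rfl⟩
  induction n using Nat.strong_induction_on generalizing x q with
  | _ n ih =>
    obtain ⟨t1, t2⟩ := H.two k hk
    by_cases h1 : x ∈ inn X k
    · rw [H.vx_inn hM hk h1, b3_tgt_of_mem h1.1]
      refine ⟨b3_ee_nonneg _, fun c hc => ?_⟩
      rw [b3_ee_ne (hc k hk h1 disjoint_compl_right)]
      exact ss_nonneg _ (b3_ee_nonneg _)
    by_cases h2 : x ∈ inn X kᶜ
    · rw [H.vx_inn_compl hM hk h2, b3_tgt_of_not_mem h2.1]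
      have nn : ∀ c, 0 ≤ (ee (H.col k) + (4 : ℤ) • ee (H.col kᶜ)) c := fun c => by
        have := b3_ee_nonneg (H.col k) c
        have := b3_ee_nonneg (H.col kᶜ) c
        simp only [Pi.add_apply, Pi.smul_apply, smul_eq_mul]
        linarith
      refine ⟨nn, fun c hc => ?_⟩
      have c1 : c ≠ H.col kᶜ := hc kᶜ (hk.compl hM) h2 disjoint_compl_left
      by_cases c0 : c = H.col k
      · subst c0
        refine le_trans ?_ (le_ss nn t1.symm t2)
        simp only [Pi.add_apply, Pi.smul_apply, smul_eq_mul, b3_ee_self, b3_ee_ne t1,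
          b3_ee_ne t1.symm]
        norm_num
      · refine le_trans (le_of_eq ?_) (ss_nonneg _ nn)
        simp only [Pi.add_apply, Pi.smul_apply, smul_eq_mul, b3_ee_ne c0, b3_ee_ne c1]
        norm_num
    obtain ⟨p, hp⟩ := hM.exists_gate ((hT x).cvx hM) ⟨q, hq⟩ x
    have hxp : x ≠ p := fun e => by
      have := hp.1
      rw [← e] at this
      exact this Iff.rfl
    obtain ⟨y, hxy, hd⟩ := hM.exists_step hxp
    have hiff : x ∈ k ↔ y ∈ k := by
      constructor
      · intro hx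
        by_contra hy
        exact h1 ⟨hx, y, hxy, hy⟩
      · intro hy
        by_contra hx
        exact h2 ⟨hx, y, hxy, fun h => h hy⟩
    have et : tgt k y = tgt k x := by
      ext z
      simp only [tgt, Set.mem_ofPred_eq, hiff]
    have hle := hp.dist_le hq
    obtain ⟨i1, i2⟩ := ih (X.dist y p) (by omega) y p (et ▸ hp.1) rfl
    have hsub : tgt k x ⊆ half X y x := hp.subset hM (isHalf_half hxy.symm)
      (right_not_mem_half y x) (by
        show X.dist p y < X.dist p x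
        rw [X.dist_comm (u := p) (v := y), X.dist_comm (u := p) (v := x)]
        omega)
    rw [et] at i2
    obtain ⟨r1, r2, -, -⟩ := H.pos_step hM hxy hsub ⟨q, hq⟩ i1 i2
    rw [H.vx_adj hxy hiff]
    exact ⟨r1, r2⟩

end Pool.Agent.Lib.MP_3467cd_al
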