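import Pool.Agent.Lib.MP_3467cd_al.B3

open Pointwise

namespace Pool.Agent.Lib.MP_3467cd_al

variable {V : Type} {X : SimpleGraph V} {C : Type} [Fintype C]

theorem b4_tgt_mem {k : Set V} {x : V} (hx : x ∈ k) : tgt k x = kᶜ := by
  ext y
  simp [tgt, hx]

theorem b4_tgt_not_mem {k : Set V} {x : V} (hx : x ∉ k) : tgt k x = k := by
  ext y
  simp [tgt, hx]

/-- the colour of a halfspace containing the target is not a descent -/
theorem b4_le_ss (hM : IsMedian X) (H : Hol X C) {h k : Set V} (hh : IsHalf X h)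
    (hk : IsHalf X k) {x : V} (hx : x ∈ inn X h) (hT : tgt k x ⊆ h) (hne : (tgt k x).Nonempty) :
    H.vx k x (H.col h) ≤ ss H.P (H.col h) (H.vx k x) := by
  refine (H.pos hM hk x).2 _ fun h' hh' hx' hd e => ?_
  obtain ⟨z, hz⟩ := hne
  rw [← H.uniq h h' x hh hh' hx hx' e] at hd
  exact Set.disjoint_left.1 hd (hT hz) hz

theorem b4_disjoint (hM : IsMedian X) (H : Hol X C) {h k : Set V} (hh : IsHalf X h)
    (hk : IsHalf X k) (hd : Disjoint h k) : H.B h k ≤ 0 := by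
  obtain ⟨x, hx⟩ := hh.inn_nonempty
  obtain ⟨y, hxy, hy⟩ := inn_partner hx
  have hxk : x ∉ k := Set.disjoint_left.1 hd hx.1
  have hkh : k ⊆ hᶜ := hd.subset_compl_left
  have e1 : half X x y = h := hh.half_eq hM hxy hx.1 hy.1
  have e2 : half X y x = hᶜ := by rw [← e1, hM.half_compl hxy]
  rw [H.B_of_not_mem hM hh hx hxk]
  by_cases hyk : y ∈ k
  · obtain rfl : k = hᶜ := (hh.compl hM).eq_of_inn hM hk hkh hy hyk
    rw [H.vx_inn_compl hM hk (by rwa [compl_compl]), compl_compl, bil_add_right, bil_smul_right,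
      bil_ee_ee, bil_ee_ee, coef, coef, if_neg (H.two h hh).1, if_neg (H.two h hh).2, if_pos rfl]
    norm_num
  · have h1 := H.pos hM hk y
    rw [b4_tgt_not_mem hyk] at h1
    have h2 := (H.pos_step hM hxy (e2 ▸ hkh) hk.nonempty h1.1 h1.2).2.2.2
    rw [← H.vx_adj hxy (iff_of_false hxk hyk), e1] at h2
    omega

theorem Hol.B_incomp (hM : IsMedian X) (H : Hol X C) {h k : Set V} (hh : IsHalf X h)
    (hk : IsHalf X k) (h1 : ¬ h ⊆ k) (h2 : ¬ k ⊆ h) : H.B h k ≤ 0 := by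
  by_cases hc : Cross h k
  · obtain ⟨x, hx, hx'⟩ := hc.inn_inter hM hh hk
    have h3 := H.cross h k hh hk hc
    rw [H.B_of_mem hM hh hx hx'.1, H.vx_inn hM hk hx', bil_ee_ee, coef,
      if_neg (fun e => H.pirr _ (e ▸ h3)), if_pos h3]
  · rcases not_cross_iff.1 hc with hd | hd | hd | hd
    · exact b4_disjoint hM H hh hk hd
    · exact absurd hd h1
    · exact absurd hd h2
    · obtain ⟨x, hx⟩ := hh.inn_nonempty
      have hkh : kᶜ ⊆ h := by simpa using hd.subset_compl_left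
      by_cases hxk : x ∈ k
      · have h3 := b4_le_ss hM H hh hk hx (b4_tgt_mem hxk ▸ hkh)
          (b4_tgt_mem hxk ▸ hk.compl_nonempty)
        have h4 := ss_nonneg (P := H.P) (H.col h) (H.pos hM hk x).1
        rw [H.B_of_mem hM hh hx hxk, bil_ee]
        omega
      · refine b4_disjoint hM H hh hk ?_
        rw [← hh.eq_of_inn hM (hk.compl hM) hkh hx hxk]
        exact disjoint_compl_left

theorem b4_nest (hM : IsMedian X) (H : Hol X C) {k : Set V} (δ : ℕ) :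
    ∀ (n : ℕ) (h : Set V), 1 ≤ n → Nest X n k h → ∀ x ∈ inn X h, ∀ p ∈ k, X.dist p x = δ →
      (n : ℤ) + 1 ≤ H.B h k := by
  induction δ using Nat.strong_induction_on with
  | _ δ ih =>
  intro n h hn hN x hx p hp hδ
  have hk := hN.isHalf_left
  have hh := hN.isHalf_right
  obtain ⟨c, hc, rfl, rfl⟩ := id hN
  have hc1 : IsHalf X (c 1) := hc.1 1 hn
  have h10 : c 1 ⊂ c 0 := hc.2 0 hn
  have hn1 : c n ⊆ c 1 := hc.subset hn le_rfl
  have hx1 : x ∉ c 1 := fun hx1 => h10.ne (hh.eq_of_inn hM hc1 h10.subset hx hx1)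
  have hxk : x ∉ c n := fun e => hx1 (hn1 e)
  obtain ⟨k1, hk1, hs1, hxk1⟩ := hc1.exists_adj_sup hM hx1
  obtain ⟨y, hxy, hy⟩ := inn_partner hxk1
  rw [compl_compl] at hy
  have e2 : half X y x = k1 := hk1.half_eq hM hxy.symm hy.1 hxk1.1
  have e1 : half X x y = k1ᶜ := by rw [← e2, hM.half_compl hxy.symm]
  have hpk1 : p ∈ k1 := hs1 (hn1 hp)
  have hlt : X.dist p y < δ := by
    rw [← e2] at hpk1
    exact hδ ▸ hpk1
  by_cases hcr : Cross (c 0) k1ᶜ
  · exact ih _ hlt n _ hn hN y (hcr.inn_step hM hh (hk1.compl hM) hx hxy hxk1.1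
      (fun e => e hy.1)) p hp rfl
  have h1 := b4_le_ss hM H hh hk hx ((b4_tgt_not_mem hxk).symm ▸ hN.subset)
    ((b4_tgt_not_mem hxk).symm ▸ hk.nonempty)
  have h2 : H.vx (c n) x (H.col k1ᶜ) ≤ ss H.P (H.col (c 0)) (H.vx (c n) x) := by
    refine le_ss (H.pos hM hk x).1 (fun e => ?_) (H.osc _ _ x hh (hk1.compl hM) hx hxk1 hcr)
    have h3 := hN.subset hp
    rw [← H.uniq _ _ x (hk1.compl hM) hh hxk1 hx e] at h3
    exact h3 hpk1
  rw [H.B_of_not_mem hM hh hx hxk, bil_ee]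
  by_cases hyk : y ∈ c n
  · have e3 : c n = k1 := hk1.eq_of_inn hM hk (hn1.trans hs1) hy hyk
    have e4 : n = 1 := by
      by_contra hne
      exact (hc.ssubset (i := 1) (j := n) (by omega) le_rfl).not_subset (e3 ▸ hs1)
    have h3 : H.vx (c n) x (H.col k1ᶜ) = 4 := by
      rw [e3, H.vx_inn_compl hM hk1 hxk1]
      simp [ee, (H.two k1 hk1).1.symm]
    omega
  · have hss : c n ⊂ k1 := ⟨hn1.trans hs1, fun e => hyk (e hy.1)⟩
    have h3 : ∃ m : ℕ, 1 ≤ m ∧ n ≤ m + 1 ∧ Nest X m (c n) k1 := by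
      rcases Nat.eq_or_lt_of_le hn with e | e
      · exact ⟨1, le_rfl, by omega, nest_one hk hk1 hss⟩
      · exact ⟨n - 1, by omega, by omega,
          (hc.nest hn le_rfl).enlarge (by omega) hk hk1 subset_rfl hs1⟩
    obtain ⟨m, hm, hnm, hN'⟩ := h3
    have h4 := ih _ hlt m k1 hm hN' y hy p hp rfl
    have h5 := H.pos hM hk y
    rw [H.B_of_not_mem hM hk1 hy hyk, bil_ee] at h4
    have h6 := h5.1 (H.col k1)
    rw [b4_tgt_not_mem hyk] at h5
    have h7 := (H.pos_step hM hxy (e2 ▸ hss.subset) hk.nonempty h5.1 h5.2).2.2.1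
    rw [← H.vx_adj hxy (iff_of_false hxk hyk), e1, e2] at h7
    omega

theorem Hol.B_nest (hM : IsMedian X) (H : Hol X C) {n : ℕ} {h k : Set V} (hn : 1 ≤ n)
    (hN : Nest X n k h) : (n : ℤ) + 1 ≤ H.B h k := by
  obtain ⟨x, hx⟩ := hN.isHalf_right.inn_nonempty
  obtain ⟨p, hp⟩ := hN.isHalf_left.nonempty
  exact b4_nest hM H _ n h hn hN x hx p hp rfl

end Pool.Agent.Lib.MP_3467cd_al
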