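import Pool.Agent.Lib.MP_3467cd_al.B2
import Pool.Agent.Lib.MP_3467cd_al.B4

open Pointwise

namespace Pool.Agent.Lib.MP_3467cd_al

variable {G : Type} [Group G] {V : Type} [MulAction G V] {X : SimpleGraph V}

/-- permutation of coordinates -/
def b5hat {C : Type} (σ : Equiv.Perm C) : Module.End ℤ (C → ℤ) := LinearMap.funLeft ℤ ℤ σ.symm

theorem b5hat_apply {C : Type} (σ : Equiv.Perm C) (v : C → ℤ) (c : C) :
    b5hat σ v c = v (σ.symm c) := rfl

theorem b5hat_one {C : Type} : b5hat (1 : Equiv.Perm C) = 1 := rfl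

theorem b5hat_mul {C : Type} (σ τ : Equiv.Perm C) : b5hat (σ * τ) = b5hat σ * b5hat τ := rfl

theorem b5hat_ee {C : Type} (σ : Equiv.Perm C) (c : C) : b5hat σ (ee c) = ee (σ c) := by
  funext d
  rw [b5hat_apply]
  unfold ee
  by_cases h : d = σ c
  · rw [if_pos h, if_pos ((Equiv.symm_apply_eq σ).2 h)]
  · rw [if_neg h, if_neg fun e => h ((Equiv.symm_apply_eq σ).1 e)]

theorem b5_bil_hat {C : Type} [Fintype C] {P : C → C → Prop} (σ : Equiv.Perm C)
    (h : ∀ c d, P (σ c) (σ d) ↔ P c d) (v w : C → ℤ) :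
    bil P (b5hat σ v) (b5hat σ w) = bil P v w := by
  unfold bil
  rw [← Equiv.sum_comp σ]
  refine Finset.sum_congr rfl fun c _ => ?_
  rw [← Equiv.sum_comp σ]
  refine Finset.sum_congr rfl fun d _ => ?_
  have e : coef P (σ c) (σ d) = coef P c d := by
    unfold coef
    by_cases h1 : c = d
    · rw [if_pos h1, if_pos (congrArg σ h1)]
    · rw [if_neg h1, if_neg fun e => h1 (σ.injective e)]
      by_cases h2 : P c d
      · rw [if_pos h2, if_pos ((h c d).2 h2)]
      · rw [if_neg h2, if_neg fun e => h2 ((h c d).1 e)]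
  simp only [b5hat_apply, Equiv.symm_apply_apply, e]

theorem b5hat_rf {C : Type} [Fintype C] {P : C → C → Prop} (σ : Equiv.Perm C)
    (h : ∀ c d, P (σ c) (σ d) ↔ P c d) (c : C) :
    rf P (σ c) * b5hat σ = b5hat σ * rf P c := by
  refine LinearMap.ext fun v => ?_
  rw [Module.End.mul_apply, Module.End.mul_apply, rf_apply, rf_apply, map_sub, map_smul,
    ← b5hat_ee, b5_bil_hat σ h]

theorem b5_dvd_map {C : Type} (T : Module.End ℤ (C → ℤ)) {n : ℤ} {u : C → ℤ}
    (h : ∀ c, n ∣ u c) (c : C) : n ∣ T u c := by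
  choose u' hu using h
  have e : u = n • u' := funext fun c => by rw [hu c]; rfl
  rw [e, map_smul]
  exact ⟨T u' c, rfl⟩

theorem b5_sum_ee {C : Type} [Fintype C] (v : C → ℤ) : v = ∑ d, v d • ee d := by
  classical
  funext c
  simp [ee, Finset.sum_apply]

/-- the integral representation -/
theorem Hol.exists_rep (hc : IsCubulation G X) {C : Type} [Fintype C] (H : Hol X C)
    (π : G →* Equiv.Perm C) (h1 : ∀ (g : G) h, IsHalf X h → H.col (g • h) = π g (H.col h))
    (h2 : ∀ (g : G) c d, H.P (π g c) (π g d) ↔ H.P c d) :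
    ∃ ρ : G →* Module.End ℤ (C → ℤ), (∀ g v w, bil H.P (ρ g v) (ρ g w) = bil H.P v w) ∧
      ∀ (g : G) h, IsHalf X h → H.gam (g • h) = ρ g (H.gam h) := by
  obtain ⟨x0⟩ := hc.median.1.nonempty
  let ρ0 : G → Module.End ℤ (C → ℤ) := fun g =>
    (H.M (g • x0) : Module.End ℤ (C → ℤ)) * b5hat (π g) *
      (((H.M x0)⁻¹ : (Module.End ℤ (C → ℤ))ˣ) : Module.End ℤ (C → ℤ))
  have key : ∀ (g : G) x, (H.M (g • x) : Module.End ℤ (C → ℤ)) * b5hat (π g) =
      ρ0 g * (H.M x : Module.End ℤ (C → ℤ)) := by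
    intro g x
    refine hc.median.adj_induction (x0 := x0)
      (p := fun x => (H.M (g • x) : Module.End ℤ (C → ℤ)) * b5hat (π g) =
        ρ0 g * (H.M x : Module.End ℤ (C → ℤ))) ?_ ?_ x
    · simp only [ρ0, mul_assoc, Units.inv_mul, mul_one]
    · intro x y hxy ih
      rw [H.M_adj _ _ (hc.adj g x y hxy), H.M_adj _ _ hxy, ← hc.smul_half, ← hc.smul_half,
        h1 g _ (isHalf_half hxy), h1 g _ (isHalf_half hxy.symm), mul_assoc, mul_assoc,
        b5hat_rf _ (h2 g), ← mul_assoc (rf H.P _), b5hat_rf _ (h2 g), mul_assoc,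
        ← mul_assoc, ih, mul_assoc]
  refine ⟨⟨⟨ρ0, ?_⟩, ?_⟩, ?_, ?_⟩
  · simp only [ρ0, one_smul, map_one, b5hat_one, mul_one, Units.mul_inv]
  · intro g g'
    change (H.M ((g * g') • x0) : Module.End ℤ (C → ℤ)) * b5hat (π (g * g')) * _ = ρ0 g * ρ0 g'
    rw [mul_smul, map_mul, b5hat_mul, ← mul_assoc, key]
    simp only [ρ0, mul_assoc]
  · intro g v w
    change bil H.P (ρ0 g v) (ρ0 g w) = _
    simp only [ρ0, Module.End.mul_apply]
    rw [H.M_bil, b5_bil_hat _ (h2 g), ← H.M_bil x0, ← Module.End.mul_apply,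
      ← Module.End.mul_apply, Units.mul_inv]
    rfl
  · intro g h hh
    obtain ⟨y, hy⟩ := hh.inn_nonempty
    have hy' : g • y ∈ inn X (g • h) := by
      rw [← hc.smul_inn]
      exact Set.smul_mem_smul_set hy
    change H.gam (g • h) = ρ0 g (H.gam h)
    rw [H.gam_eq hc.median (hh.smul hc g) hy', H.gam_eq hc.median hh hy, h1 g h hh, ← b5hat_ee,
      ← Module.End.mul_apply, key, Module.End.mul_apply]

/-- congruence subgroups -/
theorem exists_cong {C : Type} [Fintype C] (ρ : G →* Module.End ℤ (C → ℤ)) :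
    ∃ N : ℕ → Subgroup G, (∀ n, (N n).Normal) ∧ (∀ n, 1 ≤ n → (N n).FiniteIndex) ∧
      ∀ n, ∀ f ∈ N n, ∀ v c, (n : ℤ) ∣ ρ f v c - v c := by
  have hinv : ∀ (g : G) v, ρ g (ρ g⁻¹ v) = v := fun g v => by
    rw [← Module.End.mul_apply, ← map_mul, mul_inv_cancel, map_one]; rfl
  have hinv' : ∀ (g : G) v, ρ g⁻¹ (ρ g v) = v := fun g v => by
    rw [← Module.End.mul_apply, ← map_mul, inv_mul_cancel, map_one]; rfl
  let N : ℕ → Subgroup G := fun n =>
    { carrier := {g | ∀ v c, (n : ℤ) ∣ ρ g v c - v c}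
      one_mem' := fun v c => by simp
      mul_mem' := fun {a b} ha hb v c => by
        have := dvd_add (ha (ρ b v) c) (hb v c)
        rwa [sub_add_sub_cancel, ← Module.End.mul_apply, ← map_mul] at this
      inv_mem' := fun {a} ha v c => by
        have := ha (ρ a⁻¹ v) c
        rw [hinv] at this
        exact dvd_sub_comm.1 this }
  refine ⟨N, fun n => ⟨fun g hg h v c => ?_⟩, fun n hn => ?_, fun n f hf => hf⟩
  · have := b5_dvd_map (ρ h) (u := ρ g (ρ h⁻¹ v) - ρ h⁻¹ v) (fun c => hg _ c) c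
    rwa [map_sub, hinv, ← Module.End.mul_apply, ← Module.End.mul_apply, ← map_mul,
      ← map_mul] at this
  · have : NeZero n := ⟨by omega⟩
    let φ : G → C → C → ZMod n := fun g c d => (ρ g (ee c) d : ZMod n)
    have hφ : ∀ a b, φ a = φ b → a⁻¹ * b ∈ N n := by
      intro a b hab v c
      have h1 : ∀ c, (n : ℤ) ∣ (ρ b v - ρ a v) c := by
        intro c
        rw [b5_sum_ee v, map_sum, map_sum, ← Finset.sum_sub_distrib, Finset.sum_apply]
        refine Finset.dvd_sum fun d _ => ?_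
        rw [map_smul, map_smul, ← smul_sub]
        exact Dvd.dvd.mul_left
          ((ZMod.intCast_eq_intCast_iff_dvd_sub _ _ n).1 (congrFun (congrFun hab d) c)) _
      have := b5_dvd_map (ρ a⁻¹) h1 c
      rwa [map_sub, hinv', ← Module.End.mul_apply, ← map_mul] at this
    have : Finite (G ⧸ N n) := Finite.of_injective (fun q : G ⧸ N n => φ q.out) fun q q' h => by
      rw [← QuotientGroup.out_eq' q, ← QuotientGroup.out_eq' q']
      exact QuotientGroup.eq.2 (hφ _ _ h)
    exact Subgroup.finiteIndex_of_finite_quotient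

theorem IsCubulation.exists_BF (hc : IsCubulation G X) (hsp : VirtuallySpecial G X) :
    Nonempty (BF G X) := by
  obtain ⟨C, inst, H, π, h1, h2⟩ := hc.exists_hol hsp
  obtain ⟨ρ, r1, r2⟩ := H.exists_rep hc π h1 h2
  obtain ⟨N, n1, n2, n3⟩ := exists_cong ρ
  refine ⟨⟨H.B, N, ?_, H.B_symm, fun h hh => H.B_self hc.median hh,
    fun n h k hn hN => H.B_nest hc.median hn hN,
    fun h k hh hk a b => H.B_incomp hc.median hh hk a b, n1, n2, ?_⟩⟩
  · intro g h k hh hk
    simp only [Hol.B, r2 g h hh, r2 g k hk, r1]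
  · intro n f hf h k hh _
    simp only [Hol.B, r2 f h hh]
    exact bil_dvd_left (n3 n f hf _) _

theorem BF.bound (hc : IsCubulation G X) (β : BF G X) (r : ℕ) : ∃ C : ℕ, 1 ≤ C ∧
    ∀ h k, IsHalf X h → IsHalf X k → Near X r h k → |β.B h k| ≤ C := by
  obtain ⟨T, hT, H⟩ := hc.pair_orbits r
  obtain ⟨M, hM⟩ := (hT.image fun p => (β.B p.1 p.2).natAbs).bddAbove
  refine ⟨M + 1, by omega, fun h k hh hk hn => ?_⟩
  obtain ⟨g, hg⟩ := H h k hh hk hn
  have h1 : (β.B (g • h) (g • k)).natAbs ≤ M := hM ⟨_, hg, rfl⟩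
  rw [β.inv g h k hh hk] at h1
  rw [Int.abs_eq_natAbs]
  exact_mod_cast h1.trans (Nat.le_succ M)

theorem BF.eq_of_one (β : BF G X) {h k : Set V} (hh : IsHalf X h) (hk : IsHalf X k)
    (H : β.B h k = 1) : h = k := by
  by_contra hne
  by_cases h1 : h ⊆ k
  · have := β.nest 1 k h le_rfl (nest_one hh hk (h1.ssubset_of_ne hne))
    rw [β.symm, H] at this
    norm_num at this
  by_cases h2 : k ⊆ h
  · have := β.nest 1 h k le_rfl (nest_one hk hh (h2.ssubset_of_ne (Ne.symm hne)))
    rw [H] at this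
    norm_num at this
  have := β.incomp h k hh hk h1 h2
  rw [H] at this
  norm_num at this

theorem BF.sepA (hc : IsCubulation G X) (β : BF G X) : SepA G X := by
  refine ⟨fun r => ?_, fun h k hh hk hne => ?_⟩
  · obtain ⟨C, -, hC⟩ := β.bound hc r
    refine ⟨β.N (C + 2), β.normal _, β.fi _ (by omega), fun f hf h hh hn => ?_⟩
    have h1 := abs_le.1 (hC _ _ (hh.smul hc f) hh hn)
    have h2 := β.cong _ f hf h h hh hh
    rw [β.self h hh] at h2
    have h3 := Int.eq_zero_of_abs_lt_dvd h2 (abs_lt.2 ⟨by push_cast; omega, by push_cast; omega⟩)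
    exact β.eq_of_one (hh.smul hc f) hh (by omega)
  · refine ⟨β.N ((1 - β.B h k).natAbs + 1), β.normal _, β.fi _ (by omega), fun f hf e => ?_⟩
    have h2 := β.cong _ f hf h k hh hk
    rw [e, β.self k hk] at h2
    have h3 := Int.eq_zero_of_abs_lt_dvd h2 (by rw [Int.abs_eq_natAbs]; push_cast; omega)
    exact hne (β.eq_of_one hh hk (by omega))

theorem BF.sepB (hc : IsCubulation G X) (β : BF G X) : SepB G X := by
  choose Cf h1 hC using β.bound hc
  refine ⟨Cf, h1, fun r' E hE hh hch => ?_⟩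
  obtain ⟨M, hM⟩ := ((hE.prod hE).image fun p => (β.B p.1 p.2).natAbs).bddAbove
  refine ⟨β.N (Cf r' + M + 1), β.normal _, β.fi _ (by omega), fun f hf e he e' he' => ?_⟩
  have hfe := (hh e he).smul hc f
  have key : Near X r' (f • e) e' → β.B (f • e) e' = β.B e e' := by
    intro hn
    have a1 := abs_le.1 (hC r' _ _ hfe (hh e' he') hn)
    have a2 : (β.B e e').natAbs ≤ M := hM ⟨(e, e'), ⟨he, he'⟩, rfl⟩
    have a3 := β.cong _ f hf e e' (hh e he) (hh e' he')
    have a4 := Int.eq_zero_of_abs_lt_dvd a3 (abs_lt.2 ⟨by push_cast; omega, by push_cast; omega⟩)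
    omega
  have hpos : 1 ≤ β.B e e' := by
    by_cases hee : e = e'
    · rw [← hee, β.self e (hh e he)]
    rcases hch e he e' he' with h | h
    · have := β.nest 1 e' e le_rfl (nest_one (hh e he) (hh e' he') (h.ssubset_of_ne hee))
      rw [β.symm] at this
      omega
    · have := β.nest 1 e e' le_rfl
        (nest_one (hh e' he') (hh e he) (h.ssubset_of_ne (Ne.symm hee)))
      omega
  refine ⟨fun hn => ⟨?_, fun hee => ?_⟩, fun r hr hN hn => ?_⟩
  · by_contra hx
    have := β.incomp _ _ hfe (hh e' he') (fun h => hx (Or.inl h)) (fun h => hx (Or.inr h))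
    rw [key hn] at this
    omega
  · have := key hn
    subst hee
    exact β.eq_of_one hfe (hh e he) (this.trans (β.self e (hh e he)))
  · have a1 := abs_le.1 (hC r _ _ hfe (hh e' he') hn)
    rw [key (hn.mono hr)] at a1
    rcases hN with hN | hN
    · have := β.nest _ e' e (h1 r) hN
      rw [β.symm] at this
      omega
    · have := β.nest _ e e' (h1 r) hN
      omega

end Pool.Agent.Lib.MP_3467cd_al
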