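import Pool.Agent.Lib.MP_3467cd_al.CuSD

open Pointwise

namespace Pool.Agent.Lib.MP_3467cd_al.Cu

variable {G : Type} [Group G] {V : Type} [MulAction G V] {X : SimpleGraph V}

variable {h : G} {c : Set V}

theorem cc_compl (ε : Bool) (i : ℤ) : (cc h c ε i)ᶜ = cc h c (!ε) (-i) := by
  cases ε <;> simp [cc]

theorem zpow_smul_cc (ε : Bool) (m i : ℤ) :
    h ^ m • cc h c ε i = cc h c ε (i + cond ε m (-m)) := by
  cases ε
  · simp only [cc, cond_false, Set.smul_set_compl, smul_smul, ← zpow_add]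
    rw [show m + -i = -(i + -m) by ring]
  · simp only [cc, cond_true, smul_smul, ← zpow_add, add_comm]

theorem cc_half (hc : IsCubulation G X) (hA : SD X (h • c) cᶜ) (ε : Bool) (i : ℤ) :
    IsHalf X (cc h c ε i) := by
  have h1 : IsHalf X c := compl_compl c ▸ hA.right.compl hc.median
  cases ε
  · exact (h1.smul hc _).compl hc.median
  · exact h1.smul hc _

theorem ax1_step (hc : IsCubulation G X) (hA : SD X (h • c) cᶜ) (ε : Bool) (i : ℤ) :
    SD X (cc h c ε (i + 1)) (cc h c ε i)ᶜ := by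
  have h1 : ∀ i : ℤ, SD X (h ^ (i + 1) • c) (h ^ i • c)ᶜ := fun i => by
    have := hA.smul hc (h ^ i)
    rwa [smul_smul, ← zpow_add_one, Set.smul_set_compl] at this
  cases ε
  · have := (h1 (-(i + 1))).symm
    rw [show -(i + 1) + 1 = -i by ring] at this
    simpa only [cc, cond_false, compl_compl] using this
  · exact h1 i

theorem ax1_anti (hc : IsCubulation G X) (hA : SD X (h • c) cᶜ) (ε : Bool) {i j : ℤ}
    (hij : i ≤ j) : cc h c ε j ⊆ cc h c ε i := by
  induction j, hij using Int.leInduction with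
  | base => exact subset_rfl
  | succ j _ ih => exact (ax1_step hc hA ε j).subset.trans ih

theorem cc_sd (hc : IsCubulation G X) (hA : SD X (h • c) cᶜ) (ε : Bool) {i j : ℤ} (hij : i < j) :
    SD X (cc h c ε j) (cc h c ε i)ᶜ := by
  exact (ax1_step hc hA ε i).mono_left (cc_half hc hA ε j) (ax1_anti hc hA ε hij)

theorem cc_anti (hc : IsCubulation G X) (hA : SD X (h • c) cᶜ) (ε : Bool) {i j : ℤ}
    (hij : i ≤ j) : cc h c ε j ⊆ cc h c ε i := by
  exact ax1_anti hc hA ε hij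

theorem cc_chn (hc : IsCubulation G X) (hA : SD X (h • c) cᶜ) (ε : Bool) (g : G) (i : ℤ)
    (n : ℕ) : Chn X n fun m => g • cc h c ε (i + m) := by
  exact ⟨fun m _ => (cc_half hc hA ε _).smul hc g, fun m _ =>
    smul_ssubset g (cc_sd hc hA ε (by push_cast; omega)).ssubset⟩

/-- `Nest.le_dist` -/
theorem cc_not_mem (hc : IsCubulation G X) (hA : SD X (h • c) cᶜ) (ε : Bool) (x : V) :
    ∃ i : ℤ, x ∉ cc h c ε i := by
  obtain ⟨y, hy⟩ := (cc_half hc hA ε 0).compl_nonempty
  refine ⟨X.dist x y, fun hx => ?_⟩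
  have h1 := (cc_chn hc hA ε 1 0 (X.dist x y)).nest (Nat.zero_le _) le_rfl
  simp only [one_smul, zero_add, Nat.cast_zero, Nat.sub_zero] at h1
  have h2 := h1.le_dist hc.median hx hy
  omega

theorem ax1_ss (g : G) {a b : Set V} : g • a ⊂ g • b ↔ a ⊂ b :=
  ⟨fun H => by simpa only [inv_smul_smul] using smul_ssubset g⁻¹ H, smul_ssubset g⟩

theorem ax1_iter {m : ℤ} {k : Set V} (H : h ^ m • k ⊆ k) (n : ℕ) : h ^ (m * n) • k ⊆ k := by
  induction n with
  | zero => simp
  | succ n ih =>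
    rw [Nat.cast_succ, mul_add, mul_one, zpow_add, mul_smul]
    exact (Set.smul_set_mono H).trans ih

theorem ax1_clean (hc : IsCubulation G X) (hA : SD X (h • c) cᶜ) {k : Set V} (hk : IsHalf X k)
    (ε : Bool) : ∃ i, Clean (cc h c ε i) k := by
  obtain ⟨x, hx⟩ := hk.nonempty
  obtain ⟨y, hy⟩ := hk.compl_nonempty
  obtain ⟨i, hi⟩ := cc_not_mem hc hA ε x
  obtain ⟨j, hj⟩ := cc_not_mem hc hA ε y
  have h1 : x ∈ (cc h c ε (max i j))ᶜ := fun H => hi (cc_anti hc hA ε (le_max_left _ _) H)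
  have h2 : y ∈ (cc h c ε (max i j))ᶜ := fun H => hj (cc_anti hc hA ε (le_max_right _ _) H)
  rcases (ax1_step hc hA ε (max i j)).clean k hk with H | H | H
  · exact ⟨_, H⟩
  · exact absurd (H h2) hy
  · exact absurd hx (H h1)

theorem ax1_no (hc : IsCubulation G X) (hA : SD X (h • c) cᶜ) {k : Set V} (hk : k.Nonempty)
    {m i j : ℤ} (hm : m ≠ 0) (H : h ^ m • k ⊆ k) (h1 : cc h c true i ⊆ kᶜ)
    (h2 : cc h c false j ⊆ kᶜ) : False := by
  obtain ⟨x, hx⟩ := hk
  have h3 : k ⊆ cc h c true (-j) := by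
    have := Set.compl_subset_compl.2 h2
    rwa [compl_compl, cc_compl] at this
  have h4 := ax1_iter H (i + j).natAbs (Set.smul_mem_smul_set hx)
  have h5 : i + j ≤ ((i + j).natAbs : ℤ) := Int.le_natAbs
  have h6 : (0 : ℤ) ≤ ((i + j).natAbs : ℤ) := Int.natCast_nonneg _
  generalize ((i + j).natAbs : ℤ) = n at h4 h5 h6
  rcases lt_or_gt_of_ne hm with hm | hm
  · have h7 := Set.smul_mem_smul_set (a := h ^ (-(m * n))) (h3 h4)
    rw [smul_smul, ← zpow_add, neg_add_cancel, zpow_zero, one_smul, zpow_smul_cc, cond_true] at h7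
    exact h1 (cc_anti hc hA true (by nlinarith) h7) hx
  · have h7 := Set.smul_mem_smul_set (a := h ^ (m * n)) (h3 hx)
    rw [zpow_smul_cc, cond_true] at h7
    exact h1 (cc_anti hc hA true (by nlinarith) h7) h4

/-- For each `ε` some `cc h c ε i` is clean for `k` (take `x ∈ k`, `y ∉ k`, `i` with
`x, y ∉ cc h c ε i`; if `cc h c ε (i + 1)` is not clean then `(cc h c ε i)ᶜ` is). If both ends
lie on one side, the other side `k'` lies in `cc true j \ cc true i` and so is disjoint from its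
translates by large powers of `h ^ m`. -/
theorem ax_iff (hc : IsCubulation G X) (hA : SD X (h • c) cᶜ) {k : Set V} (hk : IsHalf X k) :
    Ax h k ↔ ∃ (ε : Bool) (i j : ℤ), cc h c ε i ⊆ k ∧ k ⊆ cc h c ε j := by
  constructor
  · rintro ⟨m, hm, H⟩
    obtain ⟨i, hi⟩ := ax1_clean hc hA hk true
    obtain ⟨j, hj⟩ := ax1_clean hc hA hk false
    rcases hi with hi | hi <;> rcases hj with hj | hj
    · refine (ax1_no hc hA (i := i) (j := j) hk.compl_nonempty (neg_ne_zero.2 hm) ?_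
        (by rwa [compl_compl]) (by rwa [compl_compl])).elim
      have h1 := Set.smul_set_mono (a := h ^ (-m)) H.subset
      rw [smul_smul, ← zpow_add, neg_add_cancel, zpow_zero, one_smul] at h1
      rw [Set.smul_set_compl]
      exact Set.compl_subset_compl.2 h1
    · refine ⟨true, i, -j, hi, ?_⟩
      have := Set.compl_subset_compl.2 hj
      rwa [compl_compl, cc_compl] at this
    · refine ⟨false, j, -i, hj, ?_⟩
      have := Set.compl_subset_compl.2 hi
      rwa [compl_compl, cc_compl] at this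
    · exact (ax1_no hc hA hk.nonempty hm H.subset hi hj).elim
  · rintro ⟨ε, i, j, h1, h2⟩
    have h3 : i - j ≤ |i - j| := le_abs_self _
    have h4 : 0 ≤ |i - j| := abs_nonneg _
    generalize |i - j| = s at h3 h4
    refine ⟨cond ε (s + 1) (-(s + 1)), by cases ε <;> simp <;> omega, ?_⟩
    refine (Set.smul_set_mono h2).trans_ssubset (LT.lt.trans_subset ?_ h1)
    rw [zpow_smul_cc]
    exact (cc_sd hc hA ε (by cases ε <;> simp <;> omega)).ssubset

theorem mem_EE_iff (hc : IsCubulation G X) {g : G} :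
    g ∈ EE X h ↔ ∀ k, IsHalf X k → (Ax h (g • k) ↔ Ax h k) := by
  have h1 : ∀ k : Set V, IsHalf X (g • k) ↔ IsHalf X k := fun k =>
    ⟨fun H => by simpa only [inv_smul_smul] using H.smul hc g⁻¹, fun H => H.smul hc g⟩
  rw [EE, MulAction.mem_stabilizer_set]
  simp only [Set.mem_ofPred_eq, h1, and_congr_right_iff]

theorem zpowers_le_EE (hc : IsCubulation G X) : Subgroup.zpowers h ≤ EE X h := by
  rintro _ ⟨p, rfl⟩
  refine (mem_EE_iff hc).2 fun k _ => exists_congr fun m => and_congr_right fun _ => ?_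
  rw [smul_smul, ← zpow_add, add_comm, zpow_add, mul_smul, ax1_ss]

theorem ax1_mul {p : ℤ} (hp : p ≠ 0) (k : Set V) :
    Ax h k ↔ ∃ m : ℤ, m ≠ 0 ∧ h ^ (p * m) • k ⊂ k := by
  refine ⟨fun ⟨m, hm, H⟩ => ⟨p.sign * m, mul_ne_zero (by simpa using hp) hm, ?_⟩,
    fun ⟨m, hm, H⟩ => ⟨_, mul_ne_zero hp hm, H⟩⟩
  obtain ⟨n, hn⟩ := Nat.exists_eq_succ_of_ne_zero (Int.natAbs_ne_zero.2 hp)
  have h1 : p * (p.sign * m) = m * n + m := by
    rw [← mul_assoc, Int.mul_sign_self, hn]
    push_cast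
    ring
  rw [h1, add_comm, zpow_add, mul_smul]
  exact (Set.smul_set_mono (ax1_iter H.subset n)).trans_ssubset H

/-- `Ax h k` holds iff `h ^ (p * m) • k ⊂ k` for some `m ≠ 0` (iterate `|p|` times). Note
`q ≠ 0` because `h ^ p ≠ 1`. -/
theorem mem_EE_of_conj (hc : IsCubulation G X) (hA : SD X (h • c) cᶜ) {g : G} {p q : ℤ}
    (hp : p ≠ 0) (H : h ^ p = g * h ^ q * g⁻¹) : g ∈ EE X h := by
  have hq : q ≠ 0 := by
    rintro rfl
    have h1 : cc h c true p = cc h c true 0 := by simp [cc, H]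
    rcases lt_or_gt_of_ne hp with h2 | h2
    · exact (cc_sd hc hA true h2).ssubset.ne h1.symm
    · exact (cc_sd hc hA true h2).ssubset.ne h1
  refine (mem_EE_iff hc).2 fun k _ => ?_
  rw [ax1_mul hp, ax1_mul hq]
  refine exists_congr fun m => and_congr_right fun _ => ?_
  rw [zpow_mul, H, conj_zpow, ← zpow_mul, mul_smul, mul_smul, inv_smul_smul, ax1_ss]

/-- `ψ • h • c` and `ψ • c` lie in `sep X y x`; two elements with the same pair of images send the
gate point of `SD.exists_pi` to the same point (it is unique), `proper_dist`. -/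
theorem fin_gamma (hc : IsCubulation G X) (hA : SD X (h • c) cᶜ) {P Q : Set V} (hP : P.Nonempty)
    (hQ : Qᶜ.Nonempty) : {ψ : G | P ⊆ ψ • h • c ∧ ψ • c ⊆ Q}.Finite := by
  obtain ⟨x, hx⟩ := hP
  obtain ⟨y, hy⟩ := hQ
  obtain ⟨p, hp⟩ := hA.exists_pi hc.median
  refine (hc.proper_dist y p (X.dist y x)).subset fun ψ hψ => ?_
  have h1 : X.dist y (ψ • p) + X.dist (ψ • p) x = X.dist y x :=
    (hp.smul hc ψ).2 y (fun H => hy (hψ.2 H)) x (hψ.1 hx)
  exact Nat.le.intro h1

end Pool.Agent.Lib.MP_3467cd_al.Cu
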