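import Pool.Agent.Lib.MP_3467cd_al.CuAx1

open Pointwise

namespace Pool.Agent.Lib.MP_3467cd_al.Cu

variable {G : Type} [Group G] {V : Type} [MulAction G V] {X : SimpleGraph V}

variable {h : G} {c : Set V}

theorem ax2_ss (hc : IsCubulation G X) (hA : SD X (h • c) cᶜ) (ε : Bool) (γ : G) {i j : ℤ}
    (hij : i < j) : γ • cc h c ε j ⊂ γ • cc h c ε i :=
  smul_ssubset γ (cc_sd hc hA ε hij).ssubset

theorem ax2_anti (hc : IsCubulation G X) (hA : SD X (h • c) cᶜ) (ε : Bool) (γ : G) {i j : ℤ}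
    (hij : i ≤ j) : γ • cc h c ε j ⊆ γ • cc h c ε i :=
  Set.smul_set_mono (cc_anti hc hA ε hij)

theorem ax2_sd (hc : IsCubulation G X) (hA : SD X (h • c) cᶜ) (ε : Bool) (γ : G) {i j : ℤ}
    (hij : i < j) : SD X (γ • cc h c ε j) (γ • cc h c ε i)ᶜ := by
  have H := (cc_sd hc hA ε hij).smul hc γ
  rwa [Set.smul_set_compl] at H

theorem ax2_same (hc : IsCubulation G X) (hA : SD X (h • c) cᶜ) {γ : G} {ε1 ε2 : Bool} {j j' : ℤ}
    (H : γ • cc h c ε1 j ⊆ γ • cc h c ε2 j') : ε1 = ε2 := by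
  by_contra hne
  have h2 : ε2 = !ε1 := by
    cases ε1 <;> cases ε2 <;> simp_all
  have H' : cc h c ε1 j ⊆ cc h c ε2 j' := Set.smul_set_subset_smul_set_iff.1 H
  have h3 : cc h c ε2 j' = (cc h c ε1 (-j'))ᶜ := by
    rw [cc_compl, h2, neg_neg]
  rw [h3] at H'
  obtain ⟨x, hx⟩ := (cc_half hc hA ε1 (max j (-j'))).nonempty
  exact H' (cc_anti hc hA ε1 (le_max_left _ _) hx) (cc_anti hc hA ε1 (le_max_right _ _) hx)

/-- the position of `cc true n` in the chain `γ • cc e m` -/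
theorem ax2_pos (hc : IsCubulation G X) (hA : SD X (h • c) cᶜ) {γ : G} {e : Bool} {n j j' : ℤ}
    (H1 : γ • cc h c e j ⊆ cc h c true n) (H2 : cc h c true n ⊆ γ • cc h c e j') :
    ∃ m : ℤ, cc h c true n ⊆ γ • cc h c e m ∧ γ • cc h c e (m + 2) ⊆ cc h c true n := by
  classical
  obtain ⟨m, hm, hmax⟩ := Int.exists_greatest_of_bdd
    (P := fun m => cc h c true n ⊆ γ • cc h c e m) ⟨j, fun m hm => by
      by_contra hlt
      exact (ax2_ss hc hA e γ (not_le.1 hlt)).2 (H1.trans hm)⟩ ⟨j', H2⟩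
  refine ⟨m, hm, ?_⟩
  obtain ⟨x, hx⟩ := ((cc_half hc hA e (max j (m + 2))).smul hc γ).nonempty
  obtain ⟨y, hy⟩ := ((cc_half hc hA e m).smul hc γ).compl_nonempty
  rcases (ax2_sd hc hA e γ (show m + 1 < m + 2 by omega)).cmp (cc_half hc hA true n)
    (ax2_anti hc hA e γ (le_max_right _ _) hx) (H1 (ax2_anti hc hA e γ (le_max_left _ _) hx))
    (fun h' => hy (ax2_anti hc hA e γ (show m ≤ m + 1 by omega) h')) (fun h' => hy (hm h'))
    with H | H
  · exact H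
  · have := hmax (m + 1) H
    omega

theorem ax2_step (hc : IsCubulation G X) (hA : SD X (h • c) cᶜ) {l : ℕ} (hl : SB X (h • c) c l)
    {γ : G} {e : Bool} {n j j' : ℤ}
    (H1 : γ • cc h c e j ⊆ cc h c true (n + 1)) (H2 : cc h c true n ⊆ γ • cc h c e j') :
    ∃ s : ℤ, cc h c e (l + 4) ⊆ ((h ^ s)⁻¹ * γ⁻¹ * h ^ n) • h • c ∧
      ((h ^ s)⁻¹ * γ⁻¹ * h ^ n) • c ⊆ cc h c e 0 := by
  have hn : cc h c true (n + 1) ⊆ cc h c true n := cc_anti hc hA true (by omega)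
  obtain ⟨m, hm1, hm2⟩ := ax2_pos hc hA (H1.trans hn) H2
  obtain ⟨m', hm1', hm2'⟩ := ax2_pos hc hA H1 (hn.trans H2)
  have e0 : cc h c true n = h ^ n • c := rfl
  have e1 : cc h c true (n + 1) = h ^ n • h • c := by
    show h ^ (n + 1) • c = _
    rw [zpow_add_one, mul_smul]
  have key : γ • cc h c e (m + (l + 4)) ⊆ cc h c true (n + 1) := by
    by_cases hle : m' + 2 ≤ m + (l + 4)
    · exact (ax2_anti hc hA e γ hle).trans hm2'
    · exfalso
      have hsb := hl.smul hc (h ^ n)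
      refine hsb _ (cc_chn hc hA e γ (m + 2) l) ?_ ?_
      · rw [← e1]
        exact hm1'.trans (ax2_anti hc hA e γ (by omega))
      · rw [← e0]
        simpa using hm2
  have hs : ∀ i : ℤ, h ^ (cond e m (-m)) • cc h c e i = cc h c e (m + i) := by
    intro i
    rw [zpow_smul_cc, add_comm m i]
    cases e <;> simp
  refine ⟨cond e m (-m), ?_, ?_⟩
  · rw [mul_smul, mul_smul, Set.subset_smul_set_iff, inv_inv, Set.subset_smul_set_iff, inv_inv,
      hs, ← e1]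
    exact key
  · rw [mul_smul, mul_smul, ← Set.subset_smul_set_iff, ← Set.subset_smul_set_iff, hs, ← e0,
      add_zero]
    exact hm1

theorem ax2_true (hc : IsCubulation G X) (hA : SD X (h • c) cᶜ) (e : Bool) : ∃ k : ℕ,
    ∀ k' : ℕ, k ≤ k' → ∀ (γ : G) (i j j' : ℤ), γ • cc h c e j ⊆ cc h c true (i + k') →
      cc h c true i ⊆ γ • cc h c e j' → γ ∈ EE X h := by
  classical
  obtain ⟨l, hl⟩ := exists_SB hc.median hA.left.nonempty hA.right.nonempty
  have hF := fin_gamma hc hA (cc_half hc hA e (l + 4)).nonempty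
    (cc_half hc hA e 0).compl_nonempty
  refine ⟨hF.toFinset.card + 1, fun k' hk γ i j j' H1 H2 => ?_⟩
  have hex : ∀ a : ℕ, ∃ s : ℤ, a < k' →
      (h ^ s)⁻¹ * γ⁻¹ * h ^ (i + a) ∈ hF.toFinset := by
    intro a
    by_cases ha : a < k'
    · obtain ⟨s, hs⟩ := ax2_step hc hA hl (n := i + a)
        (H1.trans (cc_anti hc hA true (by omega))) ((cc_anti hc hA true (by omega)).trans H2)
      exact ⟨s, fun _ => hF.mem_toFinset.2 hs⟩
    · exact ⟨0, fun h' => absurd h' ha⟩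
  choose s hs using hex
  obtain ⟨a, _, b, _, hab, hEq⟩ := Finset.exists_ne_map_eq_of_card_lt_of_maps_to
    (s := Finset.range k') (t := hF.toFinset)
    (f := fun a => (h ^ s a)⁻¹ * γ⁻¹ * h ^ (i + a))
    (by rw [Finset.card_range]; omega)
    (fun a ha => by
      have := hs a (Finset.mem_range.1 (Finset.mem_coe.1 ha))
      exact Finset.mem_coe.2 this)
  refine mem_EE_of_conj hc hA (p := (b : ℤ) - a) (q := s b - s a) (by omega) ?_
  have h1 : h ^ ((b : ℤ) - a) = h ^ (i + b) * (h ^ (i + a))⁻¹ := by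
    rw [← zpow_sub]
    congr 1
    ring
  have h2 : h ^ (i + b) = γ * h ^ s b * ((h ^ s a)⁻¹ * γ⁻¹ * h ^ (i + a)) := by
    have hEq' : (h ^ s a)⁻¹ * γ⁻¹ * h ^ (i + a) = (h ^ s b)⁻¹ * γ⁻¹ * h ^ (i + b) := hEq
    rw [hEq']
    group
  rw [h1, h2, zpow_sub]
  group

/-- A long overlap of two translates of the axis. Reduce to `ε = true` by complements; `ε1 = ε2`
(otherwise `γ • cc ε1 j ⊆ γ • cc (!ε1) j'`, which are disjoint from or cover each other). Put
`d m = γ • cc h c ε1 m`, `ℓ` with `SB X (h • c) c ℓ`, `w = ℓ + 4`. For `0 ≤ a < k` let `m a` be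
maximal with `cc true (i + a) ⊆ d (m a)`; then `d (m a + 2) ⊆ cc true (i + a)` (`SD.cmp`) and
`d (m a + w) ⊆ cc true (i + a + 1)` (otherwise a chain of length `ℓ` lies between). So
`ψ a = (h ^ (± m a))⁻¹ * γ⁻¹ * h ^ (i + a)` lies in the finite set of `fin_gamma` for
`P = cc ε1 w`, `Q = cc ε1 0`. Take `k` larger than both cardinalities; pigeonhole and
`mem_EE_of_conj`. -/
theorem overlap (hc : IsCubulation G X) (hA : SD X (h • c) cᶜ) : ∃ k : ℕ,
    ∀ (γ : G) (ε ε1 ε2 : Bool) (i j j' : ℤ), γ • cc h c ε1 j ⊆ cc h c ε (i + k) →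
      cc h c ε i ⊆ γ • cc h c ε2 j' → γ ∈ EE X h := by
  obtain ⟨k1, hk1⟩ := ax2_true hc hA true
  obtain ⟨k2, hk2⟩ := ax2_true hc hA false
  have main : ∀ (γ : G) (ε1 ε2 : Bool) (i j j' : ℤ),
      γ • cc h c ε1 j ⊆ cc h c true (i + (max k1 k2 : ℕ)) →
      cc h c true i ⊆ γ • cc h c ε2 j' → γ ∈ EE X h := by
    intro γ ε1 ε2 i j j' H1 H2
    have he : ε1 = ε2 :=
      ax2_same hc hA (H1.trans ((cc_anti hc hA true (by omega)).trans H2))
    subst he
    cases ε1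
    · exact hk2 _ (le_max_right _ _) γ i j j' H1 H2
    · exact hk1 _ (le_max_left _ _) γ i j j' H1 H2
  refine ⟨max k1 k2, fun γ ε ε1 ε2 i j j' H1 H2 => ?_⟩
  cases ε
  · have H1' := Set.compl_subset_compl.2 H1
    have H2' := Set.compl_subset_compl.2 H2
    rw [← Set.smul_set_compl, cc_compl, cc_compl] at H1' H2'
    refine main γ (!ε2) (!ε1) (-(i + (max k1 k2 : ℕ))) (-j') (-j) ?_ H1'
    have e : -(i + (max k1 k2 : ℕ)) + ((max k1 k2 : ℕ) : ℤ) = -i := by ring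
    rw [e]
    exact H2'
  · exact main γ ε1 ε2 i j j' H1 H2

end Pool.Agent.Lib.MP_3467cd_al.Cu
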