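import Pool.Agent.Lib.MP_3467cd_al.CuNice

open Pointwise

namespace Pool.Agent.Lib.MP_3467cd_al.Cu

variable {G : Type} [Group G] {V : Type} [MulAction G V] {X : SimpleGraph V}

variable {L : ℕ}

/-- With `p i` the gate points, a median `m` of `p 0, p 1, p 2` (`exists_med`) is the median of
any three points `y i ∈ A i`: a halfspace containing `y i, y j` contains `p i, p j`
(`IsPi.mem`, `y j ∉ M i`), and the same for complements. -/
theorem exists_center (hM : IsMedian X) {A M : Fin 3 → Set V} (hA : ∀ i, SD X (A i) (M i)ᶜ)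
    (hd : ∀ i j, i ≠ j → Disjoint (M i) (M j)) :
    ∃ m : V, ∀ y : Fin 3 → V, (∀ i, y i ∈ A i) → ∀ k, IsHalf X k →
      (m ∈ k ↔ ∃ i j, i ≠ j ∧ y i ∈ k ∧ y j ∈ k) := by
  have hp : ∀ i, ∃ p, IsPi X (A i) (M i) p := fun i => (hA i).exists_pi hM
  choose p hp using hp
  obtain ⟨m, hm⟩ := hM.exists_med (p 0) (p 1) (p 2)
  have key : ∀ y : Fin 3 → V, (∀ i, y i ∈ A i) → ∀ k, IsHalf X k →
      (∃ i j, i ≠ j ∧ y i ∈ k ∧ y j ∈ k) → m ∈ k := by
    rintro y hy k hk ⟨i, j, hij, hi, hj⟩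
    have one : ∀ i j, i ≠ j → y i ∈ k → y j ∈ k → p i ∈ k := by
      intro i j hij hi hj
      refine (hp i).mem (hk.cvx hM) hj ?_ hi (hy i)
      intro h
      exact Set.disjoint_left.1 (hd i j hij) h ((hA j).subset (hy j))
    have h1 := one i j hij hi hj
    have h2 := one j i hij.symm hj hi
    rw [hm k hk]
    fin_cases i <;> fin_cases j <;> simp_all
  refine ⟨m, fun y hy k hk => ⟨fun hmk => ?_, key y hy k hk⟩⟩
  by_contra hcon
  have h01 : ¬ (y 0 ∈ k ∧ y 1 ∈ k) := fun h => hcon ⟨0, 1, by decide, h⟩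
  have h02 : ¬ (y 0 ∈ k ∧ y 2 ∈ k) := fun h => hcon ⟨0, 2, by decide, h⟩
  have h12 : ¬ (y 1 ∈ k ∧ y 2 ∈ k) := fun h => hcon ⟨1, 2, by decide, h⟩
  refine key y hy kᶜ (hk.compl hM) ?_ hmk
  by_cases a0 : y 0 ∈ k
  · exact ⟨1, 2, by decide, fun h => h01 ⟨a0, h⟩, fun h => h02 ⟨a0, h⟩⟩
  · by_cases a1 : y 1 ∈ k
    · exact ⟨0, 2, by decide, a0, fun h => h12 ⟨a1, h⟩⟩
    · exact ⟨0, 1, by decide, a0, a1⟩

/-- If `g` moves every point by at most `r` it fixes every halfspace (`pd` and a point of depth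
`r + 1`), hence every vertex (`eq_of_forall_half`). -/
theorem Nice.eq_one_of_bdd (hN : Nice G X L) {g : G} {r : ℕ}
    (H : ∀ v, X.dist v (g • v) ≤ r) : g = 1 := by
  have hM := hN.cub.median
  refine hN.faith g fun v => hM.eq_of_forall_half fun k hk hv => ?_
  by_contra hcon
  obtain ⟨c, hc, hsub⟩ := hN.pd (g • k) kᶜ (hk.smul hN.cub g) (hk.compl hM)
    ⟨g • v, Set.smul_mem_smul_set hv, hcon⟩
  obtain ⟨z, hz, hdeep⟩ := hN.toNice0.deep hc (r + 1)
  obtain ⟨w, hw, hwz⟩ := (hsub hz).1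
  have hwc : w ∉ c := fun h => (hsub h).2 hw
  have h1 := hdeep w hwc
  have h2 := H w
  simp only at hwz
  rw [hwz, SimpleGraph.dist_comm] at h2
  omega

/-- Suppose `g • c` meets `c` for all halfspaces `c ⊆ b`. Take `M` from `four`, `A i` well inside
`M i` (`ssep`), gate points `p i`, the four centres of the four triples, `x0`, `R` from
`cobounded`. For `z` deep in `b` take `f` with `z` close to `f • x0`; `bᶜ` meets at most one
`f • A i` (`IsPi.mem`), so three of them lie in `b` and `g` fixes the centre of that triple. So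
`g` moves all deep points of `b` by at most `r`. Now take a ball of radius `n` of deep points
about `z = u • s`, `s` in the finite set of orbit representatives; `u⁻¹ * g * u` lies in a finite
set `Φ` (`proper_dist`); for each member of `Φ` moving some point by more than `r` fix such a
point, and take `n` larger than all distances from representatives to these points. -/
theorem Nice.nf (hN : Nice G X L) {g : G} (hg : g ≠ 1) {b : Set V} (hb : IsHalf X b) :
    ∃ c, IsHalf X c ∧ c ⊆ b ∧ Disjoint (g • c) c := by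
  have hc := hN.cub
  have hM := hc.median
  by_contra hcon
  have hmeet : ∀ c, IsHalf X c → c ⊆ b → ∃ y ∈ c, g • y ∈ c := by
    intro c h1 h2
    by_contra h3
    refine hcon ⟨c, h1, h2, Set.disjoint_left.2 ?_⟩
    rintro _ ⟨y, hy, rfl⟩ h4
    exact h3 ⟨y, hy, h4⟩
  obtain ⟨M, hMh, hMd⟩ := hN.toNice0.four
  have hA : ∀ i, ∃ A, SD X A (M i)ᶜ := fun i => by
    obtain ⟨k, -, hk⟩ := hN.toNice0.ssep (hMh i) (hMh i) subset_rfl
    exact ⟨k, hk⟩
  choose A hA using hA
  have hp : ∀ i, ∃ p, IsPi X (A i) (M i) p := fun i => (hA i).exists_pi hM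
  choose p hp using hp
  have hm : ∀ j : Fin 4, ∃ m : V, ∀ y : Fin 3 → V, (∀ i, y i ∈ A (j.succAbove i)) →
      ∀ k, IsHalf X k → (m ∈ k ↔ ∃ i i', i ≠ i' ∧ y i ∈ k ∧ y i' ∈ k) := fun j =>
    exists_center hM (A := fun i => A (j.succAbove i)) (M := fun i => M (j.succAbove i))
      (fun i => hA _) fun i i' h => hMd _ _ fun e => h (Fin.succAbove_right_injective e)
  choose m hm using hm
  obtain ⟨x0, -⟩ := hb.nonempty
  obtain ⟨R, hR⟩ := hc.cobounded (F := ⊤) inferInstance x0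
  obtain ⟨B, hB1, hB2⟩ : ∃ B : ℕ, (∀ i, X.dist x0 (p i) ≤ B) ∧ ∀ j, X.dist x0 (m j) ≤ B := by
    refine ⟨∑ i, X.dist x0 (p i) + ∑ j, X.dist x0 (m j), fun i => ?_, fun j => ?_⟩
    · exact le_trans (Finset.single_le_sum (f := fun i => X.dist x0 (p i))
        (fun _ _ => Nat.zero_le _) (Finset.mem_univ i)) (Nat.le_add_right _ _)
    · exact le_trans (Finset.single_le_sum (f := fun i => X.dist x0 (m i))
        (fun _ _ => Nat.zero_le _) (Finset.mem_univ j)) (Nat.le_add_left _ _)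
  have move : ∀ z, (∀ y, y ∉ b → R + B + 1 ≤ X.dist z y) → X.dist z (g • z) ≤ 2 * (R + B) := by
    intro z hz
    obtain ⟨f, -, hf⟩ := hR z
    have near : ∀ q, X.dist x0 q ≤ B → X.dist z (f • q) ≤ R + B := by
      intro q hq
      have h1 := hM.tri z (f • x0) (f • q)
      rw [hc.dist_smul] at h1
      omega
    have most : ∀ i j, i ≠ j → f • A i ⊆ b ∨ f • A j ⊆ b := by
      intro i j hij
      by_contra h
      rw [not_or, Set.not_subset, Set.not_subset] at h
      obtain ⟨⟨_, ⟨y, hy, rfl⟩, hyb⟩, ⟨_, ⟨x, hx, rfl⟩, hxb⟩⟩ := h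
      have hC : Cvx X (f⁻¹ • bᶜ) := ((hb.compl hM).smul hc f⁻¹).cvx hM
      have h1 : p i ∈ f⁻¹ • bᶜ := by
        refine (hp i).mem hC (x := x) (y := y) ?_ ?_ ?_ hy
        · exact Set.mem_inv_smul_set_iff.2 hxb
        · intro h
          exact Set.disjoint_left.1 (hMd i j hij) h ((hA j).subset hx)
        · exact Set.mem_inv_smul_set_iff.2 hyb
      have h2 := hz (f • p i) (Set.mem_inv_smul_set_iff.1 h1)
      have h3 := near _ (hB1 i)
      omega
    obtain ⟨j, hj⟩ : ∃ j : Fin 4, ∀ i, i ≠ j → f • A i ⊆ b := by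
      by_cases h : ∀ i, f • A i ⊆ b
      · exact ⟨0, fun i _ => h i⟩
      · obtain ⟨j, hj⟩ := not_forall.1 h
        exact ⟨j, fun i hi => (most i j hi).resolve_right hj⟩
    have hw : ∀ i : Fin 3, ∃ w ∈ A (j.succAbove i), (f⁻¹ * g * f) • w ∈ A (j.succAbove i) := by
      intro i
      obtain ⟨_, ⟨w, hw, rfl⟩, h2⟩ := hmeet _ ((hA (j.succAbove i)).left.smul hc f)
        (hj _ (Fin.succAbove_ne j i))
      refine ⟨w, hw, ?_⟩
      rw [mul_smul, mul_smul]
      exact Set.mem_smul_set_iff_inv_smul_mem.1 h2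
    choose w hw1 hw2 using hw
    have hfix : (f⁻¹ * g * f) • m j = m j := by
      refine hM.eq_of_forall_half fun k hk hmk => ?_
      obtain ⟨i, i', hne, h1, h2⟩ := (hm j (fun i => (f⁻¹ * g * f) • w i) hw2 k hk).1 hmk
      exact Set.mem_inv_smul_set_iff.1 ((hm j w hw1 _ (hk.smul hc (f⁻¹ * g * f)⁻¹)).2
        ⟨i, i', hne, Set.mem_inv_smul_set_iff.2 h1, Set.mem_inv_smul_set_iff.2 h2⟩)
    have hfix' : g • f • m j = f • m j := by
      rw [mul_smul, mul_smul, inv_smul_eq_iff] at hfix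
      exact hfix
    have h1 := near _ (hB2 j)
    have h2 := hM.tri z (f • m j) (g • z)
    have h3 : X.dist (f • m j) (g • z) = X.dist z (f • m j) := by
      rw [← hfix', hc.dist_smul, hfix', SimpleGraph.dist_comm]
    omega
  obtain ⟨n, hn⟩ := goodL_bound (hc.proper_dist x0 x0 (2 * (R + B)))
    (P := fun φ n => (∀ v, X.dist x0 v ≤ n → X.dist v (φ • v) ≤ 2 * (R + B)) →
      ∀ v, X.dist v (φ • v) ≤ 2 * (R + B))
    (fun φ a a' haa h1 h2 => h1 fun v hv => h2 v (hv.trans haa)) (by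
      intro φ _
      by_cases h : ∀ v, X.dist v (φ • v) ≤ 2 * (R + B)
      · exact ⟨0, fun _ => h⟩
      · obtain ⟨v, hv⟩ := not_forall.1 h
        exact ⟨X.dist x0 v, fun h2 => (hv (h2 v le_rfl)).elim⟩)
  obtain ⟨z, -, hz⟩ := hN.toNice0.deep hb (R + B + 1 + n + R)
  obtain ⟨u, -, hu⟩ := hR z
  have loc : ∀ v, X.dist x0 v ≤ n → X.dist v ((u⁻¹ * g * u) • v) ≤ 2 * (R + B) := by
    intro v hv
    have h1 := move (u • v) fun y hy => by
      have h2 := hz y hy
      have h3 := hM.tri z (u • x0) y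
      have h4 := hM.tri (u • x0) (u • v) y
      rw [hc.dist_smul] at h4
      omega
    rw [mul_smul, mul_smul, ← hc.dist_smul u, smul_inv_smul]
    exact h1
  have h1 := hN.eq_one_of_bdd (hn (u⁻¹ * g * u) (loc x0 (by simp)) loc)
  apply hg
  have h2 : g = u * (u⁻¹ * g * u) * u⁻¹ := by group
  rw [h2, h1]
  group

end Pool.Agent.Lib.MP_3467cd_al.Cu
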