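import Pool.Agent.Lib.MP_3467cd_al.CuAx1
import Pool.Agent.Lib.MP_3467cd_al.CuNF

open Pointwise

namespace Pool.Agent.Lib.MP_3467cd_al.Cu

variable {G : Type} [Group G] {V : Type} [MulAction G V] {X : SimpleGraph V}

variable {h : G} {c : Set V} {L : ℕ}

private theorem ax3_cmp (hc : IsCubulation G X) (hA : SD X (h • c) cᶜ) {k : Set V}
    (hk : IsHalf X k) {ε : Bool} {i j : ℤ} (h1 : cc h c ε i ⊆ k) (h2 : k ⊆ cc h c ε j) (m : ℤ) :
    cc h c ε (m + 1) ⊆ k ∨ k ⊆ cc h c ε m := by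
  obtain ⟨x, hx⟩ := (cc_half hc hA ε (max i (m + 1))).nonempty
  obtain ⟨y, hy⟩ := (cc_half hc hA ε (min j m)).compl_nonempty
  have hsd : SD X (cc h c ε (m + 1)) (cc h c ε m)ᶜ := cc_sd hc hA ε (by omega)
  refine hsd.cmp hk (x := x) (y := y) ?_ ?_ ?_ ?_
  · exact cc_anti hc hA ε (le_max_right _ _) hx
  · exact h1 (cc_anti hc hA ε (le_max_left _ _) hx)
  · exact fun H => hy (cc_anti hc hA ε (min_le_right _ _) H)
  · exact fun H => hy (cc_anti hc hA ε (min_le_left _ _) (h2 H))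

private theorem ax3_eps (hc : IsCubulation G X) (hA : SD X (h • c) cᶜ) {ε ε' : Bool} {i j : ℤ}
    (H : cc h c ε' i ⊆ cc h c ε j) : ε' = ε := by
  by_contra hne
  have he : ε' = !ε := by cases ε <;> cases ε' <;> simp_all
  have h1 : cc h c ε' i = (cc h c ε (-i))ᶜ := by rw [cc_compl, neg_neg, he]
  obtain ⟨y, hy⟩ := (cc_half hc hA ε (min j (-i))).compl_nonempty
  apply hy
  refine cc_anti hc hA ε (min_le_left _ _) (H ?_)
  rw [h1]
  exact fun H' => hy (cc_anti hc hA ε (min_le_right _ _) H')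

private theorem ax3_c0 : cc h c true 0 = c := by simp [cc]

private theorem ax3_c1 : cc h c true 1 = h • c := by simp [cc]

private theorem ax3_pt (hc : IsCubulation G X) (hA : SD X (h • c) cᶜ) (ε : Bool) {x : V}
    (hx : x ∈ c) (hx' : x ∉ h • c) : x ∈ cc h c ε (-1) ∧ x ∉ cc h c ε 1 := by
  cases ε
  · constructor
    · simpa [cc] using hx'
    · intro H
      have H0 : x ∈ cc h c false 0 := cc_anti hc hA false (by norm_num) H
      simp only [cc, cond_false, neg_zero, zpow_zero, one_smul, Set.mem_compl_iff] at H0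
      exact H0 hx
  · constructor
    · refine cc_anti hc hA true (i := -1) (j := 0) (by norm_num) ?_
      rw [ax3_c0]
      exact hx
    · rw [ax3_c1]
      exact hx'

/-- `γ • c` and `γ • h • c` are axial, sandwiched by the same chain `d = cc h c ε` (`ax_iff`). A
point of both regions gives `d 2 ⊆ γ • c` and `γ • h • c ⊆ d (-2)` (`SD.cmp`); with
`SB X (h • c) c ℓ` this gives `γ • c ⊆ d (-ℓ - 4)` and `d (ℓ + 4) ⊆ γ • h • c`; `fin_gamma`. -/
theorem ee_finite (hc : IsCubulation G X) (hA : SD X (h • c) cᶜ) :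
    {γ : G | γ ∈ EE X h ∧ (γ • (c \ h • c) ∩ (c \ h • c)).Nonempty}.Finite := by
  have hc0 : IsHalf X c := by simpa only [ax3_c0] using cc_half hc hA true 0
  have hc1 : IsHalf X (h • c) := hA.left
  have a0 : Ax h c := (ax_iff hc hA hc0).2 ⟨true, 0, 0, by rw [ax3_c0], by rw [ax3_c0]⟩
  have a1 : Ax h (h • c) := (ax_iff hc hA hc1).2 ⟨true, 1, 1, by rw [ax3_c1], by rw [ax3_c1]⟩
  obtain ⟨ℓ, hℓ⟩ := exists_SB hc.median hc1.nonempty hc0.compl_nonempty
  have fin : ∀ ε : Bool, {ψ : G | cc h c ε (ℓ + 3 + 1) ⊆ ψ • h • c ∧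
      ψ • c ⊆ cc h c ε (-ℓ - 4)}.Finite := fun ε =>
    fin_gamma hc hA (cc_half hc hA ε _).nonempty (cc_half hc hA ε _).compl_nonempty
  refine (Set.finite_iUnion fin).subset ?_
  rintro γ ⟨hγ, x, hx1, hx2, hx3⟩
  rw [Set.smul_set_sdiff] at hx1
  obtain ⟨hx0, hx1⟩ := hx1
  have k0 : IsHalf X (γ • c) := hc0.smul hc γ
  have k1 : IsHalf X (γ • h • c) := hc1.smul hc γ
  obtain ⟨ε, i, j, hi, hj⟩ := (ax_iff hc hA k0).1 (((mem_EE_iff hc).1 hγ c hc0).2 a0)
  obtain ⟨ε', i', j', hi', hj'⟩ := (ax_iff hc hA k1).1 (((mem_EE_iff hc).1 hγ _ hc1).2 a1)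
  have hsub : γ • h • c ⊆ γ • c := Set.smul_set_mono hA.subset
  obtain rfl : ε' = ε := ax3_eps hc hA (hi'.trans (hsub.trans hj))
  obtain ⟨p1, p2⟩ := ax3_pt hc hA ε' hx2 hx3
  have e1 : cc h c ε' (1 + 1) ⊆ γ • c :=
    (ax3_cmp hc hA k0 hi hj 1).resolve_right fun H => p2 (H hx0)
  have e2 : γ • h • c ⊆ cc h c ε' (-2) := by
    refine (ax3_cmp hc hA k1 hi' hj' (-2)).resolve_left fun H => hx1 (H ?_)
    simpa using p1
  have sb : SB X (γ • h • c) (γ • c) ℓ := hℓ.smul hc γ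
  refine Set.mem_iUnion.2 ⟨ε', ?_, ?_⟩
  · refine (ax3_cmp hc hA k1 hi' hj' (ℓ + 3)).resolve_right fun H => ?_
    refine sb _ (cc_chn hc hA ε' 1 3 ℓ) ?_ ?_
    · rw [one_smul, add_comm]
      exact H
    · rw [one_smul]
      exact (cc_anti hc hA ε' (by simp)).trans e1
  · refine (ax3_cmp hc hA k0 hi hj (-ℓ - 4)).resolve_left fun H => ?_
    refine sb _ (cc_chn hc hA ε' 1 (-ℓ - 4 + 1) ℓ) ?_ ?_
    · rw [one_smul]
      exact e2.trans (cc_anti hc hA ε' (by omega))
    · rw [one_smul]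
      simpa using H

private theorem ax3_shrink (hN : Nice G X L) (o : Ty → Set V) (ho : ∀ t, IsHalf X (o t))
    (γ : G) (t t' : Ty) (hne : ¬ (γ = 1 ∧ t = t')) :
    ∃ o' : Ty → Set V, (∀ s, IsHalf X (o' s)) ∧ (∀ s, o' s ⊆ o s) ∧
      Disjoint (γ • o' t) (o' t') := by
  classical
  by_cases htt : t = t'
  · subst htt
    have hγ : γ ≠ 1 := fun H => hne ⟨H, rfl⟩
    obtain ⟨b, hb, hbs, hd⟩ := hN.nf hγ (ho t)
    refine ⟨Function.update o t b, fun s => ?_, fun s => ?_, by simpa using hd⟩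
    · by_cases hs : s = t
      · subst hs
        simpa using hb
      · simpa [Function.update_of_ne hs] using ho s
    · by_cases hs : s = t
      · subst hs
        simpa using hbs
      · simp [Function.update_of_ne hs]
  · by_cases hd : Disjoint (γ • o t) (o t')
    · exact ⟨o, ho, fun _ => subset_rfl, hd⟩
    obtain ⟨b, hb, hbs⟩ := hN.pd _ _ ((ho t).smul hN.cub γ) (ho t')
      (Set.not_disjoint_iff_nonempty_inter.1 hd)
    obtain ⟨k1, k2, hk1, hk2, s1, s2, hd'⟩ := hN.two b hb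
    refine ⟨fun s => if s = t then γ⁻¹ • k1 else if s = t' then k2 else o s,
      fun s => ?_, fun s => ?_, ?_⟩
    · beta_reduce
      split_ifs
      · exact hk1.smul hN.cub _
      · exact hk2
      · exact ho s
    · beta_reduce
      split_ifs with h1 h2
      · subst h1
        rw [Set.smul_set_subset_iff_subset_inv_smul_set, inv_inv]
        exact s1.trans (hbs.trans Set.inter_subset_left)
      · subst h2
        exact s2.trans (hbs.trans Set.inter_subset_right)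
      · exact subset_rfl
    · have h' : t' ≠ t := fun H => htt H.symm
      simpa [h'] using hd'

private theorem ax3_all (hN : Nice G X L) {o0 : Set V} (h0 : IsHalf X o0)
    {T : Set (G × Ty × Ty)} (hT : T.Finite) :
    ∃ o : Ty → Set V, (∀ s, IsHalf X (o s)) ∧ (∀ s, o s ⊆ o0) ∧
      ∀ p ∈ T, ¬ (p.1 = 1 ∧ p.2.1 = p.2.2) → Disjoint (p.1 • o p.2.1) (o p.2.2) := by
  induction T, hT using Set.Finite.induction_on with
  | empty => exact ⟨fun _ => o0, fun _ => h0, fun _ => subset_rfl, by simp⟩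
  | @insert p T _ _ ih =>
    obtain ⟨o, ho, hs, hd⟩ := ih
    by_cases hp : p.1 = 1 ∧ p.2.1 = p.2.2
    · refine ⟨o, ho, hs, fun q hq hq' => ?_⟩
      rcases hq with rfl | hq
      · exact absurd hp hq'
      · exact hd q hq hq'
    · obtain ⟨o', ho', hs', hd'⟩ := ax3_shrink hN o ho p.1 p.2.1 p.2.2 hp
      refine ⟨o', ho', fun s => (hs' s).trans (hs s), fun q hq hq' => ?_⟩
      rcases hq with rfl | hq
      · exact hd'
      · exact (hd q hq hq').mono (Set.smul_set_mono (hs' _)) (hs' _)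

/-- Start with a constant family `o0 ⊆ c \ h • c` (`pd`) and shrink once for each triple
`(γ, t, t')` with `γ` in the finite set of `ee_finite`, not of the form `(1, t, t)`: `nf` if
`t = t'`, otherwise `pd` and `two`. -/
theorem exists_free (hN : Nice G X L) (hA : SD X (h • c) cᶜ) :
    ∃ o : Ty → Set V, (∀ t, IsHalf X (o t)) ∧ (∀ t, o t ⊆ c \ h • c) ∧
      ∀ γ ∈ EE X h, ∀ t t', (γ • o t ∩ o t').Nonempty → γ = 1 ∧ t = t' := by
  have hc := hN.cub
  have hc0 : IsHalf X c := by simpa only [ax3_c0] using cc_half hc hA true 0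
  obtain ⟨o0, h0, hs0⟩ := hN.pd c (h • c)ᶜ hc0 (hA.left.compl hc.median) (by
    obtain ⟨x, hx1, hx2⟩ := hA.room
    exact ⟨x, by simpa using hx2, hx1⟩)
  have hs0' : o0 ⊆ c \ h • c := fun x hx => hs0 hx
  obtain ⟨o, ho, hs, hd⟩ := ax3_all hN h0
    ((ee_finite hc hA).prod (Set.finite_univ (α := Ty × Ty)))
  refine ⟨o, ho, fun t => (hs t).trans hs0', fun γ hγ t t' hne => ?_⟩
  by_contra hcon
  have hmem : (γ • (c \ h • c) ∩ (c \ h • c)).Nonempty :=
    hne.mono (Set.inter_subset_inter (Set.smul_set_mono ((hs t).trans hs0'))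
      ((hs t').trans hs0'))
  exact Set.not_disjoint_iff_nonempty_inter.2 hne
    (hd (γ, t, t') ⟨⟨hγ, hmem⟩, Set.mem_univ _⟩ hcon)

end Pool.Agent.Lib.MP_3467cd_al.Cu
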