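import Pool.Agent.Lib.MP_3467cd_al.Work

/-! Working definitions for the unconditional theorem (not used in the final statement). -/

open Pointwise

namespace Pool.Agent.Lib.MP_3467cd_al.Cu

section Graph
variable {V : Type}

/-- `A` lies on one side of `k` -/
def Clean (A k : Set V) : Prop := A ⊆ k ∨ A ⊆ kᶜ

/-- disjoint strongly separated halfspaces; `SD X B Aᶜ` says that `B` lies well inside `A` -/
structure SD (X : SimpleGraph V) (A B : Set V) : Prop where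
  left : IsHalf X A
  right : IsHalf X B
  disj : Disjoint A B
  room : (Aᶜ ∩ Bᶜ).Nonempty
  clean : ∀ k, IsHalf X k → Clean A k ∨ Clean B k

/-- there is no chain of length `t` between `P` and `Q` -/
def SB (X : SimpleGraph V) (P Q : Set V) (t : ℕ) : Prop :=
  ∀ c, Chn X t c → P ⊆ c t → ¬ c 0 ⊆ Q

/-- `p` is the common gate in `Mᶜ` of the points of `A` -/
def IsPi (X : SimpleGraph V) (A M : Set V) (p : V) : Prop :=
  p ∉ M ∧ ∀ x, x ∉ M → ∀ y ∈ A, Btw X x p y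

/-- convex hull -/
def hull (X : SimpleGraph V) (S : Set V) : Set V := {x | ∀ k, IsHalf X k → S ⊆ k → x ∈ k}

/-- a halfspace together with the outer side of the carrier of its hyperplane -/
def bar (X : SimpleGraph V) (k : Set V) : Set V := k ∪ inn X kᶜ

/-- generic ends -/
def OmN (X : SimpleGraph V) : Type :=
  {ω : Ultrafilter V // ∀ h k, Good X h → Good X k → h ∈ ω → k ∈ ω →
    ∃ c, Good X c ∧ c ⊆ h ∩ k}

/-- shadow -/
def sh (X : SimpleGraph V) (s : Set V) : Set (OmN X) := {ω | s ∈ ω.1}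

def shs (X : SimpleGraph V) : Set (Set (OmN X)) := {α | ∃ h, Good X h ∧ α = sh X h}

/-- the vertex `x` realises the orientation `σ` of the shadows -/
def Fib (X : SimpleGraph V) (x : V) (σ : Set (Set (OmN X))) : Prop :=
  ∀ h, Good X h → (sh X h ∈ σ ↔ x ∈ h)

/-- signed number of members of `U` crossed on the way from `x` to `y` -/
noncomputable def bus (U : Set (Set V)) (x y : V) : ℤ :=
  (({k ∈ U | x ∉ k ∧ y ∈ k}.ncard : ℕ) : ℤ) - (({k ∈ U | x ∈ k ∧ y ∉ k}.ncard : ℕ) : ℤ)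

end Graph

section Act

/-- a normalised cubulation -/
structure Nice0 (G : Type) [Group G] {V : Type} (X : SimpleGraph V) [MulAction G V] (L : ℕ) :
    Prop where
  cub : IsCubulation G X
  one : 1 ≤ L
  thin : Thin X L
  ex : ∃ h, IsHalf X h
  pd : ∀ h k, IsHalf X h → IsHalf X k → (h ∩ k).Nonempty → ∃ c, IsHalf X c ∧ c ⊆ h ∩ k
  two : ∀ h, IsHalf X h →
    ∃ k1 k2, IsHalf X k1 ∧ IsHalf X k2 ∧ k1 ⊆ h ∧ k2 ⊆ h ∧ Disjoint k1 k2

/-- a normalised faithful cubulation -/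
structure Nice (G : Type) [Group G] {V : Type} (X : SimpleGraph V) [MulAction G V] (L : ℕ) :
    Prop extends Nice0 G X L where
  faith : ∀ g : G, (∀ v : V, g • v = v) → g = 1

def Place (G : Type) [Group G] {V : Type} (X : SimpleGraph V) [MulAction G V] : Prop :=
  ∀ a h, IsHalf X a → IsHalf X h → ∃ g : G, g • a ⊆ h

/-- halfspaces containing a finite intersection of translates of `a` -/
def UU (G : Type) [Group G] {V : Type} (X : SimpleGraph V) [MulAction G V] (a : Set V) :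
    Set (Set V) :=
  {k | IsHalf X k ∧ ∃ T : Finset G, ∀ x, (∀ g ∈ T, x ∈ g • a) → x ∈ k}

variable {G : Type} [Group G] {V : Type} [MulAction G V]

/-- the two decreasing chains along the axis of `h` -/
def cc (h : G) (c : Set V) (ε : Bool) (i : ℤ) : Set V := cond ε (h ^ i • c) (h ^ (-i) • c)ᶜ

def Ax (h : G) (k : Set V) : Prop := ∃ m : ℤ, m ≠ 0 ∧ h ^ m • k ⊂ k

/-- the stabiliser of the axis -/
def EE (X : SimpleGraph V) (h : G) : Subgroup G :=
  MulAction.stabilizer G {k : Set V | IsHalf X k ∧ Ax h k}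

/-- a wall given by a convex core and two sides -/
structure TW (G : Type) [Group G] {V : Type} (X : SimpleGraph V) [MulAction G V]
    (H : Subgroup G) (C : Set V) (U : Bool → Set V) : Prop where
  cvx : Cvx X C
  ne : C.Nonempty
  part : ∀ x, x ∈ C ∨ x ∈ U true ∨ x ∈ U false
  disjC : ∀ ε, Disjoint C (U ε)
  disjU : Disjoint (U true) (U false)
  invC : ∀ h ∈ H, h • C = C
  invU : ∀ h ∈ H, ∀ ε, h • U ε = U ε
  un : ∀ ε, ∀ x ∈ U ε, ∃ k, IsHalf X k ∧ x ∈ k ∧ k ⊆ U ε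
  nl : ∀ k, IsHalf X k → (k ∩ C).Nonempty → ∀ ε, (k ∩ U ε).Nonempty
  cc : ∃ T : Set V, T.Finite ∧ ∀ x ∈ C, ∃ h ∈ H, ∃ t ∈ T, x = h • t
  btw : ∀ x ∈ U true, ∀ y ∈ U false, ∃ z ∈ C, X.dist x z ≤ X.dist x y
  meet : ∀ g : G, (∀ ε ε', (U ε ∩ g • U ε').Nonempty) → (C ∩ g • C).Nonempty
  ess : ∀ g : G, (∀ ε ε', (U ε ∩ g • U ε').Nonempty) → ∀ ε, (C ∩ g • U ε).Nonempty
  lim : ∀ k, IsHalf X k → (k ∩ C).Nonempty → ∀ (x : V) (r : ℕ),
    ∃ h ∈ H, h • x ∈ k ∧ ∀ y, y ∉ k → r ≤ X.dist (h • x) y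
  sepa : ∃ R : ℕ, ∀ x y, R ≤ X.dist x y → ∃ g : G, x ∈ g • U true ∧ y ∈ g • U false

end Act

section Tree

/-- vertices of the universal cover of the dumbbell graph -/
@[ext] structure Vx where
  f : FreeGroup Bool
  s : Bool

/-- oriented edges: tail and direction (`some true` forward along the loop, `some false`
backward along the loop, `none` the bridge) -/
@[ext] structure Ed where
  f : FreeGroup Bool
  s : Bool
  d : Option Bool

instance : MulAction (FreeGroup Bool) Vx where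
  smul g v := ⟨g * v.f, v.s⟩
  one_smul v := Vx.ext (one_mul v.f) rfl
  mul_smul a b v := Vx.ext (mul_assoc a b v.f) rfl

instance : MulAction (FreeGroup Bool) Ed where
  smul g ω := ⟨g * ω.f, ω.s, ω.d⟩
  one_smul ω := Ed.ext (one_mul ω.f) rfl rfl
  mul_smul a b ω := Ed.ext (mul_assoc a b ω.f) rfl rfl

abbrev Ty : Type := Bool × Option Bool

abbrev Col : Type := Bool × Bool × Bool

def Ed.tail (ω : Ed) : Vx := ⟨ω.f, ω.s⟩

def Ed.rev : Ed → Ed
  | ⟨f, s, some true⟩ => ⟨f * FreeGroup.of s, s, some false⟩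
  | ⟨f, s, some false⟩ => ⟨f * (FreeGroup.of s)⁻¹, s, some true⟩
  | ⟨f, s, none⟩ => ⟨f, !s, none⟩

def Ed.head (ω : Ed) : Vx := ω.rev.tail

def Ed.ty (ω : Ed) : Ty := (ω.s, ω.d)

def base (t : Ty) : Ed := ⟨1, t.1, t.2⟩

def revT : Ty → Ty
  | (s, some b) => (s, some (!b))
  | (s, none) => (!s, none)

/-- `σ` continues `τ` without backtracking -/
def Next (σ τ : Ed) : Prop := σ.tail = τ.head ∧ σ ≠ τ.rev

/-- `σ` lies exactly `n` steps ahead of `τ` -/
inductive Ch : ℕ → Ed → Ed → Prop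
  | refl (ω : Ed) : Ch 0 ω ω
  | step {n : ℕ} {σ τ ρ : Ed} : Next σ τ → Ch n τ ρ → Ch (n + 1) σ ρ

/-- `σ` lies at least `k` steps ahead of `τ` -/
def Dp (k : ℕ) (σ τ : Ed) : Prop := ∃ n, k ≤ n ∧ Ch n σ τ

/-- the vertices ahead of `ω` -/
def Hs (ω : Ed) : Set Vx := {v | ∃ σ, Dp 0 σ ω ∧ σ.head = v}

def Acyc : Prop := (∀ ω, ¬ Dp 1 ω ω) ∧ ∀ σ ω, Dp 0 σ ω → ¬ Dp 0 σ ω.rev

inductive Walk (ok : Ed → Prop) (v : Vx) : Vx → Prop
  | refl : Walk ok v v
  | step {ω : Ed} : Walk ok v ω.tail → ok ω → Walk ok v ω.head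

/-- sparse labelled cuts in the tree -/
structure LocSys (I : Type) (ty : I → Ty) where
  N : Subgroup (FreeGroup Bool)
  normal : N.Normal
  fi : N.FiniteIndex
  Cut : Ed → Prop
  e : I × Col → Ed
  y0 : Vx
  surj : ∀ t, ∃ i, ty i = t
  cut_rev : ∀ ω, Cut ω → Cut ω.rev
  cut_smul : ∀ n ∈ N, ∀ ω, Cut ω → Cut (n • ω)
  e_ty : ∀ l, (e l).ty = ty l.1
  e_cut : ∀ l, Cut (e l)
  e_tail : ∀ l, Walk (fun ω => ¬ Cut ω) y0 (e l).tail
  e_inj : ∀ n ∈ N, ∀ l l', n • e l = e l' → l = l'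
  sp3 : ∀ σ τ n, Cut σ → Cut τ → Ch n σ τ → n = 0 ∨ 3 ≤ n
  sp6 : ∀ m ∈ N, ∀ l l' n, Ch n (e l) (m • e l').rev → 6 ≤ n
  conn : ∀ (f : FreeGroup Bool) (v w : Vx), ∃ n ∈ N,
    Walk (fun ω => ¬ Cut ω ∧ ¬ Cut (f • ω)) v (n • w)
  gen : ∀ f, f ∉ N → ∃ l, ¬ Cut (f • e l)
  pair : ∀ σ τ, Ch 3 σ τ → ∃ (f : FreeGroup Bool) (l : I × Col), f • σ = e l ∧ Cut (f • τ) ∧
    ∀ n ∈ N, ∀ l', (f • τ).rev ≠ n • e l'

namespace LocSys
variable {I : Type} {ty : I → Ty} (S : LocSys I ty)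

/-- the local wall -/
def Y : Set Vx := {v | Walk (fun ω => ¬ S.Cut ω) S.y0 v}

def FY : Subgroup (FreeGroup Bool) := S.N ⊓ MulAction.stabilizer (FreeGroup Bool) S.Y

/-- internal edges of the local wall -/
def Int (ρ : Ed) : Prop := ¬ S.Cut ρ ∧ ρ.tail ∈ S.Y

/-- boundary edges of the local wall, pointing outwards -/
def Out (κ : Ed) : Prop := S.Cut κ ∧ κ.tail ∈ S.Y

def Plus (τ : Ed) : Prop := ∃ f ∈ S.FY, ∃ l, τ = f • S.e l

def Minus (κ : Ed) : Prop := S.Out κ ∧ ¬ S.Plus κ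

def Mid (ρ : Ed) : Prop := S.Int ρ ∧ ∀ τ, S.Plus τ → Dp 3 τ ρ ∨ Dp 3 τ ρ.rev

end LocSys

end Tree

section Grid

/-- unoriented edges of the universal abelian cover of the dumbbell: `(x, y, some false)` joins
`(x, y, false)` to `(x + 1, y, false)`, `(x, y, some true)` joins `(x, y, true)` to
`(x, y + 1, true)`, and `(x, y, none)` joins `(x, y, false)` to `(x, y, true)` -/
abbrev GE : Type := ℤ × ℤ × Option Bool

abbrev GV : Type := ℤ × ℤ × Bool

/-- oriented edges of the abelian cover: tail and direction -/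
abbrev GO : Type := GV × Option Bool

def gmv : GV → Option Bool → GV
  | (x, y, false), some true => (x + 1, y, false)
  | (x, y, false), some false => (x - 1, y, false)
  | (x, y, true), some true => (x, y + 1, true)
  | (x, y, true), some false => (x, y - 1, true)
  | (x, y, s), none => (x, y, !s)

def grev (ω : GO) : GO := (gmv ω.1 ω.2, ω.2.map fun b => !b)

/-- the underlying unoriented edge -/
def gcan : GO → GE
  | ((x, y, s), some true) => (x, y, some s)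
  | ((x, y, false), some false) => (x - 1, y, some false)
  | ((x, y, true), some false) => (x, y - 1, some true)
  | ((x, y, _), none) => (x, y, none)

/-- the two directions other than `d` -/
def oth : Option Bool → Bool → Option Bool
  | some true, false => some false
  | some true, true => none
  | some false, false => some true
  | some false, true => none
  | none, b => some b

/-- the two edges continued by `ω` -/
def gup (ω : GO) (b : Bool) : GO := grev (ω.1, oth ω.2 b)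

def Ed.up (ω : Ed) (b : Bool) : Ed := (Ed.mk ω.f ω.s (oth ω.d b)).rev

def gsh (t : ℤ × ℤ) (ω : GO) : GO := ((ω.1.1 + t.1, ω.1.2.1 + t.2, ω.1.2.2), ω.2)

def gshE (t : ℤ × ℤ) (u : GE) : GE := (u.1 + t.1, u.2.1 + t.2, u.2.2)

inductive GWalk (bad : GE → Prop) (v : GV) : GV → Prop
  | refl : GWalk bad v v
  | step {w : GV} {d : Option Bool} : GWalk bad v w → ¬ bad (gcan (w, d)) → GWalk bad v (gmv w d)

/-- distinct edges joined by a reduced path with at most one edge in between -/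
def GClose (u u' : GE) : Prop :=
  ∃ (ω : GO) (b b' : Bool), u = gcan ω ∧ (u' = gcan (gup ω b) ∨ u' = gcan (gup (gup ω b) b'))

/-- a sparse family of edges of the abelian cover -/
structure GFamily (A : GE → Prop) : Prop where
  box : ∃ t1 t2 : ℤ, ∀ u, A u → (u.1 - t1 + 4) % 100 ≤ 8 ∧ (u.2.1 - t2 + 4) % 100 ≤ 8
  two : ∀ u1 u2 u3, A u1 → A u2 → A u3 → |u1.1 - u2.1| ≤ 60 → |u1.1 - u3.1| ≤ 60 →
    |u2.1 - u3.1| ≤ 60 → |u1.2.1 - u2.2.1| ≤ 60 → |u1.2.1 - u3.2.1| ≤ 60 →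
    |u2.2.1 - u3.2.1| ≤ 60 → u1 = u2 ∨ u1 = u3 ∨ u2 = u3
  far : ∀ u u', A u → A u' → ¬ GClose u u'

def gupL : GO → List Bool → GO
  | ω, [] => ω
  | ω, b :: l => gupL (gup ω b) l

/-- the positive edge number `j` -/
def gE (j : ℕ) (t : Ty) : GO := ((100 * (j : ℤ), 100 * (j : ℤ), t.1), t.2)

/-- the edge three steps behind `ω` prescribed by the colour -/
def gB (ω : GO) (c : Col) : GO := gup (gup (gup ω c.1) c.2.1) c.2.2

/-- the periodic family of cuts -/
def GA {I : Type} (M : ℤ) (ix : I × Col → ℕ) (ty : I → Ty) (u : GE) : Prop :=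
  ∃ (l : I × Col) (a b : ℤ), u = gshE (M * a, M * b) (gcan (gE (ix l) (ty l.1))) ∨
    u = gshE (M * a, M * b) (gcan (gB (gE (ix l) (ty l.1)) l.2))

/-- exponent sums -/
def co (f : FreeGroup Bool) : ℤ × ℤ :=
  Multiplicative.toAdd
    (FreeGroup.lift (fun s : Bool => Multiplicative.ofAdd (cond s ((0, 1) : ℤ × ℤ) (1, 0))) f)

def prV (v : Vx) : GV := ((co v.f).1, (co v.f).2, v.s)

def prE (ω : Ed) : GO := (prV ω.tail, ω.d)

end Grid

section Frames
variable {G : Type} [Group G] {V : Type} [MulAction G V]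

/-- runs along the axis of `h` joining the ports `q` of consecutive junctions -/
structure Link (X : SimpleGraph V) (h : G) (c : Set V) (q : Option Bool → Set V)
    (o : Ty → Set V) (Ps : Set (Set V × Set V)) (t0 n : ℕ) where
  θ : Ty → G
  gb : Ty → G
  ε : Ty → Bool
  a : Ty → G
  zz : Ty → Set V
  θ_rev : ∀ t, θ (revT t) = (θ t)⁻¹
  zz_rev : ∀ t, zz (revT t) = (θ t)⁻¹ • (zz t)ᶜ
  zz_half : ∀ t, IsHalf X (zz t)
  top : ∀ t, gb t • cc h c (ε t) 0 ⊆ q t.2
  top_sb : ∀ t, SB X (gb t • cc h c (ε t) 0) (q t.2) t0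
  mid1 : ∀ t, gb t • cc h c (ε t) n ⊆ zz t
  mid2 : ∀ t, zz t ⊆ gb t • cc h c (ε t) (n - 1)
  exit1 : ∀ t, a t • o t ⊆ gb t • cc h c (ε t) (2 * n - 1)
  exit2 : ∀ t, θ t • (q (revT t).2)ᶜ ⊆ a t • o t
  a_mem : ∀ t, (gb t)⁻¹ * a t ∈ Subgroup.zpowers h
  low_sb : ∀ t d, d ≠ (revT t).2 → SB X (θ t • q d) (gb t • cc h c (ε t) (2 * n - 1)) t0
  pass : ∀ p ∈ Ps, ∃ (t : Ty) (g : G), g • p.1 ⊆ q t.2 ∧ θ t • (q (revT t).2)ᶜ ⊆ g • p.2

namespace Link
variable {X : SimpleGraph V} {h : G} {c : Set V} {q : Option Bool → Set V} {o : Ty → Set V}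
  {Ps : Set (Set V × Set V)} {t0 n : ℕ} (K : Link X h c q o Ps t0 n)

def β (s : Bool) : G := cond s (K.θ (false, none)) 1

def ι : FreeGroup Bool →* G :=
  FreeGroup.lift fun s => K.β s * K.θ (s, some true) * (K.β s)⁻¹

def pos (v : Vx) : G := K.ι v.f * K.β v.s

def mu (ω : Ed) : Set V := (K.pos ω.head • q ω.rev.d)ᶜ

def zed (ω : Ed) : Set V := K.pos ω.tail • K.zz ω.ty

end Link

/-- a free group with markers along the edges of its tree -/
structure PreFrame (G : Type) [Group G] {V : Type} (X : SimpleGraph V) [MulAction G V] where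
  ι : FreeGroup Bool →* G
  μ : Ed → Set V
  z : Ed → Set V
  μ_smul : ∀ (f : FreeGroup Bool) (ω : Ed), μ (f • ω) = ι f • μ ω
  z_smul : ∀ (f : FreeGroup Bool) (ω : Ed), z (f • ω) = ι f • z ω
  z_rev : ∀ ω, z ω.rev = (z ω)ᶜ
  sd : ∀ ω, SD X (μ ω) (z ω.rev)
  next : ∀ σ τ, Next σ τ → SD X (μ σ.rev)ᶜ (μ τ)ᶜ

/-- a malnormal frame passing through every corner -/
structure Frame (G : Type) [Group G] {V : Type} (X : SimpleGraph V) [MulAction G V]
    extends PreFrame G X where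
  mal : ∀ (g : G) (σ σ' τ : Ed), g • μ σ ⊆ z τ.rev → g • μ σ' ⊆ μ τ → g ∈ ι.range
  rstar : ∀ h k, IsHalf X h → IsHalf X k → (k ∩ inn X hᶜ).Nonempty →
    ∃ (g : G) (ω : Ed), g • μ ω ⊆ k ∩ hᶜ ∧ g • μ ω.rev ⊆ h

namespace PreFrame
variable {X : SimpleGraph V} (F : PreFrame G X)

def ν (ω : Ed) : Set V := (F.μ ω.rev)ᶜ

/-- `k` contains an end of the tree `g T` -/
def End (g : G) (k : Set V) : Prop := ∃ ω, g • F.μ ω ⊆ k

/-- `k` cuts the ends of the tree as the edge `σ` does -/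
def Loc (k : Set V) (σ : Ed) : Prop :=
  (∀ ω, Next ω σ → F.μ ω ⊆ k) ∧ ∀ ω, Next ω σ.rev → F.μ ω ⊆ kᶜ

/-- the gate point of the edge `ω` -/
def Pi (ω : Ed) (p : V) : Prop := IsPi X (F.μ ω) (F.z ω) p

end PreFrame

/-- a frame, a local system and the labelling of its leaves by halfspaces -/
structure WD (G : Type) [Group G] {V : Type} (X : SimpleGraph V) [MulAction G V] where
  I : Type
  fin : Finite I
  ty : I → Ty
  F : Frame G X
  S : LocSys I ty
  hb : I × Col → Set V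
  half : ∀ l, IsHalf X (hb l)
  loc : ∀ l, F.Loc (hb l) (S.e l)
  uni : ∀ k σ, IsHalf X k → F.Loc k σ → ∀ c : Col, ∃ (i : I) (f : FreeGroup Bool),
    k = F.ι f • hb (i, c) ∧ σ = f • S.e (i, c)
  inj : ∀ (f : FreeGroup Bool) (i i' : I) (c : Col), F.ι f • hb (i, c) = hb (i', c) →
    f = 1 ∧ i = i'

namespace WD
variable {X : SimpleGraph V} (D : WD G X)

/-- leaves of the base local wall: edge, halfspace, colour -/
def Leaf (τ : Ed) (k : Set V) (c : Col) : Prop :=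
  ∃ f ∈ D.S.FY, ∃ i, τ = f • D.S.e (i, c) ∧ k = D.F.ι f • D.hb (i, c)

def Sig : Set G := {s | ∃ τ τ' k k' c, D.Leaf τ k c ∧ D.Leaf τ' k' c ∧ k = s • k'}

/-- the stabiliser of the wall -/
def H : Subgroup G := Subgroup.closure D.Sig

/-- leaves of the wall -/
def Lf (k : Set V) (c : Col) : Prop := ∃ h ∈ D.H, ∃ τ k0, D.Leaf τ k0 c ∧ k = h • k0

def Up : Set V := {x | ∃ k c, D.Lf k c ∧ x ∈ k}

def Sk : Set V := {x | ∃ k c, D.Lf k c ∧ x ∈ inn X kᶜ}

def Co : Set V := hull X D.Sk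

def Um : Set V := (D.Up ∪ D.Co)ᶜ

def U (ε : Bool) : Set V := cond ε D.Up D.Um

/-- `s • ρ` is the third edge behind the leaf `(k, c)` in a local wall attached to it -/
def Port (k : Set V) (c : Col) (s : G) (ρ : Ed) : Prop :=
  s ∈ D.H ∧ D.S.Int ρ ∧ ∃ σ k1, D.Leaf σ k1 c ∧ k = s • k1 ∧ Ch 3 σ ρ.rev

/-- products of an element of the local stabiliser with `n` elements of `Sig` -/
inductive Pth : ℕ → G → Prop
  | zero {f : FreeGroup Bool} : f ∈ D.S.FY → Pth 0 (D.F.ι f)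
  | cons {n : ℕ} {s h : G} : s ∈ D.Sig → Pth n h → Pth (n + 1) (s * h)

end WD

end Frames

end Pool.Agent.Lib.MP_3467cd_al.Cu
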