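import Pool.Agent.Lib.MP_3467cd_al.CuDefs

set_option autoImplicit false

/-! One shared copy of some automatically generated unfolding lemmas. -/

theorem Pool.Agent.Lib.MP_3467cd_al.Cu.gmv_eq1Shared : type_of% @Pool.Agent.Lib.MP_3467cd_al.Cu.gmv.eq_1 :=
  @Pool.Agent.Lib.MP_3467cd_al.Cu.gmv.eq_1

theorem Pool.Agent.Lib.MP_3467cd_al.Cu.gmv_eq2Shared : type_of% @Pool.Agent.Lib.MP_3467cd_al.Cu.gmv.eq_2 :=
  @Pool.Agent.Lib.MP_3467cd_al.Cu.gmv.eq_2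

theorem Pool.Agent.Lib.MP_3467cd_al.Cu.gmv_eq3Shared : type_of% @Pool.Agent.Lib.MP_3467cd_al.Cu.gmv.eq_3 :=
  @Pool.Agent.Lib.MP_3467cd_al.Cu.gmv.eq_3

theorem Pool.Agent.Lib.MP_3467cd_al.Cu.gmv_eq4Shared : type_of% @Pool.Agent.Lib.MP_3467cd_al.Cu.gmv.eq_4 :=
  @Pool.Agent.Lib.MP_3467cd_al.Cu.gmv.eq_4

theorem Pool.Agent.Lib.MP_3467cd_al.Cu.gmv_eq5Shared : type_of% @Pool.Agent.Lib.MP_3467cd_al.Cu.gmv.eq_5 :=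
  @Pool.Agent.Lib.MP_3467cd_al.Cu.gmv.eq_5
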