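import Pool.Agent.Lib.MP_3467cd_al.CuFinal

/-! A cubulation of an infinite group with one orbit of hyperplanes is essential. -/

open Pointwise

namespace Pool.Agent.Lib.MP_3467cd_al

variable {G : Type} [Group G] {V : Type} [MulAction G V] {X : SimpleGraph V}

theorem IsCubulation.good_of_single (hc : IsCubulation G X) (hs : SingleOrbit G X)
    (hG : Infinite G) {h : Set V} (hh : IsHalf X h) : Good X h := by
  have hM := hc.median
  obtain ⟨k, hk⟩ : ∃ k, Good X k := by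
    by_contra H
    exact not_finite_iff_infinite.2 hG (hc.finite_of_no_good H)
  obtain ⟨g, hg⟩ := hs.2 _ _ ⟨k, hk.1, rfl⟩ ⟨h, hh, rfl⟩
  rw [hc.image_hyp] at hg
  have hk' := hk.smul hc g
  obtain ⟨a, ha, b, hab, hb⟩ := hk'.1.inn_nonempty
  have he : s(a, b) ∈ hyp X h := hg ▸ ⟨a, b, rfl, hab, ha, hb⟩
  obtain ⟨c, d, e, -, hc', hd⟩ := he
  have e1 := hk'.1.half_eq hM hab ha hb
  rcases Sym2.eq_iff.1 e with ⟨rfl, rfl⟩ | ⟨rfl, rfl⟩
  · rwa [← hh.half_eq hM hab hc' hd, e1]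
  · have e2 := (hh.compl hM).half_eq hM hab hd (not_not.2 hc')
    rw [← e1, e2] at hk'
    simpa using hk'.compl hM

theorem IsCubulation.essential_of_single (hc : IsCubulation G X) (hs : SingleOrbit G X)
    (hG : Infinite G) : ¬ Inessential X fun x y => ∃ g : G, g • x = y := by
  rintro ⟨h, hh, H⟩
  have hM := hc.median
  choose r hr using H
  obtain ⟨S, hS⟩ := hc.cocompact
  obtain ⟨z, hz, h1⟩ := (hc.good_of_single hs hG hh).2.1 (S.sup r + 2)
  obtain ⟨g, hg⟩ := hS z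
  obtain ⟨a, b, hab, -, hb, h2⟩ := hr (g • z) z ⟨g⁻¹, inv_smul_smul g z⟩ hz
  have h3 := h1 b hb
  have h4 := hM.tri z a b
  have h5 := dist_of_adj hab
  have h6 : r (g • z) ≤ S.sup r := Finset.le_sup hg
  omega

end Pool.Agent.Lib.MP_3467cd_al
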