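import Pool.Agent.Lib.MP_3467cd_al.CuT1

open Pointwise

namespace Pool.Agent.Lib.MP_3467cd_al.Cu

theorem head_mem_Hs (ω : Ed) : ω.head ∈ Hs ω := by
  exact ⟨ω, dp_refl ω, rfl⟩

theorem Dp.hs_subset {k : ℕ} {σ τ : Ed} (H : Dp k σ τ) : Hs σ ⊆ Hs τ := by
  rintro v ⟨ρ, h, rfl⟩
  exact ⟨ρ, (h.trans H).mono (Nat.zero_le _), rfl⟩

theorem Dp.tail_mem {σ τ : Ed} (H : Dp 1 σ τ) : σ.tail ∈ Hs τ := by
  obtain ⟨w, h1, h2⟩ := Dp.split (a := 1) (b := 0) H
  exact ⟨w, h2, (ch_one.1 h1).1.symm⟩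

theorem smul_Hs (f : FreeGroup Bool) (ω : Ed) (v : Vx) : f • v ∈ Hs (f • ω) ↔ v ∈ Hs ω := by
  constructor
  · rintro ⟨σ, h1, h2⟩
    refine ⟨f⁻¹ • σ, ?_, ?_⟩
    · simpa using h1.smul f⁻¹
    · rw [Ed.smul_head, h2, inv_smul_smul]
  · rintro ⟨σ, h1, h2⟩
    exact ⟨f • σ, h1.smul f, by rw [Ed.smul_head, h2]⟩

theorem t2_cover (ω : Ed) (v : Vx) : v ∈ Hs ω ∨ v ∈ Hs ω.rev := by
  have hv : (Ed.mk v.f v.s none).rev.head = v := by rw [Ed.head_rev]; rfl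
  generalize (Ed.mk v.f v.s none).rev = σ at hv
  subst hv
  rcases ed_cmp σ ω with h | h | h | h | h | h
  · exact Or.inl (h ▸ head_mem_Hs σ)
  · exact Or.inr (h ▸ head_mem_Hs σ)
  · exact Or.inl (h.hs_subset (head_mem_Hs σ))
  · exact Or.inr (h.hs_subset (head_mem_Hs σ))
  · exact Or.inl h.tail_mem
  · exact Or.inr h.tail_mem

theorem t2_mem {ω : Ed} {v : Vx} :
    v ∈ Hs ω ↔ v = ω.head ∨ ∃ σ, Next σ ω ∧ v ∈ Hs σ := by
  constructor
  · rintro ⟨ρ, h, rfl⟩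
    rcases dp_zero.1 h with h | h
    · exact Or.inl (by rw [h])
    · obtain ⟨τ, h1, h2⟩ := Dp.split' (a := 0) (b := 1) h
      exact Or.inr ⟨τ, ch_one.1 h2, ρ, h1, rfl⟩
  · rintro (rfl | ⟨σ, h1, h2⟩)
    · exact head_mem_Hs ω
    · exact h1.dp.hs_subset h2

/-- Cover: `ed_cmp` for an edge with head `v`. Disjoint: two edges with head `v` below `ω` and
`ω.rev` are equal or give `Dp 1 ω ω` through `next_sib`. -/
theorem Acyc.mem_rev (hA : Acyc) (ω : Ed) (v : Vx) : v ∈ Hs ω.rev ↔ v ∉ Hs ω := by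
  constructor
  · rintro ⟨σ1, h1, e1⟩ ⟨σ2, h2, e2⟩
    by_cases hσ : σ1 = σ2
    · subst hσ
      exact hA.2 _ _ h2 h1
    · have hn : Next σ1.rev σ2.rev.rev :=
        next_sib (by rw [Ed.tail_rev, Ed.tail_rev, e1, e2]) (fun h => hσ (Ed.rev_inj.1 h))
      rw [Ed.rev_rev] at hn
      have h3 := h1.rev
      rw [Ed.rev_rev] at h3
      exact hA.1 ω ((h3.trans hn.dp).trans h2)
  · intro h
    exact (t2_cover ω v).resolve_left h

theorem Acyc.tail_not_mem (hA : Acyc) (ω : Ed) : ω.tail ∉ Hs ω := by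
  have h := head_mem_Hs ω.rev
  rw [Ed.head_rev] at h
  exact (hA.mem_rev ω _).1 h

theorem Acyc.not_both (hA : Acyc) {a b : ℕ} {σ ω : Ed} (h1 : Dp a σ ω) (h2 : Dp b σ ω.rev) :
    False := by
  exact hA.2 σ ω (h1.mono (Nat.zero_le _)) (h2.mono (Nat.zero_le _))

theorem Acyc.crit (hA : Acyc) {σ τ : Ed} (h1 : σ.tail ∈ Hs τ) (h2 : τ.tail ∉ Hs σ) :
    Dp 1 σ τ := by
  rcases ed_cmp σ τ with h | h | h | h | h | h
  · subst h
    exact absurd h1 (hA.tail_not_mem σ)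
  · subst h
    have h3 := head_mem_Hs τ.rev
    rw [Ed.head_rev] at h3
    exact absurd h3 h2
  · exact h
  · exact absurd h1 ((hA.mem_rev τ _).1 h.tail_mem)
  · have h3 := h.rev
    rw [Ed.rev_rev] at h3
    have h4 := h3.hs_subset (head_mem_Hs τ.rev)
    rw [Ed.head_rev] at h4
    exact absurd h4 h2
  · have h3 := h.rev
    rw [Ed.rev_rev, Ed.rev_rev] at h3
    exact absurd h3.tail_mem h2

theorem Acyc.edge_side (hA : Acyc) {ω ρ : Ed} (h1 : ω ≠ ρ) (h2 : ω ≠ ρ.rev) :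
    ω.tail ∈ Hs ρ ↔ ω.head ∈ Hs ρ := by
  have key : ∀ {a b : Ed}, Dp 1 a b → a.tail ∈ Hs b ∧ a.head ∈ Hs b :=
    fun h => ⟨h.tail_mem, h.hs_subset (head_mem_Hs _)⟩
  rcases ed_cmp ω ρ with h | h | h | h | h | h
  · exact absurd h h1
  · exact absurd h h2
  · exact iff_of_true (key h).1 (key h).2
  · exact iff_of_false ((hA.mem_rev ρ _).1 (key h).1) ((hA.mem_rev ρ _).1 (key h).2)
  · have h3 := key h
    rw [Ed.tail_rev, Ed.head_rev] at h3
    exact iff_of_true h3.2 h3.1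
  · have h3 := key h
    rw [Ed.tail_rev, Ed.head_rev] at h3
    exact iff_of_false ((hA.mem_rev ρ _).1 h3.2) ((hA.mem_rev ρ _).1 h3.1)

theorem Acyc.walk_side (hA : Acyc) {ok : Ed → Prop} {ρ : Ed} (h1 : ¬ ok ρ) (h2 : ¬ ok ρ.rev)
    {v w : Vx} (H : Walk ok v w) : v ∈ Hs ρ ↔ w ∈ Hs ρ := by
  induction H with
  | refl => exact Iff.rfl
  | step _ hok ih =>
    exact ih.trans (hA.edge_side (fun h => h1 (h ▸ hok)) (fun h => h2 (h ▸ hok)))

/-- a walk from one side of `ρ` to the other one uses `ρ` -/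
theorem Acyc.walk_cross (hA : Acyc) {ok : Ed → Prop} {ρ : Ed} {v w : Vx} (H : Walk ok v w)
    (h1 : v ∉ Hs ρ) (h2 : w ∈ Hs ρ) : ok ρ ∧ Walk ok v ρ.tail := by
  induction H with
  | refl => exact absurd h2 h1
  | @step ω hw hok ih =>
    by_cases ht : ω.tail ∈ Hs ρ
    · exact ih ht
    · by_cases e1 : ω = ρ
      · subst e1
        exact ⟨hok, hw⟩
      · by_cases e2 : ω = ρ.rev
        · subst e2
          exact absurd (head_mem_Hs ρ) ht
        · exact absurd ((hA.edge_side e1 e2).2 h2) ht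

theorem exists_out {v w : Vx} (h : w ≠ v) : ∃ ω : Ed, ω.tail = v ∧ w ∈ Hs ω := by
  have hv : (Ed.mk v.f v.s none).tail = v := rfl
  generalize Ed.mk v.f v.s none = ω at hv
  rcases t2_cover ω w with h1 | h1
  · exact ⟨ω, hv, h1⟩
  · rcases t2_mem.1 h1 with h2 | ⟨σ, h2, h3⟩
    · rw [Ed.head_rev, hv] at h2
      exact absurd h2 h
    · exact ⟨σ, by rw [h2.1, Ed.head_rev, hv], h3⟩

theorem mem_Hs_iff {ω : Ed} {v : Vx} :
    v ∈ Hs ω ↔ v = ω.head ∨ ∃ σ, Next σ ω ∧ v ∈ Hs σ := by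
  exact t2_mem

/-- two edges continuing `ρ` that lie behind the same edge are equal -/
theorem Acyc.top_unique (hA : Acyc) {σ ω ω' ρ : Ed} (h1 : Dp 0 σ ω) (h2 : Dp 0 σ ω')
    (n1 : Next ω ρ) (n2 : Next ω' ρ) : ω = ω' := by
  by_contra hne
  have hn : Next ω ω'.rev := next_sib (n1.1.trans n2.1.symm) hne
  exact hA.not_both h2 (h1.trans hn.dp)

theorem Acyc.len_unique (hA : Acyc) {n m : ℕ} {σ τ : Ed} (h1 : Ch n σ τ) (h2 : Ch m σ τ) :
    n = m := by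
  induction n generalizing m τ with
  | zero =>
    obtain rfl := h1.zero
    by_contra hne
    exact hA.1 σ (h2.dp (by omega))
  | succ n ih =>
    cases m with
    | zero =>
      obtain rfl := h2.zero
      exact absurd (h1.dp (by omega)) (hA.1 σ)
    | succ m =>
      obtain ⟨w, a1, a2⟩ := ch_succ'.1 h1
      obtain ⟨w', b1, b2⟩ := ch_succ'.1 h2
      obtain rfl := hA.top_unique (a1.dp (Nat.zero_le _)) (b1.dp (Nat.zero_le _)) a2 b2
      rw [ih a1 b1]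

theorem Acyc.le_of_dp (hA : Acyc) {n k : ℕ} {σ τ : Ed} (h1 : Ch n σ τ) (h2 : Dp k σ τ) :
    k ≤ n := by
  obtain ⟨m, hk, hm⟩ := h2
  rw [hA.len_unique h1 hm]
  exact hk

/-- an edge between the ends of a chain lies on it -/
theorem Acyc.mid_unique (hA : Acyc) {i : ℕ} {σ ω ω' τ : Ed} (h1 : Ch i σ ω) (h2 : Dp 0 ω τ)
    (h3 : Ch i σ ω') (h4 : Dp 0 ω' τ) : ω = ω' := by
  obtain ⟨a, -, ha⟩ := h2
  obtain ⟨b, -, hb⟩ := h4
  have hab : a = b := by
    have := hA.len_unique (h1.trans ha) (h3.trans hb)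
    omega
  subst hab
  induction a generalizing τ with
  | zero => rw [ha.zero, hb.zero]
  | succ a ih =>
    obtain ⟨w, a1, a2⟩ := ch_succ'.1 ha
    obtain ⟨w', b1, b2⟩ := ch_succ'.1 hb
    obtain rfl := hA.top_unique ((h1.trans a1).dp (Nat.zero_le _))
      ((h3.trans b1).dp (Nat.zero_le _)) a2 b2
    exact ih a1 b1

/-- induction on `a`, looking at the top steps of the two chains -/
theorem merge {a b : ℕ} {σ τ ω : Ed} (h1 : Ch a σ ω) (h2 : Ch b τ ω) :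
    Dp 0 σ τ ∨ Dp 0 τ σ ∨ ∃ n, n + 1 ≤ a + b ∧ Ch n σ τ.rev := by
  induction a generalizing b ω with
  | zero =>
    obtain rfl := h1.zero
    exact Or.inr (Or.inl (h2.dp (Nat.zero_le _)))
  | succ a ih =>
    cases b with
    | zero =>
      obtain rfl := h2.zero
      exact Or.inl (h1.dp (Nat.zero_le _))
    | succ b =>
      obtain ⟨w, a1, a2⟩ := ch_succ'.1 h1
      obtain ⟨w', b1, b2⟩ := ch_succ'.1 h2
      by_cases hw : w = w'
      · subst hw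
        rcases ih a1 b1 with h | h | ⟨n, hn, h⟩
        · exact Or.inl h
        · exact Or.inr (Or.inl h)
        · exact Or.inr (Or.inr ⟨n, by omega, h⟩)
      · have hn : Next w w'.rev := next_sib (a2.1.trans b2.1.symm) hw
        exact Or.inr (Or.inr ⟨a + 1 + b, by omega, (a1.trans hn.ch).trans b1.rev⟩)

end Pool.Agent.Lib.MP_3467cd_al.Cu
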