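import Pool.Agent.Lib.MP_3467cd_al.CuSD
import Pool.Agent.Lib.MP_3467cd_al.CuT2

open Pointwise

namespace Pool.Agent.Lib.MP_3467cd_al.Cu

variable {G : Type} [Group G] {V : Type} [MulAction G V] {X : SimpleGraph V}

namespace PreFrame
variable (F : PreFrame G X)

theorem μ_half (ω : Ed) : IsHalf X (F.μ ω) := (F.sd ω).left

theorem z_half (ω : Ed) : IsHalf X (F.z ω) := by
  have h := (F.sd ω.rev).right
  rwa [Ed.rev_rev] at h

theorem ν_half (ω : Ed) : IsHalf X (F.ν ω) := by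
  obtain ⟨σ, -, -, h, -⟩ := exists_two_next ω.rev
  exact (F.next σ ω.rev h).right

theorem ν_smul (f : FreeGroup Bool) (ω : Ed) : F.ν (f • ω) = F.ι f • F.ν ω := by
  unfold ν
  rw [Ed.smul_rev, F.μ_smul, Set.smul_set_compl]

theorem compl_ν (ω : Ed) : (F.ν ω)ᶜ = F.μ ω.rev := compl_compl _

theorem compl_μ (ω : Ed) : (F.μ ω)ᶜ = F.ν ω.rev := by
  unfold ν
  rw [Ed.rev_rev]

theorem sd_z (ω : Ed) : SD X (F.μ ω) (F.z ω)ᶜ := by
  rw [← F.z_rev]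
  exact F.sd ω

theorem μ_sub_z (ω : Ed) : F.μ ω ⊆ F.z ω := (F.sd_z ω).subset

theorem z_sub_ν (ω : Ed) : F.z ω ⊆ F.ν ω := by
  have h := F.μ_sub_z ω.rev
  rw [F.z_rev] at h
  intro x hx hx'
  exact h hx' hx

theorem μ_sub_ν (ω : Ed) : F.μ ω ⊆ F.ν ω := (F.μ_sub_z ω).trans (F.z_sub_ν ω)

theorem sd_rev (ω : Ed) : SD X (F.μ ω) (F.μ ω.rev) :=
  (F.sd ω).mono_right (F.μ_half _) (F.μ_sub_z ω.rev)

theorem f1_ch_mono {n : ℕ} {σ τ : Ed} (H : Ch n σ τ) : F.μ σ ⊆ F.μ τ := by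
  induction H with
  | refl ω => exact subset_rfl
  | step h _ ih => exact ((F.μ_sub_ν _).trans (F.next _ _ h).subset).trans ih

theorem sd_of_dp {σ τ : Ed} (H : Dp 1 σ τ) : SD X (F.ν σ) (F.μ τ)ᶜ := by
  obtain ⟨n, hn, H⟩ := H
  cases H with
  | refl => omega
  | step h H' =>
    refine (F.next _ _ h).mono_right ?_ (Set.compl_subset_compl.2 (F.f1_ch_mono H'))
    rw [F.compl_μ]
    exact F.ν_half _

theorem ν_sub_μ {σ τ : Ed} (H : Dp 1 σ τ) : F.ν σ ⊆ F.μ τ := (F.sd_of_dp H).subset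

theorem ν_ssub_μ {σ τ : Ed} (H : Dp 1 σ τ) : F.ν σ ⊂ F.μ τ := (F.sd_of_dp H).ssubset

theorem μ_ssub {σ τ : Ed} (H : Dp 1 σ τ) : F.μ σ ⊂ F.μ τ :=
  (F.μ_sub_ν σ).trans_ssubset (F.ν_ssub_μ H)

theorem μ_mono {k : ℕ} {σ τ : Ed} (H : Dp k σ τ) : F.μ σ ⊆ F.μ τ := by
  obtain ⟨n, -, H⟩ := H
  exact F.f1_ch_mono H

theorem ν_mono {k : ℕ} {σ τ : Ed} (H : Dp k σ τ) : F.ν σ ⊆ F.ν τ :=
  Set.compl_subset_compl.2 (F.μ_mono H.rev)

theorem z_mono {k : ℕ} {σ τ : Ed} (H : Dp k σ τ) : F.z σ ⊆ F.z τ := by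
  rcases dp_zero.1 (H.mono (Nat.zero_le k)) with h | h
  · rw [h]
  · exact ((F.z_sub_ν σ).trans (F.ν_sub_μ h)).trans (F.μ_sub_z τ)

include F in
theorem acyc : Acyc := by
  refine ⟨fun ω h => (F.μ_ssub h).ne rfl, fun σ ω h1 h2 => ?_⟩
  obtain ⟨x, hx⟩ := (F.μ_half σ).nonempty
  exact Set.disjoint_left.1 (F.sd_rev ω).disj (F.μ_mono h1 hx) (F.μ_mono h2 hx)

theorem nest_of_ch {n : ℕ} {σ τ : Ed} (H : Ch n σ τ) : Nest X n (F.μ σ) (F.μ τ) := by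
  induction H with
  | refl ω =>
    exact ⟨fun _ => F.μ ω, ⟨fun _ _ => F.μ_half ω, fun i hi => absurd hi (Nat.not_lt_zero i)⟩,
      rfl, rfl⟩
  | step h _ ih =>
    have h1 := (nest_one (F.μ_half _) (F.μ_half _) (F.μ_ssub h.dp)).trans ih
    rwa [Nat.add_comm] at h1

theorem exists_pi (hM : IsMedian X) (ω : Ed) : ∃ p, F.Pi ω p := (F.sd_z ω).exists_pi hM

theorem pi_smul (hc : IsCubulation G X) {ω : Ed} {p : V} (H : F.Pi ω p) (f : FreeGroup Bool) :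
    F.Pi (f • ω) (F.ι f • p) := by
  unfold Pi
  rw [F.μ_smul, F.z_smul]
  exact IsPi.smul hc H _

/-- `ed_cmp β α`; for `Dp 1 β.rev α` the field `room` of `sd_of_dp` gives a common point -/
theorem dp_of_disjoint {α β : Ed} (H : Disjoint (F.μ α) (F.μ β)) : Dp 0 β α.rev := by
  obtain ⟨x, hx⟩ := (F.μ_half α).nonempty
  obtain ⟨y, hy⟩ := (F.μ_half β).nonempty
  have hd := Set.disjoint_left.1 H
  rcases ed_cmp β α with h | h | h | h | h | h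
  · subst h
    exact absurd hx (hd hx)
  · rw [h]
    exact dp_refl _
  · exact absurd hy (hd (F.μ_mono h hy))
  · exact h.mono (Nat.zero_le 1)
  · obtain ⟨p, hp1, hp2⟩ := (F.sd_of_dp h).room
    rw [F.compl_ν, Ed.rev_rev] at hp1
    rw [compl_compl] at hp2
    exact absurd hp1 (hd hp2)
  · have h' := h.rev
    rw [Ed.rev_rev, Ed.rev_rev] at h'
    exact absurd (F.μ_mono h' hx) (hd hx)

theorem end_smul (g : G) (f : FreeGroup Bool) (k : Set V) :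
    F.End (g * F.ι f) k ↔ F.End g k := by
  constructor
  · rintro ⟨ω, h⟩
    refine ⟨f • ω, ?_⟩
    rwa [F.μ_smul, ← mul_smul]
  · rintro ⟨ω, h⟩
    refine ⟨f⁻¹ • ω, ?_⟩
    rwa [mul_smul, ← F.μ_smul, smul_inv_smul]

theorem end_iff (g : G) (k : Set V) : F.End g k ↔ F.End 1 (g⁻¹ • k) := by
  unfold End
  simp only [one_smul, Set.smul_set_subset_iff_subset_inv_smul_set]

/-- a set missing `μ ω` and `μ ω.rev` contains no end -/
theorem not_end {k : Set V} {ω : Ed} (h1 : Disjoint k (F.μ ω)) (h2 : Disjoint k (F.μ ω.rev)) :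
    ¬ F.End 1 k := by
  rintro ⟨β, h⟩
  rw [one_smul] at h
  obtain ⟨y, hy⟩ := (F.μ_half β).nonempty
  have h3 := F.dp_of_disjoint (h1.symm.mono_right h)
  exact Set.disjoint_left.1 h2 (h hy) (F.μ_mono h3 hy)

end PreFrame

end Pool.Agent.Lib.MP_3467cd_al.Cu
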