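import Pool.Agent.Lib.MP_3467cd_al.CuG2

open Pointwise

namespace Pool.Agent.Lib.MP_3467cd_al.Cu

variable {I : Type} {K : ℕ} {ix : I × Col → ℕ}

/-- the tails are at distance at most `n` in each coordinate -/
def g3Near (n : ℤ) (ω ω' : GO) : Prop :=
  ω.1.1 - ω'.1.1 ≤ n ∧ ω'.1.1 - ω.1.1 ≤ n ∧ ω.1.2.1 - ω'.1.2.1 ≤ n ∧ ω'.1.2.1 - ω.1.2.1 ≤ n

theorem g3_grev (ω : GO) : g3Near 1 (grev ω) ω := by
  obtain ⟨⟨x, y, _ | _⟩, _ | _ | _⟩ := ω <;> simp [g3Near, grev, gmv]

theorem g3_gup (ω : GO) (b : Bool) : g3Near 1 (gup ω b) ω := g3_grev (ω.1, oth ω.2 b)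

theorem g3_gupL (bs : List Bool) (ω : GO) : g3Near bs.length (gupL ω bs) ω := by
  induction bs generalizing ω with
  | nil => simp [g3Near, gupL]
  | cons b l ih =>
    have h1 := ih (gup ω b)
    have h2 := g3_gup ω b
    simp only [g3Near, gupL, List.length_cons] at h1 h2 ⊢
    omega

theorem g3_gcan (ω : GO) : (gcan ω).1 ≤ ω.1.1 ∧ ω.1.1 ≤ (gcan ω).1 + 1 := by
  obtain ⟨⟨x, y, _ | _⟩, _ | _ | _⟩ := ω <;> simp [gcan]

theorem g3_gupL_gsh (t : ℤ × ℤ) (bs : List Bool) (ω : GO) :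
    gupL (gsh t ω) bs = gsh t (gupL ω bs) := by
  induction bs generalizing ω with
  | nil => rfl
  | cons b l ih => rw [gupL, gupL, gup_gsh, ih]

theorem g3_gsh_inj {t : ℤ × ℤ} {ω ω' : GO} (H : gsh t ω = gsh t ω') : ω = ω' := by
  obtain ⟨⟨x, y, s⟩, d⟩ := ω
  obtain ⟨⟨x', y', s'⟩, d'⟩ := ω'
  simpa [gsh] using H

theorem g3_zero {a d e : ℤ} (h : 300 * ((K : ℤ) + 1) * a = 100 * d + e) (h1 : -(2 * K : ℤ) ≤ d)
    (h2 : d ≤ 2 * K) (h3 : -50 ≤ e) (h4 : e ≤ 50) : a = 0 ∧ d = 0 := by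
  have h5 := Int.eq_zero_of_abs_lt_dvd (Dvd.intro a h) (abs_lt.2 ⟨by omega, by omega⟩)
  rw [h5] at h
  exact ⟨(mul_eq_zero.1 h).resolve_left (by omega), by omega⟩

theorem g3_six (t : Ty) (bs : List Bool) (hb : bs.length ≤ 5) :
    gupL (gE 0 t) bs ≠ grev (gE 0 t) := by
  revert t
  rcases bs with _ | ⟨b1, _ | ⟨b2, _ | ⟨b3, _ | ⟨b4, _ | ⟨b5, _ | ⟨b6, l⟩⟩⟩⟩⟩⟩
  · decide
  · revert b1; decide
  · revert b1 b2; decide
  · revert b1 b2 b3; decide
  · revert b1 b2 b3 b4; decide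
  · revert b1 b2 b3 b4 b5; decide
  · simp only [List.length_cons] at hb
    omega

theorem gE_inj (hi : Function.Injective ix) (hK : ∀ l, ix l < K) (ty : I → Ty) {l l' : I × Col}
    {a b : ℤ} (H : gsh (300 * ((K : ℤ) + 1) * a, 300 * ((K : ℤ) + 1) * b) (gE (ix l) (ty l.1)) =
      gE (ix l') (ty l'.1)) : l = l' := by
  have h1 := congrArg (fun ω : GO => ω.1.1) H
  simp only [gsh, gE] at h1
  have h2 := hK l
  have h3 := hK l'
  have := (g3_zero (K := K) (a := a) (d := (ix l' : ℤ) - ix l) (e := 0) (by omega) (by omega)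
    (by omega) (by omega) (by omega)).2
  exact hi (by omega)

/-- Coordinates move by at most one in each step, so `l = l'`, `a = b = 0`; translate to `gE 0 t`
and check all lists of length at most 5 by `decide` (destructure the list first). -/
theorem gE_six (hi : Function.Injective ix) (hK : ∀ l, ix l < K) (ty : I → Ty) (l l' : I × Col)
    (a b : ℤ) (bs : List Bool) (hb : bs.length ≤ 5) :
    gupL (gE (ix l) (ty l.1)) bs ≠
      grev (gsh (300 * ((K : ℤ) + 1) * a, 300 * ((K : ℤ) + 1) * b) (gE (ix l') (ty l'.1))) := by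
  intro H
  have h1 := g3_gupL bs (gE (ix l) (ty l.1))
  have h2 := g3_grev
    (gsh (300 * ((K : ℤ) + 1) * a, 300 * ((K : ℤ) + 1) * b) (gE (ix l') (ty l'.1)))
  rw [← H] at h2
  simp only [g3Near, gsh, gE] at h1 h2
  have h3 := hK l
  have h4 := hK l'
  obtain ⟨rfl, h5⟩ := g3_zero (K := K) (a := a) (d := (ix l : ℤ) - ix l')
    (e := 300 * ((K : ℤ) + 1) * a - 100 * (ix l - ix l')) (by omega) (by omega)
    (by omega) (by omega) (by omega)
  obtain ⟨rfl, -⟩ := g3_zero (K := K) (a := b) (d := (ix l : ℤ) - ix l')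
    (e := 300 * ((K : ℤ) + 1) * b - 100 * (ix l - ix l')) (by omega) (by omega)
    (by omega) (by omega) (by omega)
  obtain rfl : l = l' := hi (by omega)
  have e : gE (ix l) (ty l.1) = gsh (100 * ix l, 100 * ix l) (gE 0 (ty l.1)) := by simp [gE, gsh]
  have e' : ∀ ω : GO, gsh (300 * ((K : ℤ) + 1) * 0, 300 * ((K : ℤ) + 1) * 0) ω = ω := by
    simp [gsh]
  rw [e', e, g3_gupL_gsh, grev_gsh] at H
  exact g3_six _ bs hb (g3_gsh_inj H)

/-- Suppose every shifted positive edge is a cut, `l` going to the pair `m l`. Compare the labels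
with least and greatest index: the pair of the least one is itself, so `t` is within `8` of a
multiple of the period in both coordinates. Then `m l = l` for all `l`; the labels of type
`(false, some true)` and `(true, some true)` with colour `(false, false, false)` allow only the
shifts `(0, 0), (-3, 0)` and `(0, 0), (0, -3)`. -/
theorem gE_gen [Finite I] (hi : Function.Injective ix) (hK : ∀ l, ix l < K) {ty : I → Ty}
    (hs : ∀ t, ∃ i, ty i = t) (t : ℤ × ℤ)
    (H : ∀ l : I × Col, GA (300 * ((K : ℤ) + 1)) ix ty (gshE t (gcan (gE (ix l) (ty l.1))))) :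
    300 * ((K : ℤ) + 1) ∣ t.1 ∧ 300 * ((K : ℤ) + 1) ∣ t.2 := by
  choose m a b h using H
  have h1 : ∀ l, -5 ≤ t.1 - 300 * ((K : ℤ) + 1) * a l - 100 * (ix (m l) - ix l) ∧
      t.1 - 300 * ((K : ℤ) + 1) * a l - 100 * (ix (m l) - ix l) ≤ 5 := by
    intro l
    have e1 := g3_gcan (gE (ix l) (ty l.1))
    have e0 : ∀ j s, (gE j s).1.1 = 100 * j := fun _ _ => rfl
    rcases h l with h | h
    · have e2 := g3_gcan (gE (ix (m l)) (ty (m l).1))
      have e3 := congrArg Prod.fst h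
      simp only [gshE, e0] at e1 e2 e3
      omega
    · have e2 := g3_gcan (gB (gE (ix (m l)) (ty (m l).1)) (m l).2)
      have e4 : g3Near 3 (gB (gE (ix (m l)) (ty (m l).1)) (m l).2) _ :=
        g3_gupL [(m l).2.1, (m l).2.2.1, (m l).2.2.2] (gE (ix (m l)) (ty (m l).1))
      have e3 := congrArg Prod.fst h
      simp only [gshE, g3Near, e0] at e1 e2 e3 e4
      omega
  have h2 : ∀ l l', (ix (m l) : ℤ) - ix l - (ix (m l') - ix l') = 0 := by
    intro l l'
    have e1 := h1 l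
    have e2 := h1 l'
    have := hK l
    have := hK l'
    have := hK (m l)
    have := hK (m l')
    have e3 := mul_sub (300 * ((K : ℤ) + 1)) (a l') (a l)
    exact (g3_zero (K := K) (a := a l' - a l)
      (e := 300 * ((K : ℤ) + 1) * (a l' - a l) - 100 * (ix (m l) - ix l - (ix (m l') - ix l')))
      (by omega) (by omega) (by omega) (by omega) (by omega)).2
  obtain ⟨i1, e1⟩ := hs (false, some true)
  obtain ⟨i2, e2⟩ := hs (true, some true)
  have : Nonempty (I × Col) := ⟨(i1, false, false, false)⟩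
  obtain ⟨l0, hl0⟩ := Finite.exists_min ix
  obtain ⟨l1, hl1⟩ := Finite.exists_max ix
  have h3 : ∀ l, m l = l := fun l => hi (by
    have := h2 l l0
    have := h2 l l1
    have := hl0 (m l0)
    have := hl1 (m l1)
    omega)
  have h4 := h (i1, false, false, false)
  have h5 := h (i2, false, false, false)
  rw [h3] at h4 h5
  simp only [e1, e2, gE, gB, gup, oth, grev, gmv, gcan, gshE, Option.map, Bool.not_false,
    Prod.mk.injEq] at h4 h5
  exact ⟨⟨a (i2, false, false, false), by omega⟩, ⟨b (i1, false, false, false), by omega⟩⟩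

end Pool.Agent.Lib.MP_3467cd_al.Cu
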