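import Pool.Agent.Lib.MP_3467cd_al.CuDefs

open Pointwise

namespace Pool.Agent.Lib.MP_3467cd_al.Cu

@[simp] theorem Ed.rev_rev (ω : Ed) : ω.rev.rev = ω := by
  rcases ω with ⟨f, s, _ | _ | _⟩ <;> simp [Ed.rev]

@[simp] theorem Ed.tail_rev (ω : Ed) : ω.rev.tail = ω.head := rfl

@[simp] theorem Ed.head_rev (ω : Ed) : ω.rev.head = ω.tail := by
  show ω.rev.rev.tail = ω.tail
  rw [Ed.rev_rev]

theorem Ed.rev_inj {σ τ : Ed} : σ.rev = τ.rev ↔ σ = τ := by
  refine ⟨fun h => ?_, fun h => by rw [h]⟩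
  rw [← Ed.rev_rev σ, h, Ed.rev_rev]

theorem t1_smul_def (f : FreeGroup Bool) (ω : Ed) : f • ω = ⟨f * ω.f, ω.s, ω.d⟩ := rfl

theorem Ed.smul_rev (f : FreeGroup Bool) (ω : Ed) : (f • ω).rev = f • ω.rev := by
  rcases ω with ⟨g, s, _ | _ | _⟩ <;> simp [t1_smul_def, Ed.rev, mul_assoc]

theorem Ed.smul_tail (f : FreeGroup Bool) (ω : Ed) : (f • ω).tail = f • ω.tail := rfl

theorem Ed.smul_head (f : FreeGroup Bool) (ω : Ed) : (f • ω).head = f • ω.head := by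
  show (f • ω).rev.tail = f • ω.rev.tail
  rw [Ed.smul_rev]
  rfl

theorem Ed.smul_ty (f : FreeGroup Bool) (ω : Ed) : (f • ω).ty = ω.ty := rfl

theorem Ed.ty_rev (ω : Ed) : ω.rev.ty = revT ω.ty := by
  rcases ω with ⟨g, s, _ | _ | _⟩ <;> rfl

theorem Ed.eq_smul_base (ω : Ed) : ω = ω.f • base ω.ty := by
  exact Ed.ext (mul_one ω.f).symm rfl rfl

theorem Ed.exists_smul_of_ty {σ τ : Ed} (H : σ.ty = τ.ty) : ∃ f : FreeGroup Bool, f • σ = τ := by
  refine ⟨τ.f * σ.f⁻¹, Ed.ext ?_ (congrArg Prod.fst H) (congrArg Prod.snd H)⟩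
  show τ.f * σ.f⁻¹ * σ.f = τ.f
  simp

theorem Ed.eq_one_of_smul {f : FreeGroup Bool} {ω : Ed} (H : f • ω = ω) : f = 1 := by
  have h : f * ω.f = ω.f := congrArg Ed.f H
  simpa using h

theorem Ed.eq_of_tail {σ τ : Ed} (h1 : σ.tail = τ.tail) (h2 : σ.d = τ.d) : σ = τ := by
  exact Ed.ext (congrArg Vx.f h1) (congrArg Vx.s h1) h2

theorem out_finite (v : Vx) : {ω : Ed | ω.tail = v}.Finite := by
  refine (Set.finite_range fun d : Option Bool => Ed.mk v.f v.s d).subset ?_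
  intro ω hω
  have h : ω.tail = v := hω
  exact ⟨ω.d, Ed.ext (congrArg Vx.f h).symm (congrArg Vx.s h).symm rfl⟩

theorem Next.rev {σ τ : Ed} (H : Next σ τ) : Next τ.rev σ.rev := by
  refine ⟨?_, ?_⟩
  · rw [Ed.tail_rev, Ed.head_rev]
    exact H.1.symm
  · rw [Ed.rev_rev]
    exact fun h => H.2 h.symm

theorem Next.smul {σ τ : Ed} (H : Next σ τ) (f : FreeGroup Bool) : Next (f • σ) (f • τ) := by
  refine ⟨?_, ?_⟩
  · rw [Ed.smul_tail, Ed.smul_head, H.1]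
  · rw [Ed.smul_rev]
    exact fun h => H.2 (MulAction.injective f h)

theorem next_sib {σ σ' : Ed} (h1 : σ.tail = σ'.tail) (h2 : σ ≠ σ') : Next σ σ'.rev := by
  refine ⟨?_, ?_⟩
  · rw [Ed.head_rev]
    exact h1
  · rw [Ed.rev_rev]
    exact h2

theorem t1_oth_ne (d : Option Bool) (b : Bool) : oth d b ≠ d := by
  rcases d with _ | _ | _ <;> cases b <;> simp [oth]

theorem t1_oth_inj (d : Option Bool) : oth d false ≠ oth d true := by
  rcases d with _ | _ | _ <;> simp [oth]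

theorem t1_oth_ex {d d' : Option Bool} (h : d' ≠ d) : ∃ b, d' = oth d b := by
  rcases d with _ | _ | _ <;> rcases d' with _ | _ | _ <;> simp [oth] at h ⊢

theorem t1_next_iff {σ τ : Ed} :
    Next σ τ ↔ ∃ b, σ = ⟨τ.rev.f, τ.rev.s, oth τ.rev.d b⟩ := by
  constructor
  · rintro ⟨h1, h2⟩
    have h3 : σ.d ≠ τ.rev.d := fun h => h2 (Ed.eq_of_tail h1 h)
    obtain ⟨b, hb⟩ := t1_oth_ex h3
    exact ⟨b, Ed.ext (congrArg Vx.f h1) (congrArg Vx.s h1) hb⟩
  · rintro ⟨b, rfl⟩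
    exact ⟨rfl, fun h => t1_oth_ne _ b (congrArg Ed.d h)⟩

/-- the tree is trivalent -/
theorem exists_two_next (τ : Ed) : ∃ σ σ', σ ≠ σ' ∧ Next σ τ ∧ Next σ' τ ∧
    ∀ ω, Next ω τ → ω = σ ∨ ω = σ' := by
  refine ⟨⟨τ.rev.f, τ.rev.s, oth τ.rev.d false⟩, ⟨τ.rev.f, τ.rev.s, oth τ.rev.d true⟩, ?_,
    t1_next_iff.2 ⟨false, rfl⟩, t1_next_iff.2 ⟨true, rfl⟩, ?_⟩
  · exact fun h => t1_oth_inj τ.rev.d (congrArg Ed.d h)
  · intro ω hω
    obtain ⟨b, hb⟩ := t1_next_iff.1 hω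
    cases b
    · exact Or.inl hb
    · exact Or.inr hb

theorem exists_sib {σ τ : Ed} (H : Next σ τ) : ∃ σ', σ' ≠ σ ∧ Next σ' τ ∧
    ∀ ω, Next ω τ → ω = σ ∨ ω = σ' := by
  obtain ⟨a, b, hab, ha, hb, hall⟩ := exists_two_next τ
  rcases hall σ H with h | h
  · refine ⟨b, ?_, hb, ?_⟩
    · rw [h]
      exact hab.symm
    · rw [h]
      exact hall
  · refine ⟨a, ?_, ha, ?_⟩
    · rw [h]
      exact hab
    · rw [h]
      exact fun ω hω => (hall ω hω).symm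

theorem next_iff_up {σ τ : Ed} : Next σ τ ↔ ∃ b, τ = σ.up b := by
  constructor
  · intro H
    obtain ⟨b, hb⟩ := t1_next_iff.1 H.rev
    rw [Ed.rev_rev] at hb
    refine ⟨b, ?_⟩
    rw [← Ed.rev_rev τ, hb]
    rfl
  · rintro ⟨b, rfl⟩
    refine ⟨?_, ?_⟩
    · unfold Ed.up
      rw [Ed.head_rev]
      rfl
    · unfold Ed.up
      rw [Ed.rev_rev]
      exact fun h => t1_oth_ne σ.d b (congrArg Ed.d h).symm

theorem Ch.zero {σ τ : Ed} (H : Ch 0 σ τ) : σ = τ := by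
  cases H
  rfl

theorem ch_succ {n : ℕ} {σ ρ : Ed} : Ch (n + 1) σ ρ ↔ ∃ τ, Next σ τ ∧ Ch n τ ρ := by
  constructor
  · intro H
    cases H with
    | step h1 h2 => exact ⟨_, h1, h2⟩
  · rintro ⟨τ, h1, h2⟩
    exact Ch.step h1 h2

theorem Next.ch {σ τ : Ed} (H : Next σ τ) : Ch 1 σ τ := by
  exact Ch.step H (Ch.refl τ)

theorem ch_one {σ τ : Ed} : Ch 1 σ τ ↔ Next σ τ := by
  refine ⟨fun H => ?_, Next.ch⟩
  obtain ⟨ρ, h1, h2⟩ := ch_succ.1 H
  rw [← h2.zero]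
  exact h1

theorem ch_two {σ τ : Ed} : Ch 2 σ τ ↔ ∃ w, Next σ w ∧ Next w τ := by
  constructor
  · intro H
    obtain ⟨w, h1, h2⟩ := ch_succ.1 H
    exact ⟨w, h1, ch_one.1 h2⟩
  · rintro ⟨w, h1, h2⟩
    exact Ch.step h1 h2.ch

theorem ch_three {σ τ : Ed} : Ch 3 σ τ ↔ ∃ w1 w2, Next σ w1 ∧ Next w1 w2 ∧ Next w2 τ := by
  constructor
  · intro H
    obtain ⟨w, h1, h2⟩ := ch_succ.1 H
    obtain ⟨w', h3, h4⟩ := ch_two.1 h2
    exact ⟨w, w', h1, h3, h4⟩
  · rintro ⟨w, w', h1, h2, h3⟩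
    exact Ch.step h1 (Ch.step h2 h3.ch)

theorem Ch.trans {n m : ℕ} {σ τ ρ : Ed} (H : Ch n σ τ) (H' : Ch m τ ρ) : Ch (n + m) σ ρ := by
  induction H with
  | refl ω => rwa [Nat.zero_add]
  | step h1 _ ih =>
    rw [Nat.add_right_comm]
    exact Ch.step h1 (ih H')

theorem Ch.split {n m : ℕ} {σ ρ : Ed} (H : Ch (n + m) σ ρ) : ∃ τ, Ch n σ τ ∧ Ch m τ ρ := by
  induction n generalizing σ with
  | zero => exact ⟨σ, Ch.refl σ, by rwa [Nat.zero_add] at H⟩
  | succ n ih =>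
    rw [Nat.add_right_comm] at H
    obtain ⟨w, h1, h2⟩ := ch_succ.1 H
    obtain ⟨τ, h3, h4⟩ := ih h2
    exact ⟨τ, Ch.step h1 h3, h4⟩

theorem ch_succ' {n : ℕ} {σ ρ : Ed} : Ch (n + 1) σ ρ ↔ ∃ τ, Ch n σ τ ∧ Next τ ρ := by
  constructor
  · intro H
    obtain ⟨τ, h1, h2⟩ := H.split
    exact ⟨τ, h1, ch_one.1 h2⟩
  · rintro ⟨τ, h1, h2⟩
    exact h1.trans h2.ch

theorem Ch.rev {n : ℕ} {σ τ : Ed} (H : Ch n σ τ) : Ch n τ.rev σ.rev := by
  induction H with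
  | refl ω => exact Ch.refl _
  | step h1 _ ih => exact ch_succ'.2 ⟨_, ih, h1.rev⟩

theorem Ch.smul {n : ℕ} {σ τ : Ed} (H : Ch n σ τ) (f : FreeGroup Bool) :
    Ch n (f • σ) (f • τ) := by
  induction H with
  | refl ω => exact Ch.refl _
  | step h1 _ ih => exact Ch.step (h1.smul f) ih

theorem ch_finite (n : ℕ) (σ : Ed) : {τ | Ch n σ τ}.Finite := by
  induction n generalizing σ with
  | zero =>
    refine (Set.finite_singleton σ).subset ?_
    intro τ hτ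
    exact (Ch.zero hτ).symm
  | succ n ih =>
    refine (Set.finite_iUnion fun b : Bool => ih (σ.up b)).subset ?_
    intro τ hτ
    obtain ⟨w, h1, h2⟩ := ch_succ.1 hτ
    obtain ⟨b, rfl⟩ := next_iff_up.1 h1
    exact Set.mem_iUnion.2 ⟨b, h2⟩

theorem Ch.dp {n k : ℕ} {σ τ : Ed} (H : Ch n σ τ) (h : k ≤ n) : Dp k σ τ := ⟨n, h, H⟩

theorem Next.dp {σ τ : Ed} (H : Next σ τ) : Dp 1 σ τ := H.ch.dp le_rfl

theorem dp_refl (ω : Ed) : Dp 0 ω ω := ⟨0, le_rfl, Ch.refl ω⟩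

theorem Dp.mono {k k' : ℕ} {σ τ : Ed} (H : Dp k σ τ) (h : k' ≤ k) : Dp k' σ τ := by
  obtain ⟨n, h1, h2⟩ := H
  exact ⟨n, h.trans h1, h2⟩

theorem Dp.trans {a b : ℕ} {σ τ ρ : Ed} (H : Dp a σ τ) (H' : Dp b τ ρ) : Dp (a + b) σ ρ := by
  obtain ⟨n, h1, h2⟩ := H
  obtain ⟨m, h3, h4⟩ := H'
  exact ⟨n + m, Nat.add_le_add h1 h3, h2.trans h4⟩

theorem Dp.rev {k : ℕ} {σ τ : Ed} (H : Dp k σ τ) : Dp k τ.rev σ.rev := by
  obtain ⟨n, h1, h2⟩ := H
  exact ⟨n, h1, h2.rev⟩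

theorem Dp.smul {k : ℕ} {σ τ : Ed} (H : Dp k σ τ) (f : FreeGroup Bool) :
    Dp k (f • σ) (f • τ) := by
  obtain ⟨n, h1, h2⟩ := H
  exact ⟨n, h1, h2.smul f⟩

theorem dp_zero {σ τ : Ed} : Dp 0 σ τ ↔ σ = τ ∨ Dp 1 σ τ := by
  constructor
  · rintro ⟨n, -, h⟩
    cases n with
    | zero => exact Or.inl h.zero
    | succ n => exact Or.inr ⟨n + 1, Nat.le_add_left 1 n, h⟩
  · rintro (rfl | h)
    · exact dp_refl _
    · exact h.mono (Nat.zero_le 1)

/-- split off exactly `a` steps at the bottom -/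
theorem Dp.split {a b : ℕ} {σ ρ : Ed} (H : Dp (a + b) σ ρ) : ∃ τ, Ch a σ τ ∧ Dp b τ ρ := by
  obtain ⟨n, h1, h2⟩ := H
  obtain ⟨m, rfl⟩ : ∃ m, n = a + m := ⟨n - a, by omega⟩
  obtain ⟨τ, h3, h4⟩ := h2.split
  exact ⟨τ, h3, m, by omega, h4⟩

/-- split off exactly `b` steps at the top -/
theorem Dp.split' {a b : ℕ} {σ ρ : Ed} (H : Dp (a + b) σ ρ) : ∃ τ, Dp a σ τ ∧ Ch b τ ρ := by
  obtain ⟨n, h1, h2⟩ := H
  obtain ⟨m, rfl⟩ : ∃ m, n = m + b := ⟨n - b, by omega⟩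
  obtain ⟨τ, h3, h4⟩ := h2.split
  exact ⟨τ, ⟨m, by omega, h3⟩, h4⟩

theorem Walk.trans {ok : Ed → Prop} {u v w : Vx} (H : Walk ok u v) (H' : Walk ok v w) :
    Walk ok u w := by
  induction H' with
  | refl => exact H
  | step _ h2 ih => exact Walk.step ih h2

theorem Walk.mono {ok ok' : Ed → Prop} (h : ∀ ω, ok ω → ok' ω) {u v : Vx} (H : Walk ok u v) :
    Walk ok' u v := by
  induction H with
  | refl => exact Walk.refl
  | step _ h2 ih => exact Walk.step ih (h _ h2)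

theorem Walk.symm {ok : Ed → Prop} (h : ∀ ω, ok ω → ok ω.rev) {u v : Vx} (H : Walk ok u v) :
    Walk ok v u := by
  induction H with
  | refl => exact Walk.refl
  | @step ω _ h2 ih =>
    have h3 : Walk ok ω.rev.tail ω.rev.head := Walk.step Walk.refl (h _ h2)
    rw [Ed.head_rev, Ed.tail_rev] at h3
    exact h3.trans ih

theorem Walk.smul {ok ok' : Ed → Prop} (f : FreeGroup Bool) (h : ∀ ω, ok ω → ok' (f • ω))
    {u v : Vx} (H : Walk ok u v) : Walk ok' (f • u) (f • v) := by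
  induction H with
  | refl => exact Walk.refl
  | @step ω _ h2 ih =>
    rw [← Ed.smul_head]
    exact Walk.step ih (h _ h2)

/-- `FreeGroup.induction_on` or `Subgroup.closure_induction_right` -/
theorem walk_all (u v : Vx) : Walk (fun _ => True) u v := by
  have one : ∀ ω : Ed, Walk (fun _ => True) ω.tail ω.head :=
    fun ω => Walk.step Walk.refl trivial
  have br : ∀ (f : FreeGroup Bool) (s s' : Bool), Walk (fun _ => True) (Vx.mk f s) ⟨f, s'⟩ := by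
    intro f s s'
    cases s <;> cases s'
    · exact Walk.refl
    · exact one ⟨f, false, none⟩
    · exact one ⟨f, true, none⟩
    · exact Walk.refl
  have key : ∀ g : FreeGroup Bool, Walk (fun _ => True) (Vx.mk 1 false) ⟨g, false⟩ := by
    intro g
    induction g using FreeGroup.induction_on with
    | C1 => exact Walk.refl
    | of s =>
      have h := one ⟨1, s, some true⟩
      have h' : Walk (fun _ => True) (Vx.mk 1 s) ⟨1 * FreeGroup.of s, s⟩ := h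
      rw [one_mul] at h'
      exact ((br 1 false s).trans h').trans (br _ s false)
    | inv_of s _ =>
      have h := one ⟨1, s, some false⟩
      have h' : Walk (fun _ => True) (Vx.mk 1 s) ⟨1 * (FreeGroup.of s)⁻¹, s⟩ := h
      rw [one_mul] at h'
      exact ((br 1 false s).trans h').trans (br _ s false)
    | mul a b ha hb =>
      have h := Walk.smul (ok' := fun _ => True) a (fun _ _ => trivial) hb
      have h' : Walk (fun _ => True) (Vx.mk (a * 1) false) ⟨a * b, false⟩ := h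
      rw [mul_one] at h'
      exact ha.trans h'
  have key2 : ∀ w : Vx, Walk (fun _ => True) (Vx.mk 1 false) w :=
    fun w => (key w.f).trans (br w.f false w.s)
  exact ((key2 u).symm fun _ _ => trivial).trans (key2 v)

theorem t1_turn {ω ω' t : Ed} (hn : Next ω' ω) (h : Dp 0 ω.rev t) :
    Dp 0 ω' t.rev ∨ Dp 0 ω' t ∨ Dp 0 ω'.rev t := by
  rcases dp_zero.1 h with h | h
  · refine Or.inl ?_
    rw [← h, Ed.rev_rev]
    exact hn.dp.mono (Nat.zero_le _)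
  · obtain ⟨w, h1, h2⟩ := Dp.split (a := 1) (b := 0) h
    have h3 := ch_one.1 h1
    by_cases he : ω' = w.rev
    · refine Or.inr (Or.inr ?_)
      rw [he, Ed.rev_rev]
      exact h2
    · have h4 : Next ω' w := ⟨hn.1.trans h3.1, he⟩
      exact Or.inr (Or.inl ((h4.dp.trans h2).mono (Nat.zero_le _)))

/-- The six alternatives are stable under reversal of `σ` and under passing from `σ` to an edge
`σ'` with `Next σ' σ`; hence if they hold for all edges out of a vertex they hold for all edges out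
of a neighbour; `walk_all`. -/
theorem ed_cmp (σ τ : Ed) : σ = τ ∨ σ = τ.rev ∨ Dp 1 σ τ ∨ Dp 1 σ τ.rev ∨ Dp 1 σ.rev τ ∨
    Dp 1 σ.rev τ.rev := by
  let R : Ed → Prop := fun ω =>
    Dp 0 ω τ ∨ Dp 0 ω τ.rev ∨ Dp 0 ω.rev τ ∨ Dp 0 ω.rev τ.rev
  have hrev : ∀ ω, R ω → R ω.rev := by
    intro ω h
    show Dp 0 ω.rev τ ∨ Dp 0 ω.rev τ.rev ∨ Dp 0 ω.rev.rev τ ∨ Dp 0 ω.rev.rev τ.rev
    rw [Ed.rev_rev]
    rcases h with h | h | h | h
    · exact Or.inr (Or.inr (Or.inl h))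
    · exact Or.inr (Or.inr (Or.inr h))
    · exact Or.inl h
    · exact Or.inr (Or.inl h)
  have hnext : ∀ ω ω', Next ω' ω → R ω → R ω' := by
    intro ω ω' hn h
    rcases h with h | h | h | h
    · exact Or.inl ((hn.dp.trans h).mono (Nat.zero_le _))
    · exact Or.inr (Or.inl ((hn.dp.trans h).mono (Nat.zero_le _)))
    · rcases t1_turn hn h with h | h | h
      · exact Or.inr (Or.inl h)
      · exact Or.inl h
      · exact Or.inr (Or.inr (Or.inl h))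
    · rcases t1_turn hn h with h | h | h
      · rw [Ed.rev_rev] at h
        exact Or.inl h
      · exact Or.inr (Or.inl h)
      · exact Or.inr (Or.inr (Or.inr h))
  have hall : ∀ v, Walk (fun _ => True) τ.tail v → ∀ ω : Ed, ω.tail = v → R ω := by
    intro v hv
    induction hv with
    | refl =>
      intro ω hω
      by_cases h : ω = τ
      · rw [h]
        exact Or.inl (dp_refl τ)
      · exact Or.inr (Or.inl ((next_sib hω h).dp.mono (Nat.zero_le _)))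
    | @step ρ _ _ ih =>
      intro ω hω
      by_cases h : ω = ρ.rev
      · rw [h]
        exact hrev ρ (ih ρ rfl)
      · exact hnext ρ ω ⟨hω, h⟩ (ih ρ rfl)
  rcases hall σ.tail (walk_all _ _) σ rfl with h | h | h | h
  · rcases dp_zero.1 h with h | h
    · exact Or.inl h
    · exact Or.inr (Or.inr (Or.inl h))
  · rcases dp_zero.1 h with h | h
    · exact Or.inr (Or.inl h)
    · exact Or.inr (Or.inr (Or.inr (Or.inl h)))
  · rcases dp_zero.1 h with h | h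
    · refine Or.inr (Or.inl ?_)
      rw [← h, Ed.rev_rev]
    · exact Or.inr (Or.inr (Or.inr (Or.inr (Or.inl h))))
  · rcases dp_zero.1 h with h | h
    · exact Or.inl (Ed.rev_inj.1 h)
    · exact Or.inr (Or.inr (Or.inr (Or.inr (Or.inr h))))

end Pool.Agent.Lib.MP_3467cd_al.Cu
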