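import Pool.Agent.Lib.MP_3467cd_al.CuG1
import Pool.Agent.Lib.MP_3467cd_al.CuG3
import Pool.Agent.Lib.MP_3467cd_al.CuT1

open Pointwise

namespace Pool.Agent.Lib.MP_3467cd_al.Cu

theorem co_mul (f g : FreeGroup Bool) : co (f * g) = co f + co g := by
  simp [co]

theorem l1_co_of (s : Bool) : co (FreeGroup.of s) = cond s (0, 1) (1, 0) := by
  simp [co]

theorem l1_co_inv (f : FreeGroup Bool) : co f⁻¹ = -co f := by
  simp [co]

theorem l1_co_zpow (f : FreeGroup Bool) (k : ℤ) : co (f ^ k) = k • co f := by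
  simp [co]

theorem co_surj (t : ℤ × ℤ) : ∃ f, co f = t := by
  refine ⟨FreeGroup.of false ^ t.1 * FreeGroup.of true ^ t.2, ?_⟩
  rw [co_mul, l1_co_zpow, l1_co_zpow, l1_co_of, l1_co_of]
  ext <;> simp

theorem prE_rev (ω : Ed) : prE ω.rev = grev (prE ω) := by
  obtain ⟨f, s, d⟩ := ω
  rcases d with _ | _ | _ <;> cases s <;>
    simp [prE, prV, Ed.tail, Ed.rev, grev, gmv, co_mul, l1_co_inv, l1_co_of, sub_eq_add_neg]

theorem prE_smul (f : FreeGroup Bool) (ω : Ed) : prE (f • ω) = gsh (co f) (prE ω) := by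
  have h : prE (f • ω) = (((co (f * ω.f)).1, (co (f * ω.f)).2, ω.s), ω.d) := rfl
  rw [h, co_mul, add_comm]
  rfl

theorem prE_up (ω : Ed) (b : Bool) : prE (ω.up b) = gup (prE ω) b := by
  rw [Ed.up, prE_rev]
  rfl

theorem Ch.prE {n : ℕ} {σ τ : Ed} (H : Ch n σ τ) :
    ∃ bs : List Bool, bs.length = n ∧ prE τ = gupL (prE σ) bs := by
  induction H with
  | refl ω => exact ⟨[], rfl, rfl⟩
  | step h _ ih =>
    obtain ⟨b, rfl⟩ := next_iff_up.1 h
    obtain ⟨bs, h1, h2⟩ := ih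
    exact ⟨b :: bs, by rw [List.length_cons, h1], by rw [h2, prE_up]; rfl⟩

theorem GWalk.lift {bad : GE → Prop} {v : Vx} {w : GV} (H : GWalk bad (prV v) w) :
    ∃ w', prV w' = w ∧ Walk (fun ω => ¬ bad (gcan (prE ω))) v w' := by
  induction H with
  | refl => exact ⟨v, rfl, Walk.refl⟩
  | @step w d _ h ih =>
    obtain ⟨w', rfl, h2⟩ := ih
    exact ⟨(Ed.mk w'.f w'.s d).head, congrArg Prod.fst (prE_rev ⟨w'.f, w'.s, d⟩),
      Walk.step (ω := ⟨w'.f, w'.s, d⟩) h2 h⟩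

theorem exists_N (M : ℕ) (hM : 1 ≤ M) : ∃ N : Subgroup (FreeGroup Bool), N.Normal ∧
    N.FiniteIndex ∧ ∀ f, f ∈ N ↔ (M : ℤ) ∣ (co f).1 ∧ (M : ℤ) ∣ (co f).2 := by
  have : NeZero M := ⟨by omega⟩
  let φ : FreeGroup Bool →* Multiplicative (ZMod M × ZMod M) :=
    MonoidHom.mk' (fun f => Multiplicative.ofAdd (((co f).1 : ZMod M), ((co f).2 : ZMod M)))
      fun f g => by
        rw [← ofAdd_add, co_mul, Prod.fst_add, Prod.snd_add, Int.cast_add, Int.cast_add,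
          Prod.mk_add_mk]
  refine ⟨φ.ker, inferInstance, inferInstance, fun f => ?_⟩
  rw [MonoidHom.mem_ker, ← ZMod.intCast_zmod_eq_zero_iff_dvd, ← ZMod.intCast_zmod_eq_zero_iff_dvd,
    ← Prod.mk_eq_zero]
  exact ofAdd_eq_one

theorem l1_gshE_zero (M : ℤ) (u : GE) : gshE (M * 0, M * 0) u = u := by
  simp [gshE]

theorem l1_GA_shift {I : Type} {M : ℤ} {ix : I × Col → ℕ} {ty : I → Ty} {u : GE}
    (H : GA M ix ty u) (a b : ℤ) : GA M ix ty (gshE (M * a, M * b) u) := by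
  obtain ⟨l, a', b', h⟩ := H
  refine ⟨l, a' + a, b' + b, ?_⟩
  rcases h with rfl | rfl
  · left
    simp [gshE, mul_add, add_assoc]
  · right
    simp [gshE, mul_add, add_assoc]

/-- `ix` an injection of `I × Col` into `Fin K`, `M = 300 * (K + 1)`,
`Cut ω = GA M ix ty (gcan (prE ω))`, `y0` any vertex, `e l` a lift of `gE (ix l) (ty l.1)` whose
tail is reached from `y0` (`grid_conn`, `GWalk.lift`). `pair`: the colour is the list of the three
bits, `f` from `exists_smul_of_ty`. -/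
theorem exists_locSys {I : Type} [Finite I] {ty : I → Ty} (hs : ∀ t, ∃ i, ty i = t) :
    Nonempty (LocSys I ty) := by
  obtain ⟨K, ⟨eq⟩⟩ := Finite.exists_equiv_fin (I × Col)
  let ix : I × Col → ℕ := fun l => eq l
  have hi : Function.Injective ix := Fin.val_injective.comp eq.injective
  have hK : ∀ l, ix l < K := fun l => (eq l).2
  obtain ⟨N, hN, hN', hmem⟩ := exists_N (300 * (K + 1)) (by omega)
  have hco : ∀ n ∈ N, ∃ a b : ℤ, co n = (300 * ((K : ℤ) + 1) * a, 300 * ((K : ℤ) + 1) * b) := by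
    intro n hn
    obtain ⟨⟨a, ha⟩, b, hb⟩ := (hmem n).1 hn
    push_cast at ha hb
    exact ⟨a, b, Prod.ext ha hb⟩
  have hA := gfamily_GA hi hK ty
  have he : ∀ l : I × Col, ∃ e : Ed, prE e = gE (ix l) (ty l.1) ∧
      Walk (fun ω => ¬ GA (300 * ((K : ℤ) + 1)) ix ty (gcan (prE ω))) ⟨1, false⟩ e.tail := by
    intro l
    obtain ⟨w, h1, h2⟩ := (grid_conn hA hA (prV ⟨1, false⟩) (gE (ix l) (ty l.1)).1).lift
    exact ⟨⟨w.f, w.s, (ty l.1).2⟩, Prod.ext h1 rfl, h2.mono fun ω h h' => h (Or.inl h')⟩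
  choose e he he' using he
  have hty : ∀ l, (e l).ty = ty l.1 := fun l =>
    Prod.ext (congrArg (fun ω : GO => ω.1.2.2) (he l)) (congrArg (fun ω : GO => ω.2) (he l))
  have h6 : ∀ m ∈ N, ∀ l l' n, Ch n (e l) (m • e l').rev → 6 ≤ n := by
    intro m hm l l' n h
    obtain ⟨a, b, hab⟩ := hco m hm
    obtain ⟨bs, h1, h2⟩ := h.prE
    rw [prE_rev, prE_smul, he, he, hab] at h2
    by_contra h3
    exact gE_six hi hK ty l l' a b bs (by omega) h2.symm
  refine ⟨{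
    N := N
    normal := hN
    fi := hN'
    Cut := fun ω => GA (300 * ((K : ℤ) + 1)) ix ty (gcan (prE ω))
    e := e
    y0 := ⟨1, false⟩
    surj := hs
    cut_rev := fun ω h => by rwa [prE_rev, gcan_grev]
    cut_smul := fun n hn ω h => ?_
    e_ty := hty
    e_cut := fun l => ⟨l, 0, 0, Or.inl (by rw [l1_gshE_zero, he])⟩
    e_tail := he'
    e_inj := fun n hn l l' h => ?_
    sp3 := fun σ τ n h1 h2 h => ?_
    sp6 := h6
    conn := fun f v w => ?_
    gen := fun f hf => ?_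
    pair := fun σ τ h => ?_ }⟩
  · obtain ⟨a, b, hab⟩ := hco n hn
    rw [prE_smul, gcan_gsh, hab]
    exact l1_GA_shift h a b
  · obtain ⟨a, b, hab⟩ := hco n hn
    have h1 := congrArg prE h
    rw [prE_smul, he, he, hab] at h1
    exact gE_inj hi hK ty h1
  · obtain ⟨bs, rfl, h3⟩ := h.prE
    rcases bs with _ | ⟨b, _ | ⟨b', _ | ⟨b'', bs⟩⟩⟩
    · exact Or.inl rfl
    · exact (hA.far _ _ h1 h2 ⟨_, b, b, rfl, Or.inl (congrArg gcan h3)⟩).elim
    · exact (hA.far _ _ h1 h2 ⟨_, b, b', rfl, Or.inr (congrArg gcan h3)⟩).elim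
    · exact Or.inr (by simp)
  · obtain ⟨w', h1, h2⟩ := (grid_conn hA (hA.shift (co f)) (prV v) (prV w)).lift
    have h3 : co w'.f = co w.f :=
      Prod.ext (congrArg (fun x : GV => x.1) h1) (congrArg (fun x : GV => x.2.1) h1)
    have h4 : (w'.f * w.f⁻¹) • w = w' :=
      Vx.ext (inv_mul_cancel_right _ _) (congrArg (fun x : GV => x.2.2) h1).symm
    refine ⟨w'.f * w.f⁻¹, (hmem _).2 ?_, ?_⟩
    · rw [co_mul, l1_co_inv, h3, add_neg_cancel]
      exact ⟨dvd_zero _, dvd_zero _⟩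
    · rw [h4]
      refine h2.mono fun ω h => ?_
      rw [prE_smul, gcan_gsh]
      exact not_or.1 h
  · by_contra h
    push Not at h
    refine hf ((hmem f).2 ?_)
    push_cast
    refine gE_gen hi hK hs (co f) fun l => ?_
    have h1 := h l
    rwa [prE_smul, gcan_gsh, he] at h1
  · obtain ⟨bs, h1, h2⟩ := h.prE
    obtain ⟨b1, b2, b3, rfl⟩ := List.length_eq_three.1 h1
    obtain ⟨i, hi'⟩ := hs σ.ty
    obtain ⟨f, hf⟩ := Ed.exists_smul_of_ty (hi'.symm.trans (hty (i, b1, b2, b3)).symm)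
    refine ⟨f, (i, b1, b2, b3), hf, ⟨(i, b1, b2, b3), 0, 0, Or.inr ?_⟩, fun n hn l' h3 => ?_⟩
    · rw [l1_gshE_zero, ← he, ← hf, prE_smul, prE_smul, h2, gB, gup_gsh, gup_gsh, gup_gsh]
      rfl
    · have h4 := h.smul f
      rw [hf, ← Ed.rev_rev (f • τ), h3] at h4
      have := h6 n hn _ _ _ h4
      omega

end Pool.Agent.Lib.MP_3467cd_al.Cu
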