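import Pool.Agent.Lib.MP_3467cd_al.CuF1
import Pool.Agent.Lib.MP_3467cd_al.CuL1

open Pointwise

namespace Pool.Agent.Lib.MP_3467cd_al.Cu

variable {G : Type} [Group G] {V : Type} [MulAction G V] {X : SimpleGraph V}

theorem f2_two {a b ω τ : Ed} (ha : Next a τ) (hb : Next b τ) (hab : a ≠ b) (h : Next ω τ) :
    ω = a ∨ ω = b := by
  obtain ⟨s, -, -, hall⟩ := exists_sib ha
  rcases hall b hb with e | e
  · exact (hab e.symm).elim
  · rw [e]; exact hall ω h

theorem f2_both (F : PreFrame G X) {k : Set V} {ω : Ed} (h1 : F.μ ω ⊆ k) (h2 : F.μ ω ⊆ kᶜ) :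
    False := by
  obtain ⟨x, hx⟩ := (F.μ_half ω).nonempty
  exact h2 hx (h1 hx)

namespace PreFrame
variable (F : PreFrame G X)

theorem Loc.compl {F : PreFrame G X} {k : Set V} {σ : Ed} (H : F.Loc k σ) :
    F.Loc kᶜ σ.rev := by
  refine ⟨H.2, fun ω h => ?_⟩
  rw [Ed.rev_rev] at h
  rw [compl_compl]
  exact H.1 ω h

theorem Loc.smul {F : PreFrame G X} {k : Set V} {σ : Ed} (H : F.Loc k σ) (f : FreeGroup Bool) :
    F.Loc (F.ι f • k) (f • σ) := by
  have key : ∀ (τ : Ed) (m : Set V), (∀ ω, Next ω τ → F.μ ω ⊆ m) →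
      ∀ ω, Next ω (f • τ) → F.μ ω ⊆ F.ι f • m := by
    intro τ m hm ω h
    have h' := h.smul f⁻¹
    rw [inv_smul_smul] at h'
    have e : F.μ ω = F.ι f • F.μ (f⁻¹ • ω) := by rw [← F.μ_smul, smul_inv_smul]
    rw [e]
    exact Set.smul_set_mono (hm _ h')
  refine ⟨key σ k H.1, fun ω h => ?_⟩
  rw [Ed.smul_rev] at h
  rw [← Set.smul_set_compl]
  exact key σ.rev kᶜ H.2 ω h

theorem Loc.μ_sub {F : PreFrame G X} {k : Set V} {σ ω : Ed} (H : F.Loc k σ) (h : Dp 1 ω σ) :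
    F.μ ω ⊆ k := by
  obtain ⟨τ, h1, h2⟩ := Dp.split' (a := 0) (b := 1) h
  exact (F.μ_mono h1).trans (H.1 τ (ch_one.1 h2))

theorem Loc.sub_ν {F : PreFrame G X} {k : Set V} {σ τ : Ed} (H : F.Loc k σ) (h : Dp 1 σ τ) :
    k ⊆ F.ν τ := by
  exact Set.subset_compl_comm.1 (H.compl.μ_sub h.rev)

theorem Loc.end {F : PreFrame G X} {k : Set V} {σ : Ed} (H : F.Loc k σ) : F.End 1 k := by
  obtain ⟨a, -, -, ha, -, -⟩ := exists_two_next σ
  exact ⟨a, by rw [one_smul]; exact H.1 a ha⟩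

/-- `ed_cmp`; if `Dp 1 σ ω` use the sibling of `σ` -/
theorem Loc.le {F : PreFrame G X} {k : Set V} {σ ω : Ed} (H : F.Loc k σ) (h : F.μ ω ⊆ k) :
    Dp 0 ω σ := by
  obtain ⟨a, -, -, ha, -, -⟩ := exists_two_next σ.rev
  rcases ed_cmp ω σ with e | e | e | e | e | e
  · rw [e]; exact dp_refl σ
  · subst e
    exact (f2_both F ((F.μ_mono ha.dp).trans h) (H.2 a ha)).elim
  · exact e.mono (Nat.zero_le _)
  · exact (f2_both F h (H.compl.μ_sub e)).elim
  · have e' := e.rev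
    rw [Ed.rev_rev] at e'
    exact (f2_both F ((F.μ_mono (ha.dp.trans e')).trans h) (H.2 a ha)).elim
  · have e' := e.rev
    rw [Ed.rev_rev, Ed.rev_rev] at e'
    obtain ⟨τ, h1, h2⟩ := Dp.split (a := 1) (b := 0) e'
    have h1' := ch_one.1 h1
    obtain ⟨s, hs, hs', -⟩ := exists_sib h1'
    exact (f2_both F ((F.μ_mono (hs'.dp.trans h2)).trans h)
      (H.2 s (next_sib (hs'.1.trans h1'.1.symm) hs))).elim

/-- both edges continuing `τ` lie ahead of `σ` -/
theorem Loc.mono {F : PreFrame G X} {k k' : Set V} {τ σ : Ed} (H : F.Loc k τ)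
    (H' : F.Loc k' σ) (h : k ⊆ k') : Dp 0 τ σ := by
  have key : ∀ a b, a ≠ b → Next a τ → Next b τ → Dp 1 a σ → Dp 0 b σ → Dp 0 τ σ := by
    intro a b hab ha hb h1 h2
    obtain ⟨w, w1, w2⟩ := Dp.split (a := 1) (b := 0) h1
    have hba : Next b a.rev := next_sib (hb.1.trans ha.1.symm) hab.symm
    rcases f2_two ha.rev hba hb.2.symm (ch_one.1 w1).rev with e | e
    · rw [← Ed.rev_inj.1 e]; exact w2
    · rw [← e] at h2
      exact (F.acyc.2 _ _ (w2.rev.trans h2) (dp_refl σ.rev)).elim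
  obtain ⟨a, b, hab, ha, hb, -⟩ := exists_two_next τ
  have da := H'.le ((H.1 a ha).trans h)
  have db := H'.le ((H.1 b hb).trans h)
  rcases dp_zero.1 da with e | e
  · rcases dp_zero.1 db with e' | e'
    · exact (hab (e.trans e'.symm)).elim
    · exact key b a hab.symm hb ha e' da
  · exact key a b hab ha hb e db

theorem Loc.unique {F : PreFrame G X} {k : Set V} {σ σ' : Ed} (H : F.Loc k σ)
    (H' : F.Loc k σ') : σ = σ' := by
  rcases dp_zero.1 (H.mono H' subset_rfl) with e | e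
  · exact e
  · exact (F.acyc.1 σ (e.trans (H'.mono H subset_rfl))).elim

theorem loc_of_sub {k : Set V} {ω : Ed} (h1 : F.μ ω ⊆ k) (h2 : F.μ ω.rev ⊆ kᶜ) : F.Loc k ω := by
  exact ⟨fun a ha => (F.μ_mono ha.dp).trans h1, fun a ha => (F.μ_mono ha.dp).trans h2⟩

theorem loc_z (ω : Ed) : F.Loc (F.z ω) ω := by
  refine F.loc_of_sub (F.μ_sub_z ω) ?_
  rw [← F.z_rev]
  exact F.μ_sub_z _

/-- `dp_of_disjoint`, then induction on the chain from `β` to `α.rev`. In a step `Next β w` with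
`μ w` not inside `kᶜ`: `μ w.rev ⊆ k` (`sd_rev`, `clean_right`), the sibling `s` of `β` is clean
because `μ s.rev` meets both sides; the edge is `w.rev` or `β.rev`. -/
theorem exists_loc {k : Set V} (hk : IsHalf X k) (h1 : F.End 1 k) (h2 : F.End 1 kᶜ) :
    ∃ σ, F.Loc k σ := by
  obtain ⟨α, hα⟩ := h1
  obtain ⟨β, hβ⟩ := h2
  rw [one_smul] at hα hβ
  have meet : ∀ (a : Ed) (A m : Set V), F.μ a ⊆ A → F.μ a ⊆ m → (A ∩ m).Nonempty :=
    fun a A m p q => (F.μ_half a).nonempty.mono (Set.subset_inter p q)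
  obtain ⟨n, -, hn⟩ := F.dp_of_disjoint (α := α) (β := β)
    (Set.disjoint_of_subset hα hβ disjoint_compl_right)
  induction n generalizing β with
  | zero =>
    rw [hn.zero] at hβ
    exact ⟨α, F.loc_of_sub hα hβ⟩
  | succ n ih =>
    obtain ⟨w, hw, hn'⟩ := ch_succ.1 hn
    by_cases hc : F.μ w ⊆ kᶜ
    · exact ih w hc hn'
    have m1 : (F.μ w ∩ k).Nonempty := by
      obtain ⟨x, hx, hx'⟩ := Set.not_subset.1 hc
      exact ⟨x, hx, not_not.1 hx'⟩
    have hαw : F.μ α ⊆ F.μ w.rev := by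
      have := hn'.rev
      rw [Ed.rev_rev] at this
      exact F.μ_mono (this.dp (Nat.zero_le _))
    have hwk : F.μ w.rev ⊆ k := by
      rcases (F.sd_rev w).clean_right hk m1 (meet β _ _ (F.μ_mono hw.dp) hβ) with e | e
      · exact e
      · exact (f2_both F hα (hαw.trans e)).elim
    obtain ⟨s, hs, hs', hall⟩ := exists_sib hw
    have n1 : Next β s.rev := next_sib (hw.1.trans hs'.1.symm) hs.symm
    have n2 : Next s β.rev := next_sib (hs'.1.trans hw.1.symm) hs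
    have hcl := (F.sd_rev s.rev).clean_right hk (meet w.rev _ _ (F.μ_mono hs'.rev.dp) hwk)
      (meet β _ _ (F.μ_mono n1.dp) hβ)
    rw [Ed.rev_rev] at hcl
    rcases hcl with e | e
    · refine ⟨β.rev, fun ω h => ?_, fun ω h => ?_⟩
      · rcases f2_two hw.rev n2 hs'.2.symm h with e' | e'
        · rw [e']; exact hwk
        · rw [e']; exact e
      · rw [Ed.rev_rev] at h
        exact (F.μ_mono h.dp).trans hβ
    · refine ⟨w.rev, fun ω h => (F.μ_mono h.dp).trans hwk, fun ω h => ?_⟩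
      rw [Ed.rev_rev] at h
      rcases hall ω h with e' | e'
      · rw [e']; exact hβ
      · rw [e']; exact e

theorem loc_finite (hM : IsMedian X) (σ : Ed) : {k | IsHalf X k ∧ F.Loc k σ}.Finite := by
  obtain ⟨a, -, -, ha, -, -⟩ := exists_two_next σ
  obtain ⟨b, -, -, hb, -, -⟩ := exists_two_next σ.rev
  obtain ⟨x, hx⟩ := (F.μ_half a).nonempty
  obtain ⟨y, hy⟩ := (F.μ_half b).nonempty
  exact (hM.sep_finite y x).subset fun k hk => ⟨hk.1, hk.2.2 b hb hy, hk.2.1 a ha hx⟩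

end PreFrame

namespace Frame
variable (F : Frame G X)

/-- `mal` for `g⁻¹` -/
theorem mal' {g : G} (hg : g ∉ F.ι.range) {α β τ : Ed} (h1 : F.μ α ⊆ g • F.μ τ)
    (h2 : F.μ β ⊆ g • F.z τ.rev) : False := by
  refine hg (inv_mem_iff.1 (F.mal g⁻¹ β α τ ?_ ?_))
  · exact Set.smul_set_subset_iff_subset_inv_smul_set.2 (by rwa [inv_inv])
  · exact Set.smul_set_subset_iff_subset_inv_smul_set.2 (by rwa [inv_inv])

/-- the four alternatives of `SD.clean` for `g • ν ρ` inside `g • μ w.rev`; two are excluded by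
`mal'` -/
theorem clean2 (hc : IsCubulation G X) {g : G} (hg : g ∉ F.ι.range) {α w ρ : Ed}
    (h1 : F.μ α ⊆ g • F.μ w) (h2 : Next ρ w.rev) {m : Set V} (hm : IsHalf X m)
    (e1 : F.End 1 m) (e2 : F.End 1 mᶜ) : Clean (g • F.ν ρ) m := by
  have key : ∀ m' : Set V, F.End 1 m' → ¬ g • (F.μ w.rev)ᶜ ⊆ m'ᶜ := by
    rintro m' ⟨β, hβ⟩ h
    rw [one_smul] at hβ
    rw [Set.smul_set_compl, Set.compl_subset_compl] at h
    exact F.mal' hg h1 ((hβ.trans h).trans (Set.smul_set_mono (F.μ_sub_z w.rev)))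
  rcases ((F.next ρ w.rev h2).smul hc g).clean m hm with e | e | e
  · exact e
  · exact (key mᶜ e2 (by rwa [compl_compl])).elim
  · exact (key m e1 e).elim

/-- `I` = pairs of a type `t` and a halfspace located at `base t`;
`hb (i, c) = ι (e (i, c)).f • i.k`. -/
theorem exists_wd (hc : IsCubulation G X) : ∃ D : WD G X, D.F = F := by
  let I : Type := {p : Ty × Set V // IsHalf X p.2 ∧ F.Loc p.2 (base p.1)}
  have fin : Finite I := by
    have h : {p : Ty × Set V | IsHalf X p.2 ∧ F.Loc p.2 (base p.1)}.Finite := by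
      refine (Set.Finite.prod Set.finite_univ
        (Set.finite_iUnion fun t : Ty => F.loc_finite hc.median (base t))).subset ?_
      intro p hp
      exact ⟨trivial, Set.mem_iUnion.2 ⟨p.1, hp⟩⟩
    exact h.to_subtype
  obtain ⟨S⟩ := exists_locSys (I := I) (ty := fun i => i.1.1)
    fun t => ⟨⟨(t, F.z (base t)), F.z_half _, F.loc_z _⟩, rfl⟩
  have he : ∀ l, S.e l = (S.e l).f • base l.1.1.1 := fun l => by
    have := Ed.eq_smul_base (S.e l)
    rwa [S.e_ty] at this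
  have hloc : ∀ l : I × Col, F.Loc (F.ι (S.e l).f • l.1.1.2) (S.e l) := fun l => by
    have := l.1.2.2.smul (S.e l).f
    rwa [← he] at this
  refine ⟨⟨I, fin, fun i => i.1.1, F, S, fun l => F.ι (S.e l).f • l.1.1.2,
    fun l => l.1.2.1.smul hc _, hloc, ?_, ?_⟩, rfl⟩
  · intro k σ hk hσ c
    have hb : σ.f⁻¹ • σ = base σ.ty := by
      rw [inv_smul_eq_iff]; exact Ed.eq_smul_base σ
    let i : I := ⟨(σ.ty, F.ι σ.f⁻¹ • k), hk.smul hc _, hb ▸ hσ.smul σ.f⁻¹⟩
    refine ⟨i, σ.f * (S.e (i, c)).f⁻¹, ?_, ?_⟩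
    · show k = F.ι (σ.f * (S.e (i, c)).f⁻¹) • F.ι (S.e (i, c)).f • F.ι σ.f⁻¹ • k
      rw [smul_smul, smul_smul, ← map_mul, ← map_mul]
      simp
    · rw [mul_smul, inv_smul_eq_iff.2 (he (i, c))]
      exact Ed.eq_smul_base σ
  · intro f i i' c h
    have h1 := (hloc (i, c)).smul f
    have h' : F.ι f • F.ι (S.e (i, c)).f • i.1.2 = F.ι (S.e (i', c)).f • i'.1.2 := h
    rw [h'] at h1
    have h2 : f • S.e (i, c) = S.e (i', c) := h1.unique (hloc (i', c))
    have h3 : f * (S.e (i, c)).f = (S.e (i', c)).f := congrArg Ed.f h2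
    have h4 : i.1.1 = i'.1.1 := by
      have := congrArg Ed.ty h2
      rwa [Ed.smul_ty, S.e_ty, S.e_ty] at this
    rw [smul_smul, ← map_mul, h3] at h'
    have h5 : i = i' := Subtype.ext (Prod.ext h4 (smul_left_cancel _ h'))
    subst h5
    exact ⟨Ed.eq_one_of_smul h2, rfl⟩

end Frame

end Pool.Agent.Lib.MP_3467cd_al.Cu
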