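import Pool.Agent.Lib.MP_3467cd_al.GoodL

open Pointwise

namespace Pool.Agent.Lib.MP_3467cd_al

variable {G : Type} [Group G] {V : Type} [MulAction G V] {X : SimpleGraph V}

/-- pairwise disjoint good halfspaces can be shrunk to pairwise tight ones -/
theorem exists_tight_family (hc : IsCubulation G X) {L : ℕ} (hB : Bridge X L) {ι : Type}
    (h : ι → Set V) (hg : ∀ i, Good X (h i)) (hd : ∀ i j, i ≠ j → Disjoint (h i) (h j)) :
    ∃ k : ι → Set V, (∀ i, Good X (k i)) ∧ (∀ i, k i ⊆ h i) ∧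
      ∀ i j, i ≠ j → Tight X (k i) (k j) := by
  have hM := hc.median
  choose k hk hn using fun i => hc.deep_nest (hg i).1 (hg i).2.1 hB.1
  refine ⟨k, hk, fun i => (hn i).subset, fun i j hij => hB.2 _ _ (hk i).1 ?_⟩
  refine (hn j).enlarge hB.1 (hk j).1 ((hk i).1.compl hM) subset_rfl fun x hx hx' => ?_
  exact Set.disjoint_left.1 (hd i j hij) ((hn i).subset hx') hx

/-- a translate of a finite tight family such that a far away convex set meets at most one -/
theorem tight_family_translate (hc : IsCubulation G X) {ι : Type} [Fintype ι]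
    (k : ι → Set V) (hk : ∀ i, Cvx X (k i)) (ht : ∀ i j, i ≠ j → Tight X (k i) (k j))
    (x0 : V) : ∃ r0 : ℕ, ∀ z, ∃ g : G, X.dist z (g • x0) ≤ r0 ∧
      ∀ C, Cvx X C → (∀ y ∈ C, r0 ≤ X.dist z y) → ∀ i j, (C ∩ g • k i).Nonempty →
        (C ∩ g • k j).Nonempty → i = j := by
  classical
  have hM := hc.median
  have h1 : ∀ q : ι × ι, ∃ M : ℕ, q.1 ≠ q.2 → ∀ C, Cvx X C → (C ∩ k q.1).Nonempty →
      (C ∩ k q.2).Nonempty → ∃ y ∈ C, X.dist x0 y ≤ M := by
    intro q
    by_cases hq : q.1 = q.2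
    · exact ⟨0, fun h => absurd hq h⟩
    obtain ⟨p, r, H⟩ := (ht _ _ hq).cvx hM (hk _)
    refine ⟨X.dist x0 p + r, fun _ C hC a b => ?_⟩
    obtain ⟨y, hy, hd⟩ := H C hC a b
    refine ⟨y, hy, ?_⟩
    have := hM.tri x0 p y
    omega
  choose M hMq using h1
  obtain ⟨R, hR⟩ := hc.cobounded (F := ⊤) inferInstance x0
  refine ⟨R + Finset.univ.sup M + 1, fun z => ?_⟩
  obtain ⟨g, -, hg⟩ := hR z
  refine ⟨g, by omega, fun C hC hfar i j hi hj => ?_⟩
  by_contra hij
  have hin : ∀ i, (C ∩ g • k i).Nonempty → (g⁻¹ • C ∩ k i).Nonempty := by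
    rintro i ⟨_, hx, x, hx', rfl⟩
    exact ⟨x, Set.mem_inv_smul_set_iff.2 hx, hx'⟩
  obtain ⟨y, hy, hd⟩ := hMq (i, j) hij _ (hC.smul hc g⁻¹) (hin i hi) (hin j hj)
  have h2 := hfar _ (Set.mem_inv_smul_set_iff.1 hy)
  have h3 := hM.tri z (g • x0) (g • y)
  rw [hc.dist_smul] at h3
  have h4 : M (i, j) ≤ Finset.univ.sup M := Finset.le_sup (Finset.mem_univ _)
  omega

theorem twoIn_of_facing (hc : IsCubulation G X) {L : ℕ} (hB : Bridge X L) (hF : Facing X) :
    TwoIn X := by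
  have hM := hc.median
  obtain ⟨h1, h2, h3, g1, g2, g3, d12, d13, d23⟩ := hF
  have hd : ∀ i j : Fin 3, i ≠ j → Disjoint (![h1, h2, h3] i) (![h1, h2, h3] j) := by
    intro i j hij
    fin_cases i <;> fin_cases j <;>
      first
        | exact absurd rfl hij
        | assumption
        | exact Disjoint.symm (by assumption)
  obtain ⟨k, hk, hsub, ht⟩ := exists_tight_family hc hB ![h1, h2, h3]
    (fun i => by fin_cases i <;> assumption) hd
  obtain ⟨x0, -⟩ := g1.1.nonempty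
  obtain ⟨r0, H⟩ := tight_family_translate hc k (fun i => (hk i).1.cvx hM) ht x0
  intro h hh hdeep
  obtain ⟨z, -, hz⟩ := hdeep r0
  obtain ⟨g, -, hg⟩ := H z
  have hu := hg hᶜ ((hh.compl hM).cvx hM) hz
  have key : ∀ i j, i ≠ j → ¬ (hᶜ ∩ g • k i).Nonempty → ¬ (hᶜ ∩ g • k j).Nonempty →
      ∃ k1 k2, Good X k1 ∧ Good X k2 ∧ k1 ⊆ h ∧ k2 ⊆ h ∧ Disjoint k1 k2 ∧ Tight X k1 k2 := by
    intro i j hij a b
    refine ⟨g • k i, g • k j, (hk i).smul hc g, (hk j).smul hc g, fun x hx => ?_,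
      fun x hx => ?_, ?_, (ht i j hij).smul hc g⟩
    · by_contra hx'
      exact a ⟨x, hx', hx⟩
    · by_contra hx'
      exact b ⟨x, hx', hx⟩
    · exact Set.disjoint_smul_set.2 ((hd i j hij).mono (hsub i) (hsub j))
  by_cases a0 : (hᶜ ∩ g • k 0).Nonempty
  · exact key 1 2 (by decide) (fun a => absurd (hu _ _ a0 a) (by decide))
      (fun a => absurd (hu _ _ a0 a) (by decide))
  by_cases a1 : (hᶜ ∩ g • k 1).Nonempty
  · exact key 0 2 (by decide) a0 (fun a => absurd (hu _ _ a1 a) (by decide))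
  · exact key 0 1 (by decide) a0 a1

theorem dir5_of_facing (hc : IsCubulation G X) {L : ℕ} (hB : Bridge X L) (hF : Facing X) :
    Dir5 X := by
  have hM := hc.median
  have hT := twoIn_of_facing hc hB hF
  obtain ⟨h1, h2, h3, g1, g2, g3, d12, d13, d23⟩ := hF
  obtain ⟨a1, a2, ga1, ga2, s1, s2, da, -⟩ := hT h1 g1.1 g1.2.1
  obtain ⟨b1, b2, gb1, gb2, t1, t2, db, -⟩ := hT h2 g2.1 g2.2.1
  have e1 : Disjoint a1 b1 := d12.mono s1 t1
  have e2 : Disjoint a1 b2 := d12.mono s1 t2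
  have e3 : Disjoint a2 b1 := d12.mono s2 t1
  have e4 : Disjoint a2 b2 := d12.mono s2 t2
  have e5 : Disjoint a1 h3 := d13.mono_left s1
  have e6 : Disjoint a2 h3 := d13.mono_left s2
  have e7 : Disjoint b1 h3 := d23.mono_left t1
  have e8 : Disjoint b2 h3 := d23.mono_left t2
  have hd : ∀ i j : Fin 5, i ≠ j →
      Disjoint (![a1, a2, b1, b2, h3] i) (![a1, a2, b1, b2, h3] j) := by
    intro i j hij
    fin_cases i <;> fin_cases j <;>
      first
        | exact absurd rfl hij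
        | assumption
        | exact Disjoint.symm (by assumption)
  obtain ⟨k, hk, -, ht⟩ := exists_tight_family hc hB ![a1, a2, b1, b2, h3]
    (fun i => by fin_cases i <;> assumption) hd
  obtain ⟨x0, -⟩ := g1.1.nonempty
  obtain ⟨r0, H⟩ := tight_family_translate hc k (fun i => (hk i).1.cvx hM) ht x0
  refine ⟨r0, fun r => ?_⟩
  choose w hw hw' using fun i => (hk i).2.1 r
  refine ⟨r0 + Finset.univ.sup fun i => X.dist x0 (w i), fun z C hC hfar => ?_⟩
  obtain ⟨g, hgz, hg⟩ := H z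
  have hex : ∃ i, ∀ c, ¬ (C c ∩ g • k i).Nonempty := by
    by_contra hcon
    push Not at hcon
    choose φ hφ using hcon
    have hinj : Function.Injective φ := fun i j hij =>
      hg (C (φ i)) (hC _) (hfar _) i j (hφ i) (hij ▸ hφ j)
    have := Fintype.card_le_of_injective φ hinj
    simp at this
  obtain ⟨i, hi⟩ := hex
  refine ⟨g • k i, g • w i, (hk i).1.smul hc g, Set.smul_mem_smul_set (hw i), ?_,
    fun c => Set.disjoint_left.2 fun x hx hx' => hi c ⟨x, hx', hx⟩, fun y hy => ?_⟩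
  · have h4 := hM.tri z (g • x0) (g • w i)
    rw [hc.dist_smul] at h4
    have h5 : X.dist x0 (w i) ≤ Finset.univ.sup fun i => X.dist x0 (w i) :=
      Finset.le_sup (f := fun i => X.dist x0 (w i)) (Finset.mem_univ i)
    omega
  · have h4 := hw' i (g⁻¹ • y) fun hh => hy (Set.mem_smul_set_iff_inv_smul_mem.2 hh)
    rwa [← hc.dist_smul g, smul_inv_smul] at h4

end Pool.Agent.Lib.MP_3467cd_al
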