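import Pool.Agent.Lib.MP_3467cd_al.CuSD
import Pool.Agent.Lib.MP_3467cd_al.Two

open Pointwise

namespace Pool.Agent.Lib.MP_3467cd_al.Cu

variable {G : Type} [Group G] {V : Type} [MulAction G V] {X : SimpleGraph V}

variable {L : ℕ}

theorem nice_lt (hN : Nice0 G X L) {h : Set V} (hh : IsHalf X h) :
    ∃ k, IsHalf X k ∧ k ⊂ h := by
  obtain ⟨k1, k2, h1, h2, s1, s2, hd⟩ := hN.two h hh
  obtain ⟨x, hx⟩ := h2.nonempty
  exact ⟨k1, h1, s1, fun H => Set.disjoint_left.1 hd (H (s2 hx)) hx⟩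

theorem nice_nest (hN : Nice0 G X L) {h : Set V} (hh : IsHalf X h) (r : ℕ) :
    ∃ k, Nest X (r + 1) k h := by
  induction r with
  | zero =>
    obtain ⟨k, hk, hs⟩ := nice_lt hN hh
    exact ⟨k, nest_one hk hh hs⟩
  | succ r ih =>
    obtain ⟨k, hk⟩ := ih
    obtain ⟨k', hk', hs⟩ := nice_lt hN hk.isHalf_left
    exact ⟨k', Nat.add_comm 1 (r + 1) ▸ (nest_one hk' hk.isHalf_left hs).trans hk⟩

theorem nice_clean {A A' k : Set V} (H : Clean A k) (hs : A' ⊆ A) : Clean A' k :=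
  H.imp hs.trans hs.trans

theorem nice_not_clean {A k : Set V} (H : ¬ Clean A k) :
    (A ∩ k).Nonempty ∧ (A ∩ kᶜ).Nonempty := by
  rw [Clean, not_or, Set.not_subset, Set.not_subset] at H
  obtain ⟨⟨x, hx, hx'⟩, y, hy, hy'⟩ := H
  exact ⟨⟨y, hy, not_not.1 hy'⟩, x, hx, hx'⟩

theorem nice_shrink (hN : Nice0 G X L) {k0 : Set V} (h0 : IsHalf X k0) {W : Set (Set V)}
    (hW : W.Finite) (hW' : ∀ w ∈ W, IsHalf X w) :
    ∃ k, IsHalf X k ∧ k ⊆ k0 ∧ ∀ w ∈ W, Clean k w := by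
  induction W, hW using Set.Finite.induction_on with
  | empty => exact ⟨k0, h0, subset_rfl, fun _ h => h.elim⟩
  | @insert w W _ _ ih =>
    obtain ⟨k, hk, hs, hc⟩ := ih fun w hw => hW' w (Set.mem_insert_of_mem _ hw)
    by_cases hne : (k ∩ w).Nonempty
    · obtain ⟨c, hc1, hc2⟩ := hN.pd k w hk (hW' w (Set.mem_insert _ _)) hne
      refine ⟨c, hc1, (hc2.trans Set.inter_subset_left).trans hs, ?_⟩
      rintro w' (rfl | hw')
      · exact Or.inl (hc2.trans Set.inter_subset_right)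
      · exact nice_clean (hc w' hw') (hc2.trans Set.inter_subset_left)
    · refine ⟨k, hk, hs, ?_⟩
      rintro w' (rfl | hw')
      · exact Or.inr fun x hx hx' => hne ⟨x, hx, hx'⟩
      · exact hc w' hw'

/-- `two` gives a strictly smaller halfspace, hence `Nest X r k h` for all `r`; `Nest.le_dist`. -/
theorem Nice0.deep (hN : Nice0 G X L) {h : Set V} (hh : IsHalf X h) : Deep X h := by
  intro r
  obtain ⟨k, hk⟩ := nice_nest hN hh r
  obtain ⟨z, hz⟩ := hk.isHalf_left.nonempty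
  refine ⟨z, hk.subset hz, fun y hy => ?_⟩
  have := hk.le_dist hN.cub.median hz hy
  omega

theorem Nice0.good (hN : Nice0 G X L) {h : Set V} (hh : IsHalf X h) : Good X h := by
  exact ⟨hh, hN.deep hh, hN.deep (hh.compl hN.cub.median)⟩

theorem Nice0.bridge (hN : Nice0 G X L) : Bridge X L := by
  obtain ⟨D, hD⟩ := hN.cub.exists_dim
  exact Thin.bridge hN.cub.median hD hN.one hN.thin

/-- `k0` with `Nest X L k0 b` (`deep_nest`), so `Tight X hᶜ k0` with data `p, r`. A halfspace `w`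
for which neither `k0` nor `hᶜ` is clean separates two gates, so lies in `sep X u v` for two
points `u, v` of the ball of radius `r` about `p`: finitely many `w`. Shrink `k0` with `pd` once
for each of them (finite induction). -/
theorem Nice0.ssep (hN : Nice0 G X L) {h b : Set V} (hh : IsHalf X h) (hb : IsHalf X b)
    (hs : b ⊆ h) : ∃ k, k ⊆ b ∧ SD X k hᶜ := by
  have hM := hN.cub.median
  obtain ⟨k0, hk0, hn⟩ := hN.cub.deep_nest hb (hN.deep hb) hN.one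
  have hn' : Nest X L k0 h := hn.enlarge hN.one hk0.1 hh subset_rfl hs
  obtain ⟨p, r, hp⟩ := hN.bridge.2 hᶜ k0 (hh.compl hM) (by rwa [compl_compl])
  have hW : (⋃ u ∈ {y | X.dist p y ≤ r}, ⋃ v ∈ {y | X.dist p y ≤ r}, sep X u v).Finite :=
    (hN.cub.ball_finite p r).biUnion fun u _ =>
      (hN.cub.ball_finite p r).biUnion fun v _ => hM.sep_finite u v
  obtain ⟨k, hk, hks, hc⟩ := nice_shrink hN hk0.1 hW fun w hw => by
    simp only [Set.mem_iUnion] at hw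
    obtain ⟨u, -, v, -, hw⟩ := hw
    exact hw.1
  refine ⟨k, hks.trans hn.subset, hk, hh.compl hM,
    Set.disjoint_left.2 fun x hx hx' => hx' (hn'.subset (hks hx)), ?_, fun w hw => ?_⟩
  · obtain ⟨x, hx, hx'⟩ := Set.exists_of_ssubset (hn'.ssubset hN.one)
    exact ⟨x, fun H => hx' (hks H), fun H => H hx⟩
  by_cases c1 : Clean hᶜ w
  · exact Or.inr c1
  left
  by_cases c2 : Clean k0 w
  · exact nice_clean c2 hks
  obtain ⟨n1, n2⟩ := nice_not_clean c1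
  obtain ⟨⟨y1, hy1, hy1'⟩, y2, hy2, hy2'⟩ := nice_not_clean c2
  obtain ⟨q1, hq1⟩ := hM.exists_gate ((hh.compl hM).cvx hM) hh.compl_nonempty y1
  obtain ⟨q2, hq2⟩ := hM.exists_gate ((hh.compl hM).cvx hM) hh.compl_nonempty y2
  refine hc w ?_
  simp only [Set.mem_iUnion]
  exact ⟨q2, hp y2 hy2 q2 hq2, q1, hp y1 hy1 q1 hq1, hw,
    hq2.mem_of hM (hw.compl hM) hy2' n2, hq1.mem_of hM hw hy1' n1⟩

theorem Nice0.four (hN : Nice0 G X L) : ∃ M : Fin 4 → Set V, (∀ i, IsHalf X (M i)) ∧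
    ∀ i j, i ≠ j → Disjoint (M i) (M j) := by
  obtain ⟨h, hh⟩ := hN.ex
  obtain ⟨k1, k2, h1, h2, -, -, hd⟩ := hN.two h hh
  obtain ⟨a, b, ha, hb, sa, sb, hab⟩ := hN.two k1 h1
  obtain ⟨c, d, hc, hd', sc, sd, hcd⟩ := hN.two k2 h2
  have hac := hd.mono sa sc
  have had := hd.mono sa sd
  have hbc := hd.mono sb sc
  have hbd := hd.mono sb sd
  refine ⟨![a, b, c, d], fun i => ?_, fun i j hij => ?_⟩
  · fin_cases i
    exacts [ha, hb, hc, hd']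
  · fin_cases i <;> fin_cases j
    exacts [(hij rfl).elim, hab, hac, had, hab.symm, (hij rfl).elim, hbc, hbd, hac.symm, hbc.symm,
      (hij rfl).elim, hcd, had.symm, hbd.symm, hcd.symm, (hij rfl).elim]

theorem Nice0.facing (hN : Nice0 G X L) : Facing X := by
  obtain ⟨M, h1, h2⟩ := hN.four
  exact ⟨M 0, M 1, M 2, hN.good (h1 _), hN.good (h1 _), hN.good (h1 _), h2 _ _ (by decide),
    h2 _ _ (by decide), h2 _ _ (by decide)⟩

theorem Nice0.ports (hN : Nice0 G X L) :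
    ∃ q : Option Bool → Set V, ∀ d d', d ≠ d' → SD X (q d) (q d') := by
  obtain ⟨M, h1, h2⟩ := hN.four
  choose k hk hs using fun i => hN.ssep (h1 i) (h1 i) subset_rfl
  obtain ⟨e, he⟩ : ∃ e : Option Bool → Fin 4, Function.Injective e :=
    ⟨fun d => d.elim 0 fun b => cond b 1 2, by decide⟩
  refine ⟨fun d => k (e d), fun d d' hd => (hs (e d)).mono_right (hs (e d')).left ?_⟩
  exact (hk _).trans (h2 _ _ (he.ne hd)).subset_compl_left

theorem Nice0.place_chain (hN : Nice0 G X L) (hP : Place G X) {Ps : Set (Set V × Set V)}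
    (hf : Ps.Finite) (hPs : ∀ p ∈ Ps, IsHalf X p.1 ∧ IsHalf X p.2 ∧ p.2 ⊆ p.1) {q : Set V}
    (hq : IsHalf X q) :
    ∃ q', IsHalf X q' ∧ q' ⊆ q ∧ ∀ p ∈ Ps, ∃ g : G, g • p.1 ⊆ q ∧ q' ⊆ g • p.2 := by
  induction Ps, hf using Set.Finite.induction_on with
  | empty => exact ⟨q, hq, subset_rfl, fun _ h => h.elim⟩
  | @insert p Ps _ _ ih =>
    obtain ⟨q', h1, h2, h3⟩ := ih fun p hp => hPs p (Set.mem_insert_of_mem _ hp)
    obtain ⟨p1, p2, p3⟩ := hPs p (Set.mem_insert _ _)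
    obtain ⟨g, hg⟩ := hP p.1 q' p1 h1
    have h4 : g • p.2 ⊆ q' := (Set.smul_set_mono p3).trans hg
    refine ⟨g • p.2, p2.smul hN.cub g, h4.trans h2, ?_⟩
    rintro p' (rfl | hp')
    · exact ⟨g, hg.trans h2, subset_rfl⟩
    · obtain ⟨g', a, b⟩ := h3 p' hp'
      exact ⟨g', a, h4.trans b⟩

theorem Nice0.axis (hN : Nice0 G X L) (hP : Place G X) :
    ∃ (h : G) (c : Set V), SD X (h • c) cᶜ := by
  obtain ⟨c, hc⟩ := hN.ex
  obtain ⟨k, -, hk⟩ := hN.ssep hc hc subset_rfl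
  obtain ⟨g, hg⟩ := hP c k hc hk.left
  exact ⟨g, c, hk.mono_left (hc.smul hN.cub g) hg⟩

/-- `s ∈ k ∩ inn X hᶜ`; `exists_adj_sup` for `kᶜ` gives `k' ⊆ k` with `s ∈ inn X k'`, so
`Near X 0 h k'`; `pair_orbits 0`; for each representative `(h0, k0)` of halfspaces with
`k0 ∩ h0ᶜ` nonempty choose `b ⊆ k0 ∩ h0ᶜ` by `pd` and take the pair `(h0ᶜ, b)`. -/
theorem Nice0.passes (hN : Nice0 G X L) : ∃ Ps : Set (Set V × Set V), Ps.Finite ∧
    (∀ p ∈ Ps, IsHalf X p.1 ∧ IsHalf X p.2 ∧ p.2 ⊆ p.1) ∧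
    ∀ h k, IsHalf X h → IsHalf X k → (k ∩ inn X hᶜ).Nonempty →
      ∃ g : G, ∃ p ∈ Ps, g • p.1 = hᶜ ∧ g • p.2 ⊆ k ∩ hᶜ := by
  have hM := hN.cub.median
  obtain ⟨T, hT, hT'⟩ := hN.cub.pair_orbits 0
  have H : ∀ t : Set V × Set V, ∃ b : Set V,
      IsHalf X t.1 ∧ IsHalf X t.2 ∧ (t.2 ∩ t.1ᶜ).Nonempty → IsHalf X b ∧ b ⊆ t.2 ∩ t.1ᶜ :=
    fun t => by
      by_cases ht : IsHalf X t.1 ∧ IsHalf X t.2 ∧ (t.2 ∩ t.1ᶜ).Nonempty
      · obtain ⟨b, hb⟩ := hN.pd _ _ ht.2.1 (ht.1.compl hM) ht.2.2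
        exact ⟨b, fun _ => hb⟩
      · exact ⟨∅, fun h => (ht h).elim⟩
  choose b hb using H
  refine ⟨(fun t => (t.1ᶜ, b t)) ''
    {t ∈ T | IsHalf X t.1 ∧ IsHalf X t.2 ∧ (t.2 ∩ t.1ᶜ).Nonempty},
    (hT.subset (Set.sep_subset _ _)).image _, ?_, ?_⟩
  · rintro _ ⟨t, ht, rfl⟩
    exact ⟨ht.2.1.compl hM, (hb t ht.2).1, (hb t ht.2).2.trans Set.inter_subset_right⟩
  rintro h k hh hk ⟨s, hs, hs'⟩
  obtain ⟨k', hk', h1, h2⟩ := (hk.compl hM).exists_adj_sup hM (x := s) fun H => H hs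
  obtain ⟨g, hg⟩ := hT' h k'ᶜ hh (hk'.compl hM)
    ⟨s, inn_compl_subset_car h hs', s, inn_subset_car _ h2, by simp⟩
  have h3 : IsHalf X (g • h) ∧ IsHalf X (g • k'ᶜ) ∧ (g • k'ᶜ ∩ (g • h)ᶜ).Nonempty :=
    ⟨hh.smul hN.cub g, (hk'.compl hM).smul hN.cub g, g • s, Set.smul_mem_smul_set h2.1,
      fun H => hs'.1 (Set.smul_mem_smul_set_iff.1 H)⟩
  refine ⟨g⁻¹, _, ⟨(g • h, g • k'ᶜ), ⟨hg, h3⟩, rfl⟩, ?_, ?_⟩
  · change g⁻¹ • (g • h)ᶜ = hᶜ
    rw [Set.smul_set_compl, inv_smul_smul]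
  · intro x hx
    have h4 := (hb (g • h, g • k'ᶜ) h3).2 (Set.mem_inv_smul_set_iff.1 hx)
    exact ⟨Set.compl_subset_comm.1 h1 (Set.smul_mem_smul_set_iff.1 h4.1),
      fun H => h4.2 (Set.smul_mem_smul_set H)⟩

end Pool.Agent.Lib.MP_3467cd_al.Cu
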