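import Pool.Agent.Lib.MP_3467cd_al.Dual3

open Pointwise

namespace Pool.Agent.Lib.MP_3467cd_al

variable {G : Type} [Group G]

theorem goal_of_finite [Finite G] : Goal G := by
  let : MulAction G Bool :=
    { smul := fun _ b => b
      one_smul := fun _ => rfl
      mul_smul := fun _ _ _ => rfl }
  have W : WallSys G ({true} : Set Bool) (fun _ => (∅ : Set Unit)) (fun _ _ => 0) :=
    { ne := ⟨⟨true, rfl⟩, ⟨false, by simp⟩⟩
      equiv := fun g _ _ => Set.smul_set_empty.symm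
      meet := fun _ _ _ _ h => absurd h (by simp)
      finCore := fun _ => Set.toFinite _
      finSep := fun _ _ => Set.toFinite _
      helly := fun _ _ _ _ => ⟨(), fun _ _ => by simp [core]⟩
      nested := fun _ _ _ _ _ _ _ _ h => absurd h (Set.notMem_empty _)
      cocompact := ⟨{()}, fun _ => ⟨1, Finset.mem_singleton.2 rfl⟩⟩
      tri := fun _ _ _ => le_rfl
      symm := fun _ _ => rfl
      ball := fun _ _ => Set.toFinite _
      proper := fun _ _ => Set.toFinite _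
      sepa := ⟨1, fun _ _ h => absurd h (by omega)⟩
      ess := by
        rintro α - β - ⟨⟨a, a1, a2⟩, ⟨b, b1, b2⟩, ⟨c, c1, -⟩, -⟩
        have h1 : a ≠ b := fun h => b2 (h ▸ a2)
        have h2 : a ≠ c := fun h => c1 (h ▸ a1)
        have h3 : b ≠ c := fun h => c1 (h ▸ b1)
        exact absurd (show b = c by revert h1 h2; cases a <;> cases b <;> cases c <;> simp) h3 }
  exact W.goal

theorem elem1_one (ε t : G → ℤ) (hε : ∀ g, ε g = 1 ∨ ε g = -1)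
    (hmul : ∀ g g', ε (g * g') = ε g * ε g') (ht : ∀ g g', t (g * g') = ε g * t g' + t g) :
    ε 1 = 1 ∧ t 1 = 0 := by
  have h1 := hmul 1 1
  have h2 := ht 1 1
  rw [mul_one] at h1 h2
  have h3 : ε 1 = 1 := by
    rcases hε 1 with h | h
    · exact h
    · rw [h] at h1
      omega
  rw [h3] at h2
  exact ⟨h3, by omega⟩

/-- points lying in `α` together with their two neighbours -/
def elem1P (α : Set ℤ) : Set ℤ := {x | x - 1 ∈ α ∧ x ∈ α ∧ x + 1 ∈ α}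

theorem elem1_mem_core {α : Set ℤ} {x : ℤ} : x ∈ core elem1P α ↔
    ¬ (x - 1 ∈ α ∧ x ∈ α ∧ x + 1 ∈ α) ∧ ¬ (x - 1 ∉ α ∧ x ∉ α ∧ x + 1 ∉ α) := by
  unfold core
  rw [Set.mem_compl_iff, Set.mem_union, not_or]
  rfl

theorem elem1_fin (a b : ℤ) :
    {α : Set ℤ | ∃ i, a ≤ i ∧ i ≤ b ∧ (α = Set.Iic i ∨ α = Set.Ioi i)}.Finite := by
  refine (((Set.finite_Icc a b).image Set.Iic).union ((Set.finite_Icc a b).image Set.Ioi)).subset ?_
  rintro α ⟨i, h1, h2, rfl | rfl⟩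
  · exact Or.inl ⟨i, ⟨h1, h2⟩, rfl⟩
  · exact Or.inr ⟨i, ⟨h1, h2⟩, rfl⟩

theorem elem1_wall [MulAction G ℤ] (ε t : G → ℤ) (hε : ∀ g, ε g = 1 ∨ ε g = -1)
    (hact : ∀ (g : G) (n : ℤ), g • n = ε g * n + t g) (hp : ∀ r : ℕ, {g | |t g| ≤ r}.Finite)
    (htr : ∀ i : ℤ, ∃ g, (ε g = 1 ∧ t g = i) ∨ (ε g = -1 ∧ t g = i + 1)) :
    WallSys G (Set.Iic (0 : ℤ)) elem1P (fun x y => (x - y).natAbs) := by
  have hpos : ∀ g : G, ε g = 1 → g • Set.Iic (0 : ℤ) = Set.Iic (t g) := by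
    intro g hg
    ext y
    obtain ⟨x, rfl⟩ : ∃ x, g • x = y := MulAction.surjective g y
    rw [Set.smul_mem_smul_set_iff, hact, hg, Set.mem_Iic, Set.mem_Iic]
    omega
  have hneg : ∀ g : G, ε g = -1 → g • Set.Iic (0 : ℤ) = Set.Ioi (t g - 1) := by
    intro g hg
    ext y
    obtain ⟨x, rfl⟩ : ∃ x, g • x = y := MulAction.surjective g y
    rw [Set.smul_mem_smul_set_iff, hact, hg, Set.mem_Iic, Set.mem_Ioi]
    omega
  have hmem : ∀ α ∈ hs G (Set.Iic (0 : ℤ)), ∃ i, α = Set.Iic i ∨ α = Set.Ioi i := by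
    rintro α ⟨g, h⟩
    rcases hε g with hg | hg
    · rw [hpos g hg, Set.compl_Iic] at h
      exact ⟨_, h⟩
    · rw [hneg g hg, Set.compl_Ioi] at h
      exact ⟨_, h.symm⟩
  have hIic : ∀ i : ℤ, Set.Iic i ∈ hs G (Set.Iic (0 : ℤ)) := by
    intro i
    obtain ⟨g, ⟨h1, h2⟩ | ⟨h1, h2⟩⟩ := htr i
    · exact ⟨g, Or.inl (by rw [hpos g h1, h2])⟩
    · exact ⟨g, Or.inr (by rw [hneg g h1, h2, Set.compl_Ioi, add_sub_cancel_right])⟩
  have hnc : ∀ α ∈ hs G (Set.Iic (0 : ℤ)), ∀ β ∈ hs G (Set.Iic (0 : ℤ)), ¬ Cross α β := by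
    rintro α hα β hβ ⟨⟨a, a1, a2⟩, ⟨b, b1, b2⟩, ⟨c, c1, c2⟩, ⟨e, e1, e2⟩⟩
    obtain ⟨i, rfl | rfl⟩ := hmem α hα <;> obtain ⟨j, rfl | rfl⟩ := hmem β hβ <;>
      simp only [Set.mem_compl_iff, Set.mem_Iic, Set.mem_Ioi] at * <;> omega
  refine
    { ne := ⟨⟨0, Set.mem_Iic.2 le_rfl⟩, ⟨1, by simp⟩⟩
      equiv := fun g α _ => ?_
      meet := fun α _ β _ ⟨x, h1, h2⟩ => ⟨x, h1.2.1, h2.2.1⟩
      finCore := fun x => (elem1_fin (x - 1) x).subset ?_
      finSep := fun x y => (elem1_fin (min x y) (max x y)).subset ?_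
      helly := fun S _ hS hc => ?_
      nested := fun α _ β _ _ _ x hx hβ => ?_
      cocompact := ⟨{0, 1}, fun v => ?_⟩
      tri := fun x y z => by omega
      symm := fun x y => by omega
      ball := fun x r => (Set.finite_Icc (x - r) (x + r)).subset fun y hy => ?_
      proper := fun x r => (hp (r + 2 * x.natAbs)).subset fun g hg => ?_
      sepa := ⟨3, fun x y h => ?_⟩
      ess := fun α hα β hβ h => absurd h (hnc α hα β hβ) }
  · ext y
    obtain ⟨x, rfl⟩ : ∃ x, g • x = y := MulAction.surjective g y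
    rw [Set.smul_mem_smul_set_iff]
    change (g • x - 1 ∈ g • α ∧ g • x ∈ g • α ∧ g • x + 1 ∈ g • α) ↔
      (x - 1 ∈ α ∧ x ∈ α ∧ x + 1 ∈ α)
    rcases hε g with hg | hg
    · have a1 : g • x - 1 = g • (x - 1) := by rw [hact, hact, hg]; ring
      have a2 : g • x + 1 = g • (x + 1) := by rw [hact, hact, hg]; ring
      simp only [a1, a2, Set.smul_mem_smul_set_iff]
    · have a1 : g • x - 1 = g • (x + 1) := by rw [hact, hact, hg]; ring
      have a2 : g • x + 1 = g • (x - 1) := by rw [hact, hact, hg]; ring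
      simp only [a1, a2, Set.smul_mem_smul_set_iff]
      tauto
  · rintro α ⟨hα, hx⟩
    rw [elem1_mem_core] at hx
    obtain ⟨i, h⟩ := hmem α hα
    refine ⟨i, ?_, ?_, h⟩ <;> rcases h with rfl | rfl <;>
      simp only [Set.mem_Iic, Set.mem_Ioi] at hx <;> omega
  · rintro α ⟨hα, ⟨-, hx, hx'⟩, ⟨-, hy, hy'⟩⟩
    obtain ⟨i, h⟩ := hmem α hα
    refine ⟨i, ?_, ?_, h⟩ <;> rcases h with rfl | rfl <;>
      simp only [Set.mem_compl_iff, Set.mem_Iic, Set.mem_Ioi] at hx hy <;> omega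
  · rcases S.eq_empty_or_nonempty with rfl | ⟨α, hα⟩
    · exact ⟨0, fun _ h => absurd h (Set.notMem_empty _)⟩
    · obtain ⟨i, h⟩ := hmem α (hS hα)
      refine ⟨i, fun β hβ => ?_⟩
      have hβα : β = α := by
        by_contra hne
        exact hnc β (hS hβ) α (hS hα) (hc β hβ α hα hne)
      rw [hβα, elem1_mem_core]
      rcases h with rfl | rfl <;> simp only [Set.mem_Iic, Set.mem_Ioi] <;> omega
  · by_contra hne
    have h := fun y (h1 : y ∈ β) (h2 : y ∈ α) => hne ⟨y, h1, h2⟩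
    exact (elem1_mem_core.1 hx).2 ⟨h _ hβ.1, h _ hβ.2.1, h _ hβ.2.2⟩
  · obtain ⟨g, ⟨h1, h2⟩ | ⟨h1, h2⟩⟩ := htr v
    · refine ⟨g⁻¹, ?_⟩
      have : g⁻¹ • v = 0 := by rw [inv_smul_eq_iff, hact, h2, mul_zero, zero_add]
      simp [this]
    · refine ⟨g⁻¹, ?_⟩
      have : g⁻¹ • v = 1 := by rw [inv_smul_eq_iff, hact, h1, h2]; ring
      simp [this]
  · have h : (x - y).natAbs ≤ r := hy
    constructor <;> omega
  · have h : (x - g • x).natAbs ≤ r := hg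
    rw [hact] at h
    change |t g| ≤ ((r + 2 * x.natAbs : ℕ) : ℤ)
    rw [abs_le]
    rcases hε g with hg | hg <;> rw [hg] at h <;> constructor <;> omega
  · rcases le_total x y with hxy | hxy
    · refine ⟨Set.Iic (x + 1), hIic _, ⟨?_, ?_, ?_⟩, ⟨?_, ?_, ?_⟩⟩ <;>
        simp only [Set.mem_compl_iff, Set.mem_Iic] <;> omega
    · refine ⟨(Set.Iic (y + 1))ᶜ, compl_mem_hs (hIic _), ⟨?_, ?_, ?_⟩, ⟨?_, ?_, ?_⟩⟩ <;>
        simp only [Set.mem_compl_iff, Set.mem_Iic] <;> omega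

/-- a proper action on the integer line which is transitive on edges -/
theorem goal_of_line (ε t : G → ℤ) (hε : ∀ g, ε g = 1 ∨ ε g = -1)
    (hmul : ∀ g g', ε (g * g') = ε g * ε g') (ht : ∀ g g', t (g * g') = ε g * t g' + t g)
    (hp : ∀ r : ℕ, {g | |t g| ≤ r}.Finite)
    (htr : ∀ i : ℤ, ∃ g, (ε g = 1 ∧ t g = i) ∨ (ε g = -1 ∧ t g = i + 1)) : Goal G := by
  obtain ⟨e1, t1⟩ := elem1_one ε t hε hmul ht
  let : MulAction G ℤ :=
    { smul := fun g n => ε g * n + t g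
      one_smul := fun n => by
        change ε 1 * n + t 1 = n
        rw [e1, t1, one_mul, add_zero]
      mul_smul := fun g g' n => by
        change ε (g * g') * n + t (g * g') = ε g * (ε g' * n + t g') + t g
        rw [hmul, ht]
        ring }
  exact (elem1_wall ε t hε (fun _ _ => rfl) hp htr).goal

theorem line_normalize [Infinite G] (ε t : G → ℤ) (hε : ∀ g, ε g = 1 ∨ ε g = -1)
    (hmul : ∀ g g', ε (g * g') = ε g * ε g') (ht : ∀ g g', t (g * g') = ε g * t g' + t g)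
    (hp : ∀ r : ℕ, {g | |t g| ≤ r}.Finite) :
    ∃ t' : G → ℤ, (∀ g g', t' (g * g') = ε g * t' g' + t' g) ∧
      (∀ r : ℕ, {g | |t' g| ≤ r}.Finite) ∧
      ∀ i : ℤ, ∃ g, (ε g = 1 ∧ t' g = i) ∨ (ε g = -1 ∧ t' g = i + 1) := by
  obtain ⟨e1, t1⟩ := elem1_one ε t hε hmul ht
  have hinv : ∀ g, ε g⁻¹ = ε g := by
    intro g
    have h := hmul g g⁻¹
    rw [mul_inv_cancel, e1] at h
    rcases hε g with a | a <;> rcases hε g⁻¹ with b | b <;> rw [a, b] at h <;> omega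
  let T : AddSubgroup ℤ :=
    { carrier := {x | ∃ g, ε g = 1 ∧ t g = x}
      zero_mem' := ⟨1, e1, t1⟩
      add_mem' := by
        rintro _ _ ⟨g, hg, rfl⟩ ⟨g', hg', rfl⟩
        exact ⟨g * g', by rw [hmul, hg, hg', mul_one], by rw [ht, hg, one_mul, add_comm]⟩
      neg_mem' := by
        rintro _ ⟨g, hg, rfl⟩
        refine ⟨g⁻¹, by rw [hinv, hg], ?_⟩
        have h := ht g g⁻¹
        rw [mul_inv_cancel, t1, hg] at h
        omega }
  obtain ⟨τ, hτ⟩ := Int.subgroup_cyclic T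
  have hT : ∀ x, (∃ g, ε g = 1 ∧ t g = x) ↔ ∃ m : ℤ, m * τ = x := by
    intro x
    change x ∈ T ↔ _
    rw [hτ, AddSubgroup.mem_closure_singleton]
    rfl
  have hc0 : ∃ c0 : ℤ, ∀ g, ε g = -1 → ∃ m : ℤ, m * τ = t g - c0 := by
    by_cases h : ∃ g0, ε g0 = -1
    · obtain ⟨g0, hg0⟩ := h
      refine ⟨t g0, fun g hg => (hT _).1 ?_⟩
      have h1 : ε (g * g0⁻¹) = 1 := by
        rw [hmul, hinv, hg, hg0]
        rfl
      have h2 := ht (g * g0⁻¹) g0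
      rw [inv_mul_cancel_right, h1] at h2
      exact ⟨g * g0⁻¹, h1, by omega⟩
    · exact ⟨0, fun g hg => absurd ⟨g, hg⟩ h⟩
  obtain ⟨c0, hc0⟩ := hc0
  have hm : ∀ g, ∃ m : ℤ, (ε g = 1 ∧ t g = m * τ) ∨ (ε g = -1 ∧ t g = m * τ + c0) := by
    intro g
    rcases hε g with hg | hg
    · obtain ⟨m, h⟩ := (hT _).1 ⟨g, hg, rfl⟩
      exact ⟨m, Or.inl ⟨hg, h.symm⟩⟩
    · obtain ⟨m, h⟩ := hc0 g hg
      exact ⟨m, Or.inr ⟨hg, by omega⟩⟩
  choose m hm using hm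
  have hb : ∀ g, |t g| ≤ |m g| * |τ| + |c0| := by
    intro g
    rw [← abs_mul]
    rcases hm g with ⟨-, h⟩ | ⟨-, h⟩ <;> rw [h]
    · exact le_add_of_nonneg_right (abs_nonneg _)
    · exact abs_add_le _ _
  have hτ0 : τ ≠ 0 := by
    rintro rfl
    refine Set.infinite_univ ((hp c0.natAbs).subset fun g _ => ?_)
    have h := hb g
    change |t g| ≤ _
    rw [Int.natCast_natAbs]
    simpa using h
  refine ⟨m, fun g g' => mul_right_cancel₀ hτ0 ?_,
    fun r => (hp (r * τ.natAbs + c0.natAbs)).subset fun g hg => ?_, fun i => ?_⟩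
  · have h1 := hmul g g'
    have h2 := ht g g'
    rcases hm g with ⟨a1, a2⟩ | ⟨a1, a2⟩ <;> rcases hm g' with ⟨b1, b2⟩ | ⟨b1, b2⟩ <;>
      rcases hm (g * g') with ⟨c1, c2⟩ | ⟨c1, c2⟩ <;> rw [a1, b1, c1] at h1 <;>
      rw [a1, a2, b2, c2] at h2 <;> first | omega | (rw [a1]; linear_combination h2)
  · change |t g| ≤ _
    push_cast
    exact (hb g).trans (add_le_add_left (mul_le_mul_of_nonneg_right hg (abs_nonneg _)) _)
  · obtain ⟨g, hg, h⟩ := (hT (i * τ)).2 ⟨i, rfl⟩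
    refine ⟨g, Or.inl ⟨hg, mul_right_cancel₀ hτ0 ?_⟩⟩
    rcases hm g with ⟨-, a⟩ | ⟨a, -⟩
    · rw [← a, h]
    · omega

end Pool.Agent.Lib.MP_3467cd_al
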