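import Pool.Agent.Lib.MP_3467cd_al.GoodL

open Pointwise

namespace Pool.Agent.Lib.MP_3467cd_al

variable {G : Type} [Group G] {V : Type} [MulAction G V] {X : SimpleGraph V}

theorem IsCubulation.finite_of_no_good (hc : IsCubulation G X) (H : ¬ ∃ h, Good X h) :
    Finite G := by
  obtain ⟨R, hR⟩ := hc.exists_good_of_far
  obtain ⟨x0⟩ := hc.median.1.nonempty
  refine Set.finite_univ_iff.1 ((hc.proper_dist x0 x0 R).subset (fun g _ => ?_))
  by_contra h1
  exact H (hR x0 (g • x0) (not_le.1 h1).le)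

theorem elem2_infinite {h : Set V} (hh : IsHalf X h) (H : Deep X h) : h.Infinite := by
  intro hf
  obtain ⟨y, hy⟩ := hh.compl_nonempty
  obtain ⟨M, hM⟩ := (hf.image (fun z => X.dist z y)).bddAbove
  obtain ⟨z, hz, H1⟩ := H (M + 1)
  have a1 := H1 y hy
  have a2 : X.dist z y ≤ M := hM ⟨z, hz, rfl⟩
  omega

theorem IsCubulation.infinite_of_good (hc : IsCubulation G X) {h : Set V} (H : Good X h) :
    Infinite G := by
  by_contra hn
  rw [not_infinite_iff_finite] at hn
  obtain ⟨S, hS⟩ := hc.cocompact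
  refine elem2_infinite H.1 H.2.1 ((Set.Finite.image2 (fun (g : G) (s : V) => g • s)
    Set.finite_univ S.finite_toSet).subset (fun v _ => ?_))
  obtain ⟨g, hg⟩ := hS v
  exact ⟨g⁻¹, Set.mem_univ _, g • v, hg, inv_smul_smul g v⟩

theorem Deep.infinite (hc : IsCubulation G X) {h : Set V} (hh : IsHalf X h) (H : Deep X h) :
    h.Infinite := elem2_infinite hh H

theorem stab_finite_of_not_facing (hc : IsCubulation G X) {L : ℕ} (hB : Bridge X L)
    (hF : ¬ Facing X) {a : Set V} (ha : Good X a) : {s : G | s • a = a}.Finite := by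
  have hM := hc.median
  obtain ⟨k, hk, N⟩ := hc.deep_nest ha.1 ha.2.1 hB.1
  have hac := ha.compl hM
  obtain ⟨p, r, H⟩ := hB.2 aᶜ k hac.1 (by rwa [compl_compl])
  refine (hc.proper_dist p p (2 * r)).subset (fun s hs => ?_)
  have hs' : s • a = a := hs
  have sk : s • k ⊆ a := hs' ▸ Set.smul_set_mono N.subset
  have nd : ¬ Disjoint k (s • k) := fun h1 => hF ⟨aᶜ, k, s • k, hac, hk, hk.smul hc s,
    Set.disjoint_compl_left_iff_subset.2 N.subset, Set.disjoint_compl_left_iff_subset.2 sk, h1⟩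
  obtain ⟨y, y1, y2⟩ := Set.not_disjoint_iff.1 nd
  obtain ⟨q, hq⟩ := hM.exists_gate (hac.1.cvx hM) hac.1.nonempty y
  have a1 := H y y1 q hq
  have hq2 := hq.smul hc s⁻¹
  have e : s⁻¹ • aᶜ = aᶜ := by
    rw [Set.smul_set_compl, inv_smul_eq_iff.2 hs'.symm]
  rw [e] at hq2
  have a2 := H _ (Set.mem_smul_set_iff_inv_smul_mem.1 y2) _ hq2
  rw [← hc.dist_smul s, smul_inv_smul, X.dist_comm] at a2
  have a3 := hM.tri p q (s • p)
  show X.dist p (s • p) ≤ 2 * r
  omega

theorem elem2_inn (hc : IsCubulation G X) {L : ℕ} (hB : Bridge X L)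
    (hF : ¬ Facing X) {a : Set V} (ha : Good X a) : (inn X a).Finite := by
  obtain ⟨T, T1, _, T3⟩ := hc.inn_orbits (F := ⊤) inferInstance ha.1
  refine (Set.Finite.image2 (fun (g : G) (s : V) => g • s)
    (stab_finite_of_not_facing hc hB hF ha) T1).subset (fun v hv => ?_)
  obtain ⟨s, _, s1, t, ht, e⟩ := T3 v hv
  exact ⟨s, s1, t, ht, e.symm⟩

theorem car_finite_of_not_facing (hc : IsCubulation G X) {L : ℕ} (hB : Bridge X L)
    (hF : ¬ Facing X) {a : Set V} (ha : Good X a) : (car X a).Finite :=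
  (elem2_inn hc hB hF ha).union (elem2_inn hc hB hF (ha.compl hc.median))

/-- an infinite quarter of two halfspaces with finite carriers contains a good halfspace -/
theorem exists_good_of_infinite (hc : IsCubulation G X) {h k : Set V} (hh : IsHalf X h)
    (hk : IsHalf X k) (f1 : (car X h).Finite) (f2 : (car X k).Finite) (H : (h ∩ k).Infinite) :
    ∃ c, Good X c ∧ c ⊆ h ∩ k := by
  have hM := hc.median
  obtain ⟨Δ, hΔ⟩ := hc.exists_dim
  obtain ⟨D, hD⟩ := hc.good_mid
  obtain ⟨x0⟩ := hM.1.nonempty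
  obtain ⟨M, hB⟩ := ((f1.union f2).image (fun z => X.dist x0 z)).bddAbove
  have hB' : ∀ b, b ∈ car X h ∨ b ∈ car X k → X.dist x0 b ≤ M := fun b hb => hB ⟨b, hb, rfl⟩
  obtain ⟨z, hz, hz2⟩ := H.exists_notMem_finite (hc.ball_finite x0 (M + Δ * (2 * M + 2 * D)))
  have a0 : M + Δ * (2 * M + 2 * D) < X.dist x0 z := not_le.1 hz2
  obtain ⟨p, hp⟩ := hM.exists_gate ((hh.compl hM).cvx hM) hh.compl_nonempty z
  have pz : p ≠ z := fun e => hp.1 (e ▸ hz.1)
  obtain ⟨p', p1, p2⟩ := hM.exists_step pz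
  have pc : p ∈ car X h := by
    refine inn_compl_subset_car h ⟨hp.1, p', p1, fun h1 => ?_⟩
    have := hp.dist_le h1
    rw [X.dist_comm (u := z) (v := p), X.dist_comm (u := z) (v := p')] at this
    omega
  have a1 := hB' p (Or.inl pc)
  have a2 := hM.tri x0 p z
  obtain ⟨c, c1, c2⟩ := hΔ.chain_of_dist hM (2 * M + 2 * D) (x := p) (y := z) (by omega)
  obtain ⟨e1, e2, e3⟩ := c2 (2 * M + D) (by omega)
  refine ⟨c (2 * M + D), hD _ c _ c1 (by omega) (by omega), Set.subset_inter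
    (Set.compl_subset_compl.1 (hp.subset hM (e1.compl hM) (fun h1 => h1 e3) e2)) ?_⟩
  intro x hx
  by_contra hxk
  obtain ⟨b, hb, _, b2⟩ := hM.exists_car_le (k := k) (z := z) (z' := x)
    (fun h1 => hxk (h1.1 hz.2))
  have b3 := e1.cvx hM z e3 x hx b b2
  have N := c1.nest (i := 0) (j := 2 * M + D) (by omega) (by omega)
  have b4 := N.le_dist hM b3 (c2 0 (by omega)).2.1
  have b5 := hB' b (Or.inr hb)
  have b6 := hM.tri b x0 p
  rw [X.dist_comm (u := b) (v := x0)] at b6
  omega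

theorem same_or_opposite (hc : IsCubulation G X) {L : ℕ} (hB : Bridge X L) (hF : ¬ Facing X)
    {h k : Set V} (hh : Good X h) (hk : Good X k) :
    ((h \ k).Finite ∧ (k \ h).Finite) ∨ ((h ∩ k).Finite ∧ (hᶜ ∩ kᶜ).Finite) := by
  have hM := hc.median
  have hh' := hh.compl hM
  have hk' := hk.compl hM
  have key : ∀ u v : Set V, Good X u → Good X v → (u ∩ v).Infinite → (u ∩ vᶜ).Infinite →
      (uᶜ ∩ v).Infinite → False := by
    intro u v hu hv i1 i2 i3
    have hu' := hu.compl hM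
    have hv' := hv.compl hM
    have g := fun (s t : Set V) (hs : Good X s) (ht : Good X t) => exists_good_of_infinite hc hs.1
      ht.1 (car_finite_of_not_facing hc hB hF hs) (car_finite_of_not_facing hc hB hF ht)
    obtain ⟨c1, g1, s1⟩ := g u v hu hv i1
    obtain ⟨c2, g2, s2⟩ := g u vᶜ hu hv' i2
    obtain ⟨c3, g3, s3⟩ := g uᶜ v hu' hv i3
    exact hF ⟨c1, c2, c3, g1, g2, g3,
      Set.disjoint_left.2 (fun x a b => (s2 b).2 (s1 a).2),
      Set.disjoint_left.2 (fun x a b => (s3 b).1 (s1 a).1),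
      Set.disjoint_left.2 (fun x a b => (s3 b).1 (s2 a).1)⟩
  have split : ∀ u v : Set V, Good X u → (u ∩ v).Finite → (u ∩ vᶜ).Finite → False := by
    intro u v hu f1 f2
    refine elem2_infinite hu.1 hu.2.1 ?_
    rw [← Set.inter_union_compl u v]
    exact f1.union f2
  have k1 := key h k hh hk
  have k2 := key h kᶜ hh hk'
  have k3 := key hᶜ k hh' hk
  have k4 := key hᶜ kᶜ hh' hk'
  have s1 := split h k hh
  have s2 := split hᶜ k hh'
  have s3 := split k h hk
  have s4 := split kᶜ h hk'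
  simp only [compl_compl] at k2 k3 k4
  rw [Set.inter_comm k, Set.inter_comm k] at s3
  rw [Set.inter_comm kᶜ, Set.inter_comm kᶜ] at s4
  rw [Set.diff_eq, Set.diff_eq, Set.inter_comm k]
  unfold Set.Infinite at k1 k2 k3 k4
  tauto

end Pool.Agent.Lib.MP_3467cd_al
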