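import Pool.Agent.Lib.MP_3467cd_al.CuFl1
import Pool.Agent.Lib.MP_3467cd_al.CuNice
import Pool.Agent.Lib.MP_3467cd_al.Elem1
import Pool.Agent.Lib.MP_3467cd_al.Elem2

open Pointwise

namespace Pool.Agent.Lib.MP_3467cd_al.Cu

variable {G : Type} [Group G] {V : Type} [MulAction G V] {X : SimpleGraph V}

variable {L : ℕ}

/-- finite intersections of translates -/
def fl2_I (a : Set V) (T : Finset G) : Set V := {x | ∀ g ∈ T, x ∈ g • a}

theorem fl2_cvx (hc : IsCubulation G X) {a : Set V} (ha : IsHalf X a) (T : Finset G) :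
    Cvx X (fl2_I a T) := fun x hx y hy m hm g hg =>
  (ha.smul hc g).cvx hc.median x (hx g hg) y (hy g hg) m hm

theorem fl2_smul [DecidableEq G] (a : Set V) (T : Finset G) (g : G) :
    g • fl2_I a T = fl2_I a (T.image fun t => g * t) := by
  ext x
  simp only [fl2_I, Set.mem_smul_set_iff_inv_smul_mem, Set.mem_ofPred_eq, Finset.forall_mem_image,
    mul_inv_rev, mul_smul]

theorem fl2_inv (hc : IsCubulation G X) (a : Set V) (g : G) :
    ∀ k ∈ UU G X a, g • k ∈ UU G X a := by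
  classical
  rintro k ⟨hk, T, hT⟩
  refine ⟨hk.smul hc g, T.image fun t => g * t, ?_⟩
  have h : fl2_I a (T.image fun t => g * t) ⊆ g • k :=
    fl2_smul a T g ▸ Set.smul_set_mono hT
  exact h

theorem fl2_neg (U : Set (Set V)) (x y : V) : bus U y x = -bus U x y := by
  simp only [bus, neg_sub, and_comm]

theorem fl2_miss (hN : Nice0 G X L) {a : Set V} (ha : IsHalf X a) (z : V) :
    ∃ g : G, z ∉ g • a := by
  obtain ⟨R, hR⟩ := hN.cub.cobounded (F := ⊤) inferInstance z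
  obtain ⟨w, -, hw⟩ := hN.deep (ha.compl hN.cub.median) (R + 1)
  obtain ⟨f, -, hf⟩ := hR w
  refine ⟨f⁻¹, fun h => ?_⟩
  rw [Set.mem_inv_smul_set_iff] at h
  have := hw _ (not_not.2 h)
  omega

/-- finitely many members of `UU` have a common point (`helly` for the translates of `a`) -/
theorem uu_inter (hc : IsCubulation G X) {a : Set V} (ha : IsHalf X a)
    (H : ∀ g : G, (g • a ∩ a).Nonempty) (S : Set (Set V)) (hS : S.Finite) (hs : S ⊆ UU G X a)
    (T : Finset G) : ∃ y, (∀ k ∈ S, y ∈ k) ∧ ∀ g ∈ T, y ∈ g • a := by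
  classical
  induction S, hS using Set.Finite.induction_on generalizing T with
  | empty =>
    obtain ⟨y, hy⟩ := hc.median.helly T (fun g => g • a)
      (fun g _ => (ha.smul hc g).cvx hc.median) fun g _ g' _ => by
        obtain ⟨x, h1, h2⟩ := H (g'⁻¹ * g)
        rw [mul_smul, Set.mem_inv_smul_set_iff] at h1
        exact ⟨g' • x, h1, Set.smul_mem_smul_set h2⟩
    exact ⟨y, by simp, hy⟩
  | @insert k S _ _ ih =>
    obtain ⟨-, T', hT'⟩ := hs (Set.mem_insert k S)
    obtain ⟨y, h1, h2⟩ := ih ((Set.subset_insert k S).trans hs) (T ∪ T')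
    refine ⟨y, Set.forall_mem_insert.2 ⟨hT' y fun g hg => h2 g (Finset.mem_union_right _ hg), h1⟩,
      fun g hg => h2 g (Finset.mem_union_left _ hg)⟩

/-- Let `β g = bus U x0 (g • x0)`, `U = UU G X a`. For a finite set `F` of elements with
`|β g| ≤ r`: every vertex misses some translate of `a` (`cobounded`, `aᶜ` deep), so there is a
finite intersection `I0` of translates whose gate from `x0` is far; `sep X x0 gate ⊆ U`
(`IsGate.subset`); take a long chain in it, whose last `L + 1` members miss all `g • x0`,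
`g ∈ F`. Let `I` be a finite intersection of translates with `g • I ⊆ I0` for `g ∈ F`, `p` the gate
of `x0` in `I`. For `g1, g2 ∈ F` apply `bus_close` to `u = g1 • p`, `v = g2 • p` and `y` from
`uu_inter`. So `g1⁻¹ * g2` moves `p` boundedly and `exists_card_bound` bounds `F.card`. -/
theorem bus_proper (hN : Nice0 G X L) {a : Set V} (ha : IsHalf X a)
    (H : ∀ g : G, (g • a ∩ a).Nonempty) (x0 : V) (r : ℕ) :
    {g : G | |bus (UU G X a) x0 (g • x0)| ≤ r}.Finite := by
  classical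
  have hc := hN.cub
  have hM := hc.median
  have hU : ∀ k ∈ UU G X a, IsHalf X k := fun k hk => hk.1
  have hne : ∀ T : Finset G, (fl2_I a T).Nonempty := fun T =>
    (uu_inter hc ha H ∅ Set.finite_empty (Set.empty_subset _) T).imp fun _ h => h.2
  obtain ⟨D, hD⟩ := hc.exists_dim
  obtain ⟨s, hs⟩ := exists_card_bound hc (5 * (D * L) + 2 * r)
  by_contra hinf
  obtain ⟨F, hF, hcard⟩ := Set.Infinite.exists_subset_card_eq hinf (s + 1)
  obtain ⟨R, hR⟩ : ∃ R, ∀ g ∈ F, X.dist (g • x0) x0 ≤ R :=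
    ⟨F.sup fun g => X.dist (g • x0) x0, fun g hg =>
      Finset.le_sup (f := fun g => X.dist (g • x0) x0) hg⟩
  choose ms hms using fun z : V => fl2_miss hN ha z
  obtain ⟨T0, hT0⟩ : ∃ T0 : Finset G, ∀ y ∈ fl2_I a T0, D * (R + L) < X.dist x0 y :=
    ⟨(hc.ball_finite x0 (D * (R + L))).toFinset.image ms, fun y hy => lt_of_not_ge fun h =>
      hms y (hy _ (Finset.mem_image_of_mem _ ((Set.Finite.mem_toFinset _).2 h)))⟩
  obtain ⟨p0, hp0⟩ := hM.exists_gate (fl2_cvx hc ha T0) (hne T0) x0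
  obtain ⟨c, hch, hcs⟩ := hD.chain_of_dist hM (R + L) (hT0 _ hp0.1)
  have hc' : Chn X L fun j => c (R + j) :=
    ⟨fun i hi => hch.1 _ (by omega), fun i hi => hch.2 (R + i) (by omega)⟩
  have hmiss : ∀ g ∈ F, g • x0 ∉ c (R + 0) := fun g hg h => by
    have h1 := (hch.nest (Nat.zero_le (R + 0)) (by omega)).le_dist hM h (hcs 0 (by omega)).2.1
    have h2 := hR g hg
    omega
  obtain ⟨T1, hT1⟩ : ∃ T1 : Finset G, ∀ g ∈ F, ∀ x ∈ fl2_I a T1, g • x ∈ fl2_I a T0 :=
    ⟨(F ×ˢ T0).image fun q => q.1⁻¹ * q.2, fun g hg x hx t ht => by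
      have := hx _ (Finset.mem_image_of_mem _ (Finset.mk_mem_product hg ht))
      rwa [mul_smul, Set.mem_inv_smul_set_iff] at this⟩
  obtain ⟨p, hp⟩ := hM.exists_gate (fl2_cvx hc ha T1) (hne T1) x0
  have hin : ∀ g ∈ F, g • p ∈ c (R + L) := fun g hg =>
    hp0.subset hM (hcs _ le_rfl).1 (hcs _ le_rfl).2.1 (hcs _ le_rfl).2.2 (hT1 g hg p hp.1)
  have hg : ∀ g : G, IsGate X (fl2_I a (T1.image fun t => g * t)) (g • x0) (g • p) := fun g =>
    fl2_smul a T1 g ▸ hp.smul hc g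
  have hsep : ∀ g : G, sep X (g • x0) (g • p) ⊆ UU G X a := fun g k hk =>
    ⟨hk.1, _, (hg g).subset hM hk.1 hk.2.1 hk.2.2⟩
  obtain ⟨g1, hg1⟩ : F.Nonempty := Finset.card_pos.1 (by omega)
  have key : ∀ g2 ∈ F, X.dist p ((g1⁻¹ * g2) • p) ≤ 5 * (D * L) + 2 * r := fun g2 hg2 => by
    obtain ⟨y, hy, hy'⟩ := uu_inter hc ha H {k ∈ UU G X a | ¬ (g1 • p ∈ k ↔ g2 • p ∈ k)}
      (((hM.sep_finite (g1 • p) (g2 • p)).union (hM.sep_finite (g2 • p) (g1 • p))).subset
        fun k hk => by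
          by_cases h : g1 • p ∈ k
          · exact Or.inr ⟨hk.1.1, fun h' => hk.2 (iff_of_true h h'), h⟩
          · exact Or.inl ⟨hk.1.1, h, not_not.1 fun h' => hk.2 (iff_of_false h h')⟩)
      (Set.sep_subset _ _) ((T1.image fun t => g1 * t) ∪ T1.image fun t => g2 * t)
    have e : bus (UU G X a) (g2 • p) (g1 • p) =
        bus (UU G X a) x0 (g1 • x0) - bus (UU G X a) x0 (g2 • x0) := by
      rw [bus_add hM hU (g2 • p) (g2 • x0), bus_add hM hU (g2 • x0) x0,
        bus_add hM hU x0 (g1 • x0) (g1 • p), bus_smul (fl2_inv hc a), bus_smul (fl2_inv hc a),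
        fl2_neg _ x0 p, fl2_neg _ x0 (g2 • x0)]
      ring
    have h1 := abs_le.1 (Set.mem_ofPred_eq ▸ hF hg1 :)
    have h2 := abs_le.1 (Set.mem_ofPred_eq ▸ hF hg2 :)
    have h3 := bus_close hM hD hN.thin hU hc' (hmiss g1 hg1) (hmiss g2 hg2) (hin g1 hg1)
      (hin g2 hg2) ((hg g1).2 y fun t ht => hy' t (Finset.mem_union_left _ ht))
      ((hg g2).2 y fun t ht => hy' t (Finset.mem_union_right _ ht)) (hsep g1) (hsep g2)
      (fun k hk h => hy k ⟨hk, h⟩) (r := 2 * r) (by rw [e, abs_le]; push_cast; omega)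
    rwa [← hc.dist_smul g1, mul_smul, smul_inv_smul]
  have h4 : (F.image fun g => g1⁻¹ * g).card ≤ s := by
    rw [← Set.ncard_coe_finset]
    refine (Set.ncard_le_ncard ?_ (hc.proper_dist p p _)).trans (hs p)
    intro g hg'
    obtain ⟨g2, hg2, rfl⟩ := Finset.mem_image.1 hg'
    exact key g2 hg2
  rw [Finset.card_image_of_injective _ (mul_right_injective _)] at h4
  omega

/-- `line_normalize` and `goal_of_line` with `ε = 1`, `t = β`. -/
theorem flip_or_goal (hN : Nice0 G X L) :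
    Goal G ∨ ∀ a, IsHalf X a → ∃ g : G, Disjoint (g • a) a := by
  refine or_iff_not_imp_right.2 fun h => ?_
  push Not at h
  obtain ⟨a, ha, H⟩ := h
  have H' : ∀ g : G, (g • a ∩ a).Nonempty := fun g => Set.not_disjoint_iff_nonempty_inter.1 (H g)
  have := hN.cub.infinite_of_good (hN.good ha)
  obtain ⟨x0, -⟩ := ha.nonempty
  obtain ⟨t, h1, h2, h3⟩ := line_normalize (fun _ : G => 1) (fun g => bus (UU G X a) x0 (g • x0))
    (fun _ => Or.inl rfl) (fun _ _ => (mul_one _).symm) (fun g g' => by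
      rw [bus_add hN.cub.median (fun k hk => hk.1) x0 (g • x0), mul_smul,
        bus_smul (fl2_inv hN.cub a), one_mul, add_comm]) (bus_proper hN ha H' x0)
  exact goal_of_line (fun _ : G => 1) t (fun _ => Or.inl rfl) (fun _ _ => (mul_one _).symm) h1 h2 h3

/-- `k` with `Nest X L k aᶜ`; flip `kᶜ ⊇ a`: `g • a ⊆ k`, so `Tight X a (g • a)`; `place0 ⊤`. -/
theorem place_of_flip (hN : Nice0 G X L)
    (H : ∀ a, IsHalf X a → ∃ g : G, Disjoint (g • a) a) : Place G X := by
  intro a h ha hh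
  have hM := hN.cub.median
  obtain ⟨k, hk, hn⟩ := hN.cub.deep_nest (ha.compl hM) (hN.deep (ha.compl hM)) hN.one
  obtain ⟨g, hg⟩ := H kᶜ (hk.1.compl hM)
  have h1 : g • a ⊆ k :=
    (Set.smul_set_mono (Set.subset_compl_comm.1 hn.subset)).trans
      (Set.disjoint_compl_right_iff_subset.1 hg)
  have h2 := hN.bridge.2 a _ ha (hn.enlarge hN.one (ha.smul hN.cub g) (ha.compl hM) h1 subset_rfl)
  obtain ⟨f, -, hf | hf⟩ := hN.cub.place0 (F := ⊤) inferInstance (ha.cvx hM) h2 hh (hN.deep hh)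
  · exact ⟨f, hf⟩
  · exact ⟨f * g, by rwa [mul_smul]⟩

end Pool.Agent.Lib.MP_3467cd_al.Cu
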