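import Pool.Agent.Lib.MP_3467cd_al.CuSD

open Pointwise

namespace Pool.Agent.Lib.MP_3467cd_al.Cu

variable {G : Type} [Group G] {V : Type} [MulAction G V] {X : SimpleGraph V}


theorem ov_anti {A : ℕ → Set V} {p : ℕ} (hA : ∀ i j, i < j → j ≤ p → SD X (A j) (A i)ᶜ) {i j : ℕ}
    (hij : i ≤ j) (hj : j ≤ p) : A j ⊆ A i := by
  rcases hij.eq_or_lt with rfl | h
  exacts [subset_rfl, (hA i j h hj).subset]

theorem ov_cmp {A : ℕ → Set V} {p : ℕ} (hA : ∀ i j, i < j → j ≤ p → SD X (A j) (A i)ᶜ) {x y : V}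
    (x1 : x ∈ A p) (y1 : y ∉ A 0) {k : Set V} (hk : IsHalf X k) (x2 : x ∈ k) (y2 : y ∉ k) (i : ℕ)
    (hi : i + 1 ≤ p) : A (i + 1) ⊆ k ∨ k ⊆ A i :=
  (hA i (i + 1) i.lt_succ_self hi).cmp hk (ov_anti hA hi le_rfl x1) x2
    (fun h => y1 (ov_anti hA i.zero_le (by omega) h)) y2

theorem ov_chn {A : ℕ → Set V} {p : ℕ} (hA : ∀ i j, i < j → j ≤ p → SD X (A j) (A i)ᶜ)
    (hA' : ∀ i ≤ p, IsHalf X (A i)) (i t : ℕ) (h : i + t ≤ p) : Chn X t fun l => A (i + l) :=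
  ⟨fun _ _ => hA' _ (by omega), fun l _ => (hA (i + l) (i + (l + 1)) (by omega) (by omega)).ssubset⟩

/-- Two strongly separated chains crossed by a common segment. Suppose the second alternative
fails. If `R 1 ⊆ A 0` then all `A i` contain `R m`, and `A (i1 + t0 + 2) ⊆ R 0` since otherwise
`R 0 ⊆ A (i1 + t0 + 1)` gives a chain between `R 0` and `hi`. If `A p ⊆ R (m - 1)` argue
symmetrically with `lo`. Otherwise `A 0 ⊆ R 0` and `R m ⊆ A p`. Everything is `SD.cmp`. -/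
theorem ov {A R : ℕ → Set V} {p m k t0 i1 i2 : ℕ} {hi lo : Set V} {x y : V}
    (hA : ∀ i j, i < j → j ≤ p → SD X (A j) (A i)ᶜ)
    (hR : ∀ i j, i < j → j ≤ m → SD X (R j) (R i)ᶜ)
    (hA' : ∀ i ≤ p, IsHalf X (A i)) (hR' : ∀ i ≤ m, IsHalf X (R i))
    (x1 : x ∈ A p) (x2 : x ∈ R m) (y1 : y ∉ A 0) (y2 : y ∉ R 0)
    (s1 : SB X (R 0) hi t0) (s2 : SB X lo (R m) t0) (a1 : A i1 ⊆ hi) (a2 : lo ⊆ A i2)
    (l1 : i1 + k + t0 + 2 ≤ p) (l2 : k + t0 + 2 ≤ i2) (l3 : i2 ≤ p) (l4 : k + 3 ≤ m) :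
    (∃ i, i + k ≤ p ∧ R m ⊆ A (i + k) ∧ A i ⊆ R 0) ∨
      ∃ j, j + k ≤ m ∧ A p ⊆ R (j + k) ∧ R j ⊆ A 0 := by
  have h1 : A (i1 + t0 + 1) ⊆ R 0 :=
    (ov_cmp hA x1 y1 (hR' 0 m.zero_le) (ov_anti hR m.zero_le le_rfl x2) y2 (i1 + t0)
      (by omega)).resolve_right fun h => s1 _ (ov_chn hA hA' i1 t0 (by omega)) h a1
  obtain ⟨i3, rfl⟩ : ∃ i3, i2 = i3 + 1 + t0 := ⟨i2 - t0 - 1, by omega⟩
  have h2 : R m ⊆ A i3 :=
    (ov_cmp hA x1 y1 (hR' m le_rfl) x2 (fun h => y2 (ov_anti hR m.zero_le le_rfl h)) i3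
      (by omega)).resolve_left fun h => s2 _ (ov_chn hA hA' (i3 + 1) t0 l3) a2 h
  obtain ⟨m', rfl⟩ : ∃ m', m = m' + 1 := ⟨m - 1, by omega⟩
  rcases ov_cmp hR x2 y2 (hA' 0 p.zero_le) (ov_anti hA p.zero_le le_rfl x1) y1 0 (by omega) with
    h3 | h3
  · rcases ov_cmp hR x2 y2 (hA' p le_rfl) x1 (fun h => y1 (ov_anti hA p.zero_le le_rfl h)) m'
      le_rfl with h4 | h4
    · exact Or.inl ⟨i1 + t0 + 1, by omega, h4.trans (ov_anti hA (by omega) le_rfl), h1⟩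
    · exact Or.inr ⟨1, by omega, h4.trans (ov_anti hR (by omega) (by omega)), h3⟩
  · exact Or.inl ⟨0, by omega, h2.trans (ov_anti hA (by omega) (by omega)), h3⟩

end Pool.Agent.Lib.MP_3467cd_al.Cu
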