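import Pool.Agent.Lib.MP_3467cd_al.CuFr1
import Pool.Agent.Lib.MP_3467cd_al.CuF1
import Pool.Agent.Lib.MP_3467cd_al.CuAx2
import Pool.Agent.Lib.MP_3467cd_al.CuAx3
import Pool.Agent.Lib.MP_3467cd_al.CuOV

open Pointwise

namespace Pool.Agent.Lib.MP_3467cd_al.Cu

variable {G : Type} [Group G] {V : Type} [MulAction G V] {X : SimpleGraph V}

variable {L : ℕ}

theorem fr2_chain {Q : Ed → Prop} {N : ℕ} {a b : Ed} (H : Ch N a b) (hb : Q b) :
    ∃ w, Dp 0 a w ∧ Dp 0 w b ∧ Q w ∧ (w = a ∨ ∃ w', Next w' w ∧ Dp 0 a w' ∧ ¬ Q w') := by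
  induction H with
  | refl ω => exact ⟨ω, dp_refl ω, dp_refl ω, hb, Or.inl rfl⟩
  | @step n σ τ ρ h1 h2 ih =>
    by_cases hσ : Q σ
    · exact ⟨σ, dp_refl σ, (Ch.step h1 h2).dp (Nat.zero_le _), hσ, Or.inl rfl⟩
    · obtain ⟨w, e1, e2, e3, e4⟩ := ih hb
      refine ⟨w, (h1.dp.trans e1).mono (Nat.zero_le _), e2, e3, Or.inr ?_⟩
      rcases e4 with rfl | ⟨w', f1, f2, f3⟩
      · exact ⟨σ, h1, dp_refl σ, hσ⟩
      · exact ⟨w', f1, (h1.dp.trans f2).mono (Nat.zero_le _), f3⟩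

theorem fr2_edge (hc : IsCubulation G X) {h : G} {c : Set V} {q : Option Bool → Set V}
    {o : Ty → Set V} {Ps : Set (Set V × Set V)} {t0 n : ℕ} (K : Link X h c q o Ps t0 n)
    (P : PreFrame G X) (h2 : P.μ = K.mu) (h3 : P.z = K.zed) (g : G) (ω : Ed) {u : G}
    (hu : u = g * K.pos ω.tail * K.gb ω.ty) :
    u • cc h c (K.ε ω.ty) 0 ⊆ g • P.ν ω ∧ SB X (u • cc h c (K.ε ω.ty) 0) (g • P.ν ω) t0 ∧
      u • cc h c (K.ε ω.ty) n ⊆ g • P.z ω ∧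
      g • P.μ ω ⊆ (g * K.pos ω.tail * K.a ω.ty) • o ω.ty ∧
      g • P.μ ω ⊆ u • cc h c (K.ε ω.ty) (2 * n - 1) ∧
      ∀ w, Next w ω → SB X (g • P.ν w) (u • cc h c (K.ε ω.ty) (2 * n - 1)) t0 := by
  have e1 : ∀ w, P.ν w = K.pos w.tail • q w.d := fun w => by
    rw [PreFrame.ν, h2, K.compl_mu_rev]
  have e2 : g • P.μ ω ⊆ (g * K.pos ω.tail * K.a ω.ty) • o ω.ty := by
    rw [h2, K.mu_eq, mul_smul, mul_smul]
    exact Set.smul_set_mono (Set.smul_set_mono (K.exit2 _))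
  subst hu
  refine ⟨?_, ?_, ?_, e2, e2.trans ?_, fun w hw => ?_⟩
  · rw [e1, mul_smul, mul_smul]
    exact Set.smul_set_mono (Set.smul_set_mono (K.top ω.ty))
  · rw [e1, mul_smul, mul_smul]
    exact ((K.top_sb ω.ty).smul hc _).smul hc _
  · rw [h3, Link.zed, mul_smul, mul_smul]
    exact Set.smul_set_mono (Set.smul_set_mono (K.mid1 ω.ty))
  · rw [mul_smul, mul_smul, mul_smul, mul_smul]
    exact Set.smul_set_mono (Set.smul_set_mono (K.exit1 ω.ty))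
  · rw [e1, hw.1, K.pos_head, mul_smul, mul_smul, mul_smul]
    refine ((K.low_sb ω.ty w.d fun e => hw.2 (Ed.eq_of_tail hw.1 ?_)).smul hc _).smul hc _
    rw [← Ed.ty_rev] at e
    exact e

theorem fr2_ee {h : G} {c : Set V} {k : ℕ}
    (hk : ∀ (γ : G) (ε ε1 ε2 : Bool) (i j j' : ℤ), γ • cc h c ε1 j ⊆ cc h c ε (i + k) →
      cc h c ε i ⊆ γ • cc h c ε2 j' → γ ∈ EE X h) {u v : G} {ε ε' : Bool} {i j j' : ℤ}
    (h1 : v • cc h c ε' j ⊆ u • cc h c ε (i + k)) (h2 : u • cc h c ε i ⊆ v • cc h c ε' j') :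
    u⁻¹ * v ∈ EE X h := by
  refine hk _ ε ε' ε' i j j' ?_ ?_
  · rw [mul_smul]
    exact Set.subset_smul_set_iff.1 h1
  · rw [mul_smul]
    exact Set.smul_set_subset_iff_subset_inv_smul_set.1 h2

/-- Put `A i = pos τ.tail • gb τ.ty • cc (ε τ.ty) (n + i)`, `0 ≤ i ≤ p = n - 1`, so that
`μ τ ⊆ A p` and `A 0 ⊆ z τ`. `dp_of_disjoint` gives a chain from `σ'` to `σ.rev`; by induction
along it there is an edge `w` with `Dp 0 σ' w`, `A i1 ⊆ g • ν w`, and an edge `w'` with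
`Next w' w` and `g • ν w' ⊆ A (i1 - 1)` (first edge of the chain with `A i1 ⊆ g • ν w`;
`SD.cmp`), where `i1 = k + t0 + 3`. Apply `ov` with
`R j = g • pos w.tail • gb w.ty • cc (ε w.ty) j`, `m = 2 * n - 1`, `hi = g • ν w`,
`lo = g • ν w'`. In both cases `hk` puts `γ = (pos τ.tail * gb τ.ty)⁻¹ * g * pos w.tail * gb w.ty`
in `EE X h`. A point of `g • μ σ'` lies in both exits, so `hfree` gives `w.ty = τ.ty` and
`g * pos w.tail = pos τ.tail`. -/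
theorem Link.mal (hc : IsCubulation G X) {h : G} {c : Set V} (hA : SD X (h • c) cᶜ)
    {q : Option Bool → Set V} {o : Ty → Set V} {Ps : Set (Set V × Set V)} {t0 n k : ℕ}
    (K : Link X h c q o Ps t0 n)
    (hk : ∀ (γ : G) (ε ε1 ε2 : Bool) (i j j' : ℤ), γ • cc h c ε1 j ⊆ cc h c ε (i + k) →
      cc h c ε i ⊆ γ • cc h c ε2 j' → γ ∈ EE X h)
    (hfree : ∀ γ ∈ EE X h, ∀ t t', (γ • o t ∩ o t').Nonempty → γ = 1 ∧ t = t')
    (hn : 2 * (k + t0 + 3) + 2 ≤ n) (P : PreFrame G X) (h1 : P.ι = K.ι) (h2 : P.μ = K.mu)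
    (h3 : P.z = K.zed) (g : G) (σ σ' τ : Ed) (H1 : g • P.μ σ ⊆ P.z τ.rev)
    (H2 : g • P.μ σ' ⊆ P.μ τ) : g ∈ P.ι.range := by
  obtain ⟨u, hu⟩ : ∃ u, u = 1 * K.pos τ.tail * K.gb τ.ty := ⟨_, rfl⟩
  obtain ⟨-, -, a3, a4, a5, -⟩ := fr2_edge hc K P h2 h3 1 τ hu
  rw [one_smul] at a3 a4 a5
  rw [P.z_rev] at H1
  have hd : Disjoint (P.μ σ) (P.μ σ') := Set.disjoint_left.2 fun x hx hx' =>
    H1 (Set.smul_mem_smul_set hx) (P.μ_sub_z τ (H2 (Set.smul_mem_smul_set hx')))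
  obtain ⟨N, -, hN⟩ := P.dp_of_disjoint hd
  obtain ⟨x, hx⟩ := ((P.μ_half σ').smul hc g).nonempty
  obtain ⟨y, hy⟩ := ((P.μ_half σ).smul hc g).nonempty
  have hanti : ∀ {i j : ℤ}, i ≤ j → u • cc h c (K.ε τ.ty) j ⊆ u • cc h c (K.ε τ.ty) i :=
    fun hij => Set.smul_set_mono (cc_anti hc hA _ hij)
  have hsd : ∀ (v : G) (ε : Bool) {i j : ℤ}, i < j →
      SD X (v • cc h c ε j) (v • cc h c ε i)ᶜ := fun v ε i j hij => by
    rw [← Set.smul_set_compl]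
    exact (cc_sd hc hA ε hij).smul hc v
  have hx1 : x ∈ u • cc h c (K.ε τ.ty) (2 * n - 1) := a5 (H2 hx)
  have hy1 : y ∉ u • cc h c (K.ε τ.ty) n := fun e => H1 hy (a3 e)
  have hν : ∀ w, Dp 0 w σ.rev → y ∉ g • P.ν w := fun w hw e => by
    have e' := Set.smul_set_mono (P.ν_mono hw) e
    rw [← P.compl_μ, Set.smul_set_compl] at e'
    exact e' hy
  have hμ : ∀ w, Dp 0 σ' w → x ∈ g • P.μ w := fun w hw => Set.smul_set_mono (P.μ_mono hw) hx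
  obtain ⟨w, w1, w2, w3, w4⟩ := fr2_chain
    (Q := fun w => u • cc h c (K.ε τ.ty) (n + (k + t0 + 3 : ℕ)) ⊆ g • P.ν w) hN (by
      rw [← P.compl_μ, Set.smul_set_compl]
      exact ((hanti (by omega)).trans a3).trans (Set.subset_compl_comm.1 H1))
  obtain ⟨w', w5, w6⟩ : ∃ w', Next w' w ∧
      g • P.ν w' ⊆ u • cc h c (K.ε τ.ty) (n + (k + t0 + 2 : ℕ)) := by
    rcases w4 with rfl | ⟨w', f1, f2, f3⟩
    · obtain ⟨w', -, -, f1, -⟩ := exists_two_next w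
      exact ⟨w', f1, (((Set.smul_set_mono (P.ν_sub_μ f1.dp)).trans H2).trans a5).trans
        (hanti (by omega))⟩
    · exact ⟨w', f1, ((hsd u _ (by omega)).cmp ((P.ν_half w').smul hc g)
        (hanti (by omega) hx1) (Set.smul_set_mono (P.μ_sub_ν w') (hμ w' f2))
        (fun e => hy1 (hanti (by omega) e))
        (hν w' ((f1.dp.trans w2).mono (Nat.zero_le _)))).resolve_left f3⟩
  obtain ⟨v, hv⟩ : ∃ v, v = g * K.pos w.tail * K.gb w.ty := ⟨_, rfl⟩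
  obtain ⟨b1, b2, -, b4, b5, b6⟩ := fr2_edge hc K P h2 h3 g w hv
  have em : ((2 * n - 1 : ℕ) : ℤ) = 2 * n - 1 := by omega
  have hγ : u⁻¹ * v ∈ EE X h := by
    rcases ov (X := X) (A := fun i => u • cc h c (K.ε τ.ty) (n + i))
      (R := fun j => v • cc h c (K.ε w.ty) j) (p := n - 1) (m := 2 * n - 1) (k := k) (t0 := t0)
      (i1 := k + t0 + 3) (i2 := k + t0 + 2) (hi := g • P.ν w) (lo := g • P.ν w') (x := x) (y := y)
      (fun i j hij _ => hsd u _ (by omega)) (fun i j hij _ => hsd v _ (by omega))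
      (fun i _ => (cc_half hc hA _ _).smul hc u) (fun i _ => (cc_half hc hA _ _).smul hc v)
      (hanti (by omega) hx1) (by rw [em]; exact b5 (hμ w w1)) (fun e => hy1 (hanti (by omega) e))
      (fun e => hν w w2 (b1 e)) b2 (by rw [em]; exact b6 w' w5) w3 w6 (by omega) le_rfl
      (by omega) (by omega) with ⟨i, -, c1, c2⟩ | ⟨j, -, c1, c2⟩
    · rw [Nat.cast_add, ← add_assoc] at c1
      exact fr2_ee hk c1 c2
    · rw [Nat.cast_add] at c1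
      have c3 := (EE X h).inv_mem (fr2_ee hk c1 c2)
      rwa [mul_inv_rev, inv_inv] at c3
  have hδ : (1 * K.pos τ.tail * K.a τ.ty)⁻¹ * (g * K.pos w.tail * K.a w.ty) ∈ EE X h := by
    have c4 := (EE X h).mul_mem ((EE X h).mul_mem
      ((EE X h).inv_mem (zpowers_le_EE hc (K.a_mem τ.ty))) hγ) (zpowers_le_EE hc (K.a_mem w.ty))
    rw [hu, hv] at c4
    refine (congrArg (· ∈ EE X h) ?_).mp c4
    group
  obtain ⟨d1, d2⟩ := hfree _ hδ w.ty τ.ty ⟨(1 * K.pos τ.tail * K.a τ.ty)⁻¹ • x, by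
    rw [mul_smul]
    exact Set.smul_mem_smul_set (b4 (hμ w w1)), Set.mem_smul_set_iff_inv_smul_mem.1 (a4 (H2 hx))⟩
  rw [inv_mul_eq_one, d2, one_mul, mul_left_inj] at d1
  have d3 : w.tail.s = τ.tail.s := congrArg Prod.fst d2
  rw [Link.pos, Link.pos, d3, ← mul_assoc, mul_left_inj] at d1
  exact ⟨τ.tail.f * w.tail.f⁻¹, by rw [h1, map_mul, map_inv, d1, mul_inv_cancel_right]⟩

theorem exists_frame (hN : Nice G X L) (hP : Place G X) : Nonempty (Frame G X) := by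
  obtain ⟨h, c, hA⟩ := hN.toNice0.axis hP
  obtain ⟨q, hq⟩ := hN.toNice0.ports
  obtain ⟨o, ho, ho', hfree⟩ := exists_free hN hA
  obtain ⟨Ps, hf, hPs, hpass⟩ := hN.toNice0.passes
  obtain ⟨k, hk⟩ := overlap hN.cub hA
  obtain ⟨t0, ht⟩ := exists_link hN.toNice0 hP hA hq ho ho' hf hPs
  obtain ⟨K⟩ := ht (2 * (k + t0 + 3) + 2) (by omega)
  obtain ⟨P, h1, h2, h3⟩ := K.exists_pre hN.cub hA hq (by omega)
  refine ⟨{ toPreFrame := P
            mal := K.mal hN.cub hA hk hfree le_rfl P h1 h2 h3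
            rstar := fun a b ha hb hab => ?_ }⟩
  obtain ⟨g, p, hp, e1, e2⟩ := hpass a b ha hb hab
  rw [h2]
  exact K.rstar hp e1 e2

end Pool.Agent.Lib.MP_3467cd_al.Cu
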