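import Pool.Agent.Lib.MP_3467cd_al.Act1

open Pointwise

namespace Pool.Agent.Lib.MP_3467cd_al

variable {G : Type} [Group G] {V : Type} [MulAction G V] {X : SimpleGraph V}

theorem hyp_compl (h : Set V) : hyp X hᶜ = hyp X h := by
  ext e
  constructor
  · rintro ⟨a, b, rfl, hab, ha, hb⟩
    exact ⟨b, a, Sym2.eq_swap, hab.symm, by simpa using hb, ha⟩
  · rintro ⟨a, b, rfl, hab, ha, hb⟩
    exact ⟨b, a, Sym2.eq_swap, hab.symm, hb, by simpa using ha⟩

theorem IsCubulation.image_hyp (hc : IsCubulation G X) (g : G) (h : Set V) :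
    Sym2.map (fun v => g • v) '' hyp X h = hyp X (g • h) := by
  ext e
  constructor
  · rintro ⟨e', ⟨a, b, rfl, hab, ha, hb⟩, rfl⟩
    refine ⟨g • a, g • b, by simp, hc.adj g a b hab, Set.smul_mem_smul_set ha, ?_⟩
    rwa [Set.smul_mem_smul_set_iff]
  · rintro ⟨a, b, rfl, hab, ha, hb⟩
    refine ⟨s(g⁻¹ • a, g⁻¹ • b), ⟨g⁻¹ • a, g⁻¹ • b, rfl, hc.adj g⁻¹ a b hab, ?_, ?_⟩, by simp⟩
    · exact Set.mem_smul_set_iff_inv_smul_mem.1 ha
    · exact fun H => hb (Set.mem_smul_set_iff_inv_smul_mem.2 H)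

theorem hypEss_mem_unique {h : Set V} {e : Sym2 V} (he : e ∈ hyp X h) {u v : V} (hu : u ∈ e)
    (hv : v ∈ e) (hu' : u ∈ h) (hv' : v ∈ h) : u = v := by
  obtain ⟨a, b, rfl, -, -, hb⟩ := he
  rw [Sym2.mem_iff] at hu hv
  rcases hu with rfl | rfl
  · rcases hv with rfl | rfl
    · rfl
    · exact absurd hv' hb
  · exact absurd hu' hb

/-- the hyperplane graph is isometric to the inner carrier -/
theorem IsHalf.exists_iota (hM : IsMedian X) {h : Set V} (hh : IsHalf X h) :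
    ∃ ι : hyp X h → V, (∀ e, ι e ∈ inn X h) ∧ (∀ e : hyp X h, ι e ∈ e.1) ∧
      (∀ a ∈ inn X h, ∃ e, ι e = a) ∧
      (∀ e e', (hypGraph X (hyp X h)).Adj e e' ↔ X.Adj (ι e) (ι e')) ∧
      ∀ e e', (hypGraph X (hyp X h)).dist e e' = X.dist (ι e) (ι e') := by
  have hch : ∀ e : hyp X h, ∃ a b, e.1 = s(a, b) ∧ X.Adj a b ∧ a ∈ h ∧ b ∉ h := fun e => e.2
  choose ι κ he hadj hι hκ using hch
  have hhc : IsHalf X hᶜ := hh.compl hM
  have hinn : ∀ e, ι e ∈ inn X h := fun e => ⟨hι e, κ e, hadj e, hκ e⟩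
  have hmem : ∀ e : hyp X h, ι e ∈ e.1 := fun e => by rw [he e]; exact Sym2.mem_mk_left _ _
  have hsurj : ∀ a ∈ inn X h, ∃ e, ι e = a := by
    rintro a ⟨ha, b, hab, hb⟩
    refine ⟨⟨s(a, b), a, b, rfl, hab, ha, hb⟩, ?_⟩
    exact hypEss_mem_unique (X := X) ⟨a, b, rfl, hab, ha, hb⟩ (hmem ⟨s(a, b), _⟩)
      (Sym2.mem_mk_left _ _) (hι _) ha
  have hinj : ∀ e e', ι e = ι e' → e = e' := by
    intro e e' H
    have h2 : κ e = κ e' :=
      hh.partner_unique hM (hι e) (hadj e) (by rw [H]; exact hadj e') (hκ e) (hκ e')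
    apply Subtype.ext
    rw [he e, he e', H, h2]
  have htw : ∀ e e', X.Adj (ι e) (κ e') → X.Adj (κ e) (ι e') → e = e' := by
    intro e e' h1 h2
    apply hinj
    exact hhc.partner_unique hM (a := κ e) (hκ e) (hadj e).symm h2 (by simpa using hι e)
      (by simpa using hι e')
  have hrel : ∀ e e' : hyp X h, e ≠ e' → (∃ a b c d : V, (e : Sym2 V) = s(a, b) ∧
      (e' : Sym2 V) = s(c, d) ∧ X.Adj a c ∧ X.Adj b d) → X.Adj (ι e) (ι e') := by
    rintro e e' hne ⟨a, b, c, d, h1, h2, hac, hbd⟩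
    rw [he e, Sym2.eq_iff] at h1
    rw [he e', Sym2.eq_iff] at h2
    rcases h1 with ⟨rfl, rfl⟩ | ⟨rfl, rfl⟩ <;> rcases h2 with ⟨rfl, rfl⟩ | ⟨rfl, rfl⟩
    · exact hac
    · exact absurd (htw e e' hac hbd) hne
    · exact absurd (htw e e' hbd hac) hne
    · exact hbd
  have hiff : ∀ e e', (hypGraph X (hyp X h)).Adj e e' ↔ X.Adj (ι e) (ι e') := by
    intro e e'
    unfold hypGraph
    rw [SimpleGraph.fromRel_adj]
    constructor
    · rintro ⟨hne, H | H⟩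
      · exact hrel e e' hne H
      · exact (hrel e' e hne.symm H).symm
    · intro H
      have hne : e ≠ e' := by
        rintro rfl
        exact H.ne rfl
      refine ⟨hne, Or.inl ⟨ι e, κ e, ι e', κ e', he e, he e', H, ?_⟩⟩
      have hk : IsHalf X (half X (ι e) (ι e')) := isHalf_half H
      have hcr : Cross (half X (ι e) (ι e')) h :=
        hh.cross_of_sep_inn hM hk (hinn e) (hinn e') (left_mem_half H) (right_not_mem_half _ _)
      obtain ⟨-, -, z, hz1, hz2, hz3, -⟩ := hcr.symm.square hM hh hk (hι e) (left_mem_half H)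
        (hadj e) H (hκ e) (right_not_mem_half _ _)
      have : z = κ e' := hh.partner_unique hM (hι e') hz2 (hadj e') hz3 (hκ e')
      rw [← this]
      exact hz1
  refine ⟨ι, hinn, hmem, hsurj, hiff, ?_⟩
  have hwalk : ∀ n : ℕ, ∀ e e', X.dist (ι e) (ι e') = n →
      ∃ p : (hypGraph X (hyp X h)).Walk e e', p.length = n := by
    intro n
    induction n with
    | zero =>
      intro e e' H
      have := hinj e e' (hM.dist_eq_zero.1 H)
      subst this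
      exact ⟨SimpleGraph.Walk.nil, rfl⟩
    | succ n ih =>
      intro e e' H
      have hne : ι e ≠ ι e' := by
        intro h0
        rw [h0, SimpleGraph.dist_self] at H
        omega
      obtain ⟨x', hx1, hx2⟩ := hM.exists_step hne
      have hb : Btw X (ι e) x' (ι e') := by
        unfold Btw
        rw [dist_of_adj hx1]
        omega
      obtain ⟨e1, rfl⟩ := hsurj x' (hh.inn_cvx hM _ (hinn e) _ (hinn e') _ hb)
      obtain ⟨p, hp⟩ := ih e1 e' (by omega)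
      exact ⟨SimpleGraph.Walk.cons ((hiff e e1).2 hx1) p, by simp [hp]⟩
  intro e e'
  obtain ⟨p, hp⟩ := hwalk _ e e' rfl
  apply le_antisymm
  · rw [← hp]
    exact SimpleGraph.dist_le p
  · obtain ⟨q, hq⟩ := p.reachable.exists_walk_length_eq_dist
    let φ : hypGraph X (hyp X h) →g X := ⟨ι, fun {a b} H => (hiff a b).1 H⟩
    have := SimpleGraph.dist_le (q.map φ)
    rw [SimpleGraph.Walk.length_map, hq] at this
    exact this

theorem IsCubulation.hypEss_of (hc : IsCubulation G X)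
    (H : ∀ h k, IsHalf X h → IsHalf X k → Cross h k → ∃ a ∈ inn X h, ∀ r : ℕ, ∃ g : G,
      g • h = h ∧ g • a ∈ k ∧ ∀ y, y ∉ k → r ≤ X.dist (g • a) y) :
    HyperplaneEssential G X := by
  have hM := hc.median
  rintro w ⟨h, hh, rfl⟩ ⟨hY, ⟨e1, e2, hadj, rfl⟩, HI⟩
  obtain ⟨ι, hinn, hmem, hsurj, hiff, hdist⟩ := hh.exists_iota hM
  have h12 : X.Adj (ι e1) (ι e2) := (hiff e1 e2).1 hadj
  have hk : IsHalf X (half X (ι e1) (ι e2)) := isHalf_half h12
  have hmk : ∀ e, e ∈ half (hypGraph X (hyp X h)) e1 e2 ↔ ι e ∈ half X (ι e1) (ι e2) := by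
    intro e
    simp only [half, Set.mem_ofPred_eq, hdist]
  have hcr : Cross (half X (ι e1) (ι e2)) h :=
    hh.cross_of_sep_inn hM hk (hinn e1) (hinn e2) (left_mem_half h12) (right_not_mem_half _ _)
  obtain ⟨a, ha, Ha⟩ := H h _ hh hk hcr.symm
  obtain ⟨x, rfl⟩ := hsurj a ha
  obtain ⟨r, hr⟩ := HI x
  obtain ⟨g, hg1, hg2, hg3⟩ := Ha (r + 2)
  have him : Sym2.map (fun v => g • v) '' hyp X h = hyp X h := by
    rw [hc.image_hyp, hg1]
  have hy : Sym2.map (fun v => g • v) x.1 ∈ hyp X h :=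
    him.subset (Set.mem_image_of_mem _ x.2)
  have hιy : ι ⟨_, hy⟩ = g • ι x := by
    refine hypEss_mem_unique hy (hmem ⟨_, hy⟩) (Sym2.mem_map.2 ⟨ι x, hmem x, rfl⟩)
      (hinn _).1 ?_
    exact hg1.subset (Set.smul_mem_smul_set (hinn x).1)
  obtain ⟨a', b', hab, -, hb', hd⟩ := hr ⟨_, hy⟩ ⟨g, him, rfl⟩ ((hmk _).2 (by rw [hιy]; exact hg2))
  have h1 := hg3 (ι b') fun H => hb' ((hmk b').2 H)
  have h2 := hM.tri (g • ι x) (ι a') (ι b')
  rw [dist_of_adj ((hiff a' b').1 hab)] at h2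
  rw [hdist, hιy] at hd
  omega

theorem IsCubulation.singleOrbit_of (hc : IsCubulation G X) {h0 : Set V} (h0h : IsHalf X h0)
    (H : ∀ h, IsHalf X h → ∃ g : G, h = g • h0 ∨ h = (g • h0)ᶜ) : SingleOrbit G X := by
  have key : ∀ h, IsHalf X h → ∃ g : G, hyp X h = hyp X (g • h0) := by
    intro h hh
    obtain ⟨g, rfl | rfl⟩ := H h hh
    · exact ⟨g, rfl⟩
    · exact ⟨g, hyp_compl _⟩
  refine ⟨⟨hyp X h0, h0, h0h, rfl⟩, ?_⟩
  rintro w w' ⟨h, hh, rfl⟩ ⟨h', hh', rfl⟩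
  obtain ⟨g, hg⟩ := key h hh
  obtain ⟨g', hg'⟩ := key h' hh'
  refine ⟨g' * g⁻¹, ?_⟩
  rw [hg, hg', hc.image_hyp, smul_smul, inv_mul_cancel_right]

end Pool.Agent.Lib.MP_3467cd_al
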