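import Pool.Agent.Lib.MP_3467cd_al.Dual2b
import Pool.Agent.Lib.MP_3467cd_al.HypEss

open Pointwise

namespace Pool.Agent.Lib.MP_3467cd_al

variable {G : Type} [Group G] {Ω V : Type} [MulAction G Ω] [MulAction G V]
  {A : Set Ω} {P : Set Ω → Set V} {d : V → V → ℕ}

theorem WallSys.compat_finite (W : WallSys G A P d) (σ0 : Set (Set Ω)) (x : V) :
    {σ : DV (hs G A) σ0 | Compat (hs G A) P x σ.1}.Finite := by
  refine Set.Finite.of_injOn (f := fun σ : DV (hs G A) σ0 => σ.1 ∩ {α ∈ hs G A | x ∈ core P α})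
    (t := {T | T ⊆ {α ∈ hs G A | x ∈ core P α}}) (fun σ _ => Set.inter_subset_right) ?_
    (W.finCore x).finite_subsets
  have key : ∀ σ τ : DV (hs G A) σ0, Compat (hs G A) P x σ.1 → Compat (hs G A) P x τ.1 →
      σ.1 ∩ {α ∈ hs G A | x ∈ core P α} = τ.1 ∩ {α ∈ hs G A | x ∈ core P α} → σ.1 ⊆ τ.1 := by
    intro σ τ hσ hτ e α hα
    have hH : α ∈ hs G A := σ.2.1.1 hα
    by_cases hc : x ∈ core P α
    · have h1 : α ∈ σ.1 ∩ {α ∈ hs G A | x ∈ core P α} := ⟨hα, hH, hc⟩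
      rw [e] at h1
      exact h1.1
    · rcases not_not.1 hc with h1 | h1
      · exact hτ α hH h1
      · exact absurd (hσ αᶜ (compl_mem_hs hH) h1) (σ.2.1.compl_not_mem hα)
  intro σ hσ τ hτ e
  exact Subtype.ext (Set.Subset.antisymm (key σ τ hσ hτ e) (key τ σ hτ hσ e.symm))

/-- vertices at bounded distance are compatible with points at bounded distance -/
theorem WallSys.compat_dist (W : WallSys G A P d) {σ0 : Set (Set Ω)} (hP : Poc (hs G A) σ0) :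
    ∃ R : ℕ, ∀ (n : ℕ) (σ τ : DV (hs G A) σ0) (x y : V), Compat (hs G A) P x σ.1 →
      Compat (hs G A) P y τ.1 → (dual (hs G A) σ0).dist σ τ ≤ n → d x y ≤ (n + 1) * R := by
  obtain ⟨R, hR⟩ := W.sepa
  have base : ∀ (σ : DV (hs G A) σ0) (x y : V), Compat (hs G A) P x σ.1 →
      Compat (hs G A) P y σ.1 → d x y ≤ R := by
    intro σ x y hx hy
    by_contra hlt
    obtain ⟨α, hα, h1, h2⟩ := hR x y (le_of_lt (not_le.1 hlt))
    exact σ.2.1.compl_not_mem (hx α hα h1) (hy αᶜ (compl_mem_hs hα) h2)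
  have hM := dual_median hP
  refine ⟨R, fun n => ?_⟩
  induction n with
  | zero =>
    intro σ τ x y hx hy hd
    have e : σ = τ := hM.dist_eq_zero.1 (Nat.le_zero.1 hd)
    subst e
    simpa using base σ x y hx hy
  | succ n ih =>
    intro σ τ x y hx hy hd
    by_cases e : σ = τ
    · subst e
      have := base σ x y hx hy
      nlinarith
    · obtain ⟨σ', hadj, hd'⟩ := hM.exists_step e
      obtain ⟨α, hα⟩ := dual_adj.1 hadj
      obtain ⟨z, -, hz1, hz2⟩ := W.exists_compat_edge hP hα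
      have h1 := base σ x z hx hz1
      have h2 := ih σ' τ z y hz2 hy (by omega)
      have h3 := W.tri x z y
      nlinarith

theorem WallSys.cubulation (W : WallSys G A P d) {σ0 : Set (Set Ω)} (hP : Poc (hs G A) σ0)
    [MulAction G (DV (hs G A) σ0)]
    (hact : ∀ (g : G) (σ : DV (hs G A) σ0), (g • σ).1 = g • σ.1) :
    IsCubulation G (dual (hs G A) σ0) := by
  obtain ⟨R, hR⟩ := W.compat_dist hP
  have hex : ∀ σ : DV (hs G A) σ0, ∃ x, Compat (hs G A) P x σ.1 := fun σ => by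
    obtain ⟨x, hx, -⟩ := W.exists_compat hP σ ∅ Set.subsingleton_empty (by simp)
    exact ⟨x, hx⟩
  refine ⟨dual_median hP, ?_, ?_, ?_, ?_⟩
  · intro g σ τ h
    obtain ⟨α, hα⟩ := dual_adj.1 h
    refine dual_adj.2 ⟨g • α, ?_⟩
    rw [hact, hact, ← Set.smul_set_sdiff, hα, Set.smul_set_singleton]
  · intro σ
    obtain ⟨x, hx⟩ := hex σ
    refine ((W.ball x ((0 + 1) * R)).biUnion (fun y _ => W.compat_finite σ0 y)).subset ?_
    intro τ hτ
    obtain ⟨α, hα⟩ := dual_adj.1 hτ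
    obtain ⟨z, -, hz1, hz2⟩ := W.exists_compat_edge hP hα
    exact Set.mem_biUnion (x := z) (hR 0 σ σ x z hx hz1 (by simp)) hz2
  · intro σ
    obtain ⟨x, hx⟩ := hex σ
    refine (W.proper x ((0 + 1) * R)).subset fun g hg => ?_
    have h1 := Compat.smul W hx g
    have h2 : g • σ = σ := hg
    rw [← hact, h2] at h1
    exact hR 0 σ σ x (g • x) hx h1 (by simp)
  · obtain ⟨S, hS⟩ := W.cocompact
    refine ⟨(S.finite_toSet.biUnion (fun y _ => W.compat_finite σ0 y)).toFinset, fun σ => ?_⟩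
    obtain ⟨x, hx⟩ := hex σ
    obtain ⟨g, hg⟩ := hS x
    refine ⟨g, (Set.Finite.mem_toFinset _).2 (Set.mem_biUnion (x := g • x) hg ?_)⟩
    have h1 := Compat.smul W hx g
    rwa [← hact] at h1

theorem smul_dual_half {σ0 : Set (Set Ω)} [MulAction G (DV (hs G A) σ0)]
    (hact : ∀ (g : G) (σ : DV (hs G A) σ0), (g • σ).1 = g • σ.1) (g : G) (α : Set Ω) :
    g • {μ : DV (hs G A) σ0 | α ∈ μ.1} = {μ | g • α ∈ μ.1} := by
  ext μ
  rw [Set.mem_smul_set_iff_inv_smul_mem, Set.mem_ofPred_eq, Set.mem_ofPred_eq, hact,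
    Set.mem_inv_smul_set_iff]

theorem WallSys.essential (W : WallSys G A P d) {σ0 : Set (Set Ω)} (hP : Poc (hs G A) σ0)
    (hex : ∀ α ∈ hs G A, ∃ σ : DV (hs G A) σ0, α ∈ σ.1) [MulAction G (DV (hs G A) σ0)]
    (hact : ∀ (g : G) (σ : DV (hs G A) σ0), (g • σ).1 = g • σ.1) :
    HyperplaneEssential G (dual (hs G A) σ0) := by
  have hc := W.cubulation hP hact
  have hM := hc.median
  obtain ⟨R, hR⟩ := W.compat_dist hP
  have hedge : ∀ (σ τ : DV (hs G A) σ0) (α : Set Ω), (dual (hs G A) σ0).Adj σ τ → α ∈ σ.1 →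
      α ∉ τ.1 → σ.1 \ τ.1 = {α} := by
    intro σ τ α h h1 h2
    obtain ⟨γ, hγ⟩ := dual_adj.1 h
    have h3 : α ∈ σ.1 \ τ.1 := ⟨h1, h2⟩
    rw [hγ] at h3
    rw [hγ, Set.mem_singleton_iff.1 h3]
  refine hc.hypEss_of fun h k hh hk hcr => ?_
  obtain ⟨σ, hσ⟩ := hh.inn_nonempty
  obtain ⟨α, hα, rfl⟩ := (dual_isHalf hP hex).1 hh
  obtain ⟨β, hβ, rfl⟩ := (dual_isHalf hP hex).1 hk
  have hcross : Cross α β := by
    obtain ⟨⟨μ1, a1, b1⟩, ⟨μ2, a2, b2⟩, ⟨μ3, a3, b3⟩, ⟨μ4, a4, b4⟩⟩ := hcr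
    exact ⟨μ1.2.1.2.2 _ a1 _ b1, μ2.2.1.2.2 _ a2 _ (μ2.2.1.compl_mem hβ b2),
      μ3.2.1.2.2 _ (μ3.2.1.compl_mem hα a3) _ b3,
      μ4.2.1.2.2 _ (μ4.2.1.compl_mem hα a4) _ (μ4.2.1.compl_mem hβ b4)⟩
  refine ⟨σ, hσ, fun r => ?_⟩
  obtain ⟨h1, τ, hadj, h2⟩ := hσ
  obtain ⟨x, hx, hxσ, -⟩ := W.exists_compat_edge hP (hedge σ τ α hadj h1 h2)
  obtain ⟨s, hs1, hs2, hs3⟩ := W.ess α hα β hβ hcross x hx ((r + 1) * R + 1)
  have hcomp := Compat.smul W hxσ s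
  rw [← hact] at hcomp
  have hmem : β ∈ (s • σ).1 := hcomp β hβ hs2
  refine ⟨s, by rw [smul_dual_half hact, hs1], hmem, fun y hy => ?_⟩
  obtain ⟨a, b, hab, ha, hb, hbt, -, -⟩ :=
    hM.exit_edge (A := {μ : DV (hs G A) σ0 | β ∈ μ.1}) (x := s • σ) hmem hy
  obtain ⟨z, hz, hza, -⟩ := W.exists_compat_edge hP (hedge a b β hab ha hb)
  by_contra hlt
  unfold Btw at hbt
  have h3 := hR r (s • σ) a (s • x) z hcomp hza (by omega)
  have h4 := hs3 z hz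
  omega

theorem WallSys.single (W : WallSys G A P d) {σ0 : Set (Set Ω)} (hP : Poc (hs G A) σ0)
    (hex : ∀ α ∈ hs G A, ∃ σ : DV (hs G A) σ0, α ∈ σ.1) [MulAction G (DV (hs G A) σ0)]
    (hact : ∀ (g : G) (σ : DV (hs G A) σ0), (g • σ).1 = g • σ.1) :
    SingleOrbit G (dual (hs G A) σ0) := by
  have hc := W.cubulation hP hact
  have hA : A ∈ hs G A := ⟨1, Or.inl (one_smul G A).symm⟩
  refine hc.singleOrbit_of (h0 := {μ : DV (hs G A) σ0 | A ∈ μ.1})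
    ((dual_isHalf hP hex).2 ⟨A, hA, rfl⟩) fun h hh => ?_
  obtain ⟨α, ⟨g, hg⟩, rfl⟩ := (dual_isHalf hP hex).1 hh
  refine ⟨g, ?_⟩
  rw [smul_dual_half hact]
  rcases hg with rfl | rfl
  · exact Or.inl rfl
  · refine Or.inr ?_
    ext μ
    exact ⟨fun h1 h2 => μ.2.1.compl_not_mem h2 h1,
      fun h1 => μ.2.1.compl_mem (smul_mem_hs hA g) h1⟩

theorem WallSys.goal (W : WallSys G A P d) : Goal G := by
  obtain ⟨x0, -⟩ := W.helly ∅ Set.finite_empty (Set.empty_subset _) (by simp)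
  obtain ⟨ω, -⟩ := W.ne.1
  obtain ⟨σ0, h0, hx, -⟩ := W.exists_ori x0 ω
  have hP := W.poc h0 hx
  obtain ⟨inst, hact⟩ := W.exists_action h0 hx
  exact ⟨_, dual (hs G A) σ0, inst, W.cubulation hP hact,
    W.essential hP (W.exists_mem h0 hx) hact, W.single hP (W.exists_mem h0 hx) hact⟩

end Pool.Agent.Lib.MP_3467cd_al
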