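import Pool.Agent.Lib.MP_3467cd_al.Tri5

open Pointwise

namespace Pool.Agent.Lib.MP_3467cd_al

variable {G : Type} [Group G] {V : Type} [MulAction G V] {X : SimpleGraph V}
  {F : Subgroup G} {E : Set (Set V)} {j : ℕ}

theorem key_outer_ne (hc : IsCubulation G X) (hS : Sys X F E j) (y0 : V) (δ : Bool) (o : Set V) :
    ∃ k, Outer X (fam F E) y0 k ∧ typ F E δ k ∧ k ≠ o := by
  obtain ⟨o1, o2, hne, h1, h2, t1, t2⟩ := hS.two_outer hc y0 δ
  by_cases e : o1 = o
  · exact ⟨o2, h2, t2, fun e' => hne (e.trans e'.symm)⟩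
  · exact ⟨o1, h1, t1, e⟩

theorem key_side_unique (hc : IsCubulation G X) (hS : Sys X F E j) {y0 x : V} {ε ε' : Bool}
    (h : x ∈ side X F E y0 ε) (h' : x ∈ side X F E y0 ε') : ε = ε' := by
  by_contra hne
  have e : ε' = !ε := by
    revert hne
    cases ε <;> cases ε' <;> simp
  exact Set.disjoint_left.1 (hS.side_disjoint hc y0 ε) h (e ▸ h')

/-- in the nested case one quarter is empty -/
theorem Sys.caseN_empty (hc : IsCubulation G X) (hS : Sys X F E j) {y0 : V} {g : G}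
    (H : CaseN X F E y0 g) :
    ∃ ε ε', Disjoint (side X F E y0 ε) (g • side X F E y0 ε') ∧
      ∀ δ δ', ¬ (δ = ε ∧ δ' = ε') →
        ∃ h, Good X h ∧ h ⊆ side X F E y0 δ ∧ h ⊆ g • side X F E y0 δ' := by
  obtain ⟨o, o', ho, ho', h1, h2, -, -⟩ := H
  obtain ⟨τ, hτ⟩ := typ_of_mem_fam ho.1
  obtain ⟨τ', hτ'⟩ := typ_of_mem_fam ho'.1
  have hG := hS.gfam hc
  refine ⟨!τ, !τ', Set.disjoint_left.2 ?_, fun δ δ' hδ => ?_⟩
  · rintro x ⟨k, hk, tk, hx⟩ hx'
    rw [Set.mem_smul_set_iff_inv_smul_mem] at hx'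
    obtain ⟨k', hk', tk', hx'⟩ := hx'
    have e1 : k ≠ o := fun e => by
      have := hS.typ_unique hc tk (e ▸ hτ)
      cases τ <;> simp at this
    have e2 : k' ≠ o' := fun e => by
      have := hS.typ_unique hc tk' (e ▸ hτ')
      cases τ' <;> simp at this
    have h3 := Set.mem_smul_set_iff_inv_smul_mem.1 (h1 k hk e1 hx)
    exact Set.disjoint_left.1 (hk'.disjoint hc.median hG.hfam (hG.lam hc.median) ho' e2) hx' h3
  · by_cases e : δ' = τ'
    · obtain ⟨k, hk, tk, hne⟩ := key_outer_ne hc hS y0 δ o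
      exact ⟨k, hG.1 k hk.1, subset_side hk tk, (h1 k hk hne).trans
        (Set.smul_set_mono (subset_side ho' (e ▸ hτ')))⟩
    · have e' : δ = τ := by
        revert hδ e
        cases δ <;> cases δ' <;> cases τ <;> cases τ' <;> simp
      obtain ⟨k, hk, tk, hne⟩ := key_outer_ne hc hS y0 δ' o'
      exact ⟨g • k, (hG.1 k hk.1).smul hc g, (h2 k hk hne).trans (subset_side ho (e' ▸ hτ)),
        Set.smul_set_mono (subset_side hk tk)⟩

/-- in the nested case a point of the component lying on a side of the other wall sees both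
sides of the first wall there -/
theorem Sys.caseN_point (hc : IsCubulation G X) (hS : Sys X F E j) {y0 : V} {g : G}
    (H : CaseN X F E y0 g) {x : V} (hx : x ∈ comp (fam F E) y0) {ε' : Bool}
    (hx' : x ∈ g • side X F E y0 ε') (δ : Bool) :
    ∃ h, Good X h ∧ h ⊆ side X F E y0 δ ∧ h ⊆ g • side X F E y0 ε' := by
  obtain ⟨o, o', ho, ho', h1, -, h3, -⟩ := H
  obtain ⟨τ', hτ'⟩ := typ_of_mem_fam ho'.1
  rw [Set.mem_smul_set_iff_inv_smul_mem] at hx'
  have h4 : g⁻¹ • x ∈ o' := by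
    rcases h3 hx with h | h
    · exact absurd (Set.mem_smul_set_iff_inv_smul_mem.1 h)
        (Set.disjoint_left.1 (side_disjoint_comp y0 ε') hx')
    · exact Set.mem_smul_set_iff_inv_smul_mem.1 h
  have e : ε' = τ' := key_side_unique hc hS hx' (subset_side ho' hτ' h4)
  obtain ⟨k, hk, tk, hne⟩ := key_outer_ne hc hS y0 δ o
  exact ⟨k, (hS.gfam hc).1 k hk.1, subset_side hk tk, (h1 k hk hne).trans
    (Set.smul_set_mono (subset_side ho' (e ▸ hτ')))⟩

theorem Sys.caseX_quarter (hc : IsCubulation G X) (hS : Sys X F E j) {y0 : V} {g : G}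
    (H : CaseX X F E y0 g) (δ δ' : Bool) :
    ∃ h, Good X h ∧ h ⊆ side X F E y0 δ ∧ h ⊆ g • side X F E y0 δ' := by
  obtain ⟨o', ho', to', f, hf, hrel, hss⟩ := H.2 δ'
  obtain ⟨o, -, -, ho, -, tpo, -⟩ := hS.two_outer hc y0 δ
  have hG := hS.gfam hc
  have go := hG.1 o ho.1
  have gw := (hG.1 o' ho'.1).smul hc g
  obtain ⟨k1, k2, g1, g2, s1, s2, -, ht⟩ := hS.twoIn o go.1 go.2.1
  obtain ⟨p, r, hp⟩ := ht.cvx hc.median (g1.1.cvx hc.median)
  obtain ⟨i, -, hi⟩ := hc.skewer gw.1 hss p (r + 1)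
  have hfix : ∀ n : ℕ, f ^ n • side X F E y0 δ = side X F E y0 δ := by
    intro n
    induction n with
    | zero => rw [pow_zero, one_smul]
    | succ n ih => rw [pow_succ, mul_smul, smul_side_of_rel hc hf hrel, ih]
  have key : ∀ k, Good X k → k ⊆ o → ¬ ((f ^ i)⁻¹ • (g • o')ᶜ ∩ k).Nonempty →
      ∃ h, Good X h ∧ h ⊆ side X F E y0 δ ∧ h ⊆ g • side X F E y0 δ' := by
    intro k gk sk hk
    refine ⟨f ^ i • k, gk.smul hc _, ?_, ?_⟩
    · rw [← hfix i]
      exact Set.smul_set_mono (sk.trans (subset_side ho tpo))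
    · rintro _ ⟨z, hz, rfl⟩
      refine Set.smul_set_mono (subset_side ho' to') ?_
      by_contra hn
      refine hk ⟨z, ?_, hz⟩
      rw [Set.mem_smul_set_iff_inv_smul_mem, inv_inv]
      exact hn
  by_cases n1 : ((f ^ i)⁻¹ • (g • o')ᶜ ∩ k1).Nonempty
  · by_cases n2 : ((f ^ i)⁻¹ • (g • o')ᶜ ∩ k2).Nonempty
    · obtain ⟨q, hq, hd⟩ := hp _ (((gw.1.compl hc.median).cvx hc.median).smul hc _) n1 n2
      rw [Set.mem_smul_set_iff_inv_smul_mem, inv_inv] at hq
      have := hi _ hq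
      rw [hc.dist_smul] at this
      omega
    · exact key k2 g2 s2 n2
  · exact key k1 g1 s1 n1

theorem key_one (hc : IsCubulation G X) (hS : Sys X F E j) (y0 : V) (g : G) (δ δ' : Bool)
    (H : (side X F E y0 δ ∩ g • side X F E y0 δ').Nonempty) :
    ∃ h, Good X h ∧ h ⊆ side X F E y0 δ ∧ h ⊆ g • side X F E y0 δ' := by
  rcases hS.trichotomy hc y0 g with hN | hX | hQ
  · obtain ⟨ε, ε', hd, h⟩ := hS.caseN_empty hc hN
    refine h δ δ' ?_
    rintro ⟨rfl, rfl⟩
    exact Set.not_disjoint_iff_nonempty_inter.2 H hd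
  · exact hS.caseX_quarter hc hX δ δ'
  · obtain ⟨o, -, -, ho, -, tpo, -⟩ := hS.two_outer hc y0 δ
    have go := (hS.gfam hc).1 o ho.1
    obtain ⟨h, gh, sh, ε, hε⟩ := hS.avoid hc y0 g go.1 go.2.1
    have s1 : h ⊆ side X F E y0 δ := sh.trans (subset_side ho tpo)
    obtain ⟨z, hz⟩ := gh.1.nonempty
    have H2 : (side X F E y0 δ ∩ g • side X F E y0 ε).Nonempty := ⟨z, s1 hz, hε hz⟩
    have e : ε = δ' := by
      rcases hQ.1 with hd | hd
      · have a1 : δ' ≠ !δ := fun e => Set.not_disjoint_iff_nonempty_inter.2 H (e ▸ hd δ)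
        have a2 : ε ≠ !δ := fun e => Set.not_disjoint_iff_nonempty_inter.2 H2 (e ▸ hd δ)
        revert a1 a2
        cases δ <;> cases δ' <;> cases ε <;> simp
      · have a1 : δ' ≠ δ := fun e => Set.not_disjoint_iff_nonempty_inter.2 H (e ▸ hd δ')
        have a2 : ε ≠ δ := fun e => Set.not_disjoint_iff_nonempty_inter.2 H2 (e ▸ hd ε)
        revert a1 a2
        cases δ <;> cases δ' <;> cases ε <;> simp
    exact ⟨h, gh, s1, e ▸ hε⟩

/-- a nonempty intersection of two sides contains a good halfspace -/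
theorem Sys.key (hc : IsCubulation G X) (hS : Sys X F E j) (y0 : V) (g g' : G) (δ δ' : Bool)
    (H : (g • side X F E y0 δ ∩ g' • side X F E y0 δ').Nonempty) :
    ∃ h, Good X h ∧ h ⊆ g • side X F E y0 δ ∧ h ⊆ g' • side X F E y0 δ' := by
  have H' : (side X F E y0 δ ∩ (g⁻¹ * g') • side X F E y0 δ').Nonempty := by
    obtain ⟨x, h1, h2⟩ := H
    refine ⟨g⁻¹ • x, Set.mem_smul_set_iff_inv_smul_mem.1 h1, ?_⟩
    rw [mul_smul]
    exact Set.smul_mem_smul_set h2
  obtain ⟨h, gh, s1, s2⟩ := key_one hc hS y0 _ δ δ' H'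
  refine ⟨g • h, gh.smul hc g, Set.smul_set_mono s1, ?_⟩
  have := Set.smul_set_mono (a := g) s2
  rwa [smul_smul, mul_inv_cancel_left] at this

theorem exists_om_action (G : Type) [Group G] {V : Type} [MulAction G V] (Y : Set V) :
    ∃ _ : MulAction G (Om G Y), ∀ (g : G) (s : Set V), g • hat G Y s = hat G Y (g • s) := by
  have hm : ∀ (g : G) (s : Set V) (ω : Ultrafilter V),
      s ∈ Ultrafilter.map (fun v => g • v) ω ↔ g⁻¹ • s ∈ ω := fun g s ω => by
    rw [Ultrafilter.mem_map, Set.preimage_smul]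
  let act : G → Om G Y → Om G Y := fun g ω => ⟨Ultrafilter.map (fun v => g • v) ω.1, fun g' h =>
    ω.2 (g⁻¹ * g') (by rw [mul_smul]; exact (hm g _ _).1 h)⟩
  let inst : MulAction G (Om G Y) :=
    { smul := act
      one_smul := fun ω => Subtype.ext (Ultrafilter.ext fun s =>
        (hm 1 s ω.1).trans (by rw [inv_one, one_smul]))
      mul_smul := fun a b ω => Subtype.ext (Ultrafilter.ext fun s =>
        (hm (a * b) s ω.1).trans (by
          rw [mul_inv_rev, mul_smul, ← hm, ← hm]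
          rfl)) }
  refine ⟨inst, fun g s => ?_⟩
  ext ω
  rw [Set.mem_smul_set_iff_inv_smul_mem]
  exact (hm g⁻¹ s ω.1).trans (by rw [inv_inv]; rfl)

theorem hat_inter (Y s t : Set V) : hat G Y (s ∩ t) = hat G Y s ∩ hat G Y t := by
  ext ω
  exact Filter.inter_mem_iff

theorem hat_mono (Y : Set V) {s t : Set V} (h : s ⊆ t) : hat G Y s ⊆ hat G Y t := by
  exact fun ω hω => Filter.mem_of_superset hω h

theorem hat_empty (Y : Set V) : hat G Y (∅ : Set V) = ∅ := by
  exact Set.eq_empty_of_forall_notMem fun ω hω => Ultrafilter.empty_notMem hω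

theorem Sys.hat_good (hc : IsCubulation G X) (hS : Sys X F E j) (y0 : V) {h : Set V}
    (hh : Good X h) : (hat G (comp (fam F E) y0) h).Nonempty := by
  classical
  have key : ∀ T : Finset (Set V),
      (T : Set (Set V)) ⊆ insert h (Set.range fun g : G => (g • comp (fam F E) y0)ᶜ) →
      ∃ k, Good X k ∧ k ⊆ h ∧ ∀ t ∈ T, k ⊆ t := by
    intro T
    induction T using Finset.induction_on with
    | empty => exact fun _ => ⟨h, hh, le_rfl, fun t ht => absurd ht (Finset.notMem_empty t)⟩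
    | insert a T _ ih =>
      intro hT
      rw [Finset.coe_insert, Set.insert_subset_iff] at hT
      obtain ⟨k, gk, sk, hk⟩ := ih hT.2
      rcases hT.1 with e | ⟨g, e⟩
      · exact ⟨k, gk, sk, Finset.forall_mem_insert _ _ _ |>.2 ⟨e ▸ sk, hk⟩⟩
      · obtain ⟨k', gk', sk', ε, hε⟩ := hS.avoid hc y0 g gk.1 gk.2.1
        refine ⟨k', gk', sk'.trans sk, Finset.forall_mem_insert _ _ _ |>.2
          ⟨fun z hz => ?_, fun t ht => sk'.trans (hk t ht)⟩⟩
        rw [← e]
        exact fun hz' => Set.disjoint_left.1 (side_disjoint_comp y0 ε)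
          (Set.mem_smul_set_iff_inv_smul_mem.1 (hε hz)) (Set.mem_smul_set_iff_inv_smul_mem.1 hz')
  obtain ⟨ω, hω⟩ := Ultrafilter.exists_ultrafilter_of_finite_inter_nonempty
    (insert h (Set.range fun g : G => (g • comp (fam F E) y0)ᶜ)) fun T hT => by
      obtain ⟨k, gk, -, hk⟩ := key T hT
      obtain ⟨z, hz⟩ := gk.1.nonempty
      exact ⟨z, fun t ht => hk t ht hz⟩
  exact ⟨⟨ω, fun g => Ultrafilter.compl_mem_iff_notMem.1 (hω (Set.mem_insert_of_mem _ ⟨g, rfl⟩))⟩,
    hω (Set.mem_insert _ _)⟩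

theorem Sys.hat_compl (hc : IsCubulation G X) (hS : Sys X F E j) (y0 : V) (g : G) (ε : Bool) :
    (hat G (comp (fam F E) y0) (g • side X F E y0 ε))ᶜ =
      hat G (comp (fam F E) y0) (g • side X F E y0 (!ε)) := by
  ext ω
  constructor
  · intro h
    have h1 : (g • side X F E y0 ε)ᶜ ∈ ω.1 := Ultrafilter.compl_mem_iff_notMem.2 h
    have h2 : (g • comp (fam F E) y0)ᶜ ∈ ω.1 := Ultrafilter.compl_mem_iff_notMem.2 (ω.2 g)
    refine Filter.mem_of_superset (Filter.inter_mem h1 h2) ?_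
    rintro x ⟨h3, h4⟩
    rw [Set.mem_compl_iff, Set.mem_smul_set_iff_inv_smul_mem] at h3 h4
    rw [Set.mem_smul_set_iff_inv_smul_mem]
    rcases hS.cover hc y0 (g⁻¹ • x) with h5 | ⟨ε', h5⟩
    · exact absurd h5 h4
    · have e : ε' = !ε := by
        have : ε' ≠ ε := fun e => h3 (e ▸ h5)
        revert this
        cases ε <;> cases ε' <;> simp
      exact e ▸ h5
  · intro h h'
    obtain ⟨x, h1, h2⟩ := Ultrafilter.nonempty_of_mem (f := ω.1) (Filter.inter_mem h' h)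
    exact Set.disjoint_left.1 (hS.side_disjoint hc y0 ε) (Set.mem_smul_set_iff_inv_smul_mem.1 h1)
      (Set.mem_smul_set_iff_inv_smul_mem.1 h2)

theorem Sys.hat_meet_iff (hc : IsCubulation G X) (hS : Sys X F E j) (y0 : V) (g g' : G)
    (δ δ' : Bool) :
    (hat G (comp (fam F E) y0) (g • side X F E y0 δ) ∩
      hat G (comp (fam F E) y0) (g' • side X F E y0 δ')).Nonempty ↔
    (g • side X F E y0 δ ∩ g' • side X F E y0 δ').Nonempty := by
  constructor
  · rintro ⟨ω, h1, h2⟩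
    exact Ultrafilter.nonempty_of_mem (f := ω.1) (Filter.inter_mem h1 h2)
  · intro H
    obtain ⟨h, gh, s1, s2⟩ := hS.key hc y0 g g' δ δ' H
    obtain ⟨ω, hω⟩ := hS.hat_good hc y0 gh
    exact ⟨ω, hat_mono _ s1 hω, hat_mono _ s2 hω⟩

end Pool.Agent.Lib.MP_3467cd_al
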