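import Pool.Agent.Lib.MP_3467cd_al.CuNice
import Pool.Agent.Lib.MP_3467cd_al.Key
import Pool.Agent.Lib.MP_3467cd_al.Dual3

open Pointwise

namespace Pool.Agent.Lib.MP_3467cd_al.Cu

variable {G : Type} [Group G] {V : Type} [MulAction G V] {X : SimpleGraph V}

variable {L : ℕ} {H : Subgroup G} {C : Set V} {U : Bool → Set V}

theorem tw_cover (W : TW G X H C U) {g : G} {ε : Bool} {x : V} (h1 : x ∉ g • C)
    (h2 : x ∉ g • U ε) : x ∈ g • U (!ε) := by
  rw [Set.mem_smul_set_iff_inv_smul_mem] at h1 h2 ⊢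
  rcases W.part (g⁻¹ • x) with h | h | h
  · exact absurd h h1
  · cases ε <;> first | exact h | exact absurd h h2
  · cases ε <;> first | exact h | exact absurd h h2

theorem tw_disj (W : TW G X H C U) {g : G} {ε : Bool} {x : V} (h1 : x ∈ g • U ε) :
    x ∉ g • U (!ε) := by
  rw [Set.mem_smul_set_iff_inv_smul_mem] at h1 ⊢
  cases ε
  · exact Set.disjoint_right.1 W.disjU h1
  · exact Set.disjoint_left.1 W.disjU h1

theorem tw_core (W : TW G X H C U) {g : G} {x : V} (h1 : x ∈ g • C) (ε : Bool) : x ∉ g • U ε := by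
  rw [Set.mem_smul_set_iff_inv_smul_mem] at h1 ⊢
  exact Set.disjoint_left.1 (W.disjC ε) h1

theorem tw_un (hN : Nice0 G X L) (W : TW G X H C U) {g : G} {ε : Bool} {x : V} (h : x ∈ g • U ε) :
    ∃ k, IsHalf X k ∧ x ∈ k ∧ k ⊆ g • U ε := by
  obtain ⟨y, hy, rfl⟩ := h
  obtain ⟨k, hk, h1, h2⟩ := W.un ε y hy
  exact ⟨g • k, hk.smul hN.cub g, Set.smul_mem_smul_set h1, Set.smul_set_mono h2⟩

theorem tw_nl' (hN : Nice0 G X L) (W : TW G X H C U) {g : G} {k : Set V} (hk : IsHalf X k) {x : V}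
    (h1 : x ∈ k) (h2 : x ∈ g • C) (δ : Bool) : (k ∩ g • U δ).Nonempty := by
  obtain ⟨z, z1, z2⟩ := W.nl (g⁻¹ • k) (hk.smul hN.cub _)
    ⟨g⁻¹ • x, Set.smul_mem_smul_set h1, Set.mem_smul_set_iff_inv_smul_mem.1 h2⟩ δ
  exact ⟨g • z, Set.mem_inv_smul_set_iff.1 z1, Set.smul_mem_smul_set z2⟩

theorem tw_nl (hN : Nice0 G X L) (W : TW G X H C U) {g g' : G} {ε : Bool} {x : V}
    (h1 : x ∈ g • U ε) (h2 : x ∈ g' • C) (δ : Bool) : (g • U ε ∩ g' • U δ).Nonempty := by
  obtain ⟨k, hk, a1, a2⟩ := tw_un hN W h1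
  exact (tw_nl' hN W hk a1 h2 δ).mono (Set.inter_subset_inter_left _ a2)

theorem tw_inter (g g' : G) {s t : Set V} :
    (s ∩ (g⁻¹ * g') • t).Nonempty ↔ (g • s ∩ g' • t).Nonempty := by
  rw [← Set.smul_set_nonempty (a := g), Set.smul_set_inter, smul_smul, mul_inv_cancel_left]

/-- If `b` meets a side use `un` and `pd`. Otherwise `b ⊆ C`; take `y ∈ U true`, `ρ` a bound for
the distances from the finite set of `cc` to `y`, and `z = h • t ∈ b` of depth `ρ + 1`. -/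
theorem TW.avoid (hN : Nice0 G X L) (W : TW G X H C U) (g : G) {b : Set V} (hb : IsHalf X b) :
    ∃ c, IsHalf X c ∧ c ⊆ b ∧ Disjoint c (g • C) := by
  obtain ⟨ε, x, h1, h2⟩ : ∃ ε, (b ∩ g • U ε).Nonempty := by
    obtain ⟨x, hx⟩ := hb.nonempty
    by_cases h1 : x ∈ g • C
    · exact ⟨true, tw_nl' hN W hb hx h1 true⟩
    · by_cases h2 : x ∈ g • U true
      · exact ⟨true, x, hx, h2⟩
      · exact ⟨_, x, hx, tw_cover W h1 h2⟩
  obtain ⟨k, hk, a1, a2⟩ := tw_un hN W h2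
  obtain ⟨c, hc, hs⟩ := hN.pd b k hb hk ⟨x, h1, a1⟩
  exact ⟨c, hc, fun z hz => (hs hz).1,
    Set.disjoint_left.2 fun z hz hz' => tw_core W hz' ε (a2 (hs hz).2)⟩

/-- pattern: `Sys.hat_good` -/
theorem TW.hat_ne (hN : Nice0 G X L) (W : TW G X H C U) {b : Set V} (hb : IsHalf X b) :
    (hat G C b).Nonempty := by
  classical
  have key : ∀ T : Finset (Set V), (T : Set (Set V)) ⊆ insert b (Set.range fun g : G => (g • C)ᶜ) →
      ∃ k, IsHalf X k ∧ k ⊆ b ∧ ∀ t ∈ T, k ⊆ t := by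
    intro T
    induction T using Finset.induction_on with
    | empty => exact fun _ => ⟨b, hb, le_rfl, fun t ht => absurd ht (Finset.notMem_empty t)⟩
    | insert a T _ ih =>
      intro hT
      rw [Finset.coe_insert, Set.insert_subset_iff] at hT
      obtain ⟨k, gk, sk, hk⟩ := ih hT.2
      rcases hT.1 with e | ⟨g, e⟩
      · exact ⟨k, gk, sk, Finset.forall_mem_insert _ _ _ |>.2 ⟨e ▸ sk, hk⟩⟩
      · obtain ⟨k', gk', sk', hd⟩ := W.avoid hN g gk
        exact ⟨k', gk', sk'.trans sk, Finset.forall_mem_insert _ _ _ |>.2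
          ⟨e ▸ hd.subset_compl_right, fun t ht => sk'.trans (hk t ht)⟩⟩
  obtain ⟨ω, hω⟩ := Ultrafilter.exists_ultrafilter_of_finite_inter_nonempty
    (insert b (Set.range fun g : G => (g • C)ᶜ)) fun T hT => by
      obtain ⟨k, gk, -, hk⟩ := key T hT
      obtain ⟨z, hz⟩ := gk.nonempty
      exact ⟨z, fun t ht => hk t ht hz⟩
  exact ⟨⟨ω, fun g => Ultrafilter.compl_mem_iff_notMem.1 (hω (Set.mem_insert_of_mem _ ⟨g, rfl⟩))⟩,
    hω (Set.mem_insert _ _)⟩

theorem TW.hat_compl (W : TW G X H C U) (g : G) (ε : Bool) :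
    (hat G C (g • U ε))ᶜ = hat G C (g • U (!ε)) := by
  ext ω
  constructor
  · intro h
    have h1 : (g • U ε)ᶜ ∈ ω.1 := Ultrafilter.compl_mem_iff_notMem.2 h
    have h2 : (g • C)ᶜ ∈ ω.1 := Ultrafilter.compl_mem_iff_notMem.2 (ω.2 g)
    exact Filter.mem_of_superset (Filter.inter_mem h1 h2) fun x hx => tw_cover W hx.2 hx.1
  · intro h h'
    obtain ⟨x, h1, h2⟩ := Ultrafilter.nonempty_of_mem (f := ω.1) (Filter.inter_mem h' h)
    exact tw_disj W h1 h2

theorem TW.hat_meet (hN : Nice0 G X L) (W : TW G X H C U) (g g' : G) (ε ε' : Bool) :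
    (hat G C (g • U ε) ∩ hat G C (g' • U ε')).Nonempty ↔ (g • U ε ∩ g' • U ε').Nonempty := by
  constructor
  · rintro ⟨ω, h1, h2⟩
    exact Ultrafilter.nonempty_of_mem (f := ω.1) (Filter.inter_mem h1 h2)
  · rintro ⟨x, h1, h2⟩
    obtain ⟨k, hk, a1, a2⟩ := tw_un hN W h1
    obtain ⟨k', hk', b1, b2⟩ := tw_un hN W h2
    obtain ⟨c, hc, hs⟩ := hN.pd k k' hk hk' ⟨x, a1, b1⟩
    obtain ⟨ω, hω⟩ := W.hat_ne hN hc
    exact ⟨ω, hat_mono _ (fun z hz => a2 (hs hz).1) hω, hat_mono _ (fun z hz => b2 (hs hz).2) hω⟩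

/-- By `nl` neither side of one wall meets the core of the other, so the cores agree. -/
theorem TW.eq_of_hat (hN : Nice0 G X L) (W : TW G X H C U) {g g' : G} {ε ε' : Bool}
    (h : hat G C (g • U ε) = hat G C (g' • U ε')) : g • U ε = g' • U ε' ∧ g • C = g' • C := by
  have key : ∀ {g g' : G} {ε ε' : Bool}, hat G C (g • U ε) = hat G C (g' • U ε') →
      g • U ε ⊆ g' • U ε' ∧ ∀ x ∈ g' • C, x ∉ g • U ε := by
    intro g g' ε ε' h
    have h1 : ¬ (g • U ε ∩ g' • U (!ε')).Nonempty := by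
      rw [← W.hat_meet hN, ← W.hat_compl, h, Set.inter_compl_self]
      exact Set.not_nonempty_empty
    have h2 : ∀ x ∈ g' • C, x ∉ g • U ε := fun x hx hx' => h1 (tw_nl hN W hx' hx _)
    refine ⟨fun x hx => ?_, h2⟩
    have := tw_cover W (fun e => h2 x e hx) fun e => h1 ⟨x, hx, e⟩
    rwa [Bool.not_not] at this
  have key2 : ∀ {g g' : G} {ε ε' : Bool}, hat G C (g • U ε) = hat G C (g' • U ε') →
      g' • C ⊆ g • C := by
    intro g g' ε ε' h x hx
    by_contra hn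
    have h' : hat G C (g • U (!ε)) = hat G C (g' • U (!ε')) := by
      rw [← W.hat_compl, ← W.hat_compl, h]
    exact (key h').2 x hx (tw_cover W hn ((key h).2 x hx))
  exact ⟨(key h).1.antisymm (key h.symm).1, (key2 h.symm).antisymm (key2 h)⟩

/-- the points on a side -/
def twP (G : Type) [Group G] {V : Type} [MulAction G V] (C : Set V) (U : Bool → Set V)
    (α : Set (Om G C)) : Set V :=
  {x | ∃ (g : G) (ε : Bool), α = hat G C (g • U ε) ∧ x ∈ g • U ε}

theorem tw_P (hN : Nice0 G X L) (W : TW G X H C U) (g : G) (ε : Bool) :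
    twP G C U (hat G C (g • U ε)) = g • U ε := by
  ext x
  constructor
  · rintro ⟨g', ε', e, hx⟩
    rwa [(W.eq_of_hat hN e).1]
  · exact fun hx => ⟨g, ε, rfl, hx⟩

theorem tw_coreP (hN : Nice0 G X L) (W : TW G X H C U) (g : G) (ε : Bool) :
    core (twP G C U) (hat G C (g • U ε)) = g • C := by
  rw [core, W.hat_compl, tw_P hN W, tw_P hN W]
  ext x
  constructor
  · intro hx
    by_contra hn
    exact hx (by
      by_cases h : x ∈ g • U ε
      · exact Or.inl h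
      · exact Or.inr (tw_cover W hn h))
  · rintro hx (h | h)
    · exact tw_core W hx _ h
    · exact tw_core W hx _ h

theorem tw_fin (hN : Nice0 G X L) (W : TW G X H C U) (x : V) :
    {α : Set (Om G C) | ∃ (g : G) (ε : Bool), α = hat G C (g • U ε) ∧ x ∈ g • C}.Finite := by
  obtain ⟨T, hT, hT'⟩ := W.cc
  refine (((hT.biUnion fun t _ => hN.cub.proper_dist x t 0).prod
    (Set.finite_univ (α := Bool))).image fun p => hat G C (p.1 • U p.2)).subset ?_
  rintro _ ⟨g, ε, rfl, y, hy, rfl⟩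
  obtain ⟨h, hh, t, ht, rfl⟩ := hT' y hy
  refine ⟨(g * h, ε), ⟨Set.mem_biUnion ht ?_, trivial⟩, ?_⟩
  · simp [mul_smul]
  · simp only [mul_smul, W.invU h hh]

theorem tw_cross (hN : Nice0 G X L) (W : TW G X H C U) {g g' : G} {ε ε' : Bool}
    (h : Cross (hat G C (g • U ε)) (hat G C (g' • U ε'))) (δ δ' : Bool) :
    (U δ ∩ (g⁻¹ * g') • U δ').Nonempty := by
  rw [tw_inter, ← W.hat_meet hN]
  obtain ⟨h1, h2, h3, h4⟩ := h
  simp only [W.hat_compl] at h2 h3 h4
  cases ε <;> cases ε' <;> cases δ <;> cases δ' <;> assumption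

theorem tw_btw (hN : Nice0 G X L) (W : TW G X H C U) {g : G} {ε : Bool} {x y : V}
    (hx : x ∈ g • U ε) (hy : y ∈ g • U (!ε)) : ∃ z ∈ g • C, X.dist x z ≤ 2 * X.dist x y := by
  obtain ⟨x, hx, rfl⟩ := hx
  obtain ⟨y, hy, rfl⟩ := hy
  suffices h : ∃ z ∈ C, X.dist x z ≤ 2 * X.dist x y by
    obtain ⟨z, hz, hd⟩ := h
    refine ⟨g • z, Set.smul_mem_smul_set hz, ?_⟩
    change X.dist (g • x) (g • z) ≤ 2 * X.dist (g • x) (g • y)
    rwa [hN.cub.dist_smul, hN.cub.dist_smul]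
  cases ε
  · obtain ⟨z, hz, hd⟩ := W.btw y hy x hx
    have h1 := hN.cub.median.tri x y z
    rw [X.dist_comm (u := y) (v := x)] at hd
    exact ⟨z, hz, by omega⟩
  · obtain ⟨z, hz, hd⟩ := W.btw x hx y hy
    exact ⟨z, hz, by omega⟩

/-- `WallSys` with `Ω = Om G C`, `A = hat G C (U true)`,
`P α = {x | ∃ g ε, α = hat G C (g • U ε) ∧ x ∈ g • U ε}`, `d = X.dist`; the core of
`hat G C (g • U ε)` is `g • C`. Pattern: `Wall2.lean`. -/
theorem TW.goal (hN : Nice0 G X L) (W : TW G X H C U) : Goal G := by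
  obtain ⟨inst, hact⟩ := exists_om_action G C
  have hc := hN.cub
  have mem : ∀ {α : Set (Om G C)}, α ∈ hs G (hat G C (U true)) ↔
      ∃ (g : G) (ε : Bool), α = hat G C (g • U ε) := by
    intro α
    constructor
    · rintro ⟨g, h | h⟩
      · exact ⟨g, true, by rw [h, hact]⟩
      · exact ⟨g, false, by rw [h, hact, W.hat_compl]; rfl⟩
    · rintro ⟨g, ε, h⟩
      cases ε
      · exact ⟨g, Or.inr (by rw [h, hact, W.hat_compl]; rfl)⟩
      · exact ⟨g, Or.inl (by rw [h, hact])⟩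
  have hne : ∀ ε, (hat G C (U ε)).Nonempty := fun ε => by
    obtain ⟨h, hh⟩ := hN.ex
    obtain ⟨x, hx⟩ := W.ne
    obtain ⟨k, hk, hxk⟩ : ∃ k, IsHalf X k ∧ x ∈ k := by
      by_cases e : x ∈ h
      · exact ⟨h, hh, e⟩
      · exact ⟨hᶜ, hh.compl hc.median, e⟩
    obtain ⟨y, -, hy⟩ := W.nl k hk ⟨x, hxk, hx⟩ ε
    obtain ⟨k', hk', -, hs⟩ := W.un ε y hy
    exact (W.hat_ne hN hk').mono (hat_mono _ hs)
  refine WallSys.goal (A := hat G C (U true)) (P := twP G C U) (d := X.dist)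
    { ne := ⟨hne true, ?_⟩
      equiv := ?_
      meet := ?_
      finCore := ?_
      finSep := ?_
      helly := ?_
      nested := ?_
      cocompact := hc.cocompact
      tri := hc.median.tri
      symm := fun x y => X.dist_comm
      ball := hc.ball_finite
      proper := fun x r => hc.proper_dist x x r
      sepa := ?_
      ess := ?_ }
  · have := W.hat_compl 1 true
    rw [one_smul, one_smul] at this
    rw [this]
    exact hne _
  · intro g α hα
    obtain ⟨g', ε, rfl⟩ := mem.1 hα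
    rw [hact, smul_smul, tw_P hN W, tw_P hN W, smul_smul]
  · intro α hα β hβ hne'
    obtain ⟨g, ε, rfl⟩ := mem.1 hα
    obtain ⟨g', ε', rfl⟩ := mem.1 hβ
    rw [tw_P hN W, tw_P hN W] at hne'
    exact (W.hat_meet hN g g' ε ε').2 hne'
  · intro x
    refine (tw_fin hN W x).subset ?_
    rintro α ⟨hα, hx⟩
    obtain ⟨g, ε, rfl⟩ := mem.1 hα
    rw [tw_coreP hN W] at hx
    exact ⟨g, ε, rfl, hx⟩
  · intro x y
    refine ((hc.ball_finite x (2 * X.dist x y)).biUnion fun z _ => tw_fin hN W z).subset ?_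
    rintro α ⟨hα, hx, hy⟩
    obtain ⟨g, ε, rfl⟩ := mem.1 hα
    rw [W.hat_compl, tw_P hN W] at hy
    rw [tw_P hN W] at hx
    obtain ⟨z, hz, hd⟩ := tw_btw hN W hx hy
    exact Set.mem_biUnion (x := z) hd ⟨g, ε, rfl, hz⟩
  · intro S hSf hSs hcr
    have hrep : ∀ α : Set (Om G C), ∃ p : G × Bool, α ∈ S → α = hat G C (p.1 • U p.2) := by
      intro α
      by_cases h : α ∈ S
      · obtain ⟨g, ε, e⟩ := mem.1 (hSs h)
        exact ⟨(g, ε), fun _ => e⟩
      · exact ⟨(1, true), fun h' => absurd h' h⟩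
    choose p hp using hrep
    obtain ⟨x, hx⟩ := hc.median.helly hSf.toFinset (fun α => (p α).1 • C)
      (fun α _ => W.cvx.smul hc _) (by
        intro α hα β hβ
        rw [Set.Finite.mem_toFinset] at hα hβ
        by_cases h : α = β
        · subst h
          rw [Set.inter_self]
          exact W.ne.smul_set
        · have hX := hcr α hα β hβ h
          rw [hp α hα] at hX
          nth_rewrite 1 [hp β hβ] at hX
          exact (tw_inter _ _).1 (W.meet _ (tw_cross hN W hX)))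
    refine ⟨x, fun α hα => ?_⟩
    have := hx α (hSf.mem_toFinset.2 hα)
    rwa [← tw_coreP hN W (p α).1 (p α).2, ← hp α hα] at this
  · intro α hα β hβ _ _ x hx hxβ
    obtain ⟨g, ε, rfl⟩ := mem.1 hα
    obtain ⟨g', ε', rfl⟩ := mem.1 hβ
    rw [tw_coreP hN W] at hx
    rw [tw_P hN W] at hxβ
    exact (W.hat_meet hN g' g ε' ε).2 (tw_nl hN W hxβ hx ε)
  · obtain ⟨R, hR⟩ := W.sepa
    refine ⟨R, fun x y hxy => ?_⟩
    obtain ⟨g, h1, h2⟩ := hR x y hxy
    refine ⟨_, mem.2 ⟨g, true, rfl⟩, ⟨g, true, rfl, h1⟩, ?_⟩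
    rw [W.hat_compl]
    exact ⟨g, false, rfl, h2⟩
  · intro α hα β hβ hcr x hx r
    obtain ⟨g, ε, rfl⟩ := mem.1 hα
    obtain ⟨g', ε', rfl⟩ := mem.1 hβ
    obtain ⟨p, p1, p2⟩ := W.ess _ (tw_cross hN W hcr) ε'
    obtain ⟨k, hk, a1, a2⟩ := tw_un hN W p2
    obtain ⟨h, hh, b1, b2⟩ := W.lim k hk ⟨p, a1, p1⟩ (g⁻¹ • x) r
    rw [tw_P hN W, tw_coreP hN W]
    refine ⟨g * h * g⁻¹, ?_, ?_, fun y hy => ?_⟩
    · rw [hact, smul_smul, inv_mul_cancel_right, mul_smul, W.invU h hh]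
    · have := Set.smul_mem_smul_set (a := g) (a2 b1)
      rwa [smul_smul g (g⁻¹ * g'), mul_inv_cancel_left, ← mul_smul, ← mul_smul] at this
    · have := b2 (g⁻¹ • y) fun e => tw_core W (g := g⁻¹ * g')
        (by rw [mul_smul]; exact Set.smul_mem_smul_set hy) ε' (a2 e)
      rwa [← hc.dist_smul g, smul_inv_smul, ← mul_smul, ← mul_smul] at this

end Pool.Agent.Lib.MP_3467cd_al.Cu
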