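import Pool.Agent.Lib.MP_3467cd_al.CuW5

open Pointwise

namespace Pool.Agent.Lib.MP_3467cd_al.Cu

variable {G : Type} [Group G] {V : Type} [MulAction G V] {X : SimpleGraph V}

theorem w6_tr {A B : Set V} (g : G) (H : (A ∩ B).Nonempty) : (g • A ∩ g • B).Nonempty := by
  rw [← Set.smul_set_inter]
  exact H.smul_set

theorem w6_sub {A B : Set V} {g : G} (H : A ⊆ g⁻¹ • B) : g • A ⊆ B := by
  simpa only [smul_inv_smul] using Set.smul_set_mono (a := g) H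

theorem w6_sub' {A B : Set V} {g : G} (H : g • A ⊆ B) : A ⊆ g⁻¹ • B := by
  simpa only [inv_smul_smul] using Set.smul_set_mono (a := g⁻¹) H

namespace WD
variable (D : WD G X)

/-- the case that the translated leaf contains an end of the base tree -/
theorem w6_end (hc : IsCubulation G X) {δ : G} (hδ : δ ∉ D.H) {τ : Ed} {k l0 : Set V}
    {c c' : Col} (H : D.Leaf τ k c) (H' : D.Lf l0 c') (h1 : D.F.μ τ.rev ⊆ (δ • l0)ᶜ)
    (h2 : D.F.μ τ ⊆ k) (h3 : (δ • l0 ∩ kᶜ).Nonempty) (he : D.F.End 1 (δ • l0)) :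
    (D.Co ∩ δ • D.Um).Nonempty := by
  obtain ⟨σ, hσ⟩ := D.F.exists_loc ((H'.half hc).smul hc δ) he ⟨τ.rev, by rwa [one_smul]⟩
  obtain ⟨n, -, hn⟩ := (hσ.compl.le h1).rev
  rw [Ed.rev_rev, Ed.rev_rev] at hn
  by_cases h : 2 ≤ n
  · obtain ⟨a, ha, ha'⟩ := Dp.split (a := 1) (b := 1) (hn.dp h)
    obtain ⟨x, hx, hx'⟩ := h3
    exact absurd (h2 (D.F.ν_sub_μ ha' (hσ.sub_ν (ha.dp le_rfl) hx))) hx'
  obtain ⟨f, hf, τ', k0, hl, rfl, -⟩ := D.full hc H' (g := δ⁻¹) (σ := σ) (by rwa [inv_inv])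
  have hn' := hn.smul f⁻¹
  rw [inv_smul_smul] at hn'
  have ho := D.S.plus_out hl.plus
  refine (D.overl hc hδ hf (D.S.plus_out H.plus).2 ?_ false).2
  rw [← Ed.smul_tail]
  rcases Nat.eq_zero_or_pos n with rfl | h0
  · exact hn'.zero ▸ ho.2
  · exact (D.S.int_of_near ho hn' h0 (by omega)).2

/-- the two halfspaces are located at opposite edges of a common tree -/
theorem w6_opp {u g : G} {σ σ1 w1 w2 : Ed} {k k1 : Set V} (h : D.F.Loc k1 σ1) (n1 : Next σ1 w1)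
    (n2 : Next w1 w2) (hk : k ⊆ u • D.F.μ w2.rev) (l1 : D.F.Loc (g⁻¹ • u • k1) σ)
    (l2 : D.F.Loc (g⁻¹ • k) σ.rev) : False := by
  obtain ⟨a, -, -, ha, -⟩ := exists_two_next σ
  obtain ⟨b, -, -, hb, -⟩ := exists_two_next σ.rev
  have hk' : u⁻¹ • k ⊆ D.F.μ w2.rev := w6_sub (by rwa [inv_inv])
  obtain ⟨f, hf⟩ := D.F.mal (u⁻¹ * g) b a w2
    (by
      rw [mul_smul]
      exact ((Set.smul_set_mono (w6_sub (l2.1 b hb))).trans hk').trans (D.F.μ_sub_z _))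
    (by
      rw [mul_smul]
      exact ((w6_sub (by rw [inv_inv]; exact w6_sub (l1.1 a ha))).trans
        (h.sub_ν n1.dp)).trans (D.F.ν_sub_μ n2.dp))
  have l3 := l1.smul f
  have l4 := l2.smul f
  rw [hf, mul_smul, smul_inv_smul] at l3 l4
  rw [inv_smul_smul] at l3
  rw [← Ed.smul_rev, l3.unique h] at l4
  exact (D.F.μ_ssub n2.rev.dp).2 ((l4.1 _ n1.rev).trans hk')

/-- See the blueprint, lemma (a*). -/
theorem astar0 (hc : IsCubulation G X) {δ : G} (hδ : δ ∉ D.H) {τ : Ed} {k l0 : Set V}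
    {c c' : Col} (H : D.Leaf τ k c) (H' : D.Lf l0 c') (h1 : D.F.μ τ.rev ⊆ (δ • l0)ᶜ)
    (h2 : D.F.μ τ ⊆ k)
    (h3 : Cross (δ • l0) k ∨ (Disjoint (δ • l0) k ∧ ∃ (g : G) (σ : Ed),
      D.F.Loc (g⁻¹ • δ • l0) σ ∧ D.F.Loc (g⁻¹ • k) σ.rev)) :
    (D.Co ∩ δ • D.Um).Nonempty := by
  have hM := hc.median
  have hl := (H'.half hc).smul hc δ
  by_cases he : D.F.End 1 (δ • l0)
  · rcases h3 with h3 | ⟨h3, -⟩
    · exact D.w6_end hc hδ H H' h1 h2 h3.2.1 he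
    · exact absurd he (D.F.not_end (h3.mono_right h2)
        (Set.subset_compl_iff_disjoint_left.1 h1))
  by_contra hne
  obtain ⟨ρ1, -, -, n1, -⟩ := exists_two_next τ.rev
  obtain ⟨ρ2, n2, i2⟩ := D.S.exists_int_next (D.S.int_behind (D.S.plus_out H.plus) n1)
  obtain ⟨ρ3, n3, i3⟩ := D.S.exists_int_next i2
  have d2 : Dp 1 ρ2 τ.rev := (n2.dp.trans n1.dp).mono one_le_two
  obtain ⟨k', c'', hk', hb⟩ : ∃ k' c'', D.Lf k' c'' ∧
      (D.F.μ ρ3 ∩ δ • bar X k').Nonempty := by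
    obtain ⟨s, hs, hs'⟩ := D.int_co hc i3
    have h4 : δ⁻¹ • s ∈ D.Up ∪ D.Co := by
      by_contra h
      exact hne ⟨s, hs', Set.mem_smul_set_iff_inv_smul_mem.2 h⟩
    rcases h4 with ⟨k', c'', hk', h⟩ | h
    · exact ⟨k', c'', hk', s, hs, Set.mem_smul_set_iff_inv_smul_mem.2 (Or.inl h)⟩
    · obtain ⟨y, hy, k', c'', hk', h⟩ := meets_of_hull hM ((D.F.μ_half ρ3).smul hc δ⁻¹)
        ⟨_, Set.smul_mem_smul_set hs, h⟩
      exact ⟨k', c'', hk', δ • y, Set.mem_inv_smul_set_iff.1 hy,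
        Set.smul_mem_smul_set (Or.inr h)⟩
  obtain ⟨s0, ρ, w, ⟨-, -, σ1, k1, hk1, rfl, h5⟩, hw, hw'⟩ := D.branchL hc H' hk' (by
    rintro ⟨rfl, -⟩
    rw [smul_bar hc] at hb
    obtain ⟨x, hx, hx'⟩ := meet_of_bar hM (D.F.μ_half _) (D.F.μ_half _) (D.F.μ_ssub n3.dp) hb
    exact h1 (D.F.μ_mono d2 hx) hx')
  obtain ⟨w1, w2, m1, m2, m3⟩ := ch_three.1 h5
  have hP : δ • bar X k' ⊆ (δ * s0) • D.F.μ ρ := by
    rw [mul_smul]
    exact Set.smul_set_mono (bar_subset hM ((D.F.ν_half w).smul hc s0) ((D.F.μ_half ρ).smul hc s0)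
      hw' (smul_ssubset s0 (D.F.ν_ssub_μ hw)))
  rw [← mul_smul] at h1 h3 he hl
  obtain ⟨u, hu⟩ : ∃ u, u = δ * s0 := ⟨_, rfl⟩
  rw [← hu] at h1 h3 he hl hP
  have hr : u ∉ D.F.ι.range := by
    rintro ⟨f, rfl⟩
    exact he (hk1.loc.smul f).end
  obtain ⟨α, hα⟩ : ∃ α, D.F.μ α ⊆ u • D.F.μ ρ := by
    rcases (D.F.sd_of_dp n3.dp).cl ((D.F.μ_half ρ).smul hc u)
      (hb.mono fun x hx => ⟨hP hx.2, D.F.μ_sub_ν _ hx.1⟩) with h | h | h
    · obtain ⟨a, -, -, ha, -⟩ := exists_two_next σ1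
      refine absurd (D.F.mal u a ρ ρ2 ((Set.smul_set_mono (hk1.loc.1 a ha)).trans ?_) h) hr
      rw [D.F.z_rev]
      exact fun x hx hx' => h1 (D.F.ν_sub_μ d2 (D.F.z_sub_ν _ hx')) hx
    · exact ⟨ρ3, (D.F.μ_sub_ν _).trans h⟩
    · exact ⟨ρ2.rev, ((D.F.μ_sub_ν _).trans (D.F.compl_μ _).ge).trans h⟩
  have hz : ∀ β, (u • D.F.z ρ ∩ D.F.μ β).Nonempty := fun β => by
    by_contra h
    refine D.F.mal' hr hα (β := β) ?_
    rw [D.F.z_rev, Set.smul_set_compl]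
    exact fun x hx hx' => h ⟨x, hx', hx⟩
  have hcl : Clean (u • D.F.ν w2) k :=
    (((D.F.sd_of_dp m3.dp).mono_right (D.F.z_half ρ) (D.F.z_sub_ν ρ)).smul hc u).symm.clean_right
      (H.half hc) ((hz τ).mono fun x hx => ⟨hx.1, h2 hx.2⟩)
      ((hz ρ1).mono fun x hx => ⟨hx.1, H.loc.2 ρ1 n1 hx.2⟩)
  have hs : u • k1 ⊆ u • D.F.ν w2 :=
    Set.smul_set_mono (hk1.loc.sub_ν ((m1.dp.trans m2.dp).mono one_le_two))
  rcases h3 with ⟨⟨x, hx, hx'⟩, ⟨y, hy, hy'⟩, -⟩ | ⟨h3, g, σ, l1, l2⟩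
  · rcases hcl with h | h
    · exact hy' (h (hs hy))
    · exact h (hs hx) hx'
  · rcases hcl with h | h
    · obtain ⟨x, hx⟩ := hl.nonempty
      exact Set.disjoint_left.1 h3 hx (h (hs hx))
    · refine D.w6_opp hk1.loc m1 m2 ?_ l1 l2
      rw [← D.F.compl_ν, Set.smul_set_compl]
      exact Set.subset_compl_comm.1 h

/-- `rstar` for `γ • k0` and `lᶜ`, `loc_of_sub`, `full`, translate and apply `astar0`. -/
theorem astar (hc : IsCubulation G X) {γ : G} (hγ : γ ∉ D.H) {k0 l : Set V} {c c' : Col}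
    (H : D.Lf k0 c) (H' : D.Lf l c') (h1 : (lᶜ ∩ inn X (γ • k0)ᶜ).Nonempty)
    (h3 : Cross l (γ • k0) ∨ (Disjoint l (γ • k0) ∧ ∃ (g : G) (σ : Ed),
      D.F.Loc (g⁻¹ • l) σ ∧ D.F.Loc (g⁻¹ • γ • k0) σ.rev)) :
    (γ • D.Co ∩ D.Um).Nonempty := by
  have hM := hc.median
  obtain ⟨g, ω, e1, e2⟩ := D.F.rstar _ _ ((H.half hc).smul hc γ) ((H'.half hc).compl hM) h1
  have hl : D.F.Loc ((γ⁻¹ * g)⁻¹ • k0) ω.rev := by
    rw [mul_inv_rev, inv_inv, mul_smul]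
    refine D.F.loc_of_sub (w6_sub' e2) ?_
    rw [Ed.rev_rev, ← Set.smul_set_compl]
    exact w6_sub' (e1.trans Set.inter_subset_right)
  obtain ⟨f, hf, τ, k, hk, e3, e4⟩ := D.full hc H hl
  have e5 : ω = f • τ.rev := by rw [← Ed.smul_rev, ← e3, Ed.rev_rev]
  have e6 : γ • k0 = (g * D.F.ι f) • k := by
    rw [e4, ← mul_smul, ← mul_assoc, mul_inv_cancel_left]
  rw [e3, D.F.μ_smul, ← mul_smul, e6] at e2
  rw [e5, D.F.μ_smul, ← mul_smul] at e1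
  rw [e6] at h3
  rw [mul_assoc] at hf
  obtain ⟨u, hu⟩ : ∃ u, u = g * D.F.ι f := ⟨_, rfl⟩
  rw [← hu] at e1 e2 h3 hf
  have h4 := D.astar0 hc (δ := u⁻¹)
    (fun h => hγ (by simpa using D.H.inv_mem (D.H.mul_mem hf h))) hk H'
    (by rw [← Set.smul_set_compl]; exact w6_sub' (e1.trans Set.inter_subset_left))
    (Set.smul_set_subset_smul_set_iff.1 e2) (by
      rcases h3 with h | ⟨h, g1, σ, l1, l2⟩
      · exact Or.inl (by simpa only [inv_smul_smul] using (cross_smul u⁻¹).2 h)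
      · refine Or.inr ⟨?_, u⁻¹ * g1, σ, ?_, ?_⟩
        · exact Set.disjoint_left.2 fun x hx hx' => Set.disjoint_left.1 h
            (Set.mem_inv_smul_set_iff.1 hx) (Set.smul_mem_smul_set hx')
        · rwa [mul_inv_rev, inv_inv, mul_smul, smul_inv_smul]
        · rwa [mul_inv_rev, inv_inv, mul_smul])
  have h5 := w6_tr u h4
  rwa [smul_inv_smul, ← mul_inv_cancel_left γ u, mul_smul, D.smul_Co hc hf] at h5

/-- `essB` gives a leaf `a = γ • k0` meeting `Co`; `leaf_in` for `a` and (by `meet`) for `aᶜ`. A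
leaf meeting both sides of `a` crosses it (`lf_sd`): `astar`. Otherwise `connW` with
`Q l = l ⊆ a`, translate, `between`; in the first alternative `k' = aᶜ` would make the quarter
`Um ∩ γ • Um` empty, so `astar` applies. -/
theorem essA (hc : IsCubulation G X) (γ : G)
    (H : ∀ ε ε', (D.U ε ∩ γ • D.U ε').Nonempty) : (γ • D.Co ∩ D.Um).Nonempty := by
  have hM := hc.median
  have hγ : γ ∉ D.H := fun h => by
    obtain ⟨x, hx, hx'⟩ := H true false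
    rw [show D.U false = D.Um from rfl, D.smul_Um hc h] at hx'
    exact hx' (Or.inl hx)
  obtain ⟨_, hx, x, ⟨k0, c, hk0, hx'⟩, rfl⟩ := D.essB hc γ (H true true) (H false true)
  obtain ⟨_, hy, y, hy', rfl⟩ := D.meet hc γ H
  have ha := (hk0.half hc).smul hc γ
  have hxa : γ • x ∈ γ • k0 := Set.smul_mem_smul_set hx'
  have hya : γ • y ∉ γ • k0 := fun h => D.co_subset hc hk0 hy' (Set.smul_mem_smul_set_iff.1 h)
  have h1 : ∀ l c', D.Lf l c' → (lᶜ ∩ inn X (γ • k0)ᶜ).Nonempty := fun l c' hl =>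
    (cvx_meets_inn hM (hull_cvx hM D.Sk) hx hxa hy hya).mono fun z hz =>
      ⟨D.co_subset hc hl hz.1, hz.2⟩
  by_cases hcr : ∃ l c', D.Lf l c' ∧ (l ∩ γ • k0).Nonempty ∧ (l ∩ (γ • k0)ᶜ).Nonempty
  · obtain ⟨l, c', hl, q1, q2⟩ := hcr
    exact D.astar hc hγ hk0 hl (h1 l c' hl)
      (Or.inl ⟨q1, q2, ⟨_, D.co_subset hc hl hx, hxa⟩, _, D.co_subset hc hl hy, hya⟩)
  obtain ⟨k1, c1, hk1, s1⟩ := D.leaf_in hc ha ⟨_, hxa, hx⟩
  obtain ⟨k2, c2, hk2, s2⟩ := D.leaf_in hc (ha.compl hM) ⟨_, hya, hy⟩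
  obtain ⟨h, hh, τ, k, c3, τ', k', c4, l1, l2, q1, q2⟩ := D.connW (fun l => l ⊆ γ • k0) hk1 hk2 s1
    fun q => by
      obtain ⟨z, hz⟩ := (hk2.half hc).nonempty
      exact s2 hz (q hz)
  have l3 := l2.lf.smul hh
  have q3 : h • k' ⊆ (γ • k0)ᶜ := fun z hz hz' => by
    obtain ⟨t, ht, ht'⟩ := Set.not_subset.1 q2
    exact hcr ⟨_, _, l3, ⟨z, hz, hz'⟩, t, ht, ht'⟩
  rcases D.between hc (γ := h⁻¹ * γ)
    (fun e => hγ (by simpa using D.H.mul_mem hh e)) hk0 l1 l2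
    (by rw [mul_smul]; exact w6_sub' q1)
    (by rw [mul_smul, ← Set.smul_set_compl]; exact w6_sub' q3) with e | e
  · rw [mul_smul] at e
    refine D.astar hc hγ hk0 l3 (h1 _ _ l3)
      (Or.inr ⟨Set.subset_compl_iff_disjoint_right.1 q3, h, τ', ?_, e⟩)
    rw [inv_smul_smul]
    exact l2.loc
  · have e' := w6_tr h (e false)
    rwa [mul_smul, smul_inv_smul, show D.U false = D.Um from rfl, D.smul_Um hc hh] at e'

theorem ess (hc : IsCubulation G X) (g : G) (H : ∀ ε ε', (D.U ε ∩ g • D.U ε').Nonempty)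
    (ε : Bool) : (D.Co ∩ g • D.U ε).Nonempty := by
  cases ε
  · have e := w6_tr g (D.essA hc g⁻¹ fun ε ε' => by
      have e := w6_tr g⁻¹ (H ε' ε)
      rwa [inv_smul_smul, Set.inter_comm] at e)
    rwa [smul_inv_smul] at e
  · exact D.essB hc g (H true true) (H false true)

end WD

end Pool.Agent.Lib.MP_3467cd_al.Cu
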