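import Pool.Agent.Lib.MP_3467cd_al.CuW4

open Pointwise

namespace Pool.Agent.Lib.MP_3467cd_al.Cu

variable {G : Type} [Group G] {V : Type} [MulAction G V] {X : SimpleGraph V}

theorem w7_far (hM : IsMedian X) {m : ℕ} {k h : Set V} (H : Nest X m k h) {y b : V}
    (hy : y ∉ h) (hb : b ∈ inn X kᶜ) : m ≤ X.dist y b := by
  obtain ⟨b', h1, h2⟩ := inn_partner hb
  rw [compl_compl] at h2
  have h3 := H.le_dist hM h2.1 hy
  have h4 := hM.tri b' b y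
  rw [dist_of_adj h1.symm, X.dist_comm (u := b)] at h4
  omega

theorem w7_inn (hc : IsCubulation G X) {g : G} {k : Set V} {y b : V} {r : ℕ}
    (hb : b ∈ inn X kᶜ) (hd : X.dist (g⁻¹ • y) b ≤ r) :
    ∃ b' ∈ inn X (g • k)ᶜ, X.dist y b' ≤ r := by
  refine ⟨g • b, ?_, ?_⟩
  · rw [← Set.smul_set_compl, ← hc.smul_inn]
    exact Set.smul_mem_smul_set hb
  · rw [← hc.dist_smul g, smul_inv_smul] at hd
    exact hd

theorem w7_tr {A B : Set V} {g : G} {x y : V}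
    (H : ∃ g' : G, g⁻¹ • x ∈ g' • A ∧ g⁻¹ • y ∈ g' • B) : ∃ g' : G, x ∈ g' • A ∧ y ∈ g' • B := by
  obtain ⟨g', h1, h2⟩ := H
  refine ⟨g * g', ?_, ?_⟩
  · rw [mul_smul]
    exact Set.mem_smul_set_iff_inv_smul_mem.2 h1
  · rw [mul_smul]
    exact Set.mem_smul_set_iff_inv_smul_mem.2 h2

theorem w7_follow (P : Ed → Prop) {ω1 : Ed} (h : P ω1) (n : ℕ) :
    (∃ ω, Ch n ω ω1 ∧ P ω) ∨ ∃ j < n, ∃ ω, Ch j ω ω1 ∧ P ω ∧ ∀ ρ', Next ρ' ω → ¬ P ρ' := by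
  induction n with
  | zero => exact Or.inl ⟨ω1, Ch.refl _, h⟩
  | succ n ih =>
    rcases ih with ⟨ω, h1, h2⟩ | ⟨j, hj, H⟩
    · by_cases hx : ∃ ρ', Next ρ' ω ∧ P ρ'
      · obtain ⟨ρ', h3, h4⟩ := hx
        exact Or.inl ⟨ρ', Ch.step h3 h1, h4⟩
      · exact Or.inr ⟨n, Nat.lt_succ_self n, ω, h1, h2, fun ρ' h3 h4 => hx ⟨ρ', h3, h4⟩⟩
    · exact Or.inr ⟨j, Nat.lt_succ_of_lt hj, H⟩

namespace WD
variable (D : WD G X)

theorem w7_up {τ : Ed} {k : Set V} {c : Col} (H : D.Leaf τ k c) : k ⊆ D.Up :=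
  fun _ hx => ⟨k, c, H.lf, hx⟩

/-- `pair_minus` for the chain from the reverse of the second edge to `ω5.rev`; `minus_sub` -/
theorem sepa_long (hc : IsCubulation G X) {g : G} {ω1 ω5 : Ed} (h : Ch 4 ω5 ω1) {x y : V}
    (hx : x ∈ g • D.F.μ ω1.rev) (hy : y ∈ g • D.F.μ ω5) :
    ∃ g' : G, x ∈ g' • D.Up ∧ y ∈ g' • D.Um := by
  obtain ⟨ω2, h1, h2⟩ := ch_succ'.1 h
  obtain ⟨f, l, h3, h4⟩ := D.S.pair_minus h1.rev
  rw [Ed.smul_rev, Ed.rev_rev] at h4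
  have h5 := D.minus_sub hc h4
  rw [PreFrame.ν_smul] at h5
  have h6 : Next (f • ω1.rev) (D.S.e l) := h3 ▸ h2.rev.smul f
  have h7 := (D.loc l).μ_sub h6.dp
  rw [D.F.μ_smul] at h7
  have h8 : D.hb l ⊆ D.Up := D.w7_up (D.leaf_e l.1 l.2)
  apply w7_tr (g := g)
  refine ⟨(D.F.ι f)⁻¹, ?_, ?_⟩
  · rw [Set.mem_smul_set_iff_inv_smul_mem, inv_inv]
    exact h8 (h7 (Set.smul_mem_smul_set (Set.mem_smul_set_iff_inv_smul_mem.1 hx)))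
  · rw [Set.mem_smul_set_iff_inv_smul_mem, inv_inv]
    exact h5 (Set.smul_mem_smul_set
      (D.F.μ_sub_ν ω5 (Set.mem_smul_set_iff_inv_smul_mem.1 hy)))

theorem w7_port (hc : IsCubulation G X) {ρ ρ0 σ : Ed} {g : G} {k1 : Set V} {y : V}
    (hl : D.F.Loc k1 σ) (hk : D.F.z ρ.rev = g • k1) (h3 : Ch 3 σ ρ0.rev) (hy : y ∈ D.F.μ ρ)
    (hn : ∀ ρ', Next ρ' ρ → y ∉ D.F.μ ρ') : y ∉ g • D.F.z ρ0 := by
  intro hy0
  by_cases hg : g ∈ D.F.ι.range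
  · obtain ⟨f, rfl⟩ := hg
    have h1 : f • σ = ρ.rev := by
      have h2 := hl.smul f
      rw [← hk] at h2
      exact h2.unique (D.F.loc_z _)
    have h4 := (h3.smul f).rev
    rw [h1, Ed.rev_rev, Ed.smul_rev, Ed.rev_rev] at h4
    obtain ⟨ρ', h5, h6⟩ := ch_succ'.1 h4
    rw [← D.F.z_smul] at hy0
    exact hn ρ' h6 (D.F.ν_sub_μ (h5.dp (by omega)) (D.F.z_sub_ν _ hy0))
  · obtain ⟨w1, w2, h4, h5, h6⟩ := ch_three.1 h3
    have h7 : k1 ⊆ D.F.μ w2 := (hl.sub_ν h4.dp).trans (D.F.ν_sub_μ h5.dp)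
    have h8 : D.F.μ ρ.rev ⊆ g • D.F.μ w2 :=
      (D.F.μ_sub_z _).trans (hk ▸ Set.smul_set_mono h7)
    have h9 : Next ρ0 w2.rev := by
      have := h6.rev
      rwa [Ed.rev_rev] at this
    have e1 : D.F.End 1 (D.F.μ ρ) := ⟨ρ, by rw [one_smul]⟩
    have e2 : D.F.End 1 (D.F.μ ρ)ᶜ :=
      ⟨ρ.rev, by
        rw [one_smul]
        exact (D.F.sd_rev ρ).disj.symm.subset_compl_right⟩
    have h10 : y ∈ g • D.F.ν ρ0 := Set.smul_set_mono (D.F.z_sub_ν ρ0) hy0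
    rcases D.F.clean2 hc hg h8 h9 (D.F.μ_half ρ) e1 e2 with h11 | h11
    · obtain ⟨α, hα⟩ := hl.end
      rw [one_smul] at hα
      refine hg (D.F.mal g α ρ0 ρ ?_ ((Set.smul_set_mono (D.F.μ_sub_ν ρ0)).trans h11))
      rw [hk]
      exact Set.smul_set_mono hα
    · exact h11 h10 hy

/-- The last run passed: apply `cover` and `leaf_zone` to `z ρ.rev`. A port in the same tree puts
`y` in `μ ρ'` for some `Next ρ' ρ` (`Loc.unique`, `loc_z`); a port in another tree contradicts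
`mal` (`clean2` with `m = μ ρ`). So `y` is within `r` of `inn X (z ρ)`, and within `r + 1` of the
gate point. -/
theorem sepa_last (hc : IsCubulation G X) : ∃ r : ℕ, ∀ (ρ : Ed) (x y p : V), x ∈ D.F.μ ρ.rev →
    y ∈ D.F.μ ρ → (∀ ρ', Next ρ' ρ → y ∉ D.F.μ ρ') → D.F.Pi ρ p →
      (∃ g' : G, x ∈ g' • D.Up ∧ y ∈ g' • D.Um) ∨ X.dist y p ≤ r := by
  obtain ⟨r, hr⟩ := D.leaf_zone hc
  refine ⟨r + 1, fun ρ x y p hx hy hn hp => ?_⟩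
  obtain ⟨γ, τ, k0, hL, hk⟩ := D.cover hc (D.F.z_half ρ.rev) (true, true, true)
  by_cases hU : y ∈ γ • D.Um
  · refine Or.inl ⟨γ, ?_, hU⟩
    have h1 := D.F.μ_sub_z _ hx
    rw [hk] at h1
    exact Set.smul_set_mono (D.w7_up hL) h1
  right
  have h1 : γ⁻¹ • y ∉ k0 := by
    intro h
    have h2 : y ∈ D.F.z ρ.rev := hk ▸ Set.mem_smul_set_iff_inv_smul_mem.2 h
    rw [D.F.z_rev] at h2
    exact h2 (D.F.μ_sub_z _ hy)
  obtain ⟨b, hb, hd⟩ := hr k0 _ hL.lf (γ⁻¹ • y)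
    (fun h => hU (Set.mem_smul_set_iff_inv_smul_mem.2 h)) h1 (by
      rintro s ρ0 ⟨-, -, σ, k1, hL1, hk1, h3⟩ h
      refine D.w7_port hc (g := γ * s) hL1.loc (by rw [hk, hk1, mul_smul]) h3 hy hn ?_
      rw [mul_smul]
      exact Set.mem_smul_set_iff_inv_smul_mem.2 h)
  obtain ⟨b1, hb1, hd1⟩ := w7_inn hc hb hd
  rw [← hk, D.F.z_rev, compl_compl] at hb1
  obtain ⟨b2, h2, h3⟩ := inn_partner hb1
  have h4 : X.dist b2 p + X.dist p y = X.dist b2 y := hp.2 b2 h3.1 y hy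
  have h5 := hc.median.tri b2 b1 y
  rw [dist_of_adj h2.symm, X.dist_comm (u := b1)] at h5
  rw [X.dist_comm]
  omega

/-- A chain `k 0 ⊃ ... ⊃ k m` in `sep X y x`; `cover` and `leaf_zone` for `k m` give a port, so
`x ∈ g • μ w2`, `y ∈ g • μ w2.rev`. Follow `y` for at most four steps: `sepa_long`, or
`sepa_last` and `ub` put `y` close to `k m`. -/
theorem sepa (hc : IsCubulation G X) :
    ∃ R : ℕ, ∀ x y, R ≤ X.dist x y → ∃ g : G, x ∈ g • D.Up ∧ y ∈ g • D.Um := by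
  obtain ⟨D0, hD⟩ := hc.exists_dim
  obtain ⟨r1, hr1⟩ := D.leaf_zone hc
  obtain ⟨r2, hr2⟩ := D.sepa_last hc
  obtain ⟨r3, hr3⟩ := D.ub hc
  refine ⟨D0 * (r1 + r2 + r3 + 1) + 1, fun x y hxy => ?_⟩
  rw [X.dist_comm] at hxy
  obtain ⟨c, hch, hs⟩ := hD.chain_of_dist hc.median (r1 + r2 + r3 + 1) hxy
  have hN : Nest X (r1 + r2 + r3 + 1) (c (r1 + r2 + r3 + 1)) (c 0) := ⟨c, hch, rfl, rfl⟩
  have hy0 : y ∉ c 0 := (hs 0 (Nat.zero_le _)).2.1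
  obtain ⟨hh, hym, hxm⟩ := hs _ le_rfl
  obtain ⟨γ, τ, k0, hL, hk⟩ := D.cover hc hh (true, true, true)
  rw [hk] at hN hym hxm
  by_cases hU : y ∈ γ • D.Um
  · exact ⟨γ, Set.smul_set_mono (D.w7_up hL) hxm, hU⟩
  by_cases hP : ∀ s ρ, D.Port k0 (true, true, true) s ρ → γ⁻¹ • y ∉ s • D.F.z ρ
  · obtain ⟨b, hb, hd⟩ := hr1 k0 _ hL.lf (γ⁻¹ • y)
      (fun h => hU (Set.mem_smul_set_iff_inv_smul_mem.2 h))
      (fun h => hym (Set.mem_smul_set_iff_inv_smul_mem.2 h)) hP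
    obtain ⟨b1, hb1, hd1⟩ := w7_inn hc hb hd
    have := w7_far hc.median hN hy0 hb1
    omega
  push Not at hP
  obtain ⟨s, ρ, ⟨-, -, σ, k1, hL1, hk1, h3⟩, hy1⟩ := hP
  rw [← Set.mem_smul_set_iff_inv_smul_mem, ← mul_smul, Set.mem_smul_set_iff_inv_smul_mem] at hy1
  rw [hk1, ← mul_smul] at hN hxm
  rw [Set.mem_smul_set_iff_inv_smul_mem] at hxm
  obtain ⟨w1, w2, h4, h5, h6⟩ := ch_three.1 h3
  have hx2 : (γ * s)⁻¹ • x ∈ D.F.μ w2 := D.F.ν_sub_μ h5.dp (hL1.loc.sub_ν h4.dp hxm)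
  have h9 : Next ρ w2.rev := by
    have := h6.rev
    rwa [Ed.rev_rev] at this
  have hy2 : (γ * s)⁻¹ • y ∈ D.F.μ w2.rev := D.F.ν_sub_μ h9.dp (D.F.z_sub_ν _ hy1)
  apply w7_tr (g := γ * s)
  rcases w7_follow (fun ω => (γ * s)⁻¹ • y ∈ D.F.μ ω) hy2 4 with
    ⟨ω, h7, h8⟩ | ⟨j, hj, ω, h7, h8, hn⟩
  · refine D.sepa_long hc (g := 1) h7 ?_ ?_
    · rwa [one_smul, Ed.rev_rev]
    · rwa [one_smul]
  · have h10 := h7.rev
    rw [Ed.rev_rev] at h10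
    have h11 : Ch (2 + j) σ ω.rev := (ch_two.2 ⟨w1, h4, h5⟩).trans h10
    obtain ⟨p, hp, b, hb, hd⟩ := hr3 σ k1 _ hL1 (2 + j) (by omega) ω h11
    rcases hr2 ω _ _ p (D.F.μ_mono (h10.dp (Nat.zero_le _)) hx2) h8 hn hp with H | H
    · exact H
    · have h12 := hc.median.tri ((γ * s)⁻¹ • y) p b
      obtain ⟨b1, hb1, hd1⟩ := w7_inn hc (g := γ * s) (y := y) (r := r2 + r3) hb (by omega)
      have := w7_far hc.median hN hy0 hb1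
      omega

end WD

end Pool.Agent.Lib.MP_3467cd_al.Cu
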