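import Pool.Agent.Lib.MP_3467cd_al.Elem2

open Pointwise

namespace Pool.Agent.Lib.MP_3467cd_al

variable {G : Type} [Group G] {V : Type} [MulAction G V] {X : SimpleGraph V}

/-- additivity of the relative index of almost equal sets -/
theorem idx_add {a b c : Set V} (h1 : (a \ b).Finite) (h2 : (b \ a).Finite)
    (h3 : (b \ c).Finite) (h4 : (c \ b).Finite) :
    (((a \ c).ncard : ℤ) - ((c \ a).ncard : ℤ)) =
      (((a \ b).ncard : ℤ) - ((b \ a).ncard : ℤ)) + (((b \ c).ncard : ℤ) - ((c \ b).ncard : ℤ)) := by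
  have h5 : (a \ c).Finite := (h1.union h3).subset fun x hx => by
    by_cases hb : x ∈ b
    · exact Or.inr ⟨hb, hx.2⟩
    · exact Or.inl ⟨hx.1, hb⟩
  have h6 : (c \ a).Finite := (h4.union h2).subset fun x hx => by
    by_cases hb : x ∈ b
    · exact Or.inr ⟨hb, hx.2⟩
    · exact Or.inl ⟨hx.1, hb⟩
  have e1 := Set.ncard_inter_add_ncard_sdiff_eq_ncard (a \ c) b h5
  have e2 := Set.ncard_inter_add_ncard_sdiff_eq_ncard (c \ a) b h6
  have e3 := Set.ncard_inter_add_ncard_sdiff_eq_ncard (a \ b) c h1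
  have e4 := Set.ncard_inter_add_ncard_sdiff_eq_ncard (b \ a) c h2
  have e5 := Set.ncard_inter_add_ncard_sdiff_eq_ncard (b \ c) a h3
  have e6 := Set.ncard_inter_add_ncard_sdiff_eq_ncard (c \ b) a h4
  have s1 : (a \ c) ∩ b = (b \ c) ∩ a := by ext x; simp only [Set.mem_inter_iff, Set.mem_sdiff]; tauto
  have s2 : (a \ c) \ b = (a \ b) \ c := by ext x; simp only [Set.mem_sdiff]; tauto
  have s3 : (c \ a) ∩ b = (b \ a) ∩ c := by ext x; simp only [Set.mem_inter_iff, Set.mem_sdiff]; tauto
  have s4 : (c \ a) \ b = (c \ b) \ a := by ext x; simp only [Set.mem_sdiff]; tauto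
  have s5 : (a \ b) ∩ c = (c \ b) ∩ a := by ext x; simp only [Set.mem_inter_iff, Set.mem_sdiff]; tauto
  have s6 : (b \ a) \ c = (b \ c) \ a := by ext x; simp only [Set.mem_sdiff]; tauto
  rw [s1, s2] at e1
  rw [s3, s4] at e2
  rw [s5] at e3
  rw [s6] at e4
  omega

/-- nested halfspaces with far apart carriers differ in many points -/
theorem le_ncard_diff (hM : IsMedian X) {h k : Set V} (hh : IsHalf X h) (hk : IsHalf X k)
    (hkh : k ⊆ h) (hf : (h \ k).Finite) {r : ℕ} (H : ¬ Near X r k h) :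
    r ≤ (h \ k).ncard := by
  obtain ⟨b, hb⟩ := (hk.compl hM).inn_nonempty
  obtain ⟨q, hq⟩ := hh.compl_nonempty
  have hbh : b ∈ h := by
    by_contra hbh
    obtain ⟨hb1, a, hba, ha⟩ := hb
    have hak : a ∈ k := not_not.1 ha
    exact H ⟨a, inn_subset_car k ⟨hak, b, hba.symm, hb1⟩, a,
      inn_subset_car h ⟨hkh hak, b, hba.symm, hbh⟩, by simp⟩
  obtain ⟨a', b', hab, ha', hb', h1, -⟩ := hM.exit_edge hbh hq
  have ha'k : a' ∈ kᶜ := (hk.compl hM).cvx hM b hb.1 q (fun h => hq (hkh h)) a' h1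
  have hd : r ≤ X.dist b a' := by
    by_contra hlt
    exact H ⟨b, inn_compl_subset_car k hb, a', inn_subset_car h ⟨ha', b', hab, hb'⟩, by omega⟩
  have hm : ∀ i : ℕ, ∃ m, i < r → Btw X b m a' ∧ X.dist b m = i := fun i => by
    by_cases hi : i < r
    · obtain ⟨m, hm⟩ := hM.exists_btw_dist (x := b) (y := a') (n := i) (by omega)
      exact ⟨m, fun _ => hm⟩
    · exact ⟨b, fun h => (hi h).elim⟩
  choose m hm using hm
  have := Set.ncard_le_ncard_of_injOn (s := (Finset.range r : Set ℕ)) (t := h \ k) m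
    (fun i hi => by
      have hi' := hm i (by simpa using hi)
      exact ⟨hh.cvx hM b hbh a' ha' _ hi'.1, (hk.compl hM).cvx hM b hb.1 a' ha'k _ hi'.1⟩)
    (fun i hi j hj e => by
      rw [← (hm i (by simpa using hi)).2, ← (hm j (by simpa using hj)).2, e]) hf
  rwa [Set.ncard_coe_finset, Finset.card_range] at this

theorem near_translates_finite (hc : IsCubulation G X) {a : Set V} (ha : IsHalf X a)
    (f1 : (car X a).Finite) (r : ℕ) : {g : G | Near X r (g • a) a}.Finite := by
  refine (f1.biUnion fun y _ => f1.biUnion fun x _ => hc.proper_dist y x r).subset ?_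
  rintro g ⟨x, hx, y, hy, hd⟩
  rw [← hc.smul_car] at hx
  obtain ⟨x', hx', rfl⟩ := hx
  refine Set.mem_biUnion hy (Set.mem_biUnion hx' ?_)
  show X.dist y (g • x') ≤ r
  rw [X.dist_comm]
  exact hd

/-- almost equal sets -/
def elem3_AE (u v : Set V) : Prop := (u \ v).Finite ∧ (v \ u).Finite

/-- relative index -/
noncomputable def elem3_idx (u v : Set V) : ℤ := ((u \ v).ncard : ℤ) - ((v \ u).ncard : ℤ)

theorem elem3_AE.symm {u v : Set V} (h : elem3_AE u v) : elem3_AE v u := ⟨h.2, h.1⟩

theorem elem3_AE.trans {u v w : Set V} (h : elem3_AE u v) (h' : elem3_AE v w) : elem3_AE u w := by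
  constructor
  · refine (h.1.union h'.1).subset fun x hx => ?_
    by_cases hb : x ∈ v
    · exact Or.inr ⟨hb, hx.2⟩
    · exact Or.inl ⟨hx.1, hb⟩
  · refine (h'.2.union h.2).subset fun x hx => ?_
    by_cases hb : x ∈ v
    · exact Or.inr ⟨hb, hx.2⟩
    · exact Or.inl ⟨hx.1, hb⟩

theorem elem3_compl_diff (u v : Set V) : uᶜ \ vᶜ = v \ u := by
  ext x
  simp only [Set.mem_sdiff, Set.mem_compl_iff]
  tauto

theorem elem3_AE.compl {u v : Set V} (h : elem3_AE u v) : elem3_AE uᶜ vᶜ := by
  unfold elem3_AE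
  rw [elem3_compl_diff, elem3_compl_diff]
  exact h.symm

theorem elem3_AE.smul {u v : Set V} (h : elem3_AE u v) (g : G) : elem3_AE (g • u) (g • v) := by
  unfold elem3_AE
  rw [← Set.smul_set_sdiff, ← Set.smul_set_sdiff]
  exact ⟨h.1.smul_set, h.2.smul_set⟩

theorem elem3_idx_compl (u v : Set V) : elem3_idx uᶜ vᶜ = -elem3_idx u v := by
  unfold elem3_idx
  rw [elem3_compl_diff, elem3_compl_diff]
  ring

theorem elem3_idx_smul (g : G) (u v : Set V) : elem3_idx (g • u) (g • v) = elem3_idx u v := by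
  unfold elem3_idx
  rw [← Set.smul_set_sdiff, ← Set.smul_set_sdiff, Set.ncard_smul_set, Set.ncard_smul_set]

theorem elem3_idx_add {u v w : Set V} (h : elem3_AE u v) (h' : elem3_AE v w) :
    elem3_idx u w = elem3_idx u v + elem3_idx v w := idx_add h.1 h.2 h'.1 h'.2

theorem elem3_far (hc : IsCubulation G X) {a u : Set V} (ha : Good X a) (hu : IsHalf X u)
    (h : elem3_AE u a) {r : ℕ} (hn : ¬ Near X r u a) : (r : ℤ) ≤ |elem3_idx u a| := by
  have hM := hc.median
  have i1 : a.Infinite := ha.2.1.infinite hc ha.1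
  have i2 : aᶜ.Infinite := ha.2.2.infinite hc (ha.1.compl hM)
  unfold elem3_idx
  rcases not_cross_iff.1 (fun hcr : Cross u a => hn (hcr.near hM hu ha.1 r)) with h1 | h1 | h1 | h1
  · exact (i1 (h.2.subset fun x hx => ⟨hx, fun hxu => Set.disjoint_left.1 h1 hxu hx⟩)).elim
  · have := le_ncard_diff hM ha.1 hu h1 h.2 hn
    rw [Set.sdiff_eq_empty.2 h1, Set.ncard_empty]
    exact le_abs.2 (Or.inr (by omega))
  · have := le_ncard_diff hM hu ha.1 h1 h.1 (fun hh => hn hh.symm)
    rw [Set.sdiff_eq_empty.2 h1, Set.ncard_empty]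
    exact le_abs.2 (Or.inl (by omega))
  · refine (i2 (h.1.subset fun x hx => ⟨?_, hx⟩)).elim
    by_contra hxu
    exact Set.disjoint_left.1 h1 hxu hx

theorem line_of_not_facing (hc : IsCubulation G X) {L : ℕ} (hB : Bridge X L) (hF : ¬ Facing X)
    {a : Set V} (ha : Good X a) : ∃ ε t : G → ℤ, (∀ g, ε g = 1 ∨ ε g = -1) ∧
      (∀ g g', ε (g * g') = ε g * ε g') ∧ (∀ g g', t (g * g') = ε g * t g' + t g) ∧
      ∀ r : ℕ, {g | |t g| ≤ r}.Finite := by
  classical
  have hM := hc.median
  have i1 : a.Infinite := ha.2.1.infinite hc ha.1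
  have hno : ∀ u : Set V, elem3_AE uᶜ a → ¬ elem3_AE u a := fun u h1 h2 => by
    have := (h1.symm.trans h2.compl).1
    exact i1 (this.subset fun x hx => ⟨hx, fun h => h hx⟩)
  have hor : ∀ g : G, ¬ elem3_AE (g • a) a → elem3_AE (g • a)ᶜ a := fun g hg => by
    rcases same_or_opposite hc hB hF (ha.smul hc g) ha with h | h
    · exact (hg h).elim
    · exact ⟨h.2.subset fun x hx => hx, h.1.subset fun x hx => ⟨not_not.1 hx.2, hx.1⟩⟩
  have key : ∀ g g' : G,
      (if elem3_AE ((g * g') • a) a then (1 : ℤ) else -1) =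
        (if elem3_AE (g • a) a then (1 : ℤ) else -1) *
          (if elem3_AE (g' • a) a then (1 : ℤ) else -1) ∧
      elem3_idx (if elem3_AE ((g * g') • a) a then (g * g') • a else ((g * g') • a)ᶜ) a =
        (if elem3_AE (g • a) a then (1 : ℤ) else -1) *
          elem3_idx (if elem3_AE (g' • a) a then g' • a else (g' • a)ᶜ) a +
        elem3_idx (if elem3_AE (g • a) a then g • a else (g • a)ᶜ) a := by
    intro g g'
    rw [mul_smul]
    by_cases h : elem3_AE (g • a) a <;> by_cases h' : elem3_AE (g' • a) a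
    · have h1 := h'.smul g
      have h2 := h1.trans h
      simp only [if_pos h, if_pos h', if_pos h2]
      exact ⟨by norm_num, by rw [elem3_idx_add h1 h, elem3_idx_smul, one_mul]⟩
    · have h1 := (hor g' h').smul g
      have h2 := h1.trans h
      have e := elem3_idx_add h1 h
      rw [elem3_idx_smul] at e
      rw [Set.smul_set_compl] at h2 e
      simp only [if_pos h, if_neg h', if_neg (hno _ h2)]
      exact ⟨by norm_num, by rw [e, one_mul]⟩
    · have h1 := (h'.smul g).compl
      have h2 := h1.trans (hor g h)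
      simp only [if_neg h, if_pos h', if_neg (hno _ h2)]
      exact ⟨by norm_num, by
        rw [elem3_idx_add h1 (hor g h), elem3_idx_compl, elem3_idx_smul, neg_one_mul]⟩
    · have h1 := ((hor g' h').smul g).compl
      have h2 := h1.trans (hor g h)
      have e := elem3_idx_add h1 (hor g h)
      rw [elem3_idx_compl, elem3_idx_smul] at e
      rw [Set.smul_set_compl, compl_compl] at h2 e
      simp only [if_neg h, if_neg h', if_pos h2]
      exact ⟨by norm_num, by rw [e, neg_one_mul]⟩
  refine ⟨fun g => if elem3_AE (g • a) a then 1 else -1,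
    fun g => elem3_idx (if elem3_AE (g • a) a then g • a else (g • a)ᶜ) a, fun g => ?_,
    fun g g' => (key g g').1, fun g g' => (key g g').2, fun r => ?_⟩
  · by_cases h : elem3_AE (g • a) a
    · exact Or.inl (if_pos h)
    · exact Or.inr (if_neg h)
  · refine (near_translates_finite hc ha.1 (car_finite_of_not_facing hc hB hF ha) (r + 1)).subset
      fun g hg => ?_
    by_contra hn
    have hg' : |elem3_idx (if elem3_AE (g • a) a then g • a else (g • a)ᶜ) a| ≤ r := hg
    by_cases h : elem3_AE (g • a) a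
    · rw [if_pos h] at hg'
      have := elem3_far hc ha (ha.1.smul hc g) h hn
      push_cast at this
      linarith
    · rw [if_neg h] at hg'
      have := elem3_far hc ha ((ha.1.smul hc g).compl hM) (hor g h)
        (fun hh => hn (near_compl_left.1 hh))
      push_cast at this
      linarith

end Pool.Agent.Lib.MP_3467cd_al
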