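import Pool.Agent.Lib.MP_3467cd_al.CuN4
import Pool.Agent.Lib.MP_3467cd_al.CuFl2
import Pool.Agent.Lib.MP_3467cd_al.CuFr2
import Pool.Agent.Lib.MP_3467cd_al.CuW6
import Pool.Agent.Lib.MP_3467cd_al.CuW7
import Pool.Agent.Lib.MP_3467cd_al.CuTW
import Pool.Agent.Lib.MP_3467cd_al.Elem3

open Pointwise

namespace Pool.Agent.Lib.MP_3467cd_al.Cu

variable {G : Type} [Group G] {V : Type} [MulAction G V] {X : SimpleGraph V}


theorem WD.tw (D : WD G X) (hc : IsCubulation G X) : TW G X D.H D.Co D.U where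
  cvx := hull_cvx hc.median _
  ne := D.co_nonempty hc
  part x := by
    by_cases h : x ∈ D.Up ∪ D.Co
    · rcases h with h | h
      · exact Or.inr (Or.inl h)
      · exact Or.inl h
    · exact Or.inr (Or.inr h)
  disjC ε := by
    cases ε
    · exact Set.disjoint_left.2 fun x h h' => h' (Or.inr h)
    · exact D.disjoint_co_up hc
  disjU := Set.disjoint_left.2 fun x h h' => h' (Or.inl h)
  invC h hh := D.smul_Co hc hh
  invU h hh ε := by
    cases ε
    · exact D.smul_Um hc hh
    · exact D.smul_Up hh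
  un ε x hx := D.un hc ε hx
  nl k hk H ε := D.nl hc hk H ε
  cc := D.cc hc
  btw x hx y hy := D.btw hc hx hy
  meet := D.meet hc
  ess := D.ess hc
  lim k hk H x r := D.lim hc hk H x r
  sepa := D.sepa hc

theorem Nice.goal {L : ℕ} (hN : Nice G X L) : Goal G := by
  rcases flip_or_goal hN.toNice0 with h | h
  · exact h
  · obtain ⟨F⟩ := exists_frame hN (place_of_flip hN.toNice0 h)
    obtain ⟨D, -⟩ := F.exists_wd hN.cub
    exact (D.tw hN.cub).goal hN.toNice0

theorem main_goal (hG : IsHyperbolicGroup G) (hc : IsCubulation G X) : Goal G := by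
  obtain ⟨L, hL, hT⟩ := hc.exists_thin hG
  obtain ⟨D, hD⟩ := hc.exists_dim
  have hB : Bridge X L := hT.bridge hc.median hD hL
  by_cases hF : Facing X
  · obtain ⟨W, Y, i1, L', hN⟩ := exists_nice0 hG hc hB hF
    obtain ⟨G', i2, i3, hN', h⟩ := hN.exists_nice
    exact h hN'.goal
  · by_cases hg : ∃ h, Good X h
    · obtain ⟨a, ha⟩ := hg
      have := hc.infinite_of_good ha
      obtain ⟨ε, t, h1, h2, h3, h4⟩ := line_of_not_facing hc hB hF ha
      obtain ⟨t', k1, k2, k3⟩ := line_normalize ε t h1 h2 h3 h4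
      exact goal_of_line ε t' h1 h2 k1 k2 k3
    · have := hc.finite_of_no_good hg
      exact goal_of_finite

end Pool.Agent.Lib.MP_3467cd_al.Cu
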