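import Pool.Agent.Lib.MP_3467cd_al.CuDefs
import Pool.Agent.Lib.MP_3467cd_al.Act2

open Pointwise

namespace Pool.Agent.Lib.MP_3467cd_al.Cu

variable {G : Type} [Group G] {V : Type} [MulAction G V] {X : SimpleGraph V}


theorem fl1_split {S : Set (Set V)} (hS : S.Finite) (y : V) :
    S.ncard = {k ∈ S | y ∈ k}.ncard + {k ∈ S | y ∉ k}.ncard := by
  rw [← Set.ncard_union_eq (Set.disjoint_left.2 fun k h1 h2 => h2.2 h1.2)
    (hS.subset fun k h => h.1) (hS.subset fun k h => h.1)]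
  congr 1
  ext k
  simp only [Set.mem_union, Set.mem_ofPred_eq]
  tauto

theorem fl1_fin (hM : IsMedian X) {U : Set (Set V)} (hU : ∀ k ∈ U, IsHalf X k) (x y : V) :
    {k ∈ U | x ∉ k ∧ y ∈ k}.Finite :=
  (hM.sep_finite x y).subset fun k hk => ⟨hU k hk.1, hk.2⟩

theorem fl1_fin' (hM : IsMedian X) {U : Set (Set V)} (hU : ∀ k ∈ U, IsHalf X k) (x y : V) :
    {k ∈ U | x ∈ k ∧ y ∉ k}.Finite :=
  (hM.sep_finite y x).subset fun k hk => ⟨hU k hk.1, hk.2.2, hk.2.1⟩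

theorem fl1_congr {S T : Set (Set V)} (H : ∀ k, k ∈ S ↔ k ∈ T) : S.ncard = T.ncard := by
  rw [Set.ext H]

theorem fl1_chain (hM : IsMedian X) {D : ℕ} (hD : Dim X D) (n : ℕ) {x y : V} {S : Set (Set V)}
    (hS : S ⊆ sep X x y) (hc : D * n < S.ncard) : ∃ c, Chn X n c ∧ ∀ i ≤ n, c i ∈ S := by
  have hf : S.Finite := (hM.sep_finite x y).subset hS
  obtain ⟨c, h1, h2⟩ := hD.chain_of_card n (x := x) (y := y) hf.toFinset
    (fun h hh => hS (hf.mem_toFinset.1 hh)) (by rwa [← Set.ncard_eq_toFinset_card _ hf])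
  exact ⟨c, h1, fun i hi => hf.mem_toFinset.1 (h2 i hi)⟩

/-- one half of the count: the members of `sep X v u` containing `y` and `x1` -/
theorem fl1_cross (hM : IsMedian X) {D L : ℕ} (hD : Dim X D) (hT : Thin X L)
    {x1 x2 u v y : V} {c : ℕ → Set V} (hc : Chn X L c)
    (h1 : x1 ∉ c 0) (h2 : x2 ∉ c 0) (hu : u ∈ c L) (hv : v ∈ c L) (b2 : Btw X x2 v y) :
    {k ∈ {k ∈ sep X v u | y ∈ k} | x1 ∈ k}.ncard ≤ D * L := by
  by_contra hn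
  obtain ⟨e, he, hm⟩ := fl1_chain hM hD L (x := v) (y := u)
    (S := {k ∈ {k ∈ sep X v u | y ∈ k} | x1 ∈ k}) (fun k hk => hk.1.1) (not_le.1 hn)
  refine hT e c he hc fun i hi j hj => ?_
  obtain ⟨⟨⟨k1, k2, k3⟩, k4⟩, k5⟩ := hm i hi
  have k6 : x2 ∉ e i := fun h => k2 (k1.cvx hM x2 h y k4 v b2)
  have c1 := hc.subset hj le_rfl
  have c2 := hc.subset (Nat.zero_le j) hj
  exact ⟨⟨u, k3, c1 hu⟩, ⟨x1, k5, fun h => h1 (c2 h)⟩, ⟨v, k2, c1 hv⟩,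
    ⟨x2, k6, fun h => h2 (c2 h)⟩⟩

theorem bus_add (hM : IsMedian X) {U : Set (Set V)} (hU : ∀ k ∈ U, IsHalf X k) (x y z : V) :
    bus U x z = bus U x y + bus U y z := by
  have a1 := fl1_split (fl1_fin hM hU x z) y
  have a2 := fl1_split (fl1_fin' hM hU x z) y
  have a3 := fl1_split (fl1_fin hM hU x y) z
  have a4 := fl1_split (fl1_fin' hM hU x y) z
  have a5 := fl1_split (fl1_fin hM hU y z) x
  have a6 := fl1_split (fl1_fin' hM hU y z) x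
  have e1 : {k ∈ {k ∈ U | x ∉ k ∧ z ∈ k} | y ∈ k}.ncard =
      {k ∈ {k ∈ U | x ∉ k ∧ y ∈ k} | z ∈ k}.ncard :=
    fl1_congr fun k => by simp only [Set.mem_ofPred_eq]; tauto
  have e2 : {k ∈ {k ∈ U | x ∉ k ∧ z ∈ k} | y ∉ k}.ncard =
      {k ∈ {k ∈ U | y ∉ k ∧ z ∈ k} | x ∉ k}.ncard :=
    fl1_congr fun k => by simp only [Set.mem_ofPred_eq]; tauto
  have e3 : {k ∈ {k ∈ U | x ∈ k ∧ z ∉ k} | y ∈ k}.ncard =
      {k ∈ {k ∈ U | y ∈ k ∧ z ∉ k} | x ∈ k}.ncard :=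
    fl1_congr fun k => by simp only [Set.mem_ofPred_eq]; tauto
  have e4 : {k ∈ {k ∈ U | x ∈ k ∧ z ∉ k} | y ∉ k}.ncard =
      {k ∈ {k ∈ U | x ∈ k ∧ y ∉ k} | z ∉ k}.ncard :=
    fl1_congr fun k => by simp only [Set.mem_ofPred_eq]; tauto
  have e5 : {k ∈ {k ∈ U | x ∉ k ∧ y ∈ k} | z ∉ k}.ncard =
      {k ∈ {k ∈ U | y ∈ k ∧ z ∉ k} | x ∉ k}.ncard :=
    fl1_congr fun k => by simp only [Set.mem_ofPred_eq]; tauto
  have e6 : {k ∈ {k ∈ U | x ∈ k ∧ y ∉ k} | z ∈ k}.ncard =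
      {k ∈ {k ∈ U | y ∉ k ∧ z ∈ k} | x ∈ k}.ncard :=
    fl1_congr fun k => by simp only [Set.mem_ofPred_eq]; tauto
  simp only [bus]
  omega

theorem bus_smul {U : Set (Set V)} (hU : ∀ (g : G), ∀ k ∈ U, g • k ∈ U) (g : G) (x y : V) :
    bus U (g • x) (g • y) = bus U x y := by
  have key : ∀ P Q : Set V → Prop, (∀ e, P (g • e) ↔ Q e) →
      {e ∈ U | P e} = g • {e ∈ U | Q e} := by
    intro P Q h
    ext e
    rw [Set.mem_smul_set_iff_inv_smul_mem, Set.mem_ofPred_eq, Set.mem_ofPred_eq, ← h, smul_inv_smul]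
    refine and_congr_left fun _ => ⟨hU g⁻¹ e, fun H => ?_⟩
    have := hU g _ H
    rwa [smul_inv_smul] at this
  rw [bus, bus, key (fun e => g • x ∉ e ∧ g • y ∈ e) (fun e => x ∉ e ∧ y ∈ e)
      (fun e => by simp only [Set.smul_mem_smul_set_iff]),
    key (fun e => g • x ∈ e ∧ g • y ∉ e) (fun e => x ∈ e ∧ y ∉ e)
      (fun e => by simp only [Set.smul_mem_smul_set_iff]), Set.ncard_smul_set, Set.ncard_smul_set]

theorem bus_of_sep (hM : IsMedian X) {U : Set (Set V)} (hU : ∀ k ∈ U, IsHalf X k)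
    (hc : ∀ k ∈ U, kᶜ ∉ U) {x p : V} (H : sep X x p ⊆ U) : bus U x p = X.dist x p := by
  have e1 : {k ∈ U | x ∉ k ∧ p ∈ k} = sep X x p :=
    Set.ext fun k => ⟨fun hk => ⟨hU k hk.1, hk.2⟩, fun hk => ⟨H hk, hk.2⟩⟩
  have e2 : {k ∈ U | x ∈ k ∧ p ∉ k} = ∅ :=
    Set.eq_empty_of_forall_notMem fun k hk =>
      hc k hk.1 (H ⟨(hU k hk.1).compl hM, fun h => h hk.2.1, hk.2.2⟩)
  rw [bus, e1, e2, hM.dist_eq_ncard, Set.ncard_empty]
  simp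

/-- Let `A` be the halfspaces containing `u, y` and not `v`, and `B` those containing `v, y` and
not `u`; `dist u v = |A| + |B|`. Members of `A` miss `x2`, members of `B` miss `x1`. Let `A'`
(`B'`) be the members of `A` (`B`) missing `x1` (`x2`); they lie in `U`. The other members cross
every `c i`, so there are at most `D * L` of them (`chain_of_card`, `Thin`). Members of `A'`
cross members of `B'`, so one of the two sets has at most `D * L` elements. Finally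
`bus U v u = |U ∩ A| - |U ∩ B|`. -/
theorem bus_close (hM : IsMedian X) {D L : ℕ} (hD : Dim X D) (hT : Thin X L) {U : Set (Set V)}
    (hU : ∀ k ∈ U, IsHalf X k) {x1 x2 u v y : V} {c : ℕ → Set V} (hc : Chn X L c)
    (h1 : x1 ∉ c 0) (h2 : x2 ∉ c 0) (hu : u ∈ c L) (hv : v ∈ c L) (b1 : Btw X x1 u y)
    (b2 : Btw X x2 v y) (s1 : sep X x1 u ⊆ U) (s2 : sep X x2 v ⊆ U)
    (hy : ∀ k ∈ U, ¬ (u ∈ k ↔ v ∈ k) → y ∈ k) {r : ℕ} (hr : |bus U v u| ≤ r) :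
    X.dist u v ≤ 5 * (D * L) + r := by
  have fA : {k ∈ sep X v u | y ∈ k}.Finite := (hM.sep_finite v u).subset fun k hk => hk.1
  have fB : {k ∈ sep X u v | y ∈ k}.Finite := (hM.sep_finite u v).subset fun k hk => hk.1
  have d0 : X.dist u v = (sep X u v).ncard := hM.dist_eq_ncard u v
  have d1 := fl1_split (hM.sep_finite u v) y
  have d2 : {k ∈ sep X u v | y ∉ k}.ncard ≤ {k ∈ sep X v u | y ∈ k}.ncard :=
    Set.ncard_le_ncard_of_injOn (fun k => kᶜ)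
      (fun k hk => ⟨⟨hk.1.1.compl hM, fun h => h hk.1.2.2, hk.1.2.1⟩, hk.2⟩)
      (fun _ _ _ _ e => compl_injective e) fA
  have d3 := fl1_split fA x1
  have d4 := fl1_split fB x2
  have d5 := fl1_cross hM hD hT hc h1 h2 hu hv b2
  have d6 := fl1_cross hM hD hT hc h2 h1 hv hu b1
  have g1 : {k ∈ {k ∈ sep X v u | y ∈ k} | x1 ∉ k}.ncard ≤ {k ∈ U | v ∉ k ∧ u ∈ k}.ncard :=
    Set.ncard_le_ncard (fun k hk => ⟨s1 ⟨hk.1.1.1, hk.2, hk.1.1.2.2⟩, hk.1.1.2⟩)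
      (fl1_fin hM hU v u)
  have g2 : {k ∈ {k ∈ sep X u v | y ∈ k} | x2 ∉ k}.ncard ≤ {k ∈ U | v ∈ k ∧ u ∉ k}.ncard :=
    Set.ncard_le_ncard
      (fun k hk => ⟨s2 ⟨hk.1.1.1, hk.2, hk.1.1.2.2⟩, hk.1.1.2.2, hk.1.1.2.1⟩)
      (fl1_fin' hM hU v u)
  have g3 : {k ∈ U | v ∉ k ∧ u ∈ k}.ncard ≤ {k ∈ sep X v u | y ∈ k}.ncard :=
    Set.ncard_le_ncard
      (fun k hk => ⟨⟨hU k hk.1, hk.2⟩, hy k hk.1 fun e => hk.2.1 (e.1 hk.2.2)⟩) fA
  have g4 : {k ∈ U | v ∈ k ∧ u ∉ k}.ncard ≤ {k ∈ sep X u v | y ∈ k}.ncard :=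
    Set.ncard_le_ncard
      (fun k hk => ⟨⟨hU k hk.1, hk.2.2, hk.2.1⟩, hy k hk.1 fun e => hk.2.2 (e.2 hk.2.1)⟩) fB
  have g5 : {k ∈ {k ∈ sep X v u | y ∈ k} | x1 ∉ k}.ncard ≤ D * L ∨
      {k ∈ {k ∈ sep X u v | y ∈ k} | x2 ∉ k}.ncard ≤ D * L := by
    by_contra hn
    rw [not_or, not_le, not_le] at hn
    obtain ⟨e, he, hm⟩ := fl1_chain hM hD L (x := v) (y := u)
      (S := {k ∈ {k ∈ sep X v u | y ∈ k} | x1 ∉ k}) (fun k hk => hk.1.1) hn.1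
    obtain ⟨e', he', hm'⟩ := fl1_chain hM hD L (x := u) (y := v)
      (S := {k ∈ {k ∈ sep X u v | y ∈ k} | x2 ∉ k}) (fun k hk => hk.1.1) hn.2
    refine hT e e' he he' fun i hi j hj => ?_
    obtain ⟨⟨⟨-, k2, k3⟩, k4⟩, k5⟩ := hm i hi
    obtain ⟨⟨⟨l1, l2, l3⟩, l4⟩, -⟩ := hm' j hj
    have l6 : x1 ∉ e' j := fun h => l2 (l1.cvx hM x1 h y l4 u b1)
    exact ⟨⟨y, k4, l4⟩, ⟨u, k3, l2⟩, ⟨v, k2, l3⟩, ⟨x1, k5, l6⟩⟩
  rw [bus, abs_le] at hr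
  generalize D * L = M at *
  omega

/-- conjugate to the finite set of orbit representatives -/
theorem exists_card_bound (hc : IsCubulation G X) (r : ℕ) :
    ∃ s : ℕ, ∀ p : V, {g : G | X.dist p (g • p) ≤ r}.ncard ≤ s := by
  obtain ⟨S, hS⟩ := hc.cocompact
  obtain ⟨s, hs⟩ :=
    (S.finite_toSet.image fun t => {g : G | X.dist t (g • t) ≤ r}.ncard).bddAbove
  refine ⟨s, fun p => ?_⟩
  obtain ⟨a, ha⟩ := hS p
  refine le_trans ?_ (hs ⟨a • p, ha, rfl⟩)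
  refine Set.ncard_le_ncard_of_injOn (fun g => a * g * a⁻¹) (fun g hg => ?_)
    (fun g _ g' _ e => by simpa using e) (hc.proper_dist _ _ r)
  show X.dist (a • p) ((a * g * a⁻¹) • a • p) ≤ r
  rw [mul_smul, inv_smul_smul, mul_smul, hc.dist_smul]
  exact hg

end Pool.Agent.Lib.MP_3467cd_al.Cu
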