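import Pool.Agent.Lib.MP_3467cd_al.CuLink
import Pool.Agent.Lib.MP_3467cd_al.CuT1

open Pointwise

namespace Pool.Agent.Lib.MP_3467cd_al.Cu

variable {G : Type} [Group G] {V : Type} [MulAction G V] {X : SimpleGraph V}

namespace Link
variable {h : G} {c : Set V} {q : Option Bool → Set V} {o : Ty → Set V}
  {Ps : Set (Set V × Set V)} {t0 n : ℕ} (K : Link X h c q o Ps t0 n)

theorem pos_smul (f : FreeGroup Bool) (v : Vx) : K.pos (f • v) = K.ι f * K.pos v := by
  show K.ι (f * v.f) * K.β v.s = K.ι f * (K.ι v.f * K.β v.s)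
  rw [map_mul, mul_assoc]

theorem fr1_of (s : Bool) :
    K.ι (FreeGroup.of s) = K.β s * K.θ (s, some true) * (K.β s)⁻¹ := by
  simp [ι]

theorem pos_head (ω : Ed) : K.pos ω.head = K.pos ω.tail * K.θ ω.ty := by
  rcases ω with ⟨f, s, _ | _ | _⟩
  · show K.ι f * K.β (!s) = K.ι f * K.β s * K.θ (s, none)
    cases s
    · simp [β]
    · have h1 : K.θ (true, none) = (K.θ (false, none))⁻¹ := K.θ_rev (false, none)
      simp [β, h1]
  · show K.ι (f * (FreeGroup.of s)⁻¹) * K.β s = K.ι f * K.β s * K.θ (s, some false)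
    have h1 : K.θ (s, some false) = (K.θ (s, some true))⁻¹ := K.θ_rev (s, some true)
    rw [map_mul, map_inv, fr1_of, h1]
    group
  · show K.ι (f * FreeGroup.of s) * K.β s = K.ι f * K.β s * K.θ (s, some true)
    rw [map_mul, fr1_of]
    group

theorem fr1_rev_d (ω : Ed) : ω.rev.d = (revT ω.ty).2 := congrArg Prod.snd (Ed.ty_rev ω)

theorem mu_eq (ω : Ed) : K.mu ω = K.pos ω.tail • K.θ ω.ty • (q (revT ω.ty).2)ᶜ := by
  rw [mu, pos_head, fr1_rev_d, mul_smul, Set.smul_set_compl, Set.smul_set_compl]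

theorem compl_mu_rev (ω : Ed) : (K.mu ω.rev)ᶜ = K.pos ω.tail • q ω.d := by
  rw [mu, compl_compl, Ed.head_rev, Ed.rev_rev]

theorem fr1_zed_rev (ω : Ed) : K.zed ω.rev = (K.zed ω)ᶜ := by
  rw [zed, zed, Ed.tail_rev, pos_head, Ed.ty_rev, K.zz_rev, mul_smul, smul_inv_smul,
    Set.smul_set_compl]

theorem exists_pre (hc : IsCubulation G X) (hA : SD X (h • c) cᶜ)
    (hq : ∀ d d', d ≠ d' → SD X (q d) (q d')) (hn : 2 ≤ n) :
    ∃ P : PreFrame G X, P.ι = K.ι ∧ P.μ = K.mu ∧ P.z = K.zed := by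
  have hqh : ∀ d, IsHalf X (q d) := by
    intro d
    rcases d with _ | b
    · exact (hq none (some true) (by simp)).left
    · exact (hq (some b) none (by simp)).left
  refine ⟨⟨K.ι, K.mu, K.zed, fun f ω => ?_, fun f ω => ?_, K.fr1_zed_rev, fun ω => ?_,
    fun σ τ H => ?_⟩, rfl, rfl, rfl⟩
  · rw [mu_eq, mu_eq, Ed.smul_tail, pos_smul, Ed.smul_ty, mul_smul]
  · rw [zed, zed, Ed.smul_tail, pos_smul, Ed.smul_ty, mul_smul]
  · rw [fr1_zed_rev, mu_eq, zed, ← Set.smul_set_compl]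
    refine SD.smul hc ?_ _
    have h1 := (cc_sd hc hA (K.ε ω.ty) (i := n) (j := 2 * n - 1) (by omega)).smul hc (K.gb ω.ty)
    rw [Set.smul_set_compl] at h1
    refine (h1.mono_left (((hqh _).compl hc.median).smul hc _)
      ((K.exit2 ω.ty).trans (K.exit1 ω.ty))).mono_right ((K.zz_half ω.ty).compl hc.median) ?_
    exact Set.compl_subset_compl.2 (K.mid1 ω.ty)
  · rw [compl_mu_rev, mu, compl_compl, H.1]
    refine SD.smul hc (hq _ _ fun hd => H.2 (Ed.eq_of_tail ?_ hd)) _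
    rw [Ed.tail_rev]
    exact H.1

theorem rstar {a b : Set V} {g : G} {p : Set V × Set V} (hp : p ∈ Ps) (h1 : g • p.1 = aᶜ)
    (h2 : g • p.2 ⊆ b) : ∃ (g' : G) (ω : Ed), g' • K.mu ω ⊆ b ∧ g' • K.mu ω.rev ⊆ a := by
  obtain ⟨t, g0, h3, h4⟩ := K.pass p hp
  refine ⟨g * g0⁻¹ * (K.pos (base t).tail)⁻¹, base t, ?_, ?_⟩
  · rw [mu_eq, mul_smul, inv_smul_smul, mul_smul]
    refine subset_trans ?_ h2
    refine Set.smul_set_mono ?_
    have := Set.smul_set_mono (a := g0⁻¹) h4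
    rwa [inv_smul_smul] at this
  · have h5 : K.mu (base t).rev = (K.pos (base t).tail • q t.2)ᶜ := by
      rw [← compl_compl (K.mu (base t).rev), compl_mu_rev]
      rfl
    rw [h5, ← Set.smul_set_compl, mul_smul, inv_smul_smul, mul_smul, ← compl_compl a, ← h1,
      ← Set.smul_set_compl]
    refine Set.smul_set_mono ?_
    have := Set.smul_set_mono (a := g0⁻¹) (Set.compl_subset_compl.2 h3)
    rwa [← Set.smul_set_compl, inv_smul_smul] at this

end Link

end Pool.Agent.Lib.MP_3467cd_al.Cu
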