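import Pool.Agent.Lib.MP_3467cd_al.CuDefs
import Pool.Agent.Lib.MP_3467cd_al.CuDefsEq

open Pointwise

namespace Pool.Agent.Lib.MP_3467cd_al.Cu

theorem GWalk.trans {bad : GE → Prop} {u v w : GV} (H : GWalk bad u v) (H' : GWalk bad v w) :
    GWalk bad u w := by
  induction H' with
  | refl => exact H
  | step _ hb ih => exact GWalk.step ih hb

private theorem g1_mv_rev (w : GV) (d : Option Bool) :
    gmv (gmv w d) (d.map fun b => !b) = w := by
  rcases w with ⟨x, y, _ | _⟩ <;> rcases d with _ | _ | _ <;> simp [gmv]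

private theorem g1_can_rev (w : GV) (d : Option Bool) :
    gcan (gmv w d, d.map fun b => !b) = gcan (w, d) := by
  rcases w with ⟨x, y, _ | _⟩ <;> rcases d with _ | _ | _ <;> simp [gmv, gcan]

theorem GWalk.symm {bad : GE → Prop} {u v : GV} (H : GWalk bad u v) : GWalk bad v u := by
  induction H with
  | refl => exact GWalk.refl
  | @step w d _ hb ih =>
    have h1 : GWalk bad (gmv w d) (gmv (gmv w d) (d.map fun b => !b)) :=
      GWalk.step GWalk.refl (by rw [g1_can_rev]; exact hb)
    rw [g1_mv_rev] at h1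
    exact h1.trans ih

private theorem g1_stepH {bad : GE → Prop} {x y : ℤ} (h : ¬ bad (x, y, some false)) :
    GWalk bad (x, y, false) (x + 1, y, false) :=
  GWalk.step (w := (x, y, false)) (d := some true) GWalk.refl h

private theorem g1_stepV {bad : GE → Prop} {x y : ℤ} (h : ¬ bad (x, y, some true)) :
    GWalk bad (x, y, true) (x, y + 1, true) :=
  GWalk.step (w := (x, y, true)) (d := some true) GWalk.refl h

private theorem g1_stepB {bad : GE → Prop} {x y : ℤ} (h : ¬ bad (x, y, none)) :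
    GWalk bad (x, y, false) (x, y, true) :=
  GWalk.step (w := (x, y, false)) (d := none) GWalk.refl h

private theorem g1_segH {bad : GE → Prop} {a b y : ℤ} (hab : a ≤ b)
    (h : ∀ t, a ≤ t → t < b → ¬ bad (t, y, some false)) :
    GWalk bad (a, y, false) (b, y, false) := by
  induction b, hab using Int.leInduction with
  | base => exact GWalk.refl
  | succ n hn ih =>
    exact (ih fun t h1 h2 => h t h1 (by omega)).trans (g1_stepH (h n hn (by omega)))

private theorem g1_segV {bad : GE → Prop} {a b x : ℤ} (hab : a ≤ b)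
    (h : ∀ t, a ≤ t → t < b → ¬ bad (x, t, some true)) :
    GWalk bad (x, a, true) (x, b, true) := by
  induction b, hab using Int.leInduction with
  | base => exact GWalk.refl
  | succ n hn ih =>
    exact (ih fun t h1 h2 => h t h1 (by omega)).trans (g1_stepV (h n hn (by omega)))

private theorem g1_row {bad : GE → Prop} {y : ℤ} (h : ∀ t o, ¬ bad (t, y, o)) (a b : ℤ) :
    GWalk bad (a, y, false) (b, y, false) := by
  rcases le_total a b with hab | hab
  · exact g1_segH hab fun t _ _ => h t _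
  · exact (g1_segH hab fun t _ _ => h t _).symm

private theorem g1_col {bad : GE → Prop} {x : ℤ} (h : ∀ t o, ¬ bad (x, t, o)) (a b : ℤ) :
    GWalk bad (x, a, true) (x, b, true) := by
  rcases le_total a b with hab | hab
  · exact g1_segV hab fun t _ _ => h t _
  · exact (g1_segV hab fun t _ _ => h t _).symm

/-- vertices in a clean column reach the base point -/
private theorem g1_coreC {bad : GE → Prop} {x0 y0 x : ℤ} (hy : ∀ t o, ¬ bad (t, y0, o))
    (hx : ∀ t o, ¬ bad (x, t, o)) (y : ℤ) : GWalk bad (x, y, false) (x0, y0, false) :=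
  (g1_stepB (hx y none)).trans ((g1_col hx y y0).trans
    ((g1_stepB (hx y0 none)).symm.trans (g1_row hy x x0)))

/-- vertices in a clean row reach the base point -/
private theorem g1_coreR {bad : GE → Prop} {x0 y0 y : ℤ} (hx : ∀ t o, ¬ bad (x0, t, o))
    (hy : ∀ t o, ¬ bad (t, y, o)) (x : ℤ) : GWalk bad (x, y, true) (x0, y0, false) :=
  (g1_stepB (hy x none)).symm.trans ((g1_row hy x x0).trans
    ((g1_stepB (hx y none)).trans ((g1_col hx y y0).trans (g1_stepB (hx y0 none)).symm)))

private theorem g1_cleanC {A B : GE → Prop} (hA : GFamily A) (hB : GFamily B) (x : ℤ) :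
    ∃ x', x ≤ x' ∧ x' ≤ x + 18 ∧ ∀ t o, ¬ (A (x', t, o) ∨ B (x', t, o)) := by
  obtain ⟨s1, s2, hs⟩ := hA.box
  obtain ⟨t1, t2, ht⟩ := hB.box
  have key : ∃ x', x ≤ x' ∧ x' ≤ x + 18 ∧ 8 < (x' - s1 + 4) % 100 ∧ 8 < (x' - t1 + 4) % 100 := by
    have : (8 < (x - s1 + 4) % 100 ∧ 8 < (x - t1 + 4) % 100) ∨
        (8 < (x + 9 - s1 + 4) % 100 ∧ 8 < (x + 9 - t1 + 4) % 100) ∨
        (8 < (x + 18 - s1 + 4) % 100 ∧ 8 < (x + 18 - t1 + 4) % 100) := by omega
    rcases this with h | h | h
    · exact ⟨x, le_rfl, by omega, h⟩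
    · exact ⟨x + 9, by omega, by omega, h⟩
    · exact ⟨x + 18, by omega, le_rfl, h⟩
  obtain ⟨x', h1, h2, h3, h4⟩ := key
  refine ⟨x', h1, h2, fun t o h => ?_⟩
  rcases h with h | h
  · have := (hs _ h).1
    simp only at this
    omega
  · have := (ht _ h).1
    simp only at this
    omega

private theorem g1_cleanR {A B : GE → Prop} (hA : GFamily A) (hB : GFamily B) (y : ℤ) :
    ∃ y', y ≤ y' ∧ y' ≤ y + 18 ∧ ∀ t o, ¬ (A (t, y', o) ∨ B (t, y', o)) := by
  obtain ⟨s1, s2, hs⟩ := hA.box
  obtain ⟨t1, t2, ht⟩ := hB.box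
  have key : ∃ y', y ≤ y' ∧ y' ≤ y + 18 ∧ 8 < (y' - s2 + 4) % 100 ∧ 8 < (y' - t2 + 4) % 100 := by
    have : (8 < (y - s2 + 4) % 100 ∧ 8 < (y - t2 + 4) % 100) ∨
        (8 < (y + 9 - s2 + 4) % 100 ∧ 8 < (y + 9 - t2 + 4) % 100) ∨
        (8 < (y + 18 - s2 + 4) % 100 ∧ 8 < (y + 18 - t2 + 4) % 100) := by omega
    rcases this with h | h | h
    · exact ⟨y, le_rfl, by omega, h⟩
    · exact ⟨y + 9, by omega, by omega, h⟩
    · exact ⟨y + 18, by omega, le_rfl, h⟩
  obtain ⟨y', h1, h2, h3, h4⟩ := key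
  refine ⟨y', h1, h2, fun t o h => ?_⟩
  rcases h with h | h
  · have := (hs _ h).2
    simp only at this
    omega
  · have := (ht _ h).2
    simp only at this
    omega

/-- the window of radius 30 -/
private def g1W (x y : ℤ) (u : GE) : Prop :=
  x - 30 ≤ u.1 ∧ u.1 ≤ x + 30 ∧ y - 30 ≤ u.2.1 ∧ u.2.1 ≤ y + 30

private theorem g1_three {A : GE → Prop} (hA : GFamily A) {x y : ℤ} {u1 u2 u3 : GE}
    (w1 : g1W x y u1) (w2 : g1W x y u2) (w3 : g1W x y u3) (n12 : u1 ≠ u2) (n13 : u1 ≠ u3)
    (n23 : u2 ≠ u3) : ¬ (A u1 ∧ A u2 ∧ A u3) := by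
  rintro ⟨h1, h2, h3⟩
  unfold g1W at w1 w2 w3
  rcases hA.two u1 u2 u3 h1 h2 h3 (abs_le.2 (by omega)) (abs_le.2 (by omega))
    (abs_le.2 (by omega)) (abs_le.2 (by omega)) (abs_le.2 (by omega)) (abs_le.2 (by omega)) with
    h | h | h
  · exact n12 h
  · exact n13 h
  · exact n23 h

private theorem g1_five {A B : GE → Prop} (hA : GFamily A) (hB : GFamily B) (x y : ℤ)
    (u1 u2 u3 u4 u5 : GE) (w1 : g1W x y u1) (w2 : g1W x y u2) (w3 : g1W x y u3)
    (w4 : g1W x y u4) (w5 : g1W x y u5) (n12 : u1 ≠ u2) (n13 : u1 ≠ u3) (n14 : u1 ≠ u4)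
    (n15 : u1 ≠ u5) (n23 : u2 ≠ u3) (n24 : u2 ≠ u4) (n25 : u2 ≠ u5) (n34 : u3 ≠ u4)
    (n35 : u3 ≠ u5) (n45 : u4 ≠ u5) (h1 : A u1 ∨ B u1) (h2 : A u2 ∨ B u2) (h3 : A u3 ∨ B u3)
    (h4 : A u4 ∨ B u4) : ¬ (A u5 ∨ B u5) := by
  intro h5
  have a123 := g1_three hA w1 w2 w3 n12 n13 n23
  have a124 := g1_three hA w1 w2 w4 n12 n14 n24
  have a125 := g1_three hA w1 w2 w5 n12 n15 n25
  have a134 := g1_three hA w1 w3 w4 n13 n14 n34
  have a135 := g1_three hA w1 w3 w5 n13 n15 n35
  have a145 := g1_three hA w1 w4 w5 n14 n15 n45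
  have a234 := g1_three hA w2 w3 w4 n23 n24 n34
  have a235 := g1_three hA w2 w3 w5 n23 n25 n35
  have a245 := g1_three hA w2 w4 w5 n24 n25 n45
  have a345 := g1_three hA w3 w4 w5 n34 n35 n45
  have b123 := g1_three hB w1 w2 w3 n12 n13 n23
  have b124 := g1_three hB w1 w2 w4 n12 n14 n24
  have b125 := g1_three hB w1 w2 w5 n12 n15 n25
  have b134 := g1_three hB w1 w3 w4 n13 n14 n34
  have b135 := g1_three hB w1 w3 w5 n13 n15 n35
  have b145 := g1_three hB w1 w4 w5 n14 n15 n45
  have b234 := g1_three hB w2 w3 w4 n23 n24 n34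
  have b235 := g1_three hB w2 w3 w5 n23 n25 n35
  have b245 := g1_three hB w2 w4 w5 n24 n25 n45
  have b345 := g1_three hB w3 w4 w5 n34 n35 n45
  rcases h1 with h1 | h1 <;> rcases h2 with h2 | h2 <;> rcases h3 with h3 | h3 <;>
    rcases h4 with h4 | h4 <;> rcases h5 with h5 | h5 <;> simp_all

private theorem g1_T3 {A B : GE → Prop} (hA : GFamily A) (hB : GFamily B) {u1 u2 u3 : GE}
    (c12 : GClose u1 u2) (c13 : GClose u1 u3) (c23 : GClose u2 u3) (h1 : A u1 ∨ B u1)
    (h2 : A u2 ∨ B u2) : ¬ (A u3 ∨ B u3) := by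
  intro h3
  rcases h1 with h1 | h1 <;> rcases h2 with h2 | h2 <;> rcases h3 with h3 | h3
  · exact hA.far _ _ h1 h2 c12
  · exact hA.far _ _ h1 h2 c12
  · exact hA.far _ _ h1 h3 c13
  · exact hB.far _ _ h2 h3 c23
  · exact hA.far _ _ h2 h3 c23
  · exact hB.far _ _ h1 h3 c13
  · exact hB.far _ _ h1 h2 c12
  · exact hB.far _ _ h1 h2 c12

private theorem g1_c1 (x y : ℤ) : GClose (x, y, some false) (x - 1, y, some false) :=
  ⟨((x, y, false), some true), false, false, rfl, Or.inl (by simp [gup, grev, oth, gmv, gcan])⟩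

private theorem g1_c2 (x y : ℤ) : GClose (x, y, some false) (x, y, none) :=
  ⟨((x, y, false), some true), true, false, rfl, Or.inl (by simp [gup, grev, oth, gmv, gcan])⟩

private theorem g1_c2' (x y : ℤ) : GClose (x, y, none) (x, y, some false) :=
  ⟨((x, y, false), none), true, false, rfl, Or.inl (by simp [gup, grev, oth, gmv, gcan])⟩

private theorem g1_c3 (x y : ℤ) : GClose (x - 1, y, some false) (x, y, none) :=
  ⟨((x, y, false), some false), true, false, rfl, Or.inl (by simp [gup, grev, oth, gmv, gcan])⟩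

private theorem g1_c3' (x y : ℤ) : GClose (x, y, none) (x - 1, y, some false) :=
  ⟨((x, y, false), none), false, false, rfl, Or.inl (by simp [gup, grev, oth, gmv, gcan])⟩

private theorem g1_c4 (x y : ℤ) : GClose (x, y, some false) (x, y, some true) :=
  ⟨((x, y, false), some true), true, true, rfl, Or.inr (by simp [gup, grev, oth, gmv, gcan])⟩

private theorem g1_c5 (x y : ℤ) : GClose (x - 1, y, some false) (x, y, some true) :=
  ⟨((x, y, false), some false), true, true, rfl, Or.inr (by simp [gup, grev, oth, gmv, gcan])⟩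

private theorem g1_c6 (x y : ℤ) : GClose (x, y, none) (x + 1, y, none) :=
  ⟨((x, y, false), none), true, true, rfl, Or.inr (by simp [gup, grev, oth, gmv, gcan])⟩

private theorem g1_c7 (x y : ℤ) : GClose (x, y, none) (x + 1, y, some false) :=
  ⟨((x, y, false), none), true, false, rfl, Or.inr (by simp [gup, grev, oth, gmv, gcan])⟩

private theorem g1_c8 (x y : ℤ) : GClose (x, y, none) (x - 1, y, none) :=
  ⟨((x, y, false), none), false, true, rfl, Or.inr (by simp [gup, grev, oth, gmv, gcan])⟩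

private theorem g1_c9 (x y : ℤ) : GClose (x, y, none) (x - 1 - 1, y, some false) :=
  ⟨((x, y, false), none), false, false, rfl, Or.inr (by simp [gup, grev, oth, gmv, gcan])⟩

/-- the case analysis, for abstract sets `P`, `Q` of vertices on the two sheets -/
private theorem g1_main {A B : GE → Prop} (hA : GFamily A) (hB : GFamily B) {P Q : ℤ → ℤ → Prop}
    (rH : ∀ x y, ¬ (A (x, y, some false) ∨ B (x, y, some false)) → (P x y ↔ P (x + 1) y))
    (rV : ∀ x y, ¬ (A (x, y, some true) ∨ B (x, y, some true)) → (Q x y ↔ Q x (y + 1)))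
    (rB : ∀ x y, ¬ (A (x, y, none) ∨ B (x, y, none)) → (P x y ↔ Q x y))
    (fR : ∀ x y, (∀ t, x ≤ t → t < x + 18 → ¬ (A (t, y, some false) ∨ B (t, y, some false))) →
      P x y)
    (fL : ∀ x y, (∀ t, x - 18 ≤ t → t < x → ¬ (A (t, y, some false) ∨ B (t, y, some false))) →
      P x y)
    (fU : ∀ x y, (∀ t, y ≤ t → t < y + 18 → ¬ (A (x, t, some true) ∨ B (x, t, some true))) →
      Q x y)
    (fD : ∀ x y, (∀ t, y - 18 ≤ t → t < y → ¬ (A (x, t, some true) ∨ B (x, t, some true))) →
      Q x y) (x y : ℤ) : P x y := by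
  by_contra hP
  have five := g1_five hA hB x y
  obtain ⟨a, a1, a2, ha⟩ : ∃ t, x ≤ t ∧ t < x + 18 ∧
      (A (t, y, some false) ∨ B (t, y, some false)) := by
    by_contra h
    exact hP (fR x y fun t h1 h2 h3 => h ⟨t, h1, h2, h3⟩)
  obtain ⟨b, b1, b2, hb⟩ : ∃ t, x - 18 ≤ t ∧ t < x ∧
      (A (t, y, some false) ∨ B (t, y, some false)) := by
    by_contra h
    exact hP (fL x y fun t h1 h2 h3 => h ⟨t, h1, h2, h3⟩)
  have nQ : ∀ x', ¬ Q x' y → (∃ t, y ≤ t ∧ t < y + 18 ∧
      (A (x', t, some true) ∨ B (x', t, some true))) ∧ ∃ t, y - 18 ≤ t ∧ t < y ∧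
      (A (x', t, some true) ∨ B (x', t, some true)) := by
    intro x' hQ
    constructor
    · by_contra h
      exact hQ (fU x' y fun t h1 h2 h3 => h ⟨t, h1, h2, h3⟩)
    · by_contra h
      exact hQ (fD x' y fun t h1 h2 h3 => h ⟨t, h1, h2, h3⟩)
  have hab : ((a, y, some false) : GE) ≠ (b, y, some false) := by
    intro h
    have := congrArg Prod.fst h
    simp only at this
    omega
  have wa : g1W x y (a, y, some false) := by unfold g1W; simp only; omega
  have wb : g1W x y (b, y, some false) := by unfold g1W; simp only; omega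
  by_cases hbr : A (x, y, none) ∨ B (x, y, none)
  · -- the bridge at `(x, y)` is bad
    have wbr : g1W x y (x, y, none) := by unfold g1W; simp only; omega
    -- no neighbouring column is reached on the upper sheet
    have good : ∀ x', x - 2 ≤ x' → x' ≤ x + 2 → Q x' y := by
      intro x' h1 h2
      by_contra hQ
      obtain ⟨⟨c, c1, c2, hc⟩, d, d1, d2, hd⟩ := nQ x' hQ
      refine five _ _ _ (x', c, some true) (x', d, some true) wa wb wbr
        (by unfold g1W; simp only; omega) (by unfold g1W; simp only; omega) hab (by simp)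
        (by simp) (by simp) (by simp) (by simp) (by simp) (by simp) (by simp) ?_ ha hb hbr hc hd
      intro h
      have := congrArg (fun u : GE => u.2.1) h
      simp only at this
      omega
    have two : ∀ x' x'', x - 2 ≤ x' → x' ≤ x + 2 → x - 2 ≤ x'' → x'' ≤ x + 2 → x' ≠ x → x'' ≠ x →
        x' ≠ x'' → (A (x', y, none) ∨ B (x', y, none)) →
        ¬ (A (x'', y, none) ∨ B (x'', y, none)) := by
      intro x' x'' h1 h2 h3 h4 h5 h6 h7 h8
      exact five _ _ _ (x', y, none) (x'', y, none) wa wb wbr (by unfold g1W; simp only; omega)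
        (by unfold g1W; simp only; omega) hab (by simp) (by simp) (by simp) (by simp) (by simp)
        (by simp) (by simpa using h5.symm) (by simpa using h6.symm) (by simpa using h7) ha hb hbr
        h8
    by_cases hr : A (x, y, some false) ∨ B (x, y, some false)
    · have hl := fun h => g1_T3 hA hB (g1_c1 x y) (g1_c2 x y) (g1_c3 x y) hr h hbr
      have e1 : P (x - 1) y ↔ P x y := by simpa using rH (x - 1) y hl
      by_cases h1 : A (x - 1, y, none) ∨ B (x - 1, y, none)
      · have hl2 := g1_T3 hA hB (g1_c8 x y) (g1_c9 x y) (g1_c3' (x - 1) y) hbr h1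
        have e2 : P (x - 1 - 1) y ↔ P (x - 1) y := by simpa using rH (x - 1 - 1) y hl2
        have h2 := two (x - 1) (x - 1 - 1) (by omega) (by omega) (by omega) (by omega) (by omega)
          (by omega) (by omega) h1
        exact hP (e1.1 (e2.1 ((rB _ _ h2).2 (good _ (by omega) (by omega)))))
      · exact hP (e1.1 ((rB _ _ h1).2 (good _ (by omega) (by omega))))
    · have e1 := rH x y hr
      by_cases h1 : A (x + 1, y, none) ∨ B (x + 1, y, none)
      · have hl2 := g1_T3 hA hB (g1_c6 x y) (g1_c7 x y) (g1_c2' (x + 1) y) hbr h1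
        have e2 := rH (x + 1) y hl2
        have h2 := two (x + 1) (x + 1 + 1) (by omega) (by omega) (by omega) (by omega) (by omega)
          (by omega) (by omega) h1
        exact hP (e1.2 (e2.2 ((rB _ _ h2).2 (good _ (by omega) (by omega)))))
      · exact hP (e1.2 ((rB _ _ h1).2 (good _ (by omega) (by omega))))
  · -- the bridge at `(x, y)` is good
    have hQ : ¬ Q x y := fun h => hP ((rB x y hbr).2 h)
    obtain ⟨⟨c, c1, c2, hc⟩, d, d1, d2, hd⟩ := nQ x hQ
    have hcd : ((x, c, some true) : GE) ≠ (x, d, some true) := by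
      intro h
      have := congrArg (fun u : GE => u.2.1) h
      simp only at this
      omega
    have rest : ∀ u : GE, g1W x y u → (a, y, some false) ≠ u → (b, y, some false) ≠ u →
        (x, c, some true) ≠ u → (x, d, some true) ≠ u → ¬ (A u ∨ B u) := by
      intro u wu n1 n2 n3 n4
      exact five _ _ (x, c, some true) (x, d, some true) u wa wb
        (by unfold g1W; simp only; omega) (by unfold g1W; simp only; omega) wu hab (by simp)
        (by simp) n1 (by simp) (by simp) n2 hcd n3 n4 ha hb hc hd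
    have gB : ∀ x' y', x - 1 ≤ x' → x' ≤ x + 1 → y - 1 ≤ y' → y' ≤ y + 1 → (P x' y' ↔ Q x' y') :=
      fun x' y' h1 h2 h3 h4 => rB x' y' (rest _ (by unfold g1W; simp only; omega) (by simp)
        (by simp) (by simp) (by simp))
    have gQ : ∀ x', x - 1 ≤ x' → x' ≤ x + 1 → x ≠ x' → Q x' y := fun x' h1 h2 h3 =>
      fU x' y fun t h4 h5 => rest _ (by unfold g1W; simp only; omega) (by simp) (by simp)
        (by simp [h3]) (by simp [h3])
    have gP : ∀ y', y - 1 ≤ y' → y' ≤ y + 1 → y ≠ y' → P x y' := fun y' h1 h2 h3 =>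
      fR x y' fun t h4 h5 => rest _ (by unfold g1W; simp only; omega) (by simp [h3])
        (by simp [h3]) (by simp) (by simp)
    by_cases hr : A (x, y, some false) ∨ B (x, y, some false)
    · by_cases hl : A (x - 1, y, some false) ∨ B (x - 1, y, some false)
      · have hu := g1_T3 hA hB (g1_c1 x y) (g1_c4 x y) (g1_c5 x y) hr hl
        exact hQ ((rV x y hu).2 ((gB x (y + 1) (by omega) (by omega) (by omega) (by omega)).1
          (gP _ (by omega) (by omega) (by omega))))
      · have e1 : P (x - 1) y ↔ P x y := by simpa using rH (x - 1) y hl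
        exact hP (e1.1 ((gB (x - 1) y (by omega) (by omega) (by omega) (by omega)).2
          (gQ _ (by omega) (by omega) (by omega))))
    · exact hP ((rH x y hr).2 ((gB (x + 1) y (by omega) (by omega) (by omega) (by omega)).2
        (gQ _ (by omega) (by omega) (by omega))))

/-- the symmetry exchanging the coordinates -/
private def g1sE (u : GE) : GE := (u.2.1, u.1, u.2.2.map fun b => !b)

private def g1sO (ω : GO) : GO := ((ω.1.2.1, ω.1.1, !ω.1.2.2), ω.2)

private theorem g1_can_s (ω : GO) : gcan (g1sO ω) = g1sE (gcan ω) := by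
  rcases ω with ⟨⟨x, y, _ | _⟩, _ | _ | _⟩ <;> simp [g1sO, g1sE, gcan]

private theorem g1_up_s (ω : GO) (b : Bool) : gup (g1sO ω) b = g1sO (gup ω b) := by
  rcases ω with ⟨⟨x, y, _ | _⟩, _ | _ | _⟩ <;> cases b <;> simp [g1sO, gup, grev, oth, gmv]

private theorem g1_sE_inj {u u' : GE} (h : g1sE u = g1sE u') : u = u' := by
  rcases u with ⟨x, y, _ | _ | _⟩ <;> rcases u' with ⟨x', y', _ | _ | _⟩ <;>
    simp_all [g1sE]

private theorem g1_swap {A : GE → Prop} (hA : GFamily A) : GFamily fun u => A (g1sE u) where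
  box := by
    obtain ⟨t1, t2, h⟩ := hA.box
    exact ⟨t2, t1, fun u hu => ⟨(h _ hu).2, (h _ hu).1⟩⟩
  two := by
    intro u1 u2 u3 h1 h2 h3 a1 a2 a3 b1 b2 b3
    rcases hA.two _ _ _ h1 h2 h3 b1 b2 b3 a1 a2 a3 with h | h | h
    · exact Or.inl (g1_sE_inj h)
    · exact Or.inr (Or.inl (g1_sE_inj h))
    · exact Or.inr (Or.inr (g1_sE_inj h))
  far := by
    rintro u u' h h' ⟨ω, b, b', rfl, hc⟩
    refine hA.far _ _ h h' ⟨g1sO ω, b, b', (g1_can_s ω).symm, ?_⟩
    rcases hc with rfl | rfl
    · exact Or.inl (by rw [g1_up_s, g1_can_s])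
    · exact Or.inr (by rw [g1_up_s, g1_up_s, g1_can_s])

/-- Call a row `y` (column `x`) clean if no bad edge has second (first) coordinate `y` (`x`);
among any 19 consecutive rows or columns one is clean (`box`). All vertices `(x, y, false)` in
clean rows and `(x, y, true)` in clean columns are connected. A vertex is free if one of the two
rays of loop edges starting from it has no bad edge; a free vertex reaches a clean column (row)
and then crosses the bridge. A vertex that is not free has two bad edges on its line. Only two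
facts are used: no five distinct bad edges in a window of width 60, and no three bad edges
that are pairwise `GClose`. -/
theorem grid_conn {A B : GE → Prop} (hA : GFamily A) (hB : GFamily B) (v w : GV) :
    GWalk (fun u => A u ∨ B u) v w := by
  obtain ⟨x0, -, -, hx0⟩ := g1_cleanC hA hB 0
  obtain ⟨y0, -, -, hy0⟩ := g1_cleanR hA hB 0
  set bad : GE → Prop := fun u => A u ∨ B u with hbad
  let P : ℤ → ℤ → Prop := fun x y => GWalk bad (x, y, false) (x0, y0, false)
  let Q : ℤ → ℤ → Prop := fun x y => GWalk bad (x, y, true) (x0, y0, false)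
  have rH : ∀ x y, ¬ (A (x, y, some false) ∨ B (x, y, some false)) → (P x y ↔ P (x + 1) y) :=
    fun x y h => ⟨fun H => (g1_stepH (bad := bad) h).symm.trans H,
      fun H => (g1_stepH (bad := bad) h).trans H⟩
  have rV : ∀ x y, ¬ (A (x, y, some true) ∨ B (x, y, some true)) → (Q x y ↔ Q x (y + 1)) :=
    fun x y h => ⟨fun H => (g1_stepV (bad := bad) h).symm.trans H,
      fun H => (g1_stepV (bad := bad) h).trans H⟩
  have rB : ∀ x y, ¬ (A (x, y, none) ∨ B (x, y, none)) → (P x y ↔ Q x y) :=
    fun x y h => ⟨fun H => (g1_stepB (bad := bad) h).symm.trans H,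
      fun H => (g1_stepB (bad := bad) h).trans H⟩
  have fR : ∀ x y, (∀ t, x ≤ t → t < x + 18 → ¬ (A (t, y, some false) ∨ B (t, y, some false))) →
      P x y := by
    intro x y h
    obtain ⟨x', h1, h2, h3⟩ := g1_cleanC hA hB x
    exact (g1_segH (bad := bad) h1 fun t a b => h t a (by omega)).trans
      (g1_coreC (bad := bad) hy0 h3 y)
  have fL : ∀ x y, (∀ t, x - 18 ≤ t → t < x → ¬ (A (t, y, some false) ∨ B (t, y, some false))) →
      P x y := by
    intro x y h
    obtain ⟨x', h1, h2, h3⟩ := g1_cleanC hA hB (x - 18)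
    exact (g1_segH (bad := bad) (by omega : x' ≤ x) fun t a b => h t (by omega) b).symm.trans
      (g1_coreC (bad := bad) hy0 h3 y)
  have fU : ∀ x y, (∀ t, y ≤ t → t < y + 18 → ¬ (A (x, t, some true) ∨ B (x, t, some true))) →
      Q x y := by
    intro x y h
    obtain ⟨y', h1, h2, h3⟩ := g1_cleanR hA hB y
    exact (g1_segV (bad := bad) h1 fun t a b => h t a (by omega)).trans
      (g1_coreR (bad := bad) hx0 h3 x)
  have fD : ∀ x y, (∀ t, y - 18 ≤ t → t < y → ¬ (A (x, t, some true) ∨ B (x, t, some true))) →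
      Q x y := by
    intro x y h
    obtain ⟨y', h1, h2, h3⟩ := g1_cleanR hA hB (y - 18)
    exact (g1_segV (bad := bad) (by omega : y' ≤ y) fun t a b => h t (by omega) b).symm.trans
      (g1_coreR (bad := bad) hx0 h3 x)
  have hP : ∀ x y, P x y := g1_main hA hB rH rV rB fR fL fU fD
  have hQ : ∀ y x, Q x y :=
    g1_main (g1_swap hA) (g1_swap hB) (P := fun y x => Q x y) (Q := fun y x => P x y)
      (fun y x h => rV x y h) (fun y x h => rH x y h) (fun y x h => (rB x y h).symm)
      (fun y x h => fU x y h) (fun y x h => fD x y h) (fun y x h => fR x y h)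
      (fun y x h => fL x y h)
  have all : ∀ v : GV, GWalk bad v (x0, y0, false) := by
    rintro ⟨x, y, _ | _⟩
    · exact hP x y
    · exact hQ y x
  exact (all v).trans (all w).symm

end Pool.Agent.Lib.MP_3467cd_al.Cu
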