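import Pool.Agent.Lib.MP_3467cd_al.CuDefs
import Pool.Agent.Lib.MP_3467cd_al.CuDefsEq

open Pointwise

namespace Pool.Agent.Lib.MP_3467cd_al.Cu

theorem gcan_grev (ω : GO) : gcan (grev ω) = gcan ω := by
  rcases ω with ⟨⟨x, y, _ | _⟩, _ | _ | _⟩ <;> simp [gcan, grev, gmv]

theorem gcan_gsh (t : ℤ × ℤ) (ω : GO) : gcan (gsh t ω) = gshE t (gcan ω) := by
  rcases ω with ⟨⟨x, y, _ | _⟩, _ | _ | _⟩ <;> simp [gcan, gsh, gshE] <;> ring

theorem grev_gsh (t : ℤ × ℤ) (ω : GO) : grev (gsh t ω) = gsh t (grev ω) := by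
  rcases ω with ⟨⟨x, y, _ | _⟩, _ | _ | _⟩ <;> simp [grev, gmv, gsh] <;> ring

theorem gup_gsh (t : ℤ × ℤ) (ω : GO) (b : Bool) : gup (gsh t ω) b = gsh t (gup ω b) := by
  exact grev_gsh t (ω.1, oth ω.2 b)

theorem eq_of_gcan {ω ω' : GO} (H : gcan ω = gcan ω') : ω' = ω ∨ ω' = grev ω := by
  rcases ω with ⟨⟨x, y, _ | _⟩, _ | _ | _⟩ <;> rcases ω' with ⟨⟨x', y', _ | _⟩, _ | _ | _⟩ <;>
    simp [gcan, grev, gmv] at H ⊢ <;> omega

theorem g2_inj (t : ℤ × ℤ) {u u' : GE} (H : gshE t u = gshE t u') : u = u' := by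
  obtain ⟨x, y, d⟩ := u
  obtain ⟨x', y', d'⟩ := u'
  simpa [gshE] using H

theorem g2_close (t : ℤ × ℤ) {u u' : GE} (H : GClose u u') : GClose (gshE t u) (gshE t u') := by
  obtain ⟨ω, b, b', rfl, h⟩ := H
  refine ⟨gsh t ω, b, b', (gcan_gsh t ω).symm, ?_⟩
  simp only [gup_gsh, gcan_gsh]
  exact h.imp (congrArg _) (congrArg _)

theorem GFamily.shift {A : GE → Prop} (H : GFamily A) (t : ℤ × ℤ) :
    GFamily fun u => A (gshE t u) := by
  obtain ⟨t1, t2, hb⟩ := H.box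
  refine ⟨⟨t1 - t.1, t2 - t.2, fun u hu => ?_⟩, fun u1 u2 u3 h1 h2 h3 a1 a2 a3 b1 b2 b3 => ?_,
    fun u u' h h' hc => H.far _ _ h h' (g2_close t hc)⟩
  · have := hb _ hu
    simp only [gshE] at this
    omega
  · refine (H.two _ _ _ h1 h2 h3 ?_ ?_ ?_ ?_ ?_ ?_).imp (g2_inj t) (Or.imp (g2_inj t) (g2_inj t)) <;>
      simpa only [gshE, add_sub_add_right_eq_sub]

/-- the two cuts attached to a label, placed at the origin -/
def g2e (t : Ty) (c : Col) (β : Bool) : GO := cond β (gB (gE 0 t) c) (gE 0 t)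

theorem g2_small : ∀ (t : Ty) (c : Col) (β : Bool), -4 ≤ (gcan (g2e t c β)).1 ∧
    (gcan (g2e t c β)).1 ≤ 4 ∧ -4 ≤ (gcan (g2e t c β)).2.1 ∧ (gcan (g2e t c β)).2.1 ≤ 4 := by
  decide +kernel

theorem g2_far : ∀ (t : Ty) (c : Col) (β β' ε b b' : Bool),
    gcan (g2e t c β') ≠ gcan (gup (cond ε (grev (g2e t c β)) (g2e t c β)) b) ∧
    gcan (g2e t c β') ≠ gcan (gup (gup (cond ε (grev (g2e t c β)) (g2e t c β)) b) b') := by
  decide +kernel

theorem g2_mem {I : Type} {M : ℤ} {ix : I × Col → ℕ} {ty : I → Ty} {u : GE} (H : GA M ix ty u) :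
    ∃ (l : I × Col) (a b : ℤ) (β : Bool),
      u = gshE (100 * ix l + M * a, 100 * ix l + M * b) (gcan (g2e (ty l.1) l.2 β)) := by
  obtain ⟨l, a, b, h⟩ := H
  have e : gE (ix l) (ty l.1) = gsh (100 * ix l, 100 * ix l) (gE 0 (ty l.1)) := by simp [gE, gsh]
  have e' : ∀ v : GE, gshE (M * a, M * b) (gshE (100 * ix l, 100 * ix l) v) =
      gshE (100 * ix l + M * a, 100 * ix l + M * b) v := fun v => by simp only [gshE, add_assoc]
  rw [e] at h
  simp only [gB, gup_gsh, gcan_gsh, e'] at h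
  exact h.elim (fun h => ⟨l, a, b, false, h⟩) fun h => ⟨l, a, b, true, h⟩

theorem g2_gup (ω : GO) (b : Bool) : |(gcan ω).1 - (gcan (gup ω b)).1| ≤ 1 ∧
    |(gcan ω).2.1 - (gcan (gup ω b)).2.1| ≤ 1 := by
  rcases ω with ⟨⟨x, y, _ | _⟩, _ | _ | _⟩ <;> cases b <;> simp [gcan, gup, grev, gmv, oth]

theorem g2_centre {K i i' : ℕ} (h : i < K) (h' : i' < K) {a a' : ℤ}
    (H : |100 * (i : ℤ) + 300 * ((K : ℤ) + 1) * a - (100 * i' + 300 * ((K : ℤ) + 1) * a')| < 100) :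
    i = i' ∧ a = a' := by
  have e : 100 * (i : ℤ) + 300 * ((K : ℤ) + 1) * a - (100 * i' + 300 * ((K : ℤ) + 1) * a') =
      100 * (i - i') + 300 * (((K : ℤ) + 1) * (a - a')) := by ring
  rw [e, abs_lt] at H
  have : a = a' := by
    rcases lt_trichotomy a a' with h1 | h1 | h1
    · have : ((K : ℤ) + 1) * (a - a') ≤ (K + 1) * (-1) := by gcongr; omega
      omega
    · exact h1
    · have : ((K : ℤ) + 1) * 1 ≤ (K + 1) * (a - a') := by gcongr; omega
      omega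
  subst this
  rw [sub_self, mul_zero] at H
  omega

/-- Each member lies within `4` of a centre `(100 * ix l + M * a, 100 * ix l + M * b)`; centres
closer than `100` in both coordinates coincide and then `l, a, b` agree. For `far`, translate to
`gE 0 t` and check the finitely many cases by `decide`: for `t`, `c` and `ω` among `e = gE 0 t`,
`grev e`, `gB e c`, `grev (gB e c)`, the edges `gcan (gup ω b)`, `gcan (gup (gup ω b) b')` differ
from `gcan e` and `gcan (gB e c)`. -/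
theorem gfamily_GA {I : Type} {K : ℕ} {ix : I × Col → ℕ} (hi : Function.Injective ix)
    (hK : ∀ l, ix l < K) (ty : I → Ty) : GFamily (GA (300 * ((K : ℤ) + 1)) ix ty) := by
  have key : ∀ {l l' : I × Col} {a b a' b' : ℤ} {β β' : Bool} {u u' : GE},
      u = gshE (100 * ix l + 300 * ((K : ℤ) + 1) * a, 100 * ix l + 300 * ((K : ℤ) + 1) * b)
        (gcan (g2e (ty l.1) l.2 β)) →
      u' = gshE (100 * ix l' + 300 * ((K : ℤ) + 1) * a', 100 * ix l' + 300 * ((K : ℤ) + 1) * b')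
        (gcan (g2e (ty l'.1) l'.2 β')) → |u.1 - u'.1| ≤ 60 → |u.2.1 - u'.2.1| ≤ 60 →
      l = l' ∧ a = a' ∧ b = b' := by
    intro l l' a b a' b' β β' u u' e e' h1 h2
    subst e e'
    have s := g2_small (ty l.1) l.2 β
    have s' := g2_small (ty l'.1) l'.2 β'
    simp only [gshE, abs_le] at h1 h2
    have c1 := g2_centre (hK l) (hK l') (a := a) (a' := a') (abs_lt.2 (by omega))
    have c2 := g2_centre (hK l) (hK l') (a := b) (a' := b') (abs_lt.2 (by omega))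
    exact ⟨hi c1.1, c1.2, c2.2⟩
  refine ⟨⟨0, 0, fun u hu => ?_⟩, fun u1 u2 u3 h1 h2 h3 a1 a2 _ b1 b2 _ => ?_,
    fun u u' h h' hc => ?_⟩
  · obtain ⟨l, a, b, β, rfl⟩ := g2_mem hu
    have s := g2_small (ty l.1) l.2 β
    simp only [gshE, mul_assoc]
    omega
  · obtain ⟨l1, x1, y1, β1, e1⟩ := g2_mem h1
    obtain ⟨l2, x2, y2, β2, e2⟩ := g2_mem h2
    obtain ⟨l3, x3, y3, β3, e3⟩ := g2_mem h3
    obtain ⟨rfl, rfl, rfl⟩ := key e1 e2 a1 b1
    obtain ⟨rfl, rfl, rfl⟩ := key e1 e3 a2 b2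
    rw [e1, e2, e3]
    cases β1 <;> cases β2 <;> cases β3 <;> simp only [true_or, or_true]
  · obtain ⟨l, a, b, β, e⟩ := g2_mem h
    obtain ⟨l', a', b', β', e'⟩ := g2_mem h'
    have near : |u.1 - u'.1| ≤ 60 ∧ |u.2.1 - u'.2.1| ≤ 60 := by
      obtain ⟨ω, d, d', rfl, h0⟩ := hc
      have g1 := g2_gup ω d
      have g2 := g2_gup (gup ω d) d'
      simp only [abs_le] at g1 g2 ⊢
      rcases h0 with rfl | rfl <;> omega
    obtain ⟨rfl, rfl, rfl⟩ := key e e' near.1 near.2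
    have hc' := g2_close (-(100 * ix l + 300 * ((K : ℤ) + 1) * a),
      -(100 * ix l + 300 * ((K : ℤ) + 1) * b)) hc
    rw [e, e'] at hc'
    simp only [gshE, add_neg_cancel_right, Prod.mk.eta] at hc'
    obtain ⟨ω, d, d', h1, h2⟩ := hc'
    rcases eq_of_gcan h1 with rfl | rfl
    · exact h2.elim (g2_far _ _ β β' false d d').1 (g2_far _ _ β β' false d d').2
    · exact h2.elim (g2_far _ _ β β' true d d').1 (g2_far _ _ β β' true d d').2

end Pool.Agent.Lib.MP_3467cd_al.Cu
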