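import Pool.Agent.Lib.MP_3467cd_al.CuT2

open Pointwise

namespace Pool.Agent.Lib.MP_3467cd_al.Cu

namespace LocSys
variable {I : Type} {ty : I → Ty} (S : LocSys I ty)

theorem l2_ncr (ω : Ed) (h : ¬ S.Cut ω) : ¬ S.Cut ω.rev := fun hc =>
  h (by simpa using S.cut_rev _ hc)

theorem l2_sib {σ σ' : Ed} (h1 : σ.tail = σ'.tail) (h2 : σ ≠ σ') : ¬ S.Cut σ ∨ ¬ S.Cut σ' := by
  by_contra h
  rw [not_or, not_not, not_not] at h
  rcases S.sp3 _ _ 1 h.1 (S.cut_rev _ h.2) (next_sib h1 h2).ch with h | h <;> omega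

theorem y0_mem : S.y0 ∈ S.Y := by
  exact Walk.refl

theorem head_mem {ρ : Ed} (H : S.Int ρ) : ρ.head ∈ S.Y := by
  exact Walk.step H.2 H.1

theorem int_rev {ρ : Ed} (H : S.Int ρ) : S.Int ρ.rev := by
  exact ⟨S.l2_ncr ρ H.1, S.head_mem H⟩

theorem walk_of_mem {v w : Vx} (hv : v ∈ S.Y) (hw : w ∈ S.Y) :
    Walk (fun ω => ¬ S.Cut ω) v w := by
  exact Walk.trans (Walk.symm S.l2_ncr hv) hw

theorem cut_smul_iff {n : FreeGroup Bool} (hn : n ∈ S.N) (ω : Ed) :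
    S.Cut (n • ω) ↔ S.Cut ω := by
  refine ⟨fun h => ?_, S.cut_smul n hn ω⟩
  have := S.cut_smul n⁻¹ (S.N.inv_mem hn) _ h
  rwa [inv_smul_smul] at this

theorem mem_FY {n : FreeGroup Bool} (hn : n ∈ S.N) {v : Vx} (hv : v ∈ S.Y) (hv' : n • v ∈ S.Y) :
    n ∈ S.FY := by
  refine ⟨hn, ?_⟩
  change n • S.Y = S.Y
  have key : ∀ m ∈ S.N, ∀ a b : Vx, a ∈ S.Y → m • a ∈ S.Y → b ∈ S.Y → m • b ∈ S.Y := by
    intro m hm a b ha ha' hb
    exact Walk.trans ha' (Walk.smul m (fun ω h => by rwa [S.cut_smul_iff hm])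
      (S.walk_of_mem ha hb))
  ext w
  rw [Set.mem_smul_set_iff_inv_smul_mem]
  constructor
  · intro hw
    have := key n hn v _ hv hv' hw
    rwa [smul_inv_smul] at this
  · intro hw
    exact key n⁻¹ (S.N.inv_mem hn) (n • v) w hv' (by rwa [inv_smul_smul]) hw

theorem smul_mem_Y {f : FreeGroup Bool} (hf : f ∈ S.FY) (v : Vx) : f • v ∈ S.Y ↔ v ∈ S.Y := by
  have h : f • S.Y = S.Y := hf.2
  conv_lhs => rw [← h]
  exact Set.smul_mem_smul_set_iff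

theorem int_smul {f : FreeGroup Bool} (hf : f ∈ S.FY) {ρ : Ed} (H : S.Int ρ) :
    S.Int (f • ρ) := by
  refine ⟨?_, (S.smul_mem_Y hf _).2 H.2⟩
  rw [S.cut_smul_iff hf.1]
  exact H.1

theorem plus_smul {f : FreeGroup Bool} (hf : f ∈ S.FY) {τ : Ed} (H : S.Plus τ) :
    S.Plus (f • τ) := by
  obtain ⟨g, hg, l, rfl⟩ := H
  exact ⟨f * g, S.FY.mul_mem hf hg, l, (mul_smul _ _ _).symm⟩

theorem mid_smul {f : FreeGroup Bool} (hf : f ∈ S.FY) {ρ : Ed} (H : S.Mid ρ) :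
    S.Mid (f • ρ) := by
  refine ⟨S.int_smul hf H.1, fun τ hτ => ?_⟩
  rcases H.2 _ (S.plus_smul (S.FY.inv_mem hf) hτ) with h | h
  · left
    have := h.smul f
    rwa [smul_inv_smul] at this
  · right
    have := h.smul f
    rwa [smul_inv_smul, ← Ed.smul_rev] at this

theorem mid_rev {ρ : Ed} (H : S.Mid ρ) : S.Mid ρ.rev := by
  refine ⟨S.int_rev H.1, fun τ hτ => ?_⟩
  rw [Ed.rev_rev]
  exact (H.2 τ hτ).symm

theorem plus_out {τ : Ed} (H : S.Plus τ) : S.Out τ := by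
  obtain ⟨f, hf, l, rfl⟩ := H
  exact ⟨S.cut_smul f hf.1 _ (S.e_cut l), (S.smul_mem_Y hf _).2 (S.e_tail l)⟩

theorem out_not_mem (hA : Acyc) {κ : Ed} (H : S.Out κ) {v : Vx} (hv : v ∈ S.Y) : v ∉ Hs κ := by
  intro h
  exact hA.tail_not_mem κ ((hA.walk_side (ok := fun ω => ¬ S.Cut ω) (not_not.2 H.1)
    (not_not.2 (S.cut_rev _ H.1)) (S.walk_of_mem H.2 hv)).2 h)

/-- two boundary edges face away from each other and are at least 3 apart -/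
theorem face (hA : Acyc) {κ κ' : Ed} (H : S.Out κ) (H' : S.Out κ') (hne : κ ≠ κ') :
    Dp 3 κ κ'.rev := by
  have h1 : κ.tail ∈ Hs κ'.rev := (hA.mem_rev _ _).2 (S.out_not_mem hA H' H.2)
  have h2 : κ'.tail ∉ Hs κ := S.out_not_mem hA H H'.2
  have h3 : κ' ≠ κ.rev := by
    rintro rfl
    exact h2 (head_mem_Hs κ)
  have h4 : κ'.rev.tail ∉ Hs κ := fun h => h2 ((hA.edge_side hne.symm h3).2 h)
  obtain ⟨n, hn, hc⟩ := hA.crit h1 h4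
  rcases S.sp3 _ _ n H.1 (S.cut_rev _ H'.1) hc with h | h
  · omega
  · exact ⟨n, h, hc⟩

theorem face_plus (hA : Acyc) {τ τ' : Ed} (H : S.Plus τ) (H' : S.Plus τ') (hne : τ ≠ τ') :
    Dp 6 τ τ'.rev := by
  obtain ⟨n, -, hc⟩ := S.face hA (S.plus_out H) (S.plus_out H') hne
  refine ⟨n, ?_, hc⟩
  obtain ⟨f, hf, l, rfl⟩ := H
  obtain ⟨f', hf', l', rfl⟩ := H'
  have := hc.smul f⁻¹
  rw [inv_smul_smul, ← Ed.smul_rev, ← mul_smul] at this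
  exact S.sp6 _ (S.N.mul_mem (S.N.inv_mem hf.1) hf'.1) l l' n this

theorem int_cmp (hA : Acyc) {κ ρ : Ed} (H : S.Out κ) (H' : S.Int ρ) :
    Dp 1 κ ρ ∨ Dp 1 κ ρ.rev := by
  by_cases h : κ.tail ∈ Hs ρ
  · exact Or.inl (hA.crit h (S.out_not_mem hA H H'.2))
  · exact Or.inr (hA.crit ((hA.mem_rev _ _).2 h) (S.out_not_mem hA H (S.head_mem H')))

/-- convexity of the local wall (`Acyc.walk_cross`) -/
theorem int_of_btw (hA : Acyc) {σ ω τ : Ed} (h1 : Dp 1 σ ω) (h2 : Dp 1 ω τ) (hs : σ.tail ∈ S.Y)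
    (ht : τ.head ∈ S.Y) : S.Int ω := by
  have h3 : τ.head ∉ Hs ω := (hA.mem_rev _ _).1 h2.rev.tail_mem
  obtain ⟨h4, h5⟩ := hA.walk_cross (S.walk_of_mem ht hs) h3 h1.tail_mem
  exact ⟨h4, Walk.trans ht h5⟩

/-- the first two edges behind a boundary edge are internal (`sp3`) -/
theorem int_of_near {κ ω : Ed} {n : ℕ} (H : S.Out κ) (h : Ch n κ ω) (h1 : 1 ≤ n) (h2 : n ≤ 2) :
    S.Int ω := by
  have key : ∀ (m : ℕ) (a : Ed), Ch m κ a → 1 ≤ m → m ≤ 2 → a.head ∈ S.Y → S.Int a := by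
    intro m a hc m1 m2 ha
    have hn : ¬ S.Cut a := fun hcut => by
      rcases S.sp3 _ _ m H.1 hcut hc with h | h <;> omega
    have := S.int_rev (ρ := a.rev) ⟨S.l2_ncr a hn, ha⟩
    rwa [Ed.rev_rev] at this
  obtain rfl | rfl : n = 1 ∨ n = 2 := by omega
  · exact key 1 ω h h1 h2 ((ch_one.1 h).1 ▸ H.2)
  · obtain ⟨w, hw1, hw2⟩ := ch_two.1 h
    have hw := key 1 w hw1.ch le_rfl (by norm_num) (hw1.1 ▸ H.2)
    exact key 2 ω h h1 h2 (hw2.1 ▸ hw.2)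

theorem int_behind {κ ρ : Ed} (H : S.Out κ) (h : Next ρ κ.rev) : S.Int ρ := by
  refine ⟨fun hc => ?_, ?_⟩
  · rcases S.sp3 _ _ 1 hc (S.cut_rev _ H.1) h.ch with h | h <;> omega
  · rw [h.1, Ed.head_rev]
    exact H.2

theorem exists_int_next {ρ : Ed} (H : S.Int ρ) : ∃ ρ', Next ρ' ρ ∧ S.Int ρ' := by
  obtain ⟨σ, σ', hne, h1, h2, -⟩ := exists_two_next ρ
  rcases S.l2_sib (h1.1.trans h2.1.symm) hne with h | h
  · exact ⟨σ, h1, h, h1.1 ▸ S.head_mem H⟩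
  · exact ⟨σ', h2, h, h2.1 ▸ S.head_mem H⟩

theorem exists_int_ch {ρ : Ed} (H : S.Int ρ) (m : ℕ) : ∃ ρ', Ch m ρ' ρ ∧ S.Int ρ' := by
  induction m with
  | zero => exact ⟨ρ, Ch.refl ρ, H⟩
  | succ m ih =>
    obtain ⟨a, ha, hi⟩ := ih
    obtain ⟨b, hb, hj⟩ := S.exists_int_next hi
    exact ⟨b, Ch.step hb ha, hj⟩

theorem exists_int : ∃ ρ, S.Int ρ := by
  have hne : (⟨S.y0.f, S.y0.s, none⟩ : Ed) ≠ ⟨S.y0.f, S.y0.s, some true⟩ := by simp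
  rcases S.l2_sib (σ := ⟨S.y0.f, S.y0.s, none⟩) (σ' := ⟨S.y0.f, S.y0.s, some true⟩) rfl hne with
    h | h
  · exact ⟨_, h, S.y0_mem⟩
  · exact ⟨_, h, S.y0_mem⟩

end LocSys

end Pool.Agent.Lib.MP_3467cd_al.Cu
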