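import Pool.Agent.Lib.MP_3467cd_al.CuL2

open Pointwise

namespace Pool.Agent.Lib.MP_3467cd_al.Cu

namespace LocSys
variable {I : Type} {ty : I → Ty} (S : LocSys I ty)

theorem l3_plus (l : I × Col) : S.Plus (S.e l) := ⟨1, one_mem _, l, (one_smul _ _).symm⟩

theorem l3_walk {ok : Ed → Prop} (h : ∀ ω, ok ω → ¬ S.Cut ω) {v w : Vx} (hv : v ∈ S.Y)
    (H : Walk ok v w) : w ∈ S.Y :=
  Walk.trans hv (H.mono h)

theorem l3_not_plus {n : FreeGroup Bool} (hn : n ∈ S.N) (l : I × Col) :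
    ¬ S.Plus (n • (S.e l).rev) := by
  rintro ⟨f, hf, l', e⟩
  have h1 : S.e l' = ((f⁻¹ * n) • S.e l).rev := by
    rw [Ed.smul_rev, mul_smul, e, inv_smul_smul]
  have h2 := S.sp6 (f⁻¹ * n) (mul_mem (inv_mem hf.1) hn) l' l 0 (h1 ▸ Ch.refl _)
  omega

theorem l3_giant {f : FreeGroup Bool} {v : Vx} (hv : v ∈ S.Y) (hv' : f⁻¹ • v ∈ S.Y) {κ0 : Ed}
    (h1 : S.Cut κ0) (h2 : ¬ S.Cut (f⁻¹ • κ0)) :
    ∃ n ∈ S.N, S.Out (n • κ0) ∧ S.Int (f⁻¹ • n • κ0) := by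
  obtain ⟨n, hn, W⟩ := S.conn f⁻¹ v κ0.tail
  refine ⟨n, hn, ⟨S.cut_smul n hn _ h1, S.l3_walk (fun _ h => h.1) hv W⟩, fun h => h2 ?_,
    S.l3_walk (fun _ h => h) hv' (W.smul f⁻¹ fun _ h => h.2)⟩
  rw [← S.cut_smul_iff (S.normal.conj_mem n hn f⁻¹), mul_smul, mul_smul, inv_smul_smul]
  exact h

/-- `f` with `f • ρ' = e l` (`surj`) for an internal `ρ'` lying `m` steps ahead; `conn f` from the
head of `ρ'` to the tail of `κ0`; `walk_side`, `crit`, `out_not_mem`. -/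
theorem dens (hA : Acyc) {ρ κ0 : Ed} (H : S.Int ρ) (hc : S.Cut κ0) (m : ℕ) :
    ∃ n ∈ S.N, S.Out (n • κ0) ∧ Dp m (n • κ0) ρ := by
  obtain ⟨ρ', h1, h2⟩ := S.exists_int_ch H m
  obtain ⟨i, hi⟩ := S.surj ρ'.ty
  obtain ⟨f, hf⟩ := Ed.exists_smul_of_ty (σ := ρ') (τ := S.e (i, false, false, false))
    (by rw [S.e_ty, hi])
  obtain ⟨n, hn, W⟩ := S.conn f ρ'.head κ0.tail
  have ho : S.Out (n • κ0) :=
    ⟨S.cut_smul n hn _ hc, S.l3_walk (fun _ h => h.1) (S.head_mem h2) W⟩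
  have h3 : S.Cut (f • ρ') := hf ▸ S.e_cut _
  have h4 := (hA.walk_side (ρ := ρ') (fun h => h.2 h3)
    (fun h => h.2 (Ed.smul_rev f ρ' ▸ S.cut_rev _ h3)) W).1 (head_mem_Hs ρ')
  exact ⟨n, hn, ho, ((hA.crit (σ := n • κ0) h4 (S.out_not_mem hA ho h2.2)).trans
    (h1.dp le_rfl)).mono (by omega)⟩

theorem dens_plus (hA : Acyc) {ρ : Ed} (H : S.Int ρ) (l : I × Col) (m : ℕ) :
    ∃ f ∈ S.FY, Dp m (f • S.e l) ρ := by
  obtain ⟨n, hn, h1, h2⟩ := S.dens hA H (S.e_cut l) m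
  exact ⟨n, S.mem_FY hn (S.e_tail l) h1.2, h2⟩

/-- `κ0 = (e l).rev`, `sp6` with `n = 0` -/
theorem dens_minus (hA : Acyc) {ρ : Ed} (H : S.Int ρ) : ∃ κ, S.Minus κ ∧ Dp 1 κ ρ := by
  obtain ⟨i, -⟩ := S.surj (false, none)
  obtain ⟨n, hn, h1, h2⟩ := S.dens hA H (S.cut_rev _ (S.e_cut (i, false, false, false))) 1
  exact ⟨_, ⟨h1, S.l3_not_plus hn _⟩, h2⟩

/-- `gen f⁻¹`, `conn f⁻¹`, normality -/
theorem giant {f : FreeGroup Bool} (hf : f ∉ S.N) {v : Vx} (hv : v ∈ S.Y)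
    (hv' : f⁻¹ • v ∈ S.Y) :
    (∃ τ, S.Plus τ ∧ S.Int (f⁻¹ • τ)) ∧ ∃ κ, S.Minus κ ∧ S.Int (f⁻¹ • κ) := by
  obtain ⟨l, hl⟩ := S.gen f⁻¹ fun h => hf (by simpa using h)
  obtain ⟨n, hn, h1, h2⟩ := S.l3_giant hv hv' (S.e_cut l) hl
  obtain ⟨n', hn', h1', h2'⟩ := S.l3_giant hv hv' (S.cut_rev _ (S.e_cut l)) fun h => hl (by
    have h3 := S.cut_rev _ h
    rwa [Ed.smul_rev, Ed.rev_rev] at h3)
  exact ⟨⟨_, ⟨n, S.mem_FY hn (S.e_tail l) h1.2, l, rfl⟩, h2⟩, _, ⟨h1', S.l3_not_plus hn' l⟩, h2'⟩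

/-- `int_cmp`, `face_plus`, `merge`, `len_unique` -/
theorem third_mid (hA : Acyc) {σ ρ : Ed} (H : S.Plus σ) (h : Ch 3 σ ρ.rev) (hi : S.Int ρ) :
    S.Mid ρ := by
  refine ⟨hi, fun τ hτ => ?_⟩
  by_cases hne : σ = τ
  · exact Or.inr (hne ▸ h.dp le_rfl)
  have h6 := S.face_plus hA H hτ hne
  rcases S.int_cmp hA (S.plus_out hτ) hi with ⟨a, -, ha⟩ | ⟨a, -, ha⟩
  · have := hA.le_of_dp (h.trans ha.rev) h6
    exact Or.inl (ha.dp (by omega))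
  · rcases merge h ha with h1 | h1 | ⟨n, h1, h2⟩
    · exact (hA.not_both h1 h6).elim
    · exact (hA.not_both h1 (S.face_plus hA hτ H (Ne.symm hne))).elim
    · have := hA.le_of_dp h2 h6
      exact Or.inr (ha.dp (by omega))

/-- the third edge on the way from `τ` to `τ'` -/
theorem exists_third (hA : Acyc) {τ τ' : Ed} (H : S.Plus τ) (H' : S.Plus τ') (hne : τ ≠ τ') :
    ∃ ρ, Ch 3 τ ρ.rev ∧ S.Int ρ ∧ Dp 3 τ' ρ := by
  obtain ⟨ω, h1, h2⟩ := Dp.split (a := 3) (b := 3) (S.face_plus hA H H' hne)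
  refine ⟨ω.rev, by rwa [Ed.rev_rev], S.int_rev (S.int_of_btw hA (h1.dp (by omega))
    (h2.mono (by omega)) (S.plus_out H).2 ?_), by simpa using h2.rev⟩
  rw [Ed.head_rev]
  exact (S.plus_out H').2

theorem exists_mid (hA : Acyc) : ∃ ρ, S.Mid ρ := by
  obtain ⟨i, -⟩ := S.surj (false, none)
  obtain ⟨ρ, h1, h2, -⟩ := S.exists_third hA (S.l3_plus (i, false, false, false))
    (S.l3_plus (i, true, false, false)) fun h => by
      simpa using S.e_inj 1 (one_mem _) _ _ ((one_smul _ _).trans h)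
  exact ⟨ρ, S.third_mid hA (S.l3_plus _) h1 h2⟩

theorem int_finite : ∃ T : Set Ed, T.Finite ∧ ∀ ρ, S.Int ρ → ∃ f ∈ S.FY, ∃ t ∈ T, ρ = f • t := by
  have := S.fi
  let φ : Ed → (FreeGroup Bool ⧸ S.N) × Bool × Option Bool :=
    fun ω => (QuotientGroup.mk ω.f⁻¹, ω.s, ω.d)
  refine ⟨Set.range fun q : {q // ∃ ρ, S.Int ρ ∧ φ ρ = q} => q.2.choose, Set.finite_range _,
    fun ρ hρ => ?_⟩
  have h : ∃ ρ', S.Int ρ' ∧ φ ρ' = φ ρ := ⟨ρ, hρ, rfl⟩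
  obtain ⟨h1, h2⟩ := h.choose_spec
  have h3 : ρ.f * h.choose.f⁻¹ ∈ S.N := by
    simpa using QuotientGroup.eq.1 (congrArg Prod.fst h2).symm
  have h4 : ρ = (ρ.f * h.choose.f⁻¹) • h.choose :=
    Ed.ext (inv_mul_cancel_right _ _).symm (congrArg (fun q => q.2.1) h2).symm
      (congrArg (fun q => q.2.2) h2).symm
  refine ⟨_, S.mem_FY h3 h1.2 ?_, _, ⟨⟨φ ρ, h⟩, rfl⟩, h4⟩
  rw [← Ed.smul_tail, ← h4]
  exact hρ.2

theorem pair_minus {σ τ : Ed} (H : Ch 3 σ τ) :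
    ∃ (f : FreeGroup Bool) (l : I × Col), f • σ = S.e l ∧ S.Minus (f • τ).rev := by
  obtain ⟨f, l, h1, h2, h3⟩ := S.pair σ τ H
  have h4 := H.smul f
  rw [h1] at h4
  obtain ⟨w, h5, h6⟩ := ch_succ'.1 h4
  refine ⟨f, l, h1, ⟨S.cut_rev _ h2, ?_⟩, fun ⟨n, hn, l', e⟩ => h3 n hn.1 l' e⟩
  rw [Ed.tail_rev, ← h6.1]
  exact (S.int_of_near (S.plus_out (S.l3_plus l)) h5 (by omega) le_rfl).2

/-- Zones. If every positive leaf on the side of the tail of `ρ` is separated from `ρ` by a middle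
edge, every positive leaf lies three steps ahead of a middle edge with the same tail as `ρ`:
`exists_out` from the tail of `ρ` to the tail of `τ` gives an internal edge `ρ'`; it is a middle
edge (see the blueprint). -/
theorem zone (hA : Acyc) {ρ : Ed} (H : S.Mid ρ) :
    (∀ τ, S.Plus τ → ∃ ρ', ρ'.tail = ρ.tail ∧ S.Mid ρ' ∧ Dp 3 τ ρ') ∨
      ∃ τ, S.Plus τ ∧ Dp 3 τ ρ.rev ∧
        ∀ ρ', Ch 3 τ ρ'.rev → S.Int ρ' → ρ' = ρ ∨ Dp 1 ρ' ρ.rev := by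
  by_cases hU : ∃ τ, S.Plus τ ∧ Dp 1 τ ρ.rev ∧
      ¬ ∃ ρ'', S.Mid ρ'' ∧ Dp 1 τ ρ'' ∧ Dp 1 ρ'' ρ.rev
  · obtain ⟨τ, h1, h2, h3⟩ := hU
    have h4 : Dp 3 τ ρ.rev := (H.2 τ h1).resolve_left fun h => hA.not_both h h2
    refine Or.inr ⟨τ, h1, h4, fun ρ' hc hi => ?_⟩
    rcases ed_cmp ρ' ρ with h | h | h | h | h | h
    · exact Or.inl h
    · rw [h, Ed.rev_rev] at hc
      exact (hA.not_both (hc.dp le_rfl) h2).elim
    · have := hA.le_of_dp hc (h4.trans h.rev)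
      omega
    · exact Or.inr h
    · exact (hA.not_both ((hc.dp le_rfl).trans h) h2).elim
    · exact (h3 ⟨ρ'.rev, S.mid_rev (S.third_mid hA h1 hc hi), hc.dp (by omega), h⟩).elim
  refine Or.inl fun τ hτ => ?_
  have ho := S.plus_out hτ
  have h1 : τ.tail ≠ ρ.tail := fun e => by
    have h2 := next_sib e fun e' => H.1.1 (e' ▸ ho.1)
    rcases H.2 τ hτ with h | h
    · exact hA.not_both h h2.dp
    · have := hA.le_of_dp h2.ch h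
      omega
  obtain ⟨ρ', h2, h3⟩ := exists_out h1
  have h4 : ρ'.tail ∈ S.Y := h2 ▸ H.1.2
  have h5 : S.Mid ρ' := by
    by_cases e : ρ' = ρ
    · exact e ▸ H
    refine ⟨⟨fun hc => S.out_not_mem hA ⟨hc, h4⟩ ho.2 h3, h4⟩, fun τ' hτ' => ?_⟩
    rcases H.2 τ' hτ' with h | h
    · exact Or.inr ((h.trans (next_sib h2.symm (Ne.symm e)).dp).mono (by omega))
    · obtain ⟨ρ'', g1, g2, g3⟩ : ∃ ρ'', S.Mid ρ'' ∧ Dp 1 τ' ρ'' ∧ Dp 1 ρ'' ρ.rev := by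
        by_contra hn
        exact hU ⟨τ', hτ', h.mono (by omega), hn⟩
      have g4 : Dp 3 τ' ρ'' := (g1.2 τ' hτ').resolve_right fun g => hA.not_both g2 g
      obtain ⟨ω, g5, g6⟩ := Dp.split' (a := 0) (b := 1) g3
      have g7 := g4.trans g5
      by_cases e' : ω = ρ'
      · exact Or.inl (e' ▸ g7)
      · have g8 : ω.tail = ρ'.tail := by rw [(ch_one.1 g6).1, Ed.head_rev, h2]
        exact Or.inr ((g7.trans (next_sib g8 e').dp).mono (by omega))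
  exact ⟨ρ', h2, h5, (h5.2 τ hτ).resolve_right fun h =>
    (hA.mem_rev ρ' τ.tail).1 (h.mono (by omega)).tail_mem h3⟩

end LocSys

end Pool.Agent.Lib.MP_3467cd_al.Cu
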