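import Pool.Agent.Lib.MP_3467cd_al.CuAx1
import Pool.Agent.Lib.MP_3467cd_al.CuNice

open Pointwise

namespace Pool.Agent.Lib.MP_3467cd_al.Cu

variable {G : Type} [Group G] {V : Type} [MulAction G V] {X : SimpleGraph V}

variable {h : G} {c : Set V} {L : ℕ}

private def lk_pos : Ty → Bool
  | (_, some b) => b
  | (s, none) => !s

private theorem lk_rev_rev (t : Ty) : revT (revT t) = t := by
  rcases t with ⟨s, _ | b⟩ <;> simp [revT]

private theorem lk_pos_rev (t : Ty) : lk_pos (revT t) = !lk_pos t := by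
  rcases t with ⟨s, _ | b⟩ <;> simp [revT, lk_pos]

private theorem lk_sub_compl {γ : G} {A B : Set V} (H : γ • Aᶜ ⊆ B) : Bᶜ ⊆ γ • A := by
  rw [Set.smul_set_compl] at H
  exact Set.compl_subset_comm.1 H

private theorem lk_inv_sub {δ : G} {A B : Set V} (H : A ⊆ δ • B) : δ⁻¹ • A ⊆ B := by
  have := Set.smul_set_mono (a := δ⁻¹) H
  rwa [inv_smul_smul] at this

private theorem lk_ccT (i : ℤ) : cc h c true i = h ^ i • c := rfl

private theorem lk_ccF (i : ℤ) : cc h c false i = (h ^ (-i) • c)ᶜ := rfl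

/-- Positive types: `(s, some true)` and `(false, none)`. For a positive type `t` with reverse
`t'` let `q' ⊆ q t.2` come from `place_chain`, choose `γ` with `γ • (o t')ᶜ ⊆ q'` and `δ` with
`δ • (q t'.2)ᶜ ⊆ o t` (they do not depend on `n`). Put `θ t = γ * h ^ (2 * n) * δ`,
`gb t = γ * h`, `ε t = true`, `a t = γ * h ^ (2 * n)`, `zz t = γ • h ^ n • c`, and
`θ t' = (θ t)⁻¹`, `gb t' = δ⁻¹`, `ε t' = false`, `a t' = (θ t)⁻¹ * γ`,
`zz t' = (θ t)⁻¹ • (zz t)ᶜ`. The bounds come from `exists_SB` for the pairs `(γ • h • c, q t.2)`,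
`(δ⁻¹ • cᶜ, q t'.2)`, `(δ • q d, c)`, `(q d, γ • (h • c)ᶜ)` and `SB.smul`, `SB.mono`. -/
theorem exists_link (hN : Nice0 G X L) (hP : Place G X) (hA : SD X (h • c) cᶜ)
    {q : Option Bool → Set V} (hq : ∀ d d', d ≠ d' → SD X (q d) (q d')) {o : Ty → Set V}
    (ho : ∀ t, IsHalf X (o t)) (ho' : ∀ t, o t ⊆ c \ h • c) {Ps : Set (Set V × Set V)}
    (hf : Ps.Finite) (hPs : ∀ p ∈ Ps, IsHalf X p.1 ∧ IsHalf X p.2 ∧ p.2 ⊆ p.1) :
    ∃ t0 : ℕ, ∀ n : ℕ, 1 ≤ n → Nonempty (Link X h c q o Ps t0 n) := by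
  classical
  have hc := hN.cub
  have hM := hc.median
  have hqh : ∀ d, IsHalf X (q d) := by
    intro d
    rcases d with _ | b
    · exact (hq none (some true) (by simp)).left
    · exact (hq (some b) none (by simp)).left
  have hch : IsHalf X c := by
    have := hA.right.compl hM
    rwa [compl_compl] at this
  choose q' hq'h hq's hq'P using fun t : Ty => hN.place_chain hP hf hPs (hqh t.2)
  choose γ hγ using fun t : Ty => hP _ _ ((ho (revT t)).compl hM) (hq'h t)
  choose δ hδ using fun t : Ty => hP _ _ ((hqh (revT t).2).compl hM) (ho t)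
  have hhc : ∀ t, h • c ⊆ (o t)ᶜ := fun t x hx hx' => (ho' t hx').2 hx
  have hoc : ∀ t, o t ⊆ c := fun t x hx => (ho' t hx).1
  have hohc : ∀ t, o t ⊆ (h • c)ᶜ := fun t x hx => (ho' t hx).2
  have sb : ∀ {P Q : Set V}, IsHalf X P → IsHalf X Q → ∃ t, SB X P Q t := fun hP hQ =>
    exists_SB hM hP.nonempty (hQ.compl hM).nonempty
  choose b1 hb1 using fun t : Ty => sb (hA.left.smul hc (γ t)) (hqh t.2)
  choose b2 hb2 using fun t : Ty => sb ((hch.compl hM).smul hc (δ t)⁻¹) (hqh (revT t).2)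
  choose b3 hb3 using fun (t : Ty) (d : Option Bool) => sb ((hqh d).smul hc (δ t)) hch
  choose b4 hb4 using fun (t : Ty) (d : Option Bool) =>
    sb (hqh d) ((hA.left.compl hM).smul hc (γ t))
  obtain ⟨t0, ht0⟩ : ∃ t0 : ℕ, ∀ t d, b1 t + b2 t + b3 t d + b4 t d ≤ t0 :=
    ⟨Finset.univ.sup fun x : Ty × Option Bool => b1 x.1 + b2 x.1 + b3 x.1 x.2 + b4 x.1 x.2,
      fun t d => Finset.le_sup
        (f := fun x : Ty × Option Bool => b1 x.1 + b2 x.1 + b3 x.1 x.2 + b4 x.1 x.2)
        (Finset.mem_univ (t, d))⟩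
  have s1 : ∀ t, SB X (γ t • h • c) (q t.2) t0 := fun t =>
    (hb1 t).mono (by have := ht0 t none; omega)
  have s2 : ∀ t, SB X ((δ t)⁻¹ • cᶜ) (q (revT t).2) t0 := fun t =>
    (hb2 t).mono (by have := ht0 t none; omega)
  have s3 : ∀ t d, SB X (δ t • q d) c t0 := fun t d =>
    (hb3 t d).mono (by have := ht0 t d; omega)
  have s4 : ∀ t d, SB X (q d) (γ t • (h • c)ᶜ) t0 := fun t d =>
    (hb4 t d).mono (by have := ht0 t d; omega)
  refine ⟨t0, fun n hn => ?_⟩
  have anti : ∀ {i j : ℤ}, i ≤ j → h ^ j • c ⊆ h ^ i • c := fun hij =>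
    cc_anti hc hA true hij
  have top : ∀ t, γ t • h • c ⊆ q' t := fun t =>
    (Set.smul_set_mono (hhc (revT t))).trans (hγ t)
  have e1 : ∀ (g : G) (i : ℤ), (g * h) • h ^ i • c = g • h ^ (i + 1) • c := by
    intro g i
    rw [mul_smul, smul_smul h, add_comm i 1, zpow_one_add]
  have e2 : ∀ (g d : G) (i : ℤ) (A : Set V),
      (g * h ^ (2 * (n : ℤ)) * d)⁻¹ • g • h ^ i • A = d⁻¹ • h ^ (i - 2 * (n : ℤ)) • A := by
    intro g d i A
    simp only [smul_smul]
    congr 1
    group
  refine ⟨{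
    θ := fun t => cond (lk_pos t) (γ t * h ^ (2 * (n : ℤ)) * δ t)
      (γ (revT t) * h ^ (2 * (n : ℤ)) * δ (revT t))⁻¹
    gb := fun t => cond (lk_pos t) (γ t * h) (δ (revT t))⁻¹
    ε := lk_pos
    a := fun t => cond (lk_pos t) (γ t * h ^ (2 * (n : ℤ)))
      ((δ (revT t))⁻¹ * h ^ (-(2 * (n : ℤ))))
    zz := fun t => cond (lk_pos t) (γ t • h ^ (n : ℤ) • c) ((δ (revT t))⁻¹ • (h ^ (-(n : ℤ)) • c)ᶜ)
    θ_rev := ?_
    zz_rev := ?_
    zz_half := ?_
    top := ?_
    top_sb := ?_
    mid1 := ?_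
    mid2 := ?_
    exit1 := ?_
    exit2 := ?_
    a_mem := ?_
    low_sb := ?_
    pass := ?_ }⟩
  · intro t
    rw [lk_pos_rev, lk_rev_rev]
    cases lk_pos t <;> simp only [Bool.not_true, Bool.not_false, cond_true, cond_false, inv_inv]
  · intro t
    rw [lk_pos_rev, lk_rev_rev]
    cases lk_pos t <;> simp only [Bool.not_true, Bool.not_false, cond_true, cond_false, inv_inv]
    · simp only [Set.smul_set_compl, compl_compl, smul_smul]
      congr 1
      group
    · simp only [Set.smul_set_compl, smul_smul]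
      congr 2
      group
  · intro t
    cases lk_pos t <;> simp only [cond_true, cond_false]
    · exact ((hch.smul hc _).compl hM).smul hc _
    · exact (hch.smul hc _).smul hc _
  · intro t
    cases lk_pos t <;> simp only [cond_true, cond_false, lk_ccT, lk_ccF]
    · have H := lk_sub_compl ((hδ (revT t)).trans (hoc _))
      rw [lk_rev_rev] at H
      simpa using lk_inv_sub H
    · simpa [mul_smul] using (top t).trans (hq's t)
  · intro t
    cases lk_pos t <;> simp only [cond_true, cond_false, lk_ccT, lk_ccF]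
    · have H := s2 (revT t)
      rw [lk_rev_rev] at H
      simpa using H
    · simpa [mul_smul] using s1 t
  · intro t
    cases lk_pos t <;> simp only [cond_true, cond_false, lk_ccT, lk_ccF]
    · exact subset_rfl
    · rw [e1]
      exact Set.smul_set_mono (anti (by omega))
  · intro t
    cases lk_pos t <;> simp only [cond_true, cond_false, lk_ccT, lk_ccF]
    · exact Set.smul_set_mono (Set.compl_subset_compl.2 (anti (by omega)))
    · rw [e1, sub_add_cancel]
  · intro t
    cases lk_pos t <;> simp only [cond_true, cond_false, lk_ccT, lk_ccF]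
    · rw [mul_smul]
      refine Set.smul_set_mono ?_
      have H := Set.smul_set_mono (a := h ^ (-(2 * (n : ℤ)))) (hohc t)
      rw [Set.smul_set_compl, smul_smul, ← zpow_add_one] at H
      rwa [show -(2 * (n : ℤ) - 1) = -(2 * (n : ℤ)) + 1 by ring]
    · rw [e1, sub_add_cancel, mul_smul]
      exact Set.smul_set_mono (Set.smul_set_mono (hoc t))
  · intro t
    cases lk_pos t <;> simp only [cond_true, cond_false]
    · have H := lk_sub_compl ((hγ (revT t)).trans (hq's _))
      rw [lk_rev_rev] at H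
      refine (Set.smul_set_mono H).trans (Eq.subset ?_)
      rw [smul_smul]
      congr 1
      group
    · rw [mul_smul]
      exact Set.smul_set_mono (hδ t)
  · intro t
    cases lk_pos t <;> simp only [cond_true, cond_false]
    · exact ⟨-(2 * (n : ℤ)), by group⟩
    · exact ⟨2 * (n : ℤ) - 1, by group⟩
  · intro t d _
    cases lk_pos t <;> simp only [cond_true, cond_false, lk_ccT, lk_ccF]
    · have H := (s4 (revT t) d).smul hc (γ (revT t) * h ^ (2 * (n : ℤ)) * δ (revT t))⁻¹
      convert H using 1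
      simp only [Set.smul_set_compl, smul_smul]
      congr 2
      group
    · have H := (s3 t d).smul hc (γ t * h ^ (2 * (n : ℤ)))
      rw [e1, sub_add_cancel, mul_smul _ (δ t)]
      rwa [mul_smul _ _ c] at H
  · intro p hp
    obtain ⟨g, h1, h2⟩ := hq'P (true, some true) p hp
    refine ⟨(true, some true), g, h1, ?_⟩
    have hp' : lk_pos (true, some true) = true := rfl
    simp only [hp', cond_true]
    refine Set.Subset.trans ?_ ((top _).trans h2)
    rw [mul_smul, mul_smul]
    refine Set.smul_set_mono ?_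
    refine (Set.smul_set_mono ((hδ _).trans (hoc _))).trans ?_
    simpa using anti (i := 1) (j := 2 * (n : ℤ)) (by omega)

end Pool.Agent.Lib.MP_3467cd_al.Cu
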