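import Pool.Agent.Lib.MP_3467cd_al.CuDefs
import Pool.Agent.Lib.MP_3467cd_al.Two

open Pointwise

namespace Pool.Agent.Lib.MP_3467cd_al.Cu

variable {G : Type} [Group G] {V : Type} [MulAction G V] {X : SimpleGraph V}

variable {L : ℕ}

theorem sh_compl (s : Set V) : sh X sᶜ = (sh X s)ᶜ := by
  ext ω
  exact Ultrafilter.compl_mem_iff_notMem

theorem sh_mono {s t : Set V} (h : s ⊆ t) : sh X s ⊆ sh X t := by
  exact fun ω hω => Filter.mem_of_superset hω h

theorem nonempty_of_sh {s t : Set V} (h : (sh X s ∩ sh X t).Nonempty) : (s ∩ t).Nonempty := by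
  obtain ⟨ω, h1, h2⟩ := h
  exact Ultrafilter.nonempty_of_mem (Filter.inter_mem h1 h2)

/-- `dir5_of_facing` with two of the sets empty, `exists_shallow`, `deep_nest`. -/
theorem avoid2 (hc : IsCubulation G X) (hB : Bridge X L) (hF : Facing X) :
    ∃ r0 : ℕ, ∀ (z : V) (C1 C2 : Set V), Cvx X C1 → Cvx X C2 → (∀ y ∈ C1, r0 ≤ X.dist z y) →
      (∀ y ∈ C2, r0 ≤ X.dist z y) → ∃ c, Good X c ∧ Disjoint c C1 ∧ Disjoint c C2 := by
  obtain ⟨r0, h0⟩ := dir5_of_facing hc hB hF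
  obtain ⟨D, hD⟩ := hc.exists_shallow
  obtain ⟨r2, h2⟩ := h0 (D + 1)
  refine ⟨r0, fun z C1 C2 c1 c2 d1 d2 => ?_⟩
  obtain ⟨h, z2, hh, hz, -, h3, h4⟩ := h2 z ![C1, C2, ∅, ∅]
    (fun i => by fin_cases i <;> first | exact c1 | exact c2 | exact cvx_empty)
    (fun i => by
      fin_cases i
      · exact d1
      · exact d2
      · exact fun y hy => hy.elim
      · exact fun y hy => hy.elim)
  obtain ⟨k, gk, nk⟩ := hc.deep_nest hh (hD h hh ⟨z2, hz, h4⟩) le_rfl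
  exact ⟨k, gk, (h3 0).mono_left nk.subset, (h3 1).mono_left nk.subset⟩

/-- If some `z ∈ c` of depth `r0` is at distance `≥ r0` from `car X h` use `avoid2` with `cᶜ` and
the side of `h` missing `z` (`exists_car_le`). Otherwise: `y ∈ h` of depth `r0 + 2`, `T` the
finite set of representatives of `inn_orbits ⊤` for `h` and for `hᶜ`, `ρ` a bound for the
distances from `T` to `y`, `z ∈ c` of depth `3 * r0 + ρ`, `b = s • t ∈ car X h` within `r0` of `z`
with `s • h = h`. Then `s • y` has depth `≥ r0` in `c`, so is within `r0` of `car X h`, but has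
depth `r0 + 2` in `h` (`car_edge`). -/
theorem nd (hc : IsCubulation G X) (hB : Bridge X L) (hF : Facing X) {h c : Set V}
    (hh : Good X h) (hg : Good X c) : ∃ c', Good X c' ∧ c' ⊆ c ∧ Clean c' h := by
  have hM := hc.median
  obtain ⟨r0, h0⟩ := avoid2 hc hB hF
  by_cases H : ∃ z ∈ c, (∀ y, y ∉ c → r0 ≤ X.dist z y) ∧ ∀ b ∈ car X h, r0 ≤ X.dist z b
  · obtain ⟨z, -, h1, h2⟩ := H
    have h3 : ∀ y, ¬ (z ∈ h ↔ y ∈ h) → r0 ≤ X.dist z y := fun y hy => by
      obtain ⟨b, hb, h4, -⟩ := hM.exists_car_le hy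
      exact (h2 b hb).trans h4
    by_cases hz : z ∈ h
    · obtain ⟨c', g', d1, d2⟩ := h0 z cᶜ hᶜ ((hg.1.compl hM).cvx hM) ((hh.1.compl hM).cvx hM) h1
        fun y hy => h3 y fun e => hy (e.1 hz)
      exact ⟨c', g', Set.disjoint_compl_right_iff_subset.1 d1,
        Or.inl (Set.disjoint_compl_right_iff_subset.1 d2)⟩
    · obtain ⟨c', g', d1, d2⟩ := h0 z cᶜ h ((hg.1.compl hM).cvx hM) (hh.1.cvx hM) h1
        fun y hy => h3 y fun e => hz (e.2 hy)
      exact ⟨c', g', Set.disjoint_compl_right_iff_subset.1 d1,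
        Or.inr (Set.subset_compl_iff_disjoint_right.2 d2)⟩
  exfalso
  have H' : ∀ z ∈ c, (∀ y, y ∉ c → r0 ≤ X.dist z y) → ∃ b ∈ car X h, X.dist z b < r0 :=
    fun z hz h1 => by
      by_contra h2
      exact H ⟨z, hz, h1, fun b hb => not_lt.1 fun h3 => h2 ⟨b, hb, h3⟩⟩
  obtain ⟨y, -, hy⟩ := hh.2.1 (r0 + 2)
  obtain ⟨T1, f1, -, t1⟩ := hc.inn_orbits (F := ⊤) inferInstance hh.1
  obtain ⟨T2, f2, -, t2⟩ := hc.inn_orbits (F := ⊤) inferInstance (hh.1.compl hM)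
  obtain ⟨ρ, hρ⟩ := goodL_bound (f1.union f2) (P := fun t m => X.dist t y ≤ m)
    (fun t m n h1 h2 => h2.trans h1) fun t _ => ⟨_, le_rfl⟩
  obtain ⟨z, hz, hz'⟩ := hg.2.1 (3 * r0 + ρ)
  obtain ⟨b, hb, h1⟩ := H' z hz fun w hw => le_trans (by omega) (hz' w hw)
  obtain ⟨s, hs, t, ht, rfl⟩ : ∃ s : G, s • h = h ∧ ∃ t ∈ T1 ∪ T2, b = s • t := by
    rcases hb with hb | hb
    · obtain ⟨s, -, h2, t, h3, h4⟩ := t1 b hb
      exact ⟨s, h2, t, Or.inl h3, h4⟩
    · obtain ⟨s, -, h2, t, h3, h4⟩ := t2 b hb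
      exact ⟨s, compl_injective (by rw [← Set.smul_set_compl, h2]), t, Or.inr h3, h4⟩
  have h2 : X.dist z (s • y) < r0 + ρ := by
    have h3 := hM.tri z (s • t) (s • y)
    have h4 := hρ t ht
    rw [hc.dist_smul] at h3
    omega
  obtain ⟨b', hb', h3⟩ := H' (s • y) (by
    by_contra h3
    have := hz' _ h3
    omega) fun w hw => by
      have h3 := hz' w hw
      have h4 := hM.tri z (s • y) w
      omega
  have h4 : ∀ w, w ∉ h → r0 + 2 ≤ X.dist (s • y) w := fun w hw => by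
    rw [goodL_dist hc]
    exact hy _ fun e => hw (hs ▸ Set.mem_smul_set_iff_inv_smul_mem.2 e)
  obtain ⟨b'', h5, -, h6⟩ := car_edge hb'
  by_cases h7 : b' ∈ h
  · have h8 := h4 b'' fun e => h6 ⟨fun _ => e, fun _ => h7⟩
    have h9 := hM.tri (s • y) b' b''
    rw [dist_of_adj h5] at h9
    omega
  · have := h4 b' h7
    omega

/-- `Ultrafilter.exists_ultrafilter_of_finite_inter_nonempty` for `h` together with the sets
`(a ∩ b)ᶜ`, `a, b` good with no good halfspace in `a ∩ b`; use `nd` twice in the inductive step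
(pattern: `Sys.hat_good` in `Key.lean`). -/
theorem sh_nonempty (hc : IsCubulation G X) (hB : Bridge X L) (hF : Facing X) {h : Set V}
    (hh : Good X h) : (sh X h).Nonempty := by
  classical
  set S : Set (Set V) := insert h {u | ∃ a b, Good X a ∧ Good X b ∧
    (¬ ∃ c, Good X c ∧ c ⊆ a ∩ b) ∧ u = (a ∩ b)ᶜ} with hS
  have key : ∀ T : Finset (Set V), (T : Set (Set V)) ⊆ S →
      ∃ k, Good X k ∧ k ⊆ h ∧ ∀ t ∈ T, k ⊆ t := by
    intro T
    induction T using Finset.induction_on with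
    | empty => exact fun _ => ⟨h, hh, le_rfl, fun t ht => absurd ht (Finset.notMem_empty t)⟩
    | insert u T _ ih =>
      intro hT
      rw [Finset.coe_insert, Set.insert_subset_iff] at hT
      obtain ⟨k, gk, sk, hk⟩ := ih hT.2
      rcases hT.1 with e | ⟨a, b, ga, gb, hab, e⟩
      · exact ⟨k, gk, sk, Finset.forall_mem_insert _ _ _ |>.2 ⟨e ▸ sk, hk⟩⟩
      · obtain ⟨k1, g1, s1, c1⟩ := nd hc hB hF ga gk
        obtain ⟨k2, g2, s2, c2⟩ := nd hc hB hF gb g1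
        refine ⟨k2, g2, s2.trans (s1.trans sk), Finset.forall_mem_insert _ _ _ |>.2
          ⟨fun z hz => ?_, fun t ht => s2.trans (s1.trans (hk t ht))⟩⟩
        rw [e]
        rintro ⟨h1, h2⟩
        rcases c1 with c1 | c1
        · rcases c2 with c2 | c2
          · exact hab ⟨k2, g2, Set.subset_inter (s2.trans c1) c2⟩
          · exact c2 hz h2
        · exact c1 (s2 hz) h1
  obtain ⟨ω, hω⟩ := Ultrafilter.exists_ultrafilter_of_finite_inter_nonempty S fun T hT => by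
    obtain ⟨k, gk, -, hk⟩ := key T hT
    obtain ⟨z, hz⟩ := gk.1.nonempty
    exact ⟨z, fun t ht => hk t ht hz⟩
  refine ⟨⟨ω, fun a b ga gb ha hb => ?_⟩, hω (Set.mem_insert _ _)⟩
  by_contra hab
  exact Ultrafilter.compl_mem_iff_notMem.1
    (hω (Set.mem_insert_of_mem _ ⟨a, b, ga, gb, hab, rfl⟩)) (Filter.inter_mem ha hb)

/-- `M = 2 * r0 + 2`: a point `z` of `inn X (c (r0 + 1))` for the chain `c` is at distance `≥ r0`
from `hᶜ` and from `k`; `avoid2`, `sh_nonempty`. -/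
theorem sh_ne (hc : IsCubulation G X) (hB : Bridge X L) (hF : Facing X) :
    ∃ M : ℕ, 1 ≤ M ∧ ∀ h k, Nest X M k h → sh X h ≠ sh X k := by
  have hM := hc.median
  obtain ⟨r0, h0⟩ := avoid2 hc hB hF
  refine ⟨2 * r0 + 2, by omega, fun h k hn e => ?_⟩
  have hh := hn.isHalf_right
  have hk := hn.isHalf_left
  obtain ⟨c, hch, rfl, rfl⟩ := hn
  obtain ⟨z, hz, z', h1, h2⟩ := (hch.1 (r0 + 1) (by omega)).inn_nonempty
  obtain ⟨c', g', d1, d2⟩ := h0 z (c 0)ᶜ (c (2 * r0 + 2)) ((hh.compl hM).cvx hM) (hk.cvx hM)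
    (fun y hy => by
      have := (hch.nest (i := 0) (j := r0 + 1) (by omega) (by omega)).le_dist hM hz hy
      omega)
    (fun y hy => by
      have h3 := (hch.nest (i := r0 + 1) (j := 2 * r0 + 2) (by omega) le_rfl).le_dist hM hy h2
      have h4 := hM.tri y z z'
      rw [dist_of_adj h1, SimpleGraph.dist_comm (u := y) (v := z)] at h4
      omega)
  obtain ⟨ω, hω⟩ := sh_nonempty hc hB hF g'
  have h3 := sh_mono (Set.disjoint_compl_right_iff_subset.1 d1) hω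
  rw [e] at h3
  exact Set.not_disjoint_iff_nonempty_inter.2 (nonempty_of_sh ⟨ω, hω, h3⟩) d2

/-- `Tight.cvx`, `ball_finite`, `sep_finite` -/
theorem fin_two (hc : IsCubulation G X) {k1 k2 : Set V} (hk : Cvx X k1) (ht : Tight X k1 k2)
    {ω1 ω2 : OmN X} (h1 : ω1 ∈ sh X k1) (h2 : ω2 ∈ sh X k2) (x : V) :
    {h | IsHalf X h ∧ ω1 ∈ sh X h ∧ ω2 ∈ sh X h ∧ x ∉ h}.Finite := by
  have hM := hc.median
  obtain ⟨p, r, hp⟩ := ht.cvx hM hk
  refine ((hc.ball_finite p r).biUnion fun q _ => hM.sep_finite x q).subset ?_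
  rintro h ⟨hh, h3, h4, h5⟩
  obtain ⟨q, hq, h6⟩ := hp h (hh.cvx hM) (nonempty_of_sh ⟨ω1, h3, h1⟩)
    (nonempty_of_sh ⟨ω2, h4, h2⟩)
  exact Set.mem_biUnion h6 ⟨hh, h5, hq⟩

end Pool.Agent.Lib.MP_3467cd_al.Cu
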