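import Pool.Agent.Lib.MP_3467cd_al.Dual0

open Pointwise

namespace Pool.Agent.Lib.MP_3467cd_al

variable {Ω : Type} {H σ0 : Set (Set Ω)}

theorem dual1_eq_of_subset {σ τ : DV H σ0} (h : σ.1 ⊆ τ.1) : σ = τ := by
  refine Subtype.ext (Set.Subset.antisymm h ?_)
  rw [← Set.sdiff_eq_empty, σ.2.1.diff_eq_image τ.2.1, Set.sdiff_eq_empty.2 h, Set.image_empty]

theorem dual1_walk (hP : Poc H σ0) (n : ℕ) : ∀ σ τ : DV H σ0, (σ.1 \ τ.1).ncard = n →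
    ∃ p : (dual H σ0).Walk σ τ, p.length = n := by
  induction n with
  | zero =>
    intro σ τ h
    rw [Set.ncard_eq_zero (DV.diff_finite hP σ τ), Set.sdiff_eq_empty] at h
    obtain rfl := dual1_eq_of_subset h
    exact ⟨SimpleGraph.Walk.nil, rfl⟩
  | succ n ih =>
    intro σ τ h
    obtain ⟨α, hα, hατ⟩ : (σ.1 \ τ.1).Nonempty :=
      Set.nonempty_of_ncard_ne_zero (by omega)
    obtain ⟨β, hβ, hβα, hmin⟩ := DV.exists_minimal hP σ hα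
    have hβτ : β ∉ τ.1 := fun hb => hατ (τ.2.1.up hb (σ.2.1.1 hα) hβα)
    obtain ⟨ρ, hρ, hd⟩ := DV.exists_flip hP σ hβ hmin
    have hc : βᶜ ∈ τ.1 := τ.2.1.compl_mem (σ.2.1.1 hβ) hβτ
    have e : ρ.1 \ τ.1 = (σ.1 \ τ.1) \ {β} := by
      rw [hρ]
      ext γ
      constructor
      · rintro ⟨rfl | h1, h2⟩
        · exact (h2 hc).elim
        · exact ⟨⟨h1.1, h2⟩, h1.2⟩
      · rintro ⟨⟨h1, h2⟩, h3⟩
        exact ⟨Or.inr ⟨h1, h3⟩, h2⟩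
    obtain ⟨p, hp⟩ := ih ρ τ (by
      rw [e, Set.ncard_sdiff_singleton_of_mem (show β ∈ σ.1 \ τ.1 from ⟨hβ, hβτ⟩), h]
      rfl)
    exact ⟨SimpleGraph.Walk.cons (dual_adj.2 ⟨β, hd⟩) p, by rw [SimpleGraph.Walk.length_cons, hp]⟩

theorem dual1_cover (σ μ τ : DV H σ0) : σ.1 \ τ.1 ⊆ (σ.1 \ μ.1) ∪ (μ.1 \ τ.1) := by
  rintro γ ⟨h1, h2⟩
  by_cases h3 : γ ∈ μ.1
  · exact Or.inr ⟨h3, h2⟩
  · exact Or.inl ⟨h1, h3⟩

theorem dual1_le_length (hP : Poc H σ0) {σ τ : DV H σ0} (p : (dual H σ0).Walk σ τ) :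
    (σ.1 \ τ.1).ncard ≤ p.length := by
  induction p with
  | nil => simp
  | @cons σ ρ τ h p ih =>
    obtain ⟨α, hα⟩ := dual_adj.1 h
    have h1 := Set.ncard_le_ncard (dual1_cover σ ρ τ)
      ((DV.diff_finite hP σ ρ).union (DV.diff_finite hP ρ τ))
    have h2 := Set.ncard_union_le (σ.1 \ ρ.1) (ρ.1 \ τ.1)
    rw [hα, Set.ncard_singleton] at h2
    rw [hα] at h1
    rw [SimpleGraph.Walk.length_cons]
    omega

theorem dual_connected (hP : Poc H σ0) : (dual H σ0).Connected := by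
  have : Nonempty (DV H σ0) := ⟨⟨σ0, hP.ori, by simp⟩⟩
  exact ⟨fun σ τ => by
    obtain ⟨p, -⟩ := dual1_walk hP _ σ τ rfl
    exact ⟨p⟩⟩

theorem dual_dist (hP : Poc H σ0) (σ τ : DV H σ0) :
    (dual H σ0).dist σ τ = (σ.1 \ τ.1).ncard := by
  refine le_antisymm ?_ ?_
  · obtain ⟨p, hp⟩ := dual1_walk hP _ σ τ rfl
    exact hp ▸ SimpleGraph.dist_le p
  · obtain ⟨p, hp⟩ := (dual_connected hP).exists_walk_length_eq_dist σ τ
    exact hp ▸ dual1_le_length hP p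

theorem dual_btw (hP : Poc H σ0) {σ μ τ : DV H σ0} :
    Btw (dual H σ0) σ μ τ ↔ σ.1 ∩ τ.1 ⊆ μ.1 := by
  unfold Btw
  rw [dual_dist hP, dual_dist hP, dual_dist hP]
  have f1 := DV.diff_finite hP σ μ
  have f2 := DV.diff_finite hP μ τ
  constructor
  · intro h α hα
    by_contra hαμ
    have h1 : σ.1 \ τ.1 ⊂ (σ.1 \ μ.1) ∪ (μ.1 \ τ.1) :=
      ⟨dual1_cover σ μ τ, fun hs => (hs (Or.inl ⟨hα.1, hαμ⟩)).2 hα.2⟩
    have h2 := Set.ncard_lt_ncard h1 (f1.union f2)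
    have h3 := Set.ncard_union_le (σ.1 \ μ.1) (μ.1 \ τ.1)
    omega
  · intro h
    have e : σ.1 \ τ.1 = (σ.1 \ μ.1) ∪ (μ.1 \ τ.1) := by
      refine Set.Subset.antisymm (dual1_cover σ μ τ) ?_
      rintro α (⟨h1, h2⟩ | ⟨h1, h2⟩)
      · exact ⟨h1, fun h3 => h2 (h ⟨h1, h3⟩)⟩
      · refine ⟨?_, h2⟩
        by_contra h3
        have hH := μ.2.1.1 h1
        exact μ.2.1.compl_not_mem h1 (h ⟨σ.2.1.compl_mem hH h3, τ.2.1.compl_mem hH h2⟩)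
    rw [e, Set.ncard_union_eq (Set.disjoint_left.2 fun α h1 h2 => h1.2 h2.1) f1 f2]

theorem dual_median (hP : Poc H σ0) : IsMedian (dual H σ0) := by
  refine ⟨dual_connected hP, fun x y z => ?_⟩
  have ho : Ori H {α | (α ∈ x.1 ∧ α ∈ y.1) ∨ (α ∈ y.1 ∧ α ∈ z.1) ∨ (α ∈ x.1 ∧ α ∈ z.1)} := by
    refine ⟨?_, fun α hα => ?_, ?_⟩
    · rintro α (h | h | h)
      · exact x.2.1.1 h.1
      · exact y.2.1.1 h.1
      · exact x.2.1.1 h.1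
    · have h1 := x.2.1.2.1 α hα
      have h2 := y.2.1.2.1 α hα
      have h3 := z.2.1.2.1 α hα
      simp only [Set.mem_ofPred_eq]
      tauto
    · rintro α (h | h | h) β (h' | h' | h')
      · exact x.2.1.2.2 α h.1 β h'.1
      · exact y.2.1.2.2 α h.2 β h'.1
      · exact x.2.1.2.2 α h.1 β h'.1
      · exact y.2.1.2.2 α h.1 β h'.2
      · exact y.2.1.2.2 α h.1 β h'.1
      · exact z.2.1.2.2 α h.2 β h'.2
      · exact x.2.1.2.2 α h.1 β h'.1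
      · exact z.2.1.2.2 α h.2 β h'.2
      · exact x.2.1.2.2 α h.1 β h'.1
  have hf : ({α | (α ∈ x.1 ∧ α ∈ y.1) ∨ (α ∈ y.1 ∧ α ∈ z.1) ∨ (α ∈ x.1 ∧ α ∈ z.1)} \ σ0).Finite := by
    refine (x.2.2.union y.2.2).subset ?_
    rintro α ⟨h | h | h, h0⟩
    · exact Or.inl ⟨h.1, h0⟩
    · exact Or.inr ⟨h.1, h0⟩
    · exact Or.inl ⟨h.1, h0⟩
  refine ⟨⟨_, ho, hf⟩, ⟨(dual_btw hP).2 fun α h => Or.inl h,
    (dual_btw hP).2 fun α h => Or.inr (Or.inl h), (dual_btw hP).2 fun α h => Or.inr (Or.inr h)⟩,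
    fun μ hμ => (dual1_eq_of_subset ?_).symm⟩
  rintro α (h | h | h)
  · exact (dual_btw hP).1 hμ.1 h
  · exact (dual_btw hP).1 hμ.2.1 h
  · exact (dual_btw hP).1 hμ.2.2 h

theorem dual_half (hP : Poc H σ0) {σ τ : DV H σ0} {α : Set Ω} (h : σ.1 \ τ.1 = {α}) :
    half (dual H σ0) σ τ = {μ | α ∈ μ.1} := by
  obtain ⟨h1, -, h3⟩ := DV.minimal_of_diff h
  have h4 : α ∉ τ.1 := (show α ∈ σ.1 \ τ.1 from h ▸ Set.mem_singleton α).2
  ext μ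
  show (dual H σ0).dist μ σ < (dual H σ0).dist μ τ ↔ α ∈ μ.1
  rw [dual_dist hP, dual_dist hP]
  constructor
  · intro hlt
    by_contra hα
    refine absurd hlt (not_lt.2 (Set.ncard_le_ncard ?_ (DV.diff_finite hP μ σ)))
    rintro β ⟨b1, b2⟩
    refine ⟨b1, fun b3 => hα ?_⟩
    have : β ∈ σ.1 \ τ.1 := ⟨b3, b2⟩
    rw [h, Set.mem_singleton_iff] at this
    exact this ▸ b1
  · intro hα
    refine Set.ncard_lt_ncard ⟨?_, fun hs => (hs ⟨hα, h4⟩).2 h1⟩ (DV.diff_finite hP μ τ)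
    rintro β ⟨b1, b2⟩
    refine ⟨b1, fun b3 => ?_⟩
    rw [h3] at b3
    rcases b3 with rfl | b3
    · exact μ.2.1.compl_not_mem hα b1
    · exact b2 b3.1

theorem dual_isHalf (hP : Poc H σ0) (hex : ∀ α ∈ H, ∃ σ : DV H σ0, α ∈ σ.1)
    {h : Set (DV H σ0)} : IsHalf (dual H σ0) h ↔ ∃ α ∈ H, h = {μ | α ∈ μ.1} := by
  constructor
  · rintro ⟨σ, τ, hadj, rfl⟩
    obtain ⟨α, hα⟩ := dual_adj.1 hadj
    exact ⟨α, σ.2.1.1 (DV.minimal_of_diff hα).1, dual_half hP hα⟩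
  · rintro ⟨α, hα, rfl⟩
    obtain ⟨σ, hσ⟩ := hex α hα
    obtain ⟨τ, hτ⟩ := hex αᶜ (hP.compl α hα)
    have hτ' : α ∉ τ.1 := fun h => τ.2.1.compl_not_mem h hτ
    obtain ⟨a, b, hab, ha, hb, -⟩ := (dual_median hP).exit_edge
      (A := {μ : DV H σ0 | α ∈ μ.1}) (x := σ) (y := τ) hσ hτ'
    obtain ⟨γ, hγ⟩ := dual_adj.1 hab
    have : α ∈ a.1 \ b.1 := ⟨ha, hb⟩
    rw [hγ, Set.mem_singleton_iff] at this
    subst this
    exact ⟨a, b, hab, (dual_half hP hγ).symm⟩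

end Pool.Agent.Lib.MP_3467cd_al
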