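import Pool.Agent.Lib.MP_3467cd_al.CuN1
import Pool.Agent.Lib.MP_3467cd_al.Dual1

open Pointwise

namespace Pool.Agent.Lib.MP_3467cd_al.Cu

variable {G : Type} [Group G] {V : Type} [MulAction G V] {X : SimpleGraph V}

variable {L : ℕ}

/-- Flip all `β ∈ σ0` with `β ⊆ αᶜ`. -/
theorem poc_exists_mem {Ω : Type} {H σ0 : Set (Set Ω)} (hP : Poc H σ0) :
    ∀ α ∈ H, ∃ σ : DV H σ0, α ∈ σ.1 := by
  intro α hα
  obtain ⟨a, ha⟩ := hP.ne α hα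
  refine ⟨⟨{β | β ∈ H ∧ (α ⊆ β ∨ (β ∈ σ0 ∧ ¬ β ⊆ αᶜ))}, ⟨fun β h => h.1, fun β hβ => ⟨?_, ?_⟩,
    ?_⟩, ?_⟩, hα, Or.inl subset_rfl⟩
  · rintro ⟨-, h | h⟩ ⟨-, h' | h'⟩
    · exact h' ha (h ha)
    · exact h'.2 (Set.compl_subset_compl.2 h)
    · exact h.2 (Set.subset_compl_comm.1 h')
    · exact hP.ori.compl_not_mem h.1 h'.1
  · intro h
    by_cases h1 : α ⊆ β
    · exact ⟨hβ, Or.inl h1⟩
    · refine ⟨hβ, Or.inr ⟨?_, fun h2 => h ⟨hP.compl β hβ, Or.inl (Set.subset_compl_comm.1 h2)⟩⟩⟩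
      by_contra h2
      exact h ⟨hP.compl β hβ, Or.inr ⟨hP.ori.compl_mem hβ h2,
        fun h3 => h1 (Set.compl_subset_compl.1 h3)⟩⟩
  · rintro β ⟨-, h | h⟩ γ ⟨-, h' | h'⟩
    · exact ⟨a, h ha, h' ha⟩
    · obtain ⟨x, h1, h2⟩ := Set.not_subset.1 h'.2
      exact ⟨x, h (not_not.1 h2), h1⟩
    · obtain ⟨x, h1, h2⟩ := Set.not_subset.1 h.2
      exact ⟨x, h1, h' (not_not.1 h2)⟩
    · exact hP.ori.2.2 β h.1 γ h'.1
  · refine ((hP.fin αᶜ (hP.compl α hα)).image compl).subset ?_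
    rintro β ⟨⟨hβ, h | h⟩, h0⟩
    · exact ⟨βᶜ, ⟨hP.ori.compl_mem hβ h0, Set.compl_subset_compl.2 h⟩, compl_compl β⟩
    · exact absurd h.1 h0

/-- `twoIn_of_facing` inside a representative of `α`, `sh_nonempty`, `fin_two`. -/
theorem reps_finite (hc : IsCubulation G X) (hB : Bridge X L) (hF : Facing X)
    {α : Set (OmN X)} (hα : α ∈ shs X) (x : V) :
    {h | Good X h ∧ α ⊆ sh X h ∧ x ∉ h}.Finite := by
  obtain ⟨a, ha, rfl⟩ := hα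
  obtain ⟨k1, k2, g1, g2, s1, s2, -, ht⟩ := twoIn_of_facing hc hB hF a ha.1 ha.2.1
  obtain ⟨ω1, h1⟩ := sh_nonempty hc hB hF g1
  obtain ⟨ω2, h2⟩ := sh_nonempty hc hB hF g2
  exact (fin_two hc (g1.1.cvx hc.median) ht h1 h2 x).subset fun h hh =>
    ⟨hh.1.1, hh.2.1 (sh_mono s1 h1), hh.2.1 (sh_mono s2 h2), hh.2.2⟩

/-- `exists_tight_family` for the facing triple, ends `ω i` in the three shadows, `σ0` the shadows
containing at least two of them. `fin`: `β = sh X k ⊆ α`; if `x ∉ k` use `fin_two`, if `x ∈ k`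
use `reps_finite` for `αᶜ` and `kᶜ`. -/
theorem exists_sigma0 (hc : IsCubulation G X) (hB : Bridge X L) (hF : Facing X) :
    ∃ σ0, Poc (shs X) σ0 ∧ ∀ x, {h | Good X h ∧ sh X h ∈ σ0 ∧ x ∉ h}.Finite := by
  have hcm : ∀ α ∈ shs X, αᶜ ∈ shs X := by
    rintro _ ⟨h, hh, rfl⟩
    exact ⟨hᶜ, hh.compl hc.median, (sh_compl h).symm⟩
  obtain ⟨h1, h2, h3, g1, g2, g3, d12, d13, d23⟩ := id hF
  obtain ⟨k, gk, -, ht⟩ := exists_tight_family hc hB ![h1, h2, h3]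
    (fun i => by fin_cases i <;> assumption) fun i j hij => by
      fin_cases i <;> fin_cases j <;> first
        | exact absurd rfl hij
        | assumption
        | exact Disjoint.symm (by assumption)
  choose ω hω using fun i => sh_nonempty hc hB hF (gk i)
  have f := fun i j hij x => fin_two hc ((gk i).1.cvx hc.median) (ht i j hij) (hω i) (hω j) x
  have h0 : ∀ x, {h | Good X h ∧ sh X h ∈ {β | β ∈ shs X ∧ ((ω 0 ∈ β ∧ ω 1 ∈ β) ∨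
      (ω 1 ∈ β ∧ ω 2 ∈ β) ∨ (ω 0 ∈ β ∧ ω 2 ∈ β))} ∧ x ∉ h}.Finite := fun x => by
    refine ((f 0 1 (by decide) x).union ((f 1 2 (by decide) x).union
      (f 0 2 (by decide) x))).subset ?_
    rintro h ⟨gh, ⟨-, e | e | e⟩, hx⟩
    · exact Or.inl ⟨gh.1, e.1, e.2, hx⟩
    · exact Or.inr (Or.inl ⟨gh.1, e.1, e.2, hx⟩)
    · exact Or.inr (Or.inr ⟨gh.1, e.1, e.2, hx⟩)
  refine ⟨_, ⟨hcm, ?_, ⟨fun β h => h.1, fun β hβ => ?_, ?_⟩, fun α hα => ?_⟩, h0⟩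
  · rintro _ ⟨h, hh, rfl⟩
    exact sh_nonempty hc hB hF hh
  · have := hcm β hβ
    simp only [Set.mem_ofPred_eq, Set.mem_compl_iff]
    tauto
  · rintro β ⟨-, e | e | e⟩ γ ⟨-, e' | e' | e'⟩
    · exact ⟨_, e.1, e'.1⟩
    · exact ⟨_, e.2, e'.1⟩
    · exact ⟨_, e.1, e'.1⟩
    · exact ⟨_, e.1, e'.2⟩
    · exact ⟨_, e.1, e'.1⟩
    · exact ⟨_, e.2, e'.2⟩
    · exact ⟨_, e.1, e'.1⟩
    · exact ⟨_, e.2, e'.2⟩
    · exact ⟨_, e.1, e'.1⟩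
  · obtain ⟨x, -⟩ := g1.1.nonempty
    refine (((h0 x).image (sh X)).union ((reps_finite hc hB hF (hcm α hα) x).image
      fun h => (sh X h)ᶜ)).subset ?_
    rintro β ⟨hβ, hs⟩
    obtain ⟨h, hh, rfl⟩ := hβ.1
    by_cases hx : x ∈ h
    · refine Or.inr ⟨hᶜ, ⟨hh.compl hc.median, ?_, not_not.2 hx⟩, ?_⟩
      · rw [sh_compl]
        exact Set.compl_subset_compl.2 hs
      · simp only [sh_compl, compl_compl]
    · exact Or.inl ⟨h, ⟨hh, hβ, hx⟩, rfl⟩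

/-- `B = {h good | sh X h ∈ σ, x0 ∉ h}` is finite (`h0` and `reps_finite`), its intersection is
nonempty (`helly`) and convex; take the gate of `x0`; `IsGate.mem_of` and `helly` again. -/
theorem exists_fib (hc : IsCubulation G X) (hB : Bridge X L) (hF : Facing X)
    {σ0 : Set (Set (OmN X))} (h0 : ∀ x, {h | Good X h ∧ sh X h ∈ σ0 ∧ x ∉ h}.Finite)
    (σ : DV (shs X) σ0) : ∃ x, Fib X x σ.1 := by
  have hM := hc.median
  obtain ⟨x0⟩ := hM.1.nonempty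
  have hel : ∀ T : Set (Set V), T.Finite → (∀ h ∈ T, Good X h ∧ sh X h ∈ σ.1) →
      ∃ x, ∀ h ∈ T, x ∈ h := fun T hT H => by
    obtain ⟨x, hx⟩ := hM.helly hT.toFinset id
      (fun h hh => (H h (hT.mem_toFinset.1 hh)).1.1.cvx hM) fun h hh k hk =>
        nonempty_of_sh (σ.2.1.2.2 _ (H h (hT.mem_toFinset.1 hh)).2 _ (H k (hT.mem_toFinset.1 hk)).2)
    exact ⟨x, fun h hh => hx h (hT.mem_toFinset.2 hh)⟩
  have hfin : {h | Good X h ∧ sh X h ∈ σ.1 ∧ x0 ∉ h}.Finite := by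
    refine ((h0 x0).union (σ.2.2.biUnion fun α hα =>
      reps_finite hc hB hF (σ.2.1.1 hα.1) x0)).subset ?_
    rintro h ⟨gh, hs, hx⟩
    by_cases e : sh X h ∈ σ0
    · exact Or.inl ⟨gh, e, hx⟩
    · exact Or.inr (Set.mem_biUnion (show sh X h ∈ σ.1 \ σ0 from ⟨hs, e⟩) ⟨gh, subset_rfl, hx⟩)
  obtain ⟨p, hp⟩ := hM.exists_gate
    (C := {y | ∀ h ∈ {h | Good X h ∧ sh X h ∈ σ.1 ∧ x0 ∉ h}, y ∈ h})
    (fun x hx y hy m hm h hh => hh.1.1.cvx hM x (hx h hh) y (hy h hh) m hm)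
    (hel _ hfin fun h hh => ⟨hh.1, hh.2.1⟩) x0
  have key : ∀ h, Good X h → sh X h ∈ σ.1 → p ∈ h := fun h gh hs => by
    by_cases hx : x0 ∈ h
    · obtain ⟨y, hy⟩ := hel _ (hfin.insert h) (by
        rintro k (rfl | hk)
        · exact ⟨gh, hs⟩
        · exact ⟨hk.1, hk.2.1⟩)
      exact hp.mem_of hM gh.1 hx ⟨y, fun k hk => hy k (Or.inr hk), hy h (Or.inl rfl)⟩
    · exact hp.1 h ⟨gh, hs, hx⟩
  refine ⟨p, fun h gh => ⟨key h gh, fun hx => ?_⟩⟩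
  by_contra hn
  refine key hᶜ (gh.compl hM) ?_ hx
  rw [sh_compl]
  exact σ.2.1.compl_mem ⟨h, gh, rfl⟩ hn

end Pool.Agent.Lib.MP_3467cd_al.Cu
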