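import Pool.Agent.Lib.MP_3467cd_al.CuN2

open Pointwise

namespace Pool.Agent.Lib.MP_3467cd_al.Cu

variable {G : Type} [Group G] {V : Type} [MulAction G V] {X : SimpleGraph V}

variable {L : ℕ}

/-- pattern: `exists_om_action` in `Key.lean` -/
theorem exists_omN_action (hc : IsCubulation G X) :
    ∃ _ : MulAction G (OmN X), ∀ (g : G) (s : Set V), g • sh X s = sh X (g • s) := by
  have hm : ∀ (g : G) (s : Set V) (ω : Ultrafilter V),
      s ∈ Ultrafilter.map (fun v => g • v) ω ↔ g⁻¹ • s ∈ ω := fun g s ω => by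
    rw [Ultrafilter.mem_map, Set.preimage_smul]
  let act : G → OmN X → OmN X := fun g ω => ⟨Ultrafilter.map (fun v => g • v) ω.1,
    fun h k hh hk h1 h2 => by
      obtain ⟨c, gc, sc⟩ := ω.2 _ _ (hh.smul hc g⁻¹) (hk.smul hc g⁻¹) ((hm g _ _).1 h1)
        ((hm g _ _).1 h2)
      refine ⟨g • c, gc.smul hc g, ?_⟩
      rw [← Set.smul_set_inter] at sc
      exact Set.smul_set_subset_iff_subset_inv_smul_set.2 sc⟩
  let inst : MulAction G (OmN X) :=
    { smul := act
      one_smul := fun ω => Subtype.ext (Ultrafilter.ext fun s =>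
        (hm 1 s ω.1).trans (by rw [inv_one, one_smul]))
      mul_smul := fun a b ω => Subtype.ext (Ultrafilter.ext fun s =>
        (hm (a * b) s ω.1).trans (by
          rw [mul_inv_rev, mul_smul, ← hm, ← hm]
          rfl)) }
  refine ⟨inst, fun g s => ?_⟩
  ext ω
  rw [Set.mem_smul_set_iff_inv_smul_mem]
  exact (hm g⁻¹ s ω.1).trans (by rw [inv_inv]; rfl)

theorem Fib.smul (hc : IsCubulation G X) [MulAction G (OmN X)]
    (hact : ∀ (g : G) (s : Set V), g • sh X s = sh X (g • s)) {x : V}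
    {σ : Set (Set (OmN X))} (H : Fib X x σ) (g : G) : Fib X (g • x) (g • σ) := by
  intro h hh
  rw [Set.mem_smul_set_iff_inv_smul_mem, hact, H _ (hh.smul hc g⁻¹), Set.mem_inv_smul_set_iff]

theorem n3_smul_mem (hc : IsCubulation G X) [MulAction G (OmN X)]
    (hact : ∀ (g : G) (s : Set V), g • sh X s = sh X (g • s)) {α : Set (OmN X)}
    (h : α ∈ shs X) (g : G) : g • α ∈ shs X := by
  obtain ⟨k, hk, rfl⟩ := h
  exact ⟨g • k, hk.smul hc g, hact g k⟩

theorem n3_ori_smul (hc : IsCubulation G X) [MulAction G (OmN X)]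
    (hact : ∀ (g : G) (s : Set V), g • sh X s = sh X (g • s)) {σ : Set (Set (OmN X))}
    (h : Ori (shs X) σ) (g : G) : Ori (shs X) (g • σ) := by
  obtain ⟨h1, h2, h3⟩ := h
  refine ⟨fun α hα => ?_, fun α hα => ?_, fun α hα β hβ => ?_⟩
  · have := n3_smul_mem hc hact (h1 (Set.mem_smul_set_iff_inv_smul_mem.1 hα)) g
    rwa [smul_inv_smul] at this
  · rw [Set.mem_smul_set_iff_inv_smul_mem, Set.mem_smul_set_iff_inv_smul_mem, Set.smul_set_compl]
    exact h2 _ (n3_smul_mem hc hact hα g⁻¹)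
  · have := h3 _ (Set.mem_smul_set_iff_inv_smul_mem.1 hα) _
      (Set.mem_smul_set_iff_inv_smul_mem.1 hβ)
    rw [← Set.smul_set_inter] at this
    exact Set.smul_set_nonempty.1 this

/-- An orientation with a fibre point differs from `σ0` in finitely many shadows (`h0` for the
complements). Pattern: `WallSys.exists_action` in `Dual2.lean`. -/
theorem exists_dv_action (hc : IsCubulation G X) (hB : Bridge X L) (hF : Facing X)
    [MulAction G (OmN X)] (hact : ∀ (g : G) (s : Set V), g • sh X s = sh X (g • s))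
    {σ0 : Set (Set (OmN X))} (hP : Poc (shs X) σ0)
    (h0 : ∀ x, {h | Good X h ∧ sh X h ∈ σ0 ∧ x ∉ h}.Finite) :
    ∃ _ : MulAction G (DV (shs X) σ0), ∀ (g : G) (σ : DV (shs X) σ0), (g • σ).1 = g • σ.1 := by
  have hfin : ∀ (g : G) (σ : DV (shs X) σ0), (g • σ.1 \ σ0).Finite := by
    intro g σ
    obtain ⟨x, hx⟩ := exists_fib hc hB hF h0 σ
    have hx' := hx.smul hc hact g
    have ho := n3_ori_smul hc hact σ.2.1 g
    refine ((h0 (g • x)).image fun k => (sh X k)ᶜ).subset ?_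
    rintro α ⟨h1, h2⟩
    obtain ⟨h, hh, rfl⟩ := ho.1 h1
    refine ⟨hᶜ, ⟨hh.compl hc.median, ?_, fun hn => hn ((hx' h hh).1 h1)⟩, ?_⟩
    · rw [sh_compl]
      exact hP.ori.compl_mem ⟨h, hh, rfl⟩ h2
    · show (sh X hᶜ)ᶜ = sh X h
      rw [sh_compl, compl_compl]
  refine ⟨{ smul := fun g σ => ⟨g • σ.1, n3_ori_smul hc hact σ.2.1 g, hfin g σ⟩
            one_smul := fun σ => Subtype.ext (one_smul G σ.1)
            mul_smul := fun g g' σ => Subtype.ext (mul_smul g g' σ.1) }, fun _ _ => rfl⟩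

/-- If all good halfspaces containing `x` and not `y` have the same shadow then `x, y` are close:
`chain_of_dist`, `good_mid`, `sh_ne`. -/
theorem fib_close (hc : IsCubulation G X) (hB : Bridge X L) (hF : Facing X) :
    ∃ R : ℕ, ∀ (x y : V) (α : Set (OmN X)), (∀ h, Good X h → x ∈ h → y ∉ h → sh X h = α) →
      X.dist x y ≤ R := by
  obtain ⟨D, hD⟩ := hc.exists_dim
  obtain ⟨E, hE⟩ := hc.good_mid
  obtain ⟨M, -, hM⟩ := sh_ne hc hB hF
  refine ⟨D * (E + M + E), fun x y α H => ?_⟩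
  by_contra hlt
  rw [SimpleGraph.dist_comm] at hlt
  obtain ⟨c, hch, hs⟩ := hD.chain_of_dist hc.median (E + M + E) (not_le.1 hlt)
  have g1 : Good X (c E) := hE _ c E hch le_rfl (by omega)
  have g2 : Good X (c (E + M)) := hE _ c (E + M) hch (by omega) le_rfl
  have hn := hch.nest (i := E) (j := E + M) (by omega) (by omega)
  rw [Nat.add_sub_cancel_left] at hn
  have s1 := hs E (by omega)
  have s2 := hs (E + M) (by omega)
  exact hM _ _ hn ((H _ g1 s1.2.2 s1.2.1).trans (H _ g2 s2.2.2 s2.2.1).symm)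

/-- A vertex `σ` is determined by any fibre point; fibre points of equal or adjacent vertices are
`R`-close (`fib_close`). -/
theorem dual_cubulation (hc : IsCubulation G X) (hB : Bridge X L) (hF : Facing X)
    [MulAction G (OmN X)] (hact : ∀ (g : G) (s : Set V), g • sh X s = sh X (g • s))
    {σ0 : Set (Set (OmN X))} (hP : Poc (shs X) σ0)
    (h0 : ∀ x, {h | Good X h ∧ sh X h ∈ σ0 ∧ x ∉ h}.Finite)
    [MulAction G (DV (shs X) σ0)]
    (hact' : ∀ (g : G) (σ : DV (shs X) σ0), (g • σ).1 = g • σ.1) :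
    IsCubulation G (dual (shs X) σ0) := by
  obtain ⟨R, hR⟩ := fib_close hc hB hF
  have hex := exists_fib hc hB hF h0
  have hfin : ∀ x : V, {σ : DV (shs X) σ0 | Fib X x σ.1}.Finite := fun x =>
    Set.Subsingleton.finite fun σ hσ τ hτ => dual1_eq_of_subset fun α hα => by
      obtain ⟨h, hh, rfl⟩ := σ.2.1.1 hα
      exact (hτ h hh).2 ((hσ h hh).1 hα)
  have hcl : ∀ (σ τ : Set (Set (OmN X))) (x y : V) (α : Set (OmN X)), Fib X x σ → Fib X y τ →
      σ \ τ ⊆ {α} → X.dist x y ≤ R := fun σ τ x y α hx hy hs =>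
    hR x y α fun h hh h1 h2 => hs ⟨(hx h hh).2 h1, fun h3 => h2 ((hy h hh).1 h3)⟩
  refine ⟨dual_median hP, ?_, ?_, ?_, ?_⟩
  · intro g σ τ h
    obtain ⟨α, hα⟩ := dual_adj.1 h
    refine dual_adj.2 ⟨g • α, ?_⟩
    rw [hact', hact', ← Set.smul_set_sdiff, hα, Set.smul_set_singleton]
  · intro σ
    obtain ⟨x, hx⟩ := hex σ
    refine ((hc.ball_finite x R).biUnion fun y _ => hfin y).subset ?_
    intro τ hτ
    obtain ⟨α, hα⟩ := dual_adj.1 hτ
    obtain ⟨y, hy⟩ := hex τ
    exact Set.mem_biUnion (x := y) (hcl _ _ x y α hx hy hα.subset) hy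
  · intro σ
    obtain ⟨x, hx⟩ := hex σ
    refine (hc.proper_dist x x R).subset fun g hg => ?_
    have h1 := hx.smul hc hact g
    have h2 : g • σ = σ := hg
    rw [← hact', h2] at h1
    exact hcl _ _ x (g • x) ∅ hx h1 (by simp)
  · obtain ⟨S, hS⟩ := hc.cocompact
    refine ⟨(S.finite_toSet.biUnion fun y _ => hfin y).toFinset, fun σ => ?_⟩
    obtain ⟨x, hx⟩ := hex σ
    obtain ⟨g, hg⟩ := hS x
    refine ⟨g, (Set.Finite.mem_toFinset _).2 (Set.mem_biUnion (x := g • x) hg ?_)⟩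
    have h1 := hx.smul hc hact g
    rwa [← hact'] at h1

end Pool.Agent.Lib.MP_3467cd_al.Cu
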