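import Pool.Agent.Lib.MP_3467cd_al.Hyp1

open Pointwise

namespace Pool.Agent.Lib.MP_3467cd_al

variable {G : Type} [Group G] {V : Type} [MulAction G V] {X : SimpleGraph V}

theorem hyp2_out (hM : IsMedian X) {x m y : V} (hb : Btw X x m y) {h : Set V} (hh : IsHalf X h)
    (hx : x ∉ h) (hm : m ∈ h) : y ∈ h := by
  by_contra hy
  exact hM.btw_iff.1 hb hᶜ (hh.compl hM) hx hy hm

theorem hyp2_rect (hM : IsMedian X) {n : ℕ} {a b q1 q2 : V} (ha : Btw X q1 a q2)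
    (h1 : Btw X a q1 b) (h2 : Btw X a q2 b) (d1 : n ≤ X.dist a q1) (d2 : n ≤ X.dist a q2) :
    ∃ u w v, Rect X n a u w v := by
  obtain ⟨u, hu, du⟩ := hM.exists_btw_dist d1
  obtain ⟨v, hv, dv⟩ := hM.exists_btw_dist d2
  obtain ⟨w, hw⟩ := hM.exists_med u v b
  have e1 : Btw X u a v := hM.btw_iff.2 fun h hh k1 k2 => by
    by_contra k3
    exact k3 (hM.btw_iff.1 ha h hh (hyp2_out hM hu hh k3 k1) (hyp2_out hM hv hh k3 k2))
  have e2 : Btw X u w v := hM.btw_iff.2 fun h hh k1 k2 => (hw h hh).2 (Or.inl ⟨k1, k2⟩)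
  have e3 : Btw X a u w := hM.btw_iff.2 fun h hh k1 k2 => by
    rcases (hw h hh).1 k2 with k | k | k
    · exact k.1
    · exact hM.btw_iff.1 hu h hh k1 (hM.btw_iff.1 h1 h hh k1 k.2)
    · exact k.1
  have e4 : Btw X a v w := hM.btw_iff.2 fun h hh k1 k2 => by
    rcases (hw h hh).1 k2 with k | k | k
    · exact k.2
    · exact k.1
    · exact hM.btw_iff.1 hv h hh k1 (hM.btw_iff.1 h2 h hh k1 k.2)
  unfold Btw at e1 e2 e3 e4
  have c1 : X.dist u a = X.dist a u := X.dist_comm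
  have c2 : X.dist w v = X.dist v w := X.dist_comm
  exact ⟨u, w, v, du, dv, by omega, by omega, by omega, by omega⟩

theorem IsMedian.rect_of_not_thin (hM : IsMedian X) {n : ℕ} (H : ¬ Thin X n) :
    ∃ a u w v, Rect X n a u w v := by
  unfold Thin at H
  push Not at H
  obtain ⟨c, e, hc, he, hx⟩ := H
  obtain ⟨a0, a1, a2⟩ := (hx 0 (Nat.zero_le _) 0 (Nat.zero_le _)).2.2.2
  obtain ⟨b0, b1, b2⟩ := (hx n le_rfl n le_rfl).1
  obtain ⟨r1, r11, r12⟩ := (hx n le_rfl 0 (Nat.zero_le _)).2.1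
  obtain ⟨r2, r21, r22⟩ := (hx 0 (Nat.zero_le _) n le_rfl).2.2.1
  obtain ⟨a, ha⟩ := hM.exists_med a0 r1 r2
  obtain ⟨b, hb⟩ := hM.exists_med b0 r1 r2
  obtain ⟨q1, h1⟩ := hM.exists_med r1 a b
  obtain ⟨q2, h2⟩ := hM.exists_med r2 a b
  have nc : Nest X n (c n) (c 0) := ⟨c, hc, rfl, rfl⟩
  have ne : Nest X n (e n) (e 0) := ⟨e, he, rfl, rfl⟩
  have k1 : a ∉ c 0 := fun k => by
    rcases (ha _ (hc.1 0 (Nat.zero_le _))).1 k with k | k | k
    · exact a1 k.1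
    · exact r21 k.2
    · exact a1 k.1
  have k2 : a ∉ e 0 := fun k => by
    rcases (ha _ (he.1 0 (Nat.zero_le _))).1 k with k | k | k
    · exact a2 k.1
    · exact r12 k.1
    · exact a2 k.1
  have k3 : b ∈ c n := (hb _ (hc.1 n le_rfl)).2 (Or.inl ⟨b1, r11⟩)
  have k4 : b ∈ e n := (hb _ (he.1 n le_rfl)).2 (Or.inr (Or.inr ⟨b2, r22⟩))
  have k5 : q1 ∈ c n := (h1 _ (hc.1 n le_rfl)).2 (Or.inr (Or.inr ⟨r11, k3⟩))
  have k6 : q2 ∈ e n := (h2 _ (he.1 n le_rfl)).2 (Or.inr (Or.inr ⟨r22, k4⟩))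
  have d1 := nc.le_dist hM k5 k1
  have d2 := ne.le_dist hM k6 k2
  rw [X.dist_comm] at d1 d2
  refine ⟨a, hyp2_rect hM (q1 := q1) (q2 := q2) (b := b) ?_ ?_ ?_ (by omega) (by omega)⟩
  · refine hM.btw_iff.2 fun h hh m1 m2 => ?_
    by_contra m3
    have m4 := (h1 h hh).1 m1
    have m5 := (h2 h hh).1 m2
    exact m3 ((ha h hh).2 (Or.inr (Or.inl ⟨by tauto, by tauto⟩)))
  · exact hM.btw_iff.2 fun h hh m1 m2 => (h1 h hh).2 (Or.inr (Or.inl ⟨m1, m2⟩))
  · exact hM.btw_iff.2 fun h hh m1 m2 => (h2 h hh).2 (Or.inr (Or.inl ⟨m1, m2⟩))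

theorem hyp2_geo {W : Type} {Y : SimpleGraph W} (hY : Y.Connected) (x y : W) :
    ∃ p : ℕ → W, p 0 = x ∧ p (Y.dist x y) = y ∧ (∀ i < Y.dist x y, Y.Adj (p i) (p (i + 1))) ∧
      ∀ i ≤ Y.dist x y, Y.dist x (p i) = i ∧ Btw Y x (p i) y := by
  obtain ⟨w, hw⟩ := hY.exists_walk_length_eq_dist x y
  refine ⟨w.getVert, w.getVert_zero, hw ▸ w.getVert_length, fun i hi => ?_, fun i hi => ?_⟩
  · exact w.adj_getVert_succ (hw ▸ hi)
  · have h1 := SimpleGraph.dist_le (w.take i)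
    have h2 := SimpleGraph.dist_le (w.drop i)
    rw [SimpleGraph.Walk.take_length] at h1
    rw [SimpleGraph.Walk.drop_length] at h2
    have h3 : Y.dist x y ≤ Y.dist x (w.getVert i) + Y.dist (w.getVert i) y := hY.dist_triangle
    unfold Btw
    omega

/-- a geodesic as a sequence of vertices -/
theorem IsMedian.exists_geo (hM : IsMedian X) (x y : V) : ∃ p : ℕ → V, p 0 = x ∧
    p (X.dist x y) = y ∧ (∀ i < X.dist x y, X.Adj (p i) (p (i + 1))) ∧
    ∀ i ≤ X.dist x y, Btw X x (p i) y := by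
  obtain ⟨p, h1, h2, h3, h4⟩ := hyp2_geo hM.1 x y
  exact ⟨p, h1, h2, h3, fun i hi => (h4 i hi).2⟩

theorem hyp2_path (hM : IsMedian X) {n : ℕ} {a u w : V} (h1 : X.dist a u = n)
    (h2 : X.dist u w = n) : ∃ P : ℕ → V, P 0 = a ∧ P (2 * n) = w ∧
      (∀ i < 2 * n, X.Adj (P i) (P (i + 1))) ∧
      ∀ i ≤ 2 * n, Btw X a (P i) u ∨ Btw X u (P i) w := by
  obtain ⟨p, p0, p1, p2, p3⟩ := hM.exists_geo a u
  obtain ⟨q, q0, q1, q2, q3⟩ := hM.exists_geo u w
  rw [h1] at p1 p2 p3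
  rw [h2] at q1 q2 q3
  refine ⟨fun i => if i < n then p i else q (i - n), ?_, ?_, fun i hi => ?_, fun i hi => ?_⟩
  · by_cases hn : 0 < n
    · simp only [hn, if_true, p0]
    · have : n = 0 := by omega
      subst this
      simp only [lt_irrefl, if_false, Nat.sub_self, q0, ← p1, p0]
  · have : ¬ 2 * n < n := by omega
    simp only [this, if_false]
    rw [show 2 * n - n = n by omega, q1]
  · by_cases k1 : i + 1 < n
    · simp only [k1, show i < n by omega, if_true]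
      exact p2 i (by omega)
    · by_cases k2 : i < n
      · simp only [k1, k2, if_true, if_false]
        rw [show i + 1 - n = 0 by omega, q0, ← p1, show n = i + 1 by omega]
        exact p2 i k2
      · simp only [k1, k2, if_false]
        rw [show i + 1 - n = i - n + 1 by omega]
        exact q2 _ (by omega)
  · by_cases k2 : i < n
    · simp only [k2, if_true]
      exact Or.inl (p3 i k2.le)
    · simp only [k2, if_false]
      exact Or.inr (q3 _ (by omega))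

theorem hyp2_cases (hM : IsMedian X) {n : ℕ} {a u w v p q : V} (H : Rect X n a u w v)
    (hp : Btw X a p u ∨ Btw X u p w) (hq : Btw X a q v ∨ Btw X v q w) :
    X.dist a p ≤ X.dist p q ∨ X.dist p w ≤ X.dist p q ∨ n ≤ X.dist p q := by
  obtain ⟨h1, h2, h3, h4, h5, h6⟩ := H
  have t1 := hM.tri u p v
  have t2 := hM.tri p q v
  have t3 := hM.tri a p w
  have t4 := hM.tri p q w
  have t5 := hM.tri a q w
  have t6 := hM.tri q p w
  have c1 : X.dist p u = X.dist u p := X.dist_comm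
  have c2 : X.dist v q = X.dist q v := X.dist_comm
  have c3 : X.dist q p = X.dist p q := X.dist_comm
  unfold Btw at hp hq
  omega

theorem hyp2_grow (A B : ℕ) : ∃ m : ℕ, A + B * (2 * m + 1) < 2 * 2 ^ (2 * m) := by
  refine ⟨A + 3 * B + 1, ?_⟩
  obtain ⟨m, hm⟩ : ∃ m, m = A + 3 * B + 1 := ⟨_, rfl⟩
  rw [← hm, two_mul m, pow_add]
  have h1 : m < 2 ^ m := Nat.lt_two_pow_self
  have h2 : m * m ≤ 2 ^ m * 2 ^ m := Nat.mul_le_mul h1.le h1.le
  have h3 : m * m = (A + 3 * B + 1) * m := by rw [← hm]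
  have h4 : 1 ≤ m := by omega
  nlinarith [Nat.mul_le_mul_left A h4, Nat.mul_le_mul_left B h4]

theorem IsCubulation.no_rect (hc : IsCubulation G X) (hG : IsHyperbolicGroup G) :
    ∃ n, 1 ≤ n ∧ ∀ a u w v, ¬ Rect X n a u w v := by
  obtain ⟨S, hS, δ, h4⟩ := hG
  obtain ⟨φ, K, hK, q1, q2⟩ := hc.exists_qi S hS
  have hM := hc.median
  have hY := cayley_connected hS
  obtain ⟨m, hm⟩ := hyp2_grow (K * (2 * (2 * K ^ 3 + K ^ 2 + K) + 1) + K + 2 * (2 * K ^ 2 + K))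
    (2 * K * (2 * K ^ 2 * δ + δ) + 4 * K * δ)
  refine ⟨2 ^ (2 * m), Nat.one_le_two_pow, fun a u w v H => ?_⟩
  have hpos : 1 ≤ 2 ^ (2 * m) := Nat.one_le_two_pow
  have hN : 2 * 2 ^ (2 * m) ≤ 2 ^ (2 * m + 1) := by rw [pow_succ, mul_comm]
  generalize 2 ^ (2 * m) = n at *
  generalize 2 * m + 1 = k at *
  generalize cayley (S : Set G) = Y at *
  obtain ⟨z', -, -, -, hz⟩ := hyp2_geo hY (φ a) (φ w)
  obtain ⟨z1, z2⟩ := hz (Y.dist (φ a) (φ w) / 2) (Nat.div_le_self _ _)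
  generalize z' (Y.dist (φ a) (φ w) / 2) = z at z1 z2
  have key : ∀ u, X.dist a u = n → X.dist u w = n →
      ∃ p, (Btw X a p u ∨ Btw X u p w) ∧ Y.dist z (φ p) ≤ K + δ * k := by
    intro u h1 h2
    obtain ⟨P, p0, p1, p2, p3⟩ := hyp2_path hM h1 h2
    obtain ⟨i, hi, hd⟩ := log_lemma Y.dist (fun _ _ => Y.dist_comm)
      (fun _ _ _ => hY.dist_triangle) δ K h4 k (2 * n) (by omega) hN (fun i => φ (P i))
      (fun i hi => by simpa [dist_of_adj (p2 i hi)] using q1 (P i) (P (i + 1))) z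
      (by rw [p0, p1]; exact z2)
    exact ⟨P i, p3 i hi, hd⟩
  obtain ⟨p, hp, dp⟩ := key u H.1 H.2.2.1
  obtain ⟨q, hq, dq⟩ := key v H.2.1 H.2.2.2.1
  have hcs := hyp2_cases hM H hp hq
  obtain ⟨ρ, hρ⟩ : ∃ ρ, ρ = K + δ * k := ⟨_, rfl⟩
  obtain ⟨τ, hτ⟩ : ∃ τ, τ = K * (2 * ρ) + K := ⟨_, rfl⟩
  have hb : K * (2 * (2 * K ^ 3 + K ^ 2 + K) + 1) + K + 2 * (2 * K ^ 2 + K) +
      (2 * K * (2 * K ^ 2 * δ + δ) + 4 * K * δ) * k
      = K * (2 * (K * τ + ρ) + 1) + K + 2 * τ := by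
    rw [hτ, hρ]
    ring
  rw [hb] at hm
  rw [← hρ] at dp dq
  have t1 : Y.dist (φ p) (φ q) ≤ Y.dist (φ p) z + Y.dist z (φ q) := hY.dist_triangle
  have t2 : Y.dist (φ a) z ≤ Y.dist (φ a) (φ p) + Y.dist (φ p) z := hY.dist_triangle
  have t3 : Y.dist z (φ w) ≤ Y.dist z (φ p) + Y.dist (φ p) (φ w) := hY.dist_triangle
  have c1 : Y.dist (φ p) z = Y.dist z (φ p) := Y.dist_comm
  have hpq : X.dist p q ≤ τ := by
    rw [hτ]
    exact (q2 p q).trans (Nat.add_le_add_right (Nat.mul_le_mul_left K (by omega)) K)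
  have haw := q2 a w
  rw [H.2.2.2.2.1] at haw
  have fin : Y.dist (φ a) (φ w) ≤ 2 * (K * τ + ρ) + 1 → False := fun h => by
    have := Nat.mul_le_mul_left K h
    omega
  unfold Btw at z2
  rcases hcs with h | h | h
  · have := (q1 a p).trans (Nat.mul_le_mul_left K (h.trans hpq))
    exact fin (by omega)
  · have := (q1 p w).trans (Nat.mul_le_mul_left K (h.trans hpq))
    exact fin (by omega)
  · omega

theorem IsCubulation.exists_thin (hc : IsCubulation G X) (hG : IsHyperbolicGroup G) :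
    ∃ L, 1 ≤ L ∧ Thin X L := by
  obtain ⟨n, hn, H⟩ := hc.no_rect hG
  refine ⟨n, hn, ?_⟩
  by_contra h
  obtain ⟨a, u, w, v, hr⟩ := hc.median.rect_of_not_thin h
  exact H a u w v hr

end Pool.Agent.Lib.MP_3467cd_al
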