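import Pool.Agent.Lib.MP_3467cd_al.CuN3
import Pool.Agent.Lib.MP_3467cd_al.Hyp2

open Pointwise

namespace Pool.Agent.Lib.MP_3467cd_al.Cu

variable {G : Type} [Group G] {V : Type} [MulAction G V] {X : SimpleGraph V}

variable {L : ℕ}

/-- The dual of the shadows; `dual_isHalf` with `poc_exists_mem`; `pd` from the definition of
`OmN` and `Ori.up`; `two` from `twoIn_of_facing`; `exists_thin`. -/
theorem exists_nice0 (hG : IsHyperbolicGroup G) (hc : IsCubulation G X) (hB : Bridge X L)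
    (hF : Facing X) :
    ∃ (W : Type) (Y : SimpleGraph W) (_ : MulAction G W) (L' : ℕ), Nice0 G Y L' := by
  obtain ⟨σ0, hP, h0⟩ := exists_sigma0 hc hB hF
  obtain ⟨i1, hact⟩ := exists_omN_action hc
  obtain ⟨i2, hact'⟩ := exists_dv_action hc hB hF hact hP h0
  have hc' := dual_cubulation hc hB hF hact hP h0 hact'
  obtain ⟨L', hL, hT⟩ := hc'.exists_thin hG
  have hH := fun h => dual_isHalf hP (poc_exists_mem hP) (h := h)
  have hup : ∀ {a b : Set V}, Good X b → a ⊆ b →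
      {μ : DV (shs X) σ0 | sh X a ∈ μ.1} ⊆ {μ | sh X b ∈ μ.1} := fun hb hab μ hμ =>
    μ.2.1.up hμ ⟨_, hb, rfl⟩ (sh_mono hab)
  refine ⟨_, _, i2, L', hc', hL, hT, ?_, fun h k hh hk ⟨μ, h1, h2⟩ => ?_, fun h hh => ?_⟩
  · obtain ⟨h, -, -, hh, -⟩ := hF
    exact ⟨_, (hH _).2 ⟨_, ⟨h, hh, rfl⟩, rfl⟩⟩
  · obtain ⟨_, ⟨a, ha, rfl⟩, rfl⟩ := (hH _).1 hh
    obtain ⟨_, ⟨b, hb, rfl⟩, rfl⟩ := (hH _).1 hk
    obtain ⟨ω, h3, h4⟩ := μ.2.1.2.2 _ h1 _ h2
    obtain ⟨c, h5, h6⟩ := ω.2 a b ha hb h3 h4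
    exact ⟨_, (hH _).2 ⟨_, ⟨c, h5, rfl⟩, rfl⟩, Set.subset_inter
      (hup ha (h6.trans Set.inter_subset_left)) (hup hb (h6.trans Set.inter_subset_right))⟩
  · obtain ⟨_, ⟨a, ha, rfl⟩, rfl⟩ := (hH _).1 hh
    obtain ⟨k1, k2, g1, g2, s1, s2, hd, -⟩ := twoIn_of_facing hc hB hF a ha.1 ha.2.1
    refine ⟨_, _, (hH _).2 ⟨_, ⟨k1, g1, rfl⟩, rfl⟩, (hH _).2 ⟨_, ⟨k2, g2, rfl⟩, rfl⟩, hup ha s1,
      hup ha s2, Set.disjoint_left.2 fun μ h1 h2 => ?_⟩
    exact Set.not_disjoint_iff_nonempty_inter.2 (nonempty_of_sh (μ.2.1.2.2 _ h1 _ h2)) hd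

/-- Pull back along a surjection with finite kernel (`MulAction.compHom`). -/
theorem goal_of_surj {G' : Type} [Group G'] (π : G →* G') (hs : Function.Surjective π)
    (hk : (π.ker : Set G).Finite) (H : Goal G') : Goal G := by
  obtain ⟨W, Y, i, hc, he, hs1, hs2⟩ := H
  refine ⟨W, Y, MulAction.compHom W π, @IsCubulation.mk G _ W Y (MulAction.compHom W π) hc.median
    (fun g => hc.adj (π g)) hc.locFin (fun v => ?_) ?_, fun w hw hi => he w hw ?_, hs1,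
    fun w w' hw hw' => ?_⟩
  · refine ((hc.proper v).preimage' (f := π) fun g' _ => ?_).subset fun g hg => hg
    obtain ⟨g, rfl⟩ := hs g'
    refine (hk.image (g * ·)).subset fun x hx => ⟨g⁻¹ * x, ?_, mul_inv_cancel_left g x⟩
    rw [SetLike.mem_coe, MonoidHom.mem_ker, map_mul, map_inv, show π x = π g from hx,
      inv_mul_cancel]
  · obtain ⟨S, hS⟩ := hc.cocompact
    refine ⟨S, fun v => ?_⟩
    obtain ⟨g', hg⟩ := hS v
    obtain ⟨g, rfl⟩ := hs g'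
    exact ⟨g, hg⟩
  · obtain ⟨h, hh, H⟩ := hi
    refine ⟨h, hh, fun x => (H x).imp fun r hr y ⟨g', hg⟩ => hr y ?_⟩
    obtain ⟨g, rfl⟩ := hs g'
    exact ⟨g, hg⟩
  · obtain ⟨g', hg⟩ := hs2 w w' hw hw'
    obtain ⟨g, rfl⟩ := hs g'
    exact ⟨g, hg⟩

/-- `G' = (MulAction.toPermHom G V).range` acting on `V`; the kernel lies in a vertex
stabiliser. -/
theorem Nice0.exists_nice (hN : Nice0 G X L) :
    ∃ (G' : Type) (_ : Group G') (_ : MulAction G' V), Nice G' X L ∧ (Goal G' → Goal G) := by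
  have hc := hN.cub
  refine ⟨(MulAction.toPermHom G V).range, inferInstance, inferInstance,
    ⟨⟨⟨hc.median, ?_, hc.locFin, fun v => ?_, ?_⟩, hN.one, hN.thin, hN.ex, hN.pd, hN.two⟩,
      fun g hg => Subtype.ext (Equiv.ext hg)⟩,
    goal_of_surj _ (MulAction.toPermHom G V).rangeRestrict_surjective ?_⟩
  · rintro ⟨_, g, rfl⟩
    exact hc.adj g
  · refine ((hc.proper v).image (MulAction.toPermHom G V).rangeRestrict).subset ?_
    rintro ⟨_, g, rfl⟩ hg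
    exact ⟨g, hg, rfl⟩
  · obtain ⟨S, hS⟩ := hc.cocompact
    exact ⟨S, fun v => (hS v).elim fun g hg => ⟨(MulAction.toPermHom G V).rangeRestrict g, hg⟩⟩
  · obtain ⟨v⟩ := hc.median.1.nonempty
    exact (hc.proper v).subset fun g hg =>
      congrArg (fun p : (MulAction.toPermHom G V).range => p • v) (MonoidHom.mem_ker.1 hg) |>.trans
        (one_smul _ v)

end Pool.Agent.Lib.MP_3467cd_al.Cu
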