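import Pool.Agent.Lib.MP_3467cd_al.CuDefs
import Pool.Agent.Lib.MP_3467cd_al.Act2

open Pointwise

namespace Pool.Agent.Lib.MP_3467cd_al.Cu

variable {G : Type} [Group G] {V : Type} [MulAction G V] {X : SimpleGraph V}


theorem SD.symm {A B : Set V} (H : SD X A B) : SD X B A := by
  exact ⟨H.right, H.left, H.disj.symm, by rw [Set.inter_comm]; exact H.room,
    fun k hk => (H.clean k hk).symm⟩

theorem SD.mono_left {A A' B : Set V} (H : SD X A B) (h : IsHalf X A') (hs : A' ⊆ A) :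
    SD X A' B := by
  refine ⟨h, H.right, H.disj.mono_left hs, ?_, fun k hk => ?_⟩
  · obtain ⟨x, hx1, hx2⟩ := H.room
    exact ⟨x, fun hx => hx1 (hs hx), hx2⟩
  · rcases H.clean k hk with (h1 | h1) | h1
    · exact Or.inl (Or.inl (hs.trans h1))
    · exact Or.inl (Or.inr (hs.trans h1))
    · exact Or.inr h1

theorem SD.mono_right {A B B' : Set V} (H : SD X A B) (h : IsHalf X B') (hs : B' ⊆ B) :
    SD X A B' := by
  exact (H.symm.mono_left h hs).symm

theorem SD.subset {A B : Set V} (H : SD X B Aᶜ) : B ⊆ A := by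
  exact Set.disjoint_compl_right_iff_subset.1 H.disj

theorem SD.ssubset {A B : Set V} (H : SD X B Aᶜ) : B ⊂ A := by
  refine ⟨H.subset, fun h => ?_⟩
  obtain ⟨x, hx1, hx2⟩ := H.room
  rw [compl_compl] at hx2
  exact hx1 (h hx2)

theorem SD.smul (hc : IsCubulation G X) {A B : Set V} (H : SD X A B) (g : G) :
    SD X (g • A) (g • B) := by
  refine ⟨H.left.smul hc g, H.right.smul hc g, ?_, ?_, fun k hk => ?_⟩
  · rw [Set.disjoint_iff_inter_eq_empty, ← Set.smul_set_inter,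
      Set.disjoint_iff_inter_eq_empty.1 H.disj, Set.smul_set_empty]
  · rw [← Set.smul_set_compl, ← Set.smul_set_compl, ← Set.smul_set_inter, Set.smul_set_nonempty]
    exact H.room
  · obtain ⟨k, rfl⟩ := MulAction.surjective g k
    have hk' : IsHalf X k := by simpa using hk.smul hc g⁻¹
    simp only [Clean, ← Set.smul_set_compl, Set.smul_set_subset_smul_set_iff]
    exact H.clean k hk'

/-- a halfspace meeting both sides of `k` forces the other one to be clean -/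
theorem SD.clean_right {A B k : Set V} (H : SD X A B) (hk : IsHalf X k)
    (h1 : (A ∩ k).Nonempty) (h2 : (A ∩ kᶜ).Nonempty) : Clean B k := by
  obtain ⟨x, hx1, hx2⟩ := h1
  obtain ⟨y, hy1, hy2⟩ := h2
  rcases H.clean k hk with (h | h) | h
  · exact absurd (h hy1) hy2
  · exact absurd hx2 (h hx1)
  · exact h

theorem SD.cmp {A B k : Set V} (H : SD X B Aᶜ) (hk : IsHalf X k) {x y : V} (h1 : x ∈ B)
    (h2 : x ∈ k) (h3 : y ∉ A) (h4 : y ∉ k) : B ⊆ k ∨ k ⊆ A := by
  rcases H.clean k hk with (h | h) | (h | h)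
  · exact Or.inl h
  · exact absurd h2 (h h1)
  · exact absurd (h h3) h4
  · exact Or.inr (Set.compl_subset_compl.1 h)

theorem SD.cl {A M P : Set V} (H : SD X A Mᶜ) (hP : IsHalf X P) (h : (P ∩ A).Nonempty) :
    P ⊆ M ∨ A ⊆ P ∨ Mᶜ ⊆ P := by
  obtain ⟨x, hx1, hx2⟩ := h
  rcases H.clean P hP with (h | h) | (h | h)
  · exact Or.inr (Or.inl h)
  · exact absurd hx1 (h hx2)
  · exact Or.inr (Or.inr h)
  · exact Or.inl (Set.compl_subset_compl.1 h)

/-- Take the gate `p` in `Mᶜ` of one point `y0` of `A`; the gate `p'` of another point `y` equals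
`p` (`eq_of_forall_half`: a halfspace separating them separates `y0` from `y`, so neither `A` nor
`Mᶜ` is clean). -/
theorem SD.exists_pi (hM : IsMedian X) {A M : Set V} (H : SD X A Mᶜ) : ∃ p, IsPi X A M p := by
  obtain ⟨y0, hy0⟩ := H.left.nonempty
  obtain ⟨p, hp⟩ := hM.exists_gate (H.right.cvx hM) H.right.nonempty y0
  refine ⟨p, hp.1, fun x hx y hy => ?_⟩
  obtain ⟨p', hp'⟩ := hM.exists_gate (H.right.cvx hM) H.right.nonempty y
  have e : p = p' := by
    refine hM.eq_of_forall_half fun k hk h1 => ?_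
    by_contra h2
    rcases H.symm.clean_right hk ⟨p', hp'.1, h1⟩ ⟨p, hp.1, h2⟩ with h | h
    · exact h2 (hp.mem_of hM hk (h hy0) ⟨p', hp'.1, h1⟩)
    · exact hp'.mem_of hM (hk.compl hM) (h hy) ⟨p, hp.1, h2⟩ h1
  rw [e]
  exact (hp'.2 x hx).symm

theorem IsPi.smul (hc : IsCubulation G X) {A M : Set V} {p : V} (H : IsPi X A M p) (g : G) :
    IsPi X (g • A) (g • M) (g • p) := by
  refine ⟨fun h => H.1 (Set.smul_mem_smul_set_iff.1 h), fun x hx => ?_⟩
  rintro _ ⟨y, hy, rfl⟩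
  obtain ⟨x, rfl⟩ := MulAction.surjective g x
  exact (hc.btw_smul g).2 (H.2 x (fun h => hx (Set.smul_mem_smul_set h)) y hy)

theorem IsPi.mem {A M C : Set V} {p : V} (H : IsPi X A M p) (hC : Cvx X C) {x y : V}
    (hx : x ∈ C) (hx' : x ∉ M) (hy : y ∈ C) (hy' : y ∈ A) : p ∈ C := by
  exact hC x hx y hy p (H.2 x hx' y hy')

/-- `IsHalf.eq_of_inn` -/
theorem adj_step (hM : IsMedian X) {A M : Set V} (hA : IsHalf X A) (hM' : IsHalf X M)
    (h : A ⊂ M) {a b : V} (ha : a ∈ A) (hab : X.Adj a b) : b ∈ M := by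
  by_contra hb
  exact h.ne (IsHalf.eq_of_inn hM hM' hA h.1 ⟨h.1 ha, b, hab, hb⟩ ha)

theorem bar_subset (hM : IsMedian X) {k A M : Set V} (hA : IsHalf X A) (hM' : IsHalf X M)
    (hk : k ⊆ A) (h : A ⊂ M) : bar X k ⊆ M := by
  rintro x (hx | ⟨-, b, hxb, hb⟩)
  · exact h.1 (hk hx)
  · exact adj_step hM hA hM' h (hk (Set.notMem_compl_iff.1 hb)) hxb.symm

theorem meet_of_bar (hM : IsMedian X) {k A M : Set V} (hA : IsHalf X A) (hM' : IsHalf X M)
    (h : A ⊂ M) (H : (A ∩ bar X k).Nonempty) : (M ∩ k).Nonempty := by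
  obtain ⟨x, hxA, hx | ⟨-, b, hxb, hb⟩⟩ := H
  · exact ⟨x, h.1 hxA, hx⟩
  · exact ⟨b, adj_step hM hA hM' h hxA hxb, Set.notMem_compl_iff.1 hb⟩

theorem smul_bar (hc : IsCubulation G X) (g : G) (k : Set V) : g • bar X k = bar X (g • k) := by
  rw [bar, bar, Set.smul_set_union, hc.smul_inn, Set.smul_set_compl]

theorem hull_cvx (hM : IsMedian X) (S : Set V) : Cvx X (hull X S) := by
  intro x hx y hy m hm k hk hS
  exact hk.cvx hM x (hx k hk hS) y (hy k hk hS) m hm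

theorem subset_hull (S : Set V) : S ⊆ hull X S := by
  intro x hx k _ hS
  exact hS hx

theorem hull_subset {S k : Set V} (hk : IsHalf X k) (h : S ⊆ k) : hull X S ⊆ k := by
  intro x hx
  exact hx k hk h

theorem smul_hull (hc : IsCubulation G X) (g : G) (S : Set V) :
    g • hull X S = hull X (g • S) := by
  ext v
  obtain ⟨v, rfl⟩ := MulAction.surjective g v
  rw [Set.smul_mem_smul_set_iff]
  constructor
  · intro hv k hk hS
    obtain ⟨k, rfl⟩ := MulAction.surjective g k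
    have hk' : IsHalf X k := by simpa using hk.smul hc g⁻¹
    exact Set.smul_mem_smul_set (hv k hk' (Set.smul_set_subset_smul_set_iff.1 hS))
  · intro hv k hk hS
    exact Set.smul_mem_smul_set_iff.1 (hv (g • k) (hk.smul hc g) (Set.smul_set_mono hS))

theorem meets_of_hull (hM : IsMedian X) {S k : Set V} (hk : IsHalf X k)
    (h : (k ∩ hull X S).Nonempty) : (k ∩ S).Nonempty := by
  obtain ⟨x, hx1, hx2⟩ := h
  by_contra hn
  exact hx2 kᶜ (hk.compl hM) (fun y hy hyk => hn ⟨y, hyk, hy⟩) hx1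

/-- `IsMedian.exit_edge` -/
theorem cvx_meets_inn (hM : IsMedian X) {C k : Set V} (hC : Cvx X C) {x y : V} (hx : x ∈ C)
    (hx' : x ∈ k) (hy : y ∈ C) (hy' : y ∉ k) : (C ∩ inn X kᶜ).Nonempty := by
  obtain ⟨a, b, hab, ha, hb, -, h2, -⟩ := hM.exit_edge hx' hy'
  exact ⟨b, hC x hx y hy b h2, hb, a, hab.symm, fun h => h ha⟩

/-- `Nest.le_dist` -/
theorem exists_SB (hM : IsMedian X) {P Q : Set V} (hP : P.Nonempty) (hQ : Qᶜ.Nonempty) :
    ∃ t, SB X P Q t := by
  obtain ⟨x, hx⟩ := hP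
  obtain ⟨y, hy⟩ := hQ
  refine ⟨X.dist x y, fun c hc h1 h2 => ?_⟩
  have := Nest.le_dist hM ⟨c, hc, rfl, rfl⟩ (h1 hx) (fun h => hy (h2 h))
  omega

theorem SB.mono {P Q : Set V} {t t' : ℕ} (H : SB X P Q t) (h : t ≤ t') : SB X P Q t' := by
  intro c hc h1
  exact H c ⟨fun i hi => hc.1 i (hi.trans h), fun i hi => hc.2 i (lt_of_lt_of_le hi h)⟩
    (h1.trans (hc.subset h le_rfl))

theorem SB.smul (hc : IsCubulation G X) {P Q : Set V} {t : ℕ} (H : SB X P Q t) (g : G) :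
    SB X (g • P) (g • Q) t := by
  intro c h0 h1 h2
  refine H (fun i => g⁻¹ • c i) ⟨fun i hi => (h0.1 i hi).smul hc g⁻¹,
    fun i hi => smul_ssubset g⁻¹ (h0.2 i hi)⟩ ?_ ?_
  · simpa using (Set.smul_set_mono (a := g⁻¹) h1)
  · simpa using (Set.smul_set_mono (a := g⁻¹) h2)

/-- `sep X p x` is covered by the sets `sep X p t` -/
theorem dist_le_sum (hM : IsMedian X) {x p : V} (T : Finset V)
    (H : ∀ k, IsHalf X k → x ∈ k → ∃ t ∈ T, t ∈ k) :
    X.dist p x ≤ ∑ t ∈ T, X.dist p t := by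
  classical
  have h1 : (hM.sep_finite p x).toFinset ⊆
      T.biUnion fun t => (hM.sep_finite p t).toFinset := by
    intro k hk
    rw [Set.Finite.mem_toFinset] at hk
    obtain ⟨t, ht, htk⟩ := H k hk.1 hk.2.2
    exact Finset.mem_biUnion.2 ⟨t, ht, (Set.Finite.mem_toFinset _).2 ⟨hk.1, hk.2.1, htk⟩⟩
  have h2 := (Finset.card_le_card h1).trans Finset.card_biUnion_le
  rw [hM.dist_eq_ncard, Set.ncard_eq_toFinset_card _ (hM.sep_finite p x)]
  refine h2.trans (le_of_eq (Finset.sum_congr rfl fun t _ => ?_))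
  rw [hM.dist_eq_ncard, Set.ncard_eq_toFinset_card _ (hM.sep_finite p t)]

/-- `b` gate of `x` in `C`; a chain of length `r` in `sep X b x` consists of halfspaces disjoint
from `C` (`IsGate.subset` for the complement); `Nest.le_dist`. -/
theorem near_cvx (hM : IsMedian X) {D : ℕ} (hD : Dim X D) {C : Set V} (hC : Cvx X C)
    (hne : C.Nonempty) {x : V} {r : ℕ}
    (H : ∀ k, IsHalf X k → x ∈ k → Disjoint k C → ∃ p ∈ k, ∃ b ∈ C, X.dist p b ≤ r) :
    ∃ b ∈ C, X.dist x b ≤ D * r := by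
  obtain ⟨b, hb⟩ := hM.exists_gate hC hne x
  refine ⟨b, hb.1, ?_⟩
  by_contra hlt
  rw [not_le, X.dist_comm] at hlt
  obtain ⟨c, h1, h2⟩ := hD.chain_of_dist hM r hlt
  have h3 : ∀ i ≤ r, C ⊆ (c i)ᶜ := fun i hi =>
    hb.subset hM ((h2 i hi).1.compl hM) (fun h => h (h2 i hi).2.2) (h2 i hi).2.1
  obtain ⟨p, hp, b', hb', hd⟩ := H (c r) (h2 r le_rfl).1 (h2 r le_rfl).2.2
    (Set.disjoint_left.2 fun y hy hyC => h3 r le_rfl hyC hy)
  have := Nest.le_dist hM ⟨c, h1, rfl, rfl⟩ hp (h3 0 (Nat.zero_le r) hb')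
  omega

end Pool.Agent.Lib.MP_3467cd_al.Cu
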