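import Pool.Agent.Lib.MP_3467cd_al.CuF2
import Pool.Agent.Lib.MP_3467cd_al.CuL3

open Pointwise

namespace Pool.Agent.Lib.MP_3467cd_al.Cu

variable {G : Type} [Group G] {V : Type} [MulAction G V] {X : SimpleGraph V}

theorem w1_inv (K : Subgroup G) {S : Set V} (H : ∀ g ∈ K, g • S ⊆ S) {h : G} (hh : h ∈ K) :
    h • S = S := by
  refine Set.Subset.antisymm (H h hh) fun x hx => ?_
  exact ⟨h⁻¹ • x, H _ (inv_mem hh) (Set.smul_mem_smul_set hx), smul_inv_smul h x⟩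

namespace WD
variable (D : WD G X)

theorem leaf_e (i : D.I) (c : Col) : D.Leaf (D.S.e (i, c)) (D.hb (i, c)) c := by
  exact ⟨1, one_mem _, i, (one_smul _ _).symm, by rw [map_one, one_smul]⟩

theorem Leaf.plus {D : WD G X} {τ : Ed} {k : Set V} {c : Col} (H : D.Leaf τ k c) :
    D.S.Plus τ := by
  obtain ⟨f, hf, i, h, -⟩ := H
  exact ⟨f, hf, (i, c), h⟩

theorem leaf_of_plus {τ : Ed} (H : D.S.Plus τ) : ∃ k c, D.Leaf τ k c := by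
  obtain ⟨f, hf, ⟨i, c⟩, h⟩ := H
  exact ⟨_, c, f, hf, i, h, rfl⟩

theorem Leaf.half {D : WD G X} (hc : IsCubulation G X) {τ : Ed} {k : Set V} {c : Col}
    (H : D.Leaf τ k c) : IsHalf X k := by
  obtain ⟨f, -, i, -, rfl⟩ := H
  exact (D.half _).smul hc _

theorem Leaf.loc {D : WD G X} {τ : Ed} {k : Set V} {c : Col} (H : D.Leaf τ k c) :
    D.F.Loc k τ := by
  obtain ⟨f, -, i, rfl, rfl⟩ := H
  exact (D.loc (i, c)).smul f

theorem Leaf.smul {D : WD G X} {τ : Ed} {k : Set V} {c : Col} (H : D.Leaf τ k c)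
    {f : FreeGroup Bool} (hf : f ∈ D.S.FY) : D.Leaf (f • τ) (D.F.ι f • k) c := by
  obtain ⟨f', hf', i, rfl, rfl⟩ := H
  exact ⟨f * f', mul_mem hf hf', i, by rw [mul_smul], by rw [map_mul, mul_smul]⟩

/-- `e_inj` and freeness -/
theorem Leaf.unique {D : WD G X} {τ : Ed} {k k' : Set V} {c c' : Col} (H : D.Leaf τ k c)
    (H' : D.Leaf τ k' c') : k = k' ∧ c = c' := by
  obtain ⟨f, hf, i, h1, rfl⟩ := H
  obtain ⟨f', hf', i', h2, rfl⟩ := H'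
  have h3 : (f'⁻¹ * f) • D.S.e (i, c) = D.S.e (i', c') := by
    rw [mul_smul, ← h1, h2, inv_smul_smul]
  have h4 := D.S.e_inj _ (mul_mem (inv_mem hf'.1) hf.1) _ _ h3
  obtain ⟨rfl, rfl⟩ := Prod.mk.inj h4
  have h5 : f' = f := inv_mul_eq_one.1 (Ed.eq_one_of_smul h3)
  exact ⟨by rw [h5], rfl⟩

/-- `inj` -/
theorem Leaf.of_range {D : WD G X} {τ σ : Ed} {k k1 : Set V} {c : Col} (H : D.Leaf τ k c)
    (H' : D.Leaf σ k1 c) {f : FreeGroup Bool} (h : k = D.F.ι f • k1) :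
    f ∈ D.S.FY ∧ τ = f • σ := by
  obtain ⟨f1, hf1, i, rfl, rfl⟩ := H
  obtain ⟨f2, hf2, i', rfl, rfl⟩ := H'
  have h3 : D.F.ι (f1⁻¹ * f * f2) • D.hb (i', c) = D.hb (i, c) := by
    rw [map_mul, map_mul, mul_smul, mul_smul, ← h, map_inv, inv_smul_smul]
  obtain ⟨h4, rfl⟩ := D.inj _ _ _ _ h3
  have h5 : f = f1 * f2⁻¹ := by
    have h6 : f = f1 * (f1⁻¹ * f * f2) * f2⁻¹ := by group
    rw [h6, h4, mul_one]
  subst h5
  exact ⟨mul_mem hf1 (inv_mem hf2), by rw [mul_smul, inv_smul_smul]⟩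

theorem Leaf.lf {D : WD G X} {τ : Ed} {k : Set V} {c : Col} (H : D.Leaf τ k c) : D.Lf k c := by
  exact ⟨1, one_mem _, τ, k, H, (one_smul _ _).symm⟩

theorem sig_inv {s : G} (H : s ∈ D.Sig) : s⁻¹ ∈ D.Sig := by
  obtain ⟨τ, τ', k, k', c, h1, h2, h3⟩ := H
  exact ⟨τ', τ, k', k, c, h2, h1, by rw [h3, inv_smul_smul]⟩

theorem sig_of_FY {f : FreeGroup Bool} (hf : f ∈ D.S.FY) : D.F.ι f ∈ D.Sig := by
  obtain ⟨i, -⟩ := D.S.surj (false, none)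
  exact ⟨_, _, _, _, (false, false, false), (D.leaf_e i _).smul hf, D.leaf_e i _, rfl⟩

theorem sig_mul_left {f : FreeGroup Bool} (hf : f ∈ D.S.FY) {s : G} (H : s ∈ D.Sig) :
    D.F.ι f * s ∈ D.Sig := by
  obtain ⟨τ, τ', k, k', c, h1, h2, h3⟩ := H
  exact ⟨_, τ', _, k', c, h1.smul hf, h2, by rw [h3, mul_smul]⟩

theorem mem_H_of_sig {s : G} (H : s ∈ D.Sig) : s ∈ D.H := Subgroup.subset_closure H

theorem mem_H_of_FY {f : FreeGroup Bool} (hf : f ∈ D.S.FY) : D.F.ι f ∈ D.H :=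
  D.mem_H_of_sig (D.sig_of_FY hf)

theorem Lf.smul {D : WD G X} {k : Set V} {c : Col} (H : D.Lf k c) {h : G} (hh : h ∈ D.H) :
    D.Lf (h • k) c := by
  obtain ⟨h', hh', τ, k0, h1, rfl⟩ := H
  exact ⟨h * h', mul_mem hh hh', τ, k0, h1, by rw [mul_smul]⟩

theorem Lf.half {D : WD G X} (hc : IsCubulation G X) {k : Set V} {c : Col} (H : D.Lf k c) :
    IsHalf X k := by
  obtain ⟨h', -, τ, k0, h1, rfl⟩ := H
  exact (h1.half hc).smul hc _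

theorem Port.smul {D : WD G X} {k : Set V} {c : Col} {s : G} {ρ : Ed} (H : D.Port k c s ρ)
    {h : G} (hh : h ∈ D.H) : D.Port (h • k) c (h * s) ρ := by
  obtain ⟨h1, h2, σ, k1, h3, rfl, h4⟩ := H
  exact ⟨mul_mem hh h1, h2, σ, k1, h3, by rw [mul_smul], h4⟩

theorem smul_Up {h : G} (hh : h ∈ D.H) : h • D.Up = D.Up := by
  refine w1_inv D.H (fun g hg => ?_) hh
  rintro _ ⟨x, ⟨k, c, h1, h2⟩, rfl⟩
  exact ⟨g • k, c, h1.smul hg, Set.smul_mem_smul_set h2⟩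

theorem smul_Sk (hc : IsCubulation G X) {h : G} (hh : h ∈ D.H) : h • D.Sk = D.Sk := by
  refine w1_inv D.H (fun g hg => ?_) hh
  rintro _ ⟨x, ⟨k, c, h1, h2⟩, rfl⟩
  refine ⟨g • k, c, h1.smul hg, ?_⟩
  rw [← Set.smul_set_compl, ← hc.smul_inn]
  exact Set.smul_mem_smul_set h2

theorem smul_Co (hc : IsCubulation G X) {h : G} (hh : h ∈ D.H) : h • D.Co = D.Co := by
  rw [Co, smul_hull hc, D.smul_Sk hc hh]

theorem smul_Um (hc : IsCubulation G X) {h : G} (hh : h ∈ D.H) : h • D.Um = D.Um := by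
  rw [Um, Set.smul_set_compl, Set.smul_set_union, D.smul_Up hh, D.smul_Co hc hh]

/-- every tree cut by a leaf carries a local wall of the wall (`uni`) -/
theorem full {k : Set V} {c : Col} (hc : IsCubulation G X) (H : D.Lf k c) {g : G} {σ : Ed}
    (hl : D.F.Loc (g⁻¹ • k) σ) : ∃ f : FreeGroup Bool, g * D.F.ι f ∈ D.H ∧
      ∃ τ k0, D.Leaf τ k0 c ∧ σ = f • τ ∧ k = (g * D.F.ι f) • k0 := by
  obtain ⟨i, f, h1, h2⟩ := D.uni _ σ ((H.half hc).smul hc _) hl c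
  obtain ⟨h, hh, τ0, k0, h3, h4⟩ := H
  have h5 : k = (g * D.F.ι f) • D.hb (i, c) := by rw [mul_smul, ← h1, smul_inv_smul]
  have h6 : h⁻¹ * (g * D.F.ι f) ∈ D.Sig :=
    ⟨τ0, _, k0, _, c, h3, D.leaf_e i c, by rw [mul_smul, ← h5, h4, inv_smul_smul]⟩
  refine ⟨f, ?_, _, _, D.leaf_e i c, h2, h5⟩
  have h7 := mul_mem hh (D.mem_H_of_sig h6)
  rwa [mul_inv_cancel_left] at h7

/-- `rstar` for `h` and `hᶜ`, `loc_of_sub`, `uni` -/
theorem cover (hc : IsCubulation G X) {h : Set V} (hh : IsHalf X h) (c : Col) :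
    ∃ (γ : G) (τ : Ed) (k0 : Set V), D.Leaf τ k0 c ∧ h = γ • k0 := by
  obtain ⟨a, ha⟩ := hh.inn_nonempty
  obtain ⟨g, ω, h1, h2⟩ := D.F.rstar hᶜ h (hh.compl hc.median) hh
    ⟨a, ha.1, by rwa [compl_compl]⟩
  have h3 : D.F.μ ω ⊆ g⁻¹ • h :=
    Set.smul_set_subset_iff_subset_inv_smul_set.1 (h1.trans Set.inter_subset_left)
  have h4 : D.F.μ ω.rev ⊆ (g⁻¹ • h)ᶜ := by
    rw [← Set.smul_set_compl]
    exact Set.smul_set_subset_iff_subset_inv_smul_set.1 h2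
  obtain ⟨i, f, h5, -⟩ := D.uni _ ω (hh.smul hc _) (D.F.loc_of_sub h3 h4) c
  exact ⟨g * D.F.ι f, _, _, D.leaf_e i c, by rw [mul_smul, ← h5, smul_inv_smul]⟩

/-- One step. `s • μ α ⊆ k ⊆ μ τ2` for `Next α σ`, so `mal` excludes ends of `s T` in
`μ τ2.rev`; `clean2` with `w` the second edge of the chain from `σ` to `ρ.rev`. -/
theorem step (hc : IsCubulation G X) {τ σ : Ed} {k k1 : Set V} {c : Col} (H : D.Leaf τ k c)
    (H' : D.Leaf σ k1 c) {s : G} (hk : k = s • k1) (hs : s ∉ D.F.ι.range) {τ2 ρ : Ed}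
    (h2 : Ch 2 τ τ2) (h3 : Ch 3 σ ρ.rev) : s • D.F.ν ρ ⊆ D.F.ν τ2 := by
  obtain ⟨τ1, a1, a2⟩ := ch_two.1 h2
  obtain ⟨w1, w2, b1, b2, b3⟩ := ch_three.1 h3
  obtain ⟨α, -, -, hα, -⟩ := exists_two_next σ
  obtain ⟨β, -, -, hβ, -⟩ := exists_two_next τ
  have e1 : k ⊆ D.F.μ τ2 := (H.loc.sub_ν a1.dp).trans (D.F.ν_sub_μ a2.dp)
  have e2 : k1 ⊆ D.F.μ w2 := (H'.loc.sub_ν b1.dp).trans (D.F.ν_sub_μ b2.dp)
  have e3 : s • D.F.μ α ⊆ D.F.μ τ2 := by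
    refine Set.Subset.trans ?_ e1
    rw [hk]
    exact Set.smul_set_mono (H'.loc.1 α hα)
  have e4 : D.F.μ β ⊆ s • D.F.μ w2 := by
    refine (H.loc.1 β hβ).trans ?_
    rw [hk]
    exact Set.smul_set_mono e2
  have e5 : Next ρ w2.rev := by simpa using b3.rev
  have e6 : D.F.End 1 (D.F.μ τ2.rev) := ⟨τ2.rev, by rw [one_smul]⟩
  have e7 : D.F.End 1 (D.F.μ τ2.rev)ᶜ := ⟨τ2, by rw [one_smul]; exact D.F.μ_sub_ν τ2⟩
  rcases D.F.clean2 hc hs e4 e5 (D.F.μ_half _) e6 e7 with h | h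
  · exact absurd (D.F.mal s ρ α τ2 (((Set.smul_set_mono (D.F.μ_sub_ν ρ)).trans h).trans
      (D.F.μ_sub_z _)) e3) hs
  · exact h

end WD

end Pool.Agent.Lib.MP_3467cd_al.Cu
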