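import Pool.Agent.Lib.MP_3467cd_al.CuW1

open Pointwise

namespace Pool.Agent.Lib.MP_3467cd_al.Cu

variable {G : Type} [Group G] {V : Type} [MulAction G V] {X : SimpleGraph V}

namespace WD
variable (D : WD G X)

/-- `Subgroup.closure_induction_left`, `sig_inv` -/
theorem exists_pth {h : G} (hh : h ∈ D.H) : ∃ n, D.Pth n h := by
  unfold H at hh
  induction hh using Subgroup.closure_induction_left with
  | one =>
    refine ⟨0, ?_⟩
    have := Pth.zero (D := D) (one_mem D.S.FY)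
    rwa [map_one] at this
  | mul_left x hx y _ ih =>
    obtain ⟨n, hn⟩ := ih
    exact ⟨n + 1, Pth.cons hx hn⟩
  | inv_mul_cancel x hx y _ ih =>
    obtain ⟨n, hn⟩ := ih
    exact ⟨n + 1, Pth.cons (D.sig_inv hx) hn⟩

theorem Pth.mem {D : WD G X} {n : ℕ} {h : G} (H : D.Pth n h) : h ∈ D.H := by
  induction H with
  | zero hf => exact D.mem_H_of_FY hf
  | cons hs _ ih => exact mul_mem (D.mem_H_of_sig hs) ih

theorem Pth.mul_left {D : WD G X} {n : ℕ} {h : G} (H : D.Pth n h) {f : FreeGroup Bool}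
    (hf : f ∈ D.S.FY) : D.Pth n (D.F.ι f * h) := by
  cases H with
  | zero hf' =>
    rw [← map_mul]
    exact Pth.zero (mul_mem hf hf')
  | cons hs H' =>
    rw [← mul_assoc]
    exact Pth.cons (D.sig_mul_left hf hs) H'

theorem w2_zero {h : G} (H : D.Pth 0 h) : ∃ f ∈ D.S.FY, h = D.F.ι f := by
  cases H with
  | zero hf => exact ⟨_, hf, rfl⟩

theorem w2_head {n : ℕ} {h : G} (H : D.Pth (n + 1) h) (hmin : ¬ D.Pth n h) :
    ∃ (s h' : G) (τ σ : Ed) (k k1 : Set V) (c : Col), h = s * h' ∧ D.Pth n h' ∧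
      D.Leaf τ k c ∧ D.Leaf σ k1 c ∧ k = s • k1 ∧ s ∉ D.F.ι.range := by
  cases H with
  | @cons _ s h' hs H' =>
    obtain ⟨τ, σ, k, k1, c, L, L1, hk⟩ := hs
    refine ⟨s, h', τ, σ, k, k1, c, rfl, H', L, L1, hk, ?_⟩
    rintro ⟨f, rfl⟩
    exact hmin (H'.mul_left (L.of_range L1 hk).1)

theorem w2_sub (hc : IsCubulation G X) {τ σ : Ed} {k k1 : Set V} {c c' : Col} (L : D.Leaf τ k c)
    (L1 : D.Leaf σ k1 c) {s : G} (hk : k = s • k1) (hs : s ∉ D.F.ι.range) {m : Set V}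
    (alt : (m = k ∧ c' = c) ∨
      ∃ ρ w, Ch 3 σ ρ.rev ∧ D.S.Int ρ ∧ Dp 1 w ρ ∧ m ⊆ s • D.F.ν w) {τ2 : Ed}
    (h2 : Ch 2 τ τ2) : m ⊆ D.F.ν τ2 := by
  rcases alt with ⟨rfl, -⟩ | ⟨ρ, w, h3, -, hd, hm⟩
  · exact L.loc.sub_ν (h2.dp (by norm_num))
  · exact hm.trans ((Set.smul_set_mono (D.F.ν_mono hd)).trans (D.step hc L L1 hk hs h2 h3))

/-- Induction on `n`. Write `h = s * h'` with `k = s • k1`; minimality gives `s ∉ range ι`
(`of_range`, `mul_left`) and minimality of `h'`. If `n = 0`, `h' = ι f` and `h' • k'` is a leaf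
at `f • σ'`; either that edge is `σ`, or use `exists_third`, `Loc.sub_ν`. If `n > 0` the first
leaf `τ'` of `h'` differs from `σ` (otherwise `s * s' ∈ Sig` shortens the path), all leaves of
`h' Y` lie in `ν w` for `Ch 2 τ' w` (`step`), and `exists_third` for `σ, τ'` gives `ρ`. -/
theorem claim (hc : IsCubulation G X) (n : ℕ) : ∀ h, D.Pth (n + 1) h →
    (∀ m ≤ n, ¬ D.Pth m h) → ∃ (s h' : G) (τ σ : Ed) (k k1 : Set V) (c : Col),
      h = s * h' ∧ D.Pth n h' ∧ D.Leaf τ k c ∧ D.Leaf σ k1 c ∧ k = s • k1 ∧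
      s ∉ D.F.ι.range ∧ ∀ σ' k' c', D.Leaf σ' k' c' → (h • k' = k ∧ c' = c) ∨
        ∃ ρ w, Ch 3 σ ρ.rev ∧ D.S.Int ρ ∧ Dp 1 w ρ ∧ h • k' ⊆ s • D.F.ν w := by
  have hA : Acyc := D.F.acyc
  induction n with
  | zero =>
    intro h H hmin
    obtain ⟨s, h', τ, σ, k, k1, c, rfl, H', L, L1, hk, hs⟩ := D.w2_head H (hmin 0 le_rfl)
    refine ⟨s, h', τ, σ, k, k1, c, rfl, H', L, L1, hk, hs, ?_⟩
    intro σ' k' c' L'
    obtain ⟨f, hf, rfl⟩ := D.w2_zero H'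
    have L2 := L'.smul hf
    by_cases e : σ = f • σ'
    · left
      rw [← e] at L2
      obtain ⟨e1, e2⟩ := L2.unique L1
      exact ⟨by rw [mul_smul, e1, hk], e2⟩
    · right
      obtain ⟨ρ, h3, hi, hd⟩ := D.S.exists_third hA L1.plus L2.plus e
      obtain ⟨w, hw, hw'⟩ := Dp.split (a := 2) (b := 1) hd
      refine ⟨ρ, w, h3, hi, hw', ?_⟩
      rw [mul_smul]
      exact Set.smul_set_mono (L2.loc.sub_ν (hw.dp (by norm_num)))
  | succ n ih =>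
    intro h H hmin
    obtain ⟨s, h', τ, σ, k, k1, c, rfl, H', L, L1, hk, hs⟩ := D.w2_head H (hmin _ le_rfl)
    refine ⟨s, h', τ, σ, k, k1, c, rfl, H', L, L1, hk, hs, ?_⟩
    have hsig : s ∈ D.Sig := ⟨τ, σ, k, k1, c, L, L1, hk⟩
    obtain ⟨s', h'', τ', σ1, kk, kk1, c1, rfl, H'', M, M1, hkk, hs', alt⟩ :=
      ih h' H' fun m hm Hm => hmin (m + 1) (by omega) (Pth.cons hsig Hm)
    have e : σ ≠ τ' := by
      rintro rfl
      obtain ⟨e1, e2⟩ := M.unique L1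
      subst e1 e2
      have h1 : s * s' ∈ D.Sig := ⟨τ, σ1, k, kk1, c1, L, M1, by rw [hk, hkk, mul_smul]⟩
      have h2 := Pth.cons h1 H''
      rw [mul_assoc] at h2
      exact hmin _ le_rfl h2
    obtain ⟨ρ, h3, hi, hd⟩ := D.S.exists_third hA L1.plus M.plus e
    obtain ⟨w, hw, hw'⟩ := Dp.split (a := 2) (b := 1) hd
    intro σ' k' c' L'
    right
    refine ⟨ρ, w, h3, hi, hw', ?_⟩
    rw [mul_smul]
    exact Set.smul_set_mono (D.w2_sub hc M M1 hkk hs' (alt σ' k' c' L') hw)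

theorem w2_min (hc : IsCubulation G X) {h : G} (hh : h ∈ D.H) :
    (∃ f ∈ D.S.FY, h = D.F.ι f) ∨ ∃ (s : G) (τ σ : Ed) (k k1 : Set V) (c : Col),
      D.Leaf τ k c ∧ D.Leaf σ k1 c ∧ k = s • k1 ∧
      s ∉ D.F.ι.range ∧ ∀ σ' k' c', D.Leaf σ' k' c' → (h • k' = k ∧ c' = c) ∨
        ∃ ρ w, Ch 3 σ ρ.rev ∧ D.S.Int ρ ∧ Dp 1 w ρ ∧ h • k' ⊆ s • D.F.ν w := by
  classical
  have hex := D.exists_pth hh
  have h1 := Nat.find_spec hex
  have h2 : ∀ m < Nat.find hex, ¬ D.Pth m h := fun m hm => Nat.find_min hex hm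
  generalize Nat.find hex = n at h1 h2
  cases n with
  | zero => exact Or.inl (D.w2_zero h1)
  | succ n =>
    obtain ⟨s, h', τ, σ, k, k1, c, -, -, L, L1, hk, hs, alt⟩ :=
      D.claim hc n h h1 fun m hm => h2 m (by omega)
    exact Or.inr ⟨s, τ, σ, k, k1, c, L, L1, hk, hs, alt⟩

theorem w2_base (hc : IsCubulation G X) {τ0 : Ed} {k k' : Set V} {c c' : Col}
    (L0 : D.Leaf τ0 k c) (H' : D.Lf k' c') (hne : ¬ (k' = k ∧ c' = c)) :
    ∃ s ρ w, D.Port k c s ρ ∧ Dp 1 w ρ ∧ k' ⊆ s • D.F.ν w := by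
  have hA : Acyc := D.F.acyc
  have base : ∀ τ, D.S.Plus τ → τ0 ≠ τ → (∀ τ2, Ch 2 τ τ2 → k' ⊆ D.F.ν τ2) →
      ∃ s ρ w, D.Port k c s ρ ∧ Dp 1 w ρ ∧ k' ⊆ s • D.F.ν w := by
    intro τ hp e hsub
    obtain ⟨ρ, h3, hi, hd⟩ := D.S.exists_third hA L0.plus hp e
    obtain ⟨w, hw, hw'⟩ := Dp.split (a := 2) (b := 1) hd
    refine ⟨1, ρ, w, ⟨one_mem _, hi, τ0, k, L0, (one_smul _ _).symm, h3⟩, hw', ?_⟩
    rw [one_smul]
    exact hsub w hw
  obtain ⟨h, hh, τ1, k0, L1, rfl⟩ := H'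
  rcases D.w2_min hc hh with ⟨f, hf, rfl⟩ | ⟨s, τ, σ, a, a1, c1, L, L2, hk, hs, alt⟩
  · have L := L1.smul hf
    refine base _ L.plus ?_ fun τ2 h2 => L.loc.sub_ν (h2.dp (by norm_num))
    rintro rfl
    exact hne (L.unique L0)
  · by_cases e : τ0 = τ
    · subst e
      obtain ⟨e1, e2⟩ := L.unique L0
      subst e1 e2
      rcases alt _ _ _ L1 with h1 | ⟨ρ, w, h3, hi, hd, hm⟩
      · exact absurd h1 hne
      · exact ⟨s, ρ, w, ⟨D.mem_H_of_sig ⟨_, _, _, _, _, L, L2, hk⟩, hi, σ, a1, L2, hk, h3⟩,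
          hd, hm⟩
    · exact base τ L.plus e fun τ2 h2 => D.w2_sub hc L L2 hk hs (alt _ _ _ L1) h2

/-- every leaf of the wall hangs at a leaf of the base local wall -/
theorem branchY (hc : IsCubulation G X) {k' : Set V} {c' : Col} (H : D.Lf k' c') :
    ∃ τ, D.S.Plus τ ∧ ∀ τ2, Ch 2 τ τ2 → k' ⊆ D.F.ν τ2 := by
  obtain ⟨h, hh, τ0, k0, L0, rfl⟩ := H
  rcases D.w2_min hc hh with ⟨f, hf, rfl⟩ | ⟨s, τ, σ, k, k1, c, L, L1, hk, hs, alt⟩
  · have L := L0.smul hf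
    exact ⟨_, L.plus, fun τ2 h2 => L.loc.sub_ν (h2.dp (by norm_num))⟩
  · exact ⟨τ, L.plus, fun τ2 h2 => D.w2_sub hc L L1 hk hs (alt _ _ _ L0) h2⟩

/-- seen from a leaf, every other leaf lies behind a port -/
theorem branchL (hc : IsCubulation G X) {k k' : Set V} {c c' : Col} (H : D.Lf k c)
    (H' : D.Lf k' c') (hne : ¬ (k' = k ∧ c' = c)) :
    ∃ s ρ w, D.Port k c s ρ ∧ Dp 1 w ρ ∧ k' ⊆ s • D.F.ν w := by
  obtain ⟨h, hh, τ0, k0, L0, rfl⟩ := H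
  have H2 := H'.smul (inv_mem hh)
  obtain ⟨s, ρ, w, hp, hd, hs⟩ := D.w2_base hc L0 H2 (by
    rintro ⟨e1, e2⟩
    exact hne ⟨by rw [← e1, smul_inv_smul], e2⟩)
  refine ⟨h * s, ρ, w, hp.smul hh, hd, ?_⟩
  rw [mul_smul]
  exact Set.subset_smul_set_iff.2 hs

theorem Port.leaf_sub {D : WD G X} {k : Set V} {c : Col} {s : G} {ρ : Ed}
    (H : D.Port k c s ρ) : ∃ w, Next w ρ.rev ∧ k ⊆ s • D.F.μ w := by
  obtain ⟨-, -, σ, k1, L, rfl, h3⟩ := H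
  obtain ⟨w1, w2, n1, n2, n3⟩ := ch_three.1 h3
  exact ⟨w2, n3, Set.smul_set_mono ((L.loc.sub_ν n1.dp).trans (D.F.ν_sub_μ n2.dp))⟩

/-- distinct leaves are strongly separated, with room to spare -/
theorem lf_sd (hc : IsCubulation G X) {k k' : Set V} {c c' : Col} (H : D.Lf k c)
    (H' : D.Lf k' c') (hne : ¬ (k' = k ∧ c' = c)) :
    ∃ A B, SD X A B ∧ bar X k ⊆ A ∧ bar X k' ⊆ B := by
  obtain ⟨s, ρ, w, hp, hd, hs⟩ := D.branchL hc H H' hne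
  obtain ⟨w', hn, hs'⟩ := hp.leaf_sub
  refine ⟨s • D.F.μ ρ.rev, s • D.F.μ ρ, (D.F.sd_rev ρ).symm.smul hc s, ?_, ?_⟩
  · exact bar_subset hc.median ((D.F.μ_half w').smul hc s) ((D.F.μ_half _).smul hc s) hs'
      (smul_ssubset s (D.F.μ_ssub hn.dp))
  · exact bar_subset hc.median ((D.F.ν_half w).smul hc s) ((D.F.μ_half _).smul hc s) hs
      (smul_ssubset s (D.F.ν_ssub_μ hd))

/-- connectivity of the wall -/
theorem connW (Q : Set V → Prop) {k1 k2 : Set V} {c1 c2 : Col} (H1 : D.Lf k1 c1)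
    (H2 : D.Lf k2 c2) (q1 : Q k1) (q2 : ¬ Q k2) : ∃ h ∈ D.H, ∃ τ k c τ' k' c',
      D.Leaf τ k c ∧ D.Leaf τ' k' c' ∧ Q (h • k) ∧ ¬ Q (h • k') := by
  by_contra hcon
  have key : ∀ h ∈ D.H, ∀ τ k c τ' k' c', D.Leaf τ k c → D.Leaf τ' k' c' → Q (h • k) →
      Q (h • k') := by
    intro h hh τ k c τ' k' c' L L' q
    by_contra q'
    exact hcon ⟨h, hh, τ, k, c, τ', k', c', L, L', q, q'⟩
  have prop : ∀ n g, D.Pth n g → ∀ h ∈ D.H, (∀ τ k c, D.Leaf τ k c → Q (h • k)) →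
      ∀ τ k c, D.Leaf τ k c → Q ((h * g) • k) := by
    intro n g Hg
    induction Hg with
    | zero hf =>
      intro h _ P τ k c L
      rw [mul_smul]
      exact P _ _ _ (L.smul hf)
    | @cons n s g' hs _ ih =>
      intro h hh P
      have hs' := mul_mem hh (D.mem_H_of_sig hs)
      rw [← mul_assoc]
      refine ih (h * s) hs' ?_
      obtain ⟨τ, σ, k, kk, c, L, L1, hk⟩ := hs
      intro τ' k' c' L'
      refine key _ hs' σ kk c τ' k' c' L1 L' ?_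
      rw [mul_smul, ← hk]
      exact P _ _ _ L
  obtain ⟨h1, hh1, τ1, a1, L1, rfl⟩ := H1
  obtain ⟨h2, hh2, τ2, a2, L2, rfl⟩ := H2
  obtain ⟨n, hn⟩ := D.exists_pth (mul_mem (inv_mem hh1) hh2)
  have := prop n _ hn h1 hh1 (fun τ k c L => key h1 hh1 τ1 a1 c1 τ k c L1 L q1) τ2 a2 c2 L2
  rw [mul_inv_cancel_left] at this
  exact q2 this

end WD

end Pool.Agent.Lib.MP_3467cd_al.Cu
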