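import Pool.Agent.Lib.MP_3467cd_al.CuW2

open Pointwise

namespace Pool.Agent.Lib.MP_3467cd_al.Cu

variable {G : Type} [Group G] {V : Type} [MulAction G V] {X : SimpleGraph V}

namespace WD
variable (D : WD G X)

theorem co_subset (hc : IsCubulation G X) {k : Set V} {c : Col} (H : D.Lf k c) :
    D.Co ⊆ kᶜ := by
  refine hull_subset ((H.half hc).compl hc.median) ?_
  rintro x ⟨k', c', H', hx⟩
  by_cases hne : k' = k ∧ c' = c
  · rw [← hne.1]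
    exact hx.1
  · obtain ⟨A, B, hs, h1, h2⟩ := D.lf_sd hc H H' hne
    intro hk
    exact Set.disjoint_left.1 hs.disj (h1 (Or.inl hk)) (h2 (Or.inr hx))

theorem co_nonempty (hc : IsCubulation G X) : D.Co.Nonempty := by
  obtain ⟨i, -⟩ := D.S.surj (true, none)
  have H := (D.leaf_e i (true, true, true)).lf
  obtain ⟨x, hx⟩ := ((H.half hc).compl hc.median).inn_nonempty
  exact ⟨x, subset_hull _ ⟨_, _, H, hx⟩⟩

theorem inn_subset_co {k : Set V} {c : Col} (H : D.Lf k c) : inn X kᶜ ⊆ D.Co := by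
  intro x hx
  exact subset_hull _ ⟨_, _, H, hx⟩

theorem disjoint_co_up (hc : IsCubulation G X) : Disjoint D.Co D.Up := by
  refine Set.disjoint_left.2 ?_
  rintro x hx ⟨k, c, H, hk⟩
  exact D.co_subset hc H hx hk

/-- a convex set missing the core lies in a leaf or on the negative side (`cvx_meets_inn`) -/
theorem cvx_side (hc : IsCubulation G X) {C : Set V} (hC : Cvx X C) (hd : Disjoint C D.Co) :
    (∃ k c, D.Lf k c ∧ C ⊆ k) ∨ C ⊆ D.Um := by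
  by_cases h : C ⊆ D.Um
  · exact Or.inr h
  left
  obtain ⟨x, hx, hx'⟩ := Set.not_subset.1 h
  have hx2 : x ∈ D.Up ∪ D.Co := by
    by_contra h'
    exact hx' h'
  rcases hx2 with ⟨k, c, H, hk⟩ | hx2
  · refine ⟨k, c, H, fun y hy => ?_⟩
    by_contra hy'
    obtain ⟨z, hz, hz'⟩ := cvx_meets_inn hc.median hC hx hk hy hy'
    exact Set.disjoint_left.1 hd hz (D.inn_subset_co H hz')
  · exact (Set.disjoint_left.1 hd hx hx2).elim

theorem sub_um (hc : IsCubulation G X) {b : Set V} (hb : IsHalf X b)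
    (H : ∀ k c, D.Lf k c → Disjoint b (bar X k)) : b ⊆ D.Um := by
  rintro x hx (⟨k, c, H', hk⟩ | hx')
  · exact Set.disjoint_left.1 (H k c H') hx (Or.inl hk)
  · obtain ⟨z, hz, k, c, H', hz'⟩ := meets_of_hull hc.median hb ⟨x, hx, hx'⟩
    exact Set.disjoint_left.1 (H k c H') hz (Or.inr hz')

theorem un (hc : IsCubulation G X) (ε : Bool) {x : V} (hx : x ∈ D.U ε) :
    ∃ k, IsHalf X k ∧ x ∈ k ∧ k ⊆ D.U ε := by
  cases ε with
  | true =>
    obtain ⟨k, c, H, hk⟩ := hx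
    exact ⟨k, H.half hc, hk, fun y hy => ⟨k, c, H, hy⟩⟩
  | false =>
    have hx' : x ∉ D.Up ∪ D.Co := hx
    have h1 : x ∉ hull X D.Sk := fun h => hx' (Or.inr h)
    have h2 : ∃ k, IsHalf X k ∧ D.Sk ⊆ k ∧ x ∉ k := by
      by_contra h
      refine h1 fun k hk hs => ?_
      by_contra h'
      exact h ⟨k, hk, hs, h'⟩
    obtain ⟨k, hk, hs, hxk⟩ := h2
    have hk' := hk.compl hc.median
    have hd : Disjoint kᶜ D.Co :=
      Set.disjoint_left.2 fun y hy hy' => hy (hull_subset hk hs hy')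
    rcases D.cvx_side hc (hk'.cvx hc.median) hd with ⟨k', c, H, h⟩ | h
    · exact (hx' (Or.inl ⟨k', c, H, h hxk⟩)).elim
    · exact ⟨kᶜ, hk', hxk, h⟩

/-- `branchY`, `face`, `bar_subset` -/
theorem minus_sub (hc : IsCubulation G X) {κ : Ed} (H : D.S.Minus κ) : D.F.ν κ ⊆ D.Um := by
  refine D.sub_um hc (D.F.ν_half κ) fun k c Hk => ?_
  obtain ⟨τ, hτ, h⟩ := D.branchY hc Hk
  have hne : τ ≠ κ := fun e => H.2 (e ▸ hτ)
  have h3 : Dp (2 + 1) τ κ.rev := D.S.face D.F.acyc (D.S.plus_out hτ) H.1 hne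
  obtain ⟨τ2, h4, h5⟩ := h3.split
  have h6 : bar X k ⊆ D.F.μ κ.rev :=
    bar_subset hc.median (D.F.ν_half τ2) (D.F.μ_half _) (h τ2 h4) (D.F.ν_ssub_μ h5)
  exact Set.disjoint_left.2 fun x hx hx' => hx (h6 hx')

/-- `dens_plus` with depth 2 -/
theorem int_leaf (hc : IsCubulation G X) {ρ : Ed} (H : D.S.Int ρ) :
    ∃ τ k c, D.Leaf τ k c ∧ bar X k ⊆ D.F.μ ρ := by
  obtain ⟨i, -⟩ := D.S.surj (true, none)
  obtain ⟨f, hf, h⟩ := D.S.dens_plus D.F.acyc H (i, (true, true, true)) (1 + 1)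
  have HL := (D.leaf_e i (true, true, true)).smul hf
  obtain ⟨τ1, h1, h2⟩ := h.split
  exact ⟨_, _, _, HL, bar_subset hc.median (D.F.ν_half τ1) (D.F.μ_half _)
    (HL.loc.sub_ν (h1.dp le_rfl)) (D.F.ν_ssub_μ h2)⟩

theorem int_co (hc : IsCubulation G X) {ρ : Ed} (H : D.S.Int ρ) :
    (D.F.μ ρ ∩ D.Co).Nonempty := by
  obtain ⟨τ, k, c, HL, h⟩ := D.int_leaf hc H
  obtain ⟨x, hx⟩ := ((HL.half hc).compl hc.median).inn_nonempty
  exact ⟨x, h (Or.inr hx), D.inn_subset_co HL.lf hx⟩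

/-- `meets_of_hull`, `rstar`, `loc_of_sub`, `full`, `int_behind` -/
theorem ess0 (hc : IsCubulation G X) {b : Set V} (hb : IsHalf X b) (H : (b ∩ D.Co).Nonempty) :
    ∃ h ∈ D.H, ∃ ρ, D.S.Int ρ ∧ h • D.F.μ ρ ⊆ b := by
  obtain ⟨x, hx, k, c, Hk, hx'⟩ := meets_of_hull hc.median hb H
  obtain ⟨g, ω, h1, h2⟩ := D.F.rstar k b (Hk.half hc) hb ⟨x, hx, hx'⟩
  have hl : D.F.Loc (g⁻¹ • k) ω.rev := by
    refine D.F.loc_of_sub (Set.smul_set_subset_iff_subset_inv_smul_set.1 h2) ?_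
    rw [Ed.rev_rev, ← Set.smul_set_compl]
    exact Set.smul_set_subset_iff_subset_inv_smul_set.1 (h1.trans Set.inter_subset_right)
  obtain ⟨f, hf, τ, k0, HL, e1, -⟩ := D.full hc Hk hl
  obtain ⟨ρ, -, -, hρ, -⟩ := exists_two_next τ.rev
  refine ⟨g * D.F.ι f, hf, ρ, D.S.int_behind (D.S.plus_out HL.plus) hρ, ?_⟩
  have e2 : ω = f • τ.rev := by rw [← Ed.smul_rev, ← e1, Ed.rev_rev]
  calc (g * D.F.ι f) • D.F.μ ρ ⊆ (g * D.F.ι f) • D.F.μ τ.rev :=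
        Set.smul_set_mono (D.F.μ_mono hρ.dp)
    _ = g • D.F.μ ω := by rw [e2, D.F.μ_smul, mul_smul]
    _ ⊆ b := h1.trans Set.inter_subset_left

theorem leaf_in (hc : IsCubulation G X) {b : Set V} (hb : IsHalf X b)
    (H : (b ∩ D.Co).Nonempty) : ∃ k c, D.Lf k c ∧ k ⊆ b := by
  obtain ⟨h, hh, ρ, hρ, h1⟩ := D.ess0 hc hb H
  obtain ⟨τ, k, c, HL, h2⟩ := D.int_leaf hc hρ
  exact ⟨h • k, c, HL.lf.smul hh,
    (Set.smul_set_mono (Set.subset_union_left.trans h2)).trans h1⟩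

theorem nl (hc : IsCubulation G X) {b : Set V} (hb : IsHalf X b) (H : (b ∩ D.Co).Nonempty)
    (ε : Bool) : (b ∩ D.U ε).Nonempty := by
  cases ε with
  | true =>
    obtain ⟨k, c, Hk, h⟩ := D.leaf_in hc hb H
    obtain ⟨x, hx⟩ := (Hk.half hc).nonempty
    exact ⟨x, h hx, k, c, Hk, hx⟩
  | false =>
    obtain ⟨h, hh, ρ, hρ, h1⟩ := D.ess0 hc hb H
    obtain ⟨κ, hκ, h2⟩ := D.S.dens_minus D.F.acyc hρ
    obtain ⟨x, hx⟩ := (D.F.ν_half κ).nonempty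
    refine ⟨h • x, h1 (Set.smul_mem_smul_set (D.F.ν_sub_μ h2 hx)), ?_⟩
    have h3 : h • x ∈ h • D.Um := Set.smul_mem_smul_set (D.minus_sub hc hκ hx)
    rwa [D.smul_Um hc hh] at h3

theorem btw (hc : IsCubulation G X) {x y : V} (hx : x ∈ D.Up) (hy : y ∈ D.Um) :
    ∃ z ∈ D.Co, X.dist x z ≤ X.dist x y := by
  obtain ⟨k, c, H, hk⟩ := hx
  have hy' : y ∉ k := fun h => hy (Or.inl ⟨k, c, H, h⟩)
  obtain ⟨a, b, hab, ha, hb, -, h1, -⟩ := hc.median.exit_edge hk hy'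
  refine ⟨b, D.inn_subset_co H ⟨hb, a, hab.symm, fun h => h ha⟩, ?_⟩
  unfold Btw at h1
  omega

theorem w3_leaf (hc : IsCubulation G X) {g : G} {k : Set V} {c : Col} (Hk : D.Lf k c)
    (h : g • D.Co ⊆ k) : ∃ ε, Disjoint D.Um (g • D.U ε) := by
  have hM := hc.median
  have hu : D.Um ⊆ kᶜ := fun x hx hk => hx (Or.inl ⟨k, c, Hk, hk⟩)
  have hd : Disjoint (g⁻¹ • kᶜ) D.Co :=
    Set.disjoint_left.2 fun y hy hy' =>
      Set.mem_inv_smul_set_iff.1 hy (h (Set.smul_mem_smul_set hy'))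
  rcases D.cvx_side hc ((((Hk.half hc).compl hM).smul hc g⁻¹).cvx hM) hd with
    ⟨k', c', Hk', h2⟩ | h2
  · refine ⟨false, Set.disjoint_left.2 fun x hx hx' => ?_⟩
    exact Set.mem_smul_set_iff_inv_smul_mem.1 hx'
      (Or.inl ⟨k', c', Hk', h2 (Set.smul_mem_smul_set (hu hx))⟩)
  · refine ⟨true, Set.disjoint_left.2 fun x hx hx' => ?_⟩
    exact h2 (Set.smul_mem_smul_set (hu hx)) (Or.inl (Set.mem_smul_set_iff_inv_smul_mem.1 hx'))

/-- If the cores are disjoint apply `cvx_side` to each; in each of the four cases one quarter is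
empty (`cvx_meets_inn`). -/
theorem meet (hc : IsCubulation G X) (g : G)
    (H : ∀ ε ε', (D.U ε ∩ g • D.U ε').Nonempty) : (D.Co ∩ g • D.Co).Nonempty := by
  by_contra hne
  have hM := hc.median
  have hcv : Cvx X D.Co := hull_cvx hM _
  have hd : Disjoint (g • D.Co) D.Co :=
    Set.disjoint_left.2 fun x hx hx' => hne ⟨x, hx', hx⟩
  have hd' : Disjoint (g⁻¹ • D.Co) D.Co :=
    Set.disjoint_left.2 fun x hx hx' =>
      hne ⟨g • x, Set.mem_inv_smul_set_iff.1 hx, Set.smul_mem_smul_set hx'⟩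
  rcases D.cvx_side hc (hcv.smul hc g) hd with ⟨k, c, Hk, h⟩ | h
  · obtain ⟨ε, h1⟩ := D.w3_leaf hc Hk h
    obtain ⟨x, hx, hx'⟩ := H false ε
    exact Set.disjoint_left.1 h1 hx hx'
  rcases D.cvx_side hc (hcv.smul hc g⁻¹) hd' with ⟨k, c, Hk, h'⟩ | h'
  · obtain ⟨ε, h1⟩ := D.w3_leaf hc Hk h'
    obtain ⟨x, hx, hx'⟩ := H ε false
    exact Set.disjoint_left.1 h1 (Set.mem_smul_set_iff_inv_smul_mem.1 hx')
      (Set.smul_mem_smul_set hx)
  obtain ⟨x, ⟨k, c, Hk, hx⟩, hx'⟩ := H true true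
  have hx2 : g⁻¹ • x ∈ D.Up := Set.mem_smul_set_iff_inv_smul_mem.1 hx'
  have hd2 : Disjoint (g⁻¹ • k) D.Co :=
    Set.disjoint_left.2 fun y hy hy' =>
      h (Set.smul_mem_smul_set hy') (Or.inl ⟨k, c, Hk, Set.mem_inv_smul_set_iff.1 hy⟩)
  rcases D.cvx_side hc (((Hk.half hc).smul hc g⁻¹).cvx hM) hd2 with ⟨k', c', Hk', h2⟩ | h2
  · obtain ⟨p, hp⟩ := ((Hk.half hc).compl hM).inn_nonempty
    have hp1 : p ∈ D.Co := D.inn_subset_co Hk hp
    obtain ⟨-, a, hpa, ha⟩ := hp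
    have ha' : a ∈ k := by
      by_contra h3
      exact ha h3
    have hp2 : g⁻¹ • p ∉ k' := fun h3 =>
      h' (Set.smul_mem_smul_set hp1) (Or.inl ⟨k', c', Hk', h3⟩)
    have hp3 : g⁻¹ • p ∈ D.Co := D.inn_subset_co Hk'
      ⟨hp2, g⁻¹ • a, hc.adj _ _ _ hpa, fun h3 => h3 (h2 (Set.smul_mem_smul_set ha'))⟩
    exact hne ⟨p, hp1, Set.mem_smul_set_iff_inv_smul_mem.2 hp3⟩
  · exact h2 (Set.smul_mem_smul_set hx) (Or.inl hx2)

/-- Fix a label `l`, `y0 ∈ μ (e l)`, `i = dist x y0 + 1`: for every chain `Ch i (e l) w` we have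
`x ∈ ν w` (`nest_of_ch` for the reversed chain, `Nest.le_dist`). Take `ρ'` internal `r` steps ahead
of `ρ` and `f ∈ FY` with `Dp (i + 1) (f • e l) ρ'`; then `ι f • x ∈ μ ρ'`. Combine with `ess0`. -/
theorem lim (hc : IsCubulation G X) {b : Set V} (hb : IsHalf X b) (H : (b ∩ D.Co).Nonempty)
    (x : V) (r : ℕ) : ∃ h ∈ D.H, h • x ∈ b ∧ ∀ y, y ∉ b → r ≤ X.dist (h • x) y := by
  have hM := hc.median
  obtain ⟨i, -⟩ := D.S.surj (true, none)
  obtain ⟨y0, hy0⟩ := (D.F.μ_half (D.S.e (i, (true, true, true)))).nonempty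
  obtain ⟨h0, hh0, ρ, hρ, h1⟩ := D.ess0 hc hb H
  obtain ⟨ρ', h2, hρ'⟩ := D.S.exists_int_ch hρ r
  obtain ⟨f, hf, h3⟩ := D.S.dens_plus D.F.acyc hρ' (i, (true, true, true)) (X.dist x y0 + 1)
  obtain ⟨w, h4, h5⟩ := h3.split
  have h6 : Ch (X.dist x y0) (D.S.e (i, (true, true, true))) (f⁻¹ • w) := by
    have := h4.smul f⁻¹
    rwa [inv_smul_smul] at this
  have h7 : x ∈ D.F.ν (f⁻¹ • w) := by
    intro hx
    have := (D.F.nest_of_ch h6.rev).le_dist hM hx (D.F.μ_sub_ν _ hy0)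
    omega
  have h8 : D.F.ι f • x ∈ D.F.μ ρ' := by
    refine D.F.ν_sub_μ h5 ?_
    have : D.F.ι f • x ∈ D.F.ι f • D.F.ν (f⁻¹ • w) := Set.smul_mem_smul_set h7
    rwa [← D.F.ν_smul, smul_inv_smul] at this
  refine ⟨h0 * D.F.ι f, D.H.mul_mem hh0 (D.mem_H_of_FY hf), ?_, fun y hy => ?_⟩
  · rw [mul_smul]
    exact h1 (Set.smul_mem_smul_set (D.F.μ_mono (h2.dp le_rfl) h8))
  · have h9 : h0⁻¹ • y ∉ D.F.μ ρ := fun h => hy (h1 (Set.mem_smul_set_iff_inv_smul_mem.2 h))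
    have := (D.F.nest_of_ch h2).le_dist hM h8 h9
    rw [← hc.dist_smul h0, smul_inv_smul, ← mul_smul] at this
    omega

end WD

end Pool.Agent.Lib.MP_3467cd_al.Cu
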