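import Pool.Agent.Lib.MP_3467cd_al.CuW3

open Pointwise

namespace Pool.Agent.Lib.MP_3467cd_al.Cu

variable {G : Type} [Group G] {V : Type} [MulAction G V] {X : SimpleGraph V}

theorem w4_ssub {A B : Set V} (h : A ⊂ B) (s : G) : s • A ⊂ s • B :=
  ⟨Set.smul_set_mono h.1, fun h' => h.2 (Set.smul_set_subset_smul_set_iff.1 h')⟩

namespace WD
variable (D : WD G X)

/-- finitely many configurations modulo `FY` (`fin`, `ch_finite`) -/
theorem ub (hc : IsCubulation G X) : ∃ r : ℕ, ∀ σ k c, D.Leaf σ k c → ∀ n ≤ 5, ∀ ρ,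
    Ch n σ ρ.rev → ∃ p, D.F.Pi ρ p ∧ ∃ b ∈ inn X kᶜ, X.dist p b ≤ r := by
  classical
  have hM := hc.median
  have := D.fin
  choose p hp using fun ω => D.F.exists_pi hM ω
  choose b hb using fun l => ((D.half l).compl hM).inn_nonempty
  have hfin : {q : (D.I × Col) × Ed | ∃ n ≤ 5, Ch n (D.S.e q.1) q.2.rev}.Finite := by
    refine (Set.finite_iUnion fun l : D.I × Col => (Set.finite_le_nat 5).biUnion fun n _ =>
      (ch_finite n (D.S.e l)).image fun τ => (l, τ.rev)).subset ?_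
    rintro ⟨l, ρ⟩ ⟨n, hn, H⟩
    simp only [Set.mem_iUnion]
    exact ⟨l, n, hn, ρ.rev, H, by simp⟩
  obtain ⟨r, hr⟩ := (hfin.image fun q => X.dist (p q.2) (b q.1)).bddAbove
  refine ⟨r, ?_⟩
  rintro σ k c ⟨f, -, i, rfl, rfl⟩ n hn ρ H
  have H1 : Ch n (D.S.e (i, c)) (f⁻¹ • ρ).rev := by
    have := H.smul f⁻¹
    rwa [inv_smul_smul, ← Ed.smul_rev] at this
  refine ⟨D.F.ι f • p (f⁻¹ • ρ), ?_, D.F.ι f • b (i, c), ?_, ?_⟩
  · have := D.F.pi_smul hc (hp (f⁻¹ • ρ)) f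
    rwa [smul_inv_smul] at this
  · rw [← Set.smul_set_compl, ← hc.smul_inn]
    exact Set.smul_mem_smul_set (hb (i, c))
  · rw [hc.dist_smul]
    exact hr ⟨((i, c), f⁻¹ • ρ), ⟨n, hn, H1⟩, rfl⟩

/-- A point of `Up` lies in a leaf behind a port (`branchL`). For a point of the core use
`near_cvx` for `inn X kᶜ`: a halfspace containing `y` and missing `inn X kᶜ` meets `inn X k'ᶜ` for
another leaf, so meets `s • μ ρ` and contains the gate point (`IsPi.mem`); `ub`. -/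
theorem leaf_zone (hc : IsCubulation G X) : ∃ r : ℕ, ∀ k c, D.Lf k c → ∀ y, y ∉ D.Um → y ∉ k →
    (∀ s ρ, D.Port k c s ρ → y ∉ s • D.F.z ρ) → ∃ b ∈ inn X kᶜ, X.dist y b ≤ r := by
  have hM := hc.median
  obtain ⟨r0, hr0⟩ := D.ub hc
  obtain ⟨d, hd⟩ := hc.exists_dim
  refine ⟨d * r0, fun k c hk y hy hyk hport => ?_⟩
  have hy' : y ∈ D.Up ∪ D.Co := by
    by_contra h
    exact hy h
  have hkh := (hk.half hc).compl hM
  rcases hy' with ⟨k', c', hk', hy'⟩ | hy'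
  · obtain ⟨s, ρ, w, h1, h2, h3⟩ := D.branchL hc hk hk' fun h => hyk (h.1 ▸ hy')
    exact absurd (Set.smul_set_mono ((D.F.ν_sub_μ h2).trans (D.F.μ_sub_z ρ)) (h3 hy'))
      (hport s ρ h1)
  refine near_cvx hM hd (hkh.inn_cvx hM) hkh.inn_nonempty fun m hm hym hdis => ?_
  obtain ⟨x, hxm, k', c', hk', hx⟩ := meets_of_hull hM hm ⟨y, hym, hy'⟩
  obtain ⟨s, ρ, w, h1, h2, h3⟩ := D.branchL hc hk hk' fun h =>
    Set.disjoint_left.1 hdis hxm (h.1 ▸ hx)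
  have hx' : x ∈ s • D.F.μ ρ :=
    bar_subset hM ((D.F.ν_half w).smul hc s) ((D.F.μ_half ρ).smul hc s) h3
      (w4_ssub (D.F.ν_ssub_μ h2) s) (Or.inr hx)
  have hyz := hport s ρ h1
  obtain ⟨-, -, σ, k1, l1, rfl, c3⟩ := h1
  obtain ⟨p, hp, b, hb, hpb⟩ := hr0 σ k1 c l1 3 (by norm_num) ρ c3
  refine ⟨s • p, (IsPi.smul hc hp s).mem (hm.cvx hM) hym hyz hxm hx', s • b, ?_, ?_⟩
  · rw [← Set.smul_set_compl, ← hc.smul_inn]
    exact Set.smul_mem_smul_set hb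
  · rwa [hc.dist_smul]

/-- the points of the core in the zone behind the middle edge `ρ` -/
def w4_Zn (ρ : Ed) (x : V) : Prop :=
  x ∈ D.Co ∧ x ∉ D.F.z ρ ∧
    ∀ h ∈ D.H, ∀ ρ', D.S.Mid ρ' → h • D.F.z ρ' ⊂ (D.F.z ρ)ᶜ → x ∉ h • D.F.z ρ'

theorem w4_ss {σ ρ : Ed} (H : Dp 1 σ ρ.rev) : D.F.ν σ ⊂ (D.F.z ρ)ᶜ := by
  rw [← D.F.z_rev]
  exact (D.F.ν_ssub_μ H).trans_subset (D.F.μ_sub_z _)

theorem w4_exists (hc : IsCubulation G X) {x : V} (hx : x ∈ D.Co) :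
    ∃ h ∈ D.H, ∃ ρ, D.S.Mid ρ ∧ D.w4_Zn ρ (h⁻¹ • x) := by
  classical
  have hM := hc.median
  have hex : ∃ n, ∃ h ∈ D.H, ∃ ρ, D.S.Mid ρ ∧ x ∉ h • D.F.z ρ ∧
      ∃ y ∈ h • D.F.z ρ, X.dist x y = n := by
    obtain ⟨ρ, hρ⟩ := D.S.exists_mid D.F.acyc
    by_cases h : x ∈ D.F.z ρ
    · obtain ⟨y, hy⟩ := (D.F.z_half ρ.rev).nonempty
      refine ⟨_, 1, D.H.one_mem, ρ.rev, D.S.mid_rev hρ, ?_, y, ?_, rfl⟩
      · rw [one_smul, D.F.z_rev]
        exact fun h' => h' h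
      · rwa [one_smul]
    · obtain ⟨y, hy⟩ := (D.F.z_half ρ).nonempty
      refine ⟨_, 1, D.H.one_mem, ρ, hρ, ?_, y, ?_, rfl⟩
      · rwa [one_smul]
      · rwa [one_smul]
  obtain ⟨h, hh, ρ, hρ, hxz, y, hy, hn⟩ := Nat.find_spec hex
  refine ⟨h, hh, ρ, hρ, ?_, ?_, ?_⟩
  · rw [← D.smul_Co hc (D.H.inv_mem hh)]
    exact Set.smul_mem_smul_set hx
  · rwa [← Set.mem_smul_set_iff_inv_smul_mem]
  · intro h' hh' ρ' hρ' hss hx'
    rw [← Set.mem_smul_set_iff_inv_smul_mem, ← mul_smul] at hx'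
    have hss' : (h * h') • D.F.z ρ' ⊂ (h • D.F.z ρ)ᶜ := by
      rw [mul_smul, ← Set.smul_set_compl]
      exact w4_ssub hss h
    have hy' : y ∉ (h * h') • D.F.z ρ' := fun u => hss'.1 u hy
    obtain ⟨a, b, hab, ha, hb, -, hbt, -⟩ := hM.exit_edge hx' hy'
    have hle : Nat.find hex ≤ X.dist x b := by
      refine Nat.find_min' hex ⟨h * h', D.H.mul_mem hh hh', ρ'.rev, D.S.mid_rev hρ', ?_, b, ?_, rfl⟩
      · rw [D.F.z_rev, Set.smul_set_compl]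
        exact fun u => u hx'
      · rw [D.F.z_rev, Set.smul_set_compl]
        exact hb
    have h0 : X.dist b y = 0 := by
      unfold Btw at hbt
      omega
    have hby : b = y := (hM.1.dist_eq_zero_iff).1 h0
    subst hby
    exact adj_step hM ((D.F.z_half ρ').smul hc _) (((D.F.z_half ρ).smul hc h).compl hM) hss' ha
      hab hy

theorem w4_zone (hc : IsCubulation G X) {ρ : Ed} (hρ : D.S.Mid ρ) :
    ∃ T : Set V, T.Finite ∧ ∀ x, D.w4_Zn ρ x → ∃ h ∈ D.H, ∃ t ∈ T, x = h • t := by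
  classical
  have hM := hc.median
  rcases D.S.zone D.F.acyc hρ with H | ⟨τ, hτ, h3, H⟩
  · choose p hp using fun ω => D.F.exists_pi hM ω
    have hfin := (out_finite ρ.tail).image p
    refine ⟨_, hc.ball_finite (p ρ) (∑ t ∈ hfin.toFinset, X.dist (p ρ) t), ?_⟩
    rintro x ⟨hx, hxz, hmin⟩
    refine ⟨1, D.H.one_mem, x, ?_, (one_smul _ _).symm⟩
    refine dist_le_sum hM _ fun m hm hxm => ?_
    obtain ⟨s, hsm, k', c', hk', hs⟩ := meets_of_hull hM hm ⟨x, hxm, hx⟩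
    obtain ⟨τ, hτ, hb⟩ := D.branchY hc hk'
    obtain ⟨ρ', e1, e2, e3⟩ := H τ hτ
    obtain ⟨τ2, c2, d1⟩ := Dp.split (a := 2) (b := 1) e3
    have hs' : s ∈ D.F.μ ρ' :=
      bar_subset hM (D.F.ν_half τ2) (D.F.μ_half ρ') (hb τ2 c2) (D.F.ν_ssub_μ d1) (Or.inr hs)
    have hx' : x ∉ D.F.z ρ' := by
      by_cases e : ρ' = ρ
      · rwa [e]
      · have := hmin 1 D.H.one_mem ρ' e2 (by
          rw [one_smul]
          exact (D.F.z_sub_ν ρ').trans_ssubset (D.w4_ss (next_sib e1 e).dp))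
        rwa [one_smul] at this
    exact ⟨p ρ', hfin.mem_toFinset.2 ⟨ρ', e1, rfl⟩,
      IsPi.mem (hp ρ') (hm.cvx hM) hxm hx' hsm hs'⟩
  · obtain ⟨k, c, hk⟩ := D.leaf_of_plus hτ
    obtain ⟨r, hr⟩ := D.leaf_zone hc
    obtain ⟨T, hT, -, hT'⟩ := hc.inn_orbits (F := ⊤) inferInstance ((hk.half hc).compl hM)
    refine ⟨_, hT.biUnion fun t _ => hc.ball_finite t r, ?_⟩
    rintro x ⟨hx, hxz, hmin⟩
    obtain ⟨τ2, c2, d1⟩ := Dp.split (a := 2) (b := 1) h3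
    obtain ⟨b, hb, hxb⟩ := hr k c hk.lf x (fun u => u (Or.inr hx)) (D.co_subset hc hk.lf hx) (by
      rintro s ρ' ⟨hs, hi, σ, k1, l1, e, c3⟩
      have hmid := D.S.third_mid D.F.acyc l1.plus c3 hi
      by_cases hrange : s ∈ D.F.ι.range
      · obtain ⟨f, rfl⟩ := hrange
        obtain ⟨hf, e'⟩ := hk.of_range l1 e
        have c3' : Ch 3 τ (f • ρ').rev := by
          rw [e', Ed.smul_rev]
          exact c3.smul f
        rcases H _ c3' (D.S.int_smul hf hi) with e2 | e2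
        · rwa [← D.F.z_smul, e2]
        · refine hmin _ hs ρ' hmid ?_
          rw [← D.F.z_smul]
          exact (D.F.z_sub_ν _).trans_ssubset (D.w4_ss e2)
      · refine hmin _ hs ρ' hmid ?_
        exact ((Set.smul_set_mono (D.F.z_sub_ν ρ')).trans
          (D.step hc hk l1 e hrange c2 c3)).trans_ssubset (D.w4_ss d1))
    obtain ⟨s, -, hs, t, ht, rfl⟩ := hT' b hb
    have hs' : k = s • k := by
      rw [Set.smul_set_compl] at hs
      exact (compl_injective hs).symm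
    refine ⟨s, D.mem_H_of_sig ⟨τ, τ, k, k, c, hk, hk, hs'⟩, s⁻¹ • x, ?_, (smul_inv_smul _ _).symm⟩
    refine Set.mem_biUnion ht ?_
    show X.dist t (s⁻¹ • x) ≤ r
    rwa [← hc.dist_smul s, smul_inv_smul, X.dist_comm]

/-- Among the sets `h • z ρ` (`h ∈ H`, `ρ` a middle edge) missing `x` take one, and a point of it,
closest to `x`; translate to `h = 1`. No such set `M ⊂ (z ρ)ᶜ` contains `x` (its complement would
be closer: `exit_edge`). `zone`: in the first case all of `Sk` lies in the sets `μ ρ'` and `x` is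
close to the gate points (`branchY`, `dist_le_sum`, `int_finite`); in the second case use
`leaf_zone` (ports: `of_range`, or `step` and `third_mid`) and `inn_orbits ⊤`, the stabiliser of
`hb l` being contained in `Sig`. -/
theorem cc (hc : IsCubulation G X) :
    ∃ T : Set V, T.Finite ∧ ∀ x ∈ D.Co, ∃ h ∈ D.H, ∃ t ∈ T, x = h • t := by
  classical
  obtain ⟨T0, hT0, h0⟩ := D.S.int_finite
  have key : ∀ ρ, ∃ T : Set V, T.Finite ∧
      (D.S.Mid ρ → ∀ x, D.w4_Zn ρ x → ∃ h ∈ D.H, ∃ t ∈ T, x = h • t) := by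
    intro ρ
    by_cases hρ : D.S.Mid ρ
    · obtain ⟨T, h1, h2⟩ := D.w4_zone hc hρ
      exact ⟨T, h1, fun _ => h2⟩
    · exact ⟨∅, Set.finite_empty, fun h => absurd h hρ⟩
  choose T hT hT' using key
  refine ⟨_, hT0.biUnion fun ρ _ => hT ρ, fun x hx => ?_⟩
  obtain ⟨h, hh, ρ, hρ, z1, z2, z3⟩ := D.w4_exists hc hx
  obtain ⟨f, hf, t, ht, rfl⟩ := h0 ρ hρ.1
  have hfH := D.mem_H_of_FY hf
  have hmid : D.S.Mid t := by
    have := D.S.mid_smul (D.S.FY.inv_mem hf) hρ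
    rwa [inv_smul_smul] at this
  have hz : D.w4_Zn t ((D.F.ι f)⁻¹ • h⁻¹ • x) := by
    refine ⟨?_, ?_, fun g hg ρ' hρ' hss => ?_⟩
    · rw [← D.smul_Co hc (D.H.inv_mem hfH)]
      exact Set.smul_mem_smul_set z1
    · rwa [← Set.mem_smul_set_iff_inv_smul_mem, ← D.F.z_smul]
    · rw [← Set.mem_smul_set_iff_inv_smul_mem, ← mul_smul]
      refine z3 _ (D.H.mul_mem hfH hg) ρ' hρ' ?_
      rw [mul_smul, D.F.z_smul, ← Set.smul_set_compl]
      exact w4_ssub hss _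
  obtain ⟨g, hg, u, hu, e⟩ := hT' t hmid _ hz
  refine ⟨h * D.F.ι f * g, D.H.mul_mem (D.H.mul_mem hh hfH) hg, u, Set.mem_biUnion ht hu, ?_⟩
  rw [mul_smul, mul_smul, ← e, smul_inv_smul, smul_inv_smul]

end WD

end Pool.Agent.Lib.MP_3467cd_al.Cu
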