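import Pool.Agent.Lib.MP_3467cd_al.CuW3

open Pointwise

namespace Pool.Agent.Lib.MP_3467cd_al.Cu

variable {G : Type} [Group G] {V : Type} [MulAction G V] {X : SimpleGraph V}

namespace WD
variable (D : WD G X)

theorem w5_sub_up {k : Set V} {c : Col} (H : D.Lf k c) : k ⊆ D.Up :=
  fun _ hx => ⟨k, c, H, hx⟩

theorem w5_smul_U (hc : IsCubulation G X) {h : G} (hh : h ∈ D.H) (ε : Bool) :
    h • D.U ε = D.U ε := by
  cases ε
  · exact D.smul_Um hc hh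
  · exact D.smul_Up hh

theorem w5_half (hc : IsCubulation G X) {f : FreeGroup Bool} (hf : f ∉ D.S.N) {v : Vx}
    (hv : v ∈ D.S.Y) (hv' : f⁻¹ • v ∈ D.S.Y) (ε : Bool) :
    (D.F.ι f • D.Co ∩ D.U ε).Nonempty := by
  obtain ⟨⟨τ, hτ, hi⟩, κ, hκ, hi'⟩ := D.S.giant hf hv hv'
  cases ε
  · obtain ⟨p, hp, hp'⟩ := D.int_co hc hi'
    refine ⟨D.F.ι f • p, Set.smul_mem_smul_set hp', ?_⟩
    have h1 : D.F.ι f • p ∈ D.F.μ κ := by
      have h2 : D.F.μ κ = D.F.ι f • D.F.μ (f⁻¹ • κ) := by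
        rw [← D.F.μ_smul, smul_inv_smul]
      rw [h2]
      exact Set.smul_mem_smul_set hp
    exact D.minus_sub hc hκ (D.F.toPreFrame.μ_sub_ν κ h1)
  · obtain ⟨k, c, hl⟩ := D.leaf_of_plus hτ
    obtain ⟨ρ, hρ, hρi⟩ := D.S.exists_int_next hi
    obtain ⟨p, hp, hp'⟩ := D.int_co hc hρi
    refine ⟨D.F.ι f • p, Set.smul_mem_smul_set hp', ?_⟩
    have h1 : D.F.ι f • p ∈ D.F.μ (f • ρ) := by
      rw [D.F.μ_smul]
      exact Set.smul_mem_smul_set hp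
    have h2 : Next (f • ρ) τ := by
      have h3 := hρ.smul f
      rwa [smul_inv_smul] at h3
    exact D.w5_sub_up hl.lf (hl.loc.1 _ h2 h1)

theorem w5_flip {γ : G} {A B : Set V} (H : (γ⁻¹ • A ∩ B).Nonempty) : (A ∩ γ • B).Nonempty := by
  obtain ⟨x, hx, hx'⟩ := H
  exact ⟨γ • x, Set.mem_inv_smul_set_iff.1 hx, Set.smul_mem_smul_set hx'⟩

/-- overlapping local walls in one tree: `giant` for `f` and for `f⁻¹`, `exists_int_next`,
`int_co`, `minus_sub` -/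
theorem overl (hc : IsCubulation G X) {γ : G} (hγ : γ ∉ D.H) {f : FreeGroup Bool}
    (hf : γ⁻¹ * D.F.ι f ∈ D.H) {v : Vx} (hv : v ∈ D.S.Y) (hv' : f⁻¹ • v ∈ D.S.Y) (ε : Bool) :
    (γ • D.Co ∩ D.U ε).Nonempty ∧ (D.Co ∩ γ • D.U ε).Nonempty := by
  have hγ' : γ = D.F.ι f * (γ⁻¹ * D.F.ι f)⁻¹ := by group
  have hN : f ∉ D.S.N := by
    intro hN
    have h1 : f⁻¹ ∈ D.S.FY := D.S.mem_FY (D.S.N.inv_mem hN) hv hv'
    have h2 : D.F.ι f ∈ D.H := D.mem_H_of_FY (by simpa using D.S.FY.inv_mem h1)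
    exact hγ (hγ' ▸ D.H.mul_mem h2 (D.H.inv_mem hf))
  have hC : γ • D.Co = D.F.ι f • D.Co := by
    rw [hγ', mul_smul, D.smul_Co hc (D.H.inv_mem (hγ' ▸ hf))]
  have hU : γ • D.U ε = D.F.ι f • D.U ε := by
    rw [hγ', mul_smul, D.w5_smul_U hc (D.H.inv_mem (hγ' ▸ hf))]
  refine ⟨hC ▸ D.w5_half hc hN hv hv' ε, ?_⟩
  rw [hU]
  apply w5_flip
  rw [← map_inv]
  refine D.w5_half hc (fun h => hN (by simpa using D.S.N.inv_mem h)) hv' ?_ ε
  rwa [inv_inv, smul_inv_smul]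

/-- A leaf `γ • k0` of another wall separating two leaves of the base local wall: it has a
location `σ` (`exists_loc`) with `Dp 0 τ σ`, `Dp 0 τ' σ.rev` (`Loc.mono`); unless `σ = τ'.rev`
the tail of `σ` is in `Y` (`int_of_btw`) and `full`, `overl` apply. -/
theorem between (hc : IsCubulation G X) {γ : G} (hγ : γ ∉ D.H) {k0 k k' : Set V}
    {c0 c c' : Col} {τ τ' : Ed} (H0 : D.Lf k0 c0) (H : D.Leaf τ k c) (H' : D.Leaf τ' k' c')
    (h1 : k ⊆ γ • k0) (h2 : k' ⊆ (γ • k0)ᶜ) :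
    D.F.Loc (γ • k0) τ'.rev ∨ ∀ ε, (γ • D.Co ∩ D.U ε).Nonempty := by
  have hA : Acyc := D.F.toPreFrame.acyc
  have hl : IsHalf X (γ • k0) := (H0.half hc).smul hc γ
  have e1 : D.F.End 1 (γ • k0) := by
    obtain ⟨ω, hω⟩ := H.loc.end
    exact ⟨ω, hω.trans h1⟩
  have e2 : D.F.End 1 (γ • k0)ᶜ := by
    obtain ⟨ω, hω⟩ := H'.loc.end
    exact ⟨ω, hω.trans h2⟩
  obtain ⟨σ, hσ⟩ := D.F.toPreFrame.exists_loc hl e1 e2
  have d1 : Dp 0 τ σ := H.loc.mono hσ h1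
  have d2 : Dp 0 τ' σ.rev := H'.loc.mono hσ.compl h2
  rcases dp_zero.1 d2 with d2 | d2
  · left
    rw [d2, Ed.rev_rev]
    exact hσ
  right
  have ht : σ.tail ∈ D.S.Y := by
    rcases dp_zero.1 d1 with d1 | d1
    · exact d1 ▸ (D.S.plus_out H.plus).2
    · have d3 : Dp 1 σ τ'.rev := by simpa using d2.rev
      refine (D.S.int_of_btw hA d1 d3 (D.S.plus_out H.plus).2 ?_).2
      rw [Ed.head_rev]
      exact (D.S.plus_out H'.plus).2
  obtain ⟨f, hf, τ1, k1, hl1, hσ1, -⟩ := D.full hc H0 (g := γ⁻¹) (σ := σ) (by rwa [inv_inv])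
  intro ε
  refine (D.overl hc hγ hf ht ?_ ε).1
  rw [hσ1, Ed.smul_tail, inv_smul_smul]
  exact (D.S.plus_out hl1.plus).2

/-- Otherwise each leaf of `g W` lies in a leaf of `W` or in `Um` (`cvx_side`), both occur,
`connW` with `Q k = g • k ⊆ Up`; translate by `γ = (g * h)⁻¹`; `between`. In the first
alternative `full` and `int_behind` give a point of `γ • Co` in `k'`. -/
theorem essB (hc : IsCubulation G X) (g : G) (h1 : (D.Up ∩ g • D.Up).Nonempty)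
    (h2 : (D.Um ∩ g • D.Up).Nonempty) : (D.Co ∩ g • D.Up).Nonempty := by
  by_contra hne
  have hM : IsMedian X := hc.median
  have side : ∀ k c, D.Lf k c → (∃ k0 c0, D.Lf k0 c0 ∧ g • k ⊆ k0) ∨ g • k ⊆ D.Um := by
    intro k c hk
    refine D.cvx_side hc (((hk.half hc).smul hc g).cvx hM) ?_
    rw [Set.disjoint_left]
    intro x hx hx'
    exact hne ⟨x, hx', Set.smul_set_mono (D.w5_sub_up hk) hx⟩
  have nup : ∀ x, x ∈ D.Um → x ∉ D.Up := fun x hx hx' => hx (Or.inl hx')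
  obtain ⟨x1, hx1, y1, ⟨k1, c1, hk1, hy1⟩, rfl⟩ := h1
  obtain ⟨x2, hx2, y2, ⟨k2, c2, hk2, hy2⟩, rfl⟩ := h2
  have q1 : g • k1 ⊆ D.Up := by
    rcases side k1 c1 hk1 with ⟨k0, c0, h0, hs⟩ | hs
    · exact hs.trans (D.w5_sub_up h0)
    · exact absurd hx1 (nup _ (hs (Set.smul_mem_smul_set hy1)))
  have q2 : ¬ g • k2 ⊆ D.Up := fun hs => nup _ hx2 (hs (Set.smul_mem_smul_set hy2))
  obtain ⟨h, hh, τ, k, c, τ', k', c', hl, hl', p1, p2⟩ :=
    D.connW (fun k => g • k ⊆ D.Up) hk1 hk2 q1 q2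
  have fin : ((g * h)⁻¹ • D.Co ∩ D.Up).Nonempty → False := by
    intro H
    have H' := w5_flip H
    rw [mul_smul, D.smul_Up hh] at H'
    exact hne H'
  have s2 : g • h • k' ⊆ D.Um := by
    rcases side _ _ (hl'.lf.smul hh) with ⟨k0, c0, h0, hs⟩ | hs
    · exact absurd (hs.trans (D.w5_sub_up h0)) p2
    · exact hs
  obtain ⟨k0, c0, h0, s1⟩ : ∃ k0 c0, D.Lf k0 c0 ∧ g • h • k ⊆ k0 := by
    rcases side _ _ (hl.lf.smul hh) with hs | hs
    · exact hs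
    · obtain ⟨x, hx⟩ := (((hl.lf.smul hh).half hc).smul hc g).nonempty
      exact absurd (p1 hx) (nup _ (hs hx))
  have hγ : (g * h)⁻¹ ∉ D.H := by
    intro H
    have H' : g * h ∈ D.H := by simpa using D.H.inv_mem H
    apply p2
    rw [← mul_smul]
    exact D.w5_sub_up (hl'.lf.smul H')
  have b1 : k ⊆ (g * h)⁻¹ • k0 := by
    intro x hx
    rw [Set.mem_inv_smul_set_iff, mul_smul]
    exact s1 (Set.smul_mem_smul_set (Set.smul_mem_smul_set hx))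
  have b2 : k' ⊆ ((g * h)⁻¹ • k0)ᶜ := by
    intro x hx hx'
    rw [Set.mem_inv_smul_set_iff, mul_smul] at hx'
    exact nup _ (s2 (Set.smul_mem_smul_set (Set.smul_mem_smul_set hx))) (D.w5_sub_up h0 hx')
  rcases D.between hc hγ h0 hl hl' b1 b2 with hb | hb
  · obtain ⟨f, hf, τ1, k1', hl1, hσ1, -⟩ := D.full hc h0 (g := g * h) (σ := τ'.rev) hb
    obtain ⟨ρ, -, -, hρ, -, -⟩ := exists_two_next τ1.rev
    have hi : D.S.Int ρ := D.S.int_behind (D.S.plus_out hl1.plus) hρ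
    obtain ⟨p, hp, hp'⟩ := D.int_co hc hi
    apply fin
    refine ⟨D.F.ι f • p, ?_, ?_⟩
    · rw [Set.mem_inv_smul_set_iff, ← mul_smul, ← D.smul_Co hc hf]
      exact Set.smul_mem_smul_set hp'
    · have n1 : Next (f • ρ) τ' := by
        have n2 := hρ.smul f
        rwa [← Ed.smul_rev, ← hσ1, Ed.rev_rev] at n2
      have m1 : D.F.ι f • p ∈ D.F.μ (f • ρ) := by
        rw [D.F.μ_smul]
        exact Set.smul_mem_smul_set hp
      exact D.w5_sub_up hl'.lf (hl'.loc.1 _ n1 m1)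
  · exact fin (hb true)

end WD

end Pool.Agent.Lib.MP_3467cd_al.Cu
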