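import Mathlib

/-!
Definitions used in the statement: CAT(0) cube complexes through their 1-skeleta (median graphs),
halfspaces, hyperplanes, cubulations, essential actions, special actions, hyperbolic groups.
-/

open Pointwise

namespace Pool.Agent.Lib.MP_3467cd_al

/-- `m` lies on a geodesic from `x` to `y`. -/
def Btw {V : Type} (X : SimpleGraph V) (x m y : V) : Prop :=
  X.dist x m + X.dist m y = X.dist x y

/-- Median graph: connected, and any three vertices have a unique median. These are exactly the
1-skeleta of CAT(0) cube complexes. -/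
def IsMedian {V : Type} (X : SimpleGraph V) : Prop :=
  X.Connected ∧ ∀ x y z : V, ∃! m : V, Btw X x m y ∧ Btw X y m z ∧ Btw X x m z

/-- The vertices closer to `a` than to `b`. -/
def half {V : Type} (X : SimpleGraph V) (a b : V) : Set V := {v | X.dist v a < X.dist v b}

/-- Halfspaces: the sets `half X a b` for edges `ab`. -/
def IsHalf {V : Type} (X : SimpleGraph V) (h : Set V) : Prop :=
  ∃ a b, X.Adj a b ∧ h = half X a b

/-- The edges joining `h` to its complement. -/
def hyp {V : Type} (X : SimpleGraph V) (h : Set V) : Set (Sym2 V) :=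
  {e | ∃ a b, e = s(a, b) ∧ X.Adj a b ∧ a ∈ h ∧ b ∉ h}

/-- Hyperplanes, as sets of dual edges. -/
def IsHyp {V : Type} (X : SimpleGraph V) (w : Set (Sym2 V)) : Prop :=
  ∃ h, IsHalf X h ∧ w = hyp X h

/-- The 1-skeleton of a hyperplane: its vertices are the dual edges, two of them being adjacent
when they are opposite sides of a square. -/
def hypGraph {V : Type} (X : SimpleGraph V) (w : Set (Sym2 V)) : SimpleGraph w :=
  SimpleGraph.fromRel fun e e' => ∃ a b c d : V,
    (e : Sym2 V) = s(a, b) ∧ (e' : Sym2 V) = s(c, d) ∧ X.Adj a c ∧ X.Adj b d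

/-- An action on `Y`, given by its orbit relation `R`, is inessential if for some halfspace `h`
every orbit meets `h` within bounded distance of the hyperplane bounding `h`. -/
def Inessential {W : Type} (Y : SimpleGraph W) (R : W → W → Prop) : Prop :=
  ∃ h, IsHalf Y h ∧ ∀ x, ∃ r : ℕ, ∀ y, R x y → y ∈ h →
    ∃ a b, Y.Adj a b ∧ a ∈ h ∧ b ∉ h ∧ Y.dist y a ≤ r

/-- A proper cocompact action by automorphisms on a CAT(0) cube complex. -/
structure IsCubulation (G : Type) [Group G] {V : Type} (X : SimpleGraph V) [MulAction G V] :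
    Prop where
  median : IsMedian X
  adj : ∀ (g : G) (a b : V), X.Adj a b → X.Adj (g • a) (g • b)
  locFin : ∀ v : V, (X.neighborSet v).Finite
  proper : ∀ v : V, {g : G | g • v = v}.Finite
  cocompact : ∃ S : Finset V, ∀ v : V, ∃ g : G, g • v ∈ S

/-- The stabiliser of every hyperplane acts essentially on that hyperplane. -/
def HyperplaneEssential (G : Type) [Group G] {V : Type} (X : SimpleGraph V) [MulAction G V] :
    Prop :=
  ∀ w, IsHyp X w → ¬ Inessential (hypGraph X w) fun e e' => ∃ g : G,
    Sym2.map (fun v => g • v) '' w = w ∧ Sym2.map (fun v => g • v) (e : Sym2 V) = (e' : Sym2 V)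

/-- There is a hyperplane and the group permutes the hyperplanes transitively. -/
def SingleOrbit (G : Type) [Group G] {V : Type} (X : SimpleGraph V) [MulAction G V] : Prop :=
  (∃ w, IsHyp X w) ∧
    ∀ w w', IsHyp X w → IsHyp X w' → ∃ g : G, Sym2.map (fun v => g • v) '' w = w'

/-- Two halfspaces cross: the four quarters are nonempty. -/
def Cross {V : Type} (h k : Set V) : Prop :=
  (h ∩ k).Nonempty ∧ (h ∩ kᶜ).Nonempty ∧ (hᶜ ∩ k).Nonempty ∧ (hᶜ ∩ kᶜ).Nonempty

/-- The subgroup `F` acts specially (Haglund and Wise): hyperplanes of the quotient are two-sided,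
do not cross themselves, do not directly self-osculate and do not inter-osculate. -/
structure Special {G : Type} [Group G] {V : Type} (X : SimpleGraph V) [MulAction G V]
    (F : Subgroup G) : Prop where
  twoSided : ∀ f ∈ F, ∀ h, IsHalf X h → f • h ≠ hᶜ
  noSelfCross : ∀ f ∈ F, ∀ h, IsHalf X h → ¬ Cross (f • h) h
  noSelfOsc : ∀ f ∈ F, ∀ a b c : V, X.Adj a b → X.Adj a c → f • half X a b = half X a c → b = c
  noInterOsc : ∀ f ∈ F, ∀ a b c : V, X.Adj a b → X.Adj a c → b ≠ c →
    ¬ Cross (half X a b) (half X a c) → ¬ Cross (f • half X a b) (half X a c)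

/-- Some subgroup of finite index acts specially. -/
def VirtuallySpecial (G : Type) [Group G] {V : Type} (X : SimpleGraph V) [MulAction G V] : Prop :=
  ∃ F : Subgroup G, F.FiniteIndex ∧ Special X F

/-- The Cayley graph of `G` for the set `S`. -/
def cayley {G : Type} [Group G] (S : Set G) : SimpleGraph G :=
  SimpleGraph.fromRel fun g h => g⁻¹ * h ∈ S

/-- Finitely generated with a Gromov hyperbolic word metric (four point condition). -/
def IsHyperbolicGroup (G : Type) [Group G] : Prop :=
  ∃ S : Finset G, Subgroup.closure (S : Set G) = ⊤ ∧ ∃ δ : ℕ, ∀ x y z w : G,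
    (cayley (S : Set G)).dist x y + (cayley (S : Set G)).dist z w ≤
      max ((cayley (S : Set G)).dist x z + (cayley (S : Set G)).dist y w)
        ((cayley (S : Set G)).dist x w + (cayley (S : Set G)).dist y z) + δ

end Pool.Agent.Lib.MP_3467cd_al
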