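import Pool.Agent.Lib.MP_3467cd_al.M4

open Pointwise

namespace Pool.Agent.Lib.MP_3467cd_al

variable {Ω : Type} {H σ0 : Set (Set Ω)}

theorem Ori.compl_mem {σ : Set (Set Ω)} (hσ : Ori H σ) {α : Set Ω} (hα : α ∈ H) (h : α ∉ σ) :
    αᶜ ∈ σ := by
  by_contra h1
  exact h ((hσ.2.1 α hα).2 h1)

theorem Ori.compl_not_mem {σ : Set (Set Ω)} (hσ : Ori H σ) {α : Set Ω} (h : α ∈ σ) :
    αᶜ ∉ σ := by
  exact (hσ.2.1 α (hσ.1 h)).1 h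

theorem Ori.up {σ : Set (Set Ω)} (hσ : Ori H σ) {α β : Set Ω} (hα : α ∈ σ) (hβ : β ∈ H)
    (h : α ⊆ β) : β ∈ σ := by
  by_contra h1
  obtain ⟨x, hx, hx'⟩ := hσ.2.2 α hα _ (hσ.compl_mem hβ h1)
  exact hx' (h hx)

theorem Ori.diff_eq_image {σ τ : Set (Set Ω)} (hσ : Ori H σ) (hτ : Ori H τ) :
    τ \ σ = compl '' (σ \ τ) := by
  ext β
  constructor
  · rintro ⟨h1, h2⟩
    exact ⟨βᶜ, ⟨hσ.compl_mem (hτ.1 h1) h2, hτ.compl_not_mem h1⟩, compl_compl β⟩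
  · rintro ⟨α, ⟨h1, h2⟩, rfl⟩
    exact ⟨hτ.compl_mem (hσ.1 h1) h2, hσ.compl_not_mem h1⟩

theorem DV.diff_finite (hP : Poc H σ0) (σ τ : DV H σ0) : (σ.1 \ τ.1).Finite := by
  have h1 : (σ0 \ τ.1).Finite := by
    rw [τ.2.1.diff_eq_image hP.ori]
    exact τ.2.2.image _
  refine (σ.2.2.union h1).subset fun α hα => ?_
  by_cases h : α ∈ σ0
  · exact Or.inr ⟨h, hα.2⟩
  · exact Or.inl ⟨hα.1, h⟩

theorem DV.below_finite (hP : Poc H σ0) (σ : DV H σ0) {α : Set Ω} (hα : α ∈ H) :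
    {β ∈ σ.1 | β ⊆ α}.Finite := by
  refine (σ.2.2.union (hP.fin α hα)).subset fun β hβ => ?_
  by_cases h : β ∈ σ0
  · exact Or.inr ⟨h, hβ.2⟩
  · exact Or.inl ⟨hβ.1, h⟩

theorem DV.exists_minimal (hP : Poc H σ0) (σ : DV H σ0) {α : Set Ω} (hα : α ∈ σ.1) :
    ∃ β ∈ σ.1, β ⊆ α ∧ ∀ γ ∈ σ.1, γ ⊆ β → γ = β := by
  obtain ⟨β, hβ⟩ := (σ.below_finite hP (σ.2.1.1 hα)).exists_minimal ⟨α, hα, subset_rfl⟩
  exact ⟨β, hβ.1.1, hβ.1.2, fun γ hγ h => subset_antisymm h (hβ.2 ⟨hγ, h.trans hβ.1.2⟩ h)⟩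

theorem dual_adj {σ τ : DV H σ0} : (dual H σ0).Adj σ τ ↔ ∃ α, σ.1 \ τ.1 = {α} := by
  rw [dual, SimpleGraph.fromRel_adj]
  constructor
  · rintro ⟨-, h | ⟨α, h⟩⟩
    · exact h
    · exact ⟨αᶜ, by rw [τ.2.1.diff_eq_image σ.2.1, h, Set.image_singleton]⟩
  · rintro ⟨α, h⟩
    refine ⟨?_, Or.inl ⟨α, h⟩⟩
    rintro rfl
    rw [Set.sdiff_self] at h
    exact Set.singleton_ne_empty α h.symm

/-- flipping a minimal element -/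
theorem DV.exists_flip (hP : Poc H σ0) (σ : DV H σ0) {α : Set Ω} (hα : α ∈ σ.1)
    (hmin : ∀ γ ∈ σ.1, γ ⊆ α → γ = α) :
    ∃ τ : DV H σ0, τ.1 = insert αᶜ (σ.1 \ {α}) ∧ σ.1 \ τ.1 = {α} := by
  have hH : α ∈ H := σ.2.1.1 hα
  have hc : αᶜ ∉ σ.1 := σ.2.1.compl_not_mem hα
  have hne : α ≠ αᶜ := fun e => hc (e ▸ hα)
  have hα' : α ∉ insert αᶜ (σ.1 \ {α}) := by
    rintro (h | h)
    · exact hne h
    · exact h.2 rfl
  have hm : ∀ γ ∈ σ.1 \ {α}, (αᶜ ∩ γ).Nonempty := by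
    intro γ hγ
    by_contra h
    refine hγ.2 (hmin γ hγ.1 fun x hx => ?_)
    by_contra hx'
    exact h ⟨x, hx', hx⟩
  refine ⟨⟨insert αᶜ (σ.1 \ {α}), ⟨?_, fun β hβ => ?_, ?_⟩, ?_⟩, rfl, ?_⟩
  · rintro β (rfl | hβ)
    · exact hP.compl α hH
    · exact σ.2.1.1 hβ.1
  · by_cases h1 : β = α
    · subst h1
      exact iff_of_false hα' (not_not.2 (Set.mem_insert _ _))
    · by_cases h2 : β = αᶜ
      · subst h2
        rw [compl_compl]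
        exact iff_of_true (Set.mem_insert _ _) hα'
      · have h3 : βᶜ ≠ αᶜ := fun e => h1 (compl_injective e)
        have h4 : βᶜ ≠ α := fun e => h2 (by rw [← e, compl_compl])
        simp only [Set.mem_insert_iff, Set.mem_sdiff, Set.mem_singleton_iff, h1, h2, h3, h4,
          false_or, not_false_eq_true, and_true]
        exact σ.2.1.2.1 β hβ
  · rintro β (rfl | hβ) γ (rfl | hγ)
    · rw [Set.inter_self]
      exact hP.ne _ (hP.compl α hH)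
    · exact hm γ hγ
    · rw [Set.inter_comm]
      exact hm β hβ
    · exact σ.2.1.2.2 β hβ.1 γ hγ.1
  · refine (σ.2.2.insert αᶜ).subset ?_
    rintro β ⟨rfl | hβ, h⟩
    · exact Set.mem_insert _ _
    · exact Set.mem_insert_of_mem _ ⟨hβ.1, h⟩
  · ext β
    constructor
    · rintro ⟨h1, h2⟩
      by_contra h3
      exact h2 (Set.mem_insert_of_mem _ ⟨h1, h3⟩)
    · rintro rfl
      exact ⟨hα, hα'⟩

theorem DV.minimal_of_diff {σ τ : DV H σ0} {α : Set Ω} (h : σ.1 \ τ.1 = {α}) :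
    α ∈ σ.1 ∧ (∀ γ ∈ σ.1, γ ⊆ α → γ = α) ∧ τ.1 = insert αᶜ (σ.1 \ {α}) := by
  have hα : α ∈ σ.1 \ τ.1 := h ▸ Set.mem_singleton α
  have h1 : ∀ γ ∈ σ.1, γ ≠ α → γ ∈ τ.1 := by
    intro γ hγ hne
    by_contra h2
    exact hne (Set.mem_singleton_iff.1 (h ▸ (⟨hγ, h2⟩ : γ ∈ σ.1 \ τ.1)))
  refine ⟨hα.1, fun γ hγ hs => ?_, ?_⟩
  · by_contra hne
    exact hα.2 (τ.2.1.up (h1 γ hγ hne) (σ.2.1.1 hα.1) hs)
  · ext β
    constructor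
    · intro hβ
      by_cases h2 : β ∈ σ.1
      · exact Set.mem_insert_of_mem _ ⟨h2, fun e => hα.2 (Set.mem_singleton_iff.1 e ▸ hβ)⟩
      · have h3 : β ∈ τ.1 \ σ.1 := ⟨hβ, h2⟩
        rw [σ.2.1.diff_eq_image τ.2.1, h, Set.image_singleton] at h3
        exact Or.inl h3
    · rintro (rfl | hβ)
      · exact τ.2.1.compl_mem (σ.2.1.1 hα.1) hα.2
      · exact h1 β hβ.1 hβ.2

end Pool.Agent.Lib.MP_3467cd_al
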