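import Pool.Agent.Lib.MP_3467cd_al.Dual1

open Pointwise

namespace Pool.Agent.Lib.MP_3467cd_al

variable {G : Type} [Group G] {Ω V : Type} [MulAction G Ω] [MulAction G V]
  {A : Set Ω} {P : Set Ω → Set V} {d : V → V → ℕ}

theorem compl_mem_hs {α : Set Ω} (h : α ∈ hs G A) : αᶜ ∈ hs G A := by
  obtain ⟨g, rfl | rfl⟩ := h
  · exact ⟨g, Or.inr rfl⟩
  · exact ⟨g, Or.inl (compl_compl _)⟩

theorem smul_mem_hs {α : Set Ω} (h : α ∈ hs G A) (g : G) : g • α ∈ hs G A := by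
  obtain ⟨g', rfl | rfl⟩ := h
  · exact ⟨g * g', Or.inl (smul_smul _ _ _)⟩
  · exact ⟨g * g', Or.inr (by rw [Set.smul_set_compl, smul_smul])⟩

theorem WallSys.nonempty_of_mem (W : WallSys G A P d) {α : Set Ω} (h : α ∈ hs G A) :
    α.Nonempty := by
  obtain ⟨g, rfl | rfl⟩ := h
  · exact W.ne.1.smul_set
  · rw [← Set.smul_set_compl]
    exact W.ne.2.smul_set

theorem core_compl (α : Set Ω) : core P αᶜ = core P α := by
  unfold core
  rw [compl_compl, Set.union_comm]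

theorem WallSys.smul_core (W : WallSys G A P d) {α : Set Ω} (h : α ∈ hs G A) (g : G) :
    core P (g • α) = g • core P α := by
  unfold core
  rw [Set.smul_set_compl, Set.smul_set_union, ← W.equiv g α h, ← W.equiv g αᶜ (compl_mem_hs h),
    Set.smul_set_compl]

theorem Ori.smul {σ : Set (Set Ω)} (h : Ori (hs G A) σ) (g : G) : Ori (hs G A) (g • σ) := by
  obtain ⟨h1, h2, h3⟩ := h
  refine ⟨fun α hα => ?_, fun α hα => ?_, fun α hα β hβ => ?_⟩
  · have := smul_mem_hs (h1 (Set.mem_smul_set_iff_inv_smul_mem.1 hα)) g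
    rwa [smul_inv_smul] at this
  · rw [Set.mem_smul_set_iff_inv_smul_mem, Set.mem_smul_set_iff_inv_smul_mem, Set.smul_set_compl]
    exact h2 _ (smul_mem_hs hα g⁻¹)
  · have := h3 _ (Set.mem_smul_set_iff_inv_smul_mem.1 hα) _
      (Set.mem_smul_set_iff_inv_smul_mem.1 hβ)
    rw [← Set.smul_set_inter] at this
    exact Set.smul_set_nonempty.1 this

theorem Compat.smul (W : WallSys G A P d) {x : V} {σ : Set (Set Ω)}
    (h : Compat (hs G A) P x σ) (g : G) : Compat (hs G A) P (g • x) (g • σ) := by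
  intro α hα hx
  refine Set.mem_smul_set_iff_inv_smul_mem.2 (h _ (smul_mem_hs hα g⁻¹) ?_)
  rw [W.equiv g⁻¹ α hα, Set.mem_smul_set_iff_inv_smul_mem, inv_inv]
  exact hx

theorem dual2_mem_core {α : Set Ω} {x : V} : x ∈ core P α ↔ x ∉ P α ∧ x ∉ P αᶜ := by
  unfold core
  rw [Set.mem_compl_iff, Set.mem_union, not_or]

theorem dual2_core_nonempty (W : WallSys G A P d) {α : Set Ω} (h : α ∈ hs G A) :
    ∃ y, y ∈ core P α := by
  obtain ⟨y, hy⟩ := W.helly {α} (Set.finite_singleton α) (Set.singleton_subset_iff.2 h)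
    fun a ha b hb hab => absurd ((Set.mem_singleton_iff.1 ha).trans
      (Set.mem_singleton_iff.1 hb).symm) hab
  exact ⟨y, hy α rfl⟩

/-- the orientation towards `x`, ties being broken by `ω` -/
theorem WallSys.exists_ori (W : WallSys G A P d) (x : V) (ω : Ω) : ∃ σ, Ori (hs G A) σ ∧
    Compat (hs G A) P x σ ∧ ∀ α ∈ hs G A, x ∈ core P α → ω ∈ α → α ∈ σ := by
  refine ⟨{α | α ∈ hs G A ∧ (x ∈ P α ∨ (x ∈ core P α ∧ ω ∈ α))},
    ⟨fun α hα => hα.1, fun α hα => ?_, fun α hα β hβ => ?_⟩, fun α hα hx => ⟨hα, Or.inl hx⟩,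
    fun α hα h1 h2 => ⟨hα, Or.inr ⟨h1, h2⟩⟩⟩
  · have hd : ¬ (x ∈ P α ∧ x ∈ P αᶜ) := fun h => by
      have := W.meet α hα αᶜ (compl_mem_hs hα) ⟨x, h⟩
      rw [Set.inter_compl_self] at this
      exact Set.not_nonempty_empty this
    simp only [Set.mem_ofPred_eq, compl_compl, dual2_mem_core, hα, compl_mem_hs hα, true_and,
      Set.mem_compl_iff]
    tauto
  · have key : ∀ α ∈ hs G A, ∀ β ∈ hs G A, x ∈ core P α → x ∈ P β → (β ∩ α).Nonempty := by
      intro α hα β hβ h1 h2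
      refine W.nested α hα β hβ ?_ ?_ x h1 h2
      · rintro rfl
        exact (dual2_mem_core.1 h1).1 h2
      · rintro rfl
        exact (dual2_mem_core.1 h1).2 h2
    obtain ⟨hα, h1 | h1⟩ := hα <;> obtain ⟨hβ, h2 | h2⟩ := hβ
    · exact W.meet α hα β hβ ⟨x, h1, h2⟩
    · exact key β hβ α hα h2.1 h1
    · rw [Set.inter_comm]
      exact key α hα β hβ h1.1 h2
    · exact ⟨ω, h1.2, h2.2⟩

theorem WallSys.diff_finite (W : WallSys G A P d) {x y : V} {σ τ : Set (Set Ω)}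
    (hσ : Ori (hs G A) σ) (hτ : Ori (hs G A) τ) (hx : Compat (hs G A) P x σ)
    (hy : Compat (hs G A) P y τ) : (σ \ τ).Finite := by
  refine (((W.finCore x).union (W.finCore y)).union (W.finSep x y)).subset ?_
  rintro α ⟨h1, h2⟩
  have hα := hσ.1 h1
  have a1 : x ∉ P αᶜ := fun h => (hσ.2.1 α hα).1 h1 (hx _ (compl_mem_hs hα) h)
  have a2 : y ∉ P α := fun h => h2 (hy _ hα h)
  by_cases b1 : x ∈ P α
  · by_cases b2 : y ∈ P αᶜ
    · exact Or.inr ⟨hα, b1, b2⟩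
    · exact Or.inl (Or.inr ⟨hα, dual2_mem_core.2 ⟨a2, b2⟩⟩)
  · exact Or.inl (Or.inl ⟨hα, dual2_mem_core.2 ⟨b1, a1⟩⟩)

theorem WallSys.poc (W : WallSys G A P d) {x0 : V} {σ0 : Set (Set Ω)} (h0 : Ori (hs G A) σ0)
    (hx : Compat (hs G A) P x0 σ0) : Poc (hs G A) σ0 := by
  refine ⟨fun α hα => compl_mem_hs hα, fun α hα => W.nonempty_of_mem hα, h0, fun α hα => ?_⟩
  obtain ⟨y, hy⟩ := dual2_core_nonempty W hα
  refine ((((W.finCore x0).union (W.finCore y)).union (W.finSep x0 y)).insert α).subset ?_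
  rintro β ⟨h1, h2⟩
  by_cases hβα : β = α
  · exact Or.inl hβα
  refine Or.inr ?_
  have hβ := h0.1 h1
  have a1 : x0 ∉ P βᶜ := fun h => (h0.2.1 β hβ).1 h1 (hx _ (compl_mem_hs hβ) h)
  have a2 : y ∉ P β := fun h => by
    have hne : β ≠ αᶜ := by
      rintro rfl
      obtain ⟨z, hz⟩ := W.nonempty_of_mem hβ
      exact hz (h2 hz)
    obtain ⟨z, hz1, hz2⟩ := W.nested αᶜ (compl_mem_hs hα) β hβ hne (by rwa [compl_compl]) y
      (by rwa [core_compl]) h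
    exact hz2 (h2 hz1)
  by_cases b1 : x0 ∈ P β
  · by_cases b2 : y ∈ P βᶜ
    · exact Or.inr ⟨hβ, b1, b2⟩
    · exact Or.inl (Or.inr ⟨hβ, dual2_mem_core.2 ⟨a2, b2⟩⟩)
  · exact Or.inl (Or.inl ⟨hβ, dual2_mem_core.2 ⟨b1, a1⟩⟩)

theorem WallSys.exists_mem (W : WallSys G A P d) {x0 : V} {σ0 : Set (Set Ω)}
    (h0 : Ori (hs G A) σ0) (hx : Compat (hs G A) P x0 σ0) :
    ∀ α ∈ hs G A, ∃ σ : DV (hs G A) σ0, α ∈ σ.1 := by
  intro α hα
  obtain ⟨y, hy⟩ := dual2_core_nonempty W hα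
  obtain ⟨ω, hω⟩ := W.nonempty_of_mem hα
  obtain ⟨σ, h1, h2, h3⟩ := W.exists_ori y ω
  exact ⟨⟨σ, h1, W.diff_finite h1 h0 h2 hx⟩, h3 α hα hy hω⟩

theorem WallSys.exists_action (W : WallSys G A P d) {x0 : V} {σ0 : Set (Set Ω)}
    (h0 : Ori (hs G A) σ0) (hx : Compat (hs G A) P x0 σ0) :
    ∃ _ : MulAction G (DV (hs G A) σ0), ∀ (g : G) (σ : DV (hs G A) σ0), (g • σ).1 = g • σ.1 := by
  have hfin : ∀ (g : G) (σ : DV (hs G A) σ0), (g • σ.1 \ σ0).Finite := by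
    intro g σ
    refine ((σ.2.2.smul_set (a := g)).union
      (W.diff_finite (h0.smul g) h0 (hx.smul W g) hx)).subset ?_
    rintro α ⟨h1, h2⟩
    by_cases h3 : α ∈ g • σ0
    · exact Or.inr ⟨h3, h2⟩
    · refine Or.inl ?_
      rw [Set.smul_set_sdiff]
      exact ⟨h1, h3⟩
  refine ⟨{ smul := fun g σ => ⟨g • σ.1, σ.2.1.smul g, hfin g σ⟩
            one_smul := fun σ => Subtype.ext (one_smul G σ.1)
            mul_smul := fun g g' σ => Subtype.ext (mul_smul g g' σ.1) }, fun _ _ => rfl⟩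

end Pool.Agent.Lib.MP_3467cd_al
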