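import Pool.Agent.Lib.MP_3467cd_al.Dual2

open Pointwise

namespace Pool.Agent.Lib.MP_3467cd_al

variable {G : Type} [Group G] {Ω V : Type} [MulAction G Ω] [MulAction G V]
  {A : Set Ω} {P : Set Ω → Set V} {d : V → V → ℕ}

theorem WallSys.cross_bound (W : WallSys G A P d) : ∃ M : ℕ, ∀ S : Set (Set Ω), S.Finite →
    S ⊆ hs G A → (∀ α ∈ S, ∀ β ∈ S, α ≠ β → Cross α β) → S.ncard ≤ M := by
  obtain ⟨T, hT⟩ := W.cocompact
  refine ⟨T.sup fun t => {α ∈ hs G A | t ∈ core P α}.ncard, fun S hS hsub hc => ?_⟩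
  obtain ⟨x, hx⟩ := W.helly S hS hsub hc
  obtain ⟨g, hg⟩ := hT x
  refine le_trans ?_ (Finset.le_sup (f := fun t => {α ∈ hs G A | t ∈ core P α}.ncard) hg)
  refine Set.ncard_le_ncard_of_injOn (fun α => g • α) (fun α hα => ⟨smul_mem_hs (hsub hα) g, ?_⟩)
    (fun _ _ _ _ h => MulAction.injective g h) (W.finCore _)
  rw [W.smul_core (hsub hα)]
  exact Set.smul_mem_smul_set (hx α hα)

theorem dual2b_symm {α β : Set Ω} (h : Cross α β) : Cross β α := by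
  obtain ⟨h1, h2, h3, h4⟩ := h
  exact ⟨Set.inter_comm _ _ ▸ h1, Set.inter_comm _ _ ▸ h3, Set.inter_comm _ _ ▸ h2,
    Set.inter_comm _ _ ▸ h4⟩

theorem dual2b_sub {H σ : Set (Set Ω)} (hσ : Ori H σ) {α β : Set Ω} (hα : α ∈ σ) (hβ : β ∈ σ)
    (ma : ∀ γ ∈ σ, γ ⊆ α → γ = α) (mb : ∀ γ ∈ σ, γ ⊆ β → γ = β) (hne : α ≠ β)
    (h : ¬ Cross α β) : αᶜ ⊆ β := by
  intro z hz
  by_contra hz'
  refine h ⟨hσ.2.2 α hα β hβ, ?_, ?_, z, hz, hz'⟩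
  · by_contra k
    exact hne (mb α hα fun y hy => by_contra fun hy' => k ⟨y, hy, hy'⟩)
  · by_contra k
    exact hne (ma β hβ fun y hy => by_contra fun hy' => k ⟨y, hy', hy⟩).symm

theorem dual2b_max {ι : Type} (Q : Set ι → Prop) {M : ℕ} (hM : ∀ S, Q S → S.ncard ≤ M) {S0 : Set ι}
    (h0 : Q S0) : ∃ S, Q S ∧ ∀ S', Q S' → S'.ncard ≤ S.ncard := by
  have hb : BddAbove {n | ∃ S, Q S ∧ S.ncard = n} := ⟨M, fun n ⟨S, h, e⟩ => e ▸ hM S h⟩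
  obtain ⟨S, h, e⟩ := Nat.sSup_mem (s := {n | ∃ S, Q S ∧ S.ncard = n}) ⟨_, S0, h0, rfl⟩ hb
  exact ⟨S, h, fun S' h' => e ▸ le_csSup hb ⟨S', h', rfl⟩⟩

/-- every vertex is compatible with a point lying in the cores of a prescribed set (empty or a
singleton) of minimal elements -/
theorem WallSys.exists_compat (W : WallSys G A P d) {σ0 : Set (Set Ω)} (hP : Poc (hs G A) σ0)
    (σ : DV (hs G A) σ0) (S0 : Set (Set Ω)) (h1 : S0.Subsingleton)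
    (h2 : ∀ α ∈ S0, α ∈ σ.1 ∧ ∀ γ ∈ σ.1, γ ⊆ α → γ = α) :
    ∃ x, Compat (hs G A) P x σ.1 ∧ ∀ α ∈ S0, x ∈ core P α := by
  obtain ⟨M, hM⟩ := W.cross_bound
  have hσ := σ.2.1
  obtain ⟨S, ⟨s1, s2, s3, s4⟩, hmax⟩ := dual2b_max (M := M) (S0 := S0)
    (fun S : Set (Set Ω) => S.Finite ∧ S0 ⊆ S ∧ (∀ α ∈ S, α ∈ σ.1 ∧ ∀ γ ∈ σ.1, γ ⊆ α → γ = α) ∧
      ∀ α ∈ S, ∀ β ∈ S, α ≠ β → Cross α β)
    (fun S h => hM S h.1 (fun α hα => hσ.1 (h.2.2.1 α hα).1) h.2.2.2)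
    ⟨h1.finite, subset_rfl, h2, fun α hα β hβ hne => absurd (h1 hα hβ) hne⟩
  obtain ⟨x, hx⟩ := W.helly S s1 (fun α hα => hσ.1 (s3 α hα).1) s4
  refine ⟨x, fun β hβ hxβ => ?_, fun α hα => hx α (s2 hα)⟩
  by_contra hn
  obtain ⟨β', b1, b2, b3⟩ := DV.exists_minimal hP σ (hσ.compl_mem hβ hn)
  have n1 : ∀ α ∈ S, β ≠ α := fun α hα e => hn (e ▸ (s3 α hα).1)
  have n2 : ∀ α ∈ S, β ≠ αᶜ := fun α hα e => hx α hα (Or.inr (e ▸ hxβ))
  by_cases hS : β' ∈ S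
  · obtain ⟨y, y1, y2⟩ := W.nested β' (hσ.1 b1) β hβ (n1 _ hS) (n2 _ hS) x (hx _ hS) hxβ
    exact b2 y2 y1
  · by_cases hc : ∀ α ∈ S, Cross α β'
    · have h3 := hmax (insert β' S) ⟨s1.insert _, s2.trans (Set.subset_insert _ _), ?_, ?_⟩
      · rw [Set.ncard_insert_of_notMem hS s1] at h3
        omega
      · rintro α (rfl | hα)
        · exact ⟨b1, b3⟩
        · exact s3 α hα
      · rintro α (rfl | hα) γ (rfl | hγ) hne
        · exact absurd rfl hne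
        · exact dual2b_symm (hc γ hγ)
        · exact hc α hα
        · exact s4 α hα γ hγ hne
    · push Not at hc
      obtain ⟨α, hα, hc⟩ := hc
      have h3 := dual2b_sub hσ (s3 α hα).1 b1 (s3 α hα).2 b3 (fun e => hS (e ▸ hα)) hc
      obtain ⟨y, y1, y2⟩ := W.nested αᶜ (compl_mem_hs (hσ.1 (s3 α hα).1)) β hβ (n2 _ hα)
        (by rw [compl_compl]; exact n1 _ hα) x (by rw [core_compl]; exact hx _ hα) hxβ
      exact b2 (h3 y2) y1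

theorem WallSys.exists_compat_edge (W : WallSys G A P d) {σ0 : Set (Set Ω)}
    (hP : Poc (hs G A) σ0) {σ τ : DV (hs G A) σ0} {α : Set Ω} (h : σ.1 \ τ.1 = {α}) :
    ∃ x ∈ core P α, Compat (hs G A) P x σ.1 ∧ Compat (hs G A) P x τ.1 := by
  obtain ⟨h1, h2, h3⟩ := DV.minimal_of_diff h
  obtain ⟨x, hx, hc⟩ := W.exists_compat hP σ {α} Set.subsingleton_singleton
    (fun β hβ => by rw [Set.mem_singleton_iff.1 hβ]; exact ⟨h1, h2⟩)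
  have hx' := hc α rfl
  refine ⟨x, hx', hx, fun β hβ hxβ => ?_⟩
  rw [h3]
  exact Or.inr ⟨hx β hβ hxβ, fun e => hx' (Or.inl (Set.mem_singleton_iff.1 e ▸ hxβ))⟩

end Pool.Agent.Lib.MP_3467cd_al
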