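import Pool.Agent.Lib.MP_3467cd_al.M4

open Pointwise

namespace Pool.Agent.Lib.MP_3467cd_al

variable {V : Type} {X : SimpleGraph V} {Z : Set (Set V)}

theorem Rel.refl (Z : Set (Set V)) (x : V) : Rel Z x x := fun _ _ => Iff.rfl

theorem Rel.symm {x y : V} (H : Rel Z x y) : Rel Z y x := fun k hk => (H k hk).symm

theorem Rel.trans {x y z : V} (H : Rel Z x y) (H' : Rel Z y z) : Rel Z x z :=
  fun k hk => (H k hk).trans (H' k hk)

theorem Rel.mono {Z' : Set (Set V)} {x y : V} (H : Rel Z x y) (h : Z' ⊆ Z) : Rel Z' x y :=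
  fun k hk => H k (h hk)

theorem rel_union {A B : Set (Set V)} {x y : V} : Rel (A ∪ B) x y ↔ Rel A x y ∧ Rel B x y := by
  exact ⟨fun h => ⟨h.mono Set.subset_union_left, h.mono Set.subset_union_right⟩,
    fun h k hk => hk.elim (h.1 k) (h.2 k)⟩

theorem clear_union {A B : Set (Set V)} {r : ℕ} {z : V} :
    Clear X (A ∪ B) r z ↔ Clear X A r z ∧ Clear X B r z := by
  exact ⟨fun h => ⟨fun k hk => h k (Or.inl hk), fun k hk => h k (Or.inr hk)⟩,
    fun h k hk => hk.elim (h.1 k) (h.2 k)⟩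

theorem Clear.mono {r r' : ℕ} {z : V} (H : Clear X Z r z) (h : r' ≤ r) : Clear X Z r' z := by
  exact fun k hk b hb => lt_of_le_of_lt h (H k hk b hb)

theorem HFam.union {A B : Set (Set V)} (hA : HFam X A) (hB : HFam X B) : HFam X (A ∪ B) := by
  exact ⟨fun k hk => hk.elim (hA.1 k) (hB.1 k),
    fun k hk => hk.elim (fun h => Or.inl (hA.2 k h)) fun h => Or.inr (hB.2 k h)⟩

theorem GFam.hfam {j : ℕ} (H : GFam X j Z) : HFam X Z := by
  exact ⟨fun k hk => (H.1 k hk).1, H.2.1⟩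

theorem Sparse.lam (hM : IsMedian X) {r : ℕ} (hZ : HFam X Z) (H : Sparse X r Z) : Lam Z := by
  intro k hk k' hk' hc
  rcases H k hk k' hk' (hc.near hM (hZ.1 k hk) (hZ.1 k' hk') r) with rfl | rfl
  · exact not_cross_self _ hc
  · exact not_cross_compl _ hc

theorem GFam.lam (hM : IsMedian X) {j : ℕ} (H : GFam X j Z) : Lam Z :=
  Sparse.lam hM H.hfam H.2.2

theorem Rel.comp_eq {x y : V} (H : Rel Z x y) : comp Z x = comp Z y := by
  exact Set.ext fun z => ⟨fun h => H.symm.trans h, fun h => H.trans h⟩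

theorem Rel.outer_iff {x y : V} (H : Rel Z x y) {k : Set V} :
    Outer X Z x k ↔ Outer X Z y k := by
  exact ⟨fun ⟨h1, a, h2, h3⟩ => ⟨h1, a, h2, H.symm.trans h3⟩,
    fun ⟨h1, a, h2, h3⟩ => ⟨h1, a, h2, H.trans h3⟩⟩

theorem HFam.comp_cvx (hM : IsMedian X) (hZ : HFam X Z) (x : V) : Cvx X (comp Z x) := by
  intro a ha b hb m hm k hk
  refine ⟨fun h => (hZ.1 k hk).cvx hM a ((ha k hk).1 h) b ((hb k hk).1 h) m hm, fun h => ?_⟩
  by_contra hx
  exact ((hZ.1 k hk).compl hM).cvx hM a (fun h' => hx ((ha k hk).2 h')) b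
    (fun h' => hx ((hb k hk).2 h')) m hm h

/-- two points are related as soon as no member of the family contains exactly the second -/
theorem HFam.rel_of (hZ : HFam X Z) {x y : V} (H : ∀ k ∈ Z, y ∈ k → x ∈ k) : Rel Z x y := by
  intro k hk
  exact ⟨fun h => by_contra fun h' => H kᶜ (hZ.2 k hk) h' h, H k hk⟩

theorem HFam.rel_of_adj (hM : IsMedian X) (hZ : HFam X Z) {a b : V} (hab : X.Adj a b)
    (H : half X a b ∉ Z) : Rel Z a b := by
  intro k hk
  refine hM.adj_mem_iff hab (hZ.1 k hk) (fun e => H (e ▸ hk)) fun e => H ?_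
  rw [← hM.half_compl hab.symm, ← e]
  exact hZ.2 k hk

theorem Clear.rel (hM : IsMedian X) {r : ℕ} {z z' : V} (H : Clear X Z r z)
    (hd : X.dist z z' ≤ r) : Rel Z z z' := by
  intro k hk
  by_contra h
  obtain ⟨b, hb, h1, -⟩ := hM.exists_car_le h
  have := H k hk b hb
  omega

theorem Outer.not_mem {x y : V} {k : Set V} (H : Outer X Z x k) (hy : Rel Z x y) : y ∉ k := by
  obtain ⟨hk, a, ha, hr⟩ := H
  exact fun h => ha.1 ((hr k hk).1 ((hy k hk).2 h))

/-- leaving a component along a geodesic -/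
theorem HFam.exists_outer_btw (hM : IsMedian X) (hZ : HFam X Z) {x y : V} (hy : ¬ Rel Z x y) :
    ∃ a b, X.Adj a b ∧ Rel Z x a ∧ half X b a ∈ Z ∧ y ∈ half X b a ∧ Btw X x a y ∧
      Btw X x b y := by
  obtain ⟨p, hp, hg⟩ := hM.exists_gate (hZ.comp_cvx hM x) ⟨x, Rel.refl Z x⟩ y
  have hne : p ≠ y := fun e => hy (e ▸ hp)
  obtain ⟨b, hb, hd⟩ := hM.exists_step hne
  have c1 : X.dist y p = X.dist p y := X.dist_comm
  have c2 : X.dist y b = X.dist b y := X.dist_comm
  have h1 := (hg x (Rel.refl Z x)).symm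
  refine ⟨p, b, hb, hp, ?_, ?_, h1, ?_⟩
  · by_contra h
    have h2 := hg b (Rel.trans hp (hZ.rel_of_adj hM hb.symm h).symm)
    unfold Btw at h2
    omega
  · show X.dist y b < X.dist y p
    omega
  · have t1 := hM.tri x p b
    have t2 := hM.tri x b y
    have t3 := dist_of_adj hb
    unfold Btw at h1 ⊢
    omega

theorem HFam.exists_outer (hM : IsMedian X) (hZ : HFam X Z) {x y : V} (hy : ¬ Rel Z x y) :
    ∃ k, Outer X Z x k ∧ y ∈ k := by
  obtain ⟨a, b, hab, h1, h2, h3, -⟩ := hZ.exists_outer_btw hM hy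
  exact ⟨_, ⟨h2, a, ⟨right_not_mem_half b a, b, hab, fun h => h (left_mem_half hab.symm)⟩, h1⟩,
    h3⟩

theorem Lam.inn_rel (hM : IsMedian X) (hZ : HFam X Z) (hL : Lam Z) {k : Set V} (hk : k ∈ Z)
    {a a' : V} (ha : a ∈ inn X k) (ha' : a' ∈ inn X k) : Rel Z a a' := by
  refine hZ.rel_of fun u hu h => by_contra fun h' => ?_
  exact hL u hu k hk ((hZ.1 k hk).cross_of_sep_inn hM (hZ.1 u hu) ha' ha h h')

theorem Outer.inn_rel (hM : IsMedian X) (hZ : HFam X Z) (hL : Lam Z) {x : V} {k : Set V}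
    (H : Outer X Z x k) {a : V} (ha : a ∈ inn X kᶜ) : Rel Z x a := by
  obtain ⟨hk, a0, h0, hr⟩ := H
  exact hr.trans (hL.inn_rel hM hZ (hZ.2 k hk) h0 ha)

theorem outer_of_inn {k : Set V} (hk : kᶜ ∈ Z) {a : V} (ha : a ∈ inn X k) : Outer X Z a kᶜ := by
  exact ⟨hk, a, by rwa [compl_compl], Rel.refl Z a⟩

theorem Outer.disjoint (hM : IsMedian X) (hZ : HFam X Z) (hL : Lam Z) {x : V} {k k' : Set V}
    (H : Outer X Z x k) (H' : Outer X Z x k') (hne : k ≠ k') : Disjoint k k' := by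
  have key : ∀ {k k' : Set V}, Outer X Z x k → Outer X Z x k' → k ⊆ k' → k = k' := by
    intro k k' H H' hs
    obtain ⟨hk, a, ha, hr⟩ := H
    exact (compl_injective (((hZ.1 k hk).compl hM).eq_of_inn hM ((hZ.1 k' H'.1).compl hM)
      (Set.compl_subset_compl.2 hs) ha (H'.not_mem hr))).symm
  rcases not_cross_iff.1 (hL k H.1 k' H'.1) with h | h | h | h
  · exact h
  · exact absurd (key H H' h) hne
  · exact absurd (key H' H h).symm hne
  · exact absurd (H'.not_mem (Rel.refl Z x)) (Set.disjoint_left.1 h (H.not_mem (Rel.refl Z x)))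

theorem Outer.eq_of_sameH {x : V} {k k' : Set V} (H : Outer X Z x k) (H' : Outer X Z x k')
    (hs : SameH k k') : k = k' := by
  rcases hs with h | h
  · exact h.symm
  · exact absurd (H.not_mem (Rel.refl Z x)) (h ▸ H'.not_mem (Rel.refl Z x) : x ∉ kᶜ)

/-- a convex set missing a component lies in one outer halfspace -/
theorem Lam.cvx_sub_outer (hM : IsMedian X) (hZ : HFam X Z) (hL : Lam Z) {x : V} {C : Set V}
    (hC : Cvx X C) (hne : C.Nonempty) (hd : Disjoint C (comp Z x)) :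
    ∃ o, Outer X Z x o ∧ C ⊆ o := by
  obtain ⟨y, hy⟩ := hne
  obtain ⟨o, ho, hyo⟩ := hZ.exists_outer hM (x := x) (y := y) (Set.disjoint_left.1 hd hy)
  refine ⟨o, ho, fun y' hy' => by_contra fun h => ?_⟩
  obtain ⟨a, b, hab, ha, hb, -, hb', -⟩ := hM.exit_edge hyo h
  exact Set.disjoint_left.1 hd (hC y hy y' hy' b hb')
    (ho.inn_rel hM hZ hL ⟨hb, a, hab.symm, fun h' => h' ha⟩)

/-- a component lies on one side of every member of the family -/
theorem comp_side {x : V} {u : Set V} (hu : u ∈ Z) : comp Z x ⊆ u ∨ Disjoint u (comp Z x) := by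
  by_cases hx : x ∈ u
  · exact Or.inl fun y hy => (hy u hu).1 hx
  · exact Or.inr (Set.disjoint_left.2 fun y hy hy' => hx ((hy' u hu).2 hy))

end Pool.Agent.Lib.MP_3467cd_al
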