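import Pool.Agent.Lib.MP_3467cd_al.GoodL
import Pool.Agent.Lib.MP_3467cd_al.Fam

open Pointwise

namespace Pool.Agent.Lib.MP_3467cd_al

variable {G : Type} [Group G] {V : Type} [MulAction G V] {X : SimpleGraph V}

theorem esc_out (hM : IsMedian X) {u : Set V} {b : V} (hb : b ∈ car X u) (z : V) :
    ∃ y, y ∉ u ∧ X.dist z y ≤ X.dist z b + 1 := by
  by_cases h : b ∈ u
  · obtain ⟨b', h1, -, h2⟩ := car_edge hb
    refine ⟨b', fun h3 => h2 ⟨fun _ => h3, fun _ => h⟩, ?_⟩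
    rw [← dist_of_adj h1]
    exact hM.tri z b b'
  · exact ⟨b, h, Nat.le_succ _⟩

theorem esc_near (hM : IsMedian X) {u k : Set V} {b b' : V} (hb : b ∈ car X u)
    (hb' : b' ∈ car X k) (z : V) {n : ℕ} (h : X.dist z b + X.dist z b' ≤ n) : Near X n u k := by
  refine ⟨b, hb, b', hb', (hM.tri b z b').trans ?_⟩
  rwa [X.dist_comm (u := b)]

/-- first step: from a point far from one family to a point moderately far from both -/
theorem escape_one (hc : IsCubulation G X) (r0 : ℕ) : ∃ j : ℕ, ∀ A B : Set (Set V),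
    GFam X j A → GFam X j B → ∀ z, Clear X A j z →
      ∃ z', Rel (A ∪ B) z z' ∧ Clear X (A ∪ B) r0 z' := by
  have hM := hc.median
  obtain ⟨r1, h1⟩ := hc.uniform_depth (r0 + 2)
  refine ⟨r1 + r0, fun A B _ hB z hz => ?_⟩
  by_cases h0 : Clear X B r0 z
  · exact ⟨z, Rel.refl _ _, clear_union.2 ⟨hz.mono (Nat.le_add_left _ _), h0⟩⟩
  obtain ⟨u, hu, hzu, b, hb, hd⟩ : ∃ u ∈ B, z ∈ u ∧ ∃ b ∈ car X u, X.dist z b ≤ r0 := by
    simp only [Clear, not_forall, not_lt] at h0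
    obtain ⟨u, hu, b, hb, hd⟩ := h0
    by_cases h : z ∈ u
    · exact ⟨u, hu, h, b, hb, hd⟩
    · exact ⟨uᶜ, hB.2.1 u hu, h, b, by rwa [car_compl], hd⟩
  obtain ⟨z', hz', hd', hf⟩ := h1 u (hB.1 u hu).1 (hB.1 u hu).2.1 z hzu
  refine ⟨z', rel_union.2 ⟨hz.rel hM (by omega), fun k hk => ?_⟩,
    clear_union.2 ⟨fun k hk b' hb' => ?_, fun k hk b' hb' => ?_⟩⟩
  · by_contra h
    obtain ⟨b', hb', h2, -⟩ := hM.exists_car_le h
    rcases hB.2.2 u hu k hk (esc_near hM hb hb' z (by omega)) with rfl | rfl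
    · exact h ⟨fun _ => hz', fun _ => hzu⟩
    · exact h ⟨fun h3 => absurd hzu h3, fun h3 => absurd hz' h3⟩
  · have h2 := hz k hk b' hb'
    have h3 := hM.tri z z' b'
    omega
  · by_contra h
    have h3 := hM.tri z z' b'
    rw [(hB.2.2 u hu k hk (esc_near hM hb hb' z (by omega))).car_eq] at hb'
    obtain ⟨y, hy, h4⟩ := esc_out hM hb' z'
    have h5 := hf y hy
    omega

/-- at most two members of the family come close to a point without containing it -/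
theorem Tri.two_near (hM : IsMedian X) {A : Set (Set V)} {m r : ℕ} (hT : Tri X m A)
    (hr : 2 * r ≤ m) (z : V) : ∃ C1 C2 : Set V, (C1 = ∅ ∨ (C1 ∈ A ∧ z ∉ C1)) ∧
      (C2 = ∅ ∨ (C2 ∈ A ∧ z ∉ C2)) ∧
      ∀ k ∈ A, z ∉ k → (∃ b ∈ car X k, X.dist z b ≤ r) → k = C1 ∨ k = C2 := by
  have hs : ∀ {k k' : Set V}, z ∉ k → z ∉ k' → SameH k k' → k' = k := fun h h' H =>
    H.resolve_right fun e => h' (e ▸ h)
  by_cases h1 : ∃ k ∈ A, z ∉ k ∧ ∃ b ∈ car X k, X.dist z b ≤ r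
  · obtain ⟨k1, a1, z1, b1, c1, d1⟩ := h1
    by_cases h2 : ∃ k ∈ A, z ∉ k ∧ k ≠ k1 ∧ ∃ b ∈ car X k, X.dist z b ≤ r
    · obtain ⟨k2, a2, z2, hne, b2, c2, d2⟩ := h2
      refine ⟨k1, k2, Or.inr ⟨a1, z1⟩, Or.inr ⟨a2, z2⟩, fun k a3 z3 ⟨b3, c3, d3⟩ => ?_⟩
      rcases hT k1 a1 k2 a2 k a3 (esc_near hM c1 c2 z (by omega)) (esc_near hM c1 c3 z (by omega))
        (esc_near hM c2 c3 z (by omega)) with H | H | H
      · exact absurd (hs z1 z2 H) hne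
      · exact Or.inl (hs z1 z3 H)
      · exact Or.inr (hs z2 z3 H)
    · refine ⟨k1, ∅, Or.inr ⟨a1, z1⟩, Or.inl rfl, fun k a3 z3 H => Or.inl ?_⟩
      by_contra h
      exact h2 ⟨k, a3, z3, h, H⟩
  · exact ⟨∅, ∅, Or.inl rfl, Or.inl rfl, fun k a3 z3 H => absurd ⟨k, a3, z3, H⟩ h1⟩

theorem escProp_of_dir5 (hc : IsCubulation G X) (h5 : Dir5 X) : EscProp X := by
  have hM := hc.median
  obtain ⟨r0, h5⟩ := h5
  obtain ⟨j, hj⟩ := escape_one hc r0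
  refine ⟨j, fun r => ?_⟩
  obtain ⟨r2, h5⟩ := h5 (r + 2)
  refine ⟨2 * (r2 + r), fun A B hA hB tA tB z hz => ?_⟩
  obtain ⟨z1, e1, c1⟩ := hj A B hA hB z hz
  obtain ⟨C1, C2, a1, a2, a3⟩ := tA.two_near hM le_rfl z1
  obtain ⟨C3, C4, b1, b2, b3⟩ := tB.two_near hM le_rfl z1
  have hF : HFam X (A ∪ B) := hA.hfam.union hB.hfam
  have hC : ∀ i, ![C1, C2, C3, C4] i = ∅ ∨
      (![C1, C2, C3, C4] i ∈ A ∪ B ∧ z1 ∉ ![C1, C2, C3, C4] i) := by
    intro i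
    fin_cases i
    · exact a1.imp_right fun h => ⟨Or.inl h.1, h.2⟩
    · exact a2.imp_right fun h => ⟨Or.inl h.1, h.2⟩
    · exact b1.imp_right fun h => ⟨Or.inr h.1, h.2⟩
    · exact b2.imp_right fun h => ⟨Or.inr h.1, h.2⟩
  obtain ⟨h, z2, -, hz2, hd, hdis, hf⟩ := h5 z1 ![C1, C2, C3, C4] (fun i => by
      rcases hC i with e | e
      · rw [e]
        exact cvx_empty
      · exact (hF.1 _ e.1).cvx hM) fun i y hy => by
    rcases hC i with e | e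
    · rw [e] at hy
      exact hy.elim
    · obtain ⟨b, hb, h2, -⟩ := hM.exists_car_le fun H : z1 ∈ _ ↔ y ∈ _ => e.2 (H.2 hy)
      exact ((c1 _ e.1 b hb).le).trans h2
  have key : ∀ k ∈ A ∪ B, z1 ∉ k → ∀ b ∈ car X k, X.dist z1 b ≤ r2 + r → Disjoint h k := by
    rintro k (hk | hk) h1 b hb h2
    · rcases a3 k hk h1 ⟨b, hb, h2⟩ with rfl | rfl
      exacts [hdis 0, hdis 1]
    · rcases b3 k hk h1 ⟨b, hb, h2⟩ with rfl | rfl
      exacts [hdis 2, hdis 3]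
  have far : ∀ k ∈ A ∪ B, z1 ∉ k → ∀ b ∈ car X k, r < X.dist z2 b := by
    intro k hk h1 b hb
    by_contra h2
    have h3 := hM.tri z1 z2 b
    have h4 := key k hk h1 b hb (by omega)
    obtain ⟨y, hy, h6⟩ := esc_out hM (u := kᶜ) (by rwa [car_compl]) z2
    have h7 := hf y fun h8 => Set.disjoint_left.1 h4 h8 (not_not.1 hy)
    omega
  refine ⟨z2, e1.trans (hF.rel_of fun k hk h1 => ?_), fun k hk b hb => ?_⟩
  · by_contra h2
    obtain ⟨b, hb, h3, -⟩ := hM.exists_car_le fun H : z1 ∈ k ↔ z2 ∈ k => h2 (H.2 h1)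
    exact Set.disjoint_left.1 (key k hk h2 b hb (by omega)) hz2 h1
  · by_cases h1 : z1 ∈ k
    · exact far kᶜ (hF.2 k hk) (not_not.2 h1) b (by rwa [car_compl])
    · exact far k hk h1 b hb

end Pool.Agent.Lib.MP_3467cd_al
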