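import Pool.Agent.Lib.MP_3467cd_al.Fun2

open Pointwise

namespace Pool.Agent.Lib.MP_3467cd_al

variable {G : Type} [Group G] {V : Type} [MulAction G V] {X : SimpleGraph V}

/-- finitely many nonzero characters have a common non-zero -/
theorem exists_common_ne {F : Subgroup G} {Φ : Set (G → ℤ)} (hΦ : Φ.Finite)
    (hh : ∀ ψ ∈ Φ, HomOn F ψ) (hne : ∀ ψ ∈ Φ, ∃ f ∈ F, ψ f ≠ 0) :
    ∃ b ∈ F, ∀ ψ ∈ Φ, ψ b ≠ 0 := by
  induction Φ, hΦ using Set.Finite.induction_on with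
  | empty => exact ⟨1, F.one_mem, fun _ h => h.elim⟩
  | @insert χ Φ _ hfin ih =>
    obtain ⟨b, hb, h1⟩ := ih (fun ψ h => hh ψ (Or.inr h)) fun ψ h => hne ψ (Or.inr h)
    by_cases h0 : χ b = 0
    · obtain ⟨f, hf, h2⟩ := hne χ (Or.inl rfl)
      obtain ⟨t, ht⟩ := (hfin.image fun ψ => (ψ f).natAbs).bddAbove
      refine ⟨b ^ (t + 1) * f, F.mul_mem (F.pow_mem hb _) hf, fun ψ hψ => ?_⟩
      rw [hh ψ hψ _ (F.pow_mem hb _) _ hf, (hh ψ hψ).pow hb]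
      rcases hψ with rfl | hψ
      · rwa [h0, mul_zero, zero_add]
      · intro h3
        have h4 : (ψ f).natAbs ≤ t := ht ⟨ψ, hψ, rfl⟩
        have h5 := congrArg Int.natAbs (eq_neg_of_add_eq_zero_left h3)
        rw [Int.natAbs_mul, Int.natAbs_natCast, Int.natAbs_neg] at h5
        have h6 := Nat.le_mul_of_pos_right (t + 1) (Int.natAbs_pos.2 (h1 ψ hψ))
        omega
    · refine ⟨b, hb, fun ψ hψ => ?_⟩
      rcases hψ with rfl | hψ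
      exacts [h0, h1 ψ hψ]

theorem fun3_kills {F : Subgroup G} {ψ : G → ℤ} (hh : HomOn F ψ) {k : Set V} (hk : Kills F ψ k)
    {f : G} (hf : f ∈ F) : Kills F ψ (f • k) := by
  intro s hs h
  rw [← hh.conj (F.inv_mem hf) hs]
  refine hk _ (F.mul_mem (F.mul_mem (F.inv_mem hf) hs) (F.inv_mem (F.inv_mem hf))) ?_
  rw [inv_inv, mul_smul, mul_smul, h, inv_smul_smul]

theorem fun3_comb {F : Subgroup G} {ψ χ : G → ℤ} (h1 : HomOn F ψ) (h2 : HomOn F χ) (m n : ℤ) :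
    HomOn F fun y => m * ψ y - n * χ y := by
  intro a ha b hb
  simp only [h1 a ha b hb, h2 a ha b hb]
  ring

/-- one subgroup serves all good halfspaces -/
theorem fun3_uniform (hc : IsCubulation G X)
    (H : ∀ a, Good X a → ∃ (F : Subgroup G) (ψ1 ψ2 : G → ℤ), F.Normal ∧ F.FiniteIndex ∧
      HomOn F ψ1 ∧ HomOn F ψ2 ∧ Kills F ψ1 a ∧ Kills F ψ2 a ∧
        ∃ f1 ∈ F, ∃ f2 ∈ F, ψ1 f1 ≠ 0 ∧ ψ1 f2 = 0 ∧ ψ2 f2 ≠ 0) :
    ∃ F : Subgroup G, F.Normal ∧ F.FiniteIndex ∧ ∀ a, Good X a → ∃ ψ1 ψ2 : G → ℤ,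
      HomOn F ψ1 ∧ HomOn F ψ2 ∧ Kills F ψ1 a ∧ Kills F ψ2 a ∧
        ∃ f1 ∈ F, ∃ f2 ∈ F, ψ1 f1 ≠ 0 ∧ ψ1 f2 = 0 ∧ ψ2 f2 ≠ 0 := by
  obtain ⟨T, hT, -, hT'⟩ := hc.half_orbits (F := ⊤) inferInstance
  have : Finite {t | t ∈ T ∧ Good X t} := hT.subset fun _ h => h.1
  choose F ψ1 ψ2 hN hI h1 h2 k1 k2 f1 m1 f2 m2 n1 n2 n3 using
    fun t : {t | t ∈ T ∧ Good X t} => H t.1 t.2.2
  have hN0 : (⨅ t, F t).Normal := Subgroup.normal_iInf_normal hN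
  have hI0 : (⨅ t, F t).FiniteIndex := Subgroup.finiteIndex_iInf hI
  refine ⟨⨅ t, F t, hN0, hI0, fun a ha => ?_⟩
  obtain ⟨g, -, t, ht, rfl⟩ := hT' a ha.1
  have hg : Good X t := by simpa using ha.smul hc g⁻¹
  let τ : {t | t ∈ T ∧ Good X t} := ⟨t, ht, hg⟩
  have hm : ∀ y ∈ ⨅ t, F t, g⁻¹ * y * g ∈ F τ := fun y hy =>
    (hN τ).conj_mem' y (Subgroup.mem_iInf.1 hy τ) g
  have hom : ∀ ψ, HomOn (F τ) ψ → HomOn (⨅ t, F t) fun y => ψ (g⁻¹ * y * g) := by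
    intro ψ hψ y hy z hz
    rw [← hψ _ (hm y hy) _ (hm z hz)]
    group
  have kil : ∀ ψ, Kills (F τ) ψ t → Kills (⨅ t, F t) (fun y => ψ (g⁻¹ * y * g)) (g • t) := by
    intro ψ hψ s hs h
    refine hψ _ (hm s hs) ?_
    rw [mul_smul, mul_smul, h, inv_smul_smul]
  have mem : ∀ f : G, g * f ^ (⨅ t, F t).index * g⁻¹ ∈ ⨅ t, F t := fun f =>
    hN0.conj_mem _ (Subgroup.pow_index_mem _ f) g
  have val : ∀ ψ, HomOn (F τ) ψ → ∀ f ∈ F τ,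
      ψ (g⁻¹ * (g * f ^ (⨅ t, F t).index * g⁻¹) * g) = (⨅ t, F t).index * ψ f := by
    intro ψ hψ f hf
    rw [← hψ.pow hf]
    congr 1
    group
  have i0 : (((⨅ t, F t).index : ℕ) : ℤ) ≠ 0 := Int.natCast_ne_zero.2 hI0.index_ne_zero
  refine ⟨_, _, hom _ (h1 τ), hom _ (h2 τ), kil _ (k1 τ), kil _ (k2 τ), _, mem (f1 τ), _,
    mem (f2 τ), ?_, ?_, ?_⟩
  · rw [val _ (h1 τ) _ (m1 τ)]
    exact mul_ne_zero i0 (n1 τ)
  · rw [val _ (h1 τ) _ (m2 τ), n2, mul_zero]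
  · rw [val _ (h2 τ) _ (m2 τ)]
    exact mul_ne_zero i0 (n3 τ)

theorem exists_funl (hc : IsCubulation G X)
    (H : ∀ a, Good X a → ∃ (F : Subgroup G) (ψ1 ψ2 : G → ℤ), F.Normal ∧ F.FiniteIndex ∧
      HomOn F ψ1 ∧ HomOn F ψ2 ∧ Kills F ψ1 a ∧ Kills F ψ2 a ∧
        ∃ f1 ∈ F, ∃ f2 ∈ F, ψ1 f1 ≠ 0 ∧ ψ1 f2 = 0 ∧ ψ2 f2 ≠ 0) : Nonempty (Funl G X) := by
  obtain ⟨F, hN, hI, H'⟩ := fun3_uniform hc H
  obtain ⟨T, hT, -, hT'⟩ := hc.half_orbits hI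
  have : Finite {t | t ∈ T ∧ Good X t} := hT.subset fun _ h => h.1
  choose ψ1 ψ2 h1 h2 k1 k2 f1 m1 f2 m2 n1 n2 n3 using
    fun t : {t | t ∈ T ∧ Good X t} => H' t.1 t.2.2
  obtain ⟨b1, hb1, e1⟩ := exists_common_ne (F := F) (Set.finite_range ψ1)
    (Set.forall_mem_range.2 h1) (Set.forall_mem_range.2 fun t => ⟨f1 t, m1 t, n1 t⟩)
  rw [Set.forall_mem_range] at e1
  let χ : {t | t ∈ T ∧ Good X t} → G → ℤ := fun t y => ψ1 t b1 * ψ2 t y - ψ2 t b1 * ψ1 t y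
  have hχ : ∀ t, HomOn F (χ t) := fun t => fun3_comb (h2 t) (h1 t) _ _
  obtain ⟨b2, hb2, e2⟩ := exists_common_ne (F := F) (Set.finite_range χ)
    (Set.forall_mem_range.2 hχ) (Set.forall_mem_range.2 fun t => ⟨f2 t, m2 t, by
      simp only [χ, n2, mul_zero, sub_zero]
      exact mul_ne_zero (e1 t) (n3 t)⟩)
  rw [Set.forall_mem_range] at e2
  let ψ : {t | t ∈ T ∧ Good X t} → G → ℤ := fun t y => χ t b2 * ψ1 t y - ψ1 t b2 * χ t y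
  have hψ : ∀ t, HomOn F (ψ t) := fun t => fun3_comb (h1 t) (hχ t) _ _
  refine ⟨⟨F, hN, hI, Set.range χ ∪ Set.range ψ, (Set.finite_range χ).union (Set.finite_range ψ),
    ?_, b1, b2, hb1, hb2, fun k hk => ?_⟩⟩
  · rintro _ (⟨t, rfl⟩ | ⟨t, rfl⟩)
    exacts [hχ t, hψ t]
  obtain ⟨f, hf, t, ht, rfl⟩ := hT' k hk.1
  have hg : Good X t := by simpa using hk.smul hc f⁻¹
  let τ : {t | t ∈ T ∧ Good X t} := ⟨t, ht, hg⟩
  have kχ : Kills F (χ τ) t := fun s hs h => by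
    simp only [χ, k1 τ s hs h, k2 τ s hs h, mul_zero, sub_zero]
  have kψ : Kills F (ψ τ) t := fun s hs h => by
    simp only [ψ, k1 τ s hs h, kχ s hs h, mul_zero, sub_zero]
  have z1 : χ τ b1 = 0 := by
    simp only [χ]
    ring
  refine ⟨χ τ, Or.inl ⟨τ, rfl⟩, ψ τ, Or.inr ⟨τ, rfl⟩, fun3_kills (hχ τ) kχ hf,
    fun3_kills (hψ τ) kψ hf, z1, e2 τ, ?_, ?_⟩
  · simp only [ψ]
    ring
  · simp only [ψ, z1, mul_zero, sub_zero]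
    exact mul_ne_zero (e2 τ) (e1 τ)

end Pool.Agent.Lib.MP_3467cd_al
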