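import Pool.Agent.Lib.MP_3467cd_al.Giant1

open Pointwise

namespace Pool.Agent.Lib.MP_3467cd_al

variable {G : Type} [Group G] {V : Type} [MulAction G V] {X : SimpleGraph V}

/-- the purely group theoretic rows and columns argument. `Row` and `Col` are the row-free and
column-free elements and `≈` is the relation of lying in equivalent components. -/
theorem rows_cols {F : Subgroup G} (E : G → G → Prop) (hrefl : ∀ y, E y y)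
    (hsymm : ∀ y y', E y y' → E y' y) (htrans : ∀ y y' y'', E y y' → E y' y'' → E y y'')
    (Row Col : G → Prop) (Gen : G → Prop) {p q : G} (hp : p ∈ F) (hq : q ∈ F)
    (hrow : ∀ y ∈ F, Row y → ∀ s : ℕ, E y (y * p ^ s))
    (hcol : ∀ y ∈ F, Col y → ∀ t : ℕ, E y (y * q ^ t))
    (hpq : ∀ y ∈ F, ∀ s t : ℕ, E (y * p ^ s * q ^ t) (y * q ^ t * p ^ s))
    (huq : ∀ y ∈ F, ∀ u ∈ F, ∀ t : ℕ, E (y * q ^ t * u) (y * u * q ^ t))
    (hgen : ∀ y ∈ F, ∀ u ∈ F, Gen u → Row y → E y (y * u))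
    (hexc : ∀ y ∈ F, ∃ s : ℕ, Col (y * p ^ s))
    (hexr : ∀ y ∈ F, ∀ y' ∈ F, ∃ t : ℕ, Row (y * q ^ t) ∧ Row (y' * q ^ t))
    (hind : ∀ (P : G → Prop) (y0 : G), y0 ∈ F → P y0 →
      (∀ y ∈ F, ∀ u ∈ F, Gen u → P y → P (y * u)) → ∀ y ∈ F, P y)
    {y y' : G} (hy : y ∈ F) (hy' : y' ∈ F) (h1 : Row y) (h2 : Row y') : E y y' := by
  have L1 : ∀ z ∈ F, ∀ t : ℕ, Row z → Row (z * q ^ t) → E z (z * q ^ t) := by
    intro z hz t a b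
    obtain ⟨s, hs⟩ := hexc z hz
    exact htrans _ _ _ (htrans _ _ _ (htrans _ _ _ (hrow z hz a s)
      (hcol _ (F.mul_mem hz (F.pow_mem hp s)) hs t)) (hpq z hz s t))
      (hsymm _ _ (hrow _ (F.mul_mem hz (F.pow_mem hq t)) b s))
  have L2 : ∀ z ∈ F, ∀ t t' : ℕ, Row (z * q ^ t) → Row (z * q ^ t') →
      E (z * q ^ t) (z * q ^ t') := by
    have L : ∀ z ∈ F, ∀ t t' : ℕ, t ≤ t' → Row (z * q ^ t) → Row (z * q ^ t') →
        E (z * q ^ t) (z * q ^ t') := by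
      intro z hz t t' h a b
      obtain ⟨d, rfl⟩ := Nat.exists_eq_add_of_le h
      rw [pow_add, ← mul_assoc] at b ⊢
      exact L1 _ (F.mul_mem hz (F.pow_mem hq t)) d a b
    intro z hz t t' a b
    rcases le_total t t' with h | h
    exacts [L z hz t t' h a b, hsymm _ _ (L z hz t' t h b a)]
  have := hind (fun w => ∀ t t' : ℕ, Row (y * q ^ t) → Row (w * q ^ t') →
    E (y * q ^ t) (w * q ^ t')) y hy (L2 y hy) (fun w hw u hu hg ih t t' a b => by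
      obtain ⟨t2, c1, c2⟩ := hexr w hw (w * u) (F.mul_mem hw hu)
      exact htrans _ _ _ (htrans _ _ _ (htrans _ _ _ (ih t t2 a c1)
        (hgen _ (F.mul_mem hw (F.pow_mem hq t2)) u hu hg c1)) (huq w hw u hu t2))
        (L2 _ (F.mul_mem hw hu) t2 t' c2 b)) y' hy' 0 0
  simpa [h1, h2] using this

theorem Funl.giant (hc : IsCubulation G X) (Φ : Funl G X) : GiantProp G X := by
  classical
  intro K
  have hM := hc.median
  obtain ⟨x0⟩ := hM.1.nonempty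
  obtain ⟨R0, hR0⟩ := hc.cobounded Φ.fi x0
  obtain ⟨r2, hr1, hr2, hr3⟩ : ∃ r2, 2 * R0 + 1 ≤ r2 ∧ X.dist x0 (Φ.b1 • x0) ≤ r2 ∧
      X.dist x0 (Φ.b2 • x0) ≤ r2 :=
    ⟨2 * R0 + 1 + X.dist x0 (Φ.b1 • x0) + X.dist x0 (Φ.b2 • x0), by omega, by omega, by omega⟩
  obtain ⟨c, htube⟩ := Φ.tube hc x0 r2
  obtain ⟨J0, hJ0⟩ : ∃ J0 : ℕ, ∀ ψ ∈ Φ.Ψ, |ψ Φ.b1| ≤ J0 ∧ |ψ Φ.b2| ≤ J0 := by
    obtain ⟨B, hB⟩ := (Φ.fin.image fun ψ => (ψ Φ.b1).natAbs + (ψ Φ.b2).natAbs).bddAbove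
    refine ⟨B, fun ψ hψ => ?_⟩
    have := hB ⟨ψ, hψ, rfl⟩
    simp only [Int.abs_eq_natAbs] at this ⊢
    omega
  refine ⟨R0 + 2 * K * (2 * c + 1) * r2, fun F1 hF1 hF1' => ?_⟩
  have he : F1.index ≠ 0 := hF1'.index_ne_zero
  obtain ⟨n, hn⟩ : ∃ n, n = F1.index * J0 * (2 * K * (2 * c + 1)) + 1 := ⟨_, rfl⟩
  obtain ⟨F2, h21, h2Φ, h2n, h2f, h2d, h2c⟩ := Φ.exists_sub hF1 hF1' (n := n) (by omega)
  refine ⟨F2, h21, h2n, h2f, fun Z hZ hZK hZg z z' hz hz' => ?_⟩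
  have hk : ∀ k, ∃ (χ ψ : G → ℤ) (y : G), k ∈ Z → (χ ∈ Φ.Ψ ∧ Kills Φ.F χ k) ∧
      (ψ ∈ Φ.Ψ ∧ Kills Φ.F ψ k) ∧ χ Φ.b1 = 0 ∧ χ Φ.b2 ≠ 0 ∧ ψ Φ.b2 = 0 ∧ ψ Φ.b1 ≠ 0 ∧
      y ∈ Φ.F ∧ ∃ b ∈ car X k, X.dist (y • x0) b ≤ r2 := fun k => by
    by_cases h : k ∈ Z
    · obtain ⟨χ, a1, ψ, a2, a3, a4, a5, a6, a7, a8⟩ := Φ.kill k (hZg k h)
      obtain ⟨b, hb⟩ := (hZg k h).1.inn_nonempty
      obtain ⟨y, hy, hd⟩ := hR0 b
      exact ⟨χ, ψ, y, fun _ => ⟨⟨a1, a3⟩, ⟨a2, a4⟩, a5, a6, a7, a8, hy, b, inn_subset_car k hb,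
        by rw [X.dist_comm]; omega⟩⟩
    · exact ⟨0, 0, 1, fun h' => absurd h' h⟩
  choose χ ψ yk hk using hk
  let Far : (Set V → G → ℤ) → G → Prop := fun θ y =>
    ∀ k ∈ Z, ∀ w : ℤ, (n : ℤ) ∣ θ k y - θ k (yk k) - w → (c : ℤ) < |w|
  have hclear : ∀ θ : Set V → G → ℤ, (∀ k ∈ Z, θ k ∈ Φ.Ψ ∧ Kills Φ.F (θ k) k) → ∀ y ∈ Φ.F,
      Far θ y → Clear X (fam F2 Z) r2 (y • x0) := by
    rintro θ hθ y hy hfar k' ⟨f, hf, k, hkZ, e⟩ b hb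
    have hb' : b ∈ f • car X k := by
      rw [hc.smul_car]
      rcases e with rfl | rfl
      exacts [hb, car_compl (X := X) (f • k) ▸ hb]
    obtain ⟨b0, hb0, rfl⟩ := hb'
    by_contra hle
    have hf' := Φ.F.inv_mem (h2Φ hf)
    have hh := Φ.hom _ (hθ k hkZ).1
    have h1 := htube k (hZg k hkZ).1 _ (hθ k hkZ).1 (hθ k hkZ).2 (f⁻¹ * y) (Φ.F.mul_mem hf' hy)
      (yk k) (hk k hkZ).2.2.2.2.2.2.1 ⟨b0, hb0, by
        rw [← hc.dist_smul f, smul_smul, mul_inv_cancel_left]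
        exact not_lt.1 hle⟩ (hk k hkZ).2.2.2.2.2.2.2
    refine absurd (hfar k hkZ _ ?_) (not_lt.2 h1)
    rw [hh _ hf' _ hy, hh.inv (h2Φ hf)]
    convert h2d f hf _ (hθ k hkZ).1 using 1
    ring
  have hex : ∀ θ : Set V → G → ℤ, (∀ k ∈ Z, θ k ∈ Φ.Ψ) → ∀ g ∈ Φ.F,
      (∀ k ∈ Z, θ k g ≠ 0 ∧ |θ k g| ≤ (F1.index * J0 : ℕ)) → ∀ y ∈ Φ.F, ∀ y' ∈ Φ.F,
      ∃ t : ℕ, t ≤ 2 * K * (2 * c + 1) ∧ Far θ (y * g ^ t) ∧ Far θ (y' * g ^ t) := by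
    intro θ hθ g hg hj y hy y' hy'
    obtain ⟨t, ht, h⟩ := exists_far ((Finset.univ : Finset Bool) ×ˢ hZ.toFinset) (2 * K) c
      (F1.index * J0) n (by
        rw [Finset.card_product, ← Set.ncard_eq_toFinset_card Z hZ]
        simpa using hZK)
      (fun i => θ i.2 (cond i.1 y y') - θ i.2 (yk i.2)) (fun i => θ i.2 g)
      (fun i hi => hj _ (by simpa using hi)) (by omega)
    have key : ∀ b : Bool, cond b y y' ∈ Φ.F → Far θ (cond b y y' * g ^ t) := fun b hb k hk w hw =>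
      h (b, k) (by simpa using hk) w (by
        rw [Φ.hom _ (hθ k hk) _ hb _ (Φ.F.pow_mem hg t), (Φ.hom _ (hθ k hk)).pow hg] at hw
        convert hw using 1
        ring)
    exact ⟨t, ht, key true hy, key false hy'⟩
  have hinv : ∀ f ∈ F2, ∀ {a b : V}, Rel (fam F2 Z) a b → Rel (fam F2 Z) (f • a) (f • b) :=
    fun f hf a b h => by
      have := (rel_smul f).2 h
      rwa [smul_fam_of_mem Z hf] at this
  let E : G → G → Prop := fun y y' => ∃ f ∈ F2, Rel (fam F2 Z) (f • y' • x0) (y • x0)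
  have hrefl : ∀ y, E y y := fun y => ⟨1, F2.one_mem, by rw [one_smul]; exact Rel.refl _ _⟩
  have hsymm : ∀ y y', E y y' → E y' y := by
    rintro y y' ⟨f, hf, h⟩
    have := hinv _ (F2.inv_mem hf) h
    rw [inv_smul_smul] at this
    exact ⟨f⁻¹, F2.inv_mem hf, this.symm⟩
  have htrans : ∀ y y' y'', E y y' → E y' y'' → E y y'' := by
    rintro y y' y'' ⟨f, hf, h⟩ ⟨f', hf', h'⟩
    exact ⟨f * f', F2.mul_mem hf hf', by rw [mul_smul]; exact (hinv f hf h').trans h⟩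
  have hstep : ∀ y u : G, Clear X (fam F2 Z) r2 (y • x0) → X.dist x0 (u • x0) ≤ r2 →
      E y (y * u) := fun y u h hd => ⟨1, F2.one_mem, by
    rw [one_smul]
    exact (h.rel hM (by rwa [mul_smul, hc.dist_smul])).symm⟩
  have hline : ∀ θ : Set V → G → ℤ, (∀ k ∈ Z, θ k ∈ Φ.Ψ ∧ Kills Φ.F (θ k) k) → ∀ g ∈ Φ.F,
      (∀ k ∈ Z, θ k g = 0) → X.dist x0 (g • x0) ≤ r2 → ∀ y ∈ Φ.F, Far θ y → ∀ i : ℕ,
      E y (y * g ^ i) := by
    intro θ hθ g hg h0 hd y hy hfar i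
    induction i with
    | zero => simpa using hrefl y
    | succ i ih =>
      rw [pow_succ, ← mul_assoc]
      refine htrans _ _ _ ih (hstep _ _ (hclear θ hθ _ (Φ.F.mul_mem hy (Φ.F.pow_mem hg i))
        fun k hk w hw => hfar k hk w ?_) hd)
      rwa [Φ.hom _ (hθ k hk).1 _ hy _ (Φ.F.pow_mem hg i), (Φ.hom _ (hθ k hk).1).pow hg, h0 k hk,
        mul_zero, add_zero] at hw
  have hcomm : ∀ y, ∀ u ∈ Φ.F, ∀ v ∈ Φ.F, v ∈ F1 → E (y * u * v) (y * v * u) :=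
    fun y u hu v hv hv' => ⟨y * (u * v * u⁻¹ * v⁻¹) * y⁻¹, h2n.conj_mem _ (h2c u hu v hv hv') y, by
      rw [smul_smul, show y * (u * v * u⁻¹ * v⁻¹) * y⁻¹ * (y * v * u) = y * u * v by group]
      exact Rel.refl _ _⟩
  have hp := Φ.F.pow_mem Φ.mem1 F1.index
  have hq := Φ.F.pow_mem Φ.mem2 F1.index
  have hq1 : ∀ t : ℕ, (Φ.b2 ^ F1.index) ^ t ∈ F1 := fun t => F1.pow_mem (F1.pow_index_mem _) t
  have hpow : ∀ θ ∈ Φ.Ψ, ∀ g ∈ Φ.F, θ g ≠ 0 → |θ g| ≤ J0 →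
      θ (g ^ F1.index) ≠ 0 ∧ |θ (g ^ F1.index)| ≤ (F1.index * J0 : ℕ) := fun θ hθ g hg h0 h1 => by
    rw [(Φ.hom _ hθ).pow hg, abs_mul, Nat.abs_cast, Nat.cast_mul]
    exact ⟨mul_ne_zero (Nat.cast_ne_zero.2 he) h0, mul_le_mul_of_nonneg_left h1 (Nat.cast_nonneg _)⟩
  have main : ∀ y ∈ Φ.F, ∀ y' ∈ Φ.F, Far χ y → Far χ y' → E y y' := fun y hy y' hy' h1 h2 =>
    rows_cols E hrefl hsymm htrans (Far χ) (Far ψ) (fun u => X.dist x0 (u • x0) ≤ 2 * R0 + 1) hp hq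
      (fun y hy h s => pow_mul Φ.b1 _ s ▸ hline χ (fun k h => (hk k h).1) _ Φ.mem1
        (fun k h => (hk k h).2.2.1) hr2 y hy h _)
      (fun y hy h s => pow_mul Φ.b2 _ s ▸ hline ψ (fun k h => (hk k h).2.1) _ Φ.mem2
        (fun k h => (hk k h).2.2.2.2.1) hr3 y hy h _)
      (fun y _ s t => hcomm y _ (Φ.F.pow_mem hp s) _ (Φ.F.pow_mem hq t) (hq1 t))
      (fun y _ u hu t => hsymm _ _ (hcomm y u hu _ (Φ.F.pow_mem hq t) (hq1 t)))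
      (fun y hy u _ hu h => hstep y u (hclear χ (fun k h => (hk k h).1) y hy h) (hu.trans hr1))
      (fun y hy => (hex ψ (fun k h => (hk k h).2.1.1) _ hp (fun k h => hpow _ (hk k h).2.1.1 _
        Φ.mem1 (hk k h).2.2.2.2.2.1 (hJ0 _ (hk k h).2.1.1).1) y hy y hy).imp fun _ h => h.2.1)
      (fun y hy y' hy' => (hex χ (fun k h => (hk k h).1.1) _ hq (fun k h => hpow _ (hk k h).1.1 _
        Φ.mem2 (hk k h).2.2.2.1 (hJ0 _ (hk k h).1.1).2) y hy y' hy').imp fun _ h => h.2)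
      (fun P y0 h0 h1 h2 y hy => hc.orbit_induction hR0 h0 h1 h2 hy) hy hy' h1 h2
  have entry : ∀ z, Clear X (fam F2 Z) (R0 + 2 * K * (2 * c + 1) * r2) z →
      ∃ y ∈ Φ.F, Far χ y ∧ Rel (fam F2 Z) z (y • x0) := fun z hz => by
    obtain ⟨y, hy, hd⟩ := hR0 z
    obtain ⟨t, ht, h, -⟩ := hex χ (fun k h => (hk k h).1.1) _ Φ.mem2 (fun k h =>
      ⟨(hk k h).2.2.2.1, (hJ0 _ (hk k h).1.1).2.trans (by
        exact_mod_cast Nat.le_mul_of_pos_left J0 (Nat.pos_of_ne_zero he))⟩) y hy y hy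
    have hd2 : ∀ i : ℕ, X.dist z ((y * Φ.b2 ^ i) • x0) ≤ R0 + i * r2 := fun i => by
      induction i with
      | zero => simpa using hd
      | succ i ih =>
        have := hM.tri z ((y * Φ.b2 ^ i) • x0) ((y * Φ.b2 ^ i) • Φ.b2 • x0)
        rw [hc.dist_smul, smul_smul, mul_assoc, ← pow_succ] at this
        rw [add_mul, one_mul]
        omega
    exact ⟨_, Φ.F.mul_mem hy (Φ.F.pow_mem Φ.mem2 t), h,
      hz.rel hM ((hd2 t).trans (Nat.add_le_add_left (Nat.mul_le_mul_right _ ht) _))⟩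
  obtain ⟨y, hy, a1, a2⟩ := entry z hz
  obtain ⟨y', hy', b1, b2⟩ := entry z' hz'
  obtain ⟨f, hf, h⟩ := main y hy y' hy' a1 b1
  exact ⟨f, hf, ((hinv f hf b2).trans h).trans a2.symm⟩

end Pool.Agent.Lib.MP_3467cd_al
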