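import Pool.Agent.Lib.MP_3467cd_al.GoodL
import Pool.Agent.Lib.MP_3467cd_al.Fam

open Pointwise

namespace Pool.Agent.Lib.MP_3467cd_al

variable {G : Type} [Group G] {V : Type} [MulAction G V] {X : SimpleGraph V}

theorem flip_mem {F : Subgroup G} {a k : Set V} :
    k ∈ fam F {a} ↔ ∃ f ∈ F, k = f • a ∨ k = (f • a)ᶜ := by
  constructor
  · rintro ⟨f, hf, e, he, hk⟩
    rw [Set.mem_singleton_iff] at he
    subst he
    exact ⟨f, hf, hk⟩
  · rintro ⟨f, hf, hk⟩
    exact ⟨f, hf, a, rfl, hk⟩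

theorem flip_near (hc : IsCubulation G X) {F : Subgroup G} {r : ℕ} {a : Set V}
    (H : ∀ f ∈ F, Near X r (f • a) a → f • a = a) {f f' : G} (hf : f ∈ F) (hf' : f' ∈ F)
    (hn : Near X r (f • a) (f' • a)) : f • a = f' • a := by
  have h1 := (hc.near_smul f'⁻¹).2 hn
  rw [inv_smul_smul, smul_smul] at h1
  have h2 := H _ (F.mul_mem (F.inv_mem hf') hf) h1
  rw [mul_smul, inv_smul_eq_iff] at h2
  exact h2

theorem flip_rel {F : Subgroup G} {E : Set (Set V)} {f : G} (hf : f ∈ F) {y z : V}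
    (H : Rel (fam F E) y z) : Rel (fam F E) (f • y) (f • z) := by
  have h := (rel_smul f).2 H
  rwa [smul_fam_of_mem E hf] at h

theorem flip_inn (hc : IsCubulation G X) (f : G) {a : Set V} {x : V} (hx : x ∈ inn X a) :
    f • x ∈ inn X (f • a) := by
  rw [← hc.smul_inn]
  exact Set.smul_mem_smul_set hx

/-- the orbit of one halfspace under a subgroup moving it far or not at all -/
theorem sparse_fam_single (hc : IsCubulation G X) {F : Subgroup G} {r : ℕ} {a : Set V}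
    (H : ∀ f ∈ F, Near X r (f • a) a → f • a = a) : Sparse X r (fam F {a}) := by
  intro k hk k' hk' hn
  obtain ⟨f, hf, rfl | rfl⟩ := flip_mem.1 hk <;> obtain ⟨f', hf', rfl | rfl⟩ := flip_mem.1 hk'
  · exact Or.inl (flip_near hc H hf hf' hn).symm
  · exact Or.inr (congrArg compl (flip_near hc H hf hf' (near_compl_right.1 hn)).symm)
  · refine Or.inr ?_
    rw [compl_compl]
    exact (flip_near hc H hf hf' (near_compl_left.1 hn)).symm
  · exact Or.inl (congrArg compl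
      (flip_near hc H hf hf' (near_compl_right.1 (near_compl_left.1 hn))).symm)

theorem two_sided_single {F : Subgroup G} {r : ℕ} {a : Set V} (ha : IsHalf X a)
    (H : ∀ f ∈ F, Near X r (f • a) a → f • a = a) {f : G} (hf : f ∈ F) : f • a ≠ aᶜ := by
  intro h
  have hn : Near X r (f • a) a := by
    rw [h]
    exact near_compl_left.2 (ha.near_self r)
  exact ha.ne_compl ((H f hf hn).symm.trans h)

/-- weak placement -/
theorem weak_place (hc : IsCubulation G X) {D L : ℕ} (hD : Dim X D) (hB : Bridge X L)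
    {F : Subgroup G} (hF : F.FiniteIndex) {r : ℕ} (hr : D * L ≤ r) {a : Set V} (ha : Good X a)
    (H : ∀ f ∈ F, Near X r (f • a) a → f • a = a) {h : Set V} (hh : IsHalf X h)
    (hd : Deep X h) : ∃ u ∈ fam F {a}, u ⊆ h := by
  have hM := hc.median
  obtain ⟨a0, ha0, b0, hab, hb0⟩ := ha.1.inn_nonempty
  obtain ⟨R, hR⟩ := hc.cobounded hF a0
  obtain ⟨z, -, hz⟩ := ha.2.1 (R + 2)
  obtain ⟨f, hf, hzf⟩ := hR z
  have h1 : f • a0 ∈ a := by
    by_contra h
    have := hz _ h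
    omega
  have h2 : f • b0 ∈ a := by
    by_contra h
    have e1 := hz _ h
    have e2 := hM.tri z (f • a0) (f • b0)
    have e3 := dist_of_adj (hc.adj f _ _ hab)
    omega
  have h3 : f • a0 ∈ f • a := Set.smul_mem_smul_set ha0
  have h4 : f • b0 ∉ f • a := fun h => hb0 (Set.smul_mem_smul_set_iff.1 h)
  have hn : ¬ Near X r (f • a) a := fun h => h4 ((H f hf h).symm ▸ h2)
  have hfa : IsHalf X (f • a) := ha.1.smul hc f
  have key : ∃ k ∈ fam F {a}, IsHalf X k ∧ k ⊆ a ∧ ¬ Near X r k a := by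
    rcases not_cross_iff.1 (fun h : Cross (f • a) a => hn (h.near hM hfa ha.1 r)) with
      h | h | h | h
    · exact absurd h1 (Set.disjoint_left.1 h h3)
    · exact ⟨f • a, flip_mem.2 ⟨f, hf, Or.inl rfl⟩, hfa, h, hn⟩
    · exact absurd (h h2) h4
    · refine ⟨(f • a)ᶜ, flip_mem.2 ⟨f, hf, Or.inr rfl⟩, hfa.compl hM, fun y hy => ?_,
        fun h' => hn (near_compl_left.1 h')⟩
      by_contra hy'
      exact Set.disjoint_left.1 h hy hy'
  obtain ⟨k, hkZ, hk, hka, hkn⟩ := key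
  have hN : Nest X L k a := hD.nest_of_not_near hM hB.1 hk ha.1 hka fun h => hkn (h.mono hr)
  have hT : Tight X aᶜ k := hB.2 _ _ (ha.1.compl hM) (by rwa [compl_compl])
  obtain ⟨g, hg, h5 | h5⟩ := hc.place0 hF ((ha.1.compl hM).cvx hM) hT hh hd
  · exact ⟨_, smul_mem_fam (compl_mem_fam (mem_fam_self F (Set.mem_singleton a))) hg, h5⟩
  · exact ⟨_, smul_mem_fam hkZ hg, h5⟩

/-- two disjoint translates of `aᶜ` can be found around one component -/
theorem exists_head_pair (hc : IsCubulation G X) {F : Subgroup G} {r : ℕ} {a : Set V}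
    (ha : IsHalf X a) (H : ∀ f ∈ F, Near X r (f • a) a → f • a = a)
    (hf : ∃ f ∈ F, Disjoint (f • aᶜ) aᶜ) {x : V} (hx : x ∈ inn X a) :
    ∃ u ∈ F, u • a ≠ a ∧ Outer X (fam F {a}) x (u • aᶜ) := by
  have hM := hc.median
  have hZ : HFam X (fam F {a}) := hfam_fam hc F fun e he => by
    rw [Set.mem_singleton_iff.1 he]
    exact ha
  have hL : Lam (fam F {a}) := Sparse.lam hM hZ (sparse_fam_single hc H)
  have haZ : aᶜ ∈ fam F {a} := compl_mem_fam (mem_fam_self F (Set.mem_singleton a))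
  have hout : Outer X (fam F {a}) x aᶜ := outer_of_inn haZ hx
  have key : ∀ n : ℕ, ∀ f ∈ F, f • aᶜ ⊆ a → ∀ p ∈ f • aᶜ, ∀ q, q ∉ a → X.dist p q = n →
      ∃ u ∈ F, u • a ≠ a ∧ Outer X (fam F {a}) x (u • aᶜ) := by
    intro n
    induction n using Nat.strong_induction_on with
    | _ n ih =>
      intro f hf hfa p hp q hq hn
      have hfh : IsHalf X (f • aᶜ) := (ha.compl hM).smul hc f
      have hdis : Disjoint (f • aᶜ) (comp (fam F {a}) x) := by
        rcases comp_side (x := x) (smul_mem_fam haZ hf) with h | h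
        · have h1 : f • aᶜ = a := ha.eq_of_inn hM hfh hfa hx (h (Rel.refl _ x))
          rw [Set.smul_set_compl] at h1
          exact absurd (by rw [← h1, compl_compl, h1]) (two_sided_single ha H hf)
        · exact h
      obtain ⟨o, ho, hfo⟩ := hL.cvx_sub_outer hM hZ (hfh.cvx hM) ⟨p, hp⟩ hdis
      obtain ⟨g, hg, rfl | rfl⟩ := flip_mem.1 ho.1
      · have hd : Disjoint (g • a) aᶜ := ho.disjoint hM hZ hL hout (two_sided_single ha H hg)
        have hqo : q ∉ g • a := fun h => Set.disjoint_left.1 hd h hq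
        obtain ⟨a', b', hab, ha', hb', -, hbt, -⟩ := hM.exit_edge (hfo hp) hqo
        have hne : b' ≠ q := by
          rintro rfl
          have haa : a' ∈ a := by
            by_contra h
            exact Set.disjoint_left.1 hd ha' h
          have e1 := ha.half_eq hM hab haa hq
          have e2 := (ha.smul hc g).half_eq hM hab ha' hb'
          exact ho.not_mem (Rel.refl _ x) (e2 ▸ e1.symm ▸ hx.1)
        have hlt : X.dist p b' < n := by
          have e1 : X.dist b' q ≠ 0 := fun h => hne (hM.dist_eq_zero.1 h)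
          unfold Btw at hbt
          omega
        refine ih _ hlt (g⁻¹ * f) (F.mul_mem (F.inv_mem hg) hf) ?_ (g⁻¹ • p) ?_ (g⁻¹ • b') ?_
          (hc.dist_smul _ _ _)
        · rw [mul_smul, ← Set.subset_smul_set_iff]
          exact hfo
        · rw [mul_smul]
          exact Set.smul_mem_smul_set hp
        · exact fun h => hb' (Set.mem_smul_set_iff_inv_smul_mem.2 h)
      · refine ⟨g, hg, fun h => ?_, by rwa [Set.smul_set_compl]⟩
        rw [h] at hfo
        exact hfo hp (hfa hp)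
  obtain ⟨f, hf, hd⟩ := hf
  obtain ⟨q, hq⟩ := ha.compl_nonempty
  refine key _ f hf (fun y hy => ?_) (f • q) (Set.smul_mem_smul_set hq) q hq rfl
  by_contra h
  exact Set.disjoint_left.1 hd hy h

/-- without two disjoint translates of `a` there are two disjoint translates of `aᶜ` -/
theorem flip_heads {F : Subgroup G} {a : Set V} (hF : Facing X)
    (hno : ∀ f ∈ F, ¬ Disjoint (f • a) a)
    (hwp : ∀ h, IsHalf X h → Deep X h → ∃ u ∈ fam F {a}, u ⊆ h) :
    ∃ f ∈ F, Disjoint (f • aᶜ) aᶜ := by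
  have tr : ∀ (b : Set V) (f f' : G), Disjoint (f • b) (f' • b) → Disjoint ((f'⁻¹ * f) • b) b := by
    intro b f f' h
    rw [Set.disjoint_left] at h ⊢
    intro y hy hyb
    rw [mul_smul, Set.mem_smul_set_iff_inv_smul_mem, inv_inv] at hy
    exact h hy (Set.smul_mem_smul_set hyb)
  have t1 : ∀ f ∈ F, ∀ f' ∈ F, ¬ Disjoint (f • a) (f' • a) := fun f hf f' hf' h =>
    hno _ (F.mul_mem (F.inv_mem hf') hf) (tr a f f' h)
  have t2 : ∀ f ∈ F, ∀ f' ∈ F, Disjoint (f • a)ᶜ (f' • a)ᶜ → ∃ f ∈ F, Disjoint (f • aᶜ) aᶜ := by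
    intro f hf f' hf' h
    rw [← Set.smul_set_compl, ← Set.smul_set_compl] at h
    exact ⟨_, F.mul_mem (F.inv_mem hf') hf, tr aᶜ f f' h⟩
  obtain ⟨h1, h2, h3, g1, g2, g3, d12, d13, d23⟩ := hF
  obtain ⟨u1, m1, s1⟩ := hwp h1 g1.1 g1.2.1
  obtain ⟨u2, m2, s2⟩ := hwp h2 g2.1 g2.2.1
  obtain ⟨u3, m3, s3⟩ := hwp h3 g3.1 g3.2.1
  have e12 := d12.mono s1 s2
  have e13 := d13.mono s1 s3
  have e23 := d23.mono s2 s3
  obtain ⟨f1, hf1, rfl | rfl⟩ := flip_mem.1 m1
  · obtain ⟨f2, hf2, rfl | rfl⟩ := flip_mem.1 m2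
    · exact absurd e12 (t1 _ hf1 _ hf2)
    · obtain ⟨f3, hf3, rfl | rfl⟩ := flip_mem.1 m3
      · exact absurd e13 (t1 _ hf1 _ hf3)
      · exact t2 _ hf2 _ hf3 e23
  · obtain ⟨f2, hf2, rfl | rfl⟩ := flip_mem.1 m2
    · obtain ⟨f3, hf3, rfl | rfl⟩ := flip_mem.1 m3
      · exact absurd e23 (t1 _ hf2 _ hf3)
      · exact t2 _ hf1 _ hf3 e13
    · exact t2 _ hf1 _ hf2 e12

/-- an element conjugating the stabiliser of the component into the stabiliser of `a` -/
theorem flip_conj (hc : IsCubulation G X) {F : Subgroup G} {r : ℕ} {a : Set V} (ha : Good X a)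
    (H : ∀ f ∈ F, Near X r (f • a) a → f • a = a) (hno : ∀ f ∈ F, ¬ Disjoint (f • a) a)
    (hwp : ∀ h, IsHalf X h → Deep X h → ∃ u ∈ fam F {a}, u ⊆ h) {x : V} (hx : x ∈ inn X a) :
    ∃ f0 ∈ F, ∀ s ∈ F, Rel (fam F {a}) x (s • x) → (f0 * s * f0⁻¹) • a = a := by
  have hM := hc.median
  have hZ : HFam X (fam F {a}) := hfam_fam hc F fun e he => by
    rw [Set.mem_singleton_iff.1 he]
    exact ha.1
  have hL : Lam (fam F {a}) := Sparse.lam hM hZ (sparse_fam_single hc H)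
  obtain ⟨x', -, hx'⟩ := inn_partner hx
  have hout : Outer X (fam F {a}) x' a := ⟨mem_fam_self F (Set.mem_singleton a), x', hx',
    Rel.refl _ x'⟩
  have T0 : ∀ f ∈ F, Outer X (fam F {a}) x' (f • a) → f • a = a := by
    intro f hf ho
    by_contra hne
    exact hno f hf (ho.disjoint hM hZ hL hout hne)
  have T1 : ∀ f ∈ F, Rel (fam F {a}) x' (f • x') → f • a = a := by
    intro f hf hr
    refine T0 f hf ⟨flip_mem.2 ⟨f, hf, Or.inl rfl⟩, f • x', ?_, hr⟩
    rw [← Set.smul_set_compl]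
    exact flip_inn hc f hx'
  have T2 : ∃ f0 ∈ F, Rel (fam F {a}) x' (f0 • x) := by
    obtain ⟨k, hk, hN⟩ := hc.deep_nest (ha.1.compl hM) ha.2.2 le_rfl
    obtain ⟨u, hu, huk⟩ := hwp k hk.1 hk.2.1
    have hss := hN.ssubset le_rfl
    have huh : IsHalf X u := hZ.1 u hu
    have hdis : Disjoint u (comp (fam F {a}) x') := by
      rcases comp_side (x := x') hu with h | h
      · have h1 : u = aᶜ :=
          (ha.1.compl hM).eq_of_inn hM huh (huk.trans hss.1) hx' (h (Rel.refl _ x'))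
        exact absurd (h1 ▸ huk) hss.2
      · exact h
    obtain ⟨o, ho, huo⟩ := hL.cvx_sub_outer hM hZ (huh.cvx hM) huh.nonempty hdis
    obtain ⟨f, hf, rfl | rfl⟩ := flip_mem.1 ho.1
    · obtain ⟨y, hy⟩ := huh.nonempty
      have h1 := huo hy
      rw [T0 f hf ho] at h1
      exact absurd h1 (hss.1 (huk hy))
    · refine ⟨f, hf, ho.inn_rel hM hZ hL ?_⟩
      rw [compl_compl]
      exact flip_inn hc f hx
  obtain ⟨f0, hf0, hr0⟩ := T2
  refine ⟨f0, hf0, fun s hs hr => T1 _ (F.mul_mem (F.mul_mem hf0 hs) (F.inv_mem hf0)) ?_⟩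
  have h1 := flip_rel (F.inv_mem hf0) hr0
  rw [inv_smul_smul] at h1
  have h2 := flip_rel hf0 (hr.trans (flip_rel hs h1).symm)
  rw [mul_smul, mul_smul]
  exact hr0.trans h2

/-- flipping -/
theorem exists_flip (hc : IsCubulation G X) {L : ℕ} (hB : Bridge X L) (hS : SepA G X)
    (hF : Facing X) {a : Set V} (ha : Good X a) : ∃ g : G, Nest X L (g • a) aᶜ := by
  have hM := hc.median
  obtain ⟨D, hD⟩ := hc.exists_dim
  obtain ⟨F, -, hFi, hH⟩ := hS.1 (D * L)
  have H : ∀ f ∈ F, Near X (D * L) (f • a) a → f • a = a := fun f hf => hH f hf a ha.1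
  by_cases hcase : ∃ f ∈ F, Disjoint (f • a) a
  · obtain ⟨f, hf, hd⟩ := hcase
    refine ⟨f, hD.nest_of_not_near hM hB.1 (ha.1.smul hc f) (ha.1.compl hM)
      hd.subset_compl_right fun h => ?_⟩
    rw [H f hf (near_compl_right.1 h)] at hd
    obtain ⟨y, hy⟩ := ha.1.nonempty
    exact Set.disjoint_left.1 hd hy hy
  exfalso
  have hno : ∀ f ∈ F, ¬ Disjoint (f • a) a := fun f hf h => hcase ⟨f, hf, h⟩
  have hwp : ∀ h, IsHalf X h → Deep X h → ∃ u ∈ fam F {a}, u ⊆ h :=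
    fun h hh hd => weak_place hc hD hB hFi le_rfl ha H hh hd
  obtain ⟨x, hx⟩ := ha.1.inn_nonempty
  obtain ⟨u, hu, hua, huo⟩ := exists_head_pair hc ha.1 H (flip_heads hF hno hwp) hx
  obtain ⟨f0, hf0, hfix⟩ := flip_conj hc ha H hno hwp hx
  have hZ : HFam X (fam F {a}) := hfam_fam hc F fun e he => by
    rw [Set.mem_singleton_iff.1 he]
    exact ha.1
  have hL : Lam (fam F {a}) := Sparse.lam hM hZ (sparse_fam_single hc H)
  have hpow : ∀ n : ℕ, (f0 ^ (n + 1) * u * (f0 ^ (n + 1))⁻¹) • a = a := by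
    intro n
    induction n with
    | zero =>
      rw [zero_add, pow_one]
      refine hfix u hu (huo.inn_rel hM hZ hL ?_)
      rw [Set.smul_set_compl, compl_compl]
      exact flip_inn hc u hx
    | succ n ih =>
      have e : f0 ^ (n + 1 + 1) * u * (f0 ^ (n + 1 + 1))⁻¹ =
          f0 * (f0 ^ (n + 1) * u * (f0 ^ (n + 1))⁻¹) * f0⁻¹ := by group
      rw [e]
      refine hfix _ (F.mul_mem (F.mul_mem (F.pow_mem hf0 _) hu) (F.inv_mem (F.pow_mem hf0 _)))
        (hL.inn_rel hM hZ (mem_fam_self F (Set.mem_singleton a)) hx ?_)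
      have h1 := flip_inn hc (f0 ^ (n + 1) * u * (f0 ^ (n + 1))⁻¹) hx
      rwa [ih] at h1
  obtain ⟨F', hN', hFi', hF'⟩ := hS.2 (u • a) a (ha.1.smul hc u) ha.1 hua
  obtain ⟨n, hn⟩ := Nat.exists_eq_succ_of_ne_zero hFi'.index_ne_zero
  have hp : f0 ^ (n + 1) ∈ F' := by
    have := F'.pow_index_mem f0
    rwa [hn] at this
  refine hF' (f0 ^ (n + 1) * (u * (f0 ^ (n + 1))⁻¹ * u⁻¹))
    (F'.mul_mem hp (hN'.conj_mem _ (F'.inv_mem hp) u)) ?_
  rw [smul_smul]
  have e : f0 ^ (n + 1) * (u * (f0 ^ (n + 1))⁻¹ * u⁻¹) * u =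
      f0 ^ (n + 1) * u * (f0 ^ (n + 1))⁻¹ := by group
  rw [e]
  exact hpow n

/-- placement -/
theorem exists_place (hc : IsCubulation G X) {L : ℕ} (hB : Bridge X L) (hS : SepA G X)
    (hF : Facing X) {a h : Set V} (ha : Good X a) (hh : IsHalf X h) (hd : Deep X h) {n : ℕ}
    (hn : 1 ≤ n) : ∃ g : G, Nest X n (g • a) h := by
  have hM := hc.median
  obtain ⟨g, hg⟩ := exists_flip hc hB hS hF ha
  obtain ⟨k, hk, hN⟩ := hc.deep_nest hh hd hn
  obtain ⟨f, -, h1 | h1⟩ := hc.place0 (F := ⊤) inferInstance (ha.1.cvx hM) (hB.2 _ _ ha.1 hg)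
    hk.1 hk.2.1
  · exact ⟨f, hN.enlarge hn (ha.1.smul hc f) hh h1 subset_rfl⟩
  · rw [smul_smul] at h1
    exact ⟨f * g, hN.enlarge hn (ha.1.smul hc _) hh h1 subset_rfl⟩

end Pool.Agent.Lib.MP_3467cd_al
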