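import Pool.Agent.Lib.MP_3467cd_al.Sys1
import Pool.Agent.Lib.MP_3467cd_al.Flip
import Pool.Agent.Lib.MP_3467cd_al.Two

open Pointwise

namespace Pool.Agent.Lib.MP_3467cd_al

variable {G : Type} [Group G] {V : Type} [MulAction G V] {X : SimpleGraph V}

theorem exists_sys (hc : IsCubulation G X) {L : ℕ} (hB : Bridge X L) (hS : SepA G X)
    (hS' : SepB G X) (hF : Facing X) (hG : GiantProp G X) (hE : EscProp X) :
    ∃ (F : Subgroup G) (E : Set (Set V)) (j : ℕ), Sys X F E j := by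
  have hM := hc.median
  obtain ⟨j, hEj⟩ := hE
  obtain ⟨Cf, hCf, hSB⟩ := hS'
  have hex : ∃ b, Good X b := by
    obtain ⟨h1, _, _, hg, _⟩ := hF
    exact ⟨h1, hg⟩
  obtain ⟨C0, hC0, hC0'⟩ : ∃ C0, Cf (4 * j + 4) ≤ C0 ∧ L ≤ C0 :=
    ⟨_, le_max_left _ _, le_max_right _ _⟩
  have h0 : 1 ≤ C0 := hB.1.trans hC0'
  obtain ⟨R, T, hTne, hT, hpair⟩ := exists_pair_types hc C0 hex
  obtain ⟨ρ, hρ⟩ := hG (4 * T.card)
  obtain ⟨r, hr, hr'⟩ : ∃ r, ρ ≤ r ∧ j ≤ r := ⟨_, le_max_left _ _, le_max_right _ _⟩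
  obtain ⟨m', hm'⟩ := hEj r
  obtain ⟨m, hm1, hm2, hm3⟩ : ∃ m, m' ≤ m ∧ R ≤ m ∧ 4 * j + 4 ≤ m :=
    ⟨m' + R + (4 * j + 4), by omega, by omega, by omega⟩
  obtain ⟨C1, hC1, hC1'⟩ : ∃ C1, Cf m ≤ C1 ∧ C0 ≤ C1 := ⟨_, le_max_left _ _, le_max_right _ _⟩
  obtain ⟨E, hEf, hEc, hEg, hE2, hE3, hET⟩ := exists_chain hc h0 hC1'
    (fun a h ha hh hd => exists_place hc hB hS hF ha hh hd (h0.trans hC1')) hex T
    (fun p hp => ⟨(hT p hp).1, (hT p hp).2.1, (hT p hp).2.2.1⟩)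
  have chain : ∀ e ∈ E, ∀ e' ∈ E, e ⊆ e' ∨ e' ⊆ e := by
    intro e he e' he'
    by_cases h : e = e'
    · exact Or.inl h.subset
    · exact (hE2 e he e' he' h).imp Nest.subset Nest.subset
  obtain ⟨RE, hRE⟩ := finite_near hM hEf fun e he => (hEg e he).1
  obtain ⟨r', hr1, hr2⟩ : ∃ r', m ≤ r' ∧ RE + 2 * j + 2 ≤ r' :=
    ⟨_, le_max_left _ _, le_max_right _ _⟩
  obtain ⟨F1, n1, f1, hF1⟩ := hSB r' E hEf (fun e he => (hEg e he).1) chain
  obtain ⟨F, hle, hn, hfi, hGi⟩ := hρ F1 n1 f1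
  have sparse : ∀ f ∈ F, ∀ e ∈ E, ∀ e' ∈ E, Near X (4 * j + 4) (f • e) e' →
      e = e' ∧ f • e = e := by
    intro f hf e he e' he' hN
    have h : e = e' := by
      by_contra h
      exact (hF1 f (hle hf) e he e' he').2 _ (hm3.trans hr1)
        ((hE2 e he e' he' h).imp (fun H => H.mono (hCf _) hC0) fun H => H.mono (hCf _) hC0) hN
    exact ⟨h, ((hF1 f (hle hf) e he e' he').1 (hN.mono (hm3.trans hr1))).2 h⟩
  have gA : GFam X j (fam F E) := gfam_of_sparse hc hEg sparse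
  have far : ∀ e ∈ E, ∀ e' ∈ E, (Nest X C1 e e' ∨ Nest X C1 e' e) →
      ∀ f ∈ F, ¬ Near X m (f • e) e' := fun e he e' he' H f hf =>
    (hF1 f (hle hf) e he e' he').2 m hr1
      (H.imp (fun H => H.mono (hCf _) hC1) fun H => H.mono (hCf _) hC1)
  have tA : Tri X m (fam F E) := tri_fam hc
    (fun f hf e he hN => ((hF1 f (hle hf) e he e he).1 (hN.mono hr1)).2 rfl)
    (fun e1 h1 e2 h2 e3 h3 n12 n13 n23 => (hE3 e1 h1 e2 h2 e3 h3 n12 n13 n23).imp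
      (far e1 h1 e2 h2) (Or.imp (far e1 h1 e3 h3) (far e2 h2 e3 h3)))
  have esc : ∀ (g : G) z, Giant X (fam F E) (g • fam F E) j z →
      ∃ z', Rel (fam F E ∪ g • fam F E) z z' ∧ Clear X (fam F E ∪ g • fam F E) r z' := by
    rintro g z ⟨z1, hz1, h | h⟩
    · obtain ⟨z', h1, h2⟩ := hm' _ _ gA (gA.smul hc g) (tA.mono hm1) ((tA.mono hm1).smul hc g) z1 h
      exact ⟨z', hz1.trans h1, h2⟩
    · obtain ⟨z', h1, h2⟩ := hm' _ _ (gA.smul hc g) gA ((tA.mono hm1).smul hc g) (tA.mono hm1) z1 h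
      rw [Set.union_comm] at h1 h2
      exact ⟨z', hz1.trans h1, h2⟩
  obtain ⟨p0, hp0⟩ := hTne
  obtain ⟨g0, e1, e2⟩ := hET p0 hp0
  have hN0 : Nest X C0 (g0 • p0.2) (g0 • p0.1) := (hT p0 hp0).2.2.1.smul hc g0
  refine ⟨F, E, j, hn, hfi, hEf, hEg, ⟨_, e2, _, e1, (hN0.ssubset h0).ne⟩, chain, sparse,
    ⟨RE, hRE, fun f hf e he e' he' hN => ((hF1 f (hle hf) e he e' he').1 (hN.mono hr2)).1⟩,
    ?_, ?_, ?_, ?_, twoIn_of_facing hc hB hF⟩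
  · intro g z hz
    obtain ⟨z', h1, h2⟩ := esc g z hz
    rw [clear_union] at h2
    exact ⟨z', h1, h2.1.mono hr', h2.2.mono hr'⟩
  · intro g z z' hz hz'
    obtain ⟨z1, h1, h2⟩ := esc g z hz
    obtain ⟨z2, h3, h4⟩ := esc g z' hz'
    have hU : fam F E ∪ g • fam F E = fam F (E ∪ g • E) := by rw [fam_union, smul_fam hn]
    rw [hU] at h1 h2 h3 h4 ⊢
    have hcard : (E ∪ g • E).ncard ≤ 4 * T.card := by
      have k1 := Set.ncard_union_le E (g • E)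
      rw [Set.ncard_smul_set] at k1
      omega
    have hgood : ∀ k ∈ E ∪ g • E, Good X k := by
      rintro k (hk | ⟨e, he, rfl⟩)
      · exact hEg k hk
      · exact (hEg e he).smul hc g
    obtain ⟨f, hf, h5⟩ := hGi (E ∪ g • E) (hEf.union hEf.smul_set) hcard hgood z1 z2
      (h2.mono hr) (h4.mono hr)
    refine ⟨f, hf, Rel.trans ?_ (h5.trans h1.symm)⟩
    have h6 := (rel_smul f).2 h3
    rwa [smul_fam_of_mem _ hf] at h6
  · intro D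
    obtain ⟨R1, hR1⟩ := hpair D
    refine ⟨R1, fun x y hxy => ?_⟩
    obtain ⟨g, p, hp, h1, h2⟩ := hR1 x y hxy
    obtain ⟨g1, k1, k2⟩ := hET p hp
    obtain ⟨-, -, hN, a, ha, b, hb, hab⟩ := hT p hp
    have ha' : g1 • a ∈ inn X (g1 • p.1) := by
      rw [← hc.smul_inn]
      exact Set.smul_mem_smul_set ha
    have hb' : g1 • b ∈ inn X (g1 • p.2)ᶜ := by
      rw [← Set.smul_set_compl, ← hc.smul_inn]
      exact Set.smul_mem_smul_set hb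
    refine ⟨g * g1⁻¹, _, k1, _, k2, _, ha', _, hb', ?_, ?_, ?_⟩
    · refine tA.rel_pair hM gA.hfam (mem_fam_self F k1) (mem_fam_self F k2)
        (smul_ssubset g1 (hN.ssubset h0)) ha' hb' ?_
      rw [hc.dist_smul]
      exact hab.trans hm2
    · rwa [mul_smul, inv_smul_smul]
    · rwa [mul_smul, inv_smul_smul]
  · intro h hh hd
    have hh1 : IsHalf X (g0 • p0.1)ᶜ := (hEg _ e1).1.compl hM
    have ht : Tight X (g0 • p0.1)ᶜ (g0 • p0.2) := hB.2 _ _ hh1 (by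
      rw [compl_compl]
      exact hN0.mono hB.1 hC0')
    obtain ⟨f, hf, h1 | h1⟩ := hc.place0 hfi (hh1.cvx hM) ht hh hd
    · exact ⟨_, smul_mem_fam (compl_mem_fam (mem_fam_self F e1)) hf, h1⟩
    · exact ⟨_, smul_mem_fam (mem_fam_self F e2) hf, h1⟩

end Pool.Agent.Lib.MP_3467cd_al
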