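import Pool.Agent.Lib.MP_3467cd_al.Wall1

open Pointwise

namespace Pool.Agent.Lib.MP_3467cd_al

variable {G : Type} [Group G] {V : Type} [MulAction G V] {X : SimpleGraph V}
  {F : Subgroup G} {E : Set (Set V)} {j : ℕ}

theorem wall2_rel_smul {f : G} (hf : f ∈ F) {x y : V} (H : Rel (fam F E) x y) :
    Rel (fam F E) (f • x) (f • y) := by
  have := (rel_smul f).2 H
  rwa [smul_fam_of_mem E hf] at this

theorem wall2_rel_pow {f : G} (hf : f ∈ F) {y0 : V} (H : Rel (fam F E) y0 (f • y0)) (i : ℕ) :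
    Rel (fam F E) y0 (f ^ i • y0) := by
  induction i with
  | zero => rw [pow_zero, one_smul]; exact Rel.refl _ _
  | succ i ih =>
    rw [pow_succ', mul_smul]
    exact H.trans (wall2_rel_smul hf ih)

theorem wall2_inter (g g' : G) {s t : Set V} (H : (s ∩ (g⁻¹ * g') • t).Nonempty) :
    (g • s ∩ g' • t).Nonempty := by
  obtain ⟨x, h1, h2⟩ := H
  refine ⟨g • x, Set.smul_mem_smul_set h1, ?_⟩
  have := Set.smul_mem_smul_set (a := g) h2
  rwa [smul_smul, mul_inv_cancel_left] at this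

theorem Sys.wall_sepa (hc : IsCubulation G X) (hS : Sys X F E j) (y0 : V) :
    ∃ R, ∀ x y, R ≤ X.dist x y → ∃ g : G,
      x ∈ pts X F E y0 (hat G (comp (fam F E) y0) (g • side X F E y0 true)) ∧
      y ∈ pts X F E y0 (hat G (comp (fam F E) y0) (g • side X F E y0 false)) := by
  obtain ⟨R, hR⟩ := hS.pair (j + 1)
  refine ⟨R, fun x y hxy => ?_⟩
  obtain ⟨g0, e, he, e', he', a, ha, b, hb, hab, hx, hy⟩ := hR x y hxy
  obtain ⟨f, hf, hfa⟩ := hS.trans hc a y0
  have hfe : f • e ∈ fam F E := smul_mem_fam (mem_fam_self F he) hf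
  have hfe' : f • e' ∈ fam F E := smul_mem_fam (mem_fam_self F he') hf
  have o1 : Outer X (fam F E) y0 (f • e)ᶜ := by
    refine ⟨compl_mem_fam hfe, f • a, ?_, hfa⟩
    rw [compl_compl, ← hc.smul_inn]
    exact Set.smul_mem_smul_set ha
  have o2 : Outer X (fam F E) y0 (f • e') := by
    refine ⟨hfe', f • b, ?_, hfa.trans (wall2_rel_smul hf hab)⟩
    rw [← Set.smul_set_compl, ← hc.smul_inn]
    exact Set.smul_mem_smul_set hb
  have t1 : typ F E true (f • e)ᶜ := ⟨f, hf, e, he, rfl⟩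
  have t2 : typ F E false (f • e') := ⟨f, hf, e', he', rfl⟩
  have e1 : (g0 * f⁻¹) • (f • e) = g0 • e := by rw [smul_smul, inv_mul_cancel_right]
  have e2 : (g0 * f⁻¹) • (f • e') = g0 • e' := by rw [smul_smul, inv_mul_cancel_right]
  refine ⟨g0 * f⁻¹, hS.mem_pts hc y0 _ _ ?_ ?_, hS.mem_pts hc y0 _ _ ?_ ?_⟩
  · intro h
    obtain ⟨z, ⟨w, hw, rfl⟩, hd⟩ := hS.core_near hc y0 _ _ h
    have hw' : w ∈ f • e := by
      have := o1.not_mem hw
      simpa using this
    have := hx _ (by rw [← e1]; exact Set.smul_mem_smul_set hw')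
    exact absurd hd (not_le.2 this)
  · refine Set.smul_set_mono (subset_side o1 t1) ?_
    rw [Set.smul_set_compl, e1]
    intro h
    have := hx x h
    simp at this
  · intro h
    obtain ⟨z, ⟨w, hw, rfl⟩, hd⟩ := hS.core_near hc y0 _ _ h
    have := hy ((g0 * f⁻¹) • w) (by
      rw [← e2, Set.smul_mem_smul_set_iff]
      exact o2.not_mem hw)
    exact absurd hd (not_le.2 this)
  · refine Set.smul_set_mono (subset_side o2 t2) ?_
    rw [e2]
    by_contra h
    have := hy y h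
    simp at this

theorem Sys.wall_ess (hc : IsCubulation G X) (hS : Sys X F E j) (y0 : V) {g g' : G}
    (H : CaseX X F E y0 (g⁻¹ * g')) (ε' : Bool) {x : V} (hx : x ∈ g • comp (fam F E) y0)
    (r : ℕ) : ∃ s : G, (∀ ε, s • g • side X F E y0 ε = g • side X F E y0 ε) ∧
      s • x ∈ pts X F E y0 (hat G (comp (fam F E) y0) (g' • side X F E y0 ε')) ∧
      ∀ y ∈ core (pts X F E y0) (hat G (comp (fam F E) y0) (g' • side X F E y0 ε')),
        r ≤ X.dist (s • x) y := by
  obtain ⟨o', ho', ht, f, hf, hfy, hss⟩ := H.2 ε'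
  obtain ⟨x0, -, rfl⟩ := hx
  have hH : IsHalf X ((g⁻¹ * g') • o') := ((hS.gfam hc).1 o' ho'.1).1.smul hc _
  obtain ⟨i, hi, hfar⟩ := hc.skewer hH hss x0 (r + j + 2)
  have es : (g * f ^ i * g⁻¹) • g • x0 = g • f ^ i • x0 := by
    rw [smul_smul, inv_mul_cancel_right, mul_smul]
  have key : ∀ y ∈ core (pts X F E y0) (hat G (comp (fam F E) y0) (g' • side X F E y0 ε')),
      r + 1 ≤ X.dist (g • f ^ i • x0) y := by
    intro y hy
    obtain ⟨z, ⟨w, hw, rfl⟩, hd⟩ := hS.core_near hc y0 _ _ hy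
    have h1 := hfar ((g⁻¹ * g') • w) (by
      rw [Set.smul_mem_smul_set_iff]
      exact ho'.not_mem hw)
    rw [← hc.dist_smul g, smul_smul g (g⁻¹ * g'), mul_inv_cancel_left] at h1
    have h2 := hc.median.tri (g • f ^ i • x0) y (g' • w)
    have h3 : X.dist y (g' • w) ≤ j + 1 := hd
    omega
  refine ⟨g * f ^ i * g⁻¹, fun ε => ?_, ?_, ?_⟩
  · rw [smul_smul, inv_mul_cancel_right, mul_smul,
      smul_side_of_rel hc (F.pow_mem hf i) (wall2_rel_pow hf hfy i)]
  · change (g * f ^ i * g⁻¹) • g • x0 ∈ _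
    rw [es]
    refine hS.mem_pts hc y0 _ _ ?_ ?_
    · intro h
      have := key _ h
      simp at this
    · refine Set.smul_set_mono (subset_side ho' ht) ?_
      have := Set.smul_mem_smul_set (a := g) hi
      rwa [smul_smul g (g⁻¹ * g'), mul_inv_cancel_left] at this
  · intro y hy
    change r ≤ X.dist ((g * f ^ i * g⁻¹) • g • x0) y
    rw [es]
    have := key y hy
    omega

/-- a geodesic between the two sides of a wall passes through the component -/
theorem Sys.exists_btw_comp (hc : IsCubulation G X) (hS : Sys X F E j) (y0 : V) (g : G)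
    (ε : Bool) {x y : V} (hx : x ∈ g • side X F E y0 ε) (hy : y ∈ g • side X F E y0 (!ε)) :
    ∃ z ∈ g • comp (fam F E) y0, X.dist x z ≤ X.dist x y := by
  obtain ⟨x0, hx0, rfl⟩ := hx
  obtain ⟨y1, hy1, rfl⟩ := hy
  obtain ⟨o, ho, ht, hxo⟩ := hx0
  have hyo : y1 ∉ o := fun h =>
    Set.disjoint_left.1 (hS.side_disjoint hc y0 ε) (subset_side ho ht h) hy1
  obtain ⟨a, b, hab, ha, hb, -, b2, -⟩ := hc.median.exit_edge hxo hyo
  have hr : Rel (fam F E) y0 b :=
    ho.inn_rel hc.median (hS.gfam hc).hfam ((hS.gfam hc).lam hc.median)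
      ⟨hb, a, hab.symm, fun h => h ha⟩
  refine ⟨g • b, Set.smul_mem_smul_set hr, ?_⟩
  change X.dist (g • x0) (g • b) ≤ X.dist (g • x0) (g • y1)
  rw [hc.dist_smul, hc.dist_smul]
  unfold Btw at b2
  omega

theorem Sys.wallSys (hc : IsCubulation G X) (hS : Sys X F E j) (y0 : V)
    [MulAction G (Om G (comp (fam F E) y0))]
    (hact : ∀ (g : G) (s : Set V), g • hat G (comp (fam F E) y0) s =
      hat G (comp (fam F E) y0) (g • s)) :
    WallSys G (hat G (comp (fam F E) y0) (side X F E y0 true)) (pts X F E y0) X.dist := by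
  have hne : ∀ ε, (hat G (comp (fam F E) y0) (side X F E y0 ε)).Nonempty := by
    intro ε
    obtain ⟨o, -, -, ho, -, ht, -⟩ := hS.two_outer hc y0 ε
    exact (hS.hat_good hc y0 ((hS.gfam hc).1 o ho.1)).mono (hat_mono _ (subset_side ho ht))
  refine
    { ne := ⟨hne true, ?_⟩
      equiv := ?_
      meet := ?_
      finCore := ?_
      finSep := ?_
      helly := ?_
      nested := ?_
      cocompact := hc.cocompact
      tri := hc.median.tri
      symm := fun x y => X.dist_comm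
      ball := hc.ball_finite
      proper := fun x r => hc.proper_dist x x r
      sepa := ?_
      ess := ?_ }
  · have := hS.hat_compl hc y0 1 true
    rw [one_smul, one_smul] at this
    rw [this]
    exact hne _
  · intro g α _
    ext x
    rw [Set.mem_smul_set_iff_inv_smul_mem]
    constructor
    · intro h g' ε hα
      have := h (g * g') ε (by rw [hα, hact, smul_smul])
      rw [Set.mem_smul_set_iff_inv_smul_mem] at this ⊢
      rwa [mul_inv_rev, mul_smul] at this
    · intro h g' ε hα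
      have := h (g⁻¹ * g') ε (by rw [mul_smul, ← hact, ← hα, inv_smul_smul])
      rwa [mul_smul, Set.smul_mem_smul_set_iff] at this
  · intro α hα β hβ hne'
    obtain ⟨g, ε, rfl⟩ := (hS.mem_hs hc y0 hact).1 hα
    obtain ⟨g', ε', rfl⟩ := (hS.mem_hs hc y0 hact).1 hβ
    exact (hS.hat_meet_iff hc y0 g g' ε ε').2
      (hne'.mono (Set.inter_subset_inter (pts_subset y0 g ε) (pts_subset y0 g' ε')))
  · intro x
    refine (hS.fin_core hc y0 x).subset ?_
    rintro α ⟨hα, hx⟩
    obtain ⟨g, ε, rfl⟩ := (hS.mem_hs hc y0 hact).1 hα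
    exact (hS.mem_core hc y0 g ε x).1 hx
  · intro x y
    refine ((hc.ball_finite x (X.dist x y)).biUnion
      (fun z _ => hS.fin_core hc y0 z)).subset ?_
    rintro α ⟨hα, hx, hy⟩
    obtain ⟨g, ε, rfl⟩ := (hS.mem_hs hc y0 hact).1 hα
    rw [hS.hat_compl hc y0 g ε] at hy
    obtain ⟨z, hz, hd⟩ := hS.exists_btw_comp hc y0 g ε (pts_subset y0 g ε hx)
      (pts_subset y0 g (!ε) hy)
    exact Set.mem_biUnion (x := z) hd ⟨g, ε, rfl, hz⟩
  · intro S hSf hSs hcr
    have hrep : ∀ α : Set (Om G (comp (fam F E) y0)), ∃ p : G × Bool, α ∈ S →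
        α = hat G (comp (fam F E) y0) (p.1 • side X F E y0 p.2) := by
      intro α
      by_cases h : α ∈ S
      · obtain ⟨g, ε, e⟩ := (hS.mem_hs hc y0 hact).1 (hSs h)
        exact ⟨(g, ε), fun _ => e⟩
      · exact ⟨(1, true), fun h' => absurd h' h⟩
    choose p hp using hrep
    obtain ⟨x, hx⟩ := hc.median.helly hSf.toFinset (fun α => (p α).1 • comp (fam F E) y0)
      (fun α _ => ((hS.gfam hc).hfam.comp_cvx hc.median y0).smul hc _) (by
        intro α hα β hβ
        rw [Set.Finite.mem_toFinset] at hα hβ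
        by_cases h : α = β
        · subst h
          rw [Set.inter_self]
          exact ⟨(p α).1 • y0, Set.smul_mem_smul_set (Rel.refl _ _)⟩
        · have hX := hcr α hα β hβ h
          rw [hp α hα] at hX
          nth_rewrite 1 [hp β hβ] at hX
          exact wall2_inter _ _ (hS.caseX_of_cross hc y0 hX).1)
    refine ⟨x, fun α hα => ?_⟩
    have := (hS.mem_core hc y0 (p α).1 (p α).2 x).2
      ⟨(p α).1, (p α).2, rfl, hx α (hSf.mem_toFinset.2 hα)⟩
    rwa [← hp α hα] at this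
  · intro α hα β hβ h1 h2 x hx hxβ
    obtain ⟨g, ε, rfl⟩ := (hS.mem_hs hc y0 hact).1 hα
    obtain ⟨g', ε', rfl⟩ := (hS.mem_hs hc y0 hact).1 hβ
    obtain ⟨g1, ε1, e1, hx1⟩ := (hS.mem_core hc y0 g ε x).1 hx
    rw [e1] at h1 h2 ⊢
    rw [Set.inter_comm]
    have fin : (∃ h, Good X h ∧ h ⊆ side X F E y0 ε1 ∧ h ⊆ (g1⁻¹ * g') • side X F E y0 ε') →
        (hat G (comp (fam F E) y0) (g1 • side X F E y0 ε1) ∩
          hat G (comp (fam F E) y0) (g' • side X F E y0 ε')).Nonempty := by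
      rintro ⟨h, hg, s1, s2⟩
      exact (hS.hat_meet_iff hc y0 g1 g' ε1 ε').2
        (wall2_inter _ _ (hg.1.nonempty.mono (Set.subset_inter s1 s2)))
    rcases hS.trichotomy hc y0 (g1⁻¹ * g') with H | H | H
    · refine fin (hS.caseN_point hc H (x := g1⁻¹ • x) ?_ ?_ ε1)
      · rwa [← Set.mem_smul_set_iff_inv_smul_mem]
      · rw [mul_smul, Set.smul_mem_smul_set_iff]
        exact pts_subset y0 g' ε' hxβ
    · exact fin (hS.caseX_quarter hc H ε1 ε')
    · rcases hS.hat_eq_of_caseQ hc y0 H ε1 ε' with h | h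
      · exact absurd h h1
      · exact absurd h h2
  · obtain ⟨R, hR⟩ := hS.wall_sepa hc y0
    refine ⟨R, fun x y hxy => ?_⟩
    obtain ⟨g, h1, h2⟩ := hR x y hxy
    refine ⟨_, (hS.mem_hs hc y0 hact).2 ⟨g, true, rfl⟩, h1, ?_⟩
    rw [hS.hat_compl hc y0 g true]
    exact h2
  · intro α hα β hβ hcr x hx r
    obtain ⟨g, ε, rfl⟩ := (hS.mem_hs hc y0 hact).1 hα
    obtain ⟨g', ε', rfl⟩ := (hS.mem_hs hc y0 hact).1 hβ
    obtain ⟨g1, ε1, e1, hx1⟩ := (hS.mem_core hc y0 g ε x).1 hx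
    rw [e1] at hcr ⊢
    obtain ⟨s, h1, h2, h3⟩ := hS.wall_ess hc y0 (hS.caseX_of_cross hc y0 hcr) ε' hx1 r
    exact ⟨s, by rw [hact, h1], h2, h3⟩

end Pool.Agent.Lib.MP_3467cd_al
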