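import Pool.Agent.Lib.MP_3467cd_al.Hyp2
import Pool.Agent.Lib.MP_3467cd_al.B5
import Pool.Agent.Lib.MP_3467cd_al.Fun3
import Pool.Agent.Lib.MP_3467cd_al.Giant2
import Pool.Agent.Lib.MP_3467cd_al.Esc
import Pool.Agent.Lib.MP_3467cd_al.Sys2
import Pool.Agent.Lib.MP_3467cd_al.Wall2
import Pool.Agent.Lib.MP_3467cd_al.Elem1
import Pool.Agent.Lib.MP_3467cd_al.Elem3

open Pointwise

namespace Pool.Agent.Lib.MP_3467cd_al

theorem main_goal {G : Type} [Group G] {V : Type} [MulAction G V] {X : SimpleGraph V}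
    (hG : IsHyperbolicGroup G) (hc : IsCubulation G X) (hsp : VirtuallySpecial G X) :
    Goal G := by
  obtain ⟨L, hL, hT⟩ := hc.exists_thin hG
  obtain ⟨D, hD⟩ := hc.exists_dim
  have hB : Bridge X L := hT.bridge hc.median hD hL
  by_cases hF : Facing X
  · obtain ⟨β⟩ := hc.exists_BF hsp
    have hS := β.sepA hc
    have h2 := twoIn_of_facing hc hB hF
    obtain ⟨Φ⟩ := exists_funl hc fun a ha => exists_functionals hc hB hS h2 ha
    obtain ⟨F, E, j, hSys⟩ := exists_sys hc hB hS (β.sepB hc) hF (Φ.giant hc)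
      (escProp_of_dir5 hc (dir5_of_facing hc hB hF))
    obtain ⟨y0⟩ := hc.median.1.nonempty
    obtain ⟨inst, hact⟩ := exists_om_action G (comp (fam F E) y0)
    exact (hSys.wallSys hc y0 hact).goal
  · by_cases hg : ∃ h, Good X h
    · obtain ⟨a, ha⟩ := hg
      have := hc.infinite_of_good ha
      obtain ⟨ε, t, h1, h2, h3, h4⟩ := line_of_not_facing hc hB hF ha
      obtain ⟨t', k1, k2, k3⟩ := line_normalize ε t h1 h2 h3 h4
      exact goal_of_line ε t' h1 h2 k1 k2 k3
    · have := hc.finite_of_no_good hg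
      exact goal_of_finite

end Pool.Agent.Lib.MP_3467cd_al
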