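import Pool.Agent.Lib.MP_3467cd_al.Act2
import Pool.Agent.Lib.MP_3467cd_al.Fam

open Pointwise

namespace Pool.Agent.Lib.MP_3467cd_al

variable {G : Type} [Group G] {V : Type} [MulAction G V] {X : SimpleGraph V}

theorem pc_self (F : Subgroup G) (k : Set V) (x : V) : pc F k x x = 0 := by
  simp [pc]

open Classical in
theorem fun0_sum (F : Subgroup G) (k : Set V) (x y : V) (U : Finset (Set V))
    (hU : ∀ e ∈ U, e ∈ orb F k) (h : ∀ e ∈ orb F k, ¬ (x ∈ e ↔ y ∈ e) → e ∈ U) :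
    pc F k x y = ∑ e ∈ U, ((if y ∈ e then 1 else 0) - (if x ∈ e then 1 else 0) : ℤ) := by
  have e1 : {e ∈ orb F k | x ∉ e ∧ y ∈ e} = ↑(U.filter fun e => x ∉ e ∧ y ∈ e) := by
    ext e
    simp only [Set.mem_ofPred_eq, Finset.coe_filter]
    exact ⟨fun H => ⟨h e H.1 (by tauto), H.2⟩, fun H => ⟨hU e H.1, H.2⟩⟩
  have e2 : {e ∈ orb F k | x ∈ e ∧ y ∉ e} = ↑(U.filter fun e => x ∈ e ∧ y ∉ e) := by
    ext e
    simp only [Set.mem_ofPred_eq, Finset.coe_filter]
    exact ⟨fun H => ⟨h e H.1 (by tauto), H.2⟩, fun H => ⟨hU e H.1, H.2⟩⟩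
  rw [pc, e1, e2, Set.ncard_coe_finset, Set.ncard_coe_finset, Finset.card_filter,
    Finset.card_filter, Nat.cast_sum, Nat.cast_sum, ← Finset.sum_sub_distrib]
  refine Finset.sum_congr rfl fun e _ => ?_
  by_cases hx : x ∈ e <;> by_cases hy : y ∈ e <;> simp [hx, hy]

theorem fun0_half (hc : IsCubulation G X) {F : Subgroup G} {k e : Set V} (hk : IsHalf X k)
    (he : e ∈ orb F k) : IsHalf X e := by
  obtain ⟨f, -, rfl⟩ := he
  exact hk.smul hc f

theorem fun0_smul_orb {F : Subgroup G} {k e : Set V} {f : G} (hf : f ∈ F) (he : e ∈ orb F k) :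
    f • e ∈ orb F k := by
  obtain ⟨g, hg, rfl⟩ := he
  exact ⟨f * g, F.mul_mem hf hg, smul_smul _ _ _⟩

theorem pc_add (hc : IsCubulation G X) (F : Subgroup G) {k : Set V} (hk : IsHalf X k)
    (x y z : V) : pc F k x y + pc F k y z = pc F k x z := by
  have hfin : {e ∈ orb F k | ¬ (x ∈ e ↔ y ∈ e) ∨ ¬ (y ∈ e ↔ z ∈ e)}.Finite := by
    refine (((hc.median.sep_finite x y).union (hc.median.sep_finite y x)).union
      ((hc.median.sep_finite y z).union (hc.median.sep_finite z y))).subset fun e he => ?_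
    have h1 := fun0_half hc hk he.1
    have h2 := he.2
    simp only [Set.mem_union, sep, Set.mem_ofPred_eq]
    tauto
  have hU : ∀ e ∈ hfin.toFinset, e ∈ orb F k := fun e he => (hfin.mem_toFinset.1 he).1
  rw [fun0_sum F k x y _ hU fun e he h => hfin.mem_toFinset.2 ⟨he, Or.inl h⟩,
    fun0_sum F k y z _ hU fun e he h => hfin.mem_toFinset.2 ⟨he, Or.inr h⟩,
    fun0_sum F k x z _ hU fun e he h => hfin.mem_toFinset.2 ⟨he, by tauto⟩,
    ← Finset.sum_add_distrib]
  exact Finset.sum_congr rfl fun e _ => by ring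

theorem pc_smul (F : Subgroup G) (k : Set V) {f : G} (hf : f ∈ F) (x y : V) :
    pc F k (f • x) (f • y) = pc F k x y := by
  have key : ∀ P Q : Set V → Prop, (∀ e, P (f • e) ↔ Q e) →
      {e ∈ orb F k | P e} = f • {e ∈ orb F k | Q e} := by
    intro P Q h
    ext e
    rw [Set.mem_smul_set_iff_inv_smul_mem, Set.mem_ofPred_eq, Set.mem_ofPred_eq, ← h, smul_inv_smul]
    refine and_congr_left fun _ => ⟨fun0_smul_orb (F.inv_mem hf), fun H => ?_⟩
    have := fun0_smul_orb hf H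
    rwa [smul_inv_smul] at this
  rw [pc, pc, key (fun e => f • x ∉ e ∧ f • y ∈ e) (fun e => x ∉ e ∧ y ∈ e)
      (fun e => by simp only [Set.smul_mem_smul_set_iff]),
    key (fun e => f • x ∈ e ∧ f • y ∉ e) (fun e => x ∈ e ∧ y ∉ e)
      (fun e => by simp only [Set.smul_mem_smul_set_iff]), Set.ncard_smul_set, Set.ncard_smul_set]

theorem pc_eq_zero (F : Subgroup G) (k : Set V) {x y : V}
    (H : ∀ e ∈ orb F k, (x ∈ e ↔ y ∈ e)) : pc F k x y = 0 := by
  rw [fun0_sum F k x y ∅ (by simp) fun e he h => (h (H e he)).elim, Finset.sum_empty]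

/-- crossing an edge dual to a member of the orbit, from inside to outside -/
theorem pc_edge (hc : IsCubulation G X) {F : Subgroup G} {k : Set V} (hk : IsHalf X k)
    (h2 : ∀ f ∈ F, f • k ≠ kᶜ) {a b : V} (hab : X.Adj a b) (H : half X a b ∈ orb F k) :
    pc F k a b = -1 := by
  have e1 : {e ∈ orb F k | a ∉ e ∧ b ∈ e} = ∅ := by
    refine Set.eq_empty_of_forall_notMem fun e he => ?_
    have h3 := (fun0_half hc hk he.1).half_eq hc.median hab.symm he.2.2 he.2.1
    obtain ⟨f, hf, e1⟩ := H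
    obtain ⟨g, hg, e2⟩ := he.1
    refine h2 (f⁻¹ * g) (F.mul_mem (F.inv_mem hf) hg) ?_
    rw [mul_smul, ← e2, ← h3, ← hc.median.half_compl hab, e1, Set.smul_set_compl, inv_smul_smul]
  have e2 : {e ∈ orb F k | a ∈ e ∧ b ∉ e} = {half X a b} := by
    ext e
    refine ⟨fun he => ((fun0_half hc hk he.1).half_eq hc.median hab he.2.1 he.2.2).symm, ?_⟩
    rintro rfl
    exact ⟨H, left_mem_half hab, right_not_mem_half a b⟩
  rw [pc, e1, e2]
  simp

theorem pc_homOn (hc : IsCubulation G X) (F : Subgroup G) {k : Set V} (hk : IsHalf X k) (x : V) :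
    HomOn F fun y : G => pc F k x (y • x) := by
  intro a ha b _
  simp only
  rw [mul_smul, ← pc_add hc F hk x (a • x), pc_smul F k ha]

theorem pc_base (hc : IsCubulation G X) (F : Subgroup G) {k : Set V} (hk : IsHalf X k)
    (x b : V) {s : G} (hs : s ∈ F) : pc F k x (s • x) = pc F k b (s • b) := by
  have h1 := pc_add hc F hk x b (s • x)
  have h2 := pc_add hc F hk b (s • b) (s • x)
  have h3 := pc_add hc F hk x b x
  rw [pc_smul F k hs] at h2
  rw [pc_self] at h3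
  omega

theorem Tree3.kills (hc : IsCubulation G X) {F : Subgroup G} {Z : Set (Set V)}
    (hT : Tree3 X F Z) {k a : Set V} (hk : k ∈ Z) (ha : a ∈ Z) (x : V) :
    Kills F (fun y : G => pc F k x (y • x)) a := by
  intro s hs e
  obtain ⟨b, hb⟩ := (hT.hfam.1 a ha).inn_nonempty
  have hb' : s • b ∈ inn X a := by
    rw [← e, ← hc.smul_inn]
    exact Set.smul_mem_smul_set hb
  have h1 := Lam.inn_rel hc.median hT.hfam hT.lam ha hb hb'
  simp only
  rw [pc_base hc F (hT.hfam.1 k hk) x b hs]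
  refine pc_eq_zero F k ?_
  rintro _ ⟨f, hf, rfl⟩
  exact h1 _ (hT.inv f hf k hk)

theorem HomOn.one {F : Subgroup G} {ψ : G → ℤ} (H : HomOn F ψ) : ψ 1 = 0 := by
  have := H 1 F.one_mem 1 F.one_mem
  rw [mul_one] at this
  omega

theorem HomOn.inv {F : Subgroup G} {ψ : G → ℤ} (H : HomOn F ψ) {a : G} (ha : a ∈ F) :
    ψ a⁻¹ = -ψ a := by
  have := H a ha a⁻¹ (F.inv_mem ha)
  rw [mul_inv_cancel, H.one] at this
  omega

theorem HomOn.pow {F : Subgroup G} {ψ : G → ℤ} (H : HomOn F ψ) {a : G} (ha : a ∈ F) (n : ℕ) :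
    ψ (a ^ n) = n * ψ a := by
  induction n with
  | zero => simp [H.one]
  | succ n ih =>
    rw [pow_succ, H _ (F.pow_mem ha n) _ ha, ih]
    push_cast
    ring

theorem HomOn.conj {F : Subgroup G} {ψ : G → ℤ} (H : HomOn F ψ) {a b : G} (ha : a ∈ F)
    (hb : b ∈ F) : ψ (a * b * a⁻¹) = ψ b := by
  rw [H _ (F.mul_mem ha hb) _ (F.inv_mem ha), H _ ha _ hb, H.inv ha]
  ring

end Pool.Agent.Lib.MP_3467cd_al
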