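import Pool.Agent.Lib.MP_3467cd_al.Fun0

open Pointwise

namespace Pool.Agent.Lib.MP_3467cd_al

variable {G : Type} [Group G] {V : Type} [MulAction G V] {X : SimpleGraph V}

theorem fun1_equiv {F : Subgroup G} {k o o' : Set V} (h1 : ∃ f ∈ F, SameH (f • k) o)
    (h2 : ∃ f ∈ F, SameH (f • k) o') : ∃ f ∈ F, SameH (f • o) o' := by
  obtain ⟨f, hf, h1⟩ := h1
  obtain ⟨f', hf', h2⟩ := h2
  refine ⟨f' * f⁻¹, F.mul_mem hf' (F.inv_mem hf), ?_⟩
  have e1 : (f' * f⁻¹) • (f • k) = f' • k := by rw [smul_smul, inv_mul_cancel_right]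
  have e2 : (f' * f⁻¹) • (f • k)ᶜ = (f' • k)ᶜ := by rw [Set.smul_set_compl, e1]
  unfold SameH at *
  rcases h1 with h1 | h1 <;> rcases h2 with h2 | h2 <;> rw [h1, h2]
  · left; exact e1.symm
  · right; rw [e1]
  · right; rw [e2, compl_compl]
  · left; exact e2.symm

theorem fun1_orb_sub {F : Subgroup G} {Z : Set (Set V)} (hT : Tree3 X F Z) {k : Set V}
    (hk : k ∈ Z) : orb F k ⊆ Z := by
  rintro e ⟨f, hf, rfl⟩
  exact hT.inv f hf k hk

theorem fun1_pc_rel {F : Subgroup G} {Z : Set (Set V)} (hT : Tree3 X F Z) {k : Set V}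
    (hk : k ∈ Z) {x y : V} (H : Rel Z x y) : pc F k x y = 0 :=
  pc_eq_zero F k fun e he => H e (fun1_orb_sub hT hk he)

/-- the setting of the descent argument -/
structure Fun1Set (X : SimpleGraph V) (F : Subgroup G) (Z R : Set (Set V)) (x1 : V) : Prop where
  sub : R ⊆ Z
  hfam : HFam X R
  inv : ∀ f ∈ F, ∀ k ∈ R, f • k ∈ R
  one : ∀ k ∈ R, ∀ k' ∈ R, ∃ f ∈ F, SameH (f • k) k'
  zero : ∀ k ∈ Z, ∀ y ∈ F, Rel R x1 (y • x1) → pc F k x1 (y • x1) = 0

theorem Fun1Set.inv' {F : Subgroup G} {Z R : Set (Set V)} {x1 : V} (hS : Fun1Set X F Z R x1)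
    {f : G} (hf : f ∈ F) {k : Set V} (h : f • k ∈ R) : k ∈ R := by
  have := hS.inv f⁻¹ (F.inv_mem hf) _ h
  rwa [inv_smul_smul] at this

theorem Fun1Set.rel_smul {F : Subgroup G} {Z R : Set (Set V)} {x1 : V}
    (hS : Fun1Set X F Z R x1) {f : G} (hf : f ∈ F) {x y : V} (H : Rel R x y) :
    Rel R (f • x) (f • y) := by
  intro k hk
  have := H (f⁻¹ • k) (hS.inv _ (F.inv_mem hf) k hk)
  rwa [Set.mem_smul_set_iff_inv_smul_mem, Set.mem_smul_set_iff_inv_smul_mem, inv_inv] at this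

theorem Fun1Set.pc_trans (hc : IsCubulation G X) {F : Subgroup G} {Z R : Set (Set V)} {x1 : V}
    (hT : Tree3 X F Z) (hS : Fun1Set X F Z R x1) {k : Set V} (hk : k ∈ Z) {y : G} (hy : y ∈ F)
    {z : V} (h1 : Rel R x1 z) (h2 : Rel R x1 (y • z)) : pc F k z (y • z) = 0 := by
  rw [← pc_base hc F (hT.hfam.1 k hk) x1 z hy]
  exact hS.zero k hk y hy (h2.trans (hS.rel_smul hy h1).symm)

theorem Fun1Set.pc_inn (hc : IsCubulation G X) {F : Subgroup G} {Z R : Set (Set V)} {x1 : V}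
    (hT : Tree3 X F Z) (hS : Fun1Set X F Z R x1) {k o : Set V} (hk : k ∈ Z) (ho : o ∈ Z)
    {b w : V} (hb : b ∈ inn X o) (hb1 : Rel R x1 b) {f : G} (hf : f ∈ F)
    (hw : w ∈ inn X (f • o)) (hw1 : Rel R x1 w) : pc F k b w = 0 := by
  rw [← hc.smul_inn, Set.mem_smul_set_iff_inv_smul_mem] at hw
  have r1 : Rel Z b (f⁻¹ • w) := Lam.inn_rel hc.median hT.hfam hT.lam ho hb hw
  have e1 := fun1_pc_rel hT hk r1
  have e2 : pc F k (f⁻¹ • w) (f • f⁻¹ • w) = 0 :=
    hS.pc_trans hc hT hk hf (hb1.trans (r1.mono hS.sub)) (by rwa [smul_inv_smul])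
  rw [smul_inv_smul] at e2
  rw [← pc_add hc F (hT.hfam.1 k hk) b (f⁻¹ • w) w, e1, e2, add_zero]

/-- crossing an edge dual to a halfspace of another class -/
theorem fun1_pc_other (hc : IsCubulation G X) {F : Subgroup G} {Z : Set (Set V)}
    (hT : Tree3 X F Z) {k : Set V} (hk : k ∈ Z) {a b : V} (hab : X.Adj a b)
    (H : ∀ f ∈ F, ¬ SameH (f • k) (half X a b)) : pc F k a b = 0 := by
  refine pc_eq_zero F k ?_
  rintro e ⟨f, hf, rfl⟩
  refine hc.median.adj_mem_iff hab (hT.hfam.1 _ (hT.inv f hf k hk)) ?_ ?_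
  · intro h
    exact H f hf (Or.inl h.symm)
  · intro h
    refine H f hf (Or.inr ?_)
    rw [h, hc.median.half_compl hab.symm]

theorem fun1_exists_sep {F : Subgroup G} {k : Set V} {a b : V} (H : pc F k a b ≠ 0) :
    ∃ f ∈ F, ¬ (a ∈ f • k ↔ b ∈ f • k) := by
  by_contra hn
  push Not at hn
  refine H (pc_eq_zero F k ?_)
  rintro e ⟨f, hf, rfl⟩
  exact hn f hf

theorem Fun1Set.step (hc : IsCubulation G X) {F : Subgroup G} {Z R : Set (Set V)} {x1 : V}
    (hT : Tree3 X F Z) (hS : Fun1Set X F Z R x1) {k : Set V} (hk : k ∈ Z) (hkR : k ∉ R)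
    {b : V} (hb : b ∈ inn X k) (hb1 : Rel R x1 b) :
    ∃ o ∈ Z, o ∉ R ∧ ∃ c ∈ inn X o, Rel R x1 c ∧ pc F o c b = -1 ∧
      ∀ z, Rel R x1 z → pc F o c z = 0 → pc F k b z = 0 := by
  have hM := hc.median
  obtain ⟨o3, hout, hne⟩ := hT.val b
  -- a good index
  obtain ⟨i, hiR, hik⟩ : ∃ i, o3 i ∉ R ∧ ¬ ∃ f ∈ F, SameH (f • k) (o3 i) := by
    by_contra hn
    have hn' : ∀ i, o3 i ∈ R ∨ ∃ f ∈ F, SameH (f • k) (o3 i) := by
      intro i
      by_contra h
      rw [not_or] at h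
      exact hn ⟨i, h.1, h.2⟩
    have A : ∀ i j, i ≠ j → o3 i ∈ R → o3 j ∈ R → False := by
      intro i j hij hi hj
      obtain ⟨f, hf, h⟩ := hS.one _ hi _ hj
      exact hne i j hij f hf h
    have B : ∀ i j, i ≠ j → (∃ f ∈ F, SameH (f • k) (o3 i)) →
        (∃ f ∈ F, SameH (f • k) (o3 j)) → False := by
      intro i j hij hi hj
      obtain ⟨f, hf, h⟩ := fun1_equiv hi hj
      exact hne i j hij f hf h
    rcases hn' 0 with h0 | h0 <;> rcases hn' 1 with h1 | h1 <;> rcases hn' 2 with h2 | h2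
    · exact A 0 1 (by decide) h0 h1
    · exact A 0 1 (by decide) h0 h1
    · exact A 0 2 (by decide) h0 h2
    · exact B 1 2 (by decide) h1 h2
    · exact A 1 2 (by decide) h1 h2
    · exact B 0 2 (by decide) h0 h2
    · exact B 0 1 (by decide) h0 h1
    · exact B 0 1 (by decide) h0 h1
  obtain ⟨ho, a, ha, hba⟩ := hout i
  set o := o3 i with hodef
  have hoH : IsHalf X o := hT.hfam.1 o ho
  have hkH : IsHalf X k := hT.hfam.1 k hk
  obtain ⟨c, hac, hcin⟩ := inn_partner ha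
  rw [compl_compl] at hcin
  have hao : a ∉ o := ha.1
  have hhalf : half X c a = o := hoH.half_eq hM hac.symm hcin.1 hao
  have hca : Rel R c a := hS.hfam.rel_of_adj hM hac.symm (by rw [hhalf]; exact hiR)
  have hc1 : Rel R x1 c := (hb1.trans (hba.mono hS.sub)).trans hca.symm
  have p1 : pc F o c a = -1 :=
    pc_edge hc hoH (fun f hf => hT.two f hf o ho) hac.symm ⟨1, F.one_mem, by rw [hhalf, one_smul]⟩
  have p2 : pc F o c b = -1 := by
    rw [← pc_add hc F hoH c a b, p1, fun1_pc_rel hT ho hba.symm, add_zero]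
  have p3 : pc F k b c = 0 := by
    rw [← pc_add hc F hkH b a c, fun1_pc_rel hT hk hba, zero_add]
    refine fun1_pc_other hc hT hk hac ?_
    intro f hf h
    refine hik ⟨f, hf, ?_⟩
    have e : half X a c = oᶜ := by rw [← hhalf, hM.half_compl hac.symm]
    rw [e] at h
    rcases h with h | h
    · right; rw [← h, compl_compl]
    · left; exact compl_injective h
  have p4 : ∀ f ∈ F, ∀ w ∈ inn X (f • o), Rel R x1 w → pc F k b w = 0 := by
    intro f hf w hw hw1
    rw [← pc_add hc F hkH b c w, p3, hS.pc_inn hc hT hk ho hcin hc1 hf hw hw1, add_zero]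
  have p5 : ∀ f ∈ F, ∀ w ∈ inn X (f • k), Rel R x1 w → pc F o c w = -1 := by
    intro f hf w hw hw1
    rw [← pc_add hc F hoH c b w, p2, hS.pc_inn hc hT ho hk hb hb1 hf hw hw1, add_zero]
  have p6 : ∀ f ∈ F, ∀ w ∈ car X (f • k), Rel R x1 w → pc F o c w = -1 := by
    intro f hf w hw hw1
    rcases hw with hw | hw
    · exact p5 f hf w hw hw1
    · obtain ⟨w', hww, hw'⟩ := inn_partner hw
      rw [compl_compl] at hw'
      have hfk : IsHalf X (f • k) := hkH.smul hc f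
      have e : half X w' w = f • k := hfk.half_eq hM hww.symm hw'.1 hw.1
      have r : Rel R w' w :=
        hS.hfam.rel_of_adj hM hww.symm (by rw [e]; exact fun h => hkR (hS.inv' hf h))
      rw [← pc_add hc F hoH c w' w, p5 f hf w' hw' (hw1.trans r.symm),
        fun1_pc_other hc hT ho hww.symm, add_zero]
      intro f' hf' h
      rw [e] at h
      obtain ⟨g, hg, h'⟩ := fun1_equiv (F := F) (k := o) (o := f • k) (o' := o) ⟨f', hf', h⟩
        ⟨1, F.one_mem, Or.inl (by rw [one_smul])⟩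
      rw [smul_smul] at h'
      exact hik ⟨g * f, F.mul_mem hg hf, h'⟩
  refine ⟨o, ho, hiR, c, hcin, hc1, p2, ?_⟩
  intro z hz1 hz0
  by_contra hzk
  obtain ⟨u, u', huu, hu, hu', b1, b2, -⟩ :=
    hM.exit_edge (A := {w | pc F o c w = 0 ∧ pc F k b w ≠ 0}) (x := z) (y := c) ⟨hz0, hzk⟩
      (fun h => h.2 p3)
  have hcv := hS.hfam.comp_cvx hM x1
  have hu1 : Rel R x1 u := hcv z hz1 c hc1 u b1
  have hu1' : Rel R x1 u' := hcv z hz1 c hc1 u' b2
  obtain ⟨hu0, huk⟩ := hu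
  by_cases h0 : pc F o c u' = 0
  · have hk0 : pc F k b u' = 0 := by
      by_contra h
      exact hu' ⟨h0, h⟩
    have : pc F k u u' ≠ 0 := by
      intro h
      have := pc_add hc F hkH b u u'
      rw [h, hk0, add_zero] at this
      exact huk this
    obtain ⟨f, hf, hs⟩ := fun1_exists_sep this
    have hcar : u ∈ car X (f • k) := by
      by_cases hm : u ∈ f • k
      · exact Or.inl ⟨hm, u', huu, fun h => hs ⟨fun _ => h, fun _ => hm⟩⟩
      · refine Or.inr ⟨hm, u', huu, fun h => hs ⟨fun h' => absurd h' hm, fun h' => absurd h' h⟩⟩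
    have := p6 f hf u hcar hu1
    rw [hu0] at this
    exact absurd this (by decide)
  · have : pc F o u u' ≠ 0 := by
      intro h
      have := pc_add hc F hoH c u u'
      rw [h, hu0, add_zero] at this
      exact h0 this.symm
    obtain ⟨f, hf, hs⟩ := fun1_exists_sep this
    by_cases hm : u ∈ f • o
    · exact huk (p4 f hf u ⟨hm, u', huu, fun h => hs ⟨fun _ => h, fun _ => hm⟩⟩ hu1)
    · have hm' : u' ∈ f • o := by
        by_contra h
        exact hs ⟨fun h' => absurd h' hm, fun h' => absurd h' h⟩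
      exact h0 (hS.pc_inn hc hT ho ho hcin hc1 hf ⟨hm', u, huu.symm, hm⟩ hu1')

theorem Fun1Set.false (hc : IsCubulation G X) {F : Subgroup G} {Z R : Set (Set V)} {x1 : V}
    (hT : Tree3 X F Z) (hS : Fun1Set X F Z R x1) : False := by
  obtain ⟨T, hTf, hTo⟩ := hc.vertex_orbits hT.fi
  have key : ∀ n : ℕ, ∀ k ∈ Z, k ∉ R → ∀ b ∈ inn X k, Rel R x1 b →
      {t ∈ T | ∃ f ∈ F, Rel R x1 (f • t) ∧ pc F k b (f • t) = 0}.ncard = n → False := by
    intro n
    induction n using Nat.strong_induction_on with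
    | _ n ih =>
      intro k hk hkR b hb hb1 hn
      obtain ⟨o, ho, hoR, c, hc', hc1, p2, hsub⟩ := hS.step hc hT hk hkR hb hb1
      refine ih _ ?_ o ho hoR c hc' hc1 rfl
      rw [← hn]
      refine Set.ncard_lt_ncard ?_ (hTf.subset fun t ht => ht.1)
      obtain ⟨f, hf, t, ht, rfl⟩ := hTo b
      refine ⟨?_, ?_⟩
      · rintro s ⟨hs, g, hg, h1, h2⟩
        exact ⟨hs, g, hg, h1, hsub _ h1 h2⟩
      · intro hcon
        obtain ⟨-, g, hg, h1, h2⟩ := hcon ⟨ht, f, hf, hb1, pc_self F k _⟩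
        have e : g • t = (g * f⁻¹) • f • t := by rw [smul_smul, inv_mul_cancel_right]
        have h3 : pc F o (f • t) (g • t) = 0 := by
          rw [e]
          exact hS.pc_trans hc hT ho (F.mul_mem hg (F.inv_mem hf)) hb1 (by rwa [← e])
        have := pc_add hc F (hT.hfam.1 o ho) c (f • t) (g • t)
        rw [p2, h3, h2] at this
        exact absurd this (by decide)
  obtain ⟨o3, hout, hne⟩ := hT.val x1
  obtain ⟨i, hi⟩ : ∃ i, o3 i ∉ R := by
    by_contra hn
    push Not at hn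
    obtain ⟨f, hf, h⟩ := hS.one _ (hn 0) _ (hn 1)
    exact hne 0 1 (by decide) f hf h
  obtain ⟨ho, a, ha, hxa⟩ := hout i
  refine key _ (o3 i)ᶜ (hT.hfam.2 _ ho) ?_ a ha (hxa.mono hS.sub) rfl
  intro h
  have := hS.hfam.2 _ h
  rw [compl_compl] at this
  exact hi this

/-- a finite graph with all valences at least three has a cycle avoiding a given edge -/
theorem Tree3.descent (hc : IsCubulation G X) {F : Subgroup G} {Z : Set (Set V)}
    (hT : Tree3 X F Z) {R : Set (Set V)} (hR : R = ∅ ∨ ∃ k1 ∈ Z, R = fam F {k1}) (x1 : V) :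
    ∃ k ∈ Z, ∃ y ∈ F, Rel R x1 (y • x1) ∧ pc F k x1 (y • x1) ≠ 0 := by
  by_contra hn
  have hz : ∀ k ∈ Z, ∀ y ∈ F, Rel R x1 (y • x1) → pc F k x1 (y • x1) = 0 := by
    intro k hk y hy h
    by_contra h'
    exact hn ⟨k, hk, y, hy, h, h'⟩
  refine Fun1Set.false hc hT (R := R) (x1 := x1) ?_
  rcases hR with rfl | ⟨k1, hk1, rfl⟩
  · exact ⟨Set.empty_subset _, ⟨fun _ h => absurd h (Set.notMem_empty _),
      fun _ h => absurd h (Set.notMem_empty _)⟩, fun _ _ _ h => absurd h (Set.notMem_empty _),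
      fun _ h => absurd h (Set.notMem_empty _), hz⟩
  · refine ⟨?_, hfam_fam hc F ?_, fun f hf k hk => smul_mem_fam hk hf, ?_, hz⟩
    · rintro k ⟨f, hf, e, he, h⟩
      rw [Set.mem_singleton_iff] at he
      subst he
      rcases h with rfl | rfl
      · exact hT.inv f hf _ hk1
      · exact hT.hfam.2 _ (hT.inv f hf _ hk1)
    · intro e he
      rw [Set.mem_singleton_iff] at he
      subst he
      exact hT.hfam.1 _ hk1
    · rintro k ⟨f, hf, e, he, h⟩ k' ⟨f', hf', e', he', h'⟩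
      rw [Set.mem_singleton_iff] at he he'
      subst he
      subst he'
      exact fun1_equiv ⟨f, hf, h⟩ ⟨f', hf', h'⟩

end Pool.Agent.Lib.MP_3467cd_al
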