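import Pool.Agent.Lib.MP_3467cd_al.Fun1
import Pool.Agent.Lib.MP_3467cd_al.Flip
import Pool.Agent.Lib.MP_3467cd_al.Two

open Pointwise

namespace Pool.Agent.Lib.MP_3467cd_al

variable {G : Type} [Group G] {V : Type} [MulAction G V] {X : SimpleGraph V}

/-- for a sufficiently sparse orbit every head component has three outer halfspaces -/
theorem exists_three_outer (hc : IsCubulation G X) {L : ℕ} (hB : Bridge X L) (h2 : TwoIn X)
    {a : Set V} (ha : Good X a) : ∃ r0 : ℕ, ∀ r, r0 ≤ r → ∀ F : Subgroup G, F.FiniteIndex →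
      (∀ f ∈ F, Near X r (f • a) a → f • a = a) → ∀ x ∈ inn X a,
        ∃ o : Fin 3 → Set V, (∀ i, Outer X (fam F {a}) x (o i)) ∧
          ∀ i i', i ≠ i' → o i ≠ o i' := by
  have hM := hc.median
  obtain ⟨D, hD⟩ := hc.exists_dim
  obtain ⟨k1, k2, g1, g2, s1, s2, hd, ht⟩ := h2 a ha.1 ha.2.1
  obtain ⟨p, rp, hp⟩ := ht.cvx hM (g1.1.cvx hM)
  obtain ⟨x0, hx0⟩ := ha.1.inn_nonempty
  refine ⟨max (D * L) (X.dist x0 p + rp), fun r hr F hF H x hx => ?_⟩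
  have hZ : HFam X (fam F {a}) := hfam_fam hc F fun e he => he ▸ ha.1
  have hsp := sparse_fam_single hc H
  have hL := hsp.lam hM hZ
  have haZ : a ∈ fam F {a} := mem_fam_self F rfl
  have key : ∀ k, Good X k → k ⊆ a → ¬ a ⊆ k →
      ∃ o, Outer X (fam F {a}) x o ∧ (o ∩ k).Nonempty ∧ aᶜ ≠ o := by
    intro k hk hka hak
    obtain ⟨u, hu, huk⟩ := weak_place hc hD hB hF (le_of_max_le_left hr) ha H hk.1 hk.2.1
    have hu' := hZ.1 u hu
    rcases comp_side (x := x) hu with h | h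
    · exact absurd (ha.1.eq_of_inn hM hu' (huk.trans hka) hx (h (Rel.refl _ x)) ▸ huk) hak
    · obtain ⟨o, ho, huo⟩ := hL.cvx_sub_outer hM hZ (hu'.cvx hM) hu'.nonempty h
      obtain ⟨z, hz⟩ := hu'.nonempty
      exact ⟨o, ho, ⟨z, huo hz, huk hz⟩, fun h => (h ▸ huo hz : z ∈ aᶜ) (hka (huk hz))⟩
  obtain ⟨o1, ho1, n1, e1⟩ := key k1 g1 s1 fun h =>
    g2.1.nonempty.elim fun z hz => Set.disjoint_left.1 hd (h (s2 hz)) hz
  obtain ⟨o2, ho2, n2, e2⟩ := key k2 g2 s2 fun h =>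
    g1.1.nonempty.elim fun z hz => Set.disjoint_left.1 hd hz (h (s1 hz))
  have e3 : o1 ≠ o2 := by
    rintro rfl
    obtain ⟨q, hq, hpq⟩ := hp o1 ((hZ.1 _ ho1.1).cvx hM) n1 n2
    have h0 : x0 ∉ o1 := ho1.not_mem (hL.inn_rel hM hZ haZ hx hx0)
    obtain ⟨b, hb, hb', -⟩ := hM.exists_car_le (k := o1) (z := x0) (z' := q) fun h => h0 (h.2 hq)
    have h1 := hM.tri x0 p q
    have h3 := le_of_max_le_right hr
    rcases hsp a haZ o1 ho1.1 ⟨x0, inn_subset_car a hx0, b, hb, by omega⟩ with h | h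
    · exact h0 (h ▸ hx0.1)
    · exact e1 h.symm
  refine ⟨![aᶜ, o1, o2], fun i => ?_, fun i i' h => ?_⟩
  · fin_cases i
    · exact outer_of_inn (compl_mem_fam haZ) hx
    · exact ho1
    · exact ho2
  · fin_cases i <;> fin_cases i' <;>
      first | exact absurd rfl h | assumption | exact Ne.symm (by assumption)

theorem fun2_sep (hM : IsMedian X) (hS : SepA G X) {Z : Set (Set V)} (hZ : HFam X Z) {x : V}
    {o : Fin 3 → Set V} (ho : ∀ i, Outer X Z x (o i)) (hne : ∀ i i', i ≠ i' → o i ≠ o i') :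
    ∃ N : Subgroup G, N.Normal ∧ N.FiniteIndex ∧
      ∀ i i', i ≠ i' → ∀ f ∈ N, ¬ SameH (f • o i) (o i') := by
  have key : ∀ q : Fin 3 × Fin 3, ∃ N : Subgroup G, N.Normal ∧ N.FiniteIndex ∧
      (q.1 ≠ q.2 → ∀ f ∈ N, ¬ SameH (f • o q.1) (o q.2)) := by
    rintro ⟨i, i'⟩
    by_cases h : i = i'
    · exact ⟨⊤, inferInstance, inferInstance, fun h' => absurd h h'⟩
    have hh := fun i => hZ.1 _ (ho i).1
    obtain ⟨N1, a1, b1, c1⟩ := hS.2 _ _ (hh i) (hh i') (hne i i' h)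
    obtain ⟨N2, a2, b2, c2⟩ := hS.2 _ _ (hh i) ((hh i').compl hM) fun e =>
      hne i i' h ((ho i').eq_of_sameH (ho i) (Or.inr e)).symm
    refine ⟨N1 ⊓ N2, inferInstance, inferInstance, fun _ f hf => ?_⟩
    rintro (e | e)
    · exact c1 f hf.1 e.symm
    · exact c2 f hf.2 (eq_compl_comm.1 e)
  choose N h1 h2 h3 using key
  exact ⟨⨅ q, N q, Subgroup.normal_iInf_normal h1, Subgroup.finiteIndex_iInf h2,
    fun i i' h f hf => h3 (i, i') h f (Subgroup.mem_iInf.1 hf _)⟩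

theorem fun2_move (hc : IsCubulation G X) {Z : Set (Set V)} {x x1 : V} {o : Fin 3 → Set V}
    (ho : ∀ i, Outer X Z x1 (o i)) {N : Subgroup G} (hN : N.Normal)
    (h : ∀ i i', i ≠ i' → ∀ f ∈ N, ¬ SameH (f • o i) (o i')) {g : G} (hg : g • Z = Z)
    (hx : Rel Z x (g • x1)) : ∃ o : Fin 3 → Set V, (∀ i, Outer X Z x (o i)) ∧
      ∀ i i', i ≠ i' → ∀ f ∈ N, ¬ SameH (f • o i) (o i') := by
  refine ⟨fun i => g • o i, fun i => hx.outer_iff.2 ?_, fun i i' hi f hf hs => ?_⟩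
  · simpa only [hg] using (hc.outer_smul g).2 (ho i)
  · refine h i i' hi (g⁻¹ * f * g) (hN.conj_mem' f hf g) ((sameH_smul g).1 ?_)
    simpa only [mul_smul, smul_inv_smul] using hs

theorem exists_tree3 (hc : IsCubulation G X) {L : ℕ} (hB : Bridge X L) (hS : SepA G X)
    (h2 : TwoIn X) {a : Set V} (ha : Good X a) :
    ∃ (F : Subgroup G) (Z : Set (Set V)), F.Normal ∧ Tree3 X F Z ∧ a ∈ Z := by
  have hM := hc.median
  obtain ⟨r1, h1⟩ := exists_three_outer hc hB h2 ha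
  obtain ⟨r2, h3⟩ := exists_three_outer hc hB h2 (ha.compl hM)
  obtain ⟨F, hFn, hFi, H⟩ := hS.1 (max r1 r2)
  have hZ : HFam X (fam F {a}) := hfam_fam hc F fun e he => he ▸ ha.1
  have hL := (sparse_fam_single hc fun f hf => H f hf a ha.1).lam hM hZ
  have haZ : a ∈ fam F {a} := mem_fam_self F rfl
  have hZc : fam F {aᶜ} = fam F {a} := by
    ext k
    simp only [fam, Set.mem_singleton_iff, exists_eq_left, Set.smul_set_compl, compl_compl,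
      or_comm]
  obtain ⟨x1, hx1⟩ := ha.1.inn_nonempty
  obtain ⟨x2, hx2⟩ := (ha.1.compl hM).inn_nonempty
  obtain ⟨o1, a1, b1⟩ := h1 _ (le_max_left _ _) F hFi (fun f hf => H f hf a ha.1) x1 hx1
  obtain ⟨o2, a2, b2⟩ := h3 _ (le_max_right _ _) F hFi
    (fun f hf => H f hf aᶜ (ha.1.compl hM)) x2 hx2
  rw [hZc] at a2
  obtain ⟨N1, n1, i1, c1⟩ := fun2_sep hM hS hZ a1 b1
  obtain ⟨N2, n2, i2, c2⟩ := fun2_sep hM hS hZ a2 b2
  have hN : (F ⊓ (N1 ⊓ N2)).Normal := inferInstance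
  refine ⟨F ⊓ (N1 ⊓ N2), fam F {a}, hN, ⟨inferInstance, hZ, hL,
    fun f hf k hk => smul_mem_fam hk hf.1,
    fun f hf k hk => two_sided_single (hZ.1 k hk) (fun f hf => H f hf k (hZ.1 k hk)) hf.1,
    fun x => ?_⟩, haZ⟩
  obtain ⟨y, hy⟩ : ∃ y, ¬ Rel (fam F {a}) x y := by
    by_contra! h
    exact hx2.1 ((((h x1).symm.trans (h x2)) a haZ).1 hx1.1)
  obtain ⟨k, hk, -⟩ := hZ.exists_outer hM hy
  obtain ⟨f, hf, _, rfl, rfl | rfl⟩ := hk.1
  · refine fun2_move hc a2 hN (fun i i' h f hf => c2 i i' h f hf.2.2) (smul_fam_of_mem _ hf)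
      (hk.inn_rel hM hZ hL ?_)
    rw [← Set.smul_set_compl, ← hc.smul_inn]
    exact Set.smul_mem_smul_set hx2
  · refine fun2_move hc a1 hN (fun i i' h f hf => c1 i i' h f hf.2.1) (smul_fam_of_mem _ hf)
      (hk.inn_rel hM hZ hL ?_)
    rw [compl_compl, ← hc.smul_inn]
    exact Set.smul_mem_smul_set hx1

theorem exists_functionals (hc : IsCubulation G X) {L : ℕ} (hB : Bridge X L) (hS : SepA G X)
    (h2 : TwoIn X) {a : Set V} (ha : Good X a) :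
    ∃ (F : Subgroup G) (ψ1 ψ2 : G → ℤ), F.Normal ∧ F.FiniteIndex ∧ HomOn F ψ1 ∧ HomOn F ψ2 ∧
      Kills F ψ1 a ∧ Kills F ψ2 a ∧ ∃ f1 ∈ F, ∃ f2 ∈ F, ψ1 f1 ≠ 0 ∧ ψ1 f2 = 0 ∧ ψ2 f2 ≠ 0 := by
  obtain ⟨F, Z, hF, hT, haZ⟩ := exists_tree3 hc hB hS h2 ha
  obtain ⟨x, -⟩ := ha.1.nonempty
  obtain ⟨k1, hk1, f1, hf1, -, h1⟩ := hT.descent hc (Or.inl rfl) x
  obtain ⟨k2, hk2, f2, hf2, hr, h3⟩ := hT.descent hc (Or.inr ⟨k1, hk1, rfl⟩) x
  exact ⟨F, _, _, hF, hT.fi, pc_homOn hc F (hT.hfam.1 k1 hk1) x,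
    pc_homOn hc F (hT.hfam.1 k2 hk2) x, hT.kills hc hk1 haZ x, hT.kills hc hk2 haZ x, f1, hf1, f2,
    hf2, h1, pc_eq_zero F k1 fun e ⟨f, hf, he⟩ => hr e ⟨f, hf, k1, rfl, Or.inl he⟩, h3⟩

end Pool.Agent.Lib.MP_3467cd_al
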