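import Pool.Agent.Lib.MP_3467cd_al.Fun0

open Pointwise

namespace Pool.Agent.Lib.MP_3467cd_al

variable {G : Type} [Group G] {V : Type} [MulAction G V] {X : SimpleGraph V}

theorem giant1_tube (hc : IsCubulation G X) {F : Subgroup G} (hF : F.FiniteIndex) (x0 : V) (r : ℕ)
    {t : Set V} (ht : IsHalf X t) : ∃ W : Set G, W.Finite ∧ ∀ y : G,
      (∃ b ∈ car X t, X.dist (y • x0) b ≤ r) → ∃ s ∈ F, s • t = t ∧ s⁻¹ * y ∈ W := by
  obtain ⟨T1, f1, -, h1⟩ := hc.inn_orbits hF ht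
  obtain ⟨T2, f2, -, h2⟩ := hc.inn_orbits hF (ht.compl hc.median)
  refine ⟨⋃ u ∈ T1 ∪ T2, {g : G | X.dist u (g • x0) ≤ r},
    (f1.union f2).biUnion fun u _ => hc.proper_dist u x0 r, ?_⟩
  rintro y ⟨b, hb, hd⟩
  obtain ⟨s, hs, e, u, hu, rfl⟩ : ∃ s ∈ F, s • t = t ∧ ∃ u ∈ T1 ∪ T2, b = s • u := by
    rcases hb with hb | hb
    · obtain ⟨s, hs, e, u, hu, e'⟩ := h1 b hb
      exact ⟨s, hs, e, u, Or.inl hu, e'⟩
    · obtain ⟨s, hs, e, u, hu, e'⟩ := h2 b hb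
      rw [Set.smul_set_compl] at e
      exact ⟨s, hs, compl_injective e, u, Or.inr hu, e'⟩
  refine ⟨s, hs, e, Set.mem_biUnion hu ?_⟩
  change X.dist u ((s⁻¹ * y) • x0) ≤ r
  rwa [← hc.dist_smul s, mul_smul, smul_inv_smul, X.dist_comm]

/-- a character killing the stabiliser of `k` is almost constant along the carrier of `k` -/
theorem Funl.tube (hc : IsCubulation G X) (Φ : Funl G X) (x0 : V) (r : ℕ) : ∃ c : ℕ,
    ∀ k, IsHalf X k → ∀ ψ ∈ Φ.Ψ, Kills Φ.F ψ k → ∀ y ∈ Φ.F, ∀ y' ∈ Φ.F,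
      (∃ b ∈ car X k, X.dist (y • x0) b ≤ r) → (∃ b ∈ car X k, X.dist (y' • x0) b ≤ r) →
        |ψ y - ψ y'| ≤ c := by
  obtain ⟨T, hT, hh, ho⟩ := hc.half_orbits Φ.fi
  choose! W hW hW' using fun t (ht : t ∈ T) => giant1_tube hc Φ.fi x0 r (hh t ht)
  obtain ⟨c, hc0⟩ := ((Φ.fin.prod (hT.biUnion hW)).image
    fun p : (G → ℤ) × G => (p.1 p.2).natAbs).bddAbove
  refine ⟨2 * c, fun k hk ψ hψ hK => ?_⟩
  obtain ⟨f, hf, t, ht, rfl⟩ := ho k hk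
  have H := Φ.hom ψ hψ
  have key : ∀ y ∈ Φ.F, (∃ b ∈ car X (f • t), X.dist (y • x0) b ≤ r) → |ψ y - ψ f| ≤ c := by
    rintro y hy ⟨b, hb, hd⟩
    obtain ⟨s, hs, e, hw⟩ := hW' t ht (f⁻¹ * y) ⟨f⁻¹ • b, by
      rwa [← hc.smul_car, Set.mem_smul_set_iff_inv_smul_mem] at hb, by
      rwa [mul_smul, hc.dist_smul]⟩
    have h1 : (ψ (s⁻¹ * (f⁻¹ * y))).natAbs ≤ c :=
      hc0 ⟨(ψ, s⁻¹ * (f⁻¹ * y)), ⟨hψ, Set.mem_biUnion ht hw⟩, rfl⟩
    have h2 : ψ (f * s * f⁻¹) = 0 :=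
      hK _ (Φ.F.mul_mem (Φ.F.mul_mem hf hs) (Φ.F.inv_mem hf)) (by
        rw [mul_smul, inv_smul_smul, mul_smul, e])
    rw [H.conj hf hs] at h2
    rw [H _ (Φ.F.inv_mem hs) _ (Φ.F.mul_mem (Φ.F.inv_mem hf) hy), H _ (Φ.F.inv_mem hf) _ hy,
      H.inv hs, H.inv hf, h2] at h1
    rw [abs_le]
    omega
  intro y hy y' hy' h1 h2
  have k1 := abs_le.1 (key y hy h1)
  have k2 := abs_le.1 (key y' hy' h2)
  rw [abs_le]
  omega

/-- avoiding finitely many short intervals modulo `n` along arithmetic progressions -/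
theorem exists_far {ι : Type} (s : Finset ι) (K c J n : ℕ) (hs : s.card ≤ K) (u j : ι → ℤ)
    (hj : ∀ i ∈ s, j i ≠ 0 ∧ |j i| ≤ J) (hn : J * (K * (2 * c + 1)) < n) :
    ∃ t : ℕ, t ≤ K * (2 * c + 1) ∧ ∀ i ∈ s, ∀ w : ℤ, (n : ℤ) ∣ u i + t * j i - w →
      (c : ℤ) < |w| := by
  classical
  by_contra H
  push Not at H
  have : Nonempty ι := ⟨(H 0 (Nat.zero_le _)).choose⟩
  choose! i hi w hw hw' using H
  obtain ⟨t, ht, t', ht', hne, e⟩ := Finset.exists_ne_map_eq_of_card_lt_of_maps_to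
    (s := Finset.range (K * (2 * c + 1) + 1)) (t := s ×ˢ Finset.Icc (-(c : ℤ)) c)
    (f := fun t => (i t, w t)) (by
      rw [Finset.card_product, Finset.card_range, Int.card_Icc,
        show ((c : ℤ) + 1 - -(c : ℤ)).toNat = 2 * c + 1 by omega]
      exact Nat.lt_succ_of_le (Nat.mul_le_mul_right _ hs)) (by
      intro t ht
      have h1 := Nat.lt_succ_iff.1 (Finset.mem_range.1 (Finset.mem_coe.1 ht))
      exact Finset.mem_coe.2 (Finset.mem_product.2 ⟨hi t h1, Finset.mem_Icc.2 (abs_le.1 (hw' t h1))⟩))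
  have h1 := Nat.lt_succ_iff.1 (Finset.mem_range.1 ht)
  have h2 := Nat.lt_succ_iff.1 (Finset.mem_range.1 ht')
  obtain ⟨e1, e2⟩ := Prod.mk.inj e
  have h3 := dvd_sub (hw t h1) (hw t' h2)
  rw [← e1, ← e2, show u (i t) + t * j (i t) - w t - (u (i t) + t' * j (i t) - w t) =
    ((t : ℤ) - t') * j (i t) by ring] at h3
  have h4 : |((t : ℤ) - t') * j (i t)| < n := by
    rw [abs_mul, mul_comm]
    refine lt_of_le_of_lt (mul_le_mul (hj _ (hi t h1)).2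
      (show |(t : ℤ) - t'| ≤ ((K * (2 * c + 1) : ℕ) : ℤ) from abs_le.2 ⟨by omega, by omega⟩)
      (abs_nonneg _) (Int.natCast_nonneg _)) ?_
    exact_mod_cast hn
  rcases mul_eq_zero.1 (Int.eq_zero_of_abs_lt_dvd h3 h4) with h5 | h5
  · exact hne (by omega)
  · exact (hj _ (hi t h1)).1 h5

/-- the deep subgroup -/
theorem Funl.exists_sub (Φ : Funl G X) {F1 : Subgroup G} (h1 : F1.Normal) (h2 : F1.FiniteIndex)
    {n : ℕ} (hn : 1 ≤ n) : ∃ F2 : Subgroup G, F2 ≤ F1 ∧ F2 ≤ Φ.F ∧ F2.Normal ∧ F2.FiniteIndex ∧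
      (∀ f ∈ F2, ∀ ψ ∈ Φ.Ψ, (n : ℤ) ∣ ψ f) ∧
      ∀ f ∈ Φ.F, ∀ v ∈ Φ.F, v ∈ F1 → f * v * f⁻¹ * v⁻¹ ∈ F2 := by
  have : NeZero n := ⟨by omega⟩
  have := Φ.fin.to_subtype
  have := Φ.fi
  let φ : Φ.F →* Multiplicative (Φ.Ψ → ZMod n) := MonoidHom.mk'
    (fun f => Multiplicative.ofAdd fun ψ => ((ψ.1 f.1 : ℤ) : ZMod n)) fun a b => by
      rw [← ofAdd_add]
      congr 1
      funext ψ
      rw [Subgroup.coe_mul, Φ.hom ψ.1 ψ.2 _ a.2 _ b.2, Int.cast_add]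
      rfl
  have hm : ∀ f, f ∈ φ.ker.map Φ.F.subtype ↔ f ∈ Φ.F ∧ ∀ ψ ∈ Φ.Ψ, (n : ℤ) ∣ ψ f := by
    intro f
    constructor
    · rintro ⟨g, hg, rfl⟩
      refine ⟨g.2, fun ψ hψ => (ZMod.intCast_zmod_eq_zero_iff_dvd _ _).1 ?_⟩
      exact congrFun (congrArg Multiplicative.toAdd (MonoidHom.mem_ker.1 hg)) ⟨ψ, hψ⟩
    · rintro ⟨k1, k2⟩
      refine ⟨⟨f, k1⟩, MonoidHom.mem_ker.2 ?_, rfl⟩
      exact congrArg Multiplicative.ofAdd
        (funext fun ψ => (ZMod.intCast_zmod_eq_zero_iff_dvd _ _).2 (k2 ψ.1 ψ.2))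
  have : (φ.ker.map Φ.F.subtype).FiniteIndex := ⟨by
    rw [Subgroup.index_map_subtype]
    exact mul_ne_zero Subgroup.FiniteIndex.index_ne_zero Subgroup.FiniteIndex.index_ne_zero⟩
  have hle := Subgroup.normalCore_le (F1 ⊓ φ.ker.map Φ.F.subtype)
  refine ⟨(F1 ⊓ φ.ker.map Φ.F.subtype).normalCore, fun f hf => (hle hf).1,
    fun f hf => ((hm f).1 (hle hf).2).1, inferInstance, inferInstance,
    fun f hf => ((hm f).1 (hle hf).2).2, fun f hf v hv hv1 g => ⟨?_, (hm _).2 ⟨?_, ?_⟩⟩⟩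
  · exact h1.conj_mem _ (F1.mul_mem (h1.conj_mem _ hv1 f) (F1.inv_mem hv1)) g
  · exact Φ.normal.conj_mem _ (Φ.F.mul_mem (Φ.normal.conj_mem _ hv f) (Φ.F.inv_mem hv)) g
  · intro ψ hψ
    have k1 := Φ.normal.conj_mem _ hf g
    have k2 := Φ.normal.conj_mem _ hv g
    rw [show g * (f * v * f⁻¹ * v⁻¹) * g⁻¹ =
        g * f * g⁻¹ * (g * v * g⁻¹) * (g * f * g⁻¹)⁻¹ * (g * v * g⁻¹)⁻¹ by group,
      Φ.hom ψ hψ _ (Φ.normal.conj_mem _ k2 _) _ (Φ.F.inv_mem k2), (Φ.hom ψ hψ).conj k1 k2,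
      (Φ.hom ψ hψ).inv k2, add_neg_cancel]
    exact dvd_zero _

/-- orbit points at bounded distance connect the whole orbit -/
theorem IsCubulation.orbit_induction (hc : IsCubulation G X) {F : Subgroup G} {x0 : V} {R : ℕ}
    (hR : ∀ z, ∃ f ∈ F, X.dist z (f • x0) ≤ R) {p : G → Prop} {y0 : G} (hy0 : y0 ∈ F)
    (h0 : p y0) (hs : ∀ y ∈ F, ∀ u ∈ F, X.dist x0 (u • x0) ≤ 2 * R + 1 → p y → p (y * u))
    {y : G} (hy : y ∈ F) : p y := by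
  have step : ∀ f ∈ F, ∀ f' ∈ F, X.dist (f • x0) (f' • x0) ≤ 2 * R + 1 → p f → p f' := by
    intro f hf f' hf' hd hp
    have := hs f hf (f⁻¹ * f') (F.mul_mem (F.inv_mem hf) hf') (by
      rwa [← hc.dist_smul f, mul_smul, smul_inv_smul]) hp
    rwa [mul_inv_cancel_left] at this
  refine hc.median.adj_induction (p := fun v => ∀ y ∈ F, X.dist v (y • x0) ≤ R → p y)
    (x0 := y0 • x0) (fun y hy hd => step y0 hy0 y hy (by omega) h0) ?_ (y • x0) y hy (by simp)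
  intro v v' hv H y' hy' hd
  obtain ⟨f, hf, hd'⟩ := hR v
  refine step f hf y' hy' ?_ (H f hf hd')
  have k1 := hc.median.tri (f • x0) v (y' • x0)
  have k2 := hc.median.tri v v' (y' • x0)
  rw [dist_of_adj hv] at k2
  rw [X.dist_comm] at hd'
  omega

end Pool.Agent.Lib.MP_3467cd_al
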