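import Pool.Agent.Lib.MP_3467cd_al.Act2

open Pointwise

namespace Pool.Agent.Lib.MP_3467cd_al

variable {G : Type} [Group G] {V : Type} [MulAction G V] {X : SimpleGraph V}

theorem Thin.bridge (hM : IsMedian X) {D L : ℕ} (hD : Dim X D) (hL : 1 ≤ L) (hT : Thin X L) :
    Bridge X L := by
  refine ⟨hL, fun h k hh hN => ?_⟩
  obtain ⟨y0, hy0⟩ := hN.isHalf_left.nonempty
  obtain ⟨p, hp⟩ := hM.exists_gate (hh.cvx hM) hh.nonempty y0
  refine ⟨p, D * L, fun y hy q hq => ?_⟩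
  by_contra hc
  push Not at hc
  obtain ⟨e, he, hes⟩ := hD.chain_of_dist hM L hc
  obtain ⟨c, hcn, c0, cL⟩ := hN
  refine hT c e hcn he (fun i hi j hj => ?_)
  obtain ⟨e1, e2, e3⟩ := hes j hj
  have s1 : k ⊆ c i := cL ▸ hcn.subset hi le_rfl
  have s2 : c i ⊆ hᶜ := c0 ▸ hcn.subset (Nat.zero_le i) hi
  have a1 : y ∈ e j := by
    by_contra h1
    exact e2 (hq.subset hM e1 h1 e3 hp.1)
  have a2 : y0 ∉ e j := fun h1 => e2 (hp.mem_of hM e1 h1 ⟨q, hq.1, e3⟩)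
  exact ⟨⟨y, s1 hy, a1⟩, ⟨y0, s1 hy0, a2⟩, ⟨q, fun h1 => s2 h1 hq.1, e3⟩,
    ⟨p, fun h1 => s2 h1 hp.1, e2⟩⟩

theorem Tight.cvx (hM : IsMedian X) {h k : Set V} (hh : Cvx X h) (H : Tight X h k) :
    ∃ (p : V) (r : ℕ), ∀ C, Cvx X C → (C ∩ h).Nonempty → (C ∩ k).Nonempty →
      ∃ q ∈ C, X.dist p q ≤ r := by
  obtain ⟨p, r, H⟩ := H
  refine ⟨p, r, ?_⟩
  rintro C hC ⟨x, x1, x2⟩ ⟨y, y1, y2⟩
  obtain ⟨q, hq⟩ := hM.exists_gate hh ⟨x, x2⟩ y
  exact ⟨q, hC y y1 x x1 q (hq.2 x x2), H y y2 q hq⟩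

theorem goodL_bound {α : Type} {T : Set α} (hT : T.Finite) {P : α → ℕ → Prop}
    (hm : ∀ t m n, m ≤ n → P t m → P t n) (h : ∀ t ∈ T, ∃ m, P t m) :
    ∃ M, ∀ t ∈ T, P t M := by
  choose! ρ hρ using h
  obtain ⟨M, hM⟩ := (hT.image ρ).bddAbove
  exact ⟨M, fun t ht => hm t _ _ (hM ⟨t, ht, rfl⟩) (hρ t ht)⟩

theorem goodL_dist (hc : IsCubulation G X) (g : G) (a b : V) :
    X.dist (g • a) b = X.dist a (g⁻¹ • b) := by
  rw [← hc.dist_smul g a (g⁻¹ • b), smul_inv_smul]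

theorem IsCubulation.exists_shallow (hc : IsCubulation G X) : ∃ D : ℕ, ∀ h, IsHalf X h →
    (∃ z ∈ h, ∀ y, y ∉ h → D < X.dist z y) → Deep X h := by
  obtain ⟨T, T1, _, T3⟩ := hc.half_orbits (F := ⊤) inferInstance
  obtain ⟨D, hD⟩ := goodL_bound T1
    (P := fun t m => ¬ Deep X t → ∀ z ∈ t, ∃ y, y ∉ t ∧ X.dist z y ≤ m)
    (fun t m n hmn H h1 z hz => by
      obtain ⟨y, y1, y2⟩ := H h1 z hz
      exact ⟨y, y1, y2.trans hmn⟩)
    (fun t _ => by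
      by_cases h1 : Deep X t
      · exact ⟨0, fun h2 => absurd h1 h2⟩
      · unfold Deep at h1
        push Not at h1
        obtain ⟨r, hr⟩ := h1
        refine ⟨r, fun _ z hz => ?_⟩
        obtain ⟨y, y1, y2⟩ := hr z hz
        exact ⟨y, y1, y2.le⟩)
  refine ⟨D, ?_⟩
  rintro h hh ⟨z, hz, H⟩
  obtain ⟨f, _, t, ht, rfl⟩ := T3 h hh
  by_contra hn
  obtain ⟨y, y1, y2⟩ := hD t ht (fun h1 => hn (h1.smul hc f)) (f⁻¹ • z)
    (Set.mem_smul_set_iff_inv_smul_mem.1 hz)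
  have := H (f • y) (fun h1 => y1 (Set.smul_mem_smul_set_iff.1 h1))
  rw [goodL_dist, inv_inv] at y2
  · omega
  · exact hc

theorem goodL_depth (hc : IsCubulation G X) (r : ℕ) {t : Set V} (ht : IsHalf X t)
    (hd : Deep X t) : ∃ m : ℕ, ∀ z ∈ t, ∃ z' ∈ t, X.dist z z' ≤ m ∧
      ∀ y, y ∉ t → r ≤ X.dist z' y := by
  obtain ⟨z0, hz0, H0⟩ := hd r
  obtain ⟨S, S1, _, S3⟩ := hc.inn_orbits (F := ⊤) inferInstance ht
  obtain ⟨M, hM⟩ := goodL_bound S1 (P := fun u m => X.dist u z0 ≤ m)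
    (fun _ _ _ hmn H => H.trans hmn) (fun u _ => ⟨_, le_rfl⟩)
  refine ⟨r + M, fun z hz => ?_⟩
  by_cases h1 : ∀ y, y ∉ t → r ≤ X.dist z y
  · exact ⟨z, hz, by simp, h1⟩
  push Not at h1
  obtain ⟨y, y1, y2⟩ := h1
  obtain ⟨a, b, ab, ha, hb, h2, _, _⟩ := hc.median.exit_edge hz y1
  obtain ⟨s, _, s1, u, hu, e⟩ := S3 a ⟨ha, b, ab, hb⟩
  refine ⟨s • z0, s1 ▸ Set.smul_mem_smul_set hz0, ?_, fun w hw => ?_⟩
  · have a1 := hc.median.tri z a (s • z0)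
    have a2 : X.dist a (s • z0) = X.dist u z0 := by rw [e, hc.dist_smul]
    have a3 := hM u hu
    unfold Btw at h2
    omega
  · rw [goodL_dist hc]
    refine H0 _ (fun h3 => hw ?_)
    rw [← s1]
    exact Set.mem_smul_set_iff_inv_smul_mem.2 h3

theorem IsCubulation.uniform_depth (hc : IsCubulation G X) (r : ℕ) : ∃ r1 : ℕ, ∀ h,
    IsHalf X h → Deep X h → ∀ z ∈ h, ∃ z' ∈ h, X.dist z z' ≤ r1 ∧
      ∀ y, y ∉ h → r ≤ X.dist z' y := by
  obtain ⟨T, T1, T2, T3⟩ := hc.half_orbits (F := ⊤) inferInstance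
  obtain ⟨M, hM⟩ := goodL_bound T1
    (P := fun t m => Deep X t → ∀ z ∈ t, ∃ z' ∈ t, X.dist z z' ≤ m ∧
      ∀ y, y ∉ t → r ≤ X.dist z' y)
    (fun t m n hmn H h1 z hz => by
      obtain ⟨y, y1, y2, y3⟩ := H h1 z hz
      exact ⟨y, y1, y2.trans hmn, y3⟩)
    (fun t ht => by
      by_cases h1 : Deep X t
      · obtain ⟨m, hm⟩ := goodL_depth hc r (T2 t ht) h1
        exact ⟨m, fun _ => hm⟩
      · exact ⟨0, fun h2 => absurd h2 h1⟩)
  refine ⟨M, fun h hh hd z hz => ?_⟩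
  obtain ⟨f, _, t, ht, rfl⟩ := T3 h hh
  have d1 : Deep X t := by
    have := hd.smul hc f⁻¹
    rwa [inv_smul_smul] at this
  obtain ⟨z', z1, z2, z3⟩ := hM t ht d1 (f⁻¹ • z) (Set.mem_smul_set_iff_inv_smul_mem.1 hz)
  refine ⟨f • z', Set.smul_mem_smul_set z1, ?_, fun y hy => ?_⟩
  · rwa [goodL_dist hc, inv_inv] at z2
  · rw [goodL_dist hc]
    exact z3 _ (fun h1 => hy (Set.mem_smul_set_iff_inv_smul_mem.2 h1))

theorem IsCubulation.good_mid (hc : IsCubulation G X) : ∃ D : ℕ, ∀ (n : ℕ) (c : ℕ → Set V)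
    (i : ℕ), Chn X n c → D ≤ i → i + D ≤ n → Good X (c i) := by
  obtain ⟨D, hD⟩ := hc.exists_shallow
  refine ⟨D, fun n c i hn h1 h2 => ?_⟩
  have hi := hn.1 i (by omega)
  refine ⟨hi, hD _ hi ?_, hD _ (hi.compl hc.median) ?_⟩
  · have N := hn.nest (i := i) (j := n) (by omega) le_rfl
    obtain ⟨z, hz⟩ := (hn.1 n le_rfl).nonempty
    refine ⟨z, N.subset hz, fun y hy => ?_⟩
    have := N.le_dist hc.median hz hy
    omega
  · have N := (hn.nest (i := 0) (j := i) (by omega) (by omega)).compl hc.median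
    obtain ⟨z, hz⟩ := (hn.1 0 (by omega)).compl_nonempty
    refine ⟨z, N.subset hz, fun y hy => ?_⟩
    have := N.le_dist hc.median hz hy
    omega

theorem Deep.mono {h k : Set V} (H : Deep X h) (hhk : h ⊆ k) : Deep X k := by
  intro r
  obtain ⟨z, hz, H1⟩ := H r
  exact ⟨z, hhk hz, fun y hy => H1 y (fun h1 => hy (hhk h1))⟩

theorem IsCubulation.deep_nest (hc : IsCubulation G X) {h : Set V} (hh : IsHalf X h)
    (hd : Deep X h) {n : ℕ} (hn : 1 ≤ n) : ∃ k, Good X k ∧ Nest X n k h := by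
  have hM := hc.median
  obtain ⟨Δ, hΔ⟩ := hc.exists_dim
  obtain ⟨D, hD⟩ := hc.good_mid
  obtain ⟨z, hz, H⟩ := hd (Δ * (n + 2 * D) + 1)
  obtain ⟨p, hp⟩ := hM.exists_gate ((hh.compl hM).cvx hM) hh.compl_nonempty z
  have a1 := H p hp.1
  rw [X.dist_comm] at a1
  obtain ⟨c, c1, c2⟩ := hΔ.chain_of_dist hM (n + 2 * D) (x := p) (y := z) (by omega)
  have g := hD _ c (n + D) c1 (by omega) (by omega)
  refine ⟨c (n + D), g, ?_⟩
  have N := c1.nest (i := D) (j := n + D) (by omega) (by omega)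
  rw [Nat.add_sub_cancel] at N
  obtain ⟨e1, e2, e3⟩ := c2 D (by omega)
  exact N.enlarge hn g.1 hh le_rfl
    (Set.compl_subset_compl.1 (hp.subset hM (e1.compl hM) (fun h1 => h1 e3) e2))

/-- one of two tightly separated sets can be pushed into any deep halfspace -/
theorem IsCubulation.place0 (hc : IsCubulation G X) {F : Subgroup G} (hF : F.FiniteIndex)
    {k1 k2 h : Set V} (hk : Cvx X k1) (ht : Tight X k1 k2) (hh : IsHalf X h) (hd : Deep X h) :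
    ∃ f ∈ F, f • k1 ⊆ h ∨ f • k2 ⊆ h := by
  have hM := hc.median
  obtain ⟨p, r, H⟩ := ht.cvx hM hk
  obtain ⟨R, hR⟩ := hc.cobounded hF p
  obtain ⟨z, _, H1⟩ := hd (R + r + 1)
  obtain ⟨f, hf, d1⟩ := hR z
  refine ⟨f, hf, ?_⟩
  by_contra hn
  push Not at hn
  have key : ∀ k : Set V, ¬ f • k ⊆ h → (f⁻¹ • hᶜ ∩ k).Nonempty := by
    intro k h1
    obtain ⟨x, x1, x2⟩ := Set.not_subset.1 h1
    exact ⟨f⁻¹ • x, Set.smul_mem_smul_set x2, Set.mem_smul_set_iff_inv_smul_mem.1 x1⟩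
  obtain ⟨q, q1, q2⟩ := H _ (((hh.compl hM).cvx hM).smul hc f⁻¹) (key _ hn.1) (key _ hn.2)
  have q3 := Set.mem_smul_set_iff_inv_smul_mem.1 q1
  rw [inv_inv] at q3
  have a1 := H1 _ q3
  have a2 := hM.tri z (f • p) (f • q)
  rw [hc.dist_smul] at a2
  omega

theorem IsCubulation.exists_good_of_far (hc : IsCubulation G X) :
    ∃ R : ℕ, ∀ x y, R ≤ X.dist x y → ∃ h, Good X h := by
  obtain ⟨Δ, hΔ⟩ := hc.exists_dim
  obtain ⟨D, hD⟩ := hc.good_mid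
  refine ⟨Δ * (2 * D) + 1, fun x y H => ?_⟩
  obtain ⟨c, c1, _⟩ := hΔ.chain_of_dist hc.median (2 * D) (x := x) (y := y) (by omega)
  exact ⟨c D, hD _ c D c1 le_rfl (by omega)⟩

/-- long geodesics cross a nested pair of good hyperplanes at bounded distance from each other,
far from the end points -/
theorem IsCubulation.pair_lemma (hc : IsCubulation G X) (C : ℕ) : ∃ R : ℕ, ∀ D : ℕ, ∃ R1 : ℕ,
    ∀ x y, R1 ≤ X.dist x y → ∃ h k, Good X h ∧ Good X k ∧ Nest X C k h ∧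
      (∃ a ∈ inn X h, ∃ b ∈ inn X kᶜ, X.dist a b ≤ R) ∧
      (∀ z ∈ h, D < X.dist x z) ∧ ∀ z, z ∉ k → D < X.dist y z := by
  have hM := hc.median
  obtain ⟨Δ, hΔ⟩ := hc.exists_dim
  obtain ⟨Dg, hD⟩ := hc.good_mid
  obtain ⟨R, hR⟩ : ∃ R, R = Δ * (C + 2 * Dg) + 1 := ⟨_, rfl⟩
  refine ⟨R, fun D => ⟨Δ * (2 * D + R) + 1, fun x y H => ?_⟩⟩
  obtain ⟨c, c1, c2⟩ := hΔ.chain_of_dist hM (2 * D + R) (x := x) (y := y) (by omega)
  have i1 := c1.1 D (by omega)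
  have i2 := c1.1 (D + R) (by omega)
  obtain ⟨p, hp, q, hq, hs⟩ := hM.exists_closest ((i1.compl hM).cvx hM) (i2.cvx hM)
    i1.compl_nonempty i2.nonempty
  have N1 := c1.nest (i := D) (j := D + R) (by omega) (by omega)
  have a1 := N1.le_dist hM hq hp
  rw [X.dist_comm] at a1
  obtain ⟨q', b1, b2⟩ := hM.exists_btw_dist (x := p) (y := q) (n := R) (by omega)
  have sub : ∀ e ∈ sep X p q', e ∈ sep X p q := by
    rintro e ⟨e1, e2, e3⟩
    refine ⟨e1, e2, ?_⟩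
    by_contra h1
    exact (e1.compl hM).cvx hM p e2 q h1 q' b1 e3
  obtain ⟨e, e1, e2⟩ := hΔ.chain_of_dist hM (C + 2 * Dg) (x := p) (y := q') (by omega)
  have s1 := e2 Dg (by omega)
  have s2 := e2 (Dg + C) (by omega)
  have N2 := e1.nest (i := Dg) (j := Dg + C) (by omega) (by omega)
  rw [Nat.add_sub_cancel_left] at N2
  refine ⟨e Dg, e (Dg + C), hD _ e _ e1 le_rfl (by omega), hD _ e _ e1 (by omega) (by omega),
    N2, ?_, fun z hz => ?_, fun z hz => ?_⟩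
  · obtain ⟨a, a', aa, ha, ha', t1, _, _⟩ := hM.exit_edge s1.2.2 s1.2.1
    obtain ⟨b, b', bb, hb, hb', t2, _, _⟩ := hM.exit_edge (A := (e (Dg + C))ᶜ) s2.2.1
      (fun h1 => h1 s2.2.2)
    refine ⟨a, ⟨ha, a', aa, ha'⟩, b, ⟨hb, b', bb, hb'⟩, ?_⟩
    have u1 := hM.tri a p b
    have u2 := hM.tri a q' b
    have t3 := t1.symm
    unfold Btw at t2 t3
    have u3 : X.dist a p = X.dist p a := X.dist_comm
    have u4 : X.dist q' b = X.dist b q' := X.dist_comm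
    omega
  · have z1 : z ∈ c D := by
      by_contra h1
      exact Set.disjoint_left.1 (hs _ (sub _ s1)).2 h1 hz
    have N := c1.nest (i := 0) (j := D) (by omega) (by omega)
    have := N.le_dist hM z1 (c2 0 (by omega)).2.1
    rw [X.dist_comm] at this
    omega
  · have z1 : z ∉ c (D + R) := fun h1 => hz ((hs _ (sub _ s2)).1 h1)
    have N := c1.nest (i := D + R) (j := 2 * D + R) (by omega) le_rfl
    have := N.le_dist hM (c2 _ le_rfl).2.2 z1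
    omega

end Pool.Agent.Lib.MP_3467cd_al
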