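import Pool.Agent.Lib.MP_3467cd_al.Act2

open Pointwise

namespace Pool.Agent.Lib.MP_3467cd_al

theorem hyp1_log {α : Type} (d : α → α → ℕ) (hs : ∀ x y, d x y = d y x) (δ : ℕ)
    (h4 : ∀ x y z w, d x y + d z w ≤ max (d x z + d y w) (d x w + d y z) + δ) (z : α) (k : ℕ) :
    ∀ (N : ℕ) (g : ℕ → α), 1 ≤ N → N ≤ 2 ^ k → ∃ i < N,
      d (g i) z + d (g (i + 1)) z + d (g 0) (g N) ≤
        d (g 0) z + d (g N) z + d (g i) (g (i + 1)) + δ * k := by
  induction k with
  | zero =>
    intro N g h1 h2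
    obtain rfl : N = 1 := by omega
    exact ⟨0, Nat.one_pos, le_rfl⟩
  | succ k ih =>
    intro N g h1 h2
    rcases h1.eq_or_lt with rfl | h1
    · exact ⟨0, Nat.one_pos, Nat.le_add_right _ _⟩
    have h := h4 (g 0) (g N) (g (N / 2)) z
    rw [Nat.mul_succ]
    rcases le_total (d (g 0) (g (N / 2)) + d (g N) z) (d (g 0) z + d (g N) (g (N / 2))) with h' | h'
    · obtain ⟨i, hi, h5⟩ := ih (N - N / 2) (fun i => g (N / 2 + i)) (by omega) (by omega)
      simp only [Nat.add_zero, Nat.add_sub_cancel' (Nat.div_le_self N 2), ← Nat.add_assoc] at h5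
      rw [max_eq_right h', hs (g N)] at h
      exact ⟨N / 2 + i, by omega, by omega⟩
    · obtain ⟨i, hi, h5⟩ := ih (N / 2) g (by omega) (by omega)
      rw [max_eq_left h'] at h
      exact ⟨i, by omega, by omega⟩

/-- a chain with small steps passes logarithmically close to every point between its ends -/
theorem log_lemma {α : Type} (d : α → α → ℕ) (hs : ∀ x y, d x y = d y x)
    (ht : ∀ x y z, d x z ≤ d x y + d y z) (δ K : ℕ)
    (h4 : ∀ x y z w, d x y + d z w ≤ max (d x z + d y w) (d x w + d y z) + δ)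
    (k N : ℕ) (hN1 : 1 ≤ N) (hN : N ≤ 2 ^ k) (g : ℕ → α)
    (hg : ∀ i < N, d (g i) (g (i + 1)) ≤ K) (z : α)
    (hz : d (g 0) z + d z (g N) = d (g 0) (g N)) : ∃ i ≤ N, d z (g i) ≤ K + δ * k := by
  obtain ⟨i, hi, h⟩ := hyp1_log d hs δ h4 z k N g hN1 hN
  have h1 := hg i hi
  have h2 := hs z (g N)
  have h3 := hs z (g i)
  exact ⟨i, hi.le, by omega⟩

variable {G : Type} [Group G] {V : Type} [MulAction G V] {X : SimpleGraph V}

theorem hyp1_walk {W : Type} {Y : SimpleGraph W} (hY : Y.Connected) (D : W → W → ℕ) (K : ℕ)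
    (h0 : ∀ x, D x x = 0) (ht : ∀ x y z, D x z ≤ D x y + D y z)
    (ha : ∀ x y, Y.Adj x y → D x y ≤ K) (u v : W) : D u v ≤ K * Y.dist u v := by
  obtain ⟨p, hp⟩ := hY.exists_walk_length_eq_dist u v
  rw [← hp]
  clear hp
  induction p with
  | nil => exact (h0 _).trans_le (Nat.zero_le _)
  | cons h p ih =>
    rw [SimpleGraph.Walk.length_cons, Nat.mul_succ, add_comm]
    exact (ht _ _ _).trans (add_le_add (ha _ _ h) ih)

theorem cayley_connected {S : Set G} (hS : Subgroup.closure S = ⊤) : (cayley S).Connected := by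
  have step : ∀ x y : G, x⁻¹ * y ∈ S → (cayley S).Reachable x y := fun x y h => by
    rcases eq_or_ne x y with rfl | hne
    · rfl
    · exact SimpleGraph.Adj.reachable ⟨hne, Or.inl h⟩
  refine (SimpleGraph.connected_iff_exists_forall_reachable _).2 ⟨1, fun g => ?_⟩
  have hg : g ∈ Subgroup.closure S := hS ▸ Subgroup.mem_top g
  induction hg using Subgroup.closure_induction_right with
  | one => rfl
  | mul_right x _ y hy ih => exact ih.trans (step _ _ (by simpa using hy))
  | mul_inv_cancel x _ y hy ih => exact ih.trans (step _ _ (by simpa using hy)).symm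

theorem cayley_dist_mul {S : Set G} (hS : Subgroup.closure S = ⊤) (g a b : G) :
    (cayley S).dist (g * a) (g * b) = (cayley S).dist a b := by
  have key : ∀ g a b : G, (cayley S).dist (g * a) (g * b) ≤ (cayley S).dist a b := fun g a b => by
    refine (hyp1_walk (cayley_connected hS) (fun a b => (cayley S).dist (g * a) (g * b)) 1
      (fun _ => SimpleGraph.dist_self) (fun _ _ _ => (cayley_connected hS).dist_triangle)
      (fun x y h => (SimpleGraph.dist_eq_one_iff_adj.2 ?_).le) a b).trans_eq (one_mul _)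
    simpa [cayley, mul_assoc] using h
  exact le_antisymm (key g a b) (by simpa using key g⁻¹ (g * a) (g * b))

/-- Svarc-Milnor -/
theorem IsCubulation.exists_qi (hc : IsCubulation G X) (S : Finset G)
    (hS : Subgroup.closure (S : Set G) = ⊤) : ∃ (φ : V → G) (K : ℕ), 1 ≤ K ∧
      (∀ v v', (cayley (S : Set G)).dist (φ v) (φ v') ≤ K * X.dist v v') ∧
      ∀ v v', X.dist v v' ≤ K * (cayley (S : Set G)).dist (φ v) (φ v') + K := by
  have hM := hc.median
  have hC := cayley_connected hS
  obtain ⟨x0⟩ := hM.1.nonempty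
  obtain ⟨R, hR⟩ := hc.cobounded (F := ⊤) inferInstance x0
  choose φ _ hφ using hR
  obtain ⟨K0, h0⟩ :=
    ((hc.proper_dist x0 x0 (2 * R + 1)).image ((cayley (S : Set G)).dist 1)).bddAbove
  obtain ⟨K1, h1⟩ := (S.finite_toSet.image fun s => X.dist x0 (s • x0)).bddAbove
  have hd : ∀ a b : G, X.dist x0 ((a⁻¹ * b) • x0) = X.dist (a • x0) (b • x0) := fun a b => by
    rw [← hc.dist_smul a, mul_smul, smul_inv_smul]
  refine ⟨φ, K0 + K1 + 2 * R + 1, by omega, hyp1_walk hM.1 _ _ (fun _ => SimpleGraph.dist_self)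
    (fun _ _ _ => hC.dist_triangle) fun x y h => ?_, fun v v' => ?_⟩
  · have h2 : X.dist x0 (((φ x)⁻¹ * φ y) • x0) ≤ 2 * R + 1 := by
      have a1 := hM.tri (φ x • x0) x (φ y • x0)
      have a2 := hM.tri x y (φ y • x0)
      have a3 := hφ x
      have a4 := hφ y
      rw [X.dist_comm] at a3
      rw [hd]
      rw [dist_of_adj h] at a2
      omega
    have h3 := h0 ⟨_, h2, rfl⟩
    rw [← cayley_dist_mul hS (φ x), mul_one, mul_inv_cancel_left] at h3
    omega
  · have h2 := hyp1_walk hC (fun a b => X.dist (a • x0) (b • x0)) (K0 + K1 + 2 * R + 1)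
      (fun _ => SimpleGraph.dist_self) (fun _ _ _ => hM.tri _ _ _) (fun a b h => by
        rcases h.2 with h | h
        · have := h1 ⟨_, h, hd a b⟩
          omega
        · have := h1 ⟨_, h, (hd b a).trans X.dist_comm⟩
          omega) (φ v) (φ v')
    have a1 := hM.tri v (φ v • x0) v'
    have a2 := hM.tri (φ v • x0) (φ v' • x0) v'
    have a3 := hφ v
    have a4 := hφ v'
    rw [X.dist_comm] at a4
    omega

end Pool.Agent.Lib.MP_3467cd_al
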