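import Pool.Agent.Lib.MP_3467cd_al.Work

open Pointwise

namespace Pool.Agent.Lib.MP_3467cd_al

variable {V : Type} {X : SimpleGraph V}

theorem IsMedian.tri (hM : IsMedian X) (x y z : V) : X.dist x z ≤ X.dist x y + X.dist y z :=
  hM.1.dist_triangle

theorem IsMedian.dist_eq_zero (hM : IsMedian X) {x y : V} : X.dist x y = 0 ↔ x = y :=
  hM.1.dist_eq_zero_iff

theorem dist_of_adj {a b : V} (hab : X.Adj a b) : X.dist a b = 1 :=
  SimpleGraph.dist_eq_one_iff_adj.2 hab

theorem Btw.symm {x m y : V} (h : Btw X x m y) : Btw X y m x := by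
  unfold Btw at *
  rw [X.dist_comm (u := y) (v := m), X.dist_comm (u := m) (v := x), X.dist_comm (u := y) (v := x)]
  omega

theorem btw_left (x y : V) : Btw X x x y := by simp [Btw]

theorem btw_right (x y : V) : Btw X x y y := by simp [Btw]

theorem IsMedian.adj_dist (hM : IsMedian X) {a b : V} (hab : X.Adj a b) (v : V) :
    X.dist v a + 1 = X.dist v b ∨ X.dist v b + 1 = X.dist v a := by
  obtain ⟨m, ⟨h1, h2, h3⟩, -⟩ := hM.2 v a b
  unfold Btw at h1 h2 h3
  have h4 := dist_of_adj hab
  have h5 := dist_of_adj hab.symm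
  by_cases h : X.dist a m = 0
  · obtain rfl := hM.dist_eq_zero.1 h
    omega
  · have h6 : X.dist m b = 0 := by omega
    obtain rfl := hM.dist_eq_zero.1 h6
    omega

theorem IsMedian.half_compl (hM : IsMedian X) {a b : V} (hab : X.Adj a b) :
    (half X a b)ᶜ = half X b a := by
  ext v
  have := hM.adj_dist hab v
  simp only [half, Set.mem_compl_iff, Set.mem_ofPred_eq]
  omega

theorem left_mem_half {a b : V} (hab : X.Adj a b) : a ∈ half X a b := by
  simp only [half, Set.mem_ofPred_eq, SimpleGraph.dist_self, dist_of_adj hab]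
  omega

theorem right_not_mem_half (a b : V) : b ∉ half X a b := by
  simp [half]

theorem isHalf_half {a b : V} (hab : X.Adj a b) : IsHalf X (half X a b) := ⟨a, b, hab, rfl⟩

theorem IsHalf.compl (hM : IsMedian X) {h : Set V} (hh : IsHalf X h) : IsHalf X hᶜ := by
  obtain ⟨a, b, hab, rfl⟩ := hh
  exact ⟨b, a, hab.symm, hM.half_compl hab⟩

theorem IsHalf.nonempty {h : Set V} (hh : IsHalf X h) : h.Nonempty := by
  obtain ⟨a, b, hab, rfl⟩ := hh
  exact ⟨a, left_mem_half hab⟩

theorem IsHalf.compl_nonempty {h : Set V} (hh : IsHalf X h) : hᶜ.Nonempty := by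
  obtain ⟨a, b, -, rfl⟩ := hh
  exact ⟨b, right_not_mem_half a b⟩

theorem IsMedian.exists_step (hM : IsMedian X) {x y : V} (hxy : x ≠ y) :
    ∃ x', X.Adj x x' ∧ X.dist x' y + 1 = X.dist x y := by
  obtain ⟨p, hp⟩ := hM.1.exists_walk_length_eq_dist x y
  cases p with
  | nil => exact absurd rfl hxy
  | @cons _ x' _ h q =>
    refine ⟨x', h, ?_⟩
    have h1 := SimpleGraph.dist_le q
    have h2 := hM.tri x x' y
    rw [dist_of_adj h] at h2
    rw [SimpleGraph.Walk.length_cons] at hp
    omega

theorem IsMedian.exists_btw_dist (hM : IsMedian X) {x y : V} {n : ℕ} (hn : n ≤ X.dist x y) :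
    ∃ m, Btw X x m y ∧ X.dist x m = n := by
  induction n with
  | zero => exact ⟨x, btw_left x y, by simp⟩
  | succ n ih =>
    obtain ⟨m, hm, hd⟩ := ih (by omega)
    unfold Btw at hm
    have hne : m ≠ y := by
      rintro rfl
      omega
    obtain ⟨m', h1, h2⟩ := hM.exists_step hne
    have h3 := hM.tri x m m'
    have h4 := hM.tri x m' y
    rw [dist_of_adj h1] at h3
    refine ⟨m', ?_, by omega⟩
    unfold Btw
    omega

/-- a geodesic from a point of `A` to a point outside `A` has an edge leaving `A` -/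
theorem IsMedian.exit_edge (hM : IsMedian X) {A : Set V} {x y : V} (hx : x ∈ A) (hy : y ∉ A) :
    ∃ a b, X.Adj a b ∧ a ∈ A ∧ b ∉ A ∧ Btw X x a y ∧ Btw X x b y ∧
      X.dist x a + 1 = X.dist x b := by
  induction hn : X.dist x y generalizing x with
  | zero =>
    obtain rfl := hM.dist_eq_zero.1 hn
    exact absurd hx hy
  | succ n ih =>
    have hne : x ≠ y := by
      rintro rfl
      exact hy hx
    obtain ⟨x', h1, h2⟩ := hM.exists_step hne
    have h3 := dist_of_adj h1
    by_cases hx' : x' ∈ A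
    · obtain ⟨a, b, hab, ha, hb, e1, e2, e3⟩ := ih hx' (by omega)
      have t1 := hM.tri x x' a
      have t2 := hM.tri x x' b
      have t3 := hM.tri x a y
      have t4 := hM.tri x b y
      unfold Btw at *
      exact ⟨a, b, hab, ha, hb, by omega, by omega, by omega⟩
    · refine ⟨x, x', h1, hx, hx', btw_left x y, ?_, by simp [h3]⟩
      unfold Btw
      omega

/-- induction along edges of a connected graph -/
theorem IsMedian.adj_induction (hM : IsMedian X) {p : V → Prop} {x0 : V} (h0 : p x0)
    (hs : ∀ x y, X.Adj x y → p x → p y) (x : V) : p x := by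
  by_contra hx
  obtain ⟨a, b, hab, ha, hb, -⟩ := hM.exit_edge (A := {v | p v}) h0 hx
  exact hb (hs a b hab ha)

theorem m1_two (hM : IsMedian X) {u v w : V} (huv : X.Adj u v) (hvw : X.Adj v w) (h : u ≠ w) :
    X.dist u w = 2 := by
  have e1 := hM.adj_dist hvw u
  have e2 := dist_of_adj huv
  have e3 : X.dist u w ≠ 0 := fun h0 => h (hM.dist_eq_zero.1 h0)
  omega

theorem m1_square (hM : IsMedian X) {u v u' v' : V} (huv : X.Adj u v)
    (huu : X.Adj u u') (hvv : X.Adj v v') (huv' : X.Adj u' v') (h1 : u ≠ v') (h2 : v ≠ u') :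
    half X u v ⊆ half X u' v' := by
  intro z hz
  by_contra hz'
  simp only [half, Set.mem_ofPred_eq] at hz hz'
  have e1 := hM.adj_dist huv z
  have e2 := hM.adj_dist huu z
  have e3 := hM.adj_dist hvv z
  have e4 := hM.adj_dist huv' z
  have e5 := m1_two hM huv hvv h1
  obtain ⟨m, ⟨m1, m2, m3⟩, -⟩ := hM.2 z u v'
  unfold Btw at m1 m2 m3
  rw [X.dist_comm (u := m) (v := u)] at m1
  have g1 : X.dist u m = 1 := by omega
  have g2 : X.dist m v' = 1 := by omega
  have g3 := SimpleGraph.dist_eq_one_iff_adj.1 g1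
  have g4 := SimpleGraph.dist_eq_one_iff_adj.1 g2
  have n1 : v ≠ m := by
    rintro rfl
    omega
  have n2 : u' ≠ m := by
    rintro rfl
    omega
  have d1 := m1_two hM huv.symm huu h2
  have d2 := m1_two hM huu.symm g3 n2
  have d3 := m1_two hM huv.symm g3 n1
  obtain ⟨w, -, hw⟩ := hM.2 v u' m
  have k1 := hw u (by
    simp only [Btw]
    rw [dist_of_adj huv.symm, dist_of_adj huu, dist_of_adj huu.symm, g1, d1, d2, d3]
    omega)
  have k2 := hw v' (by
    simp only [Btw]
    rw [dist_of_adj hvv, dist_of_adj huv'.symm, dist_of_adj huv', dist_of_adj g4.symm, d1, d2, d3]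
    omega)
  exact h1 (k1.trans k2.symm)

/-- opposite edges of a square define the same halfspace -/
theorem IsMedian.half_square (hM : IsMedian X) {u v u' v' : V} (huv : X.Adj u v)
    (huu : X.Adj u u') (hvv : X.Adj v v') (huv' : X.Adj u' v') (h1 : u ≠ v') (h2 : v ≠ u') :
    half X u v = half X u' v' := by
  apply Set.Subset.antisymm
  · exact m1_square hM huv huu hvv huv' h1 h2
  · exact m1_square hM huv' huu.symm hvv.symm huv h2.symm h1.symm

/-- every edge leaving a halfspace defines that halfspace -/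
theorem IsHalf.half_eq (hM : IsMedian X) {h : Set V} (hh : IsHalf X h) {a b : V}
    (hab : X.Adj a b) (ha : a ∈ h) (hb : b ∉ h) : half X a b = h := by
  obtain ⟨a0, b0, h0, rfl⟩ := hh
  induction hn : X.dist a a0 generalizing a b with
  | zero =>
    obtain rfl := hM.dist_eq_zero.1 hn
    have e1 := dist_of_adj hab.symm
    have e2 := hM.adj_dist h0 b
    simp only [half, Set.mem_ofPred_eq] at hb
    have e3 : X.dist b b0 = 0 := by omega
    rw [hM.dist_eq_zero.1 e3]
  | succ n ih =>
    have ha' := ha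
    have hb' := hb
    simp only [half, Set.mem_ofPred_eq] at ha' hb'
    have e1 := hM.adj_dist h0 a
    have e2 := hM.adj_dist h0 b
    have e3 := hM.adj_dist hab a0
    have e4 := hM.adj_dist hab b0
    rw [X.dist_comm (u := a0) (v := a), X.dist_comm (u := a0) (v := b)] at e3
    rw [X.dist_comm (u := b0) (v := a), X.dist_comm (u := b0) (v := b)] at e4
    have hne : a ≠ a0 := by
      rintro rfl
      simp at hn
    obtain ⟨a', h1, h2⟩ := hM.exists_step hne
    have f1 := dist_of_adj h1
    have f1' := dist_of_adj h1.symm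
    have f2 := dist_of_adj hab
    have f3 := hM.adj_dist h0 a'
    have f4 := hM.tri a a' b0
    have f5 := hM.tri a' a b
    have f6 := hM.tri b a' a0
    rw [X.dist_comm (u := b) (v := a')] at f6
    obtain ⟨m, ⟨m1, m2, m3⟩, -⟩ := hM.2 a' b b0
    unfold Btw at m1 m2 m3
    rw [X.dist_comm (u := b) (v := m)] at m2
    have g1 : X.dist a' m = 1 := by omega
    have g2 : X.dist m b = 1 := by omega
    have g3 := SimpleGraph.dist_eq_one_iff_adj.1 g1
    have g4 := SimpleGraph.dist_eq_one_iff_adj.1 g2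
    have f7 := hM.tri a' m a0
    have f8 := hM.tri b m a0
    rw [X.dist_comm (u := b) (v := m)] at f8
    have hm : m ∉ half X a0 b0 := by
      simp only [half, Set.mem_ofPred_eq]
      omega
    have ha2 : a' ∈ half X a0 b0 := by
      simp only [half, Set.mem_ofPred_eq]
      omega
    rw [← ih g3 ha2 hm (by omega)]
    refine hM.half_square hab h1 g4.symm g3 ?_ ?_
    · rintro rfl
      exact hm ha
    · rintro rfl
      exact hb ha2

theorem IsHalf.cvx (hM : IsMedian X) {h : Set V} (hh : IsHalf X h) : Cvx X h := by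
  intro x hx y hy m hm
  by_contra hmh
  obtain ⟨u, v, huv, hu, hv, -, e2, e3⟩ := hM.exit_edge hx hmh
  rw [← hh.half_eq hM huv hu hv] at hy
  simp only [half, Set.mem_ofPred_eq] at hy
  unfold Btw at hm e2
  have t1 := hM.tri v m y
  have t2 := hM.tri x u y
  rw [X.dist_comm (u := y) (v := u), X.dist_comm (u := y) (v := v)] at hy
  omega

end Pool.Agent.Lib.MP_3467cd_al
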