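import Pool.Agent.Lib.MP_3467cd_al.M1

open Pointwise

namespace Pool.Agent.Lib.MP_3467cd_al

variable {V : Type} {X : SimpleGraph V}

theorem IsMedian.adj_mem_iff (hM : IsMedian X) {a b : V} (hab : X.Adj a b) {k : Set V}
    (hk : IsHalf X k) (h1 : k ≠ half X a b) (h2 : k ≠ half X b a) : a ∈ k ↔ b ∈ k := by
  exact ⟨fun ha => by_contra fun hb => h1 (hk.half_eq hM hab ha hb).symm,
    fun hb => by_contra fun ha => h2 (hk.half_eq hM hab.symm hb ha).symm⟩

theorem m2_sep (hM : IsMedian X) (x : V) (n : ℕ) :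
    ∀ y, X.dist x y = n → (sep X x y).Finite ∧ (sep X x y).ncard = n := by
  induction n with
  | zero =>
    intro y hy
    obtain rfl := hM.dist_eq_zero.1 hy
    have : sep X x x = ∅ := Set.eq_empty_of_forall_notMem fun h hh => hh.2.1 hh.2.2
    rw [this]
    simp
  | succ n ih =>
    intro y hy
    obtain ⟨y', hyy, hd⟩ := hM.exists_step (x := y) (y := x) (by
      rintro rfl
      simp at hy)
    rw [X.dist_comm (u := y'), X.dist_comm (u := y)] at hd
    obtain ⟨h1, h2⟩ := ih y' (by omega)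
    have e : sep X x y = insert (half X y y') (sep X x y') := by
      ext h
      constructor
      · rintro ⟨k1, k2, k3⟩
        by_cases k4 : y' ∈ h
        · exact Or.inr ⟨k1, k2, k4⟩
        · exact Or.inl (k1.half_eq hM hyy k3 k4).symm
      · rintro (rfl | ⟨k1, k2, k3⟩)
        · exact ⟨isHalf_half hyy, fun k => by
            have : X.dist x y < X.dist x y' := k
            omega, left_mem_half hyy⟩
        · refine ⟨k1, k2, by_contra fun k4 => k2 ?_⟩
          rw [← k1.half_eq hM hyy.symm k3 k4]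
          change X.dist x y' < X.dist x y
          omega
    rw [e]
    exact ⟨h1.insert _, by
      rw [Set.ncard_insert_of_notMem (fun k => right_not_mem_half y y' k.2.2) h1, h2]⟩

theorem IsMedian.sep_finite (hM : IsMedian X) (x y : V) : (sep X x y).Finite := by
  exact (m2_sep hM x _ y rfl).1

theorem IsMedian.dist_eq_ncard (hM : IsMedian X) (x y : V) :
    X.dist x y = (sep X x y).ncard := by
  exact (m2_sep hM x _ y rfl).2.symm

theorem IsMedian.dist_le_of_sep_subset (hM : IsMedian X) {x y x' y' : V}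
    (h : sep X x y ⊆ sep X x' y') : X.dist x y ≤ X.dist x' y' := by
  rw [hM.dist_eq_ncard, hM.dist_eq_ncard]
  exact Set.ncard_le_ncard h (hM.sep_finite _ _)

theorem IsMedian.eq_of_forall_half (hM : IsMedian X) {x y : V}
    (h : ∀ k, IsHalf X k → y ∈ k → x ∈ k) : x = y := by
  have : sep X x y = ∅ := Set.eq_empty_of_forall_notMem fun k hk => hk.2.1 (h k hk.1 hk.2.2)
  rw [← hM.dist_eq_zero, hM.dist_eq_ncard, this, Set.ncard_empty]

theorem IsMedian.btw_iff (hM : IsMedian X) {x m y : V} :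
    Btw X x m y ↔ ∀ h, IsHalf X h → x ∈ h → y ∈ h → m ∈ h := by
  refine ⟨fun H h hh hx hy => hh.cvx hM x hx y hy m H, fun H => ?_⟩
  have e : sep X x y = sep X x m ∪ sep X m y := by
    ext h
    constructor
    · rintro ⟨k1, k2, k3⟩
      by_cases k4 : m ∈ h
      · exact Or.inl ⟨k1, k2, k4⟩
      · exact Or.inr ⟨k1, k4, k3⟩
    · rintro (⟨k1, k2, k3⟩ | ⟨k1, k2, k3⟩)
      · exact ⟨k1, k2, by_contra fun k4 => H hᶜ (k1.compl hM) k2 k4 k3⟩
      · exact ⟨k1, fun k4 => k2 (H h k1 k4 k3), k3⟩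
  rw [Btw, hM.dist_eq_ncard, hM.dist_eq_ncard, hM.dist_eq_ncard, e,
    Set.ncard_union_eq (Set.disjoint_left.2 fun h k1 k2 => k2.2.1 k1.2.2) (hM.sep_finite _ _)
      (hM.sep_finite _ _)]

theorem IsMedian.exists_med (hM : IsMedian X) (x y z : V) : ∃ m, ∀ h, IsHalf X h →
    (m ∈ h ↔ (x ∈ h ∧ y ∈ h) ∨ (y ∈ h ∧ z ∈ h) ∨ (x ∈ h ∧ z ∈ h)) := by
  obtain ⟨m, ⟨h1, h2, h3⟩, -⟩ := hM.2 x y z
  refine ⟨m, fun h hh => ⟨fun hm => ?_, ?_⟩⟩
  · have k1 : x ∉ h → y ∉ h → False := fun a b => (hh.compl hM).cvx hM x a y b m h1 hm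
    have k2 : y ∉ h → z ∉ h → False := fun a b => (hh.compl hM).cvx hM y a z b m h2 hm
    have k3 : x ∉ h → z ∉ h → False := fun a b => (hh.compl hM).cvx hM x a z b m h3 hm
    tauto
  · rintro (⟨a, b⟩ | ⟨a, b⟩ | ⟨a, b⟩)
    · exact hh.cvx hM x a y b m h1
    · exact hh.cvx hM y a z b m h2
    · exact hh.cvx hM x a z b m h3

theorem IsMedian.adj_of_sep (hM : IsMedian X) {h : Set V} (hh : IsHalf X h) {a b : V}
    (ha : a ∈ h) (hb : b ∉ h)
    (H : ∀ k, IsHalf X k → k ≠ h → k ≠ hᶜ → (a ∈ k ↔ b ∈ k)) : X.Adj a b := by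
  have e : sep X b a = {h} := by
    ext k
    refine ⟨fun hk => by_contra fun k1 => hk.2.1 ((H k hk.1 k1 ?_).1 hk.2.2), ?_⟩
    · rintro rfl
      exact hk.2.2 ha
    · rintro rfl
      exact ⟨hh, hb, ha⟩
  rw [← SimpleGraph.dist_eq_one_iff_adj, X.dist_comm, hM.dist_eq_ncard, e, Set.ncard_singleton]

theorem Cvx.inter {C D : Set V} (hC : Cvx X C) (hD : Cvx X D) : Cvx X (C ∩ D) := by
  exact fun x hx y hy m H => ⟨hC x hx.1 y hy.1 m H, hD x hx.2 y hy.2 m H⟩

theorem cvx_empty : Cvx X (∅ : Set V) := by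
  exact fun _ hx => hx.elim

theorem cvx_univ : Cvx X (Set.univ : Set V) := by
  exact fun _ _ _ _ _ _ => Set.mem_univ _

theorem IsMedian.helly (hM : IsMedian X) {ι : Type} (s : Finset ι) (C : ι → Set V)
    (hC : ∀ i ∈ s, Cvx X (C i)) (hp : ∀ i ∈ s, ∀ j ∈ s, (C i ∩ C j).Nonempty) :
    ∃ x, ∀ i ∈ s, x ∈ C i := by
  classical
  induction s using Finset.induction_on generalizing C with
  | empty => exact ⟨hM.1.nonempty.some, by simp⟩
  | insert a s ha ih =>
    have m0 := Finset.mem_insert_self a s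
    have m1 : ∀ i ∈ s, i ∈ insert a s := fun i hi => Finset.mem_insert_of_mem hi
    rcases s.eq_empty_or_nonempty with rfl | ⟨i0, hi0⟩
    · obtain ⟨x, hx, -⟩ := hp a m0 a m0
      exact ⟨x, by simpa using hx⟩
    obtain ⟨x, hx⟩ := ih (fun i => C i ∩ C a) (fun i hi => (hC i (m1 i hi)).inter (hC a m0)) (by
      intro i hi j hj
      obtain ⟨x, hx⟩ := hp i (m1 i hi) j (m1 j hj)
      obtain ⟨y, hy⟩ := hp j (m1 j hj) a m0
      obtain ⟨z, hz⟩ := hp i (m1 i hi) a m0
      obtain ⟨m, ⟨h1, h2, h3⟩, -⟩ := hM.2 x y z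
      have k := hC a m0 y hy.2 z hz.2 m h2
      exact ⟨m, ⟨hC i (m1 i hi) x hx.1 z hz.1 m h3, k⟩, hC j (m1 j hj) x hx.2 y hy.1 m h1, k⟩)
    refine ⟨x, fun i hi => ?_⟩
    rcases Finset.mem_insert.1 hi with rfl | hi
    · exact (hx i0 hi0).2
    · exact (hx i hi).1

theorem IsMedian.exists_gate (hM : IsMedian X) {C : Set V} (hC : Cvx X C) (hne : C.Nonempty)
    (x : V) : ∃ p, IsGate X C x p := by
  have hp := Function.argminOn_mem (fun p => X.dist x p) C hne
  have hmin : ∀ c ∈ C, X.dist x (Function.argminOn (fun p => X.dist x p) C hne) ≤ X.dist x c :=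
    fun c hc => Function.argminOn_le (fun p => X.dist x p) C hc
  generalize Function.argminOn (fun p => X.dist x p) C hne = p at hp hmin
  refine ⟨p, hp, fun c hc => ?_⟩
  obtain ⟨m, ⟨h1, h2, h3⟩, -⟩ := hM.2 x p c
  have h4 := hmin m (hC p hp c hc m h2)
  obtain rfl : m = p := hM.dist_eq_zero.1 (by unfold Btw at h1; omega)
  exact h3

theorem IsGate.subset (hM : IsMedian X) {C h : Set V} {x p : V} (hg : IsGate X C x p)
    (hh : IsHalf X h) (hx : x ∉ h) (hp : p ∈ h) : C ⊆ h := by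
  exact fun c hc => by_contra fun k => (hh.compl hM).cvx hM x hx c k p (hg.2 c hc) hp

theorem IsGate.mem_of (hM : IsMedian X) {C h : Set V} {x p : V} (hg : IsGate X C x p)
    (hh : IsHalf X h) (hx : x ∈ h) (hne : (C ∩ h).Nonempty) : p ∈ h := by
  obtain ⟨c, h1, h2⟩ := hne
  exact hh.cvx hM x hx c h2 p (hg.2 c h1)

theorem IsGate.dist_le {C : Set V} {x p c : V} (hg : IsGate X C x p) (hc : c ∈ C) :
    X.dist x p ≤ X.dist x c := by
  exact Nat.le.intro (hg.2 c hc)

end Pool.Agent.Lib.MP_3467cd_al
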