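import Pool.Agent.Lib.MP_3467cd_al.M2

open Pointwise

namespace Pool.Agent.Lib.MP_3467cd_al

variable {V : Type} {X : SimpleGraph V}

theorem m3_iff (hM : IsMedian X) {h k : Set V} (hh : IsHalf X h) {a b : V} (hab : X.Adj a b)
    (ha : a ∈ h) (hb : b ∉ h) (hk : IsHalf X k) (h1 : k ≠ h) (h2 : k ≠ hᶜ) : a ∈ k ↔ b ∈ k := by
  have e := hh.half_eq hM hab ha hb
  refine hM.adj_mem_iff hab hk ?_ ?_
  · rwa [e]
  · rwa [← hM.half_compl hab, e]

theorem Cross.symm {h k : Set V} (H : Cross h k) : Cross k h := by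
  obtain ⟨⟨a, a1, a2⟩, ⟨b, b1, b2⟩, ⟨c, c1, c2⟩, ⟨d, d1, d2⟩⟩ := H
  exact ⟨⟨a, a2, a1⟩, ⟨c, c2, c1⟩, ⟨b, b2, b1⟩, ⟨d, d2, d1⟩⟩

theorem Cross.compl_left {h k : Set V} (H : Cross h k) : Cross hᶜ k := by
  unfold Cross
  rw [compl_compl]
  exact ⟨H.2.2.1, H.2.2.2, H.1, H.2.1⟩

theorem Cross.compl_right {h k : Set V} (H : Cross h k) : Cross h kᶜ := by
  exact H.symm.compl_left.symm

theorem not_cross_self (h : Set V) : ¬ Cross h h := by
  rintro ⟨-, ⟨a, a1, a2⟩, -⟩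
  exact a2 a1

theorem not_cross_compl (h : Set V) : ¬ Cross h hᶜ := by
  rintro ⟨⟨a, a1, a2⟩, -⟩
  exact a2 a1

theorem not_cross_iff {h k : Set V} :
    ¬ Cross h k ↔ Disjoint h k ∨ h ⊆ k ∨ k ⊆ h ∨ Disjoint hᶜ kᶜ := by
  constructor
  · intro H
    by_contra hn
    simp only [not_or, Set.not_disjoint_iff, Set.not_subset] at hn
    obtain ⟨⟨a, a1, a2⟩, ⟨b, b1, b2⟩, ⟨c, c1, c2⟩, ⟨d, d1, d2⟩⟩ := hn
    exact H ⟨⟨a, a1, a2⟩, ⟨b, b1, b2⟩, ⟨c, c2, c1⟩, ⟨d, d1, d2⟩⟩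
  · rintro (H | H | H | H) ⟨⟨a, a1, a2⟩, ⟨b, b1, b2⟩, ⟨c, c1, c2⟩, ⟨d, d1, d2⟩⟩
    · exact Set.disjoint_left.1 H a1 a2
    · exact b2 (H b1)
    · exact c1 (H c2)
    · exact Set.disjoint_left.1 H d1 d2

theorem car_compl (h : Set V) : car X hᶜ = car X h := by
  unfold car
  rw [compl_compl, Set.union_comm]

theorem inn_subset (h : Set V) : inn X h ⊆ h := fun _ ha => ha.1

theorem inn_subset_car (h : Set V) : inn X h ⊆ car X h := Set.subset_union_left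

theorem inn_compl_subset_car (h : Set V) : inn X hᶜ ⊆ car X h := Set.subset_union_right

theorem IsHalf.inn_nonempty {h : Set V} (hh : IsHalf X h) : (inn X h).Nonempty := by
  obtain ⟨a, b, hab, rfl⟩ := hh
  exact ⟨a, left_mem_half hab, b, hab, right_not_mem_half a b⟩

/-- the partner of a point of the inner carrier -/
theorem inn_partner {h : Set V} {a : V} (ha : a ∈ inn X h) :
    ∃ b, X.Adj a b ∧ b ∈ inn X hᶜ := by
  obtain ⟨h1, b, h2, h3⟩ := ha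
  exact ⟨b, h2, h3, a, h2.symm, fun h4 => h4 h1⟩

/-- every point of the carrier is an end of a dual edge -/
theorem car_edge {h : Set V} {b : V} (hb : b ∈ car X h) :
    ∃ b', X.Adj b b' ∧ b' ∈ car X h ∧ ¬ (b ∈ h ↔ b' ∈ h) := by
  rcases hb with hb | hb
  · obtain ⟨b', h1, h2⟩ := inn_partner hb
    exact ⟨b', h1, Or.inr h2, fun e => h2.1 (e.1 hb.1)⟩
  · obtain ⟨b', h1, h2⟩ := inn_partner hb
    rw [compl_compl] at h2
    exact ⟨b', h1, Or.inl h2, fun e => hb.1 (e.2 h2.1)⟩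

theorem IsHalf.partner_unique (hM : IsMedian X) {h : Set V} (hh : IsHalf X h) {a b b' : V}
    (ha : a ∈ h) (hb : X.Adj a b) (hb' : X.Adj a b') (h1 : b ∉ h) (h2 : b' ∉ h) : b = b' := by
  refine hM.eq_of_forall_half fun k hk hk' => ?_
  by_cases e1 : k = h
  · exact absurd (e1 ▸ hk') h2
  by_cases e2 : k = hᶜ
  · rw [e2]
    exact h1
  exact (m3_iff hM hh hb ha h1 hk e1 e2).1 ((m3_iff hM hh hb' ha h2 hk e1 e2).2 hk')

theorem IsHalf.inn_cvx (hM : IsMedian X) {h : Set V} (hh : IsHalf X h) : Cvx X (inn X h) := by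
  rintro a ⟨ha, b, hab, hb⟩ a' ⟨ha', b', hab', hb'⟩ m hm
  have hmh : m ∈ h := hh.cvx hM a ha a' ha' m hm
  obtain ⟨m', hm'⟩ := hM.exists_med b m b'
  have h1 : m' ∉ h := by
    rw [hm' h hh]
    tauto
  refine ⟨hmh, m', hM.adj_of_sep hh hmh h1 fun k hk e1 e2 => ?_, h1⟩
  have i1 := m3_iff hM hh hab ha hb hk e1 e2
  have i2 := m3_iff hM hh hab' ha' hb' hk e1 e2
  have c1 : a ∈ k → a' ∈ k → m ∈ k := fun u v => hk.cvx hM a u a' v m hm
  have c2 : a ∉ k → a' ∉ k → m ∉ k := fun u v => (hk.compl hM).cvx hM a u a' v m hm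
  rw [hm' k hk]
  tauto

theorem IsHalf.cross_of_sep_inn (hM : IsMedian X) {h k : Set V} (hh : IsHalf X h)
    (hk : IsHalf X k) {a a' : V} (ha : a ∈ inn X h) (ha' : a' ∈ inn X h) (h1 : a ∈ k)
    (h2 : a' ∉ k) : Cross k h := by
  obtain ⟨ha, b, hab, hb⟩ := ha
  obtain ⟨ha', b', hab', hb'⟩ := ha'
  have e1 : k ≠ h := fun e => h2 (e ▸ ha')
  have e2 : k ≠ hᶜ := fun e => (show a ∈ hᶜ from e ▸ h1) ha
  exact ⟨⟨a, h1, ha⟩, ⟨b, (m3_iff hM hh hab ha hb hk e1 e2).1 h1, hb⟩, ⟨a', h2, ha'⟩,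
    ⟨b', fun u => h2 ((m3_iff hM hh hab' ha' hb' hk e1 e2).2 u), hb'⟩⟩

theorem Cross.inn_inter (hM : IsMedian X) {h k : Set V} (hh : IsHalf X h) (hk : IsHalf X k)
    (H : Cross h k) : (inn X h ∩ inn X k).Nonempty := by
  obtain ⟨⟨x, x1, x2⟩, ⟨x', x1', x2'⟩, ⟨y, y1, y2⟩, ⟨y', y1', y2'⟩⟩ := H
  obtain ⟨a, b, hab, ha, hb, h1, -⟩ := hM.exit_edge (A := h) x1 y1
  obtain ⟨a', b', hab', ha', hb', h1', -⟩ := hM.exit_edge (A := h) x1' y1'
  have k1 : a ∈ k := hk.cvx hM x x2 y y2 a h1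
  have k2 : a' ∉ k := (hk.compl hM).cvx hM x' x2' y' y2' a' h1'
  obtain ⟨c, c', hcc, hc, hc', h2, -⟩ := hM.exit_edge (A := k) k1 k2
  exact ⟨c, hh.inn_cvx hM a ⟨ha, b, hab, hb⟩ a' ⟨ha', b', hab', hb'⟩ c h2, hc, c', hcc, hc'⟩

/-- completing a square -/
theorem Cross.square (hM : IsMedian X) {h k : Set V} (hh : IsHalf X h) (hk : IsHalf X k)
    (H : Cross h k) {a b c : V} (hah : a ∈ h) (hak : a ∈ k) (hab : X.Adj a b) (hac : X.Adj a c)
    (hb : b ∉ h) (hc : c ∉ k) :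
    b ∈ k ∧ c ∈ h ∧ ∃ e, X.Adj b e ∧ X.Adj c e ∧ e ∉ h ∧ e ∉ k := by
  have e1 : k ≠ h := fun e => not_cross_self h (e ▸ H)
  have e2 : k ≠ hᶜ := fun e => not_cross_compl h (e ▸ H)
  have e3 : h ≠ kᶜ := fun e => e2 (by rw [e, compl_compl])
  have hbk : b ∈ k := (m3_iff hM hh hab hah hb hk e1 e2).1 hak
  have hch : c ∈ h := (m3_iff hM hk hac hak hc hh e1.symm e3).1 hah
  obtain ⟨z, z1, z2⟩ := H.2.2.2
  have z1' : z ∉ h := z1
  have z2' : z ∉ k := z2
  obtain ⟨e, he⟩ := hM.exists_med b c z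
  have h1 : e ∉ h := by
    rw [he h hh]
    tauto
  have h2 : e ∉ k := by
    rw [he k hk]
    tauto
  refine ⟨hbk, hch, e, hM.adj_of_sep hk hbk h2 fun l hl l1 l2 => ?_,
    hM.adj_of_sep hh hch h1 fun l hl l1 l2 => ?_, h1, h2⟩
  · by_cases l3 : l = h
    · rw [l3]
      exact iff_of_false hb h1
    by_cases l4 : l = hᶜ
    · rw [l4]
      exact iff_of_true hb h1
    have i1 := m3_iff hM hh hab hah hb hl l3 l4
    have i2 := m3_iff hM hk hac hak hc hl l1 l2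
    rw [he l hl]
    tauto
  · by_cases l3 : l = k
    · rw [l3]
      exact iff_of_false hc h2
    by_cases l4 : l = kᶜ
    · rw [l4]
      exact iff_of_true hc h2
    have i1 := m3_iff hM hh hab hah hb hl l1 l2
    have i2 := m3_iff hM hk hac hak hc hl l3 l4
    rw [he l hl]
    tauto

/-- crossing an edge dual to `k` keeps a point in the inner carrier of `h` -/
theorem Cross.inn_step (hM : IsMedian X) {h k : Set V} (hh : IsHalf X h) (hk : IsHalf X k)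
    (H : Cross h k) {a c : V} (ha : a ∈ inn X h) (hac : X.Adj a c) (hak : a ∈ k) (hc : c ∉ k) :
    c ∈ inn X h := by
  obtain ⟨ha, b, hab, hb⟩ := ha
  obtain ⟨-, h1, e, -, h2, h3, -⟩ := H.square hM hh hk ha hak hab hac hb hc
  exact ⟨h1, e, h2, h3⟩

theorem IsMedian.square_cross (hM : IsMedian X) {a b c e : V} (hab : X.Adj a b)
    (hac : X.Adj a c) (hbe : X.Adj b e) (hce : X.Adj c e) (hbc : b ≠ c) (hae : a ≠ e) :
    Cross (half X a b) (half X a c) := by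
  have e1 : half X a b = half X c e := hM.half_square hab hac hbe hce hae hbc
  have e2 : half X a c = half X b e := hM.half_square hac hab hce hbe hae hbc.symm
  refine ⟨⟨a, left_mem_half hab, left_mem_half hac⟩, ⟨c, ?_, right_not_mem_half a c⟩,
    ⟨b, right_not_mem_half a b, ?_⟩, ⟨e, ?_, ?_⟩⟩
  · rw [e1]
    exact left_mem_half hce
  · rw [e2]
    exact left_mem_half hbe
  · rw [e1]
    exact right_not_mem_half c e
  · rw [e2]
    exact right_not_mem_half b e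

theorem IsHalf.eq_of_inn (hM : IsMedian X) {h k : Set V} (hh : IsHalf X h) (hk : IsHalf X k)
    (hkh : k ⊆ h) {a : V} (ha : a ∈ inn X h) (hak : a ∈ k) : k = h := by
  obtain ⟨ha, b, hab, hb⟩ := ha
  rw [← hk.half_eq hM hab hak fun u => hb (hkh u), hh.half_eq hM hab ha hb]

theorem IsHalf.exists_adj_sup (hM : IsMedian X) {k : Set V} (hk : IsHalf X k) {x : V}
    (hx : x ∉ k) : ∃ k', IsHalf X k' ∧ k ⊆ k' ∧ x ∈ inn X k'ᶜ := by
  obtain ⟨p, hp⟩ := hM.exists_gate (hk.cvx hM) hk.nonempty x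
  obtain ⟨y, hxy, hy⟩ := hM.exists_step (x := x) (y := p) fun e => hx (e ▸ hp.1)
  have h1 : p ∈ half X y x := by
    show X.dist p y < X.dist p x
    rw [X.dist_comm (u := p) (v := y), X.dist_comm (u := p) (v := x)]
    omega
  exact ⟨half X y x, isHalf_half hxy.symm,
    hp.subset hM (isHalf_half hxy.symm) (right_not_mem_half y x) h1,
    right_not_mem_half y x, y, hxy, fun u => u (left_mem_half hxy.symm)⟩

/-- a point separated from `z` by `k` is at least as far as the carrier of `k` -/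
theorem IsMedian.exists_car_le (hM : IsMedian X) {k : Set V} {z z' : V}
    (H : ¬ (z ∈ k ↔ z' ∈ k)) : ∃ b ∈ car X k, X.dist z b ≤ X.dist z z' ∧ Btw X z b z' := by
  by_cases hz : z ∈ k
  · obtain ⟨a, b, hab, ha, hb, h1, -⟩ :=
      hM.exit_edge (A := k) hz (y := z') fun u => H (iff_of_true hz u)
    exact ⟨a, Or.inl ⟨ha, b, hab, hb⟩, (Nat.le_add_right _ _).trans h1.le, h1⟩
  · obtain ⟨a, b, hab, ha, hb, h1, -⟩ :=
      hM.exit_edge (A := kᶜ) (x := z) hz (y := z') fun u => H (iff_of_false hz u)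
    exact ⟨a, Or.inr ⟨ha, b, hab, hb⟩, (Nat.le_add_right _ _).trans h1.le, h1⟩

theorem Near.symm {r : ℕ} {h k : Set V} (H : Near X r h k) : Near X r k h := by
  obtain ⟨a, ha, b, hb, hab⟩ := H
  exact ⟨b, hb, a, ha, by rwa [X.dist_comm]⟩

theorem Near.mono {r r' : ℕ} {h k : Set V} (H : Near X r h k) (hr : r ≤ r') : Near X r' h k := by
  obtain ⟨a, ha, b, hb, hab⟩ := H
  exact ⟨a, ha, b, hb, hab.trans hr⟩

theorem near_compl_left {r : ℕ} {h k : Set V} : Near X r hᶜ k ↔ Near X r h k := by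
  unfold Near
  rw [car_compl]

theorem near_compl_right {r : ℕ} {h k : Set V} : Near X r h kᶜ ↔ Near X r h k := by
  unfold Near
  rw [car_compl]

theorem IsHalf.near_self {h : Set V} (hh : IsHalf X h) (r : ℕ) : Near X r h h := by
  obtain ⟨a, ha⟩ := hh.inn_nonempty
  exact ⟨a, Or.inl ha, a, Or.inl ha, by simp⟩

theorem Cross.near (hM : IsMedian X) {h k : Set V} (hh : IsHalf X h) (hk : IsHalf X k)
    (H : Cross h k) (r : ℕ) : Near X r h k := by
  obtain ⟨a, h1, h2⟩ := H.inn_inter hM hh hk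
  exact ⟨a, Or.inl h1, a, Or.inl h2, by simp⟩

theorem SameH.symm {k k' : Set V} (H : SameH k k') : SameH k' k := by
  rcases H with rfl | rfl
  · exact Or.inl rfl
  · exact Or.inr (compl_compl k).symm

theorem SameH.car_eq {k k' : Set V} (H : SameH k k') : car X k' = car X k := by
  rcases H with rfl | rfl
  · rfl
  · exact car_compl k

theorem IsHalf.ne_compl {h : Set V} (hh : IsHalf X h) : h ≠ hᶜ := by
  obtain ⟨a, ha⟩ := hh.nonempty
  exact fun e => (show a ∈ hᶜ from e ▸ ha) ha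

end Pool.Agent.Lib.MP_3467cd_al
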