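import Pool.Agent.Lib.MP_3467cd_al.M3

open Pointwise

namespace Pool.Agent.Lib.MP_3467cd_al

variable {V : Type} {X : SimpleGraph V}

theorem Chn.subset {n : ℕ} {c : ℕ → Set V} (hc : Chn X n c) {i j : ℕ} (hij : i ≤ j)
    (hj : j ≤ n) : c j ⊆ c i := by
  induction j, hij using Nat.le_induction with
  | base => exact Set.Subset.rfl
  | succ j _ ih => exact (hc.2 j hj).subset.trans (ih (Nat.le_of_succ_le hj))

theorem Chn.ssubset {n : ℕ} {c : ℕ → Set V} (hc : Chn X n c) {i j : ℕ} (hij : i < j)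
    (hj : j ≤ n) : c j ⊂ c i := by
  exact lt_of_le_of_lt (b := c (i + 1)) (hc.subset hij hj) (hc.2 i (lt_of_lt_of_le hij hj))

theorem Chn.nest {n : ℕ} {c : ℕ → Set V} (hc : Chn X n c) {i j : ℕ} (hij : i ≤ j) (hj : j ≤ n) :
    Nest X (j - i) (c j) (c i) := by
  refine ⟨fun t => c (i + t), ⟨fun t ht => hc.1 _ (by omega), fun t ht => ?_⟩, rfl, ?_⟩
  · exact hc.2 (i + t) (by omega)
  · change c (i + (j - i)) = c j
    rw [Nat.add_sub_cancel' hij]

theorem Nest.isHalf_left {n : ℕ} {k h : Set V} (H : Nest X n k h) : IsHalf X k := by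
  obtain ⟨c, hc, -, rfl⟩ := H
  exact hc.1 n le_rfl

theorem Nest.isHalf_right {n : ℕ} {k h : Set V} (H : Nest X n k h) : IsHalf X h := by
  obtain ⟨c, hc, rfl, -⟩ := H
  exact hc.1 0 (Nat.zero_le n)

theorem Nest.subset {n : ℕ} {k h : Set V} (H : Nest X n k h) : k ⊆ h := by
  obtain ⟨c, hc, rfl, rfl⟩ := H
  exact hc.subset (Nat.zero_le n) le_rfl

theorem Nest.ssubset {n : ℕ} {k h : Set V} (H : Nest X n k h) (hn : 1 ≤ n) : k ⊂ h := by
  obtain ⟨c, hc, rfl, rfl⟩ := H
  exact hc.ssubset hn le_rfl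

theorem nest_one {k h : Set V} (hk : IsHalf X k) (hh : IsHalf X h) (H : k ⊂ h) :
    Nest X 1 k h := by
  refine ⟨fun i => if i = 0 then h else k, ⟨fun i _ => ?_, fun i hi => ?_⟩, rfl, rfl⟩
  · dsimp only
    split_ifs <;> assumption
  · obtain rfl : i = 0 := by omega
    exact H

theorem Nest.compl (hM : IsMedian X) {n : ℕ} {k h : Set V} (H : Nest X n k h) :
    Nest X n hᶜ kᶜ := by
  obtain ⟨c, hc, rfl, rfl⟩ := H
  refine ⟨fun i => (c (n - i))ᶜ, ⟨fun i _ => (hc.1 _ (Nat.sub_le n i)).compl hM, fun i hi => ?_⟩,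
    rfl, by simp⟩
  exact compl_lt_compl_iff_lt.2 (hc.ssubset (i := n - (i + 1)) (j := n - i) (by omega) (by omega))

theorem Nest.trans {n m : ℕ} {a b c : Set V} (H1 : Nest X n a b) (H2 : Nest X m b c) :
    Nest X (n + m) a c := by
  obtain ⟨c1, h1, e1, rfl⟩ := H1
  obtain ⟨c2, h2, rfl, e2⟩ := H2
  have e : ∀ i, m ≤ i → (if i ≤ m then c2 i else c1 (i - m)) = c1 (i - m) := by
    intro i hi
    split_ifs with h
    · obtain rfl : i = m := le_antisymm h hi
      rw [Nat.sub_self, e1, e2]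
    · rfl
  refine ⟨fun i => if i ≤ m then c2 i else c1 (i - m), ⟨fun i hi => ?_, fun i hi => ?_⟩, ?_, ?_⟩
  · dsimp only
    split_ifs with h
    · exact h2.1 i h
    · exact h1.1 _ (by omega)
  · dsimp only
    by_cases h : i < m
    · rw [if_pos (Nat.succ_le_of_lt h), if_pos h.le]
      exact h2.2 i h
    · rw [e i (by omega), e (i + 1) (by omega)]
      exact h1.ssubset (by omega) (by omega)
  · exact if_pos (Nat.zero_le m)
  · dsimp only
    rw [e _ (by omega), Nat.add_sub_cancel]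

theorem Nest.enlarge {n : ℕ} {k h k' h' : Set V} (H : Nest X n k h) (hn : 1 ≤ n)
    (hk : IsHalf X k') (hh : IsHalf X h') (h1 : k' ⊆ k) (h2 : h ⊆ h') : Nest X n k' h' := by
  obtain ⟨c, hc, rfl, rfl⟩ := H
  refine ⟨fun i => if i = 0 then h' else if i = n then k' else c i,
    ⟨fun i hi => ?_, fun i hi => ?_⟩, rfl, ?_⟩
  · dsimp only
    split_ifs
    · exact hh
    · exact hk
    · exact hc.1 i hi
  · have a1 : (if i + 1 = 0 then h' else if i + 1 = n then k' else c (i + 1)) ⊆ c (i + 1) := by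
      rw [if_neg (Nat.succ_ne_zero i)]
      split_ifs with e
      · rw [e]; exact h1
      · exact Set.Subset.rfl
    have a2 : c i ⊆ (if i = 0 then h' else if i = n then k' else c i) := by
      rw [if_neg hi.ne]
      split_ifs with e
      · rw [e]; exact h2
      · exact Set.Subset.rfl
    exact lt_of_lt_of_le (b := c i) (lt_of_le_of_lt (b := c (i + 1)) a1 (hc.2 i hi)) a2
  · dsimp only
    rw [if_neg (by omega), if_pos rfl]

theorem Nest.mono {n m : ℕ} {k h : Set V} (H : Nest X n k h) (hm : 1 ≤ m) (hmn : m ≤ n) :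
    Nest X m k h := by
  have hk := H.isHalf_left
  have hh := H.isHalf_right
  obtain ⟨c, hc, rfl, rfl⟩ := H
  exact (hc.nest (Nat.zero_le m) hmn).enlarge hm hk hh (hc.subset hmn le_rfl) Set.Subset.rfl

theorem Nest.le_dist (hM : IsMedian X) {n : ℕ} {k h : Set V} (H : Nest X n k h) {x y : V}
    (hx : x ∈ k) (hy : y ∉ h) : n + 1 ≤ X.dist x y := by
  obtain ⟨c, hc, rfl, rfl⟩ := H
  rw [X.dist_comm, hM.dist_eq_ncard]
  have hinj : Set.InjOn c (Finset.range (n + 1) : Finset ℕ) := by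
    intro i hi j hj e
    rw [Finset.coe_range, Set.mem_Iio] at hi hj
    rcases lt_trichotomy i j with h | h | h
    · exact absurd e.symm (hc.ssubset h (by omega)).ne
    · exact h
    · exact absurd e (hc.ssubset h (by omega)).ne
  have h1 : c '' (Finset.range (n + 1) : Finset ℕ) ⊆ sep X y x := by
    rintro _ ⟨i, hi, rfl⟩
    rw [Finset.coe_range, Set.mem_Iio] at hi
    exact ⟨hc.1 i (by omega), fun h => hy (hc.subset (Nat.zero_le i) (by omega) h),
      hc.subset (by omega) le_rfl hx⟩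
  have h2 := Set.ncard_le_ncard h1 (hM.sep_finite y x)
  rwa [hinj.ncard_image, Set.ncard_coe_finset, Finset.card_range] at h2

/-- Mirsky: many halfspaces separating two points contain a long chain -/
theorem Dim.chain_of_card {D : ℕ} (hD : Dim X D) (n : ℕ) {x y : V}
    (S : Finset (Set V)) (hS : ∀ h ∈ S, h ∈ sep X x y) (hc : D * n < S.card) :
    ∃ c, Chn X n c ∧ ∀ i ≤ n, c i ∈ S := by
  classical
  induction n generalizing S with
  | zero =>
    obtain ⟨h, hh⟩ := Finset.card_pos.1 (lt_of_le_of_lt (Nat.zero_le _) hc)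
    exact ⟨fun _ => h, ⟨fun _ _ => (hS h hh).1, fun i hi => absurd hi (Nat.not_lt_zero i)⟩,
      fun _ _ => hh⟩
  | succ n ih =>
    have h1 : (S.filter fun h => ¬ ∃ k ∈ S, h ⊂ k).card ≤ D := by
      refine hD _ (fun h hh => (hS h (Finset.mem_filter.1 hh).1).1) fun h hh k hk hne => ?_
      rw [Finset.mem_filter] at hh hk
      refine ⟨⟨y, (hS h hh.1).2.2, (hS k hk.1).2.2⟩, ?_, ?_,
        ⟨x, (hS h hh.1).2.1, (hS k hk.1).2.1⟩⟩
      · exact Set.inter_compl_nonempty_iff.2 fun e => hh.2 ⟨k, hk.1, e.ssubset_of_ne hne⟩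
      · rw [Set.inter_comm]
        exact Set.inter_compl_nonempty_iff.2 fun e => hk.2 ⟨h, hh.1, e.ssubset_of_ne hne.symm⟩
    have h2 := Finset.card_filter_add_card_filter_not (s := S) fun h => ∃ k ∈ S, h ⊂ k
    obtain ⟨c, hc', hm⟩ := ih (S.filter fun h => ∃ k ∈ S, h ⊂ k)
      (fun h hh => hS h (Finset.mem_filter.1 hh).1) (by rw [Nat.mul_succ] at hc; omega)
    obtain ⟨k, hk, hk'⟩ := (Finset.mem_filter.1 (hm 0 (Nat.zero_le n))).2
    have h3 : ∀ i ≤ n + 1, (Nat.casesOn i k c : Set V) ∈ S := by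
      intro i hi
      cases i with
      | zero => exact hk
      | succ i => exact (Finset.mem_filter.1 (hm i (by omega))).1
    refine ⟨fun i => Nat.casesOn i k c, ⟨fun i hi => (hS _ (h3 i hi)).1, fun i hi => ?_⟩, h3⟩
    cases i with
    | zero => exact hk'
    | succ i => exact hc'.2 i (by omega)

theorem Dim.chain_of_dist (hM : IsMedian X) {D : ℕ} (hD : Dim X D) (n : ℕ) {x y : V}
    (H : D * n < X.dist x y) : ∃ c, Chn X n c ∧ ∀ i ≤ n, c i ∈ sep X x y := by
  obtain ⟨c, h1, h2⟩ := hD.chain_of_card n (hM.sep_finite x y).toFinset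
    (fun h hh => (Set.Finite.mem_toFinset _).1 hh)
    (by rwa [← Set.ncard_eq_toFinset_card _ (hM.sep_finite x y), ← hM.dist_eq_ncard])
  exact ⟨c, h1, fun i hi => (Set.Finite.mem_toFinset _).1 (h2 i hi)⟩

/-- closest points of two disjoint convex sets: everything separating them separates the sets -/
theorem IsMedian.exists_closest (hM : IsMedian X) {C D : Set V} (hC : Cvx X C) (hD : Cvx X D)
    (hCn : C.Nonempty) (hDn : D.Nonempty) : ∃ p ∈ C, ∃ q ∈ D,
      ∀ e ∈ sep X p q, D ⊆ e ∧ Disjoint C e := by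
  classical
  have hex : ∃ n, ∃ p ∈ C, ∃ q ∈ D, X.dist p q = n := by
    obtain ⟨p, hp⟩ := hCn
    obtain ⟨q, hq⟩ := hDn
    exact ⟨_, p, hp, q, hq, rfl⟩
  obtain ⟨p, hp, q, hq, e⟩ := Nat.find_spec hex
  have hmin : ∀ p' ∈ C, ∀ q' ∈ D, X.dist p q ≤ X.dist p' q' := fun p' hp' q' hq' => by
    rw [e]
    exact Nat.find_min' hex ⟨p', hp', q', hq', rfl⟩
  have g1 : IsGate X D p q := by
    obtain ⟨q', hg⟩ := hM.exists_gate hD hDn p
    have a1 : X.dist p q' + X.dist q' q = X.dist p q := hg.2 q hq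
    have a2 := hmin p hp q' hg.1
    obtain rfl : q' = q := hM.dist_eq_zero.1 (by omega)
    exact hg
  have g2 : IsGate X C q p := by
    obtain ⟨p', hg⟩ := hM.exists_gate hC hCn q
    have a1 : X.dist q p' + X.dist p' p = X.dist q p := hg.2 p hp
    have a2 := hmin p' hg.1 q hq
    rw [X.dist_comm (u := p), X.dist_comm (u := p')] at a2
    obtain rfl : p' = p := hM.dist_eq_zero.1 (by omega)
    exact hg
  refine ⟨p, hp, q, hq, fun k hk => ⟨g1.subset hM hk.1 hk.2.1 hk.2.2, ?_⟩⟩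
  exact Set.subset_compl_iff_disjoint_right.1
    (g2.subset hM (hk.1.compl hM) (fun h => h hk.2.2) hk.2.1)

theorem m4_nest (hM : IsMedian X) {D : ℕ} (hD : Dim X D) {n : ℕ} (hn : 1 ≤ n)
    {k h : Set V} (hk : IsHalf X k) (hh : IsHalf X h) {p q : V}
    (hs : ∀ e ∈ sep X p q, k ⊆ e ∧ Disjoint hᶜ e) (H : D * n < X.dist p q) : Nest X n k h := by
  obtain ⟨c, hc, hm⟩ := hD.chain_of_dist hM n H
  exact Nest.enlarge ⟨c, hc, rfl, rfl⟩ hn hk hh (hs _ (hm n le_rfl)).1
    (Set.disjoint_compl_left_iff_subset.1 (hs _ (hm 0 (Nat.zero_le n))).2)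

theorem Dim.nest_of_far (hM : IsMedian X) {D : ℕ} (hD : Dim X D) {n : ℕ} (hn : 1 ≤ n)
    {k h : Set V} (hk : IsHalf X k) (hh : IsHalf X h) (hkh : k ⊆ h)
    (H : ∀ x ∈ k, ∀ y, y ∉ h → D * n < X.dist x y) : Nest X n k h := by
  obtain ⟨p, hp, q, hq, hs⟩ := hM.exists_closest ((hh.compl hM).cvx hM) (hk.cvx hM)
    hh.compl_nonempty hk.nonempty
  exact m4_nest hM hD hn hk hh hs (by rw [X.dist_comm]; exact H q hq p hp)

theorem Dim.nest_of_not_near (hM : IsMedian X) {D : ℕ} (hD : Dim X D) {n : ℕ} (hn : 1 ≤ n)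
    {k h : Set V} (hk : IsHalf X k) (hh : IsHalf X h) (hkh : k ⊆ h)
    (H : ¬ Near X (D * n) k h) : Nest X n k h := by
  obtain ⟨p, hp, q, hq, hs⟩ := hM.exists_closest ((hh.compl hM).cvx hM) (hk.cvx hM)
    hh.compl_nonempty hk.nonempty
  refine m4_nest hM hD hn hk hh hs (lt_of_not_ge fun hle => H ?_)
  have hpq : p ≠ q := fun e => hp (e ▸ hkh hq)
  obtain ⟨p', a1, a2⟩ := hM.exists_step hpq
  obtain ⟨q', b1, b2⟩ := hM.exists_step hpq.symm
  have a3 : half X p' p ∈ sep X p q := by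
    refine ⟨isHalf_half a1.symm, right_not_mem_half _ _, ?_⟩
    change X.dist q p' < X.dist q p
    rw [X.dist_comm (u := q), X.dist_comm (u := q)]
    omega
  have b3 : half X q q' ∈ sep X p q := by
    refine ⟨isHalf_half b1, ?_, left_mem_half b1⟩
    change ¬ X.dist p q < X.dist p q'
    rw [X.dist_comm (u := p), X.dist_comm (u := p)]
    omega
  refine ⟨q, inn_subset_car k ⟨hq, q', b1, fun e => right_not_mem_half _ _ ((hs _ b3).1 e)⟩, p,
    inn_compl_subset_car h ⟨hp, p', a1, fun e => ?_⟩, by rwa [X.dist_comm]⟩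
  exact Set.disjoint_left.1 (hs _ a3).2 e (left_mem_half a1.symm)

end Pool.Agent.Lib.MP_3467cd_al
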