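import Pool.Agent.Lib.MP_3467cd_al.GoodL
import Pool.Agent.Lib.MP_3467cd_al.Fam

open Pointwise

namespace Pool.Agent.Lib.MP_3467cd_al

variable {G : Type} [Group G] {V : Type} [MulAction G V] {X : SimpleGraph V}

/-- translates of finitely many nested pairs placed one inside the other -/
theorem exists_chain (hc : IsCubulation G X) {C0 C1 : ℕ} (h0 : 1 ≤ C0) (h01 : C0 ≤ C1)
    (hpl : ∀ a h, Good X a → IsHalf X h → Deep X h → ∃ g : G, Nest X C1 (g • a) h)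
    (hex : ∃ b, Good X b) (T : Finset (Set V × Set V))
    (hT : ∀ p ∈ T, Good X p.1 ∧ Good X p.2 ∧ Nest X C0 p.2 p.1) :
    ∃ E : Set (Set V), E.Finite ∧ E.ncard ≤ 2 * T.card ∧ (∀ e ∈ E, Good X e) ∧
      (∀ e ∈ E, ∀ e' ∈ E, e ≠ e' → Nest X C0 e e' ∨ Nest X C0 e' e) ∧
      (∀ e1 ∈ E, ∀ e2 ∈ E, ∀ e3 ∈ E, e1 ≠ e2 → e1 ≠ e3 → e2 ≠ e3 →
        (Nest X C1 e1 e2 ∨ Nest X C1 e2 e1) ∨ (Nest X C1 e1 e3 ∨ Nest X C1 e3 e1) ∨
          (Nest X C1 e2 e3 ∨ Nest X C1 e3 e2)) ∧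
      (∀ p ∈ T, ∃ g : G, g • p.1 ∈ E ∧ g • p.2 ∈ E) := by
  classical
  suffices h : ∃ E : Set (Set V), (E.Finite ∧ E.ncard ≤ 2 * T.card ∧ (∀ e ∈ E, Good X e) ∧
      (∀ e ∈ E, ∀ e' ∈ E, e ≠ e' → Nest X C0 e e' ∨ Nest X C0 e' e) ∧
      (∀ e1 ∈ E, ∀ e2 ∈ E, ∀ e3 ∈ E, e1 ≠ e2 → e1 ≠ e3 → e2 ≠ e3 →
        (Nest X C1 e1 e2 ∨ Nest X C1 e2 e1) ∨ (Nest X C1 e1 e3 ∨ Nest X C1 e3 e1) ∨
          (Nest X C1 e2 e3 ∨ Nest X C1 e3 e2)) ∧
      (∀ p ∈ T, ∃ g : G, g • p.1 ∈ E ∧ g • p.2 ∈ E)) ∧ ∃ b, Good X b ∧ ∀ e ∈ E, b ⊆ e from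
    h.imp fun _ h => h.1
  induction T using Finset.induction_on with
  | empty => exact ⟨∅, by simp, by simpa using hex⟩
  | insert p T hp ih =>
    obtain ⟨E, ⟨e1, e2, e3, e4, e5, e6⟩, b, hb, hbE⟩ :=
      ih fun q hq => hT q (Finset.mem_insert_of_mem hq)
    obtain ⟨g1, g2, hn⟩ := hT p (Finset.mem_insert_self _ _)
    obtain ⟨g, hg⟩ := hpl p.1 b g1 hb.1 hb.2.1
    have hn' := hn.smul hc g
    have hN : ∀ x, x = g • p.1 ∨ x = g • p.2 → ∀ e ∈ E, Nest X C1 x e := by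
      rintro x (rfl | rfl) e he
      · exact hg.enlarge (h0.trans h01) hg.isHalf_left (e3 e he).1 subset_rfl (hbE e he)
      · exact hg.enlarge (h0.trans h01) hn'.isHalf_left (e3 e he).1 hn'.subset (hbE e he)
    have hm : ∀ x ∈ insert (g • p.1) (insert (g • p.2) E),
        (x = g • p.1 ∨ x = g • p.2) ∨ x ∈ E := fun x hx => or_assoc.2 hx
    refine ⟨insert (g • p.1) (insert (g • p.2) E), ⟨(e1.insert _).insert _, ?_, ?_, ?_, ?_, ?_⟩,
      g • p.2, g2.smul hc g, ?_⟩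
    · have h1 := Set.ncard_insert_le (g • p.1) (insert (g • p.2) E)
      have h2 := Set.ncard_insert_le (g • p.2) E
      rw [Finset.card_insert_of_notMem hp]
      omega
    · rintro e (rfl | rfl | he)
      · exact g1.smul hc g
      · exact g2.smul hc g
      · exact e3 e he
    · intro e he e' he' hne
      rcases hm e he with h | h <;> rcases hm e' he' with h' | h'
      · rcases h with rfl | rfl <;> rcases h' with rfl | rfl
        · exact absurd rfl hne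
        · exact Or.inr hn'
        · exact Or.inl hn'
        · exact absurd rfl hne
      · exact Or.inl ((hN e h e' h').mono h0 h01)
      · exact Or.inr ((hN e' h' e h).mono h0 h01)
      · exact e4 e h e' h' hne
    · intro x hx y hy z hz n1 n2 n3
      rcases hm x hx with h | h <;> rcases hm y hy with h' | h'
      · rcases hm z hz with h'' | h''
        · exfalso
          rcases h with h | h <;> rcases h' with h' | h' <;> rcases h'' with h'' | h'' <;>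
            first | exact n1 (h.trans h'.symm) | exact n2 (h.trans h''.symm) |
              exact n3 (h'.trans h''.symm)
        · exact Or.inr (Or.inl (Or.inl (hN x h z h'')))
      · exact Or.inl (Or.inl (hN x h y h'))
      · exact Or.inl (Or.inr (hN y h' x h))
      · rcases hm z hz with h'' | h''
        · exact Or.inr (Or.inl (Or.inr (hN z h'' x h)))
        · exact e5 x h y h' z h'' n1 n2 n3
    · intro q hq
      rcases Finset.mem_insert.1 hq with rfl | hq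
      · exact ⟨g, Or.inl rfl, Or.inr (Or.inl rfl)⟩
      · obtain ⟨g', h1, h2⟩ := e6 q hq
        exact ⟨g', Or.inr (Or.inr h1), Or.inr (Or.inr h2)⟩
    · rintro e (rfl | rfl | he)
      · exact hn'.subset
      · exact subset_rfl
      · exact (hN _ (Or.inr rfl) e he).subset

/-- finitely many types of nested pairs are enough for all long geodesics -/
theorem exists_pair_types (hc : IsCubulation G X) (C : ℕ) (hex : ∃ b, Good X b) :
    ∃ (R : ℕ) (T : Finset (Set V × Set V)), T.Nonempty ∧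
      (∀ p ∈ T, Good X p.1 ∧ Good X p.2 ∧ Nest X C p.2 p.1 ∧
        ∃ a ∈ inn X p.1, ∃ b ∈ inn X p.2ᶜ, X.dist a b ≤ R) ∧
      ∀ D : ℕ, ∃ R1 : ℕ, ∀ x y, R1 ≤ X.dist x y → ∃ (g : G), ∃ p ∈ T,
        (∀ z ∈ g • p.1, D < X.dist x z) ∧ ∀ z, z ∉ g • p.2 → D < X.dist y z := by
  obtain ⟨R, hR⟩ := hc.pair_lemma C
  obtain ⟨T0, hT0, h0⟩ := hc.pair_orbits R
  have hfin : {p ∈ T0 | Good X p.1 ∧ Good X p.2 ∧ Nest X C p.2 p.1 ∧
      ∃ a ∈ inn X p.1, ∃ b ∈ inn X p.2ᶜ, X.dist a b ≤ R}.Finite := hT0.subset fun _ h => h.1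
  have key : ∀ D : ℕ, ∃ R1 : ℕ, ∀ x y, R1 ≤ X.dist x y → ∃ (g : G), ∃ p ∈ hfin.toFinset,
      (∀ z ∈ g • p.1, D < X.dist x z) ∧ ∀ z, z ∉ g • p.2 → D < X.dist y z := by
    intro D
    obtain ⟨R1, h1⟩ := hR D
    refine ⟨R1, fun x y hxy => ?_⟩
    obtain ⟨h, k, gh, gk, hn, ⟨a, ha, b, hb, hab⟩, h2, h3⟩ := h1 x y hxy
    obtain ⟨g, hg⟩ := h0 h k gh.1 gk.1
      ⟨a, inn_subset_car h ha, b, inn_compl_subset_car k hb, hab⟩
    refine ⟨g⁻¹, (g • h, g • k), hfin.mem_toFinset.2 ⟨hg, gh.smul hc g, gk.smul hc g,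
      hn.smul hc g, g • a, ?_, g • b, ?_, (hc.dist_smul g a b).trans_le hab⟩, ?_, ?_⟩
    · rw [← hc.smul_inn]
      exact Set.smul_mem_smul_set ha
    · rw [← Set.smul_set_compl, ← hc.smul_inn]
      exact Set.smul_mem_smul_set hb
    · simpa only [inv_smul_smul] using h2
    · simpa only [inv_smul_smul] using h3
  refine ⟨R, hfin.toFinset, ?_, fun p hp => (hfin.mem_toFinset.1 hp).2, key⟩
  obtain ⟨b, hb⟩ := hex
  obtain ⟨R1, h1⟩ := key 0
  obtain ⟨z, -, hz⟩ := hb.2.1 R1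
  obtain ⟨y, hy⟩ := hb.1.compl_nonempty
  obtain ⟨-, p, hp, -⟩ := h1 z y (hz y hy)
  exact ⟨p, hp⟩

theorem sys1_near (hc : IsCubulation G X) {r : ℕ} {f f' : G} {e e' k k' : Set V}
    (h : SameH (f • e) k) (h' : SameH (f' • e') k') (H : Near X r k k') :
    Near X r ((f'⁻¹ * f) • e) e' := by
  rw [← hc.near_smul f', mul_smul, smul_inv_smul]
  unfold Near at H ⊢
  rwa [h.car_eq, h'.car_eq] at H

theorem sys1_same {f f' : G} {e k k' : Set V} (h : SameH (f • e) k) (h' : SameH (f' • e) k')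
    (H : (f'⁻¹ * f) • e = e) : SameH k k' := by
  rw [mul_smul, inv_smul_eq_iff] at H
  rw [← H] at h'
  rcases h with rfl | rfl
  · exact h'
  · rcases h' with rfl | rfl
    · exact Or.inr (compl_compl _).symm
    · exact Or.inl rfl

theorem gfam_of_sparse (hc : IsCubulation G X) {F : Subgroup G} {E : Set (Set V)} {j : ℕ}
    (hg : ∀ e ∈ E, Good X e)
    (hs : ∀ f ∈ F, ∀ e ∈ E, ∀ e' ∈ E, Near X (4 * j + 4) (f • e) e' → e = e' ∧ f • e = e) :
    GFam X j (fam F E) := by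
  refine ⟨fun k hk => good_of_mem_fam hc hg hk, fun k hk => compl_mem_fam hk, ?_⟩
  rintro k ⟨f, hf, e, he, h⟩ k' ⟨f', hf', e', he', h'⟩ H
  obtain ⟨rfl, h1⟩ := hs _ (mul_mem (inv_mem hf') hf) e he e' he' (sys1_near hc h h' H)
  exact sys1_same h h' h1

theorem tri_fam (hc : IsCubulation G X) {F : Subgroup G} {E : Set (Set V)} {m : ℕ}
    (hs : ∀ f ∈ F, ∀ e ∈ E, Near X m (f • e) e → f • e = e)
    (ht : ∀ e1 ∈ E, ∀ e2 ∈ E, ∀ e3 ∈ E, e1 ≠ e2 → e1 ≠ e3 → e2 ≠ e3 →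
      (∀ f ∈ F, ¬ Near X m (f • e1) e2) ∨ (∀ f ∈ F, ¬ Near X m (f • e1) e3) ∨
        ∀ f ∈ F, ¬ Near X m (f • e2) e3) : Tri X m (fam F E) := by
  rintro k1 ⟨f1, hf1, e1, he1, h1⟩ k2 ⟨f2, hf2, e2, he2, h2⟩ k3 ⟨f3, hf3, e3, he3, h3⟩ a b c
  have m12 := mul_mem (inv_mem hf2) hf1
  have m13 := mul_mem (inv_mem hf3) hf1
  have m23 := mul_mem (inv_mem hf3) hf2
  have a' := sys1_near hc h1 h2 a
  have b' := sys1_near hc h1 h3 b
  have c' := sys1_near hc h2 h3 c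
  rcases eq_or_ne e1 e2 with rfl | n1
  · exact Or.inl (sys1_same h1 h2 (hs _ m12 _ he1 a'))
  rcases eq_or_ne e1 e3 with rfl | n2
  · exact Or.inr (Or.inl (sys1_same h1 h3 (hs _ m13 _ he1 b')))
  rcases eq_or_ne e2 e3 with rfl | n3
  · exact Or.inr (Or.inr (sys1_same h2 h3 (hs _ m23 _ he2 c')))
  rcases ht e1 he1 e2 he2 e3 he3 n1 n2 n3 with h | h | h
  · exact absurd a' (h _ m12)
  · exact absurd b' (h _ m13)
  · exact absurd c' (h _ m23)

/-- the two sides of a close nested pair are not separated by the family -/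
theorem Tri.rel_pair (hM : IsMedian X) {A : Set (Set V)} {m : ℕ} (hA : HFam X A)
    (hT : Tri X m A) {e e' : Set V} (he : e ∈ A) (he' : e' ∈ A) (hs : e' ⊂ e) {a b : V}
    (ha : a ∈ inn X e) (hb : b ∈ inn X e'ᶜ) (hd : X.dist a b ≤ m) :
    Rel A a b := by
  have h1 := hA.1 e he
  have h2 := hA.1 e' he'
  have ha' : a ∉ e' := fun h => hs.ne (h1.eq_of_inn hM h2 hs.subset ha h)
  have hb' : b ∈ e := by
    by_contra h
    exact hs.ne (compl_injective ((h2.compl hM).eq_of_inn hM (h1.compl hM)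
      (Set.compl_subset_compl.2 hs.subset) hb h)).symm
  intro u hu
  by_contra H
  obtain ⟨c, hcu, h3, h4⟩ := hM.exists_car_le H
  have h5 : X.dist c b ≤ m := by
    unfold Btw at h4
    omega
  rcases hT u hu e he e' he' ⟨c, hcu, a, inn_subset_car e ha, X.dist_comm ▸ h3.trans hd⟩
    ⟨c, hcu, b, inn_compl_subset_car e' hb, h5⟩
    ⟨a, inn_subset_car e ha, b, inn_compl_subset_car e' hb, hd⟩ with
      (rfl | rfl) | (rfl | rfl) | rfl | rfl
  · exact H (iff_of_true ha.1 hb')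
  · exact H (iff_of_false ha.1 hb')
  · exact H (iff_of_false ha' hb.1)
  · exact H (iff_of_true (not_not.1 ha') (not_not.1 hb.1))
  · exact hs.ne rfl
  · exact h2.nonempty.elim fun z hz => hz (hs.subset hz)

theorem Tri.mono {A : Set (Set V)} {m m' : ℕ} (hT : Tri X m A) (h : m' ≤ m) : Tri X m' A := by
  exact fun k1 h1 k2 h2 k3 h3 a b c => hT k1 h1 k2 h2 k3 h3 (a.mono h) (b.mono h) (c.mono h)

theorem finite_near (hM : IsMedian X) {E : Set (Set V)} (hE : E.Finite)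
    (hh : ∀ e ∈ E, IsHalf X e) : ∃ R : ℕ, ∀ e ∈ E, ∀ e' ∈ E, Near X R e e' := by
  have : Nonempty V := hM.1.nonempty
  choose! c hc using fun e he => (hh e he).inn_nonempty
  obtain ⟨R, hR⟩ := ((hE.prod hE).image fun p => X.dist (c p.1) (c p.2)).bddAbove
  exact ⟨R, fun e he e' he' => ⟨c e, inn_subset_car e (hc e he), c e', inn_subset_car e' (hc e' he'),
    hR ⟨(e, e'), ⟨he, he'⟩, rfl⟩⟩⟩

end Pool.Agent.Lib.MP_3467cd_al
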