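import Pool.Agent.Lib.MP_3467cd_al.GoodL
import Pool.Agent.Lib.MP_3467cd_al.Fam

open Pointwise

namespace Pool.Agent.Lib.MP_3467cd_al

section Abstract
variable {V : Type} {X : SimpleGraph V} {A B : Set (Set V)} {j : ℕ}

theorem Giant.symm {z : V} (H : Giant X A B j z) : Giant X B A j z := by
  obtain ⟨z', h1, h2⟩ := H
  exact ⟨z', by rwa [Set.union_comm], h2.symm⟩

theorem Giant.of_rel {z z' : V} (H : Giant X A B j z) (h : Rel (A ∪ B) z z') :
    Giant X A B j z' := by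
  obtain ⟨w, h1, h2⟩ := H
  exact ⟨w, h.symm.trans h1, h2⟩

theorem tri1_exit (hM : IsMedian X) (hA : GFam X j A) {o : Set V} (ho : o ∈ A) {C : Set V}
    (hC : Cvx X C) {a1 a2 : V} (h1 : a1 ∈ C) (h2 : a2 ∈ C)
    (w1 : ∃ c ∈ car X o, X.dist a1 c ≤ j) (w2 : ¬ ∃ c ∈ car X o, X.dist a2 c ≤ j) :
    ∃ b ∈ C, Clear X A j b := by
  obtain ⟨a, b, hab, ha, hb, -, b2, -⟩ :=
    hM.exit_edge (A := {z | ∃ c ∈ car X o, X.dist z c ≤ j}) w1 w2
  refine ⟨b, hC a1 h1 a2 h2 b b2, ?_⟩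
  intro k hk c hc
  by_contra hlt
  have hbc : X.dist b c ≤ j := by omega
  obtain ⟨c1, hc1, hd1⟩ := ha
  have hn : Near X (4 * j + 4) o k := by
    refine ⟨c1, hc1, c, hc, ?_⟩
    have t1 := hM.tri c1 a c
    have t2 := hM.tri a b c
    have t3 := dist_of_adj hab
    have t4 : X.dist c1 a = X.dist a c1 := X.dist_comm
    omega
  have hs := hA.2.2 o ho k hk hn
  exact hb ⟨c, by rw [← hs.car_eq]; exact hc, hbc⟩

/-- a component adjacent to two hyperplanes of one family is giant -/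
theorem giant_of_two (hM : IsMedian X) (hA : GFam X j A) (hB : HFam X B) {x : V}
    {o1 o2 : Set V} (h1 : Outer X (A ∪ B) x o1) (h2 : Outer X (A ∪ B) x o2) (m1 : o1 ∈ A)
    (m2 : o2 ∈ A) (hne : o1 ≠ o2) : Giant X A B j x := by
  obtain ⟨-, a1, ha1, r1⟩ := id h1
  obtain ⟨-, a2, ha2, r2⟩ := id h2
  obtain ⟨b, hb, hcl⟩ := tri1_exit hM hA m1 ((hA.hfam.union hB).comp_cvx hM x) (a1 := a1)
    (a2 := a2) r1 r2 ⟨a1, inn_compl_subset_car _ ha1, by simp⟩ (by
      rintro ⟨c, hc, hd⟩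
      refine hne (h1.eq_of_sameH h2 (hA.2.2 o1 m1 o2 m2 ⟨c, hc, a2, inn_compl_subset_car _ ha2, ?_⟩))
      rw [X.dist_comm]
      omega)
  exact ⟨b, hb, Or.inl hcl⟩

/-- a component which is a whole deep halfspace is giant -/
theorem giant_of_half {x : V} {k : Set V} (hM : IsMedian X) (hd : Deep X k)
    (H : ∀ y ∈ k, Rel (A ∪ B) x y) : Giant X A B j x := by
  obtain ⟨z, hz, hfar⟩ := hd (j + 2)
  refine ⟨z, H z hz, Or.inl ?_⟩
  intro u hu c hc
  by_contra hlt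
  obtain ⟨c', hcc, -, hs⟩ := car_edge hc
  have hck : c ∈ k := by
    by_contra h
    have := hfar c h
    omega
  have hck' : c' ∈ k := by
    by_contra h
    have := hfar c' h
    have t1 := hM.tri z c c'
    have t2 := dist_of_adj hcc
    omega
  exact hs (((H c hck).symm.trans (H c' hck')) u (Or.inl hu))

/-- a non giant component adjacent to `k' ∈ B \ A` is a shallow quarter -/
theorem quarter_of_not_giant (hM : IsMedian X) (hA : GFam X j A) (hB : GFam X j B) {x : V}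
    {k' : Set V} (hk : k' ∈ B) (hkA : k' ∉ A) (hx : x ∈ inn X k'ᶜ) (hg : ¬ Giant X A B j x) :
    ∃ k ∈ A, Outer X (A ∪ B) x k ∧ (∀ y, Rel (A ∪ B) x y ↔ y ∉ k ∧ y ∉ k') ∧
      ∀ z, z ∉ k → z ∉ k' →
        (∃ b ∈ car X k, X.dist z b ≤ j) ∧ ∃ b ∈ car X k', X.dist z b ≤ j := by
  have hU : HFam X (A ∪ B) := hA.hfam.union hB.hfam
  have hok' : Outer X (A ∪ B) x k' := ⟨Or.inr hk, x, hx, Rel.refl _ _⟩
  have hBo : ∀ o ∈ B, Outer X (A ∪ B) x o → o = k' := by
    intro o ho hoo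
    by_contra hne
    refine hg (Giant.symm (giant_of_two hM hB hA.hfam (o1 := o) (o2 := k') ?_ ?_ ho hk hne))
    · rwa [Set.union_comm]
    · rwa [Set.union_comm]
  have hAo : ∀ o ∈ A, ∀ o' ∈ A, Outer X (A ∪ B) x o → Outer X (A ∪ B) x o' → o = o' := by
    intro o ho o' ho' h1 h2
    by_contra hne
    exact hg (giant_of_two hM hA hB.hfam h1 h2 ho ho' hne)
  obtain ⟨k, hkA', hok⟩ : ∃ k ∈ A, Outer X (A ∪ B) x k := by
    by_contra hn
    refine hg (giant_of_half hM (hB.1 k' hk).2.2 ?_)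
    intro y hy
    by_contra hr
    obtain ⟨o, hoo, hyo⟩ := hU.exists_outer hM hr
    rcases hoo.1 with h | h
    · exact hn ⟨o, h, hoo⟩
    · rw [hBo o h hoo] at hyo
      exact hy hyo
  have hrel : ∀ y, Rel (A ∪ B) x y ↔ y ∉ k ∧ y ∉ k' := by
    intro y
    refine ⟨fun h => ⟨hok.not_mem h, hok'.not_mem h⟩, fun h => ?_⟩
    by_contra hr
    obtain ⟨o, hoo, hyo⟩ := hU.exists_outer hM hr
    rcases hoo.1 with h' | h'
    · rw [hAo o h' k hkA' hoo hok] at hyo
      exact h.1 hyo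
    · rw [hBo o h' hoo] at hyo
      exact h.2 hyo
  refine ⟨k, hkA', hok, hrel, ?_⟩
  intro z hz hz'
  have hxz : Rel (A ∪ B) x z := (hrel z).2 ⟨hz, hz'⟩
  constructor
  · by_contra hn
    obtain ⟨-, a, ha, r⟩ := hok
    obtain ⟨b, hb, hcl⟩ := tri1_exit hM hA hkA' (hU.comp_cvx hM x) (a1 := a) (a2 := z) r hxz
      ⟨a, inn_compl_subset_car _ ha, by simp⟩ hn
    exact hg ⟨b, hb, Or.inl hcl⟩
  · by_contra hn
    obtain ⟨b, hb, hcl⟩ := tri1_exit hM hB hk (hU.comp_cvx hM x) (a1 := x) (a2 := z)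
      (Rel.refl _ _) hxz ⟨x, inn_compl_subset_car _ hx, by simp⟩ hn
    exact hg ⟨b, hb, Or.inr hcl⟩

/-- a deep halfspace is not contained in a neighbourhood of its own carrier -/
theorem Deep.exists_far (hM : IsMedian X) {k : Set V} (hd : Deep X k) (r : ℕ) :
    ∃ z ∈ k, ∀ b ∈ car X k, r < X.dist z b := by
  obtain ⟨z, hz, hfar⟩ := hd (r + 2)
  refine ⟨z, hz, ?_⟩
  intro b hb
  rcases hb with ⟨-, b', hbb, hb'⟩ | hb
  · have := hfar b' hb'
    have t1 := hM.tri z b b'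
    have t2 := dist_of_adj hbb
    omega
  · have := hfar b hb.1
    omega

theorem Match.compl {u' u : Set V} (H : Match X j u' u) : Match X j u'ᶜ uᶜ := by
  intro z hz
  rw [car_compl, car_compl]
  refine H z fun h => hz ?_
  simp only [Set.mem_compl_iff]
  exact not_congr h

theorem Match.symm {u' u : Set V} (H : Match X j u' u) : Match X j u u' := by
  intro z hz
  exact (H z fun h => hz h.symm).symm

theorem tri1_match (hM : IsMedian X) (hA : GFam X j A) (hB : GFam X j B) {k' : Set V}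
    (hk : k' ∈ B) (hkA : k' ∉ A)
    (H : ∀ x x', X.Adj x x' → x ∉ k' → x' ∈ k' → ¬ (Giant X A B j x ∧ Giant X A B j x'))
    {x : V} (hx : x ∈ inn X k'ᶜ) (hg : ¬ Giant X A B j x) : ∃ u ∈ A, Match X j k' u := by
  obtain ⟨k, hkA', hok, hrel, hsh⟩ := quarter_of_not_giant hM hA hB hk hkA hx hg
  have hkc : kᶜ ∈ A := hA.2.1 k hkA'
  have gk := hA.1 k hkA'
  have gk' := hB.1 k' hk
  refine ⟨kᶜ, hkc, ?_⟩
  suffices hs : ∀ z, z ∈ k → z ∈ k' →
      (∃ b ∈ car X k, X.dist z b ≤ j) ∧ ∃ b ∈ car X k', X.dist z b ≤ j by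
    intro z hz
    rw [car_compl]
    by_cases h1 : z ∈ k
    · refine hs z h1 ?_
      by_contra h2
      exact hz ⟨fun h => absurd h h2, fun h => absurd h1 h⟩
    · refine hsh z h1 ?_
      intro h2
      exact hz ⟨fun _ => h1, fun _ => h2⟩
  intro z0 hz0 hz0'
  have hxk := (hrel x).1 (Rel.refl _ _)
  have hcr : Cross k k' := by
    refine ⟨⟨z0, hz0, hz0'⟩, ?_, ?_, ⟨x, hxk.1, hxk.2⟩⟩
    · obtain ⟨z, hz, hfar⟩ := gk'.2.2.exists_far hM j
      rw [car_compl] at hfar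
      refine ⟨z, ?_, hz⟩
      by_contra h
      obtain ⟨b, hb, hd⟩ := (hsh z h hz).2
      have := hfar b hb
      omega
    · obtain ⟨z, hz, hfar⟩ := gk.2.2.exists_far hM j
      rw [car_compl] at hfar
      refine ⟨z, hz, ?_⟩
      by_contra h
      obtain ⟨b, hb, hd⟩ := (hsh z hz h).1
      have := hfar b hb
      omega
  obtain ⟨y, hyk, hyk'⟩ := hcr.compl_right.inn_inter hM gk.1 (gk'.1.compl hM)
  obtain ⟨hy1, y', hyy, hy2⟩ := id hyk'
  have hy'k : y' ∈ inn X k :=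
    hcr.compl_right.inn_step hM gk.1 (gk'.1.compl hM) hyk hyy hy1 hy2
  have hy'k' : y' ∈ k' := by simpa using hy2
  by_cases hgy : Giant X A B j y
  · have hgy' : ¬ Giant X A B j y' := fun h => H y y' hyy hy1 hy'k' ⟨hgy, h⟩
    have hin : y' ∈ inn X k'ᶜᶜ := by
      rw [compl_compl]
      exact ⟨hy'k', y, hyy.symm, hy1⟩
    obtain ⟨k3, hk3, ho3, -, hsh3⟩ := quarter_of_not_giant hM hA hB (hB.2.1 k' hk)
      (fun h => hkA (by simpa using hA.2.1 _ h)) hin hgy'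
    have e : k3 = kᶜ := by
      by_contra hne
      exact hgy' (giant_of_two hM hA hB.hfam ho3 (outer_of_inn (Or.inl hkc) hy'k) hk3 hkc hne)
    subst e
    have := hsh3 z0 (fun h => h hz0) (fun h => h hz0')
    rwa [car_compl, car_compl] at this
  · exfalso
    obtain ⟨k2, hk2, ho2, -, hsh2⟩ := quarter_of_not_giant hM hA hB hk hkA hyk' hgy
    have e : k2 = kᶜ := by
      by_contra hne
      exact hgy (giant_of_two hM hA hB.hfam ho2 (outer_of_inn (Or.inl hkc) hyk) hk2 hkc hne)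
    subst e
    obtain ⟨z, hz, hfar⟩ := gk'.2.2.exists_far hM j
    rw [car_compl] at hfar
    by_cases h : z ∈ k
    · obtain ⟨b, hb, hd⟩ := (hsh2 z (fun h' => h' h) hz).2
      have := hfar b hb
      omega
    · obtain ⟨b, hb, hd⟩ := (hsh z h hz).2
      have := hfar b hb
      omega

/-- if no edge dual to `u'` has two giant sides then `u'` is matched with a member of `A` -/
theorem exists_match (hM : IsMedian X) (hA : GFam X j A) (hB : GFam X j B) {u' : Set V}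
    (hu : u' ∈ B)
    (H : u' ∉ A → ∀ x x', X.Adj x x' → x ∉ u' → x' ∈ u' →
      ¬ (Giant X A B j x ∧ Giant X A B j x')) : ∃ u ∈ A, Match X j u' u := by
  by_cases huA : u' ∈ A
  · exact ⟨u', huA, fun z hz => absurd Iff.rfl hz⟩
  have H' := H huA
  obtain ⟨x', hx'u, x, hxx, hxu⟩ := (hB.1 u' hu).1.inn_nonempty
  by_cases hg : Giant X A B j x
  · have hg' : ¬ Giant X A B j x' := fun h => H' x x' hxx.symm hxu hx'u ⟨hg, h⟩
    obtain ⟨u, hu', hm⟩ := tri1_match hM hA hB (k' := u'ᶜ) (hB.2.1 u' hu)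
      (fun h => huA (by simpa using hA.2.1 _ h))
      (fun a b hab ha hb h => H' b a hab.symm hb (by simpa using ha) h.symm) (x := x')
      (by rw [compl_compl]; exact ⟨hx'u, x, hxx, hxu⟩) hg'
    refine ⟨uᶜ, hA.2.1 u hu', ?_⟩
    have := hm.compl
    rwa [compl_compl] at this
  · exact tri1_match hM hA hB hu huA H' (x := x) ⟨hxu, x', hxx.symm, fun h => h hx'u⟩ hg

/-- matched halfspaces have close carriers -/
theorem Match.car_near (hM : IsMedian X) {u' u : Set V} (hu : IsHalf X u)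
    (H : Match X j u' u) {b : V} (hb : b ∈ car X u') : ∃ c ∈ car X u, X.dist b c ≤ j + 1 := by
  obtain ⟨b', hbb, -, hs⟩ := car_edge hb
  by_cases h1 : (b ∈ u' ↔ b ∈ u)
  · by_cases h2 : (b' ∈ u' ↔ b' ∈ u)
    · refine ⟨b, ?_, by simp⟩
      by_cases hm : b ∈ u
      · exact Or.inl ⟨hm, b', hbb, fun h => hs ⟨fun _ => h2.2 h, fun _ => h1.2 hm⟩⟩
      · refine Or.inr ⟨hm, b', hbb, fun h => hs ⟨fun h' => absurd (h1.1 h') hm,
          fun h' => absurd (h2.1 h') h⟩⟩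
    · obtain ⟨c, hc, hd⟩ := (H b' h2).1
      refine ⟨c, hc, ?_⟩
      have t1 := hM.tri b b' c
      have t2 := dist_of_adj hbb
      omega
  · obtain ⟨c, hc, hd⟩ := (H b h1).1
    exact ⟨c, hc, by omega⟩

end Abstract

end Pool.Agent.Lib.MP_3467cd_al
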