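import Pool.Agent.Lib.MP_3467cd_al.Tri1
import Pool.Agent.Lib.MP_3467cd_al.Sys1

open Pointwise

namespace Pool.Agent.Lib.MP_3467cd_al

variable {G : Type} [Group G] {V : Type} [MulAction G V] {X : SimpleGraph V}
  {F : Subgroup G} {E : Set (Set V)} {j : ℕ}

theorem Sys.gfam (hc : IsCubulation G X) (hS : Sys X F E j) : GFam X j (fam F E) :=
  gfam_of_sparse hc hS.good hS.sparse

theorem tri2_smul_sg (f : G) (ε : Bool) (s : Set V) : f • sg ε s = sg ε (f • s) := by
  cases ε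
  · rfl
  · exact Set.smul_set_compl

theorem typ_of_mem_fam {o : Set V} (ho : o ∈ fam F E) : ∃ ε, typ F E ε o := by
  obtain ⟨f, hf, e, he, h | h⟩ := ho
  · exact ⟨false, f, hf, e, he, h⟩
  · exact ⟨true, f, hf, e, he, h⟩

theorem typ.mem_fam {ε : Bool} {o : Set V} (H : typ F E ε o) : o ∈ fam F E := by
  obtain ⟨f, hf, e, he, h⟩ := H
  cases ε
  · exact ⟨f, hf, e, he, Or.inl h⟩
  · exact ⟨f, hf, e, he, Or.inr h⟩

theorem typ.compl {ε : Bool} {o : Set V} (H : typ F E ε o) : typ F E (!ε) oᶜ := by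
  obtain ⟨f, hf, e, he, h⟩ := H
  refine ⟨f, hf, e, he, ?_⟩
  rw [h]
  cases ε
  · rfl
  · exact compl_compl _

theorem typ.smul {ε : Bool} {o : Set V} (H : typ F E ε o) {f : G} (hf : f ∈ F) :
    typ F E ε (f • o) := by
  obtain ⟨f', hf', e, he, h⟩ := H
  exact ⟨f * f', F.mul_mem hf hf', e, he, by rw [h, tri2_smul_sg, smul_smul]⟩

theorem Sys.typ_unique (hc : IsCubulation G X) (hS : Sys X F E j) {ε ε' : Bool} {o : Set V}
    (H : typ F E ε o) (H' : typ F E ε' o) : ε = ε' := by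
  have key : ∀ {o : Set V}, typ F E false o → typ F E true o → False := by
    rintro o ⟨f, hf, e, he, h⟩ ⟨f', hf', e', he', h'⟩
    have h1 : f • e = (f' • e')ᶜ := h.symm.trans h'
    have h2 : (f'⁻¹ * f) • e = e'ᶜ := by
      rw [mul_smul, h1, Set.smul_set_compl, inv_smul_smul]
    have h3 : Near X (4 * j + 4) ((f'⁻¹ * f) • e) e' := by
      rw [h2, near_compl_left]
      exact (hS.good e' he').1.near_self _
    obtain ⟨h4, h5⟩ := hS.sparse _ (F.mul_mem (F.inv_mem hf') hf) e he e' he' h3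
    rw [h5, ← h4] at h2
    exact (hS.good e he).1.ne_compl h2
  cases ε <;> cases ε'
  · rfl
  · exact (key H H').elim
  · exact (key H' H).elim
  · rfl

/-- all components of the complement of the family are equivalent -/
theorem Sys.trans (hc : IsCubulation G X) (hS : Sys X F E j) (x y0 : V) :
    ∃ f ∈ F, Rel (fam F E) y0 (f • x) := by
  have hG := hS.gfam hc
  have hM := hc.median
  have key : ∀ z, Giant X (fam F E) (fam F E) j z := by
    intro z
    obtain ⟨e, he, -⟩ := hS.two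
    have he' := mem_fam_self F he
    obtain ⟨y, hy⟩ : ∃ y, ¬ Rel (fam F E) z y := by
      by_contra hn
      push Not at hn
      obtain ⟨a, ha⟩ := (hS.good e he).1.nonempty
      obtain ⟨b, hb⟩ := (hS.good e he).1.compl_nonempty
      exact hb ((hn b e he').1 ((hn a e he').2 ha))
    obtain ⟨o, ho, -⟩ := hG.hfam.exists_outer hM hy
    by_cases h2 : ∃ o', Outer X (fam F E) z o' ∧ o ≠ o'
    · obtain ⟨o', ho', hne⟩ := h2
      exact giant_of_two hM hG hG.hfam (by rwa [Set.union_self]) (by rwa [Set.union_self])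
        ho.1 ho'.1 hne
    · refine giant_of_half hM (hG.1 o ho.1).2.2 fun y' hy' => ?_
      rw [Set.union_self]
      by_contra hn
      obtain ⟨k, hk, hyk⟩ := hG.hfam.exists_outer hM hn
      refine h2 ⟨k, hk, fun h => hy' ?_⟩
      rwa [h]
  obtain ⟨f, hf, H⟩ := hS.uniq 1 y0 x (by rw [one_smul]; exact key y0)
    (by rw [one_smul]; exact key x)
  exact ⟨f, hf, (H.mono Set.subset_union_left).symm⟩

theorem Sys.exists_outer_smul (hc : IsCubulation G X) (hS : Sys X F E j) (y0 : V) {u : Set V}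
    (hu : u ∈ fam F E) : ∃ f ∈ F, Outer X (fam F E) y0 (f • u) := by
  obtain ⟨a, ha⟩ := ((hS.gfam hc).hfam.1 _ (compl_mem_fam hu)).inn_nonempty
  obtain ⟨f, hf, H⟩ := hS.trans hc a y0
  refine ⟨f, hf, smul_mem_fam hu hf, f • a, ?_, H⟩
  rw [← Set.smul_set_compl, ← hc.smul_inn]
  exact Set.smul_mem_smul_set ha

theorem Sys.two_outer (hc : IsCubulation G X) (hS : Sys X F E j) (y0 : V) (ε : Bool) :
    ∃ o1 o2, o1 ≠ o2 ∧ Outer X (fam F E) y0 o1 ∧ Outer X (fam F E) y0 o2 ∧
      typ F E ε o1 ∧ typ F E ε o2 := by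
  obtain ⟨e, he, e', he', hne⟩ := hS.two
  have ht : ∀ e ∈ E, typ F E ε (sg ε e) := fun e he => ⟨1, F.one_mem, e, he, by rw [one_smul]⟩
  obtain ⟨f, hf, H⟩ := hS.exists_outer_smul hc y0 (ht e he).mem_fam
  obtain ⟨f', hf', H'⟩ := hS.exists_outer_smul hc y0 (ht e' he').mem_fam
  refine ⟨_, _, fun h => hne ?_, H, H', (ht e he).smul hf, (ht e' he').smul hf'⟩
  rw [tri2_smul_sg, tri2_smul_sg] at h
  have h1 : f • e = f' • e' := by
    cases ε
    · exact h
    · exact compl_injective h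
  have h2 : (f'⁻¹ * f) • e = e' := by rw [mul_smul, h1, inv_smul_smul]
  refine (hS.sparse _ (F.mul_mem (F.inv_mem hf') hf) e he e' he' ?_).1
  rw [h2]
  exact (hS.good e' he').1.near_self _

theorem subset_side {y0 : V} {ε : Bool} {o : Set V} (ho : Outer X (fam F E) y0 o)
    (ht : typ F E ε o) : o ⊆ side X F E y0 ε := by
  exact fun _ hx => ⟨o, ho, ht, hx⟩

theorem Sys.cover (hc : IsCubulation G X) (hS : Sys X F E j) (y0 x : V) :
    x ∈ comp (fam F E) y0 ∨ ∃ ε, x ∈ side X F E y0 ε := by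
  by_cases h : Rel (fam F E) y0 x
  · exact Or.inl h
  · obtain ⟨o, ho, hx⟩ := (hS.gfam hc).hfam.exists_outer hc.median h
    obtain ⟨ε, hε⟩ := typ_of_mem_fam ho.1
    exact Or.inr ⟨ε, o, ho, hε, hx⟩

theorem side_disjoint_comp (y0 : V) (ε : Bool) :
    Disjoint (side X F E y0 ε) (comp (fam F E) y0) := by
  rw [Set.disjoint_left]
  rintro x ⟨o, ho, -, hx⟩ hx'
  exact ho.not_mem hx' hx

theorem Sys.side_disjoint (hc : IsCubulation G X) (hS : Sys X F E j) (y0 : V) (ε : Bool) :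
    Disjoint (side X F E y0 ε) (side X F E y0 (!ε)) := by
  rw [Set.disjoint_left]
  rintro x ⟨o, ho, ht, hx⟩ ⟨o', ho', ht', hx'⟩
  by_cases h : o = o'
  · rw [← h] at ht'
    have h1 := hS.typ_unique hc ht ht'
    cases ε <;> simp at h1
  · exact Set.disjoint_left.1
      (ho.disjoint hc.median (hS.gfam hc).hfam ((hS.gfam hc).lam hc.median) ho' h) hx hx'

theorem smul_comp_of_rel {y0 : V} {f : G} (hf : f ∈ F) (H : Rel (fam F E) y0 (f • y0)) :
    f • comp (fam F E) y0 = comp (fam F E) y0 := by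
  rw [smul_comp, smul_fam_of_mem E hf, H.comp_eq]

theorem smul_side_of_rel (hc : IsCubulation G X) {y0 : V} {f : G} (hf : f ∈ F)
    (H : Rel (fam F E) y0 (f • y0)) (ε : Bool) : f • side X F E y0 ε = side X F E y0 ε := by
  have key : ∀ f ∈ F, Rel (fam F E) y0 (f • y0) → ∀ x ∈ side X F E y0 ε,
      f • x ∈ side X F E y0 ε := by
    rintro f hf H x ⟨o, ho, ht, hx⟩
    refine ⟨f • o, ?_, ht.smul hf, Set.smul_mem_smul_set hx⟩
    have h1 := (hc.outer_smul f).2 ho
    rw [smul_fam_of_mem E hf] at h1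
    exact H.outer_iff.2 h1
  have H' : Rel (fam F E) y0 (f⁻¹ • y0) := by
    have h1 := (rel_smul f⁻¹).2 H
    rw [smul_fam_of_mem E (F.inv_mem hf), inv_smul_smul] at h1
    exact h1.symm
  ext x
  rw [Set.mem_smul_set_iff_inv_smul_mem]
  refine ⟨fun h => ?_, key _ (F.inv_mem hf) H' x⟩
  have h1 := key f hf H _ h
  rwa [smul_inv_smul] at h1

/-- an element of `F` moving a point of the component into the component stabilises it -/
theorem rel_of_smul_mem {y0 x : V} {f : G} (hf : f ∈ F) (hx : Rel (fam F E) y0 x)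
    (hfx : Rel (fam F E) y0 (f • x)) : Rel (fam F E) y0 (f • y0) := by
  have h1 := (rel_smul f).2 hx
  rw [smul_fam_of_mem E hf] at h1
  exact hfx.trans h1.symm

/-- every deep halfspace contains a good halfspace missing a given translate of the component -/
theorem Sys.avoid (hc : IsCubulation G X) (hS : Sys X F E j) (y0 : V) (g : G) {h : Set V}
    (hh : IsHalf X h) (hd : Deep X h) :
    ∃ h', Good X h' ∧ h' ⊆ h ∧ ∃ ε, h' ⊆ g • side X F E y0 ε := by
  have hG := hS.gfam hc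
  have hM := hc.median
  obtain ⟨k1, k2, g1, g2, s1, s2, hdis, -⟩ := hS.twoIn h hh hd
  have key : ∀ k, Good X k → k ⊆ h →
      g • y0 ∈ k ∨ ∃ h', Good X h' ∧ h' ⊆ h ∧ ∃ ε, h' ⊆ g • side X F E y0 ε := by
    intro k hk hkh
    obtain ⟨u, hu, huk⟩ := hS.place _ (hk.smul hc g⁻¹).1 (hk.smul hc g⁻¹).2.1
    rcases comp_side (x := y0) hu with h1 | h1
    · left
      have h2 := huk (h1 (Rel.refl _ y0))
      rwa [Set.mem_smul_set_iff_inv_smul_mem, inv_inv] at h2
    · right
      obtain ⟨o, ho, huo⟩ := (hG.lam hM).cvx_sub_outer hM hG.hfam ((hG.1 u hu).1.cvx hM)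
        (hG.1 u hu).1.nonempty h1
      obtain ⟨ε, hε⟩ := typ_of_mem_fam ho.1
      refine ⟨g • u, (hG.1 u hu).smul hc g, ?_, ε,
        Set.smul_set_mono (huo.trans (subset_side ho hε))⟩
      have h2 : g • u ⊆ g • g⁻¹ • k := Set.smul_set_mono huk
      rw [smul_inv_smul] at h2
      exact h2.trans hkh
  rcases key k1 g1 s1 with h1 | h1
  · rcases key k2 g2 s2 with h2 | h2
    · exact (Set.disjoint_left.1 hdis h1 h2).elim
    · exact h2
  · exact h1

end Pool.Agent.Lib.MP_3467cd_al
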