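import Pool.Agent.Lib.MP_3467cd_al.Tri2

open Pointwise

namespace Pool.Agent.Lib.MP_3467cd_al

section Abstract
variable {V : Type} {X : SimpleGraph V} {A B : Set (Set V)} {j : ℕ}

/-- half of the nested case when the components are disjoint -/
theorem nested_of_disjoint (hM : IsMedian X) (hA : GFam X j A) (hB : GFam X j B) {y y' : V}
    (hd : Disjoint (comp A y) (comp B y')) {o o' : Set V} (ho' : Outer X B y' o')
    (h1 : comp B y' ⊆ o) (h2 : comp A y ⊆ o') (ho : Outer X A y o) :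
    ∀ k, Outer X A y k → k ≠ o → k ⊆ o' := by
  intro k hk hne
  have hdk : Disjoint k o := hk.disjoint hM hA.hfam (hA.lam hM) ho hne
  have hkH : IsHalf X k := hA.hfam.1 k hk.1
  obtain ⟨o'', ho'', hsub⟩ := (hB.lam hM).cvx_sub_outer hM hB.hfam (x := y') (hkH.cvx hM)
    hkH.nonempty (hdk.mono_right h1)
  obtain ⟨-, a, ⟨ha, b, hab, hb⟩, hr⟩ := hk
  have hbk : b ∈ k := not_not.1 hb
  have hao : a ∈ o' := h2 hr
  have hbo : b ∈ o' := by
    by_contra e
    have h3 : Rel B y' b :=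
      ho'.inn_rel hM hB.hfam (hB.lam hM) ⟨e, a, hab.symm, fun h => h hao⟩
    exact Set.disjoint_left.1 hdk hbk (h1 h3)
  by_cases e : o'' = o'
  · exact e ▸ hsub
  · exact absurd hbo (Set.disjoint_left.1 (ho''.disjoint hM hB.hfam (hB.lam hM) ho' e) (hsub hbk))

/-- an outer halfspace of the intersection that belongs to `A` is outer for `A` -/
theorem Outer.of_union {x : V} {k : Set V} (H : Outer X (A ∪ B) x k) (hk : k ∈ A) :
    Outer X A x k := by
  obtain ⟨-, a, ha, hr⟩ := H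
  exact ⟨hk, a, ha, (rel_union.1 hr).1⟩

/-- points of the `A`-component outside the `B`-component lie in a `B`-outer halfspace of the
intersection -/
theorem exists_outer_inter (hM : IsMedian X) (hA : HFam X A) (hB : HFam X B) {s y : V}
    (hy : Rel A s y) (hn : ¬ Rel B s y) : ∃ k ∈ B, Outer X (A ∪ B) s k ∧ y ∈ k := by
  obtain ⟨a, b, hab, hr, hk, hyk, h1, h2⟩ := (hA.union hB).exists_outer_btw hM (x := s) (y := y)
    (fun h => hn (rel_union.1 h).2)
  have hb : Rel A s b := hA.comp_cvx hM s s (Rel.refl A s) y hy b h2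
  have hbm : b ∈ half X b a := left_mem_half hab.symm
  have ham : a ∉ half X b a := right_not_mem_half b a
  refine ⟨half X b a, ?_, ⟨hk, a, ⟨ham, b, hab, fun h => h hbm⟩, hr⟩, hyk⟩
  rcases hk with hk | hk
  · exact absurd (((rel_union.1 hr).1 _ hk).1 ((hb _ hk).2 hbm)) ham
  · exact hk

/-- half of the nested case when the intersection is not giant -/
theorem nested_of_not_giant (hM : IsMedian X) (hA : GFam X j A) (hB : GFam X j B) {s : V}
    (hg : ¬ Giant X A B j s) {o o' : Set V} (ho : Outer X (A ∪ B) s o) (hoA : o ∈ A)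
    (ho' : Outer X (A ∪ B) s o') (hoB : o' ∈ B) :
    (∀ k, Outer X A s k → k ≠ o → k ⊆ o') ∧ comp A s ⊆ comp B s ∪ o' := by
  have key : comp A s ⊆ comp B s ∪ o' := by
    intro y hy
    by_cases hn : Rel B s y
    · exact Or.inl hn
    · obtain ⟨k, hkB, hk, hyk⟩ := exists_outer_inter hM hA.hfam hB.hfam hy hn
      by_cases e : k = o'
      · exact Or.inr (e ▸ hyk)
      · rw [Set.union_comm] at hk ho'
        exact absurd (giant_of_two hM hB hA.hfam hk ho' hkB hoB e).symm hg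
  refine ⟨fun k hk hne => ?_, key⟩
  have hkH : IsHalf X k := hA.hfam.1 k hk.1
  have hoH : IsHalf X o' := hB.hfam.1 o' hoB
  have hinn : inn X kᶜ ⊆ o' := by
    intro a ha
    have hr : Rel A s a := hk.inn_rel hM hA.hfam (hA.lam hM) ha
    rcases key hr with h | h
    · exact absurd (giant_of_two hM hA hB.hfam ⟨Or.inl hk.1, a, ha, rel_union.2 ⟨hr, h⟩⟩ ho hk.1
        hoA hne) hg
    · exact h
  have hsk : s ∉ k := hk.not_mem (Rel.refl A s)
  have hso : s ∉ o' := ho'.not_mem (Rel.refl _ s)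
  intro y hy
  by_contra hyo
  obtain ⟨-, a, ha, -⟩ := hk
  have hao : a ∈ o' := hinn ha
  obtain ⟨hak, b, hab, hb⟩ := ha
  have hbo : b ∈ o' := by
    by_contra e
    have h1 := hoH.half_eq hM hab hao e
    have h2 := (hkH.compl hM).half_eq hM hab hak hb
    exact hso (h1 ▸ h2.symm ▸ hsk)
  have hx : Cross kᶜ o'ᶜ := Cross.compl_left (Cross.compl_right
    ⟨⟨b, not_not.1 hb, hbo⟩, ⟨y, hy, hyo⟩, ⟨a, hak, hao⟩, ⟨s, hsk, hso⟩⟩)
  obtain ⟨c, hc1, hc2⟩ := hx.inn_inter hM (hkH.compl hM) (hoH.compl hM)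
  exact hc2.1 (hinn hc1)

theorem exists_outer_of_not_giant (hM : IsMedian X) (hA : GFam X j A) (hB : GFam X j B) {s : V}
    (hg : ¬ Giant X A B j s) (h2 : ∃ o1 o2, o1 ≠ o2 ∧ Outer X A s o1 ∧ Outer X A s o2) :
    ∃ o' ∈ B, Outer X (A ∪ B) s o' := by
  obtain ⟨o1, o2, hne, ⟨m1, a1, ha1, r1⟩, ⟨m2, a2, ha2, r2⟩⟩ := h2
  by_cases e1 : Rel B s a1
  · by_cases e2 : Rel B s a2
    · exact absurd (giant_of_two hM hA hB.hfam ⟨Or.inl m1, a1, ha1, rel_union.2 ⟨r1, e1⟩⟩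
        ⟨Or.inl m2, a2, ha2, rel_union.2 ⟨r2, e2⟩⟩ m1 m2 hne) hg
    · obtain ⟨k, h1, h2, -⟩ := exists_outer_inter hM hA.hfam hB.hfam r2 e2
      exact ⟨k, h1, h2⟩
  · obtain ⟨k, h1, h2, -⟩ := exists_outer_inter hM hA.hfam hB.hfam r1 e1
    exact ⟨k, h1, h2⟩

end Abstract

variable {G : Type} [Group G] {V : Type} [MulAction G V] {X : SimpleGraph V}
  {F : Subgroup G} {E : Set (Set V)} {j : ℕ}

theorem Sys.caseN_of_disjoint (hc : IsCubulation G X) (hS : Sys X F E j) (y0 : V) (g : G)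
    (hd : Disjoint (comp (fam F E) y0) (g • comp (fam F E) y0)) : CaseN X F E y0 g := by
  have hM := hc.median
  have hA := hS.gfam hc
  have hB := hA.smul hc g
  rw [smul_comp] at hd
  obtain ⟨o'', ho'', h2⟩ := (hB.lam hM).cvx_sub_outer hM hB.hfam (hA.hfam.comp_cvx hM y0)
    ⟨y0, Rel.refl _ y0⟩ hd
  obtain ⟨o, ho, h1⟩ := (hA.lam hM).cvx_sub_outer hM hA.hfam (hB.hfam.comp_cvx hM (g • y0))
    ⟨g • y0, Rel.refl _ _⟩ hd.symm
  obtain ⟨o', rfl⟩ : ∃ o', o'' = g • o' := ⟨g⁻¹ • o'', (smul_inv_smul g o'').symm⟩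
  refine ⟨o, o', ho, (hc.outer_smul g).1 ho'', nested_of_disjoint hM hA hB hd ho'' h1 h2 ho,
    fun k hk hne => ?_, fun y hy => Or.inr (h2 hy), fun y hy => Or.inr (h1 ?_)⟩
  · exact nested_of_disjoint hM hB hA hd.symm ho h2 h1 ho'' _ ((hc.outer_smul g).2 hk)
      (fun e => hne (MulAction.injective g e))
  · rwa [smul_comp] at hy

theorem Sys.caseN_of_not_giant (hc : IsCubulation G X) (hS : Sys X F E j) (y0 : V) (g : G)
    {s : V} (h1 : s ∈ comp (fam F E) y0) (h2 : s ∈ g • comp (fam F E) y0)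
    (hg : ¬ Giant X (fam F E) (g • fam F E) j s) : CaseN X F E y0 g := by
  have hM := hc.median
  have hA := hS.gfam hc
  have hB := hA.smul hc g
  rw [smul_comp] at h2
  have r1 : Rel (fam F E) y0 s := h1
  have r2 : Rel (g • fam F E) (g • y0) s := h2
  have hg' : ¬ Giant X (g • fam F E) (fam F E) j s := fun h => hg h.symm
  obtain ⟨p1, p2, hp, hp1, hp2, -⟩ := hS.two_outer hc y0 true
  obtain ⟨o'', mo'', ho''⟩ := exists_outer_of_not_giant hM hA hB hg
    ⟨p1, p2, hp, r1.outer_iff.1 hp1, r1.outer_iff.1 hp2⟩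
  obtain ⟨o, mo, ho⟩ := exists_outer_of_not_giant hM hB hA hg'
    ⟨g • p1, g • p2, fun e => hp (MulAction.injective g e),
      r2.outer_iff.1 ((hc.outer_smul g).2 hp1), r2.outer_iff.1 ((hc.outer_smul g).2 hp2)⟩
  obtain ⟨o', rfl⟩ : ∃ o', o'' = g • o' := ⟨g⁻¹ • o'', (smul_inv_smul g o'').symm⟩
  have ho1 : Outer X (fam F E ∪ g • fam F E) s o := by rwa [Set.union_comm] at ho
  have ho2 : Outer X (g • fam F E ∪ fam F E) s (g • o') := by rwa [Set.union_comm] at ho''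
  obtain ⟨n1, n2⟩ := nested_of_not_giant hM hA hB hg ho1 mo ho'' mo''
  obtain ⟨n3, n4⟩ := nested_of_not_giant hM hB hA hg' ho2 mo'' ho mo
  refine ⟨o, o', r1.outer_iff.2 (ho1.of_union mo),
    (hc.outer_smul g).1 (r2.outer_iff.2 (ho2.of_union mo'')),
    fun k hk hne => n1 k (r1.outer_iff.1 hk) hne, fun k hk hne => ?_, ?_, ?_⟩
  · exact n3 _ (r2.outer_iff.1 ((hc.outer_smul g).2 hk)) (fun e => hne (MulAction.injective g e))
  · rw [smul_comp, r1.comp_eq, r2.comp_eq]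
    exact n2
  · rw [smul_comp, r1.comp_eq, r2.comp_eq]
    exact n4

theorem tri3_conj (hS : Sys X F E j) (g : G) {f : G} (hf : f ∈ F) : g⁻¹ * f * g ∈ F := by
  simpa only [inv_inv] using hS.normal.conj_mem f hf g⁻¹

theorem tri3_smul_fam (hS : Sys X F E j) (g : G) {f : G} (hf : f ∈ F) :
    f • g • fam F E = g • fam F E := by
  conv_rhs => rw [← smul_fam_of_mem E (tri3_conj hS g hf)]
  simp only [smul_smul, mul_assoc, mul_inv_cancel_left]

theorem tri3_typ (hS : Sys X F E j) (g : G) {f : G} (hf : f ∈ F) {ε : Bool} {k : Set V}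
    (H : typ F E ε (g⁻¹ • k)) : typ F E ε (g⁻¹ • f • k) := by
  have := H.smul (tri3_conj hS g hf)
  simpa only [smul_smul, mul_assoc, mul_inv_cancel, mul_one] using this

theorem tri3_edge (hc : IsCubulation G X) (hS : Sys X F E j) (y0 : V) (g : G)
    {s : V} (h1 : s ∈ comp (fam F E) y0) (h2 : s ∈ g • comp (fam F E) y0)
    (hg : Giant X (fam F E) (g • fam F E) j s) {u' : Set V} (hu : u' ∈ g • fam F E)
    (hu' : u' ∉ fam F E) {x x' : V} (hx : X.Adj x x') (m1 : x ∉ u') (m2 : x' ∈ u')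
    (g1 : Giant X (fam F E) (g • fam F E) j x) (g2 : Giant X (fam F E) (g • fam F E) j x')
    {τ : Bool} (hτ : typ F E τ (g⁻¹ • u')) :
    ∃ o', Outer X (fam F E) y0 o' ∧ typ F E τ o' ∧
      ∃ f ∈ F, Rel (fam F E) y0 (f • y0) ∧ f • (g • o') ⊂ g • o' := by
  have hM := hc.median
  have hA := hS.gfam hc
  have hB := hA.smul hc g
  rw [smul_comp] at h2
  have r1 : Rel (fam F E) y0 s := h1
  have r2 : Rel (g • fam F E) (g • y0) s := h2
  obtain ⟨f1, hf1, q1⟩ := hS.uniq g s x hg g1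
  obtain ⟨f2, hf2, q2⟩ := hS.uniq g s x' hg g2
  obtain ⟨q1A, q1B⟩ := rel_union.1 q1
  obtain ⟨q2A, q2B⟩ := rel_union.1 q2
  have hf : f1 * f2⁻¹ ∈ F := F.mul_mem hf1 (F.inv_mem hf2)
  have huH : IsHalf X u' := hB.hfam.1 u' hu
  have hxx : Rel (fam F E) x' x := by
    refine hA.hfam.rel_of_adj hM hx.symm ?_
    rwa [huH.half_eq hM hx.symm m2 m1]
  have hxx1 : Rel (fam F E) (f1 • x') (f1 • x) := by
    have := (rel_smul f1).2 hxx
    rwa [smul_fam_of_mem E hf1] at this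
  have hmove : (f1 * f2⁻¹) • f2 • x' = f1 • x' := by
    rw [smul_smul, inv_mul_cancel_right]
  have o0 : Outer X (g • fam F E) x u' := ⟨hu, x, ⟨m1, x', hx, fun h => h m2⟩, Rel.refl _ _⟩
  have o0' : Outer X (g • fam F E) x' u'ᶜ :=
    outer_of_inn (hB.2.1 _ hu) ⟨m2, x, hx.symm, m1⟩
  have o1 : Outer X (g • fam F E) s (f1 • u') := by
    have := (hc.outer_smul f1).2 o0
    rw [tri3_smul_fam hS g hf1] at this
    exact q1B.outer_iff.1 this
  have o2 : Outer X (g • fam F E) (f1 • x') ((f1 * f2⁻¹) • f1 • u') := by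
    have := (hc.outer_smul (f1 * f2⁻¹)).2 (q2B.outer_iff.2 o1)
    rwa [tri3_smul_fam hS g hf, hmove] at this
  have o3 : Outer X (g • fam F E) (f1 • x') (f1 • u'ᶜ) := by
    have := (hc.outer_smul f1).2 o0'
    rwa [tri3_smul_fam hS g hf1] at this
  have t1 : typ F E τ (g⁻¹ • f1 • u') := tri3_typ hS g hf1 hτ
  have t2 : typ F E τ (g⁻¹ • (f1 * f2⁻¹) • f1 • u') := tri3_typ hS g hf t1
  have t3 : typ F E (!τ) (g⁻¹ • f1 • u'ᶜ) := by
    refine tri3_typ hS g hf1 ?_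
    rw [Set.smul_set_compl]
    exact hτ.compl
  have hne : (f1 * f2⁻¹) • f1 • u' ≠ f1 • u'ᶜ := by
    intro e
    rw [e] at t2
    have := hS.typ_unique hc t2 t3
    cases τ <;> simp at this
  have hdis := o2.disjoint hM hB.hfam (hB.lam hM) o3 hne
  rw [Set.smul_set_compl, Set.disjoint_compl_right_iff_subset] at hdis
  refine ⟨g⁻¹ • f1 • u', ?_, t1, f1 * f2⁻¹, hf, ?_, ?_⟩
  · refine (hc.outer_smul g).1 ?_
    rw [smul_inv_smul]
    exact r2.outer_iff.2 o1
  · refine rel_of_smul_mem hf (r1.trans q2A.symm) ?_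
    rw [hmove]
    exact (r1.trans q1A.symm).trans hxx1.symm
  · rw [smul_inv_smul]
    refine ⟨hdis, fun h => ?_⟩
    exact o2.not_mem (Rel.refl _ _) (h (Set.smul_mem_smul_set m2))

theorem Sys.caseX_of_edge (hc : IsCubulation G X) (hS : Sys X F E j) (y0 : V) (g : G)
    {s : V} (h1 : s ∈ comp (fam F E) y0) (h2 : s ∈ g • comp (fam F E) y0)
    (hg : Giant X (fam F E) (g • fam F E) j s) {u' : Set V} (hu : u' ∈ g • fam F E)
    (hu' : u' ∉ fam F E) {x x' : V} (hx : X.Adj x x') (m1 : x ∉ u') (m2 : x' ∈ u')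
    (g1 : Giant X (fam F E) (g • fam F E) j x) (g2 : Giant X (fam F E) (g • fam F E) j x') :
    CaseX X F E y0 g := by
  refine ⟨⟨s, h1, h2⟩, fun ε => ?_⟩
  obtain ⟨τ, hτ⟩ := typ_of_mem_fam (Set.mem_smul_set_iff_inv_smul_mem.1 hu)
  by_cases e : ε = τ
  · exact e ▸ tri3_edge hc hS y0 g h1 h2 hg hu hu' hx m1 m2 g1 g2 hτ
  · have e' : ε = !τ := by
      cases ε <;> cases τ <;> simp_all
    have hτ' := hτ.compl
    rw [← Set.smul_set_compl] at hτ'
    have hn : u'ᶜ ∉ fam F E := fun h => hu' (by simpa only [compl_compl] using compl_mem_fam h)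
    exact e' ▸ tri3_edge hc hS y0 g h1 h2 hg (((hS.gfam hc).smul hc g).2.1 _ hu) hn hx.symm
      (fun h => h m2) m1 g2 g1 hτ'

end Pool.Agent.Lib.MP_3467cd_al
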