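import Pool.Agent.Lib.MP_3467cd_al.Tri3

open Pointwise

namespace Pool.Agent.Lib.MP_3467cd_al

variable {G : Type} [Group G] {V : Type} [MulAction G V] {X : SimpleGraph V}
  {F : Subgroup G} {E : Set (Set V)} {j : ℕ}

theorem tri4_far (hM : IsMedian X) {k k' : Set V} (hk : k' ⊆ k) {z : V}
    (hz : ∀ y, y ∉ k' → j + 2 ≤ X.dist z y) : ∀ b ∈ car X k, j < X.dist z b := by
  intro b hb
  obtain ⟨b', h1, -, h2⟩ := car_edge hb
  by_cases h : b ∈ k
  · have h3 := hz b' fun h' => h2 ⟨fun _ => hk h', fun _ => h⟩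
    have h4 := hM.tri z b b'
    rw [dist_of_adj h1] at h4
    omega
  · have h3 := hz b fun h' => h (hk h')
    omega

theorem tri4_iff {u' u : Set V} (H : Match X j u' u) {z : V}
    (hz : ∀ b ∈ car X u', j < X.dist z b) : z ∈ u' ↔ z ∈ u := by
  by_contra h
  obtain ⟨-, b, h1, h2⟩ := H z h
  exact absurd (hz b h1) (not_lt.2 h2)

theorem tri4_car_sg (ε : Bool) (s : Set V) : car X (sg ε s) = car X s := by
  cases ε
  · rfl
  · exact car_compl s

theorem tri4_smul_sg (g : G) (ε : Bool) (s : Set V) : g • sg ε s = sg ε (g • s) := by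
  cases ε
  · rfl
  · exact Set.smul_set_compl

theorem tri4_mem (hF : F.Normal) (g : G) {f : G} (hf : f ∈ F) {e : Set V} (he : e ∈ E) :
    f • g • e ∈ g • fam F E := by
  refine ⟨(g⁻¹ * f * g) • e, smul_mem_fam (mem_fam_self F he) (hF.conj_mem' f hf g), ?_⟩
  simp only [smul_smul, mul_assoc, mul_inv_cancel_left]

theorem tri4_typ (hc : IsCubulation G X) (hS : Sys X F E j) (g : G) {e e' : Set V}
    (he : e ∈ E) (he' : e' ∈ E) (hsub : e' ⊆ e) {u u' : Set V} {ε ε' : Bool} (t : typ F E ε u)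
    (t' : typ F E ε' u') (H : Match X j (g • e) u) (H' : Match X j (g • e') u') : ε = ε' := by
  have hM := hc.median
  have hu := (good_of_mem_fam hc hS.good t.mem_fam).1
  have hu' := (good_of_mem_fam hc hS.good t'.mem_fam).1
  obtain ⟨f, hf, a, ha, rfl⟩ := t
  obtain ⟨f', hf', a', ha', rfl⟩ := t'
  obtain ⟨R, hR, hcmp⟩ := hS.cmp
  obtain ⟨b, hb, b', hb', hd⟩ := (hc.near_smul g).2 (hR e he e' he')
  obtain ⟨c, hc1, hc2⟩ := H.car_near hM hu hb
  obtain ⟨c', hc1', hc2'⟩ := H'.car_near hM hu' hb'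
  rw [tri4_car_sg] at hc1 hc1'
  have hn : Near X (R + 2 * j + 2) (f • a) (f' • a') := by
    refine ⟨c, hc1, c', hc1', ?_⟩
    have h1 := hM.tri c b c'
    have h2 := hM.tri b b' c'
    rw [X.dist_comm (u := c) (v := b)] at h1
    omega
  have hcomp : f • a ⊆ f' • a' ∨ f' • a' ⊆ f • a := by
    have e1 : f • a = f' • (f'⁻¹ * f) • a := by rw [smul_smul, mul_inv_cancel_left]
    rw [e1, hc.near_smul] at hn
    rw [e1, Set.smul_set_subset_smul_set_iff, Set.smul_set_subset_smul_set_iff]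
    exact hcmp _ (mul_mem (inv_mem hf') hf) a ha a' ha' hn
  have hs : g • e' ⊆ g • e := Set.smul_set_mono hsub
  obtain ⟨z, hz, hz'⟩ := ((hS.good e' he').smul hc g).2.1 (j + 2)
  obtain ⟨w, hw, hw'⟩ := ((hS.good e he).smul hc g).2.2 (j + 2)
  have z1 := (tri4_iff H (tri4_far hM hs hz')).1 (hs hz)
  have z2 := (tri4_iff H' (tri4_far hM subset_rfl hz')).1 hz
  have w1 := (tri4_iff H.compl (tri4_far hM subset_rfl hw')).1 hw
  have w2 := (tri4_iff H'.compl (tri4_far hM (Set.compl_subset_compl.2 hs) hw')).1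
    fun h => hw (hs h)
  cases ε <;> cases ε'
  · rfl
  · exact (hcomp.elim (fun h => z2 (h z1)) fun h => w2 fun h' => w1 (h h')).elim
  · exact (hcomp.elim (fun h => w1 fun h' => w2 (h h')) fun h => z1 (h z2)).elim
  · rfl

/-- matching is injective on a sparse family of good halfspaces -/
theorem Match.unique (hM : IsMedian X) {B : Set (Set V)} (hB : GFam X j B) {u u1 u2 : Set V}
    (hu : IsHalf X u) (m1 : u1 ∈ B) (m2 : u2 ∈ B) (H1 : Match X j u1 u) (H2 : Match X j u2 u) :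
    u1 = u2 := by
  obtain ⟨b, hb⟩ := hu.inn_nonempty
  obtain ⟨c1, h1, d1⟩ := H1.symm.car_near hM (hB.1 u1 m1).1 (inn_subset_car u hb)
  obtain ⟨c2, h2, d2⟩ := H2.symm.car_near hM (hB.1 u2 m2).1 (inn_subset_car u hb)
  have hn : Near X (4 * j + 4) u1 u2 := by
    refine ⟨c1, h1, c2, h2, ?_⟩
    have h3 := hM.tri c1 b c2
    rw [X.dist_comm (u := c1) (v := b)] at h3
    omega
  rcases hB.2.2 u1 m1 u2 m2 hn with e | e
  · exact e.symm
  · subst e
    obtain ⟨z, hz, hz'⟩ := (hB.1 u1 m1).2.1.exists_far hM j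
    have h4 := (tri4_iff H1 hz').1 hz
    exact absurd hz ((tri4_iff H2 (by rwa [car_compl])).2 h4)

/-- matches of two members of the chain have the same type -/
theorem Sys.match_typ (hc : IsCubulation G X) (hS : Sys X F E j) (g : G) {e e' : Set V}
    (he : e ∈ E) (he' : e' ∈ E) {u u' : Set V} {ε ε' : Bool} (t : typ F E ε u)
    (t' : typ F E ε' u') (H : Match X j (g • e) u) (H' : Match X j (g • e') u') : ε = ε' := by
  rcases hS.chain e he e' he' with h | h
  · exact (tri4_typ hc hS g he' he h t' t H' H).symm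
  · exact tri4_typ hc hS g he he' h t t' H H'

/-- the matching is onto -/
theorem Sys.match_surj (hc : IsCubulation G X) (hS : Sys X F E j) (g : G)
    (H : ∀ u' ∈ g • fam F E, ∃ u ∈ fam F E, Match X j u' u) :
    ∀ u ∈ fam F E, ∃ u' ∈ g • fam F E, Match X j u' u := by
  have h0 : ∀ e : E, ∃ (a : E) (ε : Bool) (f : G), f ∈ F ∧
      Match X j (g • (e : Set V)) (sg ε (f • (a : Set V))) := by
    intro e
    obtain ⟨u, hu, hm⟩ := H _ (Set.smul_mem_smul_set (mem_fam_self F e.2))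
    obtain ⟨ε, f, hf, a, ha, rfl⟩ := typ_of_mem_fam hu
    exact ⟨⟨a, ha⟩, ε, f, hf, hm⟩
  choose π ε f hf hm using h0
  have hmove : ∀ (e : E) (f' : G), Match X j ((f' * (f e)⁻¹) • g • (e : Set V))
      (sg (ε e) (f' • (π e : Set V))) := by
    intro e f'
    have h1 := (hm e).smul hc (f' * (f e)⁻¹)
    rwa [tri4_smul_sg, smul_smul _ (f e), inv_mul_cancel_right] at h1
  have hinj : Function.Injective π := by
    intro e e' h
    have t : typ F E (ε e) (sg (ε e) (f e • (π e : Set V))) := ⟨f e, hf e, π e, (π e).2, rfl⟩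
    have t' : typ F E (ε e') (sg (ε e') (f e' • (π e' : Set V))) :=
      ⟨f e', hf e', π e', (π e').2, rfl⟩
    have h1 := hS.match_typ hc g e.2 e'.2 t t' (hm e) (hm e')
    have h2 := hmove e (f e')
    rw [h, h1] at h2
    have hk : f e' * (f e)⁻¹ ∈ F := mul_mem (hf e') (inv_mem (hf e))
    have h3 := Match.unique hc.median ((hS.gfam hc).smul hc g)
      (good_of_mem_fam hc hS.good t'.mem_fam).1 (tri4_mem hS.normal g hk e.2)
      (Set.smul_mem_smul_set (mem_fam_self F e'.2)) h2 (hm e')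
    have h4 : (g⁻¹ * (f e' * (f e)⁻¹) * g) • (e : Set V) = e' := by
      rw [mul_smul, mul_smul, h3, inv_smul_smul]
    refine Subtype.ext (hS.sparse _ (hS.normal.conj_mem' _ hk g) e e.2 e' e'.2 ?_).1
    rw [h4]
    exact (hS.good e' e'.2).1.near_self _
  have := hS.fin.to_subtype
  have hsurj := Finite.injective_iff_surjective.1 hinj
  intro u hu
  obtain ⟨δ, f', hf', a, ha, rfl⟩ := typ_of_mem_fam hu
  obtain ⟨e, he⟩ := hsurj ⟨a, ha⟩
  have h1 := hmove e f'
  rw [he] at h1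
  have h2 := tri4_mem hS.normal g (mul_mem hf' (inv_mem (hf e))) e.2
  by_cases hδ : ε e = δ
  · exact ⟨_, h2, hδ ▸ h1⟩
  · refine ⟨_, ((hS.gfam hc).smul hc g).2.1 _ h2, ?_⟩
    have h3 := h1.compl
    have h4 : (sg (ε e) (f' • a))ᶜ = sg δ (f' • a) := by
      revert hδ
      cases ε e <;> cases δ <;> simp [sg]
    rwa [h4] at h3

/-- the matching preserves all types or reverses all types -/
theorem Sys.match_sign (hc : IsCubulation G X) (hS : Sys X F E j) (g : G)
    (H : ∀ u' ∈ g • fam F E, ∃ u ∈ fam F E, Match X j u' u) :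
    ∃ η : Bool, ∀ ε o, typ F E ε o → ∃ u, typ F E (xor ε η) u ∧ Match X j (g • o) u := by
  obtain ⟨e0, he0, -⟩ := hS.two
  obtain ⟨u0, hu0, hm0⟩ := H _ (Set.smul_mem_smul_set (mem_fam_self F he0))
  obtain ⟨η, t0⟩ := typ_of_mem_fam hu0
  refine ⟨η, ?_⟩
  rintro ε o ⟨f, hf, e, he, rfl⟩
  obtain ⟨u, hu, hm⟩ := H _ (Set.smul_mem_smul_set (mem_fam_self F he))
  obtain ⟨η', t⟩ := typ_of_mem_fam hu
  obtain rfl := hS.match_typ hc g he he0 t t0 hm hm0
  have hk := hS.normal.conj_mem f hf g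
  have h1 := hm.smul hc (g * f * g⁻¹)
  rw [smul_smul, inv_mul_cancel_right, mul_smul] at h1
  rw [tri4_smul_sg]
  cases ε
  · exact ⟨_, by simpa using t.smul hk, h1⟩
  · exact ⟨_, by simpa using (t.smul hk).compl, h1.compl⟩

end Pool.Agent.Lib.MP_3467cd_al
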