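import Pool.Agent.Lib.MP_3467cd_al.Tri4

open Pointwise

namespace Pool.Agent.Lib.MP_3467cd_al

section Abstract
variable {V : Type} {X : SimpleGraph V} {A B : Set (Set V)} {j : ℕ}

theorem tri5_near (hM : IsMedian X) {u k : Set V} {c x : V} {r : ℕ} (hc : c ∈ car X u)
    (h : ¬ (c ∈ k ↔ x ∈ k)) (hd : X.dist c x ≤ r) : Near X r u k := by
  obtain ⟨b, hb, h1, -⟩ := hM.exists_car_le h
  exact ⟨c, hc, b, hb, h1.trans hd⟩

theorem tri5_not_mem {s : V} (cA : Clear X A j s) {o' u : Set V} (hu : u ∈ A)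
    (H : Match X j o' u) (hs : s ∉ o') : s ∉ u := by
  intro h
  obtain ⟨⟨e, he, hd⟩, -⟩ := H s fun hh => hs (hh.2 h)
  exact absurd (cA u hu e he) (not_lt.2 hd)

/-- the match of an outer halfspace is an outer halfspace -/
theorem outer_of_match (hM : IsMedian X) (hA : GFam X j A) (hB : GFam X j B) {s : V}
    (cA : Clear X A j s) (hsurj : ∀ u ∈ A, ∃ u' ∈ B, Match X j u' u) {o' u : Set V}
    (ho' : Outer X B s o') (hu : u ∈ A) (H : Match X j o' u) : Outer X A s u := by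
  have hs' : s ∉ o' := ho'.not_mem (Rel.refl B s)
  have hsu : s ∉ u := tri5_not_mem cA hu H hs'
  have huh : IsHalf X u := hA.hfam.1 u hu
  obtain ⟨o1, ho1, hsub⟩ := (hA.lam hM).cvx_sub_outer hM hA.hfam (x := s) (huh.cvx hM)
    huh.nonempty (Set.disjoint_left.2 fun y hy hr => hsu ((hr u hu).2 hy))
  by_cases hne : u = o1
  · rw [hne]; exact ho1
  exfalso
  have hnn : ¬ Near X (4 * j + 4) u o1 := by
    intro hn
    rcases hA.2.2 u hu o1 ho1.1 hn with h | h
    · exact hne h.symm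
    · obtain ⟨z, hz⟩ := huh.nonempty
      have := hsub hz
      rw [h] at this
      exact this hz
  obtain ⟨b, hb, hrb⟩ := ho'.2
  obtain ⟨c, hc, hbc⟩ := H.car_near hM huh (inn_compl_subset_car _ hb)
  obtain ⟨u2, hu2, H2⟩ := hsurj o1 ho1.1
  have hs1 : s ∉ o1 := ho1.not_mem (Rel.refl A s)
  have hs2 : s ∉ u2 := by
    intro h
    obtain ⟨⟨e, he, hd⟩, -⟩ := H2 s fun hh => hs1 (hh.1 h)
    exact absurd (cA o1 ho1.1 e he) (not_lt.2 hd)
  have hb2 : b ∉ u2 := fun h => hs2 ((hrb u2 hu2).2 h)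
  have hcb : X.dist c b ≤ j + 1 := by rwa [X.dist_comm]
  apply hnn
  by_cases hb1 : b ∈ o1
  · obtain ⟨⟨e, he, hd⟩, -⟩ := H2 b fun hh => hb2 (hh.2 hb1)
    refine ⟨c, hc, e, he, ?_⟩
    have := hM.tri c b e
    omega
  · by_cases hc1 : c ∈ o1
    · exact tri5_near hM hc (x := b) (fun hh => hb1 (hh.1 hc1)) (by omega)
    · obtain ⟨c', hcc, -, hx⟩ := car_edge hc
      have hc' : c' ∈ o1 := by
        by_contra h
        exact hx ⟨fun h1 => absurd (hsub h1) hc1, fun h1 => absurd (hsub h1) h⟩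
      exact tri5_near hM hc (x := c') (fun hh => hc1 (hh.2 hc')) (by rw [dist_of_adj hcc]; omega)

theorem eq_of_match_of_inter (hM : IsMedian X) (hA : GFam X j A) {s : V} {o o' u : Set V}
    (ho : Outer X A s o) (hu : Outer X A s u) (H : Match X j o' u)
    (hne : (o ∩ o').Nonempty) : o = u := by
  by_contra hou
  obtain ⟨z, hz, hz'⟩ := hne
  have hd : Disjoint o u := ho.disjoint hM hA.hfam (hA.lam hM) hu hou
  have hzu : z ∉ u := Set.disjoint_left.1 hd hz
  obtain ⟨⟨b, hb, hzb⟩, -⟩ := H z fun hh => hzu (hh.1 hz')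
  have hn : Near X (4 * j + 4) u o := by
    by_cases hbo : b ∈ o
    · obtain ⟨b', hbb, -, hx⟩ := car_edge hb
      have hbu : b ∉ u := Set.disjoint_left.1 hd hbo
      have hb' : b' ∈ u := by
        by_contra h
        exact hx ⟨fun h1 => absurd h1 hbu, fun h1 => absurd h1 h⟩
      exact tri5_near hM hb (x := b') (fun hh => Set.disjoint_left.1 hd (hh.1 hbo) hb')
        (by rw [dist_of_adj hbb]; omega)
    · refine tri5_near hM hb (x := z) (fun hh => hbo (hh.2 hz)) ?_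
      rw [X.dist_comm]
      omega
  exact hou (hu.eq_of_sameH ho (hA.2.2 u hu.1 o ho.1 hn)).symm

theorem comp_near_of_match (hM : IsMedian X) (hA : GFam X j A) {s : V} (cA : Clear X A j s)
    (hsurj : ∀ u ∈ A, ∃ u' ∈ B, Match X j u' u) {y : V} (hy : Rel B s y) :
    ∃ y', Rel A s y' ∧ X.dist y y' ≤ j + 1 := by
  by_cases hr : Rel A s y
  · exact ⟨y, hr, by simp⟩
  obtain ⟨k, hk, hyk⟩ := hA.hfam.exists_outer hM hr
  obtain ⟨u, hu, H⟩ := hsurj k hk.1
  have hs1 : s ∉ k := hk.not_mem (Rel.refl A s)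
  have hs2 : s ∉ u := by
    intro h
    obtain ⟨⟨e, he, hd⟩, -⟩ := H s fun hh => hs1 (hh.1 h)
    exact absurd (cA k hk.1 e he) (not_lt.2 hd)
  have hyu : y ∉ u := fun h => hs2 ((hy u hu).2 h)
  obtain ⟨⟨b, hb, hd⟩, -⟩ := H y fun hh => hyu (hh.2 hyk)
  rcases hb with hb | hb
  · obtain ⟨b', hbb, hb'⟩ := inn_partner hb
    refine ⟨b', hk.inn_rel hM hA.hfam (hA.lam hM) hb', ?_⟩
    have := hM.tri y b b'
    rw [dist_of_adj hbb] at this
    omega
  · exact ⟨b, hk.inn_rel hM hA.hfam (hA.lam hM) hb, by omega⟩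

end Abstract

variable {G : Type} [Group G] {V : Type} [MulAction G V] {X : SimpleGraph V}
  {F : Subgroup G} {E : Set (Set V)} {j : ℕ}

theorem Sys.caseQ_of_match (hc : IsCubulation G X) (hS : Sys X F E j) (y0 : V) (g : G)
    {s : V} (h1 : s ∈ comp (fam F E) y0) (h2 : s ∈ g • comp (fam F E) y0)
    (hg : Giant X (fam F E) (g • fam F E) j s)
    (H : ∀ u' ∈ g • fam F E, ∃ u ∈ fam F E, Match X j u' u) : CaseQ X F E j y0 g := by
  have hM := hc.median
  have hA := hS.gfam hc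
  have hB := hA.smul hc g
  obtain ⟨s', hss, cA, -⟩ := hS.both g s hg
  rw [rel_union] at hss
  rw [smul_comp] at h2
  have r1 : Rel (fam F E) y0 s' := Rel.trans h1 hss.1
  have r2 : Rel (g • fam F E) (g • y0) s' := Rel.trans h2 hss.2
  have hsurj := hS.match_surj hc g H
  obtain ⟨η, hη⟩ := hS.match_sign hc g H
  have key : ∀ ε1 ε2 x, x ∈ side X F E y0 ε1 → x ∈ g • side X F E y0 ε2 → ε1 = xor ε2 η := by
    rintro ε1 ε2 x ⟨o, ho, ht, hx⟩ ⟨x0, ⟨o2, ho2, ht2, hx0⟩, rfl⟩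
    obtain ⟨u, htu, hm⟩ := hη ε2 o2 ht2
    have h3 : Outer X (g • fam F E) s' (g • o2) := r2.outer_iff.1 ((hc.outer_smul g).2 ho2)
    have h4 := outer_of_match hM hA hB cA hsurj h3 htu.mem_fam hm
    have h5 := eq_of_match_of_inter hM hA (r1.outer_iff.1 ho) h4 hm
      ⟨_, hx, Set.smul_mem_smul_set hx0⟩
    rw [← h5] at htu
    exact hS.typ_unique hc ht htu
  refine ⟨?_, fun y hy => ?_⟩
  · cases η
    · refine Or.inl fun ε => Set.disjoint_left.2 fun x a b => ?_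
      have := key _ _ x a b
      cases ε <;> simp at this
    · refine Or.inr fun ε => Set.disjoint_left.2 fun x a b => ?_
      have := key _ _ x a b
      cases ε <;> simp at this
  · rw [smul_comp] at hy
    obtain ⟨y', hy', hd⟩ := comp_near_of_match hM hA cA hsurj (r2.symm.trans hy)
    exact ⟨y', r1.trans hy', hd⟩

theorem Sys.trichotomy (hc : IsCubulation G X) (hS : Sys X F E j) (y0 : V) (g : G) :
    CaseN X F E y0 g ∨ CaseX X F E y0 g ∨ CaseQ X F E j y0 g := by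
  by_cases hd : Disjoint (comp (fam F E) y0) (g • comp (fam F E) y0)
  · exact Or.inl (hS.caseN_of_disjoint hc y0 g hd)
  obtain ⟨s, h1, h2⟩ := Set.not_disjoint_iff.1 hd
  by_cases hg : Giant X (fam F E) (g • fam F E) j s
  swap
  · exact Or.inl (hS.caseN_of_not_giant hc y0 g h1 h2 hg)
  by_cases he : ∃ u' ∈ g • fam F E, u' ∉ fam F E ∧ ∃ x x', X.Adj x x' ∧ x ∉ u' ∧ x' ∈ u' ∧
      Giant X (fam F E) (g • fam F E) j x ∧ Giant X (fam F E) (g • fam F E) j x'
  · obtain ⟨u', hu, hu', x, x', hx, m1, m2, g1, g2⟩ := he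
    exact Or.inr (Or.inl (hS.caseX_of_edge hc y0 g h1 h2 hg hu hu' hx m1 m2 g1 g2))
  · refine Or.inr (Or.inr (hS.caseQ_of_match hc y0 g h1 h2 hg fun u' hu => ?_))
    exact exists_match hc.median (hS.gfam hc) ((hS.gfam hc).smul hc g) hu
      fun hu' x x' hx m1 m2 hh => he ⟨u', hu, hu', x, x', hx, m1, m2, hh.1, hh.2⟩

end Pool.Agent.Lib.MP_3467cd_al
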