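import Pool.Agent.Lib.MP_3467cd_al.Key

open Pointwise

namespace Pool.Agent.Lib.MP_3467cd_al

variable {G : Type} [Group G] {V : Type} [MulAction G V] {X : SimpleGraph V}
  {F : Subgroup G} {E : Set (Set V)} {j : ℕ}

theorem wall1_cover (hc : IsCubulation G X) (hS : Sys X F E j) (y0 : V) {g : G} {ε : Bool}
    {x : V} (h1 : x ∉ g • comp (fam F E) y0) (h2 : x ∉ g • side X F E y0 ε) :
    x ∈ g • side X F E y0 (!ε) := by
  rw [Set.mem_smul_set_iff_inv_smul_mem] at h1 h2 ⊢
  rcases hS.cover hc y0 (g⁻¹ • x) with h | ⟨δ, h⟩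
  · exact absurd h h1
  · cases ε <;> cases δ <;> first | exact h | exact absurd h h2

theorem wall1_not_mem {y0 : V} {g : G} {x : V} (h1 : x ∈ g • comp (fam F E) y0) (ε : Bool) :
    x ∉ g • side X F E y0 ε := by
  rw [Set.mem_smul_set_iff_inv_smul_mem] at h1 ⊢
  exact Set.disjoint_right.1 (side_disjoint_comp y0 ε) h1

theorem wall1_meet (hc : IsCubulation G X) (hS : Sys X F E j) (y0 : V) (g g' : G) (δ δ' : Bool) :
    (hat G (comp (fam F E) y0) (g • side X F E y0 δ) ∩
      hat G (comp (fam F E) y0) (g' • side X F E y0 δ')).Nonempty ↔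
    (side X F E y0 δ ∩ (g⁻¹ * g') • side X F E y0 δ').Nonempty := by
  rw [hS.hat_meet_iff hc, ← Set.smul_set_nonempty (a := g⁻¹), Set.smul_set_inter, inv_smul_smul,
    smul_smul]

theorem Sys.mem_hs (hc : IsCubulation G X) (hS : Sys X F E j) (y0 : V)
    [MulAction G (Om G (comp (fam F E) y0))]
    (hact : ∀ (g : G) (s : Set V), g • hat G (comp (fam F E) y0) s =
      hat G (comp (fam F E) y0) (g • s)) {α : Set (Om G (comp (fam F E) y0))} :
    α ∈ hs G (hat G (comp (fam F E) y0) (side X F E y0 true)) ↔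
      ∃ (g : G) (ε : Bool), α = hat G (comp (fam F E) y0) (g • side X F E y0 ε) := by
  constructor
  · rintro ⟨g, h | h⟩
    · exact ⟨g, true, by rw [h, hact]⟩
    · exact ⟨g, false, by rw [h, hact, hS.hat_compl hc]; rfl⟩
  · rintro ⟨g, ε, h⟩
    cases ε
    · exact ⟨g, Or.inr (by rw [h, hact, hS.hat_compl hc]; rfl)⟩
    · exact ⟨g, Or.inl (by rw [h, hact])⟩

theorem pts_subset (y0 : V) (g : G) (ε : Bool) :
    pts X F E y0 (hat G (comp (fam F E) y0) (g • side X F E y0 ε)) ⊆ g • side X F E y0 ε := by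
  exact fun _ hx => hx g ε rfl

/-- the core of a wall is the union of the components representing it -/
theorem Sys.mem_core (hc : IsCubulation G X) (hS : Sys X F E j) (y0 : V) (g : G) (ε : Bool)
    (x : V) :
    x ∈ core (pts X F E y0) (hat G (comp (fam F E) y0) (g • side X F E y0 ε)) ↔
      ∃ (g' : G) (ε' : Bool), hat G (comp (fam F E) y0) (g • side X F E y0 ε) =
        hat G (comp (fam F E) y0) (g' • side X F E y0 ε') ∧ x ∈ g' • comp (fam F E) y0 := by
  constructor
  · intro hx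
    by_contra hn
    have h1 : x ∉ pts X F E y0 (hat G (comp (fam F E) y0) (g • side X F E y0 ε)) :=
      fun h => hx (Or.inl h)
    have h2 : x ∉ pts X F E y0 (hat G (comp (fam F E) y0) (g • side X F E y0 ε))ᶜ :=
      fun h => hx (Or.inr h)
    simp only [pts, Set.mem_ofPred_eq, not_forall] at h1 h2
    obtain ⟨g1, ε1, e1, m1⟩ := h1
    obtain ⟨g2, ε2, e2, m2⟩ := h2
    have e2' : hat G (comp (fam F E) y0) (g • side X F E y0 ε) =
        hat G (comp (fam F E) y0) (g2 • side X F E y0 (!ε2)) := by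
      rw [← hS.hat_compl hc, ← e2, compl_compl]
    have n1 := wall1_cover hc hS y0 (fun h => hn ⟨g1, ε1, e1, h⟩) m1
    have n2 := wall1_cover hc hS y0 (fun h => hn ⟨g2, !ε2, e2', h⟩) m2
    obtain ⟨ω, a1, a2⟩ := (hS.hat_meet_iff hc y0 g1 g2 _ _).2 ⟨x, n1, n2⟩
    rw [← hS.hat_compl hc, ← e1] at a1
    rw [← e2'] at a2
    exact a1 a2
  · rintro ⟨g', ε', e, hx⟩ (h | h)
    · exact wall1_not_mem hx ε' (h g' ε' e)
    · exact wall1_not_mem hx (!ε') (h g' (!ε') (by rw [e, hS.hat_compl hc]))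

theorem Sys.mem_pts (hc : IsCubulation G X) (hS : Sys X F E j) (y0 : V) (g : G) (ε : Bool)
    {x : V} (h1 : x ∉ core (pts X F E y0) (hat G (comp (fam F E) y0) (g • side X F E y0 ε)))
    (h2 : x ∈ g • side X F E y0 ε) :
    x ∈ pts X F E y0 (hat G (comp (fam F E) y0) (g • side X F E y0 ε)) := by
  rcases not_not.1 h1 with h | h
  · exact h
  · have h3 := h g (!ε) (hS.hat_compl hc y0 g ε)
    rw [Set.mem_smul_set_iff_inv_smul_mem] at h2 h3
    exact absurd h3 (Set.disjoint_left.1 (hS.side_disjoint hc y0 ε) h2)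

/-- two representatives of the same wall are in the third case -/
theorem Sys.caseQ_of_hat_eq (hc : IsCubulation G X) (hS : Sys X F E j) (y0 : V) {g g' : G}
    {ε ε' : Bool} (H : hat G (comp (fam F E) y0) (g • side X F E y0 ε) =
      hat G (comp (fam F E) y0) (g' • side X F E y0 ε')) : CaseQ X F E j y0 (g⁻¹ * g') := by
  have key : ∀ δ δ', (∃ h, Good X h ∧ h ⊆ side X F E y0 δ ∧
      h ⊆ (g⁻¹ * g') • side X F E y0 δ') →
      (hat G (comp (fam F E) y0) (g • side X F E y0 δ) ∩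
        hat G (comp (fam F E) y0) (g' • side X F E y0 δ')).Nonempty := by
    rintro δ δ' ⟨h, hg, h1, h2⟩
    obtain ⟨z, hz⟩ := hg.1.nonempty
    exact (wall1_meet hc hS y0 g g' δ δ').2 ⟨z, h1 hz, h2 hz⟩
  have q1 : ¬ ∃ h, Good X h ∧ h ⊆ side X F E y0 ε ∧ h ⊆ (g⁻¹ * g') • side X F E y0 (!ε') := by
    intro h
    obtain ⟨ω, a1, a2⟩ := key _ _ h
    rw [← hS.hat_compl hc, ← H] at a2
    exact a2 a1
  have q2 : ¬ ∃ h, Good X h ∧ h ⊆ side X F E y0 (!ε) ∧ h ⊆ (g⁻¹ * g') • side X F E y0 ε' := by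
    intro h
    obtain ⟨ω, a1, a2⟩ := key _ _ h
    rw [← hS.hat_compl hc, H] at a1
    exact a1 a2
  rcases hS.trichotomy hc y0 (g⁻¹ * g') with h | h | h
  · obtain ⟨a, a', -, h2⟩ := hS.caseN_empty hc h
    by_cases e : ε = a
    · exact absurd (h2 (!ε) ε' fun e' => by simp [← e] at e') q2
    · exact absurd (h2 ε (!ε') fun e' => e e'.1) q1
  · exact absurd (hS.caseX_quarter hc h _ _) q1
  · exact h

theorem Sys.hat_eq_of_caseQ (hc : IsCubulation G X) (hS : Sys X F E j) (y0 : V) {g g' : G}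
    (H : CaseQ X F E j y0 (g⁻¹ * g')) (ε ε' : Bool) :
    SameH (hat G (comp (fam F E) y0) (g • side X F E y0 ε))
      (hat G (comp (fam F E) y0) (g' • side X F E y0 ε')) := by
  have key : ∀ δ δ', Disjoint (side X F E y0 δ) ((g⁻¹ * g') • side X F E y0 δ') →
      Disjoint (hat G (comp (fam F E) y0) (g • side X F E y0 δ))
        (hat G (comp (fam F E) y0) (g' • side X F E y0 δ')) := by
    intro δ δ' h
    rw [← Set.not_nonempty_iff_eq_empty.trans Set.disjoint_iff_inter_eq_empty.symm] at h ⊢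
    rwa [wall1_meet hc hS]
  have fin : ∀ δ δ', Disjoint (side X F E y0 δ) ((g⁻¹ * g') • side X F E y0 (!δ')) →
      Disjoint (side X F E y0 (!δ)) ((g⁻¹ * g') • side X F E y0 δ') →
      hat G (comp (fam F E) y0) (g' • side X F E y0 δ') =
        hat G (comp (fam F E) y0) (g • side X F E y0 δ) := by
    intro δ δ' h1 h2
    have a1 := key _ _ h1
    have a2 := key _ _ h2
    rw [← hS.hat_compl hc] at a1 a2
    exact Set.Subset.antisymm (Set.disjoint_compl_left_iff_subset.1 a2)
      (Set.disjoint_compl_right_iff_subset.1 a1)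
  unfold SameH
  rw [hS.hat_compl hc]
  rcases H.1 with h | h
  · cases ε <;> cases ε'
    · exact Or.inl (fin false false (h false) (h true))
    · exact Or.inr (fin true true (h true) (h false))
    · exact Or.inr (fin false false (h false) (h true))
    · exact Or.inl (fin true true (h true) (h false))
  · cases ε <;> cases ε'
    · exact Or.inr (fin true false (h true) (h false))
    · exact Or.inl (fin false true (h false) (h true))
    · exact Or.inl (fin true false (h true) (h false))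
    · exact Or.inr (fin false true (h false) (h true))

theorem Sys.caseX_of_cross (hc : IsCubulation G X) (hS : Sys X F E j) (y0 : V) {g g' : G}
    {ε ε' : Bool} (H : Cross (hat G (comp (fam F E) y0) (g • side X F E y0 ε))
      (hat G (comp (fam F E) y0) (g' • side X F E y0 ε'))) : CaseX X F E y0 (g⁻¹ * g') := by
  have key : ∀ δ δ', ¬ Disjoint (side X F E y0 δ) ((g⁻¹ * g') • side X F E y0 δ') := by
    intro δ δ'
    rw [Set.not_disjoint_iff_nonempty_inter, ← wall1_meet hc hS]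
    obtain ⟨h1, h2, h3, h4⟩ := H
    simp only [hS.hat_compl hc] at h2 h3 h4
    cases ε <;> cases ε' <;> cases δ <;> cases δ' <;> assumption
  rcases hS.trichotomy hc y0 (g⁻¹ * g') with h | h | h
  · obtain ⟨a, a', h1, -⟩ := hS.caseN_empty hc h
    exact absurd h1 (key _ _)
  · exact h
  · rcases h.1 with h | h
    · exact absurd (h true) (key _ _)
    · exact absurd (h true) (key _ _)

theorem Sys.core_near (hc : IsCubulation G X) (hS : Sys X F E j) (y0 : V) (g : G) (ε : Bool)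
    {x : V} (hx : x ∈ core (pts X F E y0) (hat G (comp (fam F E) y0) (g • side X F E y0 ε))) :
    ∃ y ∈ g • comp (fam F E) y0, X.dist x y ≤ j + 1 := by
  obtain ⟨g', ε', e, hx'⟩ := (hS.mem_core hc y0 g ε x).1 hx
  obtain ⟨y, hy, hd⟩ := (hS.caseQ_of_hat_eq hc y0 e).2 (g⁻¹ • x)
    (by rw [mul_smul]; exact Set.smul_mem_smul_set hx')
  refine ⟨g • y, Set.smul_mem_smul_set hy, ?_⟩
  rw [← hc.dist_smul g⁻¹, inv_smul_smul]
  exact hd

theorem Sys.fin_core (hc : IsCubulation G X) (hS : Sys X F E j) (y0 x : V) :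
    {α : Set (Om G (comp (fam F E) y0)) | ∃ (g : G) (ε : Bool),
      α = hat G (comp (fam F E) y0) (g • side X F E y0 ε) ∧
        x ∈ g • comp (fam F E) y0}.Finite := by
  have := hS.fi
  refine Set.Finite.subset (Set.finite_iUnion (f := fun p : (G ⧸ F) × Bool =>
    {α : Set (Om G (comp (fam F E) y0)) | ∃ g : G, (g : G ⧸ F) = p.1 ∧
      α = hat G (comp (fam F E) y0) (g • side X F E y0 p.2) ∧ x ∈ g • comp (fam F E) y0})
    fun p => Set.Subsingleton.finite ?_) ?_
  · rintro _ ⟨g, e, rfl, hx⟩ _ ⟨g', e', rfl, hx'⟩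
    have hf : g'⁻¹ * g ∈ F := QuotientGroup.eq.1 (e'.trans e.symm)
    rw [Set.mem_smul_set_iff_inv_smul_mem] at hx hx'
    have h1 : Rel (fam F E) y0 ((g'⁻¹ * g) • g⁻¹ • x) := by
      rw [smul_smul, mul_inv_cancel_right]
      exact hx'
    have h2 := smul_side_of_rel hc hf (rel_of_smul_mem hf hx h1) p.2
    rw [mul_smul, inv_smul_eq_iff] at h2
    rw [h2]
  · rintro _ ⟨g, ε, rfl, hx⟩
    exact Set.mem_iUnion.2 ⟨((g : G ⧸ F), ε), g, rfl, rfl, hx⟩

end Pool.Agent.Lib.MP_3467cd_al
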