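import Pool.Agent.Lib.MP_3467cd_al.Defs

/-! Working definitions (not used in the final statement). -/

open Pointwise

namespace Pool.Agent.Lib.MP_3467cd_al

/-- The conclusion of the main theorem. -/
def Goal (G : Type) [Group G] : Prop :=
  ∃ (W : Type) (Y : SimpleGraph W) (_ : MulAction G W),
    IsCubulation G Y ∧ HyperplaneEssential G Y ∧ SingleOrbit G Y

section Graph
variable {V : Type}

def Cvx (X : SimpleGraph V) (C : Set V) : Prop := ∀ x ∈ C, ∀ y ∈ C, ∀ m, Btw X x m y → m ∈ C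

/-- halfspaces containing `y` and not `x` -/
def sep (X : SimpleGraph V) (x y : V) : Set (Set V) := {h | IsHalf X h ∧ x ∉ h ∧ y ∈ h}

/-- inner side of the carrier of the hyperplane bounding `h` -/
def inn (X : SimpleGraph V) (h : Set V) : Set V := {a | a ∈ h ∧ ∃ b, X.Adj a b ∧ b ∉ h}

def car (X : SimpleGraph V) (h : Set V) : Set V := inn X h ∪ inn X hᶜ

/-- `p` is the gate of `x` in `C` -/
def IsGate (X : SimpleGraph V) (C : Set V) (x p : V) : Prop := p ∈ C ∧ ∀ c ∈ C, Btw X x p c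

/-- strictly decreasing chain `c 0 ⊃ c 1 ⊃ ... ⊃ c n` of halfspaces -/
def Chn (X : SimpleGraph V) (n : ℕ) (c : ℕ → Set V) : Prop :=
  (∀ i ≤ n, IsHalf X (c i)) ∧ ∀ i < n, c (i + 1) ⊂ c i

/-- `k` lies `n` steps inside `h` -/
def Nest (X : SimpleGraph V) (n : ℕ) (k h : Set V) : Prop :=
  ∃ c, Chn X n c ∧ c 0 = h ∧ c n = k

def Near (X : SimpleGraph V) (r : ℕ) (h k : Set V) : Prop :=
  ∃ a ∈ car X h, ∃ b ∈ car X k, X.dist a b ≤ r

def Deep (X : SimpleGraph V) (h : Set V) : Prop :=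
  ∀ r : ℕ, ∃ z ∈ h, ∀ y, y ∉ h → r ≤ X.dist z y

def Good (X : SimpleGraph V) (h : Set V) : Prop := IsHalf X h ∧ Deep X h ∧ Deep X hᶜ

def Dim (X : SimpleGraph V) (D : ℕ) : Prop :=
  ∀ S : Finset (Set V), (∀ h ∈ S, IsHalf X h) → (∀ h ∈ S, ∀ k ∈ S, h ≠ k → Cross h k) →
    S.card ≤ D

def Thin (X : SimpleGraph V) (L : ℕ) : Prop :=
  ∀ c e : ℕ → Set V, Chn X L c → Chn X L e → ¬ ∀ i ≤ L, ∀ j ≤ L, Cross (c i) (e j)

/-- a metric rectangle with sides of length `n` and corners `a, u, w, v` -/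
def Rect (X : SimpleGraph V) (n : ℕ) (a u w v : V) : Prop :=
  X.dist a u = n ∧ X.dist a v = n ∧ X.dist u w = n ∧ X.dist v w = n ∧
    X.dist a w = 2 * n ∧ X.dist u v = 2 * n

/-- the gates in `h` of the points of `k` form a bounded set -/
def Tight (X : SimpleGraph V) (h k : Set V) : Prop :=
  ∃ (p : V) (r : ℕ), ∀ y ∈ k, ∀ q, IsGate X h y q → X.dist p q ≤ r

def Bridge (X : SimpleGraph V) (L : ℕ) : Prop :=
  1 ≤ L ∧ ∀ h k, IsHalf X h → Nest X L k hᶜ → Tight X h k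

def Facing (X : SimpleGraph V) : Prop :=
  ∃ h1 h2 h3, Good X h1 ∧ Good X h2 ∧ Good X h3 ∧ Disjoint h1 h2 ∧ Disjoint h1 h3 ∧ Disjoint h2 h3

def TwoIn (X : SimpleGraph V) : Prop :=
  ∀ h, IsHalf X h → Deep X h → ∃ k1 k2, Good X k1 ∧ Good X k2 ∧ k1 ⊆ h ∧ k2 ⊆ h ∧
    Disjoint k1 k2 ∧ Tight X k1 k2

def Dir5 (X : SimpleGraph V) : Prop :=
  ∃ r0 : ℕ, ∀ r : ℕ, ∃ r2 : ℕ, ∀ (z : V) (C : Fin 4 → Set V), (∀ i, Cvx X (C i)) →
    (∀ i, ∀ y ∈ C i, r0 ≤ X.dist z y) → ∃ h z2, IsHalf X h ∧ z2 ∈ h ∧ X.dist z z2 ≤ r2 ∧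
      (∀ i, Disjoint h (C i)) ∧ ∀ y, y ∉ h → r ≤ X.dist z2 y

/-- not separated by a member of `Z` -/
def Rel (Z : Set (Set V)) (x y : V) : Prop := ∀ k ∈ Z, (x ∈ k ↔ y ∈ k)

def comp (Z : Set (Set V)) (x : V) : Set V := {y | Rel Z x y}

/-- `k ∈ Z` is an outer halfspace of the component of `x` -/
def Outer (X : SimpleGraph V) (Z : Set (Set V)) (x : V) (k : Set V) : Prop :=
  k ∈ Z ∧ ∃ a ∈ inn X kᶜ, Rel Z x a

def Clear (X : SimpleGraph V) (Z : Set (Set V)) (r : ℕ) (z : V) : Prop :=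
  ∀ k ∈ Z, ∀ b ∈ car X k, r < X.dist z b

def HFam (X : SimpleGraph V) (Z : Set (Set V)) : Prop :=
  (∀ k ∈ Z, IsHalf X k) ∧ ∀ k ∈ Z, kᶜ ∈ Z

def Lam (Z : Set (Set V)) : Prop := ∀ k ∈ Z, ∀ k' ∈ Z, ¬ Cross k k'

def SameH (k k' : Set V) : Prop := k' = k ∨ k' = kᶜ

def Sparse (X : SimpleGraph V) (r : ℕ) (Z : Set (Set V)) : Prop :=
  ∀ k ∈ Z, ∀ k' ∈ Z, Near X r k k' → SameH k k'

def Tri (X : SimpleGraph V) (m : ℕ) (Z : Set (Set V)) : Prop :=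
  ∀ k1 ∈ Z, ∀ k2 ∈ Z, ∀ k3 ∈ Z, Near X m k1 k2 → Near X m k1 k3 → Near X m k2 k3 →
    SameH k1 k2 ∨ SameH k1 k3 ∨ SameH k2 k3

/-- a complement closed family of good halfspaces whose hyperplanes are far apart -/
def GFam (X : SimpleGraph V) (j : ℕ) (Z : Set (Set V)) : Prop :=
  (∀ k ∈ Z, Good X k) ∧ (∀ k ∈ Z, kᶜ ∈ Z) ∧ Sparse X (4 * j + 4) Z

def Giant (X : SimpleGraph V) (A B : Set (Set V)) (j : ℕ) (z : V) : Prop :=
  ∃ z', Rel (A ∪ B) z z' ∧ (Clear X A j z' ∨ Clear X B j z')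

/-- `u'` and `u` differ only within distance `j` of both hyperplanes -/
def Match (X : SimpleGraph V) (j : ℕ) (u' u : Set V) : Prop :=
  ∀ z, ¬ (z ∈ u' ↔ z ∈ u) →
    (∃ b ∈ car X u, X.dist z b ≤ j) ∧ ∃ b ∈ car X u', X.dist z b ≤ j

end Graph

section Act
variable {G : Type} [Group G] {V : Type} [MulAction G V]

def fam (F : Subgroup G) (E : Set (Set V)) : Set (Set V) :=
  {k | ∃ f ∈ F, ∃ e ∈ E, k = f • e ∨ k = (f • e)ᶜ}

def orb (F : Subgroup G) (k : Set V) : Set (Set V) := {e | ∃ f ∈ F, e = f • k}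

/-- signed number of members of the orbit of `k` crossed on the way from `x` to `z` -/
noncomputable def pc (F : Subgroup G) (k : Set V) (x z : V) : ℤ :=
  (({e ∈ orb F k | x ∉ e ∧ z ∈ e}.ncard : ℕ) : ℤ) - (({e ∈ orb F k | x ∈ e ∧ z ∉ e}.ncard : ℕ) : ℤ)

def HomOn (F : Subgroup G) (ψ : G → ℤ) : Prop := ∀ a ∈ F, ∀ b ∈ F, ψ (a * b) = ψ a + ψ b

def Kills (F : Subgroup G) (ψ : G → ℤ) (k : Set V) : Prop := ∀ s ∈ F, s • k = k → ψ s = 0

/-- hypotheses of the descent lemma -/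
structure Tree3 (X : SimpleGraph V) (F : Subgroup G) (Z : Set (Set V)) : Prop where
  fi : F.FiniteIndex
  hfam : HFam X Z
  lam : Lam Z
  inv : ∀ f ∈ F, ∀ k ∈ Z, f • k ∈ Z
  two : ∀ f ∈ F, ∀ k ∈ Z, f • k ≠ kᶜ
  val : ∀ x, ∃ o : Fin 3 → Set V, (∀ i, Outer X Z x (o i)) ∧
    ∀ i i', i ≠ i' → ∀ f ∈ F, ¬ SameH (f • o i) (o i')

end Act

/-- integral form on halfspaces with congruence subgroups -/
structure BF (G : Type) [Group G] {V : Type} (X : SimpleGraph V) [MulAction G V] where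
  B : Set V → Set V → ℤ
  N : ℕ → Subgroup G
  inv : ∀ (g : G) h k, IsHalf X h → IsHalf X k → B (g • h) (g • k) = B h k
  symm : ∀ h k, B h k = B k h
  self : ∀ h, IsHalf X h → B h h = 1
  nest : ∀ n h k, 1 ≤ n → Nest X n k h → (n : ℤ) + 1 ≤ B h k
  incomp : ∀ h k, IsHalf X h → IsHalf X k → ¬ h ⊆ k → ¬ k ⊆ h → B h k ≤ 0
  normal : ∀ n, (N n).Normal
  fi : ∀ n, 1 ≤ n → (N n).FiniteIndex
  cong : ∀ n, ∀ f ∈ N n, ∀ h k, IsHalf X h → IsHalf X k → (n : ℤ) ∣ B (f • h) k - B h k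

def SepA (G : Type) [Group G] {V : Type} (X : SimpleGraph V) [MulAction G V] : Prop :=
  (∀ r : ℕ, ∃ F : Subgroup G, F.Normal ∧ F.FiniteIndex ∧
    ∀ f ∈ F, ∀ h, IsHalf X h → Near X r (f • h) h → f • h = h) ∧
  ∀ h k, IsHalf X h → IsHalf X k → h ≠ k →
    ∃ F : Subgroup G, F.Normal ∧ F.FiniteIndex ∧ ∀ f ∈ F, f • h ≠ k

def SepB (G : Type) [Group G] {V : Type} (X : SimpleGraph V) [MulAction G V] : Prop :=
  ∃ Cf : ℕ → ℕ, (∀ r, 1 ≤ Cf r) ∧ ∀ (r' : ℕ) (E : Set (Set V)), E.Finite →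
    (∀ e ∈ E, IsHalf X e) → (∀ e ∈ E, ∀ e' ∈ E, e ⊆ e' ∨ e' ⊆ e) →
    ∃ F : Subgroup G, F.Normal ∧ F.FiniteIndex ∧ ∀ f ∈ F, ∀ e ∈ E, ∀ e' ∈ E,
      (Near X r' (f • e) e' → (f • e ⊆ e' ∨ e' ⊆ f • e) ∧ (e = e' → f • e = e)) ∧
      ∀ r ≤ r', (Nest X (Cf r) e e' ∨ Nest X (Cf r) e' e) → ¬ Near X r (f • e) e'

/-- finitely many integral characters of a finite index subgroup -/
structure Funl (G : Type) [Group G] {V : Type} (X : SimpleGraph V) [MulAction G V] where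
  F : Subgroup G
  normal : F.Normal
  fi : F.FiniteIndex
  Ψ : Set (G → ℤ)
  fin : Ψ.Finite
  hom : ∀ ψ ∈ Ψ, HomOn F ψ
  b1 : G
  b2 : G
  mem1 : b1 ∈ F
  mem2 : b2 ∈ F
  kill : ∀ k, Good X k → ∃ χ ∈ Ψ, ∃ ψ ∈ Ψ, Kills F χ k ∧ Kills F ψ k ∧
    χ b1 = 0 ∧ χ b2 ≠ 0 ∧ ψ b2 = 0 ∧ ψ b1 ≠ 0

def GiantProp (G : Type) [Group G] {V : Type} (X : SimpleGraph V) [MulAction G V] : Prop :=
  ∀ K : ℕ, ∃ r : ℕ, ∀ F1 : Subgroup G, F1.Normal → F1.FiniteIndex →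
    ∃ F2 : Subgroup G, F2 ≤ F1 ∧ F2.Normal ∧ F2.FiniteIndex ∧
      ∀ Z : Set (Set V), Z.Finite → Z.ncard ≤ K → (∀ k ∈ Z, Good X k) →
        ∀ z z', Clear X (fam F2 Z) r z → Clear X (fam F2 Z) r z' →
          ∃ f ∈ F2, Rel (fam F2 Z) (f • z') z

def EscProp {V : Type} (X : SimpleGraph V) : Prop :=
  ∃ j : ℕ, ∀ r : ℕ, ∃ m : ℕ, ∀ A B : Set (Set V), GFam X j A → GFam X j B →
    Tri X m A → Tri X m B → ∀ z, Clear X A j z →
      ∃ z', Rel (A ∪ B) z z' ∧ Clear X (A ∪ B) r z'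

/-- the sparse system of cutting hyperplanes -/
structure Sys {G : Type} [Group G] {V : Type} (X : SimpleGraph V) [MulAction G V]
    (F : Subgroup G) (E : Set (Set V)) (j : ℕ) : Prop where
  normal : F.Normal
  fi : F.FiniteIndex
  fin : E.Finite
  good : ∀ e ∈ E, Good X e
  two : ∃ e ∈ E, ∃ e' ∈ E, e ≠ e'
  chain : ∀ e ∈ E, ∀ e' ∈ E, e ⊆ e' ∨ e' ⊆ e
  sparse : ∀ f ∈ F, ∀ e ∈ E, ∀ e' ∈ E, Near X (4 * j + 4) (f • e) e' → e = e' ∧ f • e = e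
  cmp : ∃ R : ℕ, (∀ e ∈ E, ∀ e' ∈ E, Near X R e e') ∧ ∀ f ∈ F, ∀ e ∈ E, ∀ e' ∈ E,
    Near X (R + 2 * j + 2) (f • e) e' → f • e ⊆ e' ∨ e' ⊆ f • e
  both : ∀ (g : G) z, Giant X (fam F E) (g • fam F E) j z →
    ∃ z', Rel (fam F E ∪ g • fam F E) z z' ∧ Clear X (fam F E) j z' ∧ Clear X (g • fam F E) j z'
  uniq : ∀ (g : G) z z', Giant X (fam F E) (g • fam F E) j z →
    Giant X (fam F E) (g • fam F E) j z' → ∃ f ∈ F, Rel (fam F E ∪ g • fam F E) (f • z') z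
  pair : ∀ D : ℕ, ∃ R : ℕ, ∀ x y, R ≤ X.dist x y → ∃ (g : G), ∃ e ∈ E, ∃ e' ∈ E,
    ∃ a ∈ inn X e, ∃ b ∈ inn X e'ᶜ, Rel (fam F E) a b ∧
      (∀ z ∈ g • e, D < X.dist x z) ∧ ∀ z, z ∉ g • e' → D < X.dist y z
  place : ∀ h, IsHalf X h → Deep X h → ∃ u ∈ fam F E, u ⊆ h
  twoIn : TwoIn X

section Sides
variable {G : Type} [Group G] {V : Type} [MulAction G V]

/-- complement or identity -/
def sg (ε : Bool) (s : Set V) : Set V := cond ε sᶜ s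

def typ (F : Subgroup G) (E : Set (Set V)) (ε : Bool) (o : Set V) : Prop :=
  ∃ f ∈ F, ∃ e ∈ E, o = sg ε (f • e)

/-- the two sides of the new wall -/
def side (X : SimpleGraph V) (F : Subgroup G) (E : Set (Set V)) (y0 : V) (ε : Bool) : Set V :=
  {x | ∃ o, Outer X (fam F E) y0 o ∧ typ F E ε o ∧ x ∈ o}

def CaseN (X : SimpleGraph V) (F : Subgroup G) (E : Set (Set V)) (y0 : V) (g : G) : Prop :=
  ∃ o o', Outer X (fam F E) y0 o ∧ Outer X (fam F E) y0 o' ∧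
    (∀ k, Outer X (fam F E) y0 k → k ≠ o → k ⊆ g • o') ∧
    (∀ k, Outer X (fam F E) y0 k → k ≠ o' → g • k ⊆ o) ∧
    comp (fam F E) y0 ⊆ g • comp (fam F E) y0 ∪ g • o' ∧
    g • comp (fam F E) y0 ⊆ comp (fam F E) y0 ∪ o

def CaseX (X : SimpleGraph V) (F : Subgroup G) (E : Set (Set V)) (y0 : V) (g : G) : Prop :=
  (comp (fam F E) y0 ∩ g • comp (fam F E) y0).Nonempty ∧
    ∀ ε, ∃ o', Outer X (fam F E) y0 o' ∧ typ F E ε o' ∧
      ∃ f ∈ F, Rel (fam F E) y0 (f • y0) ∧ f • (g • o') ⊂ g • o'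

def CaseQ (X : SimpleGraph V) (F : Subgroup G) (E : Set (Set V)) (j : ℕ) (y0 : V) (g : G) :
    Prop :=
  ((∀ ε, Disjoint (side X F E y0 ε) (g • side X F E y0 (!ε))) ∨
    ∀ ε, Disjoint (side X F E y0 ε) (g • side X F E y0 ε)) ∧
  ∀ y ∈ g • comp (fam F E) y0, ∃ y' ∈ comp (fam F E) y0, X.dist y y' ≤ j + 1

end Sides

/-- ultrafilters avoiding all translates of `Y` -/
def Om (G : Type) [Group G] {V : Type} [MulAction G V] (Y : Set V) : Type :=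
  {ω : Ultrafilter V // ∀ g : G, g • Y ∉ ω}

def hat (G : Type) [Group G] {V : Type} [MulAction G V] (Y : Set V) (s : Set V) :
    Set (Om G Y) := {ω | s ∈ ω.1}

/-- the points lying on the side `α` for every representative of the wall -/
def pts {G : Type} [Group G] {V : Type} [MulAction G V] (X : SimpleGraph V) (F : Subgroup G)
    (E : Set (Set V)) (y0 : V) (α : Set (Om G (comp (fam F E) y0))) : Set V :=
  {x | ∀ (g : G) (ε : Bool), α = hat G (comp (fam F E) y0) (g • side X F E y0 ε) →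
    x ∈ g • side X F E y0 ε}

section Walls

def hs (G : Type) [Group G] {Ω : Type} [MulAction G Ω] (A : Set Ω) : Set (Set Ω) :=
  {α | ∃ g : G, α = g • A ∨ α = (g • A)ᶜ}

def core {Ω V : Type} (P : Set Ω → Set V) (α : Set Ω) : Set V := (P α ∪ P αᶜ)ᶜ

structure WallSys (G : Type) [Group G] {Ω V : Type} [MulAction G Ω] [MulAction G V]
    (A : Set Ω) (P : Set Ω → Set V) (d : V → V → ℕ) : Prop where
  ne : A.Nonempty ∧ Aᶜ.Nonempty
  equiv : ∀ g : G, ∀ α ∈ hs G A, P (g • α) = g • P α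
  meet : ∀ α ∈ hs G A, ∀ β ∈ hs G A, (P α ∩ P β).Nonempty → (α ∩ β).Nonempty
  finCore : ∀ x, {α ∈ hs G A | x ∈ core P α}.Finite
  finSep : ∀ x y, {α ∈ hs G A | x ∈ P α ∧ y ∈ P αᶜ}.Finite
  helly : ∀ S : Set (Set Ω), S.Finite → S ⊆ hs G A → (∀ α ∈ S, ∀ β ∈ S, α ≠ β → Cross α β) →
    ∃ x, ∀ α ∈ S, x ∈ core P α
  nested : ∀ α ∈ hs G A, ∀ β ∈ hs G A, β ≠ α → β ≠ αᶜ → ∀ x ∈ core P α, x ∈ P β →
    (β ∩ α).Nonempty
  cocompact : ∃ S : Finset V, ∀ v : V, ∃ g : G, g • v ∈ S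
  tri : ∀ x y z, d x z ≤ d x y + d y z
  symm : ∀ x y, d x y = d y x
  ball : ∀ x r, {y | d x y ≤ r}.Finite
  proper : ∀ x r, {g : G | d x (g • x) ≤ r}.Finite
  sepa : ∃ R, ∀ x y, R ≤ d x y → ∃ α ∈ hs G A, x ∈ P α ∧ y ∈ P αᶜ
  ess : ∀ α ∈ hs G A, ∀ β ∈ hs G A, Cross α β → ∀ x ∈ core P α, ∀ r : ℕ,
    ∃ s : G, s • α = α ∧ s • x ∈ P β ∧ ∀ y ∈ core P β, r ≤ d (s • x) y

/-- consistent orientation of the family `H` -/
def Ori {Ω : Type} (H σ : Set (Set Ω)) : Prop :=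
  σ ⊆ H ∧ (∀ α ∈ H, α ∈ σ ↔ αᶜ ∉ σ) ∧ ∀ α ∈ σ, ∀ β ∈ σ, (α ∩ β).Nonempty

def DV {Ω : Type} (H σ0 : Set (Set Ω)) : Type := {σ : Set (Set Ω) // Ori H σ ∧ (σ \ σ0).Finite}

def dual {Ω : Type} (H σ0 : Set (Set Ω)) : SimpleGraph (DV H σ0) :=
  SimpleGraph.fromRel fun σ τ => ∃ α, σ.1 \ τ.1 = {α}

/-- the pocset hypotheses under which the dual graph is median -/
structure Poc {Ω : Type} (H σ0 : Set (Set Ω)) : Prop where
  compl : ∀ α ∈ H, αᶜ ∈ H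
  ne : ∀ α ∈ H, α.Nonempty
  ori : Ori H σ0
  fin : ∀ α ∈ H, {β ∈ σ0 | β ⊆ α}.Finite

def Compat {Ω V : Type} (H : Set (Set Ω)) (P : Set Ω → Set V) (x : V) (σ : Set (Set Ω)) : Prop :=
  ∀ α ∈ H, x ∈ P α → α ∈ σ

end Walls

section Lin
variable {C : Type} [Fintype C]

open Classical in
noncomputable def coef (P : C → C → Prop) (c d : C) : ℤ :=
  if c = d then 1 else if P c d then 0 else -2

noncomputable def bil (P : C → C → Prop) (v w : C → ℤ) : ℤ :=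
  ∑ c, ∑ d, coef P c d * v c * w d

open Classical in
noncomputable def ee (c : C) : C → ℤ := fun d => if d = c then 1 else 0

open Classical in
noncomputable def ss (P : C → C → Prop) (c : C) (v : C → ℤ) : ℤ :=
  ∑ d, if d ≠ c ∧ ¬ P c d then v d else 0

/-- the reflection in `ee c` -/
noncomputable def rf (P : C → C → Prop) (c : C) : Module.End ℤ (C → ℤ) where
  toFun v := v - (2 * bil P (ee c) v) • ee c
  map_add' v w := by
    have : bil P (ee c) (v + w) = bil P (ee c) v + bil P (ee c) w := by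
      simp only [bil, Pi.add_apply, mul_add, Finset.sum_add_distrib]
    rw [this, mul_add, add_smul]; abel
  map_smul' t v := by
    have : bil P (ee c) (t • v) = t * bil P (ee c) v := by
      simp only [bil, Pi.smul_apply, smul_eq_mul, Finset.mul_sum]
      refine Finset.sum_congr rfl fun a _ => Finset.sum_congr rfl fun b _ => by ring
    rw [this, RingHom.id_apply, smul_sub, smul_smul]
    congr 2; ring

end Lin

/-- colouring of the halfspaces and parallel transport -/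
structure Hol {V : Type} (X : SimpleGraph V) (C : Type) [Fintype C] where
  P : C → C → Prop
  psymm : ∀ c d, P c d → P d c
  pirr : ∀ c, ¬ P c c
  col : Set V → C
  M : V → (Module.End ℤ (C → ℤ))ˣ
  M_adj : ∀ x y, X.Adj x y → (M y : Module.End ℤ (C → ℤ)) =
    (M x : Module.End ℤ (C → ℤ)) * (rf P (col (half X x y)) * rf P (col (half X y x)))
  M_bil : ∀ x v w, bil P ((M x : Module.End ℤ (C → ℤ)) v) ((M x : Module.End ℤ (C → ℤ)) w) =
    bil P v w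
  cross : ∀ h k, IsHalf X h → IsHalf X k → Cross h k → P (col h) (col k)
  two : ∀ h, IsHalf X h → col h ≠ col hᶜ ∧ ¬ P (col h) (col hᶜ)
  uniq : ∀ h k a, IsHalf X h → IsHalf X k → a ∈ inn X h → a ∈ inn X k → col h = col k → h = k
  osc : ∀ h k a, IsHalf X h → IsHalf X k → a ∈ inn X h → a ∈ inn X k → ¬ Cross h k →
    ¬ P (col h) (col k)

open Classical in
/-- the root of a halfspace -/
noncomputable def Hol.gam {V : Type} {X : SimpleGraph V} {C : Type} [Fintype C] (H : Hol X C)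
    (k : Set V) : C → ℤ :=
  if h : (inn X k).Nonempty then (H.M h.some : Module.End ℤ (C → ℤ)) (ee (H.col k)) else 0

noncomputable def Hol.B {V : Type} {X : SimpleGraph V} {C : Type} [Fintype C] (H : Hol X C)
    (h k : Set V) : ℤ := bil H.P (H.gam h) (H.gam k)

open Classical in
/-- the root of `k` seen from `x`, with the sign that makes it positive -/
noncomputable def Hol.vx {V : Type} {X : SimpleGraph V} {C : Type} [Fintype C] (H : Hol X C)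
    (k : Set V) (x : V) : C → ℤ :=
  if x ∈ k then (((H.M x)⁻¹ : (Module.End ℤ (C → ℤ))ˣ) : Module.End ℤ (C → ℤ)) (H.gam k)
  else -(((H.M x)⁻¹ : (Module.End ℤ (C → ℤ))ˣ) : Module.End ℤ (C → ℤ)) (H.gam k)

/-- the side of `k` not containing `x` -/
def tgt {V : Type} (k : Set V) (x : V) : Set V := {y | ¬ (y ∈ k ↔ x ∈ k)}

end Pool.Agent.Lib.MP_3467cd_al
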